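import Pool.Agent.Lib.MP_c8786f_co.W5.Defs2

/-!
Reducible blobs in cubic graphs of large girth: the interface statements.
-/

namespace Pool.Agent.Lib.MP_c8786f_co.W5

open Finset

section Graph

variable {V E T X : Type} [Fintype V] [DecidableEq V] [Fintype E] [DecidableEq E] [Fintype T]
  [DecidableEq T] [Fintype X]

/-- parity repair that also absorbs the fixed source `σ` -/
def Fix3 (s t : E → V) (β : T → X → V → ℝ) (m0 : X → ℝ) (own : V → T) (σ : V → ℝ)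
    (Z : Set (E → ℝ)) (J A' : ℕ) : Prop :=
  ∀ (cl : T → T) (B : Finset T), (∀ τ ∈ B, J ≤ (B.filter fun τ' => cl τ' = cl τ).card) →
    (∀ Y : Finset V, (∀ v ∈ Y, own v ∉ B) → Y.card ≤ A' * cut s t Y) →
    ∀ r : T → ℝ, (∃ n : ℤ, ∑ A ∈ B.image cl, r A - ∑ v, σ v = 2 * n) →
    ∃ z ∈ Z, ∃ y : T → ℝ, (∀ τ, |y τ| ≤ 2) ∧ (∀ τ, τ ∉ B → y τ = 0) ∧
      (∀ v, bd s t z v = ∑ τ, y τ * mu β m0 τ v - σ v) ∧
      ∀ A ∈ B.image cl, ∃ n : ℤ, ∑ τ ∈ B with cl τ = A, y τ - r A = 2 * n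

end Graph

section Model

variable {V : Type} [Fintype V] [DecidableEq V]

/-- the number of edges from `Y` to the rest of `B` -/
def icut (n : Equiv.Perm V) (m : V → V) (B Y : Finset V) : ℕ :=
  (univ.filter fun q : V × Fin 3 => q.1 ∈ Y ∧ step n m q.2 q.1 ∈ B ∧ step n m q.2 q.1 ∉ Y).card

/-- the walk `w` from `v` stays in `B` -/
def Ins (n : Equiv.Perm V) (m : V → V) (B : Finset V) : List (Fin 3) → V → Prop
  | [], v => v ∈ B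
  | a :: w, v => Ins n m B w v ∧ act n m (a :: w) v ∈ B

/-- a large set with few, far apart boundary edges, no short cycles and no small inner cuts -/
structure Blob (n : Equiv.Perm V) (m : V → V) (B : Finset V) (k D Φ K : ℕ) : Prop where
  clean : ∀ a l a' l' w, step n m l a ∉ B → step n m l' a' ∉ B → Ins n m B w a → w.length ≤ D →
    act n m w a = a' → a = a' ∧ l = l'
  few : hcut n m B ≤ Φ
  big : K < B.card
  forest : ∀ Y ⊆ B, Y.Nonempty → Y.card ≤ K → Y.card + 2 ≤ hcut n m Y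
  conn : ∀ Y ⊆ B, Φ < Y.card → Φ < (B \ Y).card → k ≤ icut n m B Y

/-- a blob inside an ambient model of large girth -/
structure Amb (n : Equiv.Perm V) (m : V → V) (B : Finset V) (k D Φ K : ℕ) : Prop where
  inj : Inj n m D
  clean : ∀ a ∈ B, ∀ a' ∈ B, ∀ l l' w, step n m l a ∉ B → step n m l' a' ∉ B → w.length ≤ D →
    act n m w a = a' → a = a' ∧ l = l'
  few : hcut n m B ≤ Φ
  iso0 : ∀ Y ⊆ B, Y.card ≤ D → Y.card ≤ icut n m B Y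
  iso1 : ∀ Y ⊆ B, Y.card ≤ K → Y.card ≤ 2 * icut n m B Y
  conn : ∀ Y ⊆ B, Φ < Y.card → Φ < (B \ Y).card → k ≤ icut n m B Y

/-- prescribed values `x` on the darts leaving `B` extend to a balanced valuation on `B` -/
def Ext (n : Equiv.Perm V) (m : V → V) (B : Finset V) (r : ℝ) : Prop :=
  ∀ x : V × Fin 3 → ℝ, (∀ q, |x q| ≤ 1) →
    (∃ j : ℤ, ∑ q with q.1 ∈ B ∧ step n m q.2 q.1 ∉ B, x q - B.card = 2 * j) →
    ∃ g : V × Fin 3 → ℝ, ∀ v ∈ B, (∑ l, g (v, l) = 1 ∨ ∑ l, g (v, l) = -1) ∧ ∀ l,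
      (step n m l v ∉ B → g (v, l) = x (v, l)) ∧
      (step n m l v ∈ B → g (step n m l v, inv l) = -g (v, l) ∧ |g (v, l)| ≤ r)

/-- the edges inside `B`, matching edges doubled -/
abbrev EB (n : Equiv.Perm V) (m : V → V) (B : Finset V) : Type :=
  {e : V × Bool // e.1 ∈ B ∧ (if e.2 then m e.1 else n e.1) ∈ B}

def sB (n : Equiv.Perm V) (m : V → V) (B : Finset V) (e : EB n m B) : B := ⟨e.1.1, e.2.1⟩

def tB (n : Equiv.Perm V) (m : V → V) (B : Finset V) (e : EB n m B) : B := ⟨_, e.2.2⟩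

/-- extension by zero -/
def zx (n : Equiv.Perm V) (m : V → V) (B : Finset V) (z : EB n m B → ℝ) (e : V × Bool) : ℝ :=
  if h : e.1 ∈ B ∧ (if e.2 then m e.1 else n e.1) ∈ B then z ⟨e, h⟩ else 0

end Model

/-- Module GT3. -/
def AB3Stmt : Prop :=
  ∀ (ε ε2 : ℝ) (M : ℕ), 0 < ε → ε ≤ 1 → 0 < ε2 → 0 < M → ∃ A : ℝ, 0 < A ∧
    ∀ (P α l1 : ℝ) (L1 J : ℕ), 1 ≤ P → 0 ≤ l1 → 2 ≤ J → α * A * P ^ 7 ≤ 1 → ∃ K : ℕ,
    ∀ (V E T X : Type) [Fintype V] [DecidableEq V] [Fintype E] [DecidableEq E] [Fintype T]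
      [DecidableEq T] [Fintype X]
      (s t : E → V) (β : T → X → V → ℝ) (Λ : T → Finset V) (own : V → T) (F : T → Finset E),
      Geo s t β Λ own F α P l1 L1 0 → Iso s t K → (Fintype.card X : ℝ) + 1 ≤ P →
      ∀ m0 : X → ℝ, (∀ x, 0 ≤ m0 x) → ∑ x, m0 x = 1 →
      ∀ (σ : V → ℝ) (Z : Set (E → ℝ)), Fix3 s t β m0 own σ Z J (4 * L1 * J) →
      ∀ (p : T → ℤ) (kap : T → ℤ → Fin M → X → ℝ),
      (∃ n : ℤ, ∑ τ, (p τ : ℝ) - ∑ v, σ v = 2 * n) →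
      (∀ τ Q i, |Q| ≤ 6480 → Even (Q - p τ) →
        ∑ x, kap τ Q i x = Q ∧ ∑ x, |kap τ Q i x| ≤ 6480) →
      ∃ z0 ∈ Z, ∃ (z : E → ℝ) (Q : T → ℤ) (i : T → Fin M) (ρ : T → X → ℝ),
        (∀ e, |z e| ≤ 6 * ε) ∧
        (∀ τ, |Q τ| ≤ 6480 ∧ Even (Q τ - p τ) ∧ ∑ x, ρ τ x = 0 ∧ ∑ x, |ρ τ x| ≤ ε2) ∧
        ∀ v, bd s t (z0 + z) v = ∑ τ, ∑ x, (Q τ * m0 x - (∑ j, kap τ (Q τ) j x) / M +
          kap τ (Q τ) (i τ) x + ρ τ x) * β τ x v - σ v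

/-- Module Route: a thin source of bounded mass is absorbed by the windows of `B`. -/
def RouteStmt : Prop :=
  ∀ (L1 A' : ℕ) (Φ η ξ : ℝ), 0 < η → 0 < ξ → ∃ K : ℕ,
    ∀ (V E T X : Type) [Fintype V] [DecidableEq V] [Fintype E] [DecidableEq E] [Fintype T]
      [DecidableEq T] [Fintype X]
      (s t : E → V) (β : T → X → V → ℝ) (Λ : T → Finset V) (own : V → T) (F : T → Finset E)
      (α l0 l1 : ℝ), Geo s t β Λ own F α l0 l1 L1 0 →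
      (∀ Y : Finset V, Y.card ≤ K → Y.card ≤ 2 * cut s t Y) →
      ∀ m0 : X → ℝ, (∀ x, 0 ≤ m0 x) → ∑ x, m0 x = 1 → ∀ B : Finset T,
      (∀ Y : Finset V, (∀ v ∈ Y, own v ∉ B) → Y.card ≤ A' * cut s t Y) →
      ∀ σ : V → ℝ, (∀ v, 2 * |σ v| ≤ ξ) → ∑ v, |σ v| ≤ Φ →
      ∃ (z : E → ℝ) (y : T → ℝ), (∀ e, |z e| ≤ ξ + 2 * η) ∧ (∀ τ, |y τ| ≤ η) ∧
        (∀ τ, τ ∉ B → y τ = 0) ∧ ∀ v, bd s t z v = ∑ τ, y τ * mu β m0 τ v - σ v

/-- Module Fix3. -/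
def Fix3Stmt : Prop :=
  ∀ (L1 A' k n K0 : ℕ) (Φ ξ : ℝ), 1 ≤ k → 1 ≤ n → 0 < ξ → ∃ K : ℕ,
    ∀ (V E T X : Type) [Fintype V] [DecidableEq V] [Fintype E] [DecidableEq E] [Fintype T]
      [DecidableEq T] [Fintype X]
      (s t : E → V) (β : T → X → V → ℝ) (Λ : T → Finset V) (own : V → T) (F : T → Finset E)
      (α l0 l1 : ℝ) (wt : E → ℕ), Geo s t β Λ own F α l0 l1 L1 0 →
      (∀ Y : Finset V, Y.card ≤ K → Y.card ≤ 2 * cut s t Y ∧ Y.card ≤ wcut s t wt Y) →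
      (∀ Y : Finset V, K0 < Y.card → K0 < Yᶜ.card → 2 * k ≤ wcut s t wt Y) →
      ∀ m0 : X → ℝ, (∀ x, 0 ≤ m0 x) → ∑ x, m0 x = 1 →
      ∀ σ : V → ℝ, (∀ v, 2 * |σ v| ≤ ξ) → ∑ v, |σ v| ≤ Φ →
      Fix3 s t β m0 own σ {z | ∀ e, |z e| ≤ wt e / k + 2 / (n * k) + ξ} ((4 * n + 2) * k) A'

/-- Module Windows3: windows that avoid a sparse set. -/
def Windows3Stmt : Prop :=
  ∀ (D R : ℕ) (V : Type) [Fintype V] [DecidableEq V] (n : Equiv.Perm V) (m : V → V),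
    (∀ v, m (m v) = v) → Inj n m (96 * (D + 1) ^ 2 * 16 ^ R) → ∀ A : Finset V,
    (∀ a ∈ A, ∀ a' ∈ A, ∀ w : List (Fin 3), w.length ≤ 96 * (D + 1) ^ 2 * 16 ^ R →
      act n m w a = a' → a = a') →
    ∃ S own back, Seg n m S own back D R (96 * (D + 1) ^ 2 * 16 ^ R) ∧
      ∀ s ∈ S, ∀ j ≤ D, ∀ w : List (Fin 3), w.length ≤ 2 * R + 1 → act n m w ((n ^ j) s) ∉ A

/-- Module Phases3: phases with prescribed patterns at a sparse set of roots. -/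
def Phases3Stmt : Prop :=
  ∀ j0 : ℕ, 1 ≤ j0 → ∃ ρ c : ℝ, 0 < ρ ∧ ρ < 1 ∧ 0 < c ∧ ∀ T D R L : ℕ, 2 * j0 ≤ R →
    L * ρ ^ T ≤ c →
    ∀ (V : Type) [Fintype V] [DecidableEq V] (n : Equiv.Perm V) (m : V → V),
    (∀ v, m (m v) = v) → Inj n m (2 * L + 2 * D + 8 * j0 + 1) →
    ∀ S own back, Seg n m S own back D R L → ∀ (U : Finset V) (yU cU : V → ℝ),
    (∀ u, yU u = 1 ∨ yU u = -1) → (∀ u, cU u = 1 ∨ cU u = -1) →
    (∀ u ∈ U, ∀ u' ∈ U, ∀ w : List (Fin 3), w.length ≤ 2 * L + D + 8 * j0 →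
      act n m w u = u' → u = u') →
    (∀ s ∈ S, ∀ j ≤ D, ∀ w : List (Fin 3), w.length ≤ 4 * j0 → act n m w ((n ^ j) s) ∉ U) →
    ∃ χ : V → ℝ, (∀ v, χ v = 1 ∨ χ v = -1) ∧ (∀ v, n v ∉ S → χ (n v) = -χ v) ∧
      (∀ s ∈ S, ∀ σ : ℕ, (σ + 1) * (2 * T + 2) ≤ D → ∀ y : ℝ, y = 1 ∨ y = -1 → ∀ π < 2,
        ∃ j, σ * (2 * T + 2) ≤ j ∧ j + 2 ≤ σ * (2 * T + 2) + 2 * T + 1 ∧ j % 2 = π ∧
          Good n m χ j0 ((n ^ j) s) y ∧ Good n m χ j0 ((n ^ (j + 1)) s) y) ∧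
      ∀ u ∈ U, χ u = cU u ∧ Good n m χ j0 u (yU u)

/-- Module Emit3: charges of size at most one. -/
def Emit3Stmt : Prop :=
  ∀ (j0 R : ℕ) (V : Type) [Fintype V] [DecidableEq V] (n : Equiv.Perm V) (m : V → V)
    (A : Finset V), 1 ≤ R → (∀ v, m (m v) = v) → TreeInj n m A R →
    ∃ β : V → V → ℝ, (∀ u v, 0 ≤ β u v) ∧ (∀ u, ∑ v, β u v = 1) ∧
      (∀ u v, β u v ≠ 0 → ∃ w : List (Fin 3), Em w ∧ w.length = R ∧ act n m w u = v) ∧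
      (∀ u ∈ A, ∀ v, β u v ≤ (3 / 4) ^ (R - 1)) ∧
      ∀ (b k e : V → ℝ) (δ : ℝ), (∀ v, b v = 1 ∨ b v = -1) → (∀ u, u ∉ A → k u = 0 ∧ e u = 0) →
        (∀ u, |e u| ≤ δ) →
        (∀ u, k u = 0 ∨ ∃ y κ, (y = 1 ∨ y = -1) ∧ 0 ≤ κ ∧ κ ≤ 1 ∧ k u = y * κ ∧
          Good n m b j0 u y) →
        ∃ gC gM : V → ℝ, (∀ v, gM (m v) = -gM v) ∧
          (∀ v, |k v| ≤ 1 / 2 → |k (m v)| ≤ 1 / 2 → |gM v| ≤ 1 / 2 + δ) ∧
          (∀ v, |(b v - b (n v)) / 4 + gC v| ≤ 1 / 2 + 2 * δ + 4 * (3 / 4) ^ (2 * j0)) ∧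
          (∀ u ∈ A, gM u = k u + e u ∧ gC u = 0 ∧ gC (n.symm u) = 0) ∧
          ∀ v, gC v - gC (n.symm v) + gM v = k v + e v - ∑ u, (k u + e u) * β u v

/-- Module GeoInst3: the geometry inside `B`. -/
def GeoInst3Stmt : Prop :=
  ∀ (D R L : ℕ) (α : ℝ) (V : Type) [Fintype V] [DecidableEq V] (n : Equiv.Perm V) (m : V → V),
    (∀ v, m (m v) = v) → ∀ (B S : Finset V) (own : V → V) (back : V → ℕ),
    Seg n m S own back D R L →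
    (∀ s ∈ S, ∀ j ≤ D, ∀ w : List (Fin 3), w.length ≤ R → act n m w ((n ^ j) s) ∈ B →
      ∀ l, step n m l (act n m w ((n ^ j) s)) ∈ B) →
    (∀ a ∈ B, n.symm a ∉ B → ∀ j ≤ 2 * L, (n ^ j) a ∈ B) →
    ∀ β : V → V → ℝ, (∀ u v, 0 ≤ β u v) → (∀ u, ∑ v, β u v = 1) →
      (∀ u v, β u v ≠ 0 → ∃ w : List (Fin 3), w.length = R ∧ act n m w u = v) →
      (∀ s ∈ S, ∀ x < D, ∀ v, β ((n ^ x) s) v ≤ α) →
      ∃ (Λ : (S ∩ B : Finset V) → Finset B) (own' : B → (S ∩ B : Finset V))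
        (F : (S ∩ B : Finset V) → Finset (EB n m B)),
        Geo (sB n m B) (tB n m B)
          (fun (s : (S ∩ B : Finset V)) (x : Fin D) (v : B) => β ((n ^ x.1) s.1) v.1) Λ own' F α
          (2 * (D + R) + 1) (L + D + R) (2 * L) 0

/-- Module CutB: cuts and boundaries inside `B`. -/
def CutBStmt : Prop :=
  ∀ (V : Type) [Fintype V] [DecidableEq V] (n : Equiv.Perm V) (m : V → V), (∀ v, m (m v) = v) →
    ∀ B : Finset V,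
    (∀ Y : Finset B, icut n m B (Y.map (Function.Embedding.subtype _)) ≤
        cut (sB n m B) (tB n m B) Y ∧
      cut (sB n m B) (tB n m B) Y ≤ 2 * icut n m B (Y.map (Function.Embedding.subtype _)) ∧
      wcut (sB n m B) (tB n m B) (fun e => if e.1.2 then 1 else 2) Y =
        2 * icut n m B (Y.map (Function.Embedding.subtype _))) ∧
    ∀ (z : EB n m B → ℝ) (v : B), bd (sB n m B) (tB n m B) z v =
      zx n m B z (v.1, false) - zx n m B z (n.symm v.1, false) +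
        (zx n m B z (v.1, true) - zx n m B z (m v.1, true))

/-- Module ModelY: extension inside an ambient model. -/
def ModelYStmt : Prop :=
  ∀ (k : ℕ) (δ : ℝ), 1 ≤ k → 0 < δ → ∃ D : ℕ, ∀ Φ : ℕ, ∃ K : ℕ,
    ∀ (V : Type) [Fintype V] [DecidableEq V] (n : Equiv.Perm V) (m : V → V) (B : Finset V),
    (∀ v, m (m v) = v) → Amb n m B k D Φ K → Ext n m B (1 / 2 + 2 / k + δ)

/-- Module Double: extension for a blob. -/
def ModelXStmt : Prop :=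
  ∀ (k : ℕ) (δ : ℝ), 1 ≤ k → 0 < δ → ∃ D : ℕ, ∀ Φ : ℕ, ∃ K0 : ℕ, ∀ K, K0 ≤ K →
    ∀ (V : Type) [Fintype V] [DecidableEq V] (n : Equiv.Perm V) (m : V → V) (B : Finset V),
    (∀ v, m (m v) = v) → Blob n m B k D Φ K → Ext n m B (1 / 2 + 2 / k + δ)

/-- Module Blob: blobs exist. -/
def BlobStmt : Prop :=
  ∀ k D N : ℕ, ∃ Φ K0 : ℕ, Φ ≤ K0 ∧ ∀ K, K0 ≤ K →
    ∀ (V : Type) [Fintype V] [DecidableEq V] (n : Equiv.Perm V) (m : V → V) (B0 : Finset V),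
    (∀ v, m (m v) = v) → hcut n m B0 ≤ N → K < B0.card →
    (∀ Y ⊆ B0, Y.Nonempty → Y.card ≤ K → Y.card + 2 ≤ hcut n m Y) →
    ∃ B ⊆ B0, Blob n m B k D Φ K

/-- Module FinalX: a reducible set. -/
def FinalXStmt : Prop :=
  ∀ p q N : ℕ, 4 * q < p → ∃ g : ℕ,
    ∀ (V E : Type) [Fintype V] [Fintype E] [DecidableEq V] (s t : E → V) (cyc : Finset V → Prop),
    (∀ v, (univ.filter fun e => s e = v).card + (univ.filter fun e => t e = v).card = 3) →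
    (∀ Y, cyc Y ↔ ∃ C : Finset E, C.Nonempty ∧ (∀ e ∈ C, s e ∈ Y ∧ t e ∈ Y) ∧
      ∀ v, Even ((C.filter fun e => s e = v).card + (C.filter fun e => t e = v).card)) →
    (∀ Y : Finset V, (univ.filter fun e => ¬(s e ∈ Y ↔ t e ∈ Y)).card ≠ 1) →
    ∀ S : Finset V, S.card ≤ N → cyc Sᶜ → (∀ Y, cyc Y → Disjoint Y S → g ≤ Y.card) →
    ∃ B : Finset V, cyc B ∧ Disjoint B S ∧ ∀ f : E → ℤ,
      (∀ e, ¬(s e ∈ B ∧ t e ∈ B) → (q : ℤ) ≤ |f e| ∧ |f e| ≤ p - q) →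
      (∀ v, v ∉ B → (p : ℤ) ∣
        ∑ e ∈ univ.filter (fun e => s e = v), f e - ∑ e ∈ univ.filter (fun e => t e = v), f e) →
      ∃ f' : E → ℤ, (∀ e, (q : ℤ) ≤ |f' e| ∧ |f' e| ≤ p - q) ∧
        (∀ e, ¬(s e ∈ B ∧ t e ∈ B) → (p : ℤ) ∣ f' e - f e) ∧
        ∀ v, ∑ e ∈ univ.filter (fun e => s e = v), f' e =
          ∑ e ∈ univ.filter (fun e => t e = v), f' e

/-- Module Min: smallest counterexamples. -/
def MinStmt : Prop :=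
  ∀ p q N : ℕ, 4 * q < p → ∃ g : ℕ,
    ∀ (V E : Type) [Fintype V] [Fintype E] [DecidableEq V] (s t : E → V) (cyc : Finset V → Prop),
    (∀ v, (univ.filter fun e => s e = v).card + (univ.filter fun e => t e = v).card = 3) →
    (∀ Y, cyc Y ↔ ∃ C : Finset E, C.Nonempty ∧ (∀ e ∈ C, s e ∈ Y ∧ t e ∈ Y) ∧
      ∀ v, Even ((C.filter fun e => s e = v).card + (C.filter fun e => t e = v).card)) →
    (∀ Y : Finset V, (univ.filter fun e => ¬(s e ∈ Y ↔ t e ∈ Y)).card ≠ 1) →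
    ∀ S : Finset V, S.card ≤ N → cyc Sᶜ → (∀ Y, cyc Y → Disjoint Y S → g ≤ Y.card) →
    (∀ (V' E' : Type) [Fintype V'] [Fintype E'] [DecidableEq V'] (s' t' : E' → V'),
      Fintype.card E' < Fintype.card E →
      (∀ Y : Finset V', (univ.filter fun e => ¬(s' e ∈ Y ↔ t' e ∈ Y)).card ≠ 1) →
      ∃ f : E' → ℤ, (∀ e, (q : ℤ) ≤ |f e| ∧ |f e| ≤ p - q) ∧
        ∀ v, ∑ e ∈ univ.filter (fun e => s' e = v), f e =
          ∑ e ∈ univ.filter (fun e => t' e = v), f e) →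
    ∃ f : E → ℤ, (∀ e, (q : ℤ) ≤ |f e| ∧ |f e| ≤ p - q) ∧
      ∀ v, ∑ e ∈ univ.filter (fun e => s e = v), f e = ∑ e ∈ univ.filter (fun e => t e = v), f e

end Pool.Agent.Lib.MP_c8786f_co.W5
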