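import Pool.Agent.Lib.MP_c8786f_co.W5.FinalA
import Pool.Agent.Lib.MP_c8786f_co.W5.Defs3

/-!
Reducible blobs: the double of a blob is an ambient model of large girth.
-/

namespace Pool.Agent.Lib.MP_c8786f_co.W5

open Finset

set_option linter.unusedSectionVars false

variable {V : Type} [Fintype V] [DecidableEq V]

section Count

variable {n : Equiv.Perm V} {m : V → V} {B : Finset V} {k D Φ K : ℕ}

/-- the darts from `Y` that leave `B` -/
def dbOut (n : Equiv.Perm V) (m : V → V) (B Y : Finset V) : Finset (V × Fin 3) :=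
  univ.filter fun q => q.1 ∈ Y ∧ step n m q.2 q.1 ∉ B

lemma db_hcut {Y : Finset V} (hY : Y ⊆ B) :
    hcut n m Y = icut n m B Y + (dbOut n m B Y).card := by
  unfold hcut icut dbOut
  simp only [card_filter]
  rw [← sum_add_distrib]
  refine sum_congr rfl fun q _ => ?_
  have := @hY (step n m q.2 q.1)
  by_cases h1 : q.1 ∈ Y <;> by_cases h2 : step n m q.2 q.1 ∈ B <;>
    by_cases h3 : step n m q.2 q.1 ∈ Y <;> simp_all

lemma db_ins {w : List (Fin 3)} {v : V} (h : Ins n m B w v) : act n m w v ∈ B := by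
  cases w with
  | nil => exact h
  | cons a w => exact h.2

lemma db_ne (hb : Blob n m B k D Φ K) (hK : 1 ≤ K) {v : V} (hv : v ∈ B) (l : Fin 3) :
    step n m l v ≠ v := by
  intro h
  have h1 := hb.forest {v} (by simpa using hv) (singleton_nonempty _) (by simpa using hK)
  have h2 : hcut n m {v} ≤ (({v} : Finset V) ×ˢ (univ.erase l)).card := by
    refine card_le_card fun q hq => ?_
    have h3 := (mem_filter.mp hq).2
    rw [mem_singleton, mem_singleton] at h3
    refine mem_product.mpr ⟨mem_singleton.mpr h3.1, mem_erase.mpr ⟨fun h4 => h3.2 ?_, mem_univ _⟩⟩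
    rw [h4, h3.1, h]
  rw [card_product, card_erase_of_mem (mem_univ _)] at h2
  simp at h1 h2
  omega

/-- small sets have many inner boundary edges -/
lemma db_small (hm : ∀ v, m (m v) = v) (hb : Blob n m B k D Φ K) (hK : D ≤ K) (Y : Finset V) :
    Y ⊆ B → Y.card ≤ D → Y.Nonempty → Y.card < icut n m B Y := by
  induction Y using Finset.strongInduction with
  | H Y ih =>
  intro hY hD hne
  rcases (dbOut n m B Y).eq_empty_or_nonempty with h0 | ⟨⟨a, l⟩, hq⟩
  · have h1 := hb.forest Y hY hne (hD.trans hK)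
    rw [db_hcut hY, h0, card_empty] at h1
    omega
  obtain ⟨ha, hl⟩ : a ∈ Y ∧ step n m l a ∉ B := (mem_filter.mp hq).2
  classical
  obtain ⟨C, hC, hmax⟩ := exists_max_image (Y.powerset.filter fun Z : Finset V => a ∈ Z ∧
    ∀ z ∈ Z, ∃ w, Ins n m B w a ∧ w.length ≤ Z.card ∧ act n m w a = z) card
    ⟨{a}, mem_filter.mpr ⟨by simpa using ha, mem_singleton_self _, fun z hz =>
      ⟨[], hY ha, Nat.zero_le _, (mem_singleton.mp hz).symm⟩⟩⟩
  obtain ⟨hCY, haC, hC⟩ := mem_filter.mp hC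
  rw [mem_powerset] at hCY
  have hcl : ∀ z ∈ C, ∀ c, step n m c z ∈ Y → step n m c z ∈ C := by
    intro z hz c hc
    by_contra h1
    have h2 := hmax (insert (step n m c z) C) (mem_filter.mpr ⟨mem_powerset.mpr
      (insert_subset hc hCY), mem_insert_of_mem haC, fun y hy => by
        rw [card_insert_of_notMem h1]
        rcases mem_insert.mp hy with rfl | hy
        · obtain ⟨w, h3, h4, rfl⟩ := hC z hz
          exact ⟨c :: w, ⟨h3, hY hc⟩, by simpa using h4, rfl⟩
        · obtain ⟨w, h3, h4, h5⟩ := hC y hy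
          exact ⟨w, h3, by omega, h5⟩⟩)
    rw [card_insert_of_notMem h1] at h2
    omega
  have hCc := card_le_card hCY
  have h1 : (dbOut n m B C).card ≤ 1 := by
    refine (card_le_card (t := {(a, l)}) fun q hq => ?_).trans (card_singleton _).le
    have h2 := (mem_filter.mp hq).2
    obtain ⟨w, h3, h4, h5⟩ := hC _ h2.1
    have h6 := hb.clean a l q.1 q.2 w hl h2.2 h3 (by omega) h5
    rw [mem_singleton, h6.1, h6.2]
  have h2 := hb.forest C (hCY.trans hY) ⟨a, haC⟩ (by omega)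
  rw [db_hcut (hCY.trans hY)] at h2
  have h3 : icut n m B C + icut n m B (Y \ C) ≤ icut n m B Y := by
    unfold icut
    simp only [card_filter]
    rw [← sum_add_distrib]
    refine sum_le_sum fun q _ => ?_
    have h4 := hcl q.1
    have h5 := hcl (step n m q.2 q.1)
    have h6 := step_inv n hm q.2 q.1
    have h7 := @hCY q.1
    have h8 := @hCY (step n m q.2 q.1)
    simp only [mem_sdiff]
    grind
  have h4 := card_sdiff_add_card_eq_card hCY
  rcases (Y \ C).eq_empty_or_nonempty with h5 | h5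
  · rw [h5, card_empty] at h4
    omega
  · have := ih (Y \ C) (sdiff_ssubset hCY ⟨a, haC⟩) (sdiff_subset.trans hY) (by omega) h5
    omega

lemma db_mid (hm : ∀ v, m (m v) = v) (hb : Blob n m B k D Φ K) (hD : 2 ≤ D) (hK : 2 ≤ K)
    (Y : Finset V) (hY : Y ⊆ B) (hc : Y.card ≤ K) : Y.card ≤ 2 * icut n m B Y := by
  rcases Y.eq_empty_or_nonempty with rfl | hne
  · simp
  have h1 := hb.forest Y hY hne hc
  rw [db_hcut hY] at h1
  obtain ⟨A, hA⟩ : ∃ A : Finset V, ∀ a, a ∈ A ↔ a ∈ Y ∧ ∃ l, step n m l a ∉ B :=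
    ⟨Y.filter fun a => ∃ l, step n m l a ∉ B, fun a => mem_filter⟩
  have h2 : (dbOut n m B Y).card ≤ A.card := by
    refine card_le_card_of_injOn (fun q => q.1) (fun q hq => ?_) fun q hq q' hq' h => ?_
    · have h3 := (mem_filter.mp (mem_coe.mp hq)).2
      exact mem_coe.mpr ((hA _).mpr ⟨h3.1, _, h3.2⟩)
    · have h3 := (mem_filter.mp (mem_coe.mp hq)).2
      have h4 := (mem_filter.mp (mem_coe.mp hq')).2
      have h5 := hb.clean q.1 q.2 q'.1 q'.2 [] h3.2 h4.2 (hY h3.1) (Nat.zero_le _) h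
      exact Prod.ext h5.1 h5.2
  have h3 : (univ.filter fun q : V × Fin 3 => q.1 ∈ A ∧ step n m q.2 q.1 ∈ Y).card ≤
      (Y \ A).card := by
    refine card_le_card_of_injOn (fun q => step n m q.2 q.1) (fun q hq => ?_)
      fun q hq q' hq' h => ?_
    · obtain ⟨h3, h4⟩ := (mem_filter.mp (mem_coe.mp hq)).2
      obtain ⟨h5, l, h6⟩ := (hA _).mp h3
      refine mem_coe.mpr (mem_sdiff.mpr ⟨h4, fun h7 => ?_⟩)
      obtain ⟨-, l', h8⟩ := (hA _).mp h7
      exact db_ne hb (by omega) (hY h5) q.2 (hb.clean _ l _ l' [q.2] h6 h8 ⟨hY h5, hY h4⟩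
        (by simp; omega) rfl).1.symm
    · obtain ⟨a, c⟩ := q
      obtain ⟨a', c'⟩ := q'
      obtain ⟨h3, h4⟩ : a ∈ A ∧ step n m c a ∈ Y := (mem_filter.mp (mem_coe.mp hq)).2
      obtain ⟨h3', -⟩ : a' ∈ A ∧ step n m c' a' ∈ Y := (mem_filter.mp (mem_coe.mp hq')).2
      obtain ⟨h5, l, h6⟩ := (hA _).mp h3
      obtain ⟨h5', l', h6'⟩ := (hA _).mp h3'
      have h' : step n m c a = step n m c' a' := h
      have h7 : act n m [inv c', c] a = a' := by simp [h', step_inv n hm]
      obtain rfl := (hb.clean _ l _ l' [inv c', c] h6 h6' ⟨⟨hY h5, hY h4⟩, h7.symm ▸ hY h5'⟩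
        (by simpa using hD) h7).1
      by_contra h8
      have h9 : c ≠ c' := fun e => h8 (by rw [e])
      have h10 := hb.forest {a, step n m c a} (insert_subset (hY h5) (by simpa using hY h4))
        (insert_nonempty _ _) (card_le_two.trans hK)
      have h11 := fin_hcut_le n m {a, step n m c a} fun y hy => by
        rcases mem_insert.mp hy with rfl | hy
        · exact ⟨c, c', h9, by simp, by simp [h']⟩
        · rw [mem_singleton.mp hy]
          refine ⟨inv c, inv c', fun e => h9 ?_, by simp [step_inv n hm], ?_⟩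
          · rw [← fin_inv_inv c, e, fin_inv_inv]
          · have h12 : step n m (inv c') (step n m c a) = a := by rw [h', step_inv n hm]
            rw [h12]
            exact mem_insert_self _ _
      omega
  have hAY : A ⊆ Y := fun a ha => ((hA a).mp ha).1
  have h4 : 3 * A.card ≤ (dbOut n m B Y).card + icut n m B Y +
      (univ.filter fun q : V × Fin 3 => q.1 ∈ A ∧ step n m q.2 q.1 ∈ Y).card := by
    have h5 : 3 * A.card = (univ.filter fun q : V × Fin 3 => q.1 ∈ A).card := by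
      rw [show (univ.filter fun q : V × Fin 3 => q.1 ∈ A) = A ×ˢ univ by ext q; simp]
      simp [mul_comm]
    rw [h5]
    unfold icut dbOut
    simp only [card_filter]
    rw [← sum_add_distrib, ← sum_add_distrib]
    refine sum_le_sum fun q _ => ?_
    by_cases h6 : q.1 ∈ A
    · by_cases h7 : step n m q.2 q.1 ∈ B <;> by_cases h8 : step n m q.2 q.1 ∈ Y <;>
        simp [h6, h7, h8, hAY h6]
    · simp [h6]
  have h5 := card_sdiff_add_card_eq_card hAY
  omega

end Count

section Double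

variable (n : Equiv.Perm V) (m : V → V) (B : Finset V)

/-- the steps in the double of `B` -/
def dbl (l : Fin 3) (x : B × Bool) : B × Bool :=
  if h : step n m (if x.2 then inv l else l) x.1.1 ∈ B then (⟨_, h⟩, x.2) else (x.1, !x.2)

variable {m}

lemma dbl_inv (hm : ∀ v, m (m v) = v) (l : Fin 3) (x : B × Bool) :
    dbl n m B (inv l) (dbl n m B l x) = x := by
  obtain ⟨⟨v, hv⟩, i⟩ := x
  have h1 := step_inv n hm l v
  have h2 := step_inv n hm (inv l) v
  rw [fin_inv_inv] at h2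
  cases i
  · by_cases h : step n m l v ∈ B <;> simp [dbl, h, h1, hv, fin_inv_inv]
  · by_cases h : step n m (inv l) v ∈ B <;> simp [dbl, h, h2, hv, fin_inv_inv]

/-- the circuits of the double -/
def dbN (hm : ∀ v, m (m v) = v) : Equiv.Perm (B × Bool) :=
  ⟨dbl n m B 0, dbl n m B 1, dbl_inv n B hm 0, dbl_inv n B hm 1⟩

lemma dbl_step (hm : ∀ v, m (m v) = v) (l : Fin 3) :
    step (dbN n B hm) (dbl n m B 2) l = dbl n m B l := by
  fin_cases l <;> rfl

lemma dbl_walk (hm : ∀ v, m (m v) = v) (w : List (Fin 3)) (x : B × Bool) :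
    ∃ w', w'.length ≤ w.length ∧ Ins n m B w' x.1.1 ∧
      act n m w' x.1.1 = (act (dbN n B hm) (dbl n m B 2) w x).1.1 := by
  induction w with
  | nil => exact ⟨[], le_rfl, x.1.2, rfl⟩
  | cons c w ih =>
    obtain ⟨w', h1, h2, h3⟩ := ih
    rw [act_cons, dbl_step]
    generalize act (dbN n B hm) (dbl n m B 2) w x = y at h3
    unfold dbl
    split_ifs with h4 h5 h5
    · exact ⟨inv c :: w', by simpa using h1, ⟨h2, by rwa [act_cons, h3]⟩, by rw [act_cons, h3]⟩
    · exact ⟨w', by simp; omega, h2, h3⟩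
    · exact ⟨c :: w', by simpa using h1, ⟨h2, by rwa [act_cons, h3]⟩, by rw [act_cons, h3]⟩
    · exact ⟨w', by simp; omega, h2, h3⟩

/-- one sheet of a subset of the double -/
def dbP (Y : Finset (B × Bool)) (i : Bool) : Finset V :=
  (Y.filter fun x => x.2 = i).image fun x => x.1.1

lemma dbP_mem (Y : Finset (B × Bool)) (i : Bool) (v : V) :
    v ∈ dbP B Y i ↔ ∃ h : v ∈ B, (⟨v, h⟩, i) ∈ Y := by
  unfold dbP
  simp only [mem_image, mem_filter]
  constructor
  · rintro ⟨⟨⟨u, hu⟩, j⟩, ⟨h1, rfl⟩, rfl⟩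
    exact ⟨hu, h1⟩
  · rintro ⟨h, h1⟩
    exact ⟨_, ⟨h1, rfl⟩, rfl⟩

lemma dbP_sub (Y : Finset (B × Bool)) (i : Bool) : dbP B Y i ⊆ B :=
  fun v hv => ((dbP_mem B Y i v).mp hv).1

lemma dbP_card (Y : Finset (B × Bool)) (i : Bool) :
    (dbP B Y i).card = (Y.filter fun x => x.2 = i).card := by
  refine card_image_of_injOn fun x hx y hy h => Prod.ext (Subtype.ext h) ?_
  rw [(mem_filter.mp (mem_coe.mp hx)).2, (mem_filter.mp (mem_coe.mp hy)).2]

lemma dbP_icut (Y : Finset (B × Bool)) (i : Bool) :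
    icut n m B (dbP B Y i) ≤ (univ.filter fun q : (B × Bool) × Fin 3 => q.1 ∈ Y ∧ q.1.2 = i ∧
      (dbl n m B q.2 q.1).2 = i ∧ dbl n m B q.2 q.1 ∉ Y).card := by
  refine card_le_card_of_surjOn (fun q => (q.1.1.1, if i then inv q.2 else q.2)) ?_
  rintro ⟨v, l⟩ hq
  obtain ⟨h1, h2, h3⟩ : v ∈ dbP B Y i ∧ step n m l v ∈ B ∧ step n m l v ∉ dbP B Y i :=
    (mem_filter.mp (mem_coe.mp hq)).2
  obtain ⟨h4, h5⟩ := (dbP_mem B Y i v).mp h1
  rw [dbP_mem] at h3
  have h6 : dbl n m B (if i then inv l else l) (⟨v, h4⟩, i) = (⟨_, h2⟩, i) := by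
    cases i <;> simp [dbl, h2, fin_inv_inv]
  refine ⟨((⟨v, h4⟩, i), if i then inv l else l), mem_coe.mpr (mem_filter.mpr ⟨mem_univ _, h5, rfl,
    by rw [h6], by rw [h6]; exact fun h => h3 ⟨h2, h⟩⟩), ?_⟩
  cases i <;> simp [fin_inv_inv]

lemma dbl_false (v : B) (l : Fin 3) :
    (dbl n m B l (v, false)).2 = false ↔ step n m l v.1 ∈ B := by
  by_cases h : step n m l v.1 ∈ B <;> simp [dbl, h]

lemma dbl_sum {M : Type} [AddCommMonoid M] (hm : ∀ v, m (m v) = v) (F : V × Fin 3 → M) :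
    ∑ q : (B × Bool) × Fin 3 with q.1 ∈ univ.filter (fun x : B × Bool => x.2 = false) ∧
      step (dbN n B hm) (dbl n m B 2) q.2 q.1 ∉ univ.filter (fun x : B × Bool => x.2 = false),
      F (q.1.1.1, q.2) = ∑ q with q.1 ∈ B ∧ step n m q.2 q.1 ∉ B, F q := by
  refine sum_nbij (fun q => (q.1.1.1, q.2)) ?_ ?_ ?_ fun _ _ => rfl
  · rintro ⟨⟨v, i⟩, l⟩ hq
    simp only [mem_filter, mem_univ, true_and, dbl_step] at hq ⊢
    obtain ⟨rfl, h⟩ := hq
    exact ⟨v.2, fun h1 => h ((dbl_false n B v l).mpr h1)⟩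
  · rintro ⟨⟨v, i⟩, l⟩ hq ⟨⟨v', i'⟩, l'⟩ hq' h
    simp only [coe_filter, mem_filter, mem_univ, true_and, Set.mem_ofPred_eq] at hq hq'
    obtain ⟨h1, h2⟩ := Prod.ext_iff.mp h
    exact Prod.ext (Prod.ext (Subtype.ext h1) (hq.1.trans hq'.1.symm)) h2
  · rintro ⟨v, l⟩ hq
    simp only [coe_filter, mem_univ, true_and, Set.mem_ofPred_eq] at hq
    refine ⟨((⟨v, hq.1⟩, false), l), ?_, rfl⟩
    simp only [coe_filter, mem_filter, mem_univ, true_and, Set.mem_ofPred_eq, dbl_step]
    exact fun h => hq.2 ((dbl_false n B _ l).mp h)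

lemma dbl_amb (hm : ∀ v, m (m v) = v) {k D Φ K K' : ℕ} (hb : Blob n m B k (D + 2) Φ K)
    (hK : K' + D + 2 ≤ K) :
    Amb (dbN n B hm) (dbl n m B 2) (univ.filter fun x : B × Bool => x.2 = false) k D Φ K' := by
  have hs := db_small hm hb (by omega)
  have hcard : ∀ Y ⊆ univ.filter fun x : B × Bool => x.2 = false,
      (dbP B Y false).card = Y.card := fun Y hY => by
    rw [dbP_card, filter_true_of_mem fun x hx => (mem_filter.mp (hY hx)).2]
  have hicut : ∀ Y, icut n m B (dbP B Y false) ≤ icut (dbN n B hm) (dbl n m B 2)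
      (univ.filter fun x : B × Bool => x.2 = false) Y := fun Y => by
    refine (dbP_icut n B Y false).trans (card_le_card fun q hq => ?_)
    simp only [mem_filter, mem_univ, true_and, dbl_step] at hq ⊢
    exact ⟨hq.1, hq.2.2⟩
  have hle : ∀ Y ⊆ B, Y.card ≤ D + 2 → Y.card ≤ icut n m B Y := fun Y h1 h2 => by
    rcases Y.eq_empty_or_nonempty with rfl | h3
    · simp
    · exact (hs Y h1 h2 h3).le
  refine ⟨fin_inj _ _ (dbl_inv n B hm 2) (fun x => ?_) D fun Y h1 h2 => ?_,
    fun a ha a' ha' l l' w h1 h2 h3 h4 => ?_, ?_, fun Y h1 h2 => ?_, fun Y h1 h2 => ?_,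
    fun Y h1 h2 h3 => ?_⟩
  · intro h
    unfold dbl at h
    split_ifs at h with h1 h2 h2
    · exact db_ne hb (by omega) x.1.2 (inv 2) (congrArg (fun y : B × Bool => y.1.1) h)
    · simpa using congrArg Prod.snd h
    · exact db_ne hb (by omega) x.1.2 2 (congrArg (fun y : B × Bool => y.1.1) h)
    · simpa using congrArg Prod.snd h
  · have h3 : (dbP B Y false).card + (dbP B Y true).card = Y.card := by
      rw [dbP_card, dbP_card, ← card_filter_add_card_filter_not (s := Y) fun x => x.2 = false]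
      simp
    have h4 : icut n m B (dbP B Y false) + icut n m B (dbP B Y true) ≤
        hcut (dbN n B hm) (dbl n m B 2) Y := by
      refine (add_le_add (dbP_icut n B Y false) (dbP_icut n B Y true)).trans ?_
      unfold hcut
      simp only [card_filter, dbl_step]
      rw [← sum_add_distrib]
      refine sum_le_sum fun q _ => ?_
      by_cases h5 : q.1 ∈ Y <;> by_cases h6 : dbl n m B q.2 q.1 ∈ Y <;> cases q.1.2 <;>
        cases (dbl n m B q.2 q.1).2 <;> simp [h5, h6]
    have h5 := hle _ (dbP_sub B Y false) (by omega)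
    have h6 := hle _ (dbP_sub B Y true) (by omega)
    have h7 := hs _ (dbP_sub B Y false) (by omega)
    have h8 := hs _ (dbP_sub B Y true) (by omega)
    rw [← card_pos] at h1 h7 h8
    omega
  · obtain ⟨v, i⟩ := a
    obtain ⟨v', i'⟩ := a'
    simp only [mem_filter, mem_univ, true_and, dbl_step] at ha ha' h1 h2
    subst ha ha'
    obtain ⟨w', h5, h6, h7⟩ := dbl_walk n B hm w (v, false)
    rw [h4] at h7
    have h8 := hb.clean v.1 l v'.1 l' w' (fun h => h1 ((dbl_false n B v l).mpr h))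
      (fun h => h2 ((dbl_false n B v' l').mpr h)) h6 (by omega) h7
    exact ⟨by rw [Subtype.ext h8.1], h8.2⟩
  · have h1 := dbl_sum n B hm (fun _ => 1)
    rw [← card_eq_sum_ones, ← card_eq_sum_ones] at h1
    exact h1.le.trans hb.few
  · have h3 := hcard Y h1
    exact h3 ▸ (hle _ (dbP_sub B Y false) (by omega)).trans (hicut Y)
  · have h3 := hcard Y h1
    have h4 := db_mid hm hb (by omega) (by omega) _ (dbP_sub B Y false) (by omega)
    have h5 := hicut Y
    omega
  · refine (hb.conn _ (dbP_sub B Y false) (by rwa [hcard Y h1]) ?_).trans (hicut Y)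
    rw [← hcard _ sdiff_subset] at h3
    refine h3.trans_le (card_le_card fun v hv => ?_)
    obtain ⟨h4, h5⟩ := (dbP_mem B _ _ v).mp hv
    exact mem_sdiff.mpr ⟨h4, fun h6 => (mem_sdiff.mp h5).2 ((dbP_mem B _ _ v).mp h6).2⟩

end Double

theorem modelX_of : ModelYStmt → ModelXStmt := by
  intro hY k δ hk hδ
  obtain ⟨D, hD⟩ := hY k δ hk hδ
  refine ⟨D + 2, fun Φ => ?_⟩
  obtain ⟨K', hK'⟩ := hD Φ
  refine ⟨K' + D + 2, fun K hK V _ _ n m B hm hb x hx hpar => ?_⟩
  obtain ⟨g, hg⟩ := hK' _ _ _ _ (dbl_inv n B hm 2) (dbl_amb n B hm hb hK)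
    (fun q => x (q.1.1.1, q.2)) (fun q => hx _) (by
      rw [dbl_sum n B hm x, show (univ.filter fun x : B × Bool => x.2 = false) = univ ×ˢ {false} by
        ext x; simp only [mem_filter, mem_univ, true_and, mem_product, mem_singleton]]
      simpa using hpar)
  refine ⟨fun q => if h : q.1 ∈ B then g ((⟨q.1, h⟩, false), q.2) else 0, fun v hv => ?_⟩
  obtain ⟨h1, h2⟩ := hg (⟨v, hv⟩, false) (by simp)
  simp only [dif_pos hv]
  refine ⟨h1, fun l => ⟨fun h => (h2 l).1 ?_, fun h => ?_⟩⟩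
  · simp only [mem_filter, mem_univ, true_and, dbl_step]
    exact fun h3 => h ((dbl_false n B _ l).mp h3)
  · have h3 : step (dbN n B hm) (dbl n m B 2) l (⟨v, hv⟩, false) = (⟨_, h⟩, false) := by
      rw [dbl_step]; simp [dbl, h]
    have h4 := (h2 l).2 (by rw [h3]; simp)
    rw [h3] at h4
    simpa only [dif_pos h] using h4

end Pool.Agent.Lib.MP_c8786f_co.W5
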