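import Pool.Agent.Lib.MP_c8786f_co.W5.Final
import Pool.Agent.Lib.MP_c8786f_co.W5.Defs3

/-!
Reducible blobs, final step: from the permutation model to bridgeless cubic multigraphs.
-/

namespace Pool.Agent.Lib.MP_c8786f_co.W5

open Finset

set_option linter.unusedSectionVars false

variable {V E : Type} [Fintype V] [DecidableEq V] [Fintype E]

lemma fx_matching [DecidableEq E] (s t : E → V)
    (hdeg : ∀ v, (univ.filter fun e => s e = v).card + (univ.filter fun e => t e = v).card = 3)
    (hloop : ∀ e, s e ≠ t e) (h3 : ∀ Y : Finset V, cut s t Y ≠ 1) :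
    ∃ (J : Finset E) (f : E → ℤ), (∀ v, ∃! e, e ∈ J ∧ (s e = v ∨ t e = v)) ∧
      (∀ v, ∃! e, e ∉ J ∧ (if f e = 1 then s e else t e) = v) ∧
      ∀ v, ∃! e, e ∉ J ∧ (if f e = 1 then t e else s e) = v := by
  have hstar : ∀ v e, e ∈ Shared.TJoin.star s t v ↔ s e = v ∨ t e = v := by
    intro v e
    rw [Shared.TJoin.mem_star]
    have := hloop e
    grind
  have hsc : ∀ v, (Shared.TJoin.star s t v).card = 3 := by
    intro v
    rw [← hdeg v, ← card_union_of_disjoint]
    · congr 1
      ext e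
      simp [hstar]
    · rw [disjoint_filter]
      intro e _ h1 h2
      exact hloop e (h1.trans h2.symm)
  obtain ⟨J, hJ, -, hJt⟩ := Shared.TJoin.edmonds_johnson_tight s t (fun _ => 1 / 3) (fun _ => 0)
    ⟨fun _ => by norm_num, fun c hc => by
      have h1 : (Shared.TJoin.cut s t c).card = cut s t (univ.filter fun v => c v = 1) := by
        unfold cut
        congr 1
        ext e
        rw [Shared.TJoin.mem_cut]
        simp only [mem_filter, mem_univ, true_and]
        generalize c (s e) = a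
        generalize c (t e) = b
        revert a b
        decide
      obtain ⟨j, h2⟩ := Shared.TJoin.par_univ_eq_one.mp hc
      have h4 : (3 : ℝ) ≤ (Shared.TJoin.cut s t c).card := by
        have h5 := h3 (univ.filter fun v => c v = 1)
        rw [← h1] at h5
        exact_mod_cast (by omega : 3 ≤ (Shared.TJoin.cut s t c).card)
      rw [sum_const, nsmul_eq_mul]
      linarith⟩ (fun _ => le_rfl)
  obtain ⟨f, hf, hf1, hf0⟩ := Shared.TJoin.exists_orient_compl s t J hJ
  have hone : ∀ v, (J ∩ Shared.TJoin.star s t v).card = 1 := by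
    intro v
    refine hJt _ (Shared.TJoin.par_univ_eq_one.mpr ?_) ?_
    · have := hsc v
      unfold Shared.TJoin.star at this
      rw [this]; decide
    · have := hsc v
      unfold Shared.TJoin.star at this
      rw [sum_const, this]; norm_num
  have hcount : ∀ v, (univ.filter fun e => e ∉ J ∧ (if f e = 1 then s e else t e) = v).card = 1 ∧
      (univ.filter fun e => e ∉ J ∧ (if f e = 1 then t e else s e) = v).card = 1 := by
    intro v
    have h1 : (univ.filter fun e => e ∉ J ∧ (if f e = 1 then s e else t e) = v).card +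
        (univ.filter fun e => e ∉ J ∧ (if f e = 1 then t e else s e) = v).card +
        (J ∩ Shared.TJoin.star s t v).card = 3 := by
      have h2 : J ∩ Shared.TJoin.star s t v = univ.filter fun e => e ∈ J ∧ (s e = v ∨ t e = v) := by
        ext e; simp [hstar]
      rw [← hdeg v, h2]
      simp only [card_filter]
      rw [← sum_add_distrib, ← sum_add_distrib, ← sum_add_distrib]
      refine sum_congr rfl fun e _ => ?_
      have := hloop e
      by_cases h4 : e ∈ J <;> by_cases h5 : f e = 1 <;> by_cases h6 : s e = v <;>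
        by_cases h7 : t e = v <;> simp_all
    have h2 : ((univ.filter fun e => e ∉ J ∧ (if f e = 1 then s e else t e) = v).card : ℤ) =
        (univ.filter fun e => e ∉ J ∧ (if f e = 1 then t e else s e) = v).card := by
      have h4 := hf.vertex v
      rw [← sub_eq_zero] at h4 ⊢
      rw [← h4]
      simp only [card_filter, sum_filter]
      push_cast
      rw [← sum_sub_distrib, ← sum_sub_distrib]
      refine sum_congr rfl fun e _ => ?_
      by_cases h5 : e ∈ J
      · simp [h5, hf0 e h5]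
      · rcases hf1 e h5 with h6 | h6 <;> by_cases h7 : s e = v <;> by_cases h8 : t e = v <;>
          simp [h5, h6, h7, h8]
    have := hone v
    omega
  refine ⟨J, f, fun v => ?_, fun v => ?_, fun v => ?_⟩
  · simpa [hstar] using card_eq_one_iff_existsUnique.mp (hone v)
  · simpa using card_eq_one_iff_existsUnique.mp (hcount v).1
  · simpa using card_eq_one_iff_existsUnique.mp (hcount v).2

/-- the two darts of an edge -/
def fxD (s t : E → V) (L : E → Fin 3) : E ⊕ E → V × Fin 3 :=
  Sum.elim (fun e => (s e, L e)) (fun e => (t e, inv (L e)))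

/-- the permutation model of a bridgeless cubic graph, with its darts -/
lemma fx_model (s t : E → V)
    (hdeg : ∀ v, (univ.filter fun e => s e = v).card + (univ.filter fun e => t e = v).card = 3)
    (h3 : ∀ Y : Finset V, cut s t Y ≠ 1) :
    ∃ (n : Equiv.Perm V) (m : V → V) (L : E → Fin 3), (∀ v, m (m v) = v) ∧
      (∀ e, step n m (L e) (s e) = t e) ∧ Function.Bijective (fxD s t L) := by
  classical
  have hloop : ∀ e, s e ≠ t e := by
    intro e he
    have h1 := h3 {s e}
    have h2 := fin_degsum s t hdeg {s e}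
    have h3 : 0 < (univ.filter fun e' => s e' ∈ ({s e} : Finset V) ∧
        t e' ∈ ({s e} : Finset V)).card := card_pos.mpr ⟨e, by simp [he]⟩
    rw [card_singleton] at h2
    omega
  obtain ⟨J, f, hJ, ho, hi⟩ := fx_matching s t hdeg hloop h3
  choose mat hmat hmat' using hJ
  choose out hout hout' using ho
  choose inn hinn hinn' using hi
  let tl : E → V := fun e => if f e = 1 then s e else t e
  let hd : E → V := fun e => if f e = 1 then t e else s e
  let n : Equiv.Perm V := ⟨fun v => hd (out v), fun v => tl (inn v),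
    fun v => by
      show tl (inn (hd (out v))) = v
      rw [← hinn' _ (out v) ⟨(hout v).1, rfl⟩]; exact (hout v).2,
    fun v => by
      show hd (out (tl (inn v))) = v
      rw [← hout' _ (inn v) ⟨(hinn v).1, rfl⟩]; exact (hinn v).2⟩
  let m : V → V := fun v => if s (mat v) = v then t (mat v) else s (mat v)
  have hms : ∀ e ∈ J, m (s e) = t e := by
    intro e he
    simp only [m]
    rw [← hmat' _ e ⟨he, Or.inl rfl⟩, if_pos rfl]
  have hmt : ∀ e ∈ J, m (t e) = s e := by
    intro e he
    simp only [m]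
    rw [← hmat' _ e ⟨he, Or.inr rfl⟩, if_neg (hloop e)]
  have hnt : ∀ e, e ∉ J → n (tl e) = hd e := by
    intro e he
    show hd (out (tl e)) = hd e
    rw [← hout' _ e ⟨he, rfl⟩]
  have hnh : ∀ e, e ∉ J → n.symm (hd e) = tl e := by
    intro e he
    rw [← hnt e he, Equiv.symm_apply_apply]
  refine ⟨n, m, fun e => if e ∈ J then 2 else if f e = 1 then 0 else 1, fun v => ?_,
    fun e => ?_, (Fintype.bijective_iff_surjective_and_card _).mpr ⟨?_, ?_⟩⟩
  · obtain ⟨h1, h2 | h2⟩ := hmat v
    · rw [← h2, hms _ h1, hmt _ h1]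
    · rw [← h2, hmt _ h1, hms _ h1]
  · by_cases h1 : e ∈ J
    · simp only [h1, if_true, step_two, hms e h1]
    · have h2 := hnt e h1
      have h4 := hnh e h1
      by_cases h5 : f e = 1
      · simpa [h1, h5, tl, hd] using h2
      · simpa only [h1, h5, tl, hd, if_false, step_one] using h4
  · rintro ⟨v, l⟩
    have hl : l = 0 ∨ l = 1 ∨ l = 2 := by revert l; decide
    rcases hl with rfl | rfl | rfl
    · obtain ⟨h1, h2⟩ := hout v
      by_cases h5 : f (out v) = 1
      · exact ⟨.inl (out v), by simpa [fxD, h1, h5] using h2⟩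
      · exact ⟨.inr (out v), by simpa [fxD, h1, h5] using h2⟩
    · obtain ⟨h1, h2⟩ := hinn v
      by_cases h5 : f (inn v) = 1
      · exact ⟨.inr (inn v), by simpa [fxD, h1, h5] using h2⟩
      · exact ⟨.inl (inn v), by simpa [fxD, h1, h5] using h2⟩
    · obtain ⟨h1, h2 | h2⟩ := hmat v
      · exact ⟨.inl (mat v), by simp [fxD, h1, h2]⟩
      · exact ⟨.inr (mat v), by simp [fxD, h1, h2]⟩
  · have h5 := fin_degsum s t hdeg univ
    simp only [cut, mem_univ, and_self, filter_true, card_univ, not_true_eq_false, filter_false,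
      card_empty] at h5
    simp only [Fintype.card_sum, Fintype.card_prod, Fintype.card_fin]
    omega

lemma fx_sum {M : Type} [AddCommMonoid M] {s t : E → V} {L : E → Fin 3}
    (h : Function.Bijective (fxD s t L)) (F : V × Fin 3 → M) :
    ∑ q, F q = ∑ e, (F (s e, L e) + F (t e, inv (L e))) := by
  rw [← h.sum_comp F, Fintype.sum_sum_type, sum_add_distrib]
  rfl

lemma fx_hcut {s t : E → V} {n : Equiv.Perm V} {m : V → V} {L : E → Fin 3}
    (hm : ∀ v, m (m v) = v) (hst : ∀ e, step n m (L e) (s e) = t e)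
    (h : Function.Bijective (fxD s t L)) (Y : Finset V) : hcut n m Y = cut s t Y := by
  unfold hcut cut
  rw [card_filter, card_filter, fx_sum h]
  refine sum_congr rfl fun e _ => ?_
  have h1 : step n m (inv (L e)) (t e) = s e := by rw [← hst e, step_inv n hm]
  simp only [hst, h1]
  by_cases h2 : s e ∈ Y <;> by_cases h3 : t e ∈ Y <;> simp [h2, h3]

/-- rounding a real flow whose boundary is a multiple of `p` -/
lemma fx_round (s t : E → V) (p q : ℕ) (hp : 0 < p) (l u : E → ℤ) (c : V → ℤ) (z : E → ℝ)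
    (hl : ∀ e, (l e : ℝ) ≤ z e) (hu : ∀ e, z e ≤ u e) (hq : ∀ e, (q : ℤ) ≤ l e ∧ u e ≤ p - q)
    (hb : ∀ v, bd s t z v = p * c v) :
    ∃ f : E → ℤ, (∀ e, (q : ℤ) ≤ |f e| ∧ |f e| ≤ p - q) ∧
      (∀ e, l e = u e → (p : ℤ) ∣ f e - l e) ∧
      ∀ v, ∑ e ∈ univ.filter (fun e => s e = v), f e =
        ∑ e ∈ univ.filter (fun e => t e = v), f e := by
  have hp' : (0 : ℝ) < p := by exact_mod_cast hp
  obtain ⟨f, hf, hfb⟩ := fin_round s t l u (fun v => p * c v) z hl hu
    (fun v => by rw [hb]; push_cast; rfl)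
  have hf' : ∀ e, (q : ℤ) ≤ f e ∧ f e ≤ p - q := fun e =>
    ⟨(hq e).1.trans (hf e).1, (hf e).2.trans (hq e).2⟩
  obtain ⟨y, hy, hyb⟩ := fin_round s t (fun _ => 0) (fun _ => 1) c (fun e => f e / p)
    (fun e => by
      have : (0 : ℝ) ≤ f e := by exact_mod_cast (by have := hf' e; omega : 0 ≤ f e)
      push_cast; positivity)
    (fun e => by
      have : (f e : ℝ) ≤ p := by exact_mod_cast (by have := hf' e; omega : f e ≤ p)
      push_cast; rwa [div_le_one hp'])
    (fun v => by
      have h1 : ∑ e with s e = v, (f e : ℝ) - ∑ e with t e = v, (f e : ℝ) = p * c v := by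
        exact_mod_cast hfb v
      unfold bd
      rw [← sum_div, ← sum_div, ← sub_div, h1]
      field_simp)
  refine ⟨fun e => f e - p * y e, fun e => ?_, fun e he => ⟨-y e, ?_⟩, fun v => ?_⟩
  · have h1 := hf' e
    have h2 : y e = 0 ∨ y e = 1 := by have := hy e; omega
    rcases h2 with h2 | h2 <;> simp only [h2, mul_zero, sub_zero, mul_one]
    · rw [abs_of_nonneg (by omega)]; exact h1
    · rw [abs_of_nonpos (by omega)]; omega
  · have := hf e
    have h1 : f e = l e := by omega
    simp only [h1]; ring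
  · have h1 := hfb v
    have h2 := hyb v
    simp only [sum_sub_distrib, ← mul_sum]
    linear_combination h1 - p * h2

/-- flows outside `B` extend -/
lemma fx_ext {s t : E → V} {n : Equiv.Perm V} {m : V → V} {L : E → Fin 3}
    (hdeg : ∀ v, (univ.filter fun e => s e = v).card + (univ.filter fun e => t e = v).card = 3)
    (hm : ∀ v, m (m v) = v) (hst : ∀ e, step n m (L e) (s e) = t e)
    (h : Function.Bijective (fxD s t L)) (B : Finset V) (p q : ℕ) (hp : 0 < p) (hpq : 2 * q ≤ p)
    (hE : Ext n m B (1 - 2 * q / p)) (f : E → ℤ)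
    (hf : ∀ e, ¬(s e ∈ B ∧ t e ∈ B) → (q : ℤ) ≤ |f e| ∧ |f e| ≤ p - q)
    (hfb : ∀ v, v ∉ B → (p : ℤ) ∣
      ∑ e ∈ univ.filter (fun e => s e = v), f e - ∑ e ∈ univ.filter (fun e => t e = v), f e) :
    ∃ f' : E → ℤ, (∀ e, (q : ℤ) ≤ |f' e| ∧ |f' e| ≤ p - q) ∧
      (∀ e, ¬(s e ∈ B ∧ t e ∈ B) → (p : ℤ) ∣ f' e - f e) ∧
      ∀ v, ∑ e ∈ univ.filter (fun e => s e = v), f' e =
        ∑ e ∈ univ.filter (fun e => t e = v), f' e := by
  have hp' : (0 : ℝ) < p := by exact_mod_cast hp
  have hts : ∀ e, step n m (inv (L e)) (t e) = s e := fun e => by rw [← hst e, step_inv n hm]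
  obtain ⟨ft, hft, hfd⟩ : ∃ ft : E → ℤ,
      (∀ e, ¬(s e ∈ B ∧ t e ∈ B) → (q : ℤ) ≤ ft e ∧ ft e ≤ p - q) ∧ ∀ e, (p : ℤ) ∣ ft e - f e := by
    refine ⟨fun e => if 0 ≤ f e then f e else f e + p, fun e he => ?_, fun e => ?_⟩
    · have h1 := hf e he
      by_cases h2 : 0 ≤ f e
      · rw [abs_of_nonneg h2] at h1; simpa [h2] using h1
      · rw [abs_of_neg (not_le.mp h2)] at h1; simp only [h2, if_false]; omega
    · by_cases h2 : 0 ≤ f e <;> simp [h2]
  have hc : ∀ v, v ∉ B → ∃ c : ℤ, bd s t (fun e => ft e) v = p * c := by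
    intro v hv
    have h1 : (p : ℤ) ∣ ∑ e with s e = v, ft e - ∑ e with t e = v, ft e := by
      have h2 := (dvd_sub (dvd_sum fun e (_ : e ∈ univ.filter fun e => s e = v) => hfd e)
        (dvd_sum fun e (_ : e ∈ univ.filter fun e => t e = v) => hfd e)).add (hfb v hv)
      simp only [sum_sub_distrib] at h2
      rwa [show ∀ a b c d : ℤ, a - b - (c - d) + (b - d) = a - c from fun _ _ _ _ => by ring] at h2
    obtain ⟨c, h2⟩ := h1
    exact ⟨c, by simp only [bd]; exact_mod_cast h2⟩
  choose! c0 hc0 using hc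
  obtain ⟨a, ha⟩ : ∃ a : E → ℝ, ∀ e,
      a e = if s e ∈ B ∧ t e ∈ B then (0 : ℝ) else 1 - 2 * ft e / p := ⟨_, fun _ => rfl⟩
  have hq0 : (0 : ℝ) ≤ 2 * q / p := by positivity
  have hq1 : (2 * q / p : ℝ) ≤ 1 := by
    rw [div_le_one hp']; exact_mod_cast hpq
  have har : ∀ e, |a e| ≤ 1 - 2 * q / p := by
    intro e
    rw [ha]
    split_ifs with h1
    · rw [abs_zero]; linarith
    · have h2 : (q : ℝ) ≤ ft e := by exact_mod_cast (hft e h1).1
      have h3 : (ft e : ℝ) ≤ p - q := by exact_mod_cast (hft e h1).2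
      have h4 : (2 * q / p : ℝ) ≤ 2 * ft e / p := by gcongr
      have h5 : (2 * ft e / p : ℝ) ≤ 2 * (p - q) / p := by gcongr
      have h6 : (2 * (p - q) / p : ℝ) = 2 - 2 * q / p := by field_simp
      rw [abs_le]; constructor <;> linarith
  obtain ⟨x, hx1, hx2⟩ : ∃ x : V × Fin 3 → ℝ, (∀ e, x (s e, L e) = a e) ∧
      ∀ e, x (t e, inv (L e)) = -a e := by
    refine ⟨fun d => Sum.elim a (fun e => -a e) ((Equiv.ofBijective _ h).symm d), fun e => ?_,
      fun e => ?_⟩
    · exact congrArg _ ((Equiv.ofBijective _ h).symm_apply_apply (.inl e))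
    · exact congrArg _ ((Equiv.ofBijective _ h).symm_apply_apply (.inr e))
  obtain ⟨g, hg⟩ := hE x
    (fun d => by
      obtain ⟨e | e, rfl⟩ := h.2 d
      · exact (congrArg abs (hx1 e)).trans_le ((har e).trans (by linarith))
      · refine (congrArg abs (hx2 e)).trans_le ?_
        rw [abs_neg]; exact (har e).trans (by linarith))
    (by
      have h1 := fin_sum_bd s t (fun e => (ft e : ℝ)) Bᶜ
      rw [sum_congr rfl fun v hv => hc0 v (mem_compl.mp hv), ← mul_sum] at h1
      have h2 : (3 * B.card : ℝ) = 2 * (univ.filter fun e => s e ∈ B ∧ t e ∈ B).card +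
          cut s t B := by exact_mod_cast fin_degsum s t hdeg B
      refine ⟨B.card - (univ.filter fun e => s e ∈ B ∧ t e ∈ B).card -
        (univ.filter fun e => t e ∈ B ∧ s e ∉ B).card + ∑ v ∈ Bᶜ, c0 v, ?_⟩
      have h3 : ∑ d with d.1 ∈ B ∧ step n m d.2 d.1 ∉ B, x d = cut s t B -
          2 * (univ.filter fun e => t e ∈ B ∧ s e ∉ B).card +
          2 / p * (∑ e with s e ∈ Bᶜ ∧ t e ∉ Bᶜ, (ft e : ℝ) -
            ∑ e with t e ∈ Bᶜ ∧ s e ∉ Bᶜ, (ft e : ℝ)) := by
        unfold cut
        rw [sum_filter, fx_sum h]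
        simp only [card_filter, sum_filter]
        push_cast
        rw [mul_sum, ← sum_sub_distrib, ← sum_sub_distrib, mul_sum, ← sum_add_distrib]
        refine sum_congr rfl fun e _ => ?_
        simp only [hst, hts, hx1, hx2, ha, mem_compl]
        by_cases h4 : s e ∈ B <;> by_cases h5 : t e ∈ B <;> simp [h4, h5] <;> ring
      rw [h3, ← h1, ← mul_assoc, div_mul_cancel₀ _ hp'.ne']
      push_cast
      linarith)
  obtain ⟨γ, hγ⟩ : ∃ γ : E → ℝ, ∀ e, γ e = if s e ∈ B ∧ t e ∈ B then g (s e, L e) else a e :=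
    ⟨_, fun _ => rfl⟩
  have hγs : ∀ e, s e ∈ B → g (s e, L e) = γ e := by
    intro e he
    rw [hγ]
    split_ifs with h1
    · rfl
    · rw [((hg _ he).2 _).1 (by rw [hst]; tauto), hx1]
  have hγt : ∀ e, t e ∈ B → g (t e, inv (L e)) = -γ e := by
    intro e he
    rw [hγ]
    split_ifs with h1
    · rw [← (((hg _ h1.1).2 (L e)).2 (by rw [hst]; exact he)).1, hst]
    · rw [((hg _ he).2 _).1 (by rw [hts]; tauto), hx2]
  have hγr : ∀ e, |γ e| ≤ 1 - 2 * q / p := by
    intro e
    rw [hγ]
    split_ifs with h1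
    · exact (((hg _ h1.1).2 (L e)).2 (by rw [hst]; exact h1.2)).2
    · exact har e
  have hγb : ∀ v ∈ B, bd s t γ v = ∑ l, g (v, l) := by
    intro v hv
    have h1 : ∑ l, g (v, l) = ∑ d : V × Fin 3, if d.1 = v then g d else 0 := by
      rw [Fintype.sum_prod_type, sum_comm]
      simp
    rw [h1, fx_sum h]
    unfold bd
    rw [sum_filter, sum_filter, ← sum_sub_distrib]
    refine sum_congr rfl fun e _ => ?_
    rw [sub_eq_add_neg]
    congr 1
    · split_ifs with h2
      · exact (hγs e (h2 ▸ hv)).symm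
      · rfl
    · split_ifs with h2
      · exact (hγt e (h2 ▸ hv)).symm
      · exact neg_zero
  have hz : ∀ e, ¬(s e ∈ B ∧ t e ∈ B) → (p / 2 : ℝ) * (1 - γ e) = ft e := by
    intro e he
    rw [hγ, ha, if_neg he, if_neg he]
    field_simp
    ring
  have hzr : ∀ e, (q : ℝ) ≤ p / 2 * (1 - γ e) ∧ p / 2 * (1 - γ e) ≤ p - q := by
    intro e
    have h1 := abs_le.mp (hγr e)
    have h2 : (p / 2 : ℝ) * (2 * q / p) = q := by field_simp
    have h3 : (0 : ℝ) ≤ p / 2 := by positivity
    have h4 := mul_le_mul_of_nonneg_left h1.1 h3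
    have h5 := mul_le_mul_of_nonneg_left h1.2 h3
    constructor <;> linarith
  have hc : ∀ v, ∃ c : ℤ, bd s t (fun e => p / 2 * (1 - γ e)) v = p * c := by
    intro v
    by_cases hv : v ∈ B
    · have h1 := hγb v hv
      have h2 : ((univ.filter fun e => s e = v).card : ℝ) +
          ((univ.filter fun e => t e = v).card : ℝ) = 3 := by exact_mod_cast hdeg v
      unfold bd at h1 ⊢
      simp only [← mul_sum, sum_sub_distrib, sum_const, nsmul_eq_mul, mul_one]
      rcases (hg v hv).1 with h3 | h3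
      · refine ⟨(univ.filter fun e => s e = v).card - 2, ?_⟩
        push_cast
        linear_combination (-p / 2 : ℝ) * (h1.trans h3) - (p / 2 : ℝ) * h2
      · refine ⟨(univ.filter fun e => s e = v).card - 1, ?_⟩
        push_cast
        linear_combination (-p / 2 : ℝ) * (h1.trans h3) - (p / 2 : ℝ) * h2
    · refine ⟨c0 v, Eq.trans ?_ (hc0 v hv)⟩
      unfold bd
      congr 1
      · exact sum_congr rfl fun e he => hz e fun h1 => hv ((mem_filter.mp he).2 ▸ h1.1)
      · exact sum_congr rfl fun e he => hz e fun h1 => hv ((mem_filter.mp he).2 ▸ h1.2)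
  choose c hc using hc
  obtain ⟨f', h1, h2, h3⟩ := fx_round s t p q hp
    (fun e => if s e ∈ B ∧ t e ∈ B then q else ft e)
    (fun e => if s e ∈ B ∧ t e ∈ B then p - q else ft e) c _
    (fun e => by
      split_ifs with h1
      · exact_mod_cast (hzr e).1
      · exact (hz e h1).ge)
    (fun e => by
      split_ifs with h1
      · exact_mod_cast (hzr e).2
      · exact (hz e h1).le)
    (fun e => by
      split_ifs with h1
      · exact ⟨le_rfl, le_rfl⟩
      · exact hft e h1) hc
  refine ⟨f', h1, fun e he => ?_, h3⟩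
  have h4 := (h2 e (by simp only [he, if_false])).add (hfd e)
  simpa only [he, if_false, sub_add_sub_cancel] using h4

theorem finalX_of : ModelXStmt → BlobStmt → FinalXStmt := by
  intro hM hB p q N hpq
  have hp : 0 < p := by omega
  have hp' : (0 : ℝ) < p := by exact_mod_cast hp
  have hR : (4 * q + 1 : ℝ) ≤ p := by exact_mod_cast hpq
  obtain ⟨D, hD⟩ := hM (4 * p + 1) (1 / 2 - 2 / (4 * p + 1 : ℕ) - 2 * q / p) (by omega) (by
    have : (1 / 2 - 2 / (4 * p + 1 : ℕ) - 2 * q / p : ℝ) =
        ((p - 4 * q) * (4 * p + 1) - 4 * p) / (2 * p * (4 * p + 1)) := by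
      push_cast; field_simp; ring
    rw [this]
    exact div_pos (by nlinarith) (by positivity))
  obtain ⟨Φ, K0, hΦ, hK0⟩ := hB (4 * p + 1) D (3 * N)
  obtain ⟨K1, hK1⟩ := hD Φ
  refine ⟨max K0 K1 + 1, fun V E _ _ _ s t cyc hdeg hcyc hbr S hS hcS hg => ?_⟩
  have : DecidableEq E := Classical.decEq E
  have hac : ∀ Y : Finset V, Y.Nonempty → ¬cyc Y → Y.card + 2 ≤ cut s t Y := by
    intro Y hY hc
    have h1 := fin_degsum s t hdeg Y
    have h2 : ¬Y.card ≤ (univ.filter fun e => s e ∈ Y ∧ t e ∈ Y).card :=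
      fun h => hc ((hcyc Y).mpr (fin_forest s t Y hY h))
    omega
  obtain ⟨n, m, L, hm, hst, hbij⟩ := fx_model s t hdeg hbr
  obtain ⟨B, hBS, hb⟩ := hK0 (max K0 K1) (le_max_left _ _) V n m Sᶜ hm
    (by
      rw [fx_hcut hm hst hbij, cut_compl]
      have := fin_degsum s t hdeg S
      omega)
    (hg _ hcS disjoint_compl_left)
    (fun Y hY h1 h2 => by
      rw [fx_hcut hm hst hbij]
      refine hac Y h1 fun h => ?_
      have := hg Y h (disjoint_compl_left.mono_left hY)
      omega)
  refine ⟨B, ?_, disjoint_compl_left.mono_left hBS, fun f => fx_ext hdeg hm hst hbij B p q hp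
    (by omega) ?_ f⟩
  · by_contra hc
    have h1 := hb.few
    have h2 := hb.big
    have h3 := hac B (card_pos.mp (by omega)) hc
    rw [fx_hcut hm hst hbij] at h1
    have := le_max_left K0 K1
    omega
  · convert hK1 _ (le_max_right _ _) V n m B hm hb using 1
    ring

lemma fx_sub {M : Type} [AddCommMonoid M] (P : E → Prop) [DecidablePred P] (F : E → M)
    (h : ∀ e, ¬P e → F e = 0) : ∑ e : {e // P e}, F e.1 = ∑ e, F e := by
  rw [← sum_subtype (univ.filter P) (by simp) F]
  exact sum_filter_of_ne fun e _ he => by_contra fun h1 => he (h e h1)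

theorem min_of : FinalXStmt → MinStmt := by
  intro hF p q N hpq
  obtain ⟨g, hg⟩ := hF p q N hpq
  refine ⟨g, fun V E _ _ _ s t cyc hdeg hcyc hbr S hS hcS hgi hmin => ?_⟩
  obtain ⟨B, hB, -, hext⟩ := hg V E s t cyc hdeg hcyc hbr S hS hcS hgi
  let π : V → Option {v // v ∉ B} := fun v => if h : v ∈ B then none else some ⟨v, h⟩
  obtain ⟨f, hf, hfb⟩ := hmin (Option {v // v ∉ B}) {e // ¬(s e ∈ B ∧ t e ∈ B)}
    (fun e => π (s e.1)) (fun e => π (t e.1))
    (by
      obtain ⟨C, ⟨e, he⟩, hC, -⟩ := (hcyc B).mp hB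
      exact Fintype.card_subtype_lt (x := e) (not_not.mpr (hC e he)))
    (fun Y h => hbr (univ.filter fun v => π v ∈ Y) (by
      rw [← h, card_filter, card_filter]
      simp only [mem_filter, mem_univ, true_and]
      refine (fx_sub _ (fun e => if ¬(π (s e) ∈ Y ↔ π (t e) ∈ Y) then 1 else 0) fun e he => ?_).symm
      have h1 := not_not.mp he
      simp [π, h1.1, h1.2]))
  obtain ⟨f', h1, -, h2⟩ := hext (fun e => if h : ¬(s e ∈ B ∧ t e ∈ B) then f ⟨e, h⟩ else 0)
    (fun e he => by simpa only [dif_pos he] using hf ⟨e, he⟩)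
    (fun v hv => by
      have key : ∀ r : E → V, ∑ e ∈ univ.filter (fun e => r e = v),
          (if h : ¬(s e ∈ B ∧ t e ∈ B) then f ⟨e, h⟩ else 0) =
          ∑ e ∈ univ.filter (fun e : {e // ¬(s e ∈ B ∧ t e ∈ B)} => π (r e.1) = some ⟨v, hv⟩),
            f e := by
        intro r
        rw [sum_filter, sum_filter, ← fx_sub (fun e => ¬(s e ∈ B ∧ t e ∈ B)) _
          (fun e he => by rw [dif_neg he, ite_self])]
        refine sum_congr rfl fun e _ => ?_
        rw [dif_pos e.2]
        refine if_congr ?_ rfl rfl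
        by_cases h3 : r e.1 ∈ B
        · simp only [π, dif_pos h3]
          exact ⟨fun h => absurd (h ▸ h3) hv, fun h => by cases h⟩
        · simp [π, h3]
      rw [key s, key t, hfb, sub_self]
      exact dvd_zero _)
  exact ⟨f', h1, h2⟩

end Pool.Agent.Lib.MP_c8786f_co.W5
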