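import Pool.Agent.Lib.MP_c8786f_co.W5.X5
import Pool.Agent.Lib.MP_c8786f_co.W5.Double
import Pool.Agent.Lib.MP_c8786f_co.W5.FinalX

/-!
Explicit constants: the final theorems.
-/

namespace Pool.Agent.Lib.MP_c8786f_co.W5

open Finset

set_option linter.unusedSectionVars false

theorem modelXX : ModelXX := by
  intro k b δ hk hkb hδ
  obtain ⟨D, hDb, hD⟩ := modelYX k b δ hk hkb hδ
  refine ⟨D + 2, by omega, fun Φ => ?_⟩
  obtain ⟨K', hKb, hK'⟩ := hD Φ
  have hG : 1 ≤ 2 ^ 2 ^ (5 * b + 50) := Nat.one_le_two_pow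
  generalize 2 ^ 2 ^ (5 * b + 50) = G at *
  refine ⟨K' + D + 2, by nlinarith only [hG, hDb, hKb, Nat.zero_le (G * Φ)], fun K hK V _ _ n m B hm hb x hx hpar => ?_⟩
  obtain ⟨g, hg⟩ := hK' _ _ _ _ (dbl_inv n B hm 2) (dbl_amb n B hm hb hK)
    (fun q => x (q.1.1.1, q.2)) (fun q => hx _) (by
      rw [dbl_sum n B hm x, show (univ.filter fun x : B × Bool => x.2 = false) = univ ×ˢ {false} by
        ext x; simp only [mem_filter, mem_univ, true_and, mem_product, mem_singleton]]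
      simpa using hpar)
  refine ⟨fun q => if h : q.1 ∈ B then g ((⟨q.1, h⟩, false), q.2) else 0, fun v hv => ?_⟩
  obtain ⟨h1, h2⟩ := hg (⟨v, hv⟩, false) (by simp)
  simp only [dif_pos hv]
  refine ⟨h1, fun l => ⟨fun h => (h2 l).1 ?_, fun h => ?_⟩⟩
  · simp only [mem_filter, mem_univ, true_and, dbl_step]
    exact fun h3 => h ((dbl_false n B _ l).mp h3)
  · have h3 : step (dbN n B hm) (dbl n m B 2) l (⟨v, hv⟩, false) = (⟨_, h⟩, false) := by
      rw [dbl_step]; simp [dbl, h]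
    have h4 := (h2 l).2 (by rw [h3]; simp)
    rw [h3] at h4
    simpa only [dif_pos h] using h4

lemma x_b2 {x : ℕ} (hx : x ≠ 0) : ∃ b, x ≤ 2 ^ b ∧ 2 ^ b ≤ 2 * x :=
  ⟨Nat.log 2 x + 1, (Nat.lt_pow_succ_log_self one_lt_two x).le, by
    rw [pow_succ']
    exact Nat.mul_le_mul_left 2 (Nat.pow_log_le_self 2 hx)⟩

lemma x_G (b : ℕ) : 2 ^ b ≤ 2 ^ 2 ^ (5 * b + 50) ∧ 32 ≤ 2 ^ 2 ^ (5 * b + 50) := by
  have h : 5 * b + 50 < 2 ^ (5 * b + 50) := Nat.lt_two_pow_self
  exact ⟨Nat.pow_le_pow_right two_pos (by omega),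
    (Nat.pow_le_pow_right two_pos (by omega : 5 ≤ 2 ^ (5 * b + 50)) :)⟩

lemma x_pow {b x j y : ℕ} (h : 2 ^ b ≤ x) (hy : 2 ^ 50 * j * x ^ 5 ≤ y) :
    (2 ^ 2 ^ (5 * b + 50)) ^ j ≤ 2 ^ y := by
  rw [← pow_mul]
  refine Nat.pow_le_pow_right two_pos (le_trans ?_ hy)
  calc 2 ^ (5 * b + 50) * j = 2 ^ 50 * j * (2 ^ b) ^ 5 := by ring
    _ ≤ _ := by gcongr

lemma x_fin {G k D N Φ K0 K1 : ℕ} (hG : 32 ≤ G) (hk : k ≤ G) (hD : D ≤ G + 2)
    (hΦ : Φ = (D + 2) * ((D + 3) * k + 3 * N)) (h0 : K0 = (D + 1) * Φ + (D + 1) + Φ)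
    (h1 : K1 ≤ 4 * G * (Φ + 1)) : max K0 K1 + 1 ≤ G ^ 5 * (N + 1) := by
  have a1 : 3 ≤ 2 * G * G := by nlinarith
  have a2 : Φ ≤ 4 * (G ^ 3 * (N + 1)) :=
    calc Φ ≤ 2 * G * (2 * G * G + 2 * G * G * N) := by rw [hΦ]; gcongr <;> omega
      _ = _ := by ring
  have a3 : 1 ≤ G ^ 3 * (N + 1) := Nat.one_le_iff_ne_zero.2 (by positivity)
  have a4 : G * Φ ≤ G * (4 * (G ^ 3 * (N + 1))) := Nat.mul_le_mul_left _ a2
  have a5 : G * 1 ≤ G * (G ^ 3 * (N + 1)) := Nat.mul_le_mul_left _ a3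
  have a6 : (D + 2) * Φ ≤ 2 * G * Φ := Nat.mul_le_mul_right _ (by omega)
  have a7 : 32 * (G * (G ^ 3 * (N + 1))) ≤ G * (G * (G ^ 3 * (N + 1))) := Nat.mul_le_mul_right _ hG
  have a8 : G ^ 5 * (N + 1) = G * (G * (G ^ 3 * (N + 1))) := by ring
  rw [a8]
  generalize G ^ 3 * (N + 1) = x at *
  have a9 : max K0 K1 ≤ 20 * (G * x) := max_le (by nlinarith) (by nlinarith)
  omega

theorem finalXE : FinalXE := by
  intro p q N hpq
  have hp : 0 < p := by omega
  have hp' : (0 : ℝ) < p := by exact_mod_cast hp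
  have hR : (4 * q + 1 : ℝ) ≤ p := by exact_mod_cast hpq
  obtain ⟨b, hb1, hb2⟩ := x_b2 (show 10 * p ^ 2 ≠ 0 by positivity)
  have hkb : 4 * p + 1 ≤ 2 ^ b := le_trans (by nlinarith only [hp]) hb1
  obtain ⟨D, hDb, hD⟩ := modelXX (4 * p + 1) b (1 / 2 - 2 / (4 * p + 1 : ℕ) - 2 * q / p) (by omega)
    hkb (by
    have : (1 / 2 - 2 / (4 * p + 1 : ℕ) - 2 * q / p : ℝ) =
        ((p - 4 * q) * (4 * p + 1) - 4 * p) / (2 * p * (4 * p + 1)) := by
      push_cast; field_simp; ring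
    have h1 : (10 * p ^ 2 : ℝ) ≤ 2 ^ b := by exact_mod_cast hb1
    have h2 : (1 : ℝ) ≤ p := by exact_mod_cast hp
    have h3 : (1 : ℝ) ≤ (p - 4 * q) * (4 * p + 1) - 4 * p := by nlinarith only [hR, h2]
    rw [this, div_mul_eq_mul_div, le_div_iff₀ (by positivity)]
    calc _ ≤ 1 * (2 : ℝ) ^ b := by nlinarith only [h1, h2]
      _ ≤ _ := by gcongr)
  obtain ⟨Φ, K0, hΦ0, hΦ1, hK0⟩ := blobX (4 * p + 1) D (3 * N)
  obtain ⟨K1, hKb, hK1⟩ := hD Φ
  have hΦ : Φ ≤ K0 := by omega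
  have hgb : max K0 K1 + 1 ≤ 2 ^ (2 ^ 76 * p ^ 10) * (N + 1) :=
    (x_fin (x_G b).2 (hkb.trans (x_G b).1) hDb hΦ0 hΦ1 hKb).trans
      (Nat.mul_le_mul_right _ (x_pow hb2 (by
        rw [show 2 ^ 50 * 5 * (2 * (10 * p ^ 2)) ^ 5 = 2 ^ 50 * 5 * 20 ^ 5 * p ^ 10 by ring]
        exact Nat.mul_le_mul_right _ (by norm_num))))
  clear hΦ0 hΦ1 hKb hDb hb1 hb2 hkb
  generalize 2 ^ (2 ^ 76 * p ^ 10) * (N + 1) = g at *
  intro V E _ _ _ s t cyc hdeg hcyc hbr S hS hcS hg0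
  have hg : ∀ Y, cyc Y → Disjoint Y S → max K0 K1 + 1 ≤ Y.card := fun Y h1 h2 =>
    hgb.trans (hg0 Y h1 h2)
  have : DecidableEq E := Classical.decEq E
  have hac : ∀ Y : Finset V, Y.Nonempty → ¬cyc Y → Y.card + 2 ≤ cut s t Y := by
    intro Y hY hc
    have h1 := fin_degsum s t hdeg Y
    have h2 : ¬Y.card ≤ (univ.filter fun e => s e ∈ Y ∧ t e ∈ Y).card :=
      fun h => hc ((hcyc Y).mpr (fin_forest s t Y hY h))
    omega
  obtain ⟨n, m, L, hm, hst, hbij⟩ := fx_model s t hdeg hbr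
  obtain ⟨B, hBS, hb⟩ := hK0 (max K0 K1) (le_max_left _ _) V n m Sᶜ hm
    (by
      rw [fx_hcut hm hst hbij, cut_compl]
      have := fin_degsum s t hdeg S
      omega)
    (hg _ hcS disjoint_compl_left)
    (fun Y hY h1 h2 => by
      rw [fx_hcut hm hst hbij]
      refine hac Y h1 fun h => ?_
      have := hg Y h (disjoint_compl_left.mono_left hY)
      omega)
  refine ⟨B, ?_, disjoint_compl_left.mono_left hBS, ?_, fun f => fx_ext hdeg hm hst hbij B p q hp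
    (by omega) ?_ f⟩
  · by_contra hc
    have h1 := hb.few
    have h2 := hb.big
    have h3 := hac B (card_pos.mp (by omega)) hc
    rw [fx_hcut hm hst hbij] at h1
    have := le_max_left K0 K1
    omega
  · have h1 := hb.few
    rw [fx_hcut hm hst hbij] at h1
    have := le_max_left K0 K1
    exact lt_of_le_of_lt h1 (by omega)
  · have h1 := hK1 _ (le_max_right _ _) V n m B hm hb
    rwa [show (1 / 2 + 2 / (4 * p + 1 : ℕ) + (1 / 2 - 2 / (4 * p + 1 : ℕ) - 2 * q / p) : ℝ) =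
      1 - 2 * q / p by ring] at h1

theorem minE : MinE := by
  intro p q N hpq V E _ _ _ s t cyc hdeg hcyc hbr S hS hcS hgi hmin
  obtain ⟨B, hB, -, -, hext⟩ := finalXE p q N hpq V E s t cyc hdeg hcyc hbr S hS hcS hgi
  let π : V → Option {v // v ∉ B} := fun v => if h : v ∈ B then none else some ⟨v, h⟩
  obtain ⟨f, hf, hfb⟩ := hmin (Option {v // v ∉ B}) {e // ¬(s e ∈ B ∧ t e ∈ B)}
    (fun e => π (s e.1)) (fun e => π (t e.1))
    (by
      obtain ⟨C, ⟨e, he⟩, hC, -⟩ := (hcyc B).mp hB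
      exact Fintype.card_subtype_lt (x := e) (not_not.mpr (hC e he)))
    (fun Y h => hbr (univ.filter fun v => π v ∈ Y) (by
      rw [← h, card_filter, card_filter]
      simp only [mem_filter, mem_univ, true_and]
      refine (fx_sub _ (fun e => if ¬(π (s e) ∈ Y ↔ π (t e) ∈ Y) then 1 else 0) fun e he => ?_).symm
      have h1 := not_not.mp he
      simp [π, h1.1, h1.2]))
  obtain ⟨f', h1, -, h2⟩ := hext (fun e => if h : ¬(s e ∈ B ∧ t e ∈ B) then f ⟨e, h⟩ else 0)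
    (fun e he => by simpa only [dif_pos he] using hf ⟨e, he⟩)
    (fun v hv => by
      have key : ∀ r : E → V, ∑ e ∈ univ.filter (fun e => r e = v),
          (if h : ¬(s e ∈ B ∧ t e ∈ B) then f ⟨e, h⟩ else 0) =
          ∑ e ∈ univ.filter (fun e : {e // ¬(s e ∈ B ∧ t e ∈ B)} => π (r e.1) = some ⟨v, hv⟩),
            f e := by
        intro r
        rw [sum_filter, sum_filter, ← fx_sub (fun e => ¬(s e ∈ B ∧ t e ∈ B)) _
          (fun e he => by rw [dif_neg he, ite_self])]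
        refine sum_congr rfl fun e _ => ?_
        rw [dif_pos e.2]
        refine if_congr ?_ rfl rfl
        by_cases h3 : r e.1 ∈ B
        · simp only [π, dif_pos h3]
          exact ⟨fun h => absurd (h ▸ h3) hv, fun h => by cases h⟩
        · simp [π, h3]
      rw [key s, key t, hfb, sub_self]
      exact dvd_zero _)
  exact ⟨f', h1, h2⟩

theorem final2E : Final2E := by
  intro k p q hkpq
  have hp : 0 < p := by
    rcases p.eq_zero_or_pos with rfl | h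
    · simp at hkpq
    · exact h
  have hk : 4 < k := by
    by_contra h
    have : p * k ≤ p * 4 := Nat.mul_le_mul_left _ (by omega)
    omega
  have hp' : (0 : ℝ) < p := by exact_mod_cast hp
  have hk' : (0 : ℝ) < k := by exact_mod_cast (by omega : 0 < k)
  have hR : (4 * k * q + 4 * p : ℝ) < p * k := by exact_mod_cast hkpq
  obtain ⟨b, hb1, hb2⟩ := x_b2 (show 2 * (p * k) ≠ 0 by positivity)
  have hkb : k ≤ 2 ^ b := le_trans (by nlinarith only [hp]) hb1
  obtain ⟨D, -, hD⟩ := modelXX k b (1 / 2 - 2 / k - 2 * q / p) (by omega) hkb (by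
    have : (1 / 2 - 2 / k - 2 * q / p : ℝ) = (p * k - (4 * k * q + 4 * p)) / (2 * p * k) := by
      field_simp; ring
    have h1 : (2 * (p * k) : ℝ) ≤ 2 ^ b := by exact_mod_cast hb1
    have h2 : (4 * k * q + 4 * p + 1 : ℝ) ≤ p * k := by exact_mod_cast hkpq
    rw [this, div_mul_eq_mul_div, le_div_iff₀ (by positivity)]
    calc _ ≤ 1 * (2 : ℝ) ^ b := by linarith only [h1]
      _ ≤ _ := by gcongr; linarith only [h2])
  obtain ⟨K, hKb, hK⟩ := hD k
  have hgb : K + k + 1 ≤ 2 ^ (2 ^ 64 * (p * k) ^ 5) := by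
    refine le_trans ?_ (x_pow (j := 3) hb2 (by
      rw [show 2 ^ 50 * 3 * (2 * (2 * (p * k))) ^ 5 = 2 ^ 50 * 3 * 4 ^ 5 * (p * k) ^ 5 by ring]
      exact Nat.mul_le_mul_right _ (by norm_num)))
    have h1 := hkb.trans (x_G b).1
    have h2 := (x_G b).2
    generalize 2 ^ 2 ^ (5 * b + 50) = G at h1 h2 hKb ⊢
    have h3 : G * k ≤ G * G := Nat.mul_le_mul_left _ h1
    have h4 : 32 * (G * G) ≤ G * (G * G) := Nat.mul_le_mul_right _ h2
    have h5 : 32 * G ≤ G * G := Nat.mul_le_mul_right _ h2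
    nlinarith only [h1, h2, h3, h4, h5, hKb]
  clear hKb hb1 hb2 hkb
  generalize 2 ^ (2 ^ 64 * (p * k) ^ 5) = g at *
  intro V E _ _ _ s t cyc hdeg hcyc hgirth0 hcon
  have hgirth : ∀ Y, cyc Y → K + k + 1 ≤ Y.card := fun Y h => hgb.trans (hgirth0 Y h)
  have : DecidableEq E := Classical.decEq E
  have hcon' : ∀ Y, cyc Y → cyc Yᶜ → k ≤ cut s t Y := hcon
  have hac : ∀ Y : Finset V, Y.Nonempty → ¬cyc Y → Y.card + 2 ≤ cut s t Y := by
    intro Y hY hc
    have h1 := fin_degsum s t hdeg Y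
    have h2 : ¬Y.card ≤ (univ.filter fun e => s e ∈ Y ∧ t e ∈ Y).card :=
      fun h => hc ((hcyc Y).mpr (fin_forest s t Y hY h))
    omega
  have hmin : ∀ Y : Finset V, Y.Nonempty → Yᶜ.Nonempty →
      Y.card + 2 ≤ cut s t Y ∨ Yᶜ.card + 2 ≤ cut s t Y ∨ k ≤ cut s t Y := by
    intro Y h1 h2
    by_cases h3 : cyc Y
    · by_cases h4 : cyc Yᶜ
      · exact Or.inr (Or.inr (hcon' Y h3 h4))
      · exact Or.inr (Or.inl (cut_compl s t Y ▸ hac _ h2 h4))
    · exact Or.inl (hac Y h1 h3)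
  have hsmall : ∀ Y : Finset V, Y.Nonempty → Y.card ≤ K + k → Y.card + 2 ≤ cut s t Y :=
    fun Y h1 h2 => hac Y h1 fun h => by have := hgirth Y h; omega
  have hloop : ∀ e, s e ≠ t e := by
    intro e he
    have h1 := hsmall {s e} (singleton_nonempty _) (by rw [card_singleton]; omega)
    have h2 := fin_degsum s t hdeg {s e}
    have h3 : 0 < (univ.filter fun e' => s e' ∈ ({s e} : Finset V) ∧
        t e' ∈ ({s e} : Finset V)).card := card_pos.mpr ⟨e, by simp [he]⟩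
    rw [card_singleton] at h1 h2
    omega
  have h3 : ∀ Y : Finset V, cut s t Y ≠ 0 → 3 ≤ cut s t Y := by
    intro Y h
    obtain ⟨e, he⟩ := card_pos.mp (Nat.pos_of_ne_zero h)
    have he' := (mem_filter.mp he).2
    have h1 : Y.Nonempty := by
      by_cases h1 : s e ∈ Y
      · exact ⟨_, h1⟩
      · exact ⟨t e, by tauto⟩
    have h2 : Yᶜ.Nonempty := by
      by_cases h1 : s e ∈ Y
      · exact ⟨t e, mem_compl.mpr (by tauto)⟩
      · exact ⟨_, mem_compl.mpr h1⟩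
    have := hmin Y h1 h2
    have := card_pos.mpr h1
    have := card_pos.mpr h2
    omega
  obtain ⟨n, m, L, hm, hst, hbij⟩ := fx_model s t hdeg fun Y h => by
    have h' : cut s t Y = 1 := h
    have := h3 Y (by omega)
    omega
  rcases (univ : Finset V).eq_empty_or_nonempty with hV | hV
  · have hE : ∀ e : E, False := fun e => by simpa [hV] using mem_univ (s e)
    exact ⟨0, fun e => (hE e).elim, fun v => by simp⟩
  have h0 : cut s t univ = 0 := by simp [cut]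
  have hE := hK (K + k) (by omega) V n m univ hm
    ⟨fun a l a' l' w h => absurd (mem_univ _) h, by rw [fx_hcut hm hst hbij]; omega,
      hgirth _ (by
        by_contra hc
        have := hac _ hV hc
        omega),
      fun Y _ h1 h2 => by rw [fx_hcut hm hst hbij]; exact hsmall Y h1 h2, fun Y _ h1 h2 => by
        have h4 : icut n m univ Y = hcut n m Y := by simp [icut, hcut]
        rw [← compl_eq_univ_sdiff] at h2
        have := hmin Y (card_pos.mp (by omega)) (card_pos.mp (by omega))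
        rw [h4, fx_hcut hm hst hbij]
        omega⟩
  rw [show (1 / 2 + 2 / k + (1 / 2 - 2 / k - 2 * q / p) : ℝ) = 1 - 2 * q / p by ring] at hE
  obtain ⟨f, f1, -, f2⟩ := fx_ext hdeg hm hst hbij univ p q hp (by nlinarith only [hkpq, hk]) hE 0
    (fun e h => absurd ⟨mem_univ _, mem_univ _⟩ h) fun v h => absurd (mem_univ _) h
  exact ⟨f, f1, f2⟩

end Pool.Agent.Lib.MP_c8786f_co.W5
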