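import Pool.Agent.Lib.MP_c8786f_co.W5.Defs3

/-!
Blobs exist: a potential argument.
-/

namespace Pool.Agent.Lib.MP_c8786f_co.W5

open Finset

section Aux

variable {V : Type} [Fintype V] [DecidableEq V] {n : Equiv.Perm V} {m : V → V}

/-- the number of darts from `X` to `Y` -/
def blobE (n : Equiv.Perm V) (m : V → V) (X Y : Finset V) : ℕ :=
  (univ.filter fun q : V × Fin 3 => q.1 ∈ X ∧ step n m q.2 q.1 ∈ Y).card

lemma blob_inv_inv (l : Fin 3) : inv (inv l) = l := by fin_cases l <;> rfl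

lemma blobE_comm (hm : ∀ v, m (m v) = v) (X Y : Finset V) : blobE n m X Y = blobE n m Y X := by
  refine card_nbij' (fun q => (step n m q.2 q.1, inv q.2)) (fun q => (step n m q.2 q.1, inv q.2))
    ?_ ?_ ?_ ?_ <;> intro q hq <;> simp_all [step_inv n hm, blob_inv_inv]

lemma blobE_left {X X' : Finset V} (h : Disjoint X X') (Y : Finset V) :
    blobE n m (X ∪ X') Y = blobE n m X Y + blobE n m X' Y := by
  unfold blobE
  rw [← card_union_of_disjoint, ← filter_or]
  · congr 2
    ext q
    simp only [mem_union]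
    tauto
  · exact disjoint_filter.2 fun q _ a b => disjoint_left.1 h a.1 b.1

lemma blobE_right (X : Finset V) {Y Y' : Finset V} (h : Disjoint Y Y') :
    blobE n m X (Y ∪ Y') = blobE n m X Y + blobE n m X Y' := by
  unfold blobE
  rw [← card_union_of_disjoint, ← filter_or]
  · congr 2
    ext q
    simp only [mem_union]
    tauto
  · exact disjoint_filter.2 fun q _ a b => disjoint_left.1 h a.2 b.2

lemma blobE_mono (X : Finset V) {Y Y' : Finset V} (h : Y ⊆ Y') :
    blobE n m X Y ≤ blobE n m X Y' :=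
  card_le_card fun q hq => by
    simp only [mem_filter, mem_univ, true_and] at hq ⊢
    exact ⟨hq.1, h hq.2⟩

lemma blob_hcut (Y : Finset V) : hcut n m Y = blobE n m Y Yᶜ := by
  simp only [hcut, blobE, mem_compl]

lemma blob_icut (B Y : Finset V) : icut n m B Y = blobE n m Y (B \ Y) := by
  simp only [icut, blobE, mem_sdiff]

lemma blob_split {A C : Finset V} (h : Disjoint A C) :
    hcut n m A = blobE n m A (A ∪ C)ᶜ + blobE n m A C := by
  rw [blob_hcut, ← blobE_right]
  · congr 1
    ext v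
    have : v ∈ A → v ∉ C := fun hv => disjoint_left.1 h hv
    simp only [mem_union, mem_compl]
    tauto
  · rw [disjoint_left]
    intro v a b
    exact mem_compl.1 a (mem_union_right _ b)

lemma blob_union {A C : Finset V} (h : Disjoint A C) :
    hcut n m (A ∪ C) = blobE n m A (A ∪ C)ᶜ + blobE n m C (A ∪ C)ᶜ := by
  rw [blob_hcut, blobE_left h]

lemma blob_split' {A C : Finset V} (h : Disjoint A C) :
    hcut n m C = blobE n m C (A ∪ C)ᶜ + blobE n m C A := by
  rw [union_comm]; exact blob_split h.symm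

lemma blob_single (a : V) : hcut n m {a} ≤ 3 := by
  have : (univ.filter fun q : V × Fin 3 => q.1 ∈ ({a} : Finset V) ∧ step n m q.2 q.1 ∉ ({a} : Finset V))
      ⊆ {a} ×ˢ univ := fun q hq => mem_product.2 ⟨(mem_filter.1 hq).2.1, mem_univ _⟩
  simpa [hcut] using card_le_card this

lemma blob_walk (hm : ∀ v, m (m v) = v) (B : Finset V) (a : V) (w : List (Fin 3))
    (h : Ins n m B w a) : ∃ P ⊆ B, a ∈ P ∧ act n m w a ∈ P ∧ P.card ≤ w.length + 1 ∧
      hcut n m P ≤ P.card + 2 := by
  induction w with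
  | nil => exact ⟨{a}, singleton_subset_iff.2 h, by simp, by simp, by simp, blob_single a⟩
  | cons l w ih =>
    obtain ⟨P, h1, h2, h3, h4, h5⟩ := ih h.1
    by_cases hy : act n m (l :: w) a ∈ P
    · exact ⟨P, h1, h2, hy, by simp only [List.length_cons]; omega, h5⟩
    have hd : Disjoint P {act n m (l :: w) a} := disjoint_singleton_right.2 hy
    refine ⟨P ∪ {act n m (l :: w) a}, union_subset h1 (singleton_subset_iff.2 h.2),
      mem_union_left _ h2, by simp, ?_, ?_⟩
    · rw [card_union_of_disjoint hd]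
      simp only [List.length_cons, card_singleton]
      omega
    · have e1 := blob_split (n := n) (m := m) hd
      have e2 := blob_split' (n := n) (m := m) hd
      have e3 := blob_union (n := n) (m := m) hd
      have e4 := blobE_comm (n := n) hm P {act n m (l :: w) a}
      have e5 := blob_single (n := n) (m := m) (act n m (l :: w) a)
      have e6 : 0 < blobE n m P {act n m (l :: w) a} :=
        card_pos.2 ⟨(act n m w a, l), by simp [h3]⟩
      rw [card_union_of_disjoint hd, card_singleton]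
      omega

/-- the potential -/
def blobPsi (n : Equiv.Perm V) (m : V → V) (W : ℕ) (B X : Finset V) : ℤ :=
  2 * W * hcut n m B + W ^ 2 * (hcut n m X - X.card + 2 * (hcut n m B - blobE n m B X)) + 2 * X.card

lemma blob_bound {W Φ : ℕ} (hW : 0 < W) {B X : Finset V} (h : Disjoint B X)
    (hX : X.card ≤ hcut n m X) (hΨ : blobPsi n m W B X ≤ 2 * W * Φ) :
    hcut n m B ≤ Φ ∧ X.card ≤ W * Φ := by
  have e1 : blobE n m B X ≤ hcut n m B := by rw [blob_split h]; omega
  have e2 : (0 : ℤ) ≤ W ^ 2 * (hcut n m X - X.card + 2 * (hcut n m B - blobE n m B X)) :=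
    mul_nonneg (sq_nonneg _) (by omega)
  unfold blobPsi at hΨ
  have e3 : (0 : ℤ) ≤ 2 * W * hcut n m B := by positivity
  constructor
  · have : (2 * W : ℤ) * hcut n m B ≤ 2 * W * Φ := by omega
    exact_mod_cast le_of_mul_le_mul_left this (by positivity)
  · have : (X.card : ℤ) ≤ W * Φ := by linarith
    exact_mod_cast this

lemma blob_drop (hm : ∀ v, m (m v) = v) {W : ℕ} {B P X : Finset V} (h : Disjoint B P)
    (hX : Disjoint (B ∪ P) X) (hP : P.card ≤ W) (hd : hcut n m P ≤ P.card + 2)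
    (hi : 2 ≤ blobE n m P (B ∪ P)ᶜ) : blobPsi n m W B (X ∪ P) ≤ blobPsi n m W (B ∪ P) X := by
  have hXP : Disjoint X P := (disjoint_union_left.1 hX).2.symm
  have e1 := blob_split (n := n) (m := m) h
  have e2 := blob_split' (n := n) (m := m) h
  have e3 := blob_union (n := n) (m := m) h
  have e4 := blobE_comm (n := n) hm B P
  have f1 := blob_split (n := n) (m := m) hXP
  have f2 := blob_split' (n := n) (m := m) hXP
  have f3 := blob_union (n := n) (m := m) hXP
  have f4 := blobE_comm (n := n) hm X P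
  have g1 := blobE_right (n := n) (m := m) B hXP
  have g2 := blobE_left (n := n) (m := m) h X
  have g3 := card_union_of_disjoint hXP
  have k1 : (hcut n m B : ℤ) ≤ hcut n m (B ∪ P) + W - 2 := by omega
  have k2 : (hcut n m (X ∪ P) : ℤ) - (X ∪ P).card + 2 * (hcut n m B - blobE n m B (X ∪ P))
      ≤ hcut n m X - X.card + 2 * (hcut n m (B ∪ P) - blobE n m (B ∪ P) X) - 2 := by omega
  have k3 : ((X ∪ P).card : ℤ) ≤ X.card + W := by omega
  have k4 := mul_le_mul_of_nonneg_left k1 (show (0 : ℤ) ≤ 2 * W by positivity)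
  have k5 := mul_le_mul_of_nonneg_left k2 (sq_nonneg (W : ℤ))
  unfold blobPsi
  have : (0 : ℤ) ≤ W := by positivity
  nlinarith

lemma blob_side {W k N : ℕ} {Z Z' X : Finset V} (h : Disjoint Z Z') (hX : Disjoint (Z ∪ Z') X)
    (hc : blobE n m Z Z' < k) (hZ : blobE n m Z (Z ∪ Z')ᶜ ≤ blobE n m Z' (Z ∪ Z')ᶜ)
    (hΨ : blobPsi n m W (Z ∪ Z') X ≤ 2 * W * ((W + 1) * ((W + 2) * k + N) : ℕ)) :
    blobPsi n m W Z X ≤ 2 * W * ((W + 1) * ((W + 2) * k + N) : ℕ) ∨
      blobPsi n m W Z ∅ ≤ 2 * W * ((W + 1) * ((W + 2) * k + N) : ℕ) := by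
  have e1 := blob_split (n := n) (m := m) h
  have e3 := blob_union (n := n) (m := m) h
  have g2 := blobE_left (n := n) (m := m) h X
  have g3 : blobE n m Z' X ≤ blobE n m Z' (Z ∪ Z')ᶜ :=
    blobE_mono _ fun v hv => mem_compl.2 fun h' => disjoint_left.1 hX h' hv
  have hW : (0 : ℤ) ≤ W := by positivity
  by_cases hb : 2 * ((W + 1) * k) ≤ hcut n m (Z ∪ Z')
  · refine Or.inl (le_trans ?_ hΨ)
    have k0 : (2 : ℤ) * ((W + 1) * k) ≤ hcut n m (Z ∪ Z') := by exact_mod_cast hb
    have k1 : 2 * (hcut n m Z : ℤ) ≤ hcut n m (Z ∪ Z') + 2 * k := by omega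
    have k2 : (hcut n m Z : ℤ) - blobE n m Z X
        ≤ hcut n m (Z ∪ Z') - blobE n m (Z ∪ Z') X + k := by omega
    have k4 := mul_le_mul_of_nonneg_left k1 hW
    have k5 := mul_le_mul_of_nonneg_left k2 (sq_nonneg (W : ℤ))
    have k6 := mul_le_mul_of_nonneg_left k0 hW
    unfold blobPsi
    nlinarith
  · refine Or.inr ?_
    have k1 : hcut n m Z ≤ (W + 2) * k + N := by
      have : (W + 2) * k = (W + 1) * k + k := by ring
      omega
    have k2 : (hcut n m Z : ℤ) ≤ (W + 2) * k + N := by exact_mod_cast k1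
    have k3 := mul_le_mul_of_nonneg_left k2 (show (0 : ℤ) ≤ 2 * W * (W + 1) by positivity)
    simp only [blobPsi, hcut, blobE, notMem_empty, false_and, and_false, filter_false, card_empty]
      at k3 ⊢
    push_cast
    nlinarith

end Aux

theorem blob : BlobStmt := by
  intro k D N
  set W := D + 1 with hW
  set Φ := (W + 1) * ((W + 2) * k + N) with hΦ
  refine ⟨Φ, W * Φ + W + Φ, by omega, ?_⟩
  intro K hK V _ _ n m B0 hm hN hB0 hfor
  have hW0 : 0 < W := by omega
  have hX0 : ∀ X ⊆ B0, X.card ≤ K → X.card ≤ hcut n m X := fun X h1 h2 => by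
    rcases X.eq_empty_or_nonempty with rfl | h
    · simp
    · have := hfor X h1 h h2
      omega
  have hbig : ∀ Z ⊆ B0, Φ < Z.card → hcut n m Z ≤ Φ → K < Z.card := fun Z h1 h2 h3 => by
    by_contra h
    have := hX0 Z h1 (by omega)
    omega
  have hex : ∃ c, ∃ B X : Finset V, B.card = c ∧ B ⊆ B0 ∧ X ⊆ B0 ∧ Disjoint B X ∧ K < B.card ∧
      X.card ≤ K ∧ blobPsi n m W B X ≤ 2 * W * Φ := by
    refine ⟨_, B0, ∅, rfl, subset_rfl, empty_subset _, disjoint_empty_right _, hB0, by simp, ?_⟩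
    have k2 : (hcut n m B0 : ℤ) ≤ (W + 2) * k + N := by
      have : hcut n m B0 ≤ (W + 2) * k + N := by omega
      exact_mod_cast this
    have k3 := mul_le_mul_of_nonneg_left k2 (show (0 : ℤ) ≤ 2 * W * (W + 1) by positivity)
    simp only [blobPsi, hcut, blobE, notMem_empty, false_and, and_false, filter_false, card_empty,
      hΦ] at k3 ⊢
    push_cast
    nlinarith
  classical
  obtain ⟨B, X, hc, h1, h2, h3, h4, h5, h6⟩ := Nat.find_spec hex
  have hmin : ∀ B' X' : Finset V, B' ⊆ B0 → X' ⊆ B0 → Disjoint B' X' → Φ < B'.card →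
      X'.card ≤ K → blobPsi n m W B' X' ≤ 2 * W * Φ → B.card ≤ B'.card :=
    fun B' X' a1 a2 a3 a4 a5 a6 => hc ▸ Nat.find_min' hex ⟨B', X', rfl, a1, a2, a3,
      hbig B' a1 a4 (blob_bound hW0 a3 (hX0 X' a2 a5) a6).1, a5, a6⟩
  obtain ⟨b1, b2⟩ := blob_bound hW0 h3 (hX0 X h2 h5) h6
  refine ⟨B, h1, fun a l a' l' w c1 c2 c3 c4 c5 => ?_, b1, h4,
    fun Y hY => hfor Y (hY.trans h1), fun Y hY c1 c2 => ?_⟩
  · by_contra hne
    obtain ⟨P, p1, p2, p3, p4, p5⟩ := blob_walk hm B a w c3
    rw [c5] at p3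
    have e : B \ P ∪ P = B := sdiff_union_of_subset p1
    have hi : 2 ≤ blobE n m P (B \ P ∪ P)ᶜ := by
      rw [e]
      exact one_lt_card.2 ⟨(a, l), by simp [p2, c1], (a', l'), by simp [p3, c2],
        fun h => hne (Prod.ext_iff.1 h)⟩
    have d := blob_drop (W := W) hm sdiff_disjoint (e.symm ▸ h3) (by omega) p5 hi
    rw [e] at d
    have q1 := card_sdiff_add_card_eq_card p1
    have q2 := card_pos.2 ⟨a, p2⟩
    have q3 := card_union_le X P
    have := hmin (B \ P) (X ∪ P) (sdiff_subset.trans h1) (union_subset h2 (p1.trans h1))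
      (disjoint_union_right.2 ⟨h3.mono_left sdiff_subset, sdiff_disjoint⟩) (by omega) (by omega)
      (d.trans h6)
    omega
  · by_contra hlt
    rw [blob_icut, not_le] at hlt
    have key : ∀ Z Z' : Finset V, Disjoint Z Z' → Z ∪ Z' = B → Φ < Z.card → Φ < Z'.card →
        blobE n m Z Z' < k → ¬blobE n m Z Bᶜ ≤ blobE n m Z' Bᶜ := by
      rintro Z Z' z1 rfl z2 z3 z4 z5
      have q1 := card_union_of_disjoint z1
      have q2 : Z ⊆ B0 := subset_union_left.trans h1
      rcases blob_side z1 h3 z4 z5 h6 with z6 | z6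
      · have := hmin Z X q2 h2 (h3.mono_left subset_union_left) z2 h5 z6
        omega
      · have := hmin Z ∅ q2 (empty_subset _) (disjoint_empty_right _) z2 (by simp) z6
        omega
    rcases le_total (blobE n m Y Bᶜ) (blobE n m (B \ Y) Bᶜ) with h | h
    · exact key Y (B \ Y) disjoint_sdiff (union_sdiff_of_subset hY) c1 c2 hlt h
    · exact key (B \ Y) Y sdiff_disjoint (sdiff_union_of_subset hY) c2 c1
        (blobE_comm hm Y _ ▸ hlt) h

end Pool.Agent.Lib.MP_c8786f_co.W5
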