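import Pool.Agent.Lib.MP_c8786f_co.W5.Defs
import Pool.Agent.Shared.TJoin

/-! From simple cubic graphs to the permutation model. -/

namespace Pool.Agent.Lib.MP_c8786f_co.W5.Bridge

open Finset

set_option linter.unusedSectionVars false

lemma exists_walk {W : Type} {H : SimpleGraph W} (x : ℕ → W) :
    ∀ (d i : ℕ) (y : W), x (i + d) = y → (∀ t, i ≤ t → t < i + d → H.Adj (x t) (x (t + 1))) →
      ∃ w : H.Walk (x i) y, w.length = d ∧ w.support = (List.range' i (d + 1)).map x := by
  intro d
  induction d with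
  | zero => rintro i y rfl _; exact ⟨.nil, rfl, rfl⟩
  | succ d ih =>
    intro i y hy h
    obtain ⟨w, h1, h2⟩ := ih (i + 1) y (by rw [← hy]; congr 1; omega)
      fun t a b => h t (by omega) (by omega)
    exact ⟨.cons (h i le_rfl (by omega)) w, by simp [h1], by
      rw [SimpleGraph.Walk.support_cons, h2]; rfl⟩

/-- a non-backtracking sequence with a repetition contains a cycle -/
lemma cycle_of_seq {W : Type} {H : SimpleGraph W} (x : ℕ → W) (n : ℕ)
    (h1 : ∀ t < n, H.Adj (x t) (x (t + 1))) (h2 : ∀ t, t + 2 ≤ n → x (t + 2) ≠ x t)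
    {i j : ℕ} (hij : i < j) (hj : j ≤ n) (h : x i = x j) :
    ∃ (a : W) (w : H.Walk a a), w.IsCycle ∧ w.length ≤ n := by
  classical
  have ex : ∃ d, ∃ i, i + (d + 1) ≤ n ∧ x (i + (d + 1)) = x i :=
    ⟨j - i - 1, i, by omega, by rw [h]; congr 1; omega⟩
  obtain ⟨i, hi, hx⟩ := Nat.find_spec ex
  set d := Nat.find ex with hd
  have hmin : ∀ a b, a < b → b ≤ n → b - a ≤ d → x a ≠ x b := fun a b hab hb hd' he =>
    Nat.find_min ex (m := b - a - 1) (by omega) ⟨a, by omega, by rw [he]; congr 1; omega⟩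
  obtain ⟨w, hw1, hw2⟩ := exists_walk (H := H) x (d + 1) i (x i) hx fun t _ ht => h1 t (by omega)
  have hd2 : 2 ≤ d := by
    by_contra hlt
    have : d = 0 ∨ d = 1 := by omega
    rcases this with h0 | h0 <;> rw [h0] at hx hi
    · exact (h1 i (by omega)).ne hx.symm
    · exact h2 i hi hx
  refine ⟨x i, w, SimpleGraph.Walk.isCycle_iff_isPath_tail_and_le_length.mpr ⟨?_, by omega⟩,
    by omega⟩
  rw [SimpleGraph.Walk.isPath_def, SimpleGraph.Walk.support_tail_of_not_nil _ (by
    rw [SimpleGraph.Walk.not_nil_iff_lt_length]; omega), hw2, List.range'_succ, List.map_cons,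
    List.tail_cons]
  refine List.Nodup.map_on (fun a ha b hb hab => ?_) List.nodup_range'
  rw [List.mem_range'_1] at ha hb
  rcases lt_trichotomy a b with h3 | h3 | h3
  · exact absurd hab (hmin a b h3 (by omega) (by omega))
  · exact h3
  · exact absurd hab.symm (hmin b a h3 (by omega) (by omega))

variable {V : Type} [Fintype V] [DecidableEq V]

lemma exists_leaf (H : SimpleGraph V) [DecidableRel H.Adj] {X : Finset V}
    (hX : (H.induce (X : Set V)).IsAcyclic) {W : Finset V} (hW : W ⊆ X) (hne : W.Nonempty) :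
    ∃ v ∈ W, (W.filter (H.Adj v)).card ≤ 1 := by
  by_contra hn
  push Not at hn
  have h1 : ∀ q : V × W, ∃ z : W, H.Adj q.2 z ∧ (z : V) ≠ q.1 := fun q => by
    obtain ⟨z, hz, hz'⟩ := exists_mem_ne (hn q.2 q.2.2) q.1
    exact ⟨⟨z, (mem_filter.mp hz).1⟩, (mem_filter.mp hz).2, hz'⟩
  choose nx hn1 hn2 using h1
  obtain ⟨v, hv⟩ := hne
  let st : ℕ → V × W := fun n => (fun q : V × W => ((q.2 : V), nx q))^[n] (v, ⟨v, hv⟩)
  have hst : ∀ n, st (n + 1) = (((st n).2 : V), nx (st n)) := fun n =>
    Function.iterate_succ_apply' _ _ _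
  let x : ℕ → (X : Set V) := fun n => ⟨(st n).2, hW (st n).2.2⟩
  obtain ⟨i, j, hij, he⟩ := Finite.exists_ne_map_eq_of_infinite x
  have a1 : ∀ t, (H.induce (X : Set V)).Adj (x t) (x (t + 1)) := fun t => by
    show H.Adj (st t).2 (st (t + 1)).2
    rw [hst]; exact hn1 _
  have a2 : ∀ t, x (t + 2) ≠ x t := fun t h => by
    have h3 : ((st (t + 2)).2 : V) = (st t).2 := congrArg (fun z : (X : Set V) => (z : V)) h
    have h4 := hn2 (st (t + 1))
    rw [hst (t + 1)] at h3
    rw [h3, hst] at h4
    exact h4 rfl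
  rcases lt_or_gt_of_ne hij with h | h
  · obtain ⟨a, w, hw, -⟩ := cycle_of_seq x j (fun t _ => a1 t) (fun t _ => a2 t) h le_rfl he
    exact hX w hw
  · obtain ⟨a, w, hw, -⟩ := cycle_of_seq x i (fun t _ => a1 t) (fun t _ => a2 t) h le_rfl he.symm
    exact hX w hw

lemma card_interedges (H : SimpleGraph V) [DecidableRel H.Adj] (A B : Finset V) :
    (H.interedges A B).card = ∑ a ∈ A, (B.filter (H.Adj a)).card := by
  simp only [SimpleGraph.interedges, Rel.interedges, card_filter, sum_product]

lemma inner_le (H : SimpleGraph V) [DecidableRel H.Adj] {X : Finset V}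
    (hX : (H.induce (X : Set V)).IsAcyclic) : ∀ (n : ℕ) (W : Finset V), W ⊆ X → W.card = n + 1 →
      (H.interedges W W).card ≤ 2 * n := by
  intro n
  induction n with
  | zero =>
    intro W _ h
    obtain ⟨a, rfl⟩ := card_eq_one.mp h
    simp [card_interedges, filter_singleton]
  | succ n ih =>
    intro W hW h
    obtain ⟨v, hv, h1⟩ := exists_leaf H hX hW (card_pos.mp (by omega))
    obtain ⟨W, hvW, rfl⟩ : ∃ W', v ∉ W' ∧ W = insert v W' :=
      ⟨W.erase v, notMem_erase _ _, (insert_erase hv).symm⟩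
    rw [card_insert_of_notMem hvW] at h
    have h2 := ih W ((subset_insert _ _).trans hW) (by omega)
    have h3 : (W.filter (H.Adj v)).card ≤ 1 :=
      (card_le_card (filter_subset_filter _ (subset_insert _ _))).trans h1
    rw [card_interedges] at h2 ⊢
    rw [sum_insert hvW]
    have h4 : ∑ a ∈ W, ((insert v W).filter (H.Adj a)).card ≤
        ∑ a ∈ W, ((W.filter (H.Adj a)).card + if H.Adj v a then 1 else 0) :=
      sum_le_sum fun a _ => by
        rw [filter_insert]
        split_ifs with h5 h6 h6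
        · exact card_insert_le _ _
        · exact absurd h5.symm h6
        · omega
        · omega
    rw [sum_add_distrib, ← card_filter] at h4
    exact (add_le_add h1 (h4.trans (add_le_add h2 h3))).trans (by omega)

lemma inter_add (H : SimpleGraph V) [DecidableRel H.Adj] (hreg : H.IsRegularOfDegree 3)
    (X : Finset V) : (H.interedges X X).card + (H.interedges X Xᶜ).card = 3 * X.card := by
  rw [card_interedges, card_interedges, ← sum_add_distrib, mul_comm, ← smul_eq_mul, ← sum_const]
  refine sum_congr rfl fun a _ => ?_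
  rw [← card_union_of_disjoint (disjoint_filter_filter disjoint_compl_right), ← filter_union,
    union_compl, ← hreg.degree_eq a, ← SimpleGraph.card_neighborFinset_eq_degree,
    SimpleGraph.neighborFinset_eq_filter]

lemma inter_symm (H : SimpleGraph V) [DecidableRel H.Adj] (A B : Finset V) :
    (H.interedges A B).card = (H.interedges B A).card := by
  simp only [card_interedges, card_filter]
  rw [sum_comm]
  exact sum_congr rfl fun a _ => sum_congr rfl fun b _ => by simp only [H.adj_comm]

/-- forests in cubic graphs expand -/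
lemma acyclic_expand (H : SimpleGraph V) [DecidableRel H.Adj] (hreg : H.IsRegularOfDegree 3)
    {X : Finset V} (hX : (H.induce (X : Set V)).IsAcyclic) (hne : X.Nonempty) :
    X.card + 2 ≤ (H.interedges X Xᶜ).card := by
  obtain ⟨n, hn⟩ : ∃ n, X.card = n + 1 := ⟨X.card - 1, by have := card_pos.mpr hne; omega⟩
  have h1 := inner_le H hX n X subset_rfl hn
  have h2 := inter_add H hreg X
  omega

/-- a perfect matching and an orientation of the complementary 2-factor -/
lemma exists_sign (H : SimpleGraph V) [DecidableRel H.Adj] (hreg : H.IsRegularOfDegree 3)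
    (hb : ∀ X : Finset V, (H.interedges X Xᶜ).card ≠ 1) :
    ∃ F : V → V → ℤ, (∀ u v, F u v = -F v u) ∧ (∀ u v, F u v = 0 ∨ F u v = 1 ∨ F u v = -1) ∧
      (∀ v, ∑ u with H.Adj v u, F v u = 0) ∧
      ∀ v, (univ.filter fun u => H.Adj v u ∧ F v u = 0).card = 1 := by
  classical
  let key := Fintype.equivFin V
  let E := {q : V × V // H.Adj q.1 q.2 ∧ key q.1 < key q.2}
  let s : E → V := fun e => e.1.1
  let t : E → V := fun e => e.1.2
  have hkey : ∀ u v, H.Adj u v → ¬key u < key v → key v < key u := fun u v h h' =>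
    lt_of_le_of_ne (not_lt.mp h') fun h2 => h.ne (key.injective h2).symm
  let ed : ∀ u v, H.Adj u v → E := fun u v h =>
    if h' : key u < key v then ⟨(u, v), h, h'⟩ else ⟨(v, u), h.symm, hkey u v h h'⟩
  have hed : ∀ u v h, (s (ed u v h) = u ∧ t (ed u v h) = v ∧ key u < key v) ∨
      (s (ed u v h) = v ∧ t (ed u v h) = u ∧ key v < key u) := fun u v h => by
    simp only [ed]
    split_ifs with h'
    · exact Or.inl ⟨rfl, rfl, h'⟩
    · exact Or.inr ⟨rfl, rfl, hkey u v h h'⟩
  have ed1 : ∀ e : E, ed (s e) (t e) e.2.1 = e := fun e => dif_pos e.2.2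
  have ed2 : ∀ e : E, ed (t e) (s e) e.2.1.symm = e := fun e => dif_neg e.2.2.le.not_gt
  have z2 : ∀ a : ZMod 2, a = 0 ∨ a = 1 := by decide
  have hcut : ∀ c : V → ZMod 2, (Shared.TJoin.cut s t c).card =
      (H.interedges (univ.filter fun v => c v = 1) (univ.filter fun v => c v = 1)ᶜ).card := by
    intro c
    symm
    refine card_bij (fun q hq => ed q.1 q.2 (H.mem_interedges_iff.mp hq).2.2) ?_ ?_ ?_
    · intro q hq
      have h := H.mem_interedges_iff.mp hq
      simp only [mem_filter, mem_univ, true_and, mem_compl] at h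
      rw [Shared.TJoin.mem_cut]
      rcases hed q.1 q.2 h.2.2 with h1 | h1 <;> rw [h1.1, h1.2.1, h.1]
      · exact fun h2 => h.2.1 h2.symm
      · exact h.2.1
    · intro q hq q' hq' he
      have h := H.mem_interedges_iff.mp hq
      have h' := H.mem_interedges_iff.mp hq'
      simp only [mem_filter, mem_univ, true_and, mem_compl] at h h'
      rcases hed q.1 q.2 h.2.2 with h1 | h1 <;> rcases hed q'.1 q'.2 h'.2.2 with h2 | h2 <;>
        rw [he] at h1
      · exact Prod.ext (h1.1.symm.trans h2.1) (h1.2.1.symm.trans h2.2.1)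
      · exact absurd (h2.1.symm.trans h1.1 ▸ h.1) h'.2.1
      · exact absurd (h1.1.symm.trans h2.1 ▸ h'.1) h.2.1
      · exact Prod.ext (h1.2.1.symm.trans h2.2.1) (h1.1.symm.trans h2.1)
    · intro e he
      rw [Shared.TJoin.mem_cut] at he
      by_cases h : c (s e) = 1
      · exact ⟨(s e, t e), H.mem_interedges_iff.mpr
          ⟨by simp [h], by simpa using fun h2 => he (h.trans h2.symm), e.2.1⟩, ed1 e⟩
      · refine ⟨(t e, s e), H.mem_interedges_iff.mpr
          ⟨?_, by simpa using h, e.2.1.symm⟩, ed2 e⟩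
        rcases z2 (c (t e)) with h2 | h2
        · exact absurd (((z2 _).resolve_right h).trans h2.symm) he
        · simp [h2]
  have hpar : ∀ c : V → ZMod 2, Shared.TJoin.par s t univ c =
      ((Shared.TJoin.cut s t c).card : ZMod 2) := fun c => by
    rw [Shared.TJoin.par_eq_card, univ_inter]
  have hstar : ∀ v, (Shared.TJoin.cut s t (Pi.single v 1)).card = 3 := fun v => by
    have : (univ.filter fun u => (Pi.single v 1 : V → ZMod 2) u = 1) = {v} := by
      ext u
      by_cases h : u = v <;> simp [h]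
    have h1 := inter_add H hreg {v}
    rw [card_interedges] at h1
    rw [hcut, this]
    simpa [filter_singleton] using h1
  obtain ⟨J, hJ, -, hJ1⟩ := Shared.TJoin.edmonds_johnson_tight s t (fun _ => 1 / 3) (fun _ => 0)
    ⟨fun _ => by norm_num, fun c hc => by
      rw [hpar] at hc
      have h1 := ZMod.natCast_eq_one_iff_odd.mp hc
      have h2 := hb (univ.filter fun v => c v = 1)
      rw [← hcut] at h2
      have h3 : 3 ≤ (Shared.TJoin.cut s t c).card := by
        obtain ⟨a, ha⟩ := h1; omega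
      have h4 : (3 : ℝ) ≤ (Shared.TJoin.cut s t c).card := by exact_mod_cast h3
      rw [sum_const, nsmul_eq_mul]; linarith⟩ fun _ => le_rfl
  obtain ⟨f, hf, hf1, hf0⟩ := Shared.TJoin.exists_orient_compl s t J hJ
  let F : V → V → ℤ := fun u v =>
    if h : H.Adj u v then (if key u < key v then f (ed u v h) else -f (ed u v h)) else 0
  have edc : ∀ u v (h : H.Adj u v), ed v u h.symm = ed u v h := fun u v h => by
    rcases hed u v h with h1 | h1
    · rw [← ed2 (ed u v h)]; simp only [h1.1, h1.2.1]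
    · rw [← ed1 (ed u v h)]; simp only [h1.1, h1.2.1]
  refine ⟨F, fun u v => ?_, fun u v => ?_, fun v => ?_, fun v => ?_⟩
  · by_cases h : H.Adj u v
    · simp only [F, dif_pos h, dif_pos h.symm, edc u v h]
      by_cases h' : key u < key v
      · rw [if_pos h', if_neg h'.le.not_gt, neg_neg]
      · rw [if_neg h', if_pos (hkey u v h h')]
    · simp [F, h, show ¬H.Adj v u from fun h' => h h'.symm]
  · by_cases h : H.Adj u v
    · simp only [F, dif_pos h]
      by_cases h2 : ed u v h ∈ J
      · simp [hf0 _ h2]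
      · rcases hf1 _ h2 with h3 | h3 <;> rw [h3] <;> split_ifs <;> simp
    · simp [F, h]
  · have h1 : ∑ u ∈ (univ.filter fun u => H.Adj v u) with key v < key u, F v u =
        ∑ e with s e = v, f e := by
      symm
      refine sum_bij (fun e _ => t e) ?_ ?_ ?_ ?_
      · intro e he
        obtain rfl := (mem_filter.mp he).2
        exact mem_filter.mpr ⟨mem_filter.mpr ⟨mem_univ _, e.2.1⟩, e.2.2⟩
      · intro e he e' he' h
        exact Subtype.ext (Prod.ext ((mem_filter.mp he).2.trans (mem_filter.mp he').2.symm) h)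
      · intro u hu
        obtain ⟨h1, h2⟩ := mem_filter.mp hu
        exact ⟨⟨(v, u), (mem_filter.mp h1).2, h2⟩, mem_filter.mpr ⟨mem_univ _, rfl⟩, rfl⟩
      · intro e he
        obtain rfl := (mem_filter.mp he).2
        simp only [F, ed1]
        rw [dif_pos e.2.1, if_pos e.2.2]
    have h2 : ∑ u ∈ (univ.filter fun u => H.Adj v u) with ¬key v < key u, F v u =
        ∑ e with t e = v, -f e := by
      symm
      refine sum_bij (fun e _ => s e) ?_ ?_ ?_ ?_
      · intro e he
        obtain rfl := (mem_filter.mp he).2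
        exact mem_filter.mpr ⟨mem_filter.mpr ⟨mem_univ _, e.2.1.symm⟩, e.2.2.le.not_gt⟩
      · intro e he e' he' h
        exact Subtype.ext (Prod.ext h ((mem_filter.mp he).2.trans (mem_filter.mp he').2.symm))
      · intro u hu
        obtain ⟨h1, h2⟩ := mem_filter.mp hu
        exact ⟨⟨(u, v), (mem_filter.mp h1).2.symm, hkey v u (mem_filter.mp h1).2 h2⟩,
          mem_filter.mpr ⟨mem_univ _, rfl⟩, rfl⟩
      · intro e he
        obtain rfl := (mem_filter.mp he).2
        simp only [F, ed2]
        rw [dif_pos e.2.1.symm, if_neg e.2.2.le.not_gt]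
    rw [← sum_filter_add_sum_filter_not _ fun u => key v < key u, h1, h2, sum_neg_distrib,
      hf.vertex v, add_neg_cancel]
  · rw [← hJ1 (Pi.single v 1) (by rw [hpar, hstar]; rfl) (by rw [sum_const, hstar]; norm_num)]
    refine card_bij (fun u hu => ed v u (mem_filter.mp hu).2.1) ?_ ?_ ?_
    · intro u hu
      have h := (mem_filter.mp hu).2
      refine mem_inter.mpr ⟨?_, Shared.TJoin.mem_star.mpr ?_⟩
      · by_contra h2
        have h3 := h.2
        simp only [F, dif_pos h.1] at h3
        rcases hf1 _ h2 with h4 | h4 <;> rw [h4] at h3 <;> split_ifs at h3 <;> simp at h3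
      · rcases hed v u h.1 with h1 | h1 <;> rw [h1.1, h1.2.1]
        · exact Or.inl ⟨rfl, h.1.ne'⟩
        · exact Or.inr ⟨h.1.ne', rfl⟩
    · intro u hu u' hu' he
      have h := (mem_filter.mp hu).2.1
      have h' := (mem_filter.mp hu').2.1
      rcases hed v u h with h1 | h1 <;> rcases hed v u' h' with h2 | h2 <;> rw [he] at h1
      · exact h1.2.1.symm.trans h2.2.1
      · exact absurd (h1.1.symm.trans h2.1) h'.ne
      · exact absurd (h2.1.symm.trans h1.1) h.ne
      · exact h1.1.symm.trans h2.1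
    · intro e he
      obtain ⟨h1, h2⟩ := mem_inter.mp he
      rcases Shared.TJoin.mem_star.mp h2 with ⟨rfl, -⟩ | ⟨-, rfl⟩
      · exact ⟨t e, mem_filter.mpr ⟨mem_univ _, e.2.1, by
          simp only [F, ed1, hf0 e h1]; simp⟩, ed1 e⟩
      · exact ⟨s e, mem_filter.mpr ⟨mem_univ _, e.2.1.symm, by
          simp only [F, ed2, hf0 e h1]; simp⟩, ed2 e⟩

/-- large girth makes short reduced words distinct -/
lemma inj_of_girth (H : SimpleGraph V) {K : ℕ} (hK : (K : ℕ∞) ≤ H.egirth) (n : Equiv.Perm V)
    {m : V → V} (hm : ∀ v, m (m v) = v) (h1 : ∀ a v, H.Adj v (step n m a v))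
    (h2 : ∀ a b v, step n m a v = step n m b v → a = b) : Inj n m K := by
  have ii : ∀ a : Fin 3, inv (inv a) = a := by decide
  have hA : ∀ v (u : List (Fin 3)), Red u → u.length < K → act n m u v = v → u = [] := by
    intro v u hu hl h
    by_contra hne
    have hp := List.length_pos_iff.mpr hne
    have hd : ∀ t (ht : t < u.length), act n m (u.drop t) v =
        step n m u[t] (act n m (u.drop (t + 1)) v) := fun t ht => by
      rw [List.drop_eq_getElem_cons ht, act_cons]
    obtain ⟨a, w, hw, hw'⟩ := cycle_of_seq (H := H) (fun t => act n m (u.drop t) v) u.length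
      (fun t ht => by simp only [hd t ht]; exact (h1 _ _).symm)
      (fun t ht he => by
        simp only [hd t (by omega), hd (t + 1) (by omega)] at he
        exact List.isChain_iff_getElem.mp hu t (by omega)
          (h2 _ _ _ (he.symm.trans (step_inv n hm _ _).symm)))
      hp le_rfl (by simpa using h)
    have h3 := (SimpleGraph.le_egirth.mp hK) a w hw
    have h4 : K ≤ w.length := by exact_mod_cast h3
    omega
  intro v w w'
  induction w' generalizing w with
  | nil => exact fun hw _ hl h => hA v w hw (by simpa using hl) h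
  | cons a' w' ih =>
    intro hw hw' hl h
    have hw2 : Red w' := List.IsChain.tail hw'
    rw [List.length_cons] at hl
    by_cases hr : Red (inv a' :: w)
    · have h3 := ih (inv a' :: w) hr hw2 (by rw [List.length_cons]; omega)
        (by rw [act_cons, h, act_cons, step_inv n hm])
      rw [← h3] at hw'
      exact absurd (ii a').symm (List.isChain_cons_cons.mp hw').1
    · obtain _ | ⟨a, w⟩ := w
      · exact absurd (List.isChain_singleton _) hr
      have h3 : a = a' := by
        by_contra h3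
        exact hr (List.isChain_cons_cons.mpr ⟨fun h4 => h3 (by rw [← ii a, ← h4, ii]), hw⟩)
      subst h3
      rw [List.length_cons] at hl
      rw [ih w (List.IsChain.tail hw) hw2 (by omega)
        (by rw [← step_inv n hm a (act n m w v), ← act_cons n m a w, h, act_cons, step_inv n hm])]

lemma hcut_eq (H : SimpleGraph V) [DecidableRel H.Adj] (n : Equiv.Perm V) (m : V → V)
    (h1 : ∀ a v, H.Adj v (step n m a v)) (h2 : ∀ u v, H.Adj u v → ∃! a, step n m a u = v)
    (Y : Finset V) : hcut n m Y = (H.interedges Y Yᶜ).card := by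
  refine card_bij (fun q _ => (q.1, step n m q.2 q.1)) ?_ ?_ ?_
  · intro q hq
    have h := (mem_filter.mp hq).2
    exact H.mem_interedges_iff.mpr ⟨h.1, mem_compl.mpr h.2, h1 _ _⟩
  · rintro ⟨v, a⟩ - ⟨v', a'⟩ - h
    obtain ⟨rfl, h⟩ := Prod.mk.inj h
    rw [(h2 _ _ (h1 a v)).unique rfl h.symm]
  · intro q hq
    obtain ⟨h3, h4, h5⟩ := H.mem_interedges_iff.mp hq
    obtain ⟨a, ha, -⟩ := h2 _ _ h5
    exact ⟨(q.1, a), mem_filter.mpr ⟨mem_univ _, h3, ha ▸ mem_compl.mp h4⟩, Prod.ext rfl ha⟩

/-- every cut has `k` edges or one of its sides expands like a forest -/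
lemma cut_cases (H : SimpleGraph V) [DecidableRel H.Adj] (hreg : H.IsRegularOfDegree 3) {k : ℕ}
    (hc : ∀ X : Finset V, ¬(H.induce (X : Set V)).IsAcyclic →
      ¬(H.induce ((Xᶜ : Finset V) : Set V)).IsAcyclic → k ≤ (H.interedges X Xᶜ).card)
    (X : Finset V) : k ≤ (H.interedges X Xᶜ).card ∨ X = ∅ ∨ Xᶜ = ∅ ∨
      X.card + 2 ≤ (H.interedges X Xᶜ).card ∨ Xᶜ.card + 2 ≤ (H.interedges X Xᶜ).card := by
  by_contra hn
  push Not at hn
  obtain ⟨h1, h2, h3, h4, h5⟩ := hn
  refine absurd (hc X (fun h => ?_) fun h => ?_) h1.not_ge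
  · exact absurd (acyclic_expand H hreg h h2) h4.not_ge
  · have := acyclic_expand H hreg h h3
    rw [compl_compl, inter_symm] at this
    exact absurd this h5.not_ge

/-- A bridgeless cubic graph has a permutation model. -/
theorem exists_model (H : SimpleGraph V) [DecidableRel H.Adj] (hreg : H.IsRegularOfDegree 3)
    (hb : ∀ X : Finset V, (H.interedges X Xᶜ).card ≠ 1) :
    ∃ (n : Equiv.Perm V) (m : V → V), (∀ v, m (m v) = v) ∧ (∀ a v, H.Adj v (step n m a v)) ∧
      ∀ u v, H.Adj u v → ∃! a, step n m a u = v := by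
  obtain ⟨F, hF, hv, hs, h0⟩ := exists_sign H hreg hb
  have h1 : ∀ v (c : ℤ), c = 0 ∨ c = 1 ∨ c = -1 → ∃! u, H.Adj v u ∧ F v u = c := by
    intro v c hc
    have e1 : ∑ u with H.Adj v u, F v u = ∑ u with H.Adj v u,
        ((if F v u = 1 then 1 else 0) - if F v u = -1 then 1 else 0) :=
      sum_congr rfl fun u _ => by rcases hv v u with h | h | h <;> simp [h]
    have e2 : ∑ u with H.Adj v u, (1 : ℤ) = ∑ u with H.Adj v u, ((if F v u = 1 then 1 else 0) +
        (if F v u = -1 then 1 else 0) + if F v u = 0 then 1 else 0) :=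
      sum_congr rfl fun u _ => by rcases hv v u with h | h | h <;> simp [h]
    have e3 : (univ.filter fun u => H.Adj v u).card = 3 := by
      rw [← hreg.degree_eq v, ← SimpleGraph.card_neighborFinset_eq_degree,
        SimpleGraph.neighborFinset_eq_filter]
    simp only [sum_sub_distrib, sum_add_distrib, sum_boole, filter_filter, hs, h0, sum_const,
      e3] at e1 e2
    have e4 : (univ.filter fun u => H.Adj v u ∧ F v u = c).card = 1 := by
      rcases hc with rfl | rfl | rfl
      · exact h0 v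
      · norm_num at e2; omega
      · norm_num at e2; omega
    obtain ⟨u, hu⟩ := card_eq_one.mp e4
    have h5 := hu.symm ▸ mem_singleton_self u
    refine ⟨u, (mem_filter.mp h5).2, fun y hy => ?_⟩
    exact mem_singleton.mp (hu ▸ mem_filter.mpr ⟨mem_univ _, hy⟩)
  choose nb hnb hun using fun v c hc => h1 v c hc
  have c0 : (0 : ℤ) = 0 ∨ (0 : ℤ) = 1 ∨ (0 : ℤ) = -1 := Or.inl rfl
  have c1 : (1 : ℤ) = 0 ∨ (1 : ℤ) = 1 ∨ (1 : ℤ) = -1 := Or.inr (Or.inl rfl)
  have c2 : (-1 : ℤ) = 0 ∨ (-1 : ℤ) = 1 ∨ (-1 : ℤ) = -1 := Or.inr (Or.inr rfl)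
  have back : ∀ v c hc c' hc', c' = -c → nb (nb v c hc) c' hc' = v := fun v c hc c' hc' h =>
    (hun _ _ _ v ⟨(hnb v c hc).1.symm, by rw [hF, (hnb v c hc).2, h]⟩).symm
  let n : Equiv.Perm V := ⟨fun v => nb v 1 c1, fun v => nb v (-1) c2,
    fun v => back _ _ _ _ _ rfl, fun v => back _ _ _ _ _ rfl⟩
  have hst : ∀ a v, H.Adj v (step n (fun v => nb v 0 c0) a v) ∧
      F v (step n (fun v => nb v 0 c0) a v) = ![1, -1, 0] a := fun a v => by
    fin_cases a <;> exact hnb v _ _
  refine ⟨n, fun v => nb v 0 c0, fun v => back _ _ _ _ _ rfl, fun a v => (hst a v).1,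
    fun u v h => existsUnique_of_exists_of_unique ?_ fun a b ha hb => ?_⟩
  · rcases hv u v with h2 | h2 | h2
    · exact ⟨2, (hun u 0 c0 v ⟨h, h2⟩).symm⟩
    · exact ⟨0, (hun u 1 c1 v ⟨h, h2⟩).symm⟩
    · exact ⟨1, (hun u (-1) c2 v ⟨h, h2⟩).symm⟩
  · have h2 := (hst a u).2
    rw [ha, ← hb, (hst b u).2] at h2
    revert h2
    fin_cases a <;> fin_cases b <;> simp

/-- The permutation model of a cyclically `k`-edge-connected cubic graph of girth at least `K`. -/
theorem model_of_graph (H : SimpleGraph V) [DecidableRel H.Adj] (hreg : H.IsRegularOfDegree 3)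
    {k K : ℕ} (hk : 2 ≤ k) (hK : (K : ℕ∞) ≤ H.egirth)
    (hc : ∀ X : Finset V, ¬(H.induce (X : Set V)).IsAcyclic →
      ¬(H.induce ((Xᶜ : Finset V) : Set V)).IsAcyclic → k ≤ (H.interedges X Xᶜ).card) :
    ∃ (n : Equiv.Perm V) (m : V → V), (∀ v, m (m v) = v) ∧ Inj n m K ∧
      (∀ a v, H.Adj v (step n m a v)) ∧ (∀ u v, H.Adj u v → ∃! a, step n m a u = v) ∧
      ∀ Y : Finset V, k ≤ hcut n m Y ∨ Y.card ≤ hcut n m Y ∨ Yᶜ.card ≤ hcut n m Y := by
  obtain ⟨n, m, hm, h1, h2⟩ := exists_model H hreg fun X h => by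
    rcases cut_cases H hreg hc X with h3 | h3 | h3 | h3 | h3
    · omega
    · simp [h3] at h
    · simp [h3, card_interedges] at h
    · omega
    · omega
  refine ⟨n, m, hm, inj_of_girth H hK n hm h1 fun a b v h => (h2 _ _ (h1 a v)).unique rfl h.symm,
    h1, h2, fun Y => ?_⟩
  rw [hcut_eq H n m h1 h2]
  rcases cut_cases H hreg hc Y with h3 | h3 | h3 | h3 | h3
  · exact Or.inl h3
  · simp [h3]
  · simp [h3]
  · omega
  · omega

end Pool.Agent.Lib.MP_c8786f_co.W5.Bridge
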