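import Pool.Agent.Lib.MP_c8786f_co.W5.Defs3

/-!
Cuts and boundaries inside a blob.
-/

namespace Pool.Agent.Lib.MP_c8786f_co.W5

open Finset

section

variable {V : Type} [Fintype V] [DecidableEq V]

/-- the number of points of `Y` that are moved by `f` to the rest of `B` -/
def cbN (B Y : Finset V) (f : V → V) : ℕ := ∑ v, if v ∈ Y ∧ f v ∈ B ∧ f v ∉ Y then 1 else 0

lemma cb_icut (n : Equiv.Perm V) (m : V → V) (B Y : Finset V) :
    icut n m B Y = cbN B Y n + cbN B Y n.symm + cbN B Y m := by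
  rw [icut, card_filter, Fintype.sum_prod_type_right, Fin.sum_univ_three]
  rfl

lemma cb_perm (f : Equiv.Perm V) {B Y : Finset V} (hY : Y ⊆ B) :
    (∑ v, if (v ∈ B ∧ f v ∈ B) ∧ ¬(v ∈ Y ↔ f v ∈ Y) then 1 else 0)
      = cbN B Y f + cbN B Y f.symm := by
  unfold cbN
  rw [← Equiv.sum_comp f fun v => if v ∈ Y ∧ f.symm v ∈ B ∧ f.symm v ∉ Y then 1 else 0,
    ← sum_add_distrib]
  refine sum_congr rfl fun v _ => ?_
  have h1 := @hY v
  have h2 := @hY (f v)
  simp only [Equiv.symm_apply_apply]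
  by_cases a : v ∈ Y <;> by_cases b : f v ∈ Y <;> simp_all

lemma cb_wcut (n : Equiv.Perm V) {m : V → V} (hm : ∀ v, m (m v) = v) (B : Finset V) (Y : Finset B)
    (a b : ℕ) : wcut (sB n m B) (tB n m B) (fun e => if e.1.2 then a else b) Y
      = b * (cbN B (Y.map (Function.Embedding.subtype _)) n
          + cbN B (Y.map (Function.Embedding.subtype _)) n.symm)
        + a * (2 * cbN B (Y.map (Function.Embedding.subtype _)) m) := by
  set Y' := Y.map (Function.Embedding.subtype _) with hY'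
  have hY : Y' ⊆ B := fun v hv => by
    obtain ⟨u, -, rfl⟩ := mem_map.1 hv
    exact u.2
  have hmem : ∀ u : B, u ∈ Y ↔ u.1 ∈ Y' := fun u => (mem_map' (Function.Embedding.subtype _)).symm
  have h1 := cb_perm n hY
  have h2 : (∑ v, if (v ∈ B ∧ m v ∈ B) ∧ ¬(v ∈ Y' ↔ m v ∈ Y') then 1 else 0)
      = cbN B Y' m + cbN B Y' m := cb_perm ⟨m, m, hm, hm⟩ hY
  rw [← two_mul] at h2
  rw [← h1, ← h2, wcut, sum_filter]
  simp only [hmem]
  have h3 := sum_subtype (F := inferInstance)
    (univ.filter fun e : V × Bool => e.1 ∈ B ∧ (if e.2 then m e.1 else n e.1) ∈ B)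
    (p := fun e : V × Bool => e.1 ∈ B ∧ (if e.2 then m e.1 else n e.1) ∈ B) (by simp)
    fun e => if ¬(e.1 ∈ Y' ↔ (if e.2 then m e.1 else n e.1) ∈ Y') then (if e.2 then a else b) else 0
  refine h3.symm.trans ?_
  rw [sum_filter, Fintype.sum_prod_type_right, Fintype.sum_bool, add_comm, mul_sum, mul_sum]
  congr 1 <;> refine sum_congr rfl fun v _ => ?_
  · by_cases c1 : v ∈ B ∧ n v ∈ B <;> by_cases c2 : (v ∈ Y' ↔ n v ∈ Y') <;> simp [c1, c2]
  · by_cases c1 : v ∈ B ∧ m v ∈ B <;> by_cases c2 : (v ∈ Y' ↔ m v ∈ Y') <;> simp [c1, c2]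

lemma cb_sum (n : Equiv.Perm V) (m : V → V) (B : Finset V) (z : EB n m B → ℝ)
    (P : V × Bool → Prop) [DecidablePred P] :
    (∑ e : EB n m B, if P e.1 then z e else 0) = ∑ e, if P e then zx n m B z e else 0 := by
  have h3 := sum_subtype (F := inferInstance)
    (univ.filter fun e : V × Bool => e.1 ∈ B ∧ (if e.2 then m e.1 else n e.1) ∈ B)
    (p := fun e : V × Bool => e.1 ∈ B ∧ (if e.2 then m e.1 else n e.1) ∈ B) (by simp)
    fun e => if P e then zx n m B z e else 0
  rw [sum_subset (filter_subset _ _) fun e _ he => by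
    rw [zx, dif_neg (by simpa using he), ite_self]] at h3
  rw [h3]
  exact sum_congr rfl fun e _ => by rw [zx, dif_pos e.2]

end

theorem cutB : CutBStmt := by
  intro V _ _ n m hm B
  refine ⟨fun Y => ?_, fun z v => ?_⟩
  · have h1 : cut (sB n m B) (tB n m B) Y
        = wcut (sB n m B) (tB n m B) (fun e => if e.1.2 then 1 else 1) Y := by
      simp [cut, wcut]
    rw [h1, cb_wcut n hm, cb_wcut n hm, cb_icut]
    omega
  · have h1 := cb_sum n m B z fun e => e.1 = v.1
    have h2 := cb_sum n m B z fun e => (if e.2 then m e.1 else n e.1) = v.1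
    have h3 : ∀ u, m u = v.1 ↔ u = m v.1 := fun u => ⟨fun h => by rw [← h, hm], fun h => by rw [h, hm]⟩
    rw [Fintype.sum_prod_type_right, Fintype.sum_bool] at h1 h2
    simp only [if_true, Bool.false_eq_true, if_false, h3, ← Equiv.eq_symm_apply n,
      sum_ite_eq', mem_univ] at h1 h2
    simp only [bd, sum_filter, sB, tB, Subtype.ext_iff]
    rw [h1, h2]
    ring

end Pool.Agent.Lib.MP_c8786f_co.W5
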