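import Mathlib

/-!
Weak five-flow theorem: definitions and the interface statements of the modules.
-/

namespace Pool.Agent.Lib.MP_c8786f_co.W5

open Finset
open scoped RealInnerProductSpace

set_option linter.unusedSectionVars false

/-- The balancing game.  The head of the list is the last move: after `Ψ` has been reached with
the tail, an adversary gives the sign and we choose the size in `[η, 1]`. -/
def Win {ι : Type} : List ((ι → ℝ) × ℝ) → ((ι → ℝ) → Prop) → Prop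
  | [], Φ => Φ 0
  | p :: L, Φ => ∃ Ψ : (ι → ℝ) → Prop, Win L Ψ ∧ ∀ z, Ψ z →
      (∃ a, p.2 ≤ a ∧ a ≤ 1 ∧ Φ (z + a • p.1)) ∧ (∃ a, p.2 ≤ a ∧ a ≤ 1 ∧ Φ (z - a • p.1))

/-- Module K. -/
def KomlosStmt : Prop :=
  ∀ (ι : Type) [Fintype ι] (L : List ((ι → ℝ) × ℝ)) (Φ : (ι → ℝ) → Prop),
    (∀ p ∈ L, 0 < p.2 ∧ p.2 ≤ 1 ∧ 3600 * ∑ i, p.1 i ^ 2 ≤ p.2 ^ 2) → Win L Φ →
    ∃ z, Φ z ∧ ∀ i, |z i| ≤ 3

section Graph

variable {V E T X : Type} [Fintype V] [DecidableEq V] [Fintype E] [DecidableEq E] [Fintype T]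
  [DecidableEq T] [Fintype X]

/-- net outflow -/
def bd (s t : E → V) (z : E → ℝ) (v : V) : ℝ :=
  ∑ e with s e = v, z e - ∑ e with t e = v, z e

/-- size of an edge cut -/
def cut (s t : E → V) (Y : Finset V) : ℕ :=
  (univ.filter fun e => ¬(s e ∈ Y ↔ t e ∈ Y)).card

/-- A graph of degree at most four with an isoperimetric inequality up to size `K`, windows `τ`
with probability vectors `β τ x` on disjoint sets `Λ τ`, and cells `own ⁻¹ τ`. -/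
structure Geo (s t : E → V) (β : T → X → V → ℝ) (Λ : T → Finset V) (own : V → T)
    (F : T → Finset E) (α l0 l1 : ℝ) (L1 K : ℕ) : Prop where
  deg : ∀ v, (univ.filter fun e => s e = v).card + (univ.filter fun e => t e = v).card ≤ 4
  iso1 : ∀ Y : Finset V, Y.card ≤ K → Y.card ≤ cut s t Y
  iso2 : ∀ Y : Finset V, K ≤ Y.card → K ≤ Yᶜ.card → K ≤ cut s t Y
  nonneg : ∀ τ x v, 0 ≤ β τ x v
  atom : ∀ τ x v, β τ x v ≤ α
  total : ∀ τ x, ∑ v, β τ x v = 1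
  supp : ∀ τ x v, v ∉ Λ τ → β τ x v = 0
  disj : ∀ τ τ', τ ≠ τ' → Disjoint (Λ τ) (Λ τ')
  cell : ∀ τ, (univ.filter fun v => own v = τ).card ≤ L1
  twice : ∀ e, (univ.filter fun τ => e ∈ F τ).card ≤ 2
  lip0 : ∀ τ (φ : V → ℝ) (r : ℝ), 0 ≤ r → (∀ e ∈ F τ, |φ (t e) - φ (s e)| ≤ r) →
    ∀ v ∈ Λ τ, ∀ v' ∈ Λ τ, |φ v - φ v'| ≤ l0 * r
  lip1 : ∀ v (φ : V → ℝ) (r : ℝ), 0 ≤ r → (∀ e ∈ F (own v), |φ (t e) - φ (s e)| ≤ r) →
    ∀ v' ∈ Λ (own v), |φ v - φ v'| ≤ l1 * r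

/-- the mean vector of a window -/
def mu (β : T → X → V → ℝ) (m0 : X → ℝ) (τ : T) (v : V) : ℝ := ∑ x, m0 x * β τ x v

/-- `u` solves the linear system of the state `(cl, rd)` with right side `(y, r)` -/
def Sol (s t : E → V) (β : T → X → V → ℝ) (m0 : X → ℝ) (ε w : ℝ) (cl : T → T) (rd : Finset T)
    (u : E ⊕ T → ℝ) (y : V → ℝ) (r : T → ℝ) : Prop :=
  (∀ v, ε * bd s t (fun e => u (.inl e)) v - w * ∑ τ ∈ rd, u (.inr τ) * mu β m0 τ v = y v) ∧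
  (∀ τ, τ ∉ rd → u (.inr τ) = 0) ∧ ∀ A, w * ∑ τ with cl τ = A, u (.inr τ) = r A

lemma cut_compl (s t : E → V) (Y : Finset V) : cut s t Yᶜ = cut s t Y := by
  unfold cut
  congr 1
  ext e
  simp only [mem_filter, mem_univ, true_and, mem_compl]
  tauto

lemma Geo.mono {s t : E → V} {β : T → X → V → ℝ} {Λ : T → Finset V} {own : V → T}
    {F : T → Finset E} {α l0 l1 : ℝ} {L1 K K' : ℕ} (h : Geo s t β Λ own F α l0 l1 L1 K')
    (hK : K ≤ K') : Geo s t β Λ own F α l0 l1 L1 K :=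
  { h with
    iso1 := fun Y hY => h.iso1 Y (hY.trans hK)
    iso2 := fun Y h1 h2 => by
      by_cases h3 : Y.card ≤ K'
      · exact h1.trans (h.iso1 Y h3)
      by_cases h4 : Yᶜ.card ≤ K'
      · exact h2.trans ((h.iso1 _ h4).trans (cut_compl s t Y).le)
      exact hK.trans (h.iso2 Y (by omega) (by omega)) }

end Graph

/-- Module GL. -/
def GLStmt : Prop :=
  ∀ c CE : ℝ, 0 < c → c ≤ 1 → 1 ≤ CE → ∃ A : ℝ, 0 < A ∧ ∀ (P α l1 : ℝ) (L1 : ℕ), 1 ≤ P → 0 ≤ l1 →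
    α * A * P ^ 7 ≤ 1 → ∃ K : ℕ,
    ∀ (V E T X H : Type) [Fintype V] [DecidableEq V] [Fintype E] [DecidableEq E] [Fintype T]
      [DecidableEq T] [Fintype X] [NormedAddCommGroup H] [InnerProductSpace ℝ H]
      [FiniteDimensional ℝ H]
      (s t : E → V) (β : T → X → V → ℝ) (Λ : T → Finset V) (own : V → T) (F : T → Finset E),
      Geo s t β Λ own F α P l1 L1 K → (Fintype.card X : ℝ) + 1 ≤ P →
      ∀ m0 : X → ℝ, (∀ x, 0 ≤ m0 x) → ∑ x, m0 x = 1 →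
      ∀ (cl : T → T) (rd : Finset T), (∀ τ, τ ∉ rd → ∀ τ', cl τ' = cl τ → τ' = τ) →
      (2 ≤ (univ.image cl).card ∨ ∃ τ, τ ∉ rd) →
      ∀ (f : V → H) (a : T → H) (iw : ℝ),
      (∀ b : H, ∑ e, ⟪b, f (t e) - f (s e)⟫ ^ 2 ≤ CE * ‖b‖ ^ 2) →
      ∑ e, ‖f (t e) - f (s e)‖ ^ 2 ≤ CE * (P * (univ.image cl).card) →
      ∑ τ ∈ rd, ‖a (cl τ) - ∑ v, mu β m0 τ v • f v‖ ^ 2 ≤ P * (univ.image cl).card →
      (∀ τ ∈ rd, ‖a (cl τ) - ∑ v, mu β m0 τ v • f v‖ ≤ iw) →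
      (∃ τ, τ ∉ rd ∧ ∀ x x', ‖∑ v, β τ x v • f v - ∑ v, β τ x' v • f v‖ ≤ c) ∨
      (∃ τ ∈ rd, ∃ τ' ∈ rd, cl τ ≠ cl τ' ∧ ‖a (cl τ) - a (cl τ')‖ ≤ 2 * iw + 2 * c)

/-- Module GS. -/
def GSStmt : Prop :=
  ∀ ε w c : ℝ, 0 < ε → ε ≤ 1 → 1 ≤ w → 0 < c → c ≤ 1 → ∃ A : ℝ, 0 < A ∧
    ∀ (P α l1 : ℝ) (L1 : ℕ), 1 ≤ P → 0 ≤ l1 → α * A * P ^ 7 ≤ 1 → ∃ K : ℕ,
    ∀ (V E T X : Type) [Fintype V] [DecidableEq V] [Fintype E] [DecidableEq E] [Fintype T]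
      [DecidableEq T] [Fintype X]
      (s t : E → V) (β : T → X → V → ℝ) (Λ : T → Finset V) (own : V → T) (F : T → Finset E),
      Geo s t β Λ own F α P l1 L1 K → (Fintype.card X : ℝ) + 1 ≤ P →
      ∀ m0 : X → ℝ, (∀ x, 0 ≤ m0 x) → ∑ x, m0 x = 1 →
      ∀ (cl : T → T) (rd : Finset T), (∀ τ, τ ∉ rd → ∀ τ', cl τ' = cl τ → τ' = τ) →
      (2 ≤ (univ.image cl).card ∨ ∃ τ, τ ∉ rd) →
      (∃ τ, τ ∉ rd ∧ ∀ x x', ∃ u, Sol s t β m0 ε w cl rd u (fun v => β τ x v - β τ x' v) 0 ∧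
        ∑ i, u i ^ 2 ≤ c ^ 2) ∨
      (∃ τ ∈ rd, ∃ τ' ∈ rd, cl τ ≠ cl τ' ∧ ∃ u, Sol s t β m0 ε w cl rd u 0
        (fun A => (if A = cl τ then 1 else 0) - if A = cl τ' then 1 else 0) ∧
        ∑ i, u i ^ 2 ≤ (2 / w + 2 * c) ^ 2)

/-- Module GT: the abstract balancing theorem. -/
def ABStmt : Prop :=
  ∀ (ε ε2 : ℝ) (M : ℕ), 0 < ε → ε ≤ 1 → 0 < ε2 → 0 < M → ∃ A : ℝ, 0 < A ∧
    ∀ (P α l1 : ℝ) (L1 : ℕ), 1 ≤ P → 0 ≤ l1 → α * A * P ^ 7 ≤ 1 → ∃ K : ℕ,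
    ∀ (V E T X : Type) [Fintype V] [DecidableEq V] [Fintype E] [DecidableEq E] [Fintype T]
      [DecidableEq T] [Fintype X]
      (s t : E → V) (β : T → X → V → ℝ) (Λ : T → Finset V) (own : V → T) (F : T → Finset E),
      Geo s t β Λ own F α P l1 L1 K → (Fintype.card X : ℝ) + 1 ≤ P →
      ∀ m0 : X → ℝ, (∀ x, 0 ≤ m0 x) → ∑ x, m0 x = 1 →
      ∀ (p : T → ℤ) (kap : T → ℤ → Fin M → X → ℝ), Even (∑ τ, p τ) →
      (∀ τ Q i, |Q| ≤ 6480 → Even (Q - p τ) →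
        ∑ x, kap τ Q i x = Q ∧ ∑ x, |kap τ Q i x| ≤ 6480) →
      ∃ (z : E → ℝ) (Q : T → ℤ) (i : T → Fin M) (ρ : T → X → ℝ), (∀ e, |z e| ≤ 3 * ε) ∧
        (∀ τ, |Q τ| ≤ 6480 ∧ Even (Q τ - p τ) ∧ ∑ x, ρ τ x = 0 ∧ ∑ x, |ρ τ x| ≤ ε2) ∧
        ∀ v, bd s t z v = ∑ τ, ∑ x, (Q τ * m0 x - (∑ j, kap τ (Q τ) j x) / M +
          kap τ (Q τ) (i τ) x + ρ τ x) * β τ x v

section Model

variable {V : Type}

/-- letters: `0` is the next vertex on the circuit, `1` the previous one, `2` the mate -/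
def inv : Fin 3 → Fin 3 := ![1, 0, 2]

def step (n : Equiv.Perm V) (m : V → V) : Fin 3 → V → V := ![n, n.symm, m]

/-- the head of the word is the last letter applied -/
def act (n : Equiv.Perm V) (m : V → V) : List (Fin 3) → V → V
  | [], v => v
  | a :: w, v => step n m a (act n m w v)

/-- reduced words -/
def Red (w : List (Fin 3)) : Prop := w.IsChain fun a b => a ≠ inv b

/-- short reduced words are determined by their end points -/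
def Inj (n : Equiv.Perm V) (m : V → V) (K : ℕ) : Prop :=
  ∀ v w w', Red w → Red w' → w.length + w'.length < K → act n m w v = act n m w' v → w = w'

/-- the number of edges leaving `Y` -/
def hcut [Fintype V] [DecidableEq V] (n : Equiv.Perm V) (m : V → V) (Y : Finset V) : ℕ :=
  (univ.filter fun q : V × Fin 3 => q.1 ∈ Y ∧ step n m q.2 q.1 ∉ Y).card

/-- window starts `S`; every vertex is `back v` steps after the start `own v` of its segment -/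
structure Seg (n : Equiv.Perm V) (m : V → V) (S : Finset V) (own : V → V) (back : V → ℕ)
    (D R L : ℕ) : Prop where
  mem : ∀ v, own v ∈ S
  eq : ∀ v, (n ^ back v) (own v) = v
  lt : ∀ v, back v < L
  zero : ∀ s ∈ S, back s = 0
  succ : ∀ v, n v ∉ S → own (n v) = own v ∧ back (n v) = back v + 1
  sep : ∀ s ∈ S, ∀ s' ∈ S, ∀ j ≤ D, ∀ j' ≤ D, ∀ w w' : List (Fin 3), w.length ≤ R →
    w'.length ≤ R → act n m w ((n ^ j) s) = act n m w' ((n ^ j') s') → s = s'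

/-- the matching tree at `x` has the colour opposite to `y` down to depth `j0` -/
def Good (n : Equiv.Perm V) (m : V → V) (χ : V → ℝ) (j0 : ℕ) (x : V) (y : ℝ) : Prop :=
  ∀ w : List (Fin 3), Red w → w.head? = some 2 → w.getLast? = some 2 → w.length < 2 * j0 →
    χ (act n m w x) = -y

/-- reduced words that leave through the mate -/
def Em (w : List (Fin 3)) : Prop := Red w ∧ (w = [] ∨ w.getLast? = some 2)

/-- the trees hanging at the roots `A` are disjoint down to depth `R` -/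
def TreeInj (n : Equiv.Perm V) (m : V → V) (A : Finset V) (R : ℕ) : Prop :=
  ∀ u ∈ A, ∀ u' ∈ A, ∀ w w', Em w → Em w' → w.length ≤ R → w'.length ≤ R →
    act n m w u = act n m w' u' → u = u' ∧ w = w'

@[simp] lemma step_zero (n : Equiv.Perm V) (m : V → V) (v : V) : step n m 0 v = n v := rfl
@[simp] lemma step_one (n : Equiv.Perm V) (m : V → V) (v : V) : step n m 1 v = n.symm v := rfl
@[simp] lemma step_two (n : Equiv.Perm V) (m : V → V) (v : V) : step n m 2 v = m v := rfl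
@[simp] lemma inv_zero' : inv 0 = 1 := rfl
@[simp] lemma inv_one' : inv 1 = 0 := rfl
@[simp] lemma inv_two' : inv 2 = 2 := rfl
@[simp] lemma act_nil (n : Equiv.Perm V) (m : V → V) (v : V) : act n m [] v = v := rfl
@[simp] lemma act_cons (n : Equiv.Perm V) (m : V → V) (a : Fin 3) (w : List (Fin 3)) (v : V) :
    act n m (a :: w) v = step n m a (act n m w v) := rfl

lemma act_append (n : Equiv.Perm V) (m : V → V) (w w' : List (Fin 3)) (v : V) :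
    act n m (w ++ w') v = act n m w (act n m w' v) := by
  induction w with
  | nil => rfl
  | cons a w ih => simp [ih]

lemma act_replicate (n : Equiv.Perm V) (m : V → V) (k : ℕ) (v : V) :
    act n m (List.replicate k 0) v = (n ^ k) v := by
  induction k with
  | zero => rfl
  | succ k ih => simp [List.replicate_succ, ih, pow_succ']

lemma step_inv (n : Equiv.Perm V) {m : V → V} (hm : ∀ v, m (m v) = v) (a : Fin 3) (v : V) :
    step n m (inv a) (step n m a v) = v := by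
  fin_cases a <;> simp [hm]

lemma Inj.mono {n : Equiv.Perm V} {m : V → V} {K K' : ℕ} (h : Inj n m K') (hK : K ≤ K') :
    Inj n m K := fun v w w' h1 h2 h3 => h v w w' h1 h2 (h3.trans_le hK)

end Model

/-- Module Windows. -/
def WindowsStmt : Prop :=
  ∀ (D R : ℕ) (V : Type) [Fintype V] [DecidableEq V] (n : Equiv.Perm V) (m : V → V),
    (∀ v, m (m v) = v) → Inj n m (48 * (D + 1) ^ 2 * 16 ^ R) →
    ∃ S own back, Seg n m S own back D R (48 * (D + 1) ^ 2 * 16 ^ R)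

/-- Module Phases. -/
def PhasesStmt : Prop :=
  ∀ j0 : ℕ, 1 ≤ j0 → ∃ ρ c : ℝ, 0 < ρ ∧ ρ < 1 ∧ 0 < c ∧ ∀ T D R L : ℕ, 2 * j0 ≤ R →
    L * ρ ^ T ≤ c →
    ∀ (V : Type) [Fintype V] [DecidableEq V] (n : Equiv.Perm V) (m : V → V),
    (∀ v, m (m v) = v) → Inj n m (L + 2 * D + 4 * j0 + 1) →
    ∀ S own back, Seg n m S own back D R L →
    ∃ χ : V → ℝ, (∀ v, χ v = 1 ∨ χ v = -1) ∧ (∀ v, n v ∉ S → χ (n v) = -χ v) ∧
      ∀ s ∈ S, ∀ σ : ℕ, (σ + 1) * (2 * T + 2) ≤ D → ∀ y : ℝ, y = 1 ∨ y = -1 → ∀ π < 2,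
        ∃ j, σ * (2 * T + 2) ≤ j ∧ j + 2 ≤ σ * (2 * T + 2) + 2 * T + 1 ∧ j % 2 = π ∧
          Good n m χ j0 ((n ^ j) s) y ∧ Good n m χ j0 ((n ^ (j + 1)) s) y

/-- Module Emit. -/
def EmitStmt : Prop :=
  ∀ (j0 R : ℕ) (V : Type) [Fintype V] [DecidableEq V] (n : Equiv.Perm V) (m : V → V)
    (A : Finset V), 1 ≤ R → (∀ v, m (m v) = v) → TreeInj n m A R →
    ∃ β : V → V → ℝ, (∀ u v, 0 ≤ β u v) ∧ (∀ u, ∑ v, β u v = 1) ∧
      (∀ u v, β u v ≠ 0 → ∃ w : List (Fin 3), w.length = R ∧ act n m w u = v) ∧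
      (∀ u ∈ A, ∀ v, β u v ≤ (3 / 4) ^ (R - 1)) ∧
      ∀ (b k e : V → ℝ) (δ : ℝ), (∀ v, b v = 1 ∨ b v = -1) → (∀ u, u ∉ A → k u = 0 ∧ e u = 0) →
        (∀ u, |e u| ≤ δ) →
        (∀ u, k u = 0 ∨ ∃ y, (y = 1 ∨ y = -1) ∧ k u = y / 2 ∧ Good n m b j0 u y) →
        ∃ gC gM : V → ℝ, (∀ v, gM (m v) = -gM v) ∧ (∀ v, |gM v| ≤ 1 / 2 + δ) ∧
          (∀ v, |(b v - b (n v)) / 4 + gC v| ≤ 1 / 2 + 2 * δ + 2 * (3 / 4) ^ (2 * j0)) ∧
          ∀ v, gC v - gC (n.symm v) + gM v = k v + e v - ∑ u, (k u + e u) * β u v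

/-- Module GeoInst: edges are `V × Bool`, matching edges are doubled. -/
def GeoInstStmt : Prop :=
  ∀ (D R L K : ℕ) (α : ℝ) (V : Type) [Fintype V] [DecidableEq V] (n : Equiv.Perm V) (m : V → V),
    (∀ v, m (m v) = v) →
    (∀ Y : Finset V, Y.card ≤ K → Y.card ≤ hcut n m Y) →
    (∀ Y : Finset V, K ≤ Y.card → K ≤ Yᶜ.card → K ≤ hcut n m Y) →
    ∀ (S : Finset V) (own : V → V) (back : V → ℕ) (h : Seg n m S own back D R L)
      (β : V → V → ℝ), (∀ u v, 0 ≤ β u v) → (∀ u, ∑ v, β u v = 1) →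
      (∀ u v, β u v ≠ 0 → ∃ w : List (Fin 3), w.length = R ∧ act n m w u = v) →
      (∀ s ∈ S, ∀ x < D, ∀ v, β ((n ^ x) s) v ≤ α) →
      ∃ (Λ : S → Finset V) (F : S → Finset (V × Bool)),
        Geo (fun e : V × Bool => e.1) (fun e => if e.2 then m e.1 else n e.1)
          (fun (s : S) (x : Fin D) => β ((n ^ x.1) s.1)) Λ (fun v => ⟨own v, h.mem v⟩) F α
          (2 * (D + R) + 1) (L + D + R) L K

/-- The theorem in the model. -/
def ModelStmt : Prop :=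
  ∀ δ : ℝ, 0 < δ → ∃ K : ℕ,
    ∀ (V : Type) [Fintype V] [DecidableEq V] (n : Equiv.Perm V) (m : V → V),
    (∀ v, m (m v) = v) → Inj n m K →
    (∀ Y : Finset V, Y.card ≤ K → Y.card ≤ hcut n m Y) →
    (∀ Y : Finset V, K ≤ Y.card → K ≤ Yᶜ.card → K ≤ hcut n m Y) →
    ∃ b gC gM : V → ℝ, (∀ v, b v = 1 ∨ b v = -1) ∧ (∀ v, gM (m v) = -gM v) ∧
      (∀ v, |gC v| ≤ 1 / 2 + δ ∧ |gM v| ≤ 1 / 2 + δ) ∧
      ∀ v, gC v - gC (n.symm v) + gM v = b v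

/-- The final theorem. -/
def FinalStmt : Prop :=
  ∀ q : ℕ, 1 ≤ q → ∃ K : ℕ,
    ∀ (V E : Type) [Fintype V] [Fintype E] [DecidableEq V] (s t : E → V) (cyc : Finset V → Prop),
    (∀ v, (univ.filter fun e => s e = v).card + (univ.filter fun e => t e = v).card = 3) →
    (∀ Y, cyc Y ↔ ∃ C : Finset E, C.Nonempty ∧ (∀ e ∈ C, s e ∈ Y ∧ t e ∈ Y) ∧
      ∀ v, Even ((C.filter fun e => s e = v).card + (C.filter fun e => t e = v).card)) →
    (∃ Y, cyc Y ∧ cyc Yᶜ) →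
    (∀ Y, cyc Y → cyc Yᶜ → K ≤ (univ.filter fun e => ¬(s e ∈ Y ↔ t e ∈ Y)).card) →
    ∃ f : E → ℤ, (∀ e, (q : ℤ) ≤ |f e| ∧ |f e| ≤ 3 * q + 1) ∧
      ∀ v, ∑ e ∈ univ.filter (fun e => s e = v), f e = ∑ e ∈ univ.filter (fun e => t e = v), f e

end Pool.Agent.Lib.MP_c8786f_co.W5
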