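import Pool.Agent.Lib.MP_c8786f_co.W5.DefsGL

/-!
Five-flows at fixed cyclic connectivity and large girth: the interface statements.
-/

namespace Pool.Agent.Lib.MP_c8786f_co.W5

open Finset
open scoped RealInnerProductSpace

section Graph

variable {V E T X : Type} [Fintype V] [DecidableEq V] [Fintype E] [DecidableEq E] [Fintype T]
  [DecidableEq T] [Fintype X]

/-- small sets expand and the graph is connected -/
def Iso (s t : E → V) (K : ℕ) : Prop :=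
  (∀ Y : Finset V, Y.card ≤ K → Y.card ≤ cut s t Y) ∧
    ∀ Y : Finset V, cut s t Y = 0 → Y = ∅ ∨ Y = univ

/-- weighted size of an edge cut -/
def wcut (s t : E → V) (wt : E → ℕ) (Y : Finset V) : ℕ :=
  ∑ e with ¬(s e ∈ Y ↔ t e ∈ Y), wt e

/-- a window can be made ready, or two ready clusters can be merged -/
def Move (s t : E → V) (β : T → X → V → ℝ) (m0 : X → ℝ) (ε w c : ℝ) (cl : T → T)
    (rd : Finset T) : Prop :=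
  (∃ τ, τ ∉ rd ∧ ∀ x x', ∃ u, Sol s t β m0 ε w cl rd u (fun v => β τ x v - β τ x' v) 0 ∧
    ∑ i, u i ^ 2 ≤ c ^ 2) ∨
  (∃ τ ∈ rd, ∃ τ' ∈ rd, cl τ ≠ cl τ' ∧ ∃ u, Sol s t β m0 ε w cl rd u 0
    (fun A => (if A = cl τ then 1 else 0) - if A = cl τ' then 1 else 0) ∧
    ∑ i, u i ^ 2 ≤ (2 / w + 2 * c) ^ 2)

/-- flows from `Z` repair the parities of any family of clusters with at least `J` windows -/
def Fix (s t : E → V) (β : T → X → V → ℝ) (m0 : X → ℝ) (Z : Set (E → ℝ)) (J : ℕ) : Prop :=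
  ∀ (cl : T → T) (B : Finset T), (∀ τ ∈ B, J ≤ (B.filter fun τ' => cl τ' = cl τ).card) →
    ∀ r : T → ℝ, (∃ n : ℤ, ∑ A ∈ B.image cl, r A = 2 * n) →
    ∃ z ∈ Z, ∃ y : T → ℝ, (∀ τ, |y τ| ≤ 1) ∧ (∀ τ, τ ∉ B → y τ = 0) ∧
      (∀ v, bd s t z v = ∑ τ, y τ * mu β m0 τ v) ∧
      ∀ A ∈ B.image cl, ∃ n : ℤ, ∑ τ ∈ B with cl τ = A, y τ - r A = 2 * n

end Graph

/-- few well separated heavy centres, without large cuts -/
def Heavy2Stmt : Prop :=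
  ∀ (V E H : Type) [Fintype V] [DecidableEq V] [Fintype E] [NormedAddCommGroup H]
    (s t : E → V) (K κ : ℕ) (τ En : ℝ) (f : V → H) (N C : Finset V),
    (∀ v, (univ.filter fun e => s e = v).card + (univ.filter fun e => t e = v).card ≤ 4) →
    (∀ Y : Finset V, Y.card ≤ K → Y.card ≤ cut s t Y) →
    0 < τ → 1 ≤ κ → 1 ≤ K → ∑ e, ‖f (t e) - f (s e)‖ ^ 2 ≤ En →
    (∀ y ∈ C, κ ≤ (univ.filter fun v => ‖f v - f y‖ ≤ τ).card) →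
    (∀ y ∈ C, ∀ y' ∈ C, y ≠ y' → 4 * τ < ‖f y - f y'‖) →
    (∀ y ∈ C, ∀ v, ‖f v - f y‖ < 2 * τ → v ∈ N) →
    (C.card : ℝ) ≤ N.card / K + 16 * En / (κ * τ ^ 2)

/-- Cheeger inequality on a sparse set -/
def CheegerStmt : Prop :=
  ∀ (V E : Type) [Fintype V] [DecidableEq V] [Fintype E] (s t : E → V) (A : ℝ) (N : Finset V)
    (g : V → ℝ),
    (∀ v, (univ.filter fun e => s e = v).card + (univ.filter fun e => t e = v).card ≤ 4) →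
    0 ≤ A → (∀ Y ⊆ N, (Y.card : ℝ) ≤ A * cut s t Y) → (∀ v, 0 ≤ g v) → (∀ v, v ∉ N → g v = 0) →
    ∑ v, g v ^ 2 ≤ 8 * A ^ 2 * ∑ e, (g (t e) - g (s e)) ^ 2

/-- Module GL2: the local geometric lemma. -/
def GL2Stmt : Prop :=
  ∀ c CE : ℝ, 0 < c → c ≤ 1 → 1 ≤ CE → ∃ A : ℝ, 0 < A ∧ ∀ P α M2 : ℝ, 1 ≤ P → 0 ≤ M2 →
    α * A * P ^ 7 ≤ 1 → ∃ K : ℕ,
    ∀ (V E T X H : Type) [Fintype V] [DecidableEq V] [Fintype E] [DecidableEq E] [Fintype T]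
      [DecidableEq T] [Fintype X] [NormedAddCommGroup H] [InnerProductSpace ℝ H]
      [FiniteDimensional ℝ H]
      (s t : E → V) (β : T → X → V → ℝ) (Λ : T → Finset V) (own : V → T) (F : T → Finset E)
      (l1 : ℝ) (L1 : ℕ), Geo s t β Λ own F α P l1 L1 0 →
      (∀ Y : Finset V, Y.card ≤ K → Y.card ≤ cut s t Y) → (Fintype.card X : ℝ) + 1 ≤ P →
      ∀ (Y : Finset V) (R : Finset T), R.Nonempty → (∀ τ ∈ R, Λ τ ⊆ Y) → cut s t Y ≤ R.card →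
      ∀ f : V → H, (∀ b : H, ∑ e, ⟪b, f (t e) - f (s e)⟫ ^ 2 ≤ CE * ‖b‖ ^ 2) →
      ∑ e, ‖f (t e) - f (s e)‖ ^ 2 ≤ CE * (P * R.card) →
      ((Y.filter fun v => c / 16 < ‖f v‖).card : ℝ) ≤ M2 * R.card →
      (∃ τ ∈ R, ∀ x, ‖∑ v, β τ x v • f v‖ ≤ c) ∨
      (∃ τ ∈ R, ∃ τ' ∈ R, τ ≠ τ' ∧ ∃ y : H, ∀ x,
        ‖∑ v, β τ x v • f v - y‖ ≤ c ∧ ‖∑ v, β τ' x v • f v - y‖ ≤ c)

/-- Module Proj: the embedding attached to a state and a family `R` of windows. -/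
def ProjStmt : Prop :=
  ∀ (ε w : ℝ), 0 < ε → 0 < w →
    ∀ (V E T X : Type) [Fintype V] [DecidableEq V] [Fintype E] [DecidableEq E] [Fintype T]
      [DecidableEq T] [Fintype X] (s t : E → V) (β : T → X → V → ℝ) (m0 : X → ℝ),
      (∀ Y : Finset V, cut s t Y = 0 → Y = ∅ ∨ Y = univ) → (∀ τ x, ∑ v, β τ x v = 1) →
      ∑ x, m0 x = 1 → ∀ (cl : T → T) (rd R : Finset T),
      ∃ (f : V → EuclideanSpace ℝ (E ⊕ T)) (a : T → EuclideanSpace ℝ (E ⊕ T)),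
        (∀ b, ∑ e, ⟪b, f (t e) - f (s e)⟫ ^ 2 ≤ ‖b‖ ^ 2 / ε ^ 2) ∧
        ∑ e, ‖f (t e) - f (s e)‖ ^ 2 ≤ (Fintype.card X + 1) * R.card / ε ^ 2 ∧
        ∑ τ ∈ rd, ‖a (cl τ) - ∑ v, mu β m0 τ v • f v‖ ^ 2 ≤ (Fintype.card X + 1) * R.card / w ^ 2 ∧
        (∀ τ ∈ rd, ‖a (cl τ) - ∑ v, mu β m0 τ v • f v‖ ≤ 1 / w) ∧
        (∀ τ ∈ R, τ ∉ rd → ∀ x x', Sol s t β m0 ε w cl rd
          (fun i => (∑ v, β τ x v • f v - ∑ v, β τ x' v • f v) i)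
          (fun v => β τ x v - β τ x' v) 0) ∧
        ∀ τ ∈ R, τ ∈ rd → ∀ τ' ∈ R, τ' ∈ rd → Sol s t β m0 ε w cl rd
          (fun i => (a (cl τ) - a (cl τ')) i) 0
          (fun A => (if A = cl τ then 1 else 0) - if A = cl τ' then 1 else 0)

/-- Module Sparse: in a stuck state the cells of the small clusters are sparse. -/
def SparseStmt : Prop :=
  ∀ ε w c : ℝ, 0 < ε → ε ≤ 1 → 1 ≤ w → 0 < c → c ≤ 1 → ∃ A : ℝ, 0 < A ∧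
    ∀ (P α l1 : ℝ) (L1 J : ℕ), 1 ≤ P → 1 ≤ J → α * A * P ^ 7 ≤ 1 → ∃ K : ℕ,
    ∀ (V E T X : Type) [Fintype V] [DecidableEq V] [Fintype E] [DecidableEq E] [Fintype T]
      [DecidableEq T] [Fintype X]
      (s t : E → V) (β : T → X → V → ℝ) (Λ : T → Finset V) (own : V → T) (F : T → Finset E),
      Geo s t β Λ own F α P l1 L1 0 → Iso s t K → (Fintype.card X : ℝ) + 1 ≤ P →
      ∀ m0 : X → ℝ, (∀ x, 0 ≤ m0 x) → ∑ x, m0 x = 1 →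
      ∀ (cl : T → T) (rd B : Finset T),
      (∀ τ, τ ∉ B → (univ.filter fun τ' => cl τ' = cl τ).card ≤ J) →
      Move s t β m0 ε w c cl rd ∨
        ∀ Y : Finset V, (∀ v ∈ Y, own v ∉ B) → Y.card ≤ 4 * L1 * J * cut s t Y

/-- Module StageC: with one big cluster whose complement is sparse a move is always available. -/
def StageCStmt : Prop :=
  ∀ ε w c : ℝ, 0 < ε → ε ≤ 1 → 1 ≤ w → 0 < c → c ≤ 1 → ∃ A : ℝ, 0 < A ∧
    ∀ (P α l1 : ℝ) (L1 A' : ℕ), 1 ≤ P → 0 ≤ l1 → α * A * P ^ 7 ≤ 1 → ∃ K : ℕ,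
    ∀ (V E T X : Type) [Fintype V] [DecidableEq V] [Fintype E] [DecidableEq E] [Fintype T]
      [DecidableEq T] [Fintype X]
      (s t : E → V) (β : T → X → V → ℝ) (Λ : T → Finset V) (own : V → T) (F : T → Finset E),
      Geo s t β Λ own F α P l1 L1 0 → Iso s t K → (Fintype.card X : ℝ) + 1 ≤ P →
      ∀ m0 : X → ℝ, (∀ x, 0 ≤ m0 x) → ∑ x, m0 x = 1 →
      ∀ (cl : T → T) (rd B : Finset T), (∀ τ, τ ∉ rd → ∀ τ', cl τ' = cl τ → τ' = τ) →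
      B ⊆ rd → (∀ τ ∈ B, ∀ τ' ∈ B, cl τ = cl τ') →
      (∀ Y : Finset V, (∀ v ∈ Y, own v ∉ B) → Y.card ≤ A' * cut s t Y) →
      (2 ≤ (univ.image cl).card ∨ ∃ τ, τ ∉ rd) → Move s t β m0 ε w c cl rd

/-- Module GT2: the abstract balancing theorem with a parity repair from `Z`. -/
def AB2Stmt : Prop :=
  ∀ (ε ε2 : ℝ) (M : ℕ), 0 < ε → ε ≤ 1 → 0 < ε2 → 0 < M → ∃ A : ℝ, 0 < A ∧
    ∀ (P α l1 : ℝ) (L1 J : ℕ), 1 ≤ P → 0 ≤ l1 → α * A * P ^ 7 ≤ 1 → ∃ K : ℕ,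
    ∀ (V E T X : Type) [Fintype V] [DecidableEq V] [Fintype E] [DecidableEq E] [Fintype T]
      [DecidableEq T] [Fintype X]
      (s t : E → V) (β : T → X → V → ℝ) (Λ : T → Finset V) (own : V → T) (F : T → Finset E),
      Geo s t β Λ own F α P l1 L1 0 → Iso s t K → (Fintype.card X : ℝ) + 1 ≤ P →
      ∀ m0 : X → ℝ, (∀ x, 0 ≤ m0 x) → ∑ x, m0 x = 1 →
      ∀ Z : Set (E → ℝ), Fix s t β m0 Z J →
      ∀ (p : T → ℤ) (kap : T → ℤ → Fin M → X → ℝ), Even (∑ τ, p τ) →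
      (∀ τ Q i, |Q| ≤ 6480 → Even (Q - p τ) →
        ∑ x, kap τ Q i x = Q ∧ ∑ x, |kap τ Q i x| ≤ 6480) →
      ∃ z0 ∈ Z, ∃ (z : E → ℝ) (Q : T → ℤ) (i : T → Fin M) (ρ : T → X → ℝ),
        (∀ e, |z e| ≤ 6 * ε) ∧
        (∀ τ, |Q τ| ≤ 6480 ∧ Even (Q τ - p τ) ∧ ∑ x, ρ τ x = 0 ∧ ∑ x, |ρ τ x| ≤ ε2) ∧
        ∀ v, bd s t (z0 + z) v = ∑ τ, ∑ x, (Q τ * m0 x - (∑ j, kap τ (Q τ) j x) / M +
          kap τ (Q τ) (i τ) x + ρ τ x) * β τ x v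

/-- Module Fix: parity repair by the covering theorem with Steiner vertices. -/
def FixStmt : Prop :=
  ∀ (V E T X : Type) [Fintype V] [DecidableEq V] [Fintype E] [DecidableEq E] [Fintype T]
    [DecidableEq T] [Fintype X]
    (s t : E → V) (β : T → X → V → ℝ) (Λ : T → Finset V) (own : V → T) (F : T → Finset E)
    (α l0 l1 : ℝ) (L1 K k n : ℕ) (wt : E → ℕ), Geo s t β Λ own F α l0 l1 L1 0 → 1 ≤ k → 1 ≤ n →
    (∀ Y : Finset V, Y.card ≤ K → 2 * Y.card ≤ wcut s t wt Y) →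
    (∀ Y : Finset V, K ≤ Y.card → K ≤ Yᶜ.card → 2 * k ≤ wcut s t wt Y) →
    ∀ m0 : X → ℝ, (∀ x, 0 ≤ m0 x) → ∑ x, m0 x = 1 →
    Fix s t β m0 {z | ∀ e, |z e| ≤ wt e / k + 2 / (n * k)} ((2 * n + 1) * k)

/-- The theorem in the model. -/
def Model2Stmt : Prop :=
  ∀ (k : ℕ) (δ : ℝ), 1 ≤ k → 0 < δ → ∃ K : ℕ,
    ∀ (V : Type) [Fintype V] [DecidableEq V] (n : Equiv.Perm V) (m : V → V),
    (∀ v, m (m v) = v) → Inj n m K →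
    (∀ Y : Finset V, Y.card ≤ K → Y.card ≤ hcut n m Y) →
    (∀ Y : Finset V, K ≤ Y.card → K ≤ Yᶜ.card → k ≤ hcut n m Y) →
    ∃ b gC gM : V → ℝ, (∀ v, b v = 1 ∨ b v = -1) ∧ (∀ v, gM (m v) = -gM v) ∧
      (∀ v, |gC v| ≤ 1 / 2 + 2 / k + δ ∧ |gM v| ≤ 1 / 2 + 2 / k + δ) ∧
      ∀ v, gC v - gC (n.symm v) + gM v = b v

/-- The final theorem. -/
def Final2Stmt : Prop :=
  ∀ k p q : ℕ, 4 * k * q + 4 * p < p * k → ∃ g : ℕ,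
    ∀ (V E : Type) [Fintype V] [Fintype E] [DecidableEq V] (s t : E → V) (cyc : Finset V → Prop),
    (∀ v, (univ.filter fun e => s e = v).card + (univ.filter fun e => t e = v).card = 3) →
    (∀ Y, cyc Y ↔ ∃ C : Finset E, C.Nonempty ∧ (∀ e ∈ C, s e ∈ Y ∧ t e ∈ Y) ∧
      ∀ v, Even ((C.filter fun e => s e = v).card + (C.filter fun e => t e = v).card)) →
    (∀ Y, cyc Y → g ≤ Y.card) →
    (∀ Y, cyc Y → cyc Yᶜ → k ≤ (univ.filter fun e => ¬(s e ∈ Y ↔ t e ∈ Y)).card) →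
    ∃ f : E → ℤ, (∀ e, (q : ℤ) ≤ |f e| ∧ |f e| ≤ p - q) ∧
      ∀ v, ∑ e ∈ univ.filter (fun e => s e = v), f e = ∑ e ∈ univ.filter (fun e => t e = v), f e

end Pool.Agent.Lib.MP_c8786f_co.W5
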