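import Pool.Agent.Lib.MP_c8786f_co.W5.Defs

/-!
Weak five-flow theorem: the two counting statements used by the geometric lemma.
-/

namespace Pool.Agent.Lib.MP_c8786f_co.W5

open Finset

/-- few well separated heavy centres -/
def HeavyStmt : Prop :=
  ∀ (V E H : Type) [Fintype V] [DecidableEq V] [Fintype E] [NormedAddCommGroup H]
    (s t : E → V) (K κ : ℕ) (τ En : ℝ) (f : V → H) (U C : Finset V),
    (∀ v, (univ.filter fun e => s e = v).card + (univ.filter fun e => t e = v).card ≤ 4) →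
    (∀ Y : Finset V, Y.card ≤ K → Y.card ≤ cut s t Y) →
    (∀ Y : Finset V, K ≤ Y.card → K ≤ Yᶜ.card → K ≤ cut s t Y) →
    0 < τ → 1 ≤ κ → κ ≤ K → ∑ e, ‖f (t e) - f (s e)‖ ^ 2 ≤ En →
    (∀ y ∈ C, κ ≤ (univ.filter fun v => ‖f v - f y‖ ≤ τ).card) →
    (∀ y ∈ C, ∀ y' ∈ C, y ≠ y' → 4 * τ < ‖f y - f y'‖) →
    (∀ y ∈ C, ∀ v, v ∉ U → ∀ v', v' ∉ U → ‖f v - f y‖ ≤ 2 * τ → ‖f v' - f y‖ ≤ 2 * τ →
      ‖f v - f v'‖ ≤ τ / 3) →
    2 ≤ C.card → (C.card : ℝ) ≤ 10 * U.card / K + 144 * En / (κ * τ ^ 2)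

/-- few light vertices -/
def LightStmt : Prop :=
  ∀ (V E H : Type) [Fintype V] [DecidableEq V] [Fintype E] [NormedAddCommGroup H]
    (s t : E → V) (K κ : ℕ) (τ En : ℝ) (f : V → H),
    (∀ v, (univ.filter fun e => s e = v).card + (univ.filter fun e => t e = v).card ≤ 4) →
    (∀ Y : Finset V, Y.card ≤ K → Y.card ≤ cut s t Y) →
    0 < τ → κ ≤ K → ∑ e, ‖f (t e) - f (s e)‖ ^ 2 ≤ En →
    ((univ.filter fun v => (univ.filter fun v' => ‖f v' - f v‖ ≤ τ).card < κ).card : ℝ) ≤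
      64 * κ * En / τ ^ 2

end Pool.Agent.Lib.MP_c8786f_co.W5
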