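import Pool.Agent.Lib.MP_c8786f_co.W5.Defs

/-!
Weak five-flow theorem, module Emit: flows along the trees hanging at the roots.
-/

namespace Pool.Agent.Lib.MP_c8786f_co.W5

open Finset

set_option linter.unusedSectionVars false

/-- the words of a given length -/
def em_Wd : ℕ → Finset (List (Fin 3))
  | 0 => {[]}
  | j + 1 => ((univ : Finset (Fin 3)) ×ˢ em_Wd j).map
      ⟨fun p => p.1 :: p.2, fun p q h => by
        have h' := List.cons.inj h
        exact Prod.ext h'.1 h'.2⟩

lemma em_mem_Wd (j : ℕ) (w : List (Fin 3)) : w ∈ em_Wd j ↔ w.length = j := by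
  induction j generalizing w with
  | zero => simp [em_Wd]
  | succ j ih =>
    cases w with
    | nil => simp [em_Wd]
    | cons a w => simp [em_Wd, ih]

lemma em_sum_succ (j : ℕ) (f : List (Fin 3) → ℝ) :
    ∑ w ∈ em_Wd (j + 1), f w = ∑ w ∈ em_Wd j, ∑ a : Fin 3, f (a :: w) := by
  rw [em_Wd, sum_map, sum_product_right]
  rfl

lemma em_sum_zero (f : List (Fin 3) → ℝ) : ∑ w ∈ em_Wd 0, f w = f [] := by
  simp [em_Wd]

/-- transition weights -/
noncomputable def em_tr (j0 : ℕ) (a : Fin 3) : List (Fin 3) → ℝ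
  | [] => if a = 2 then 1 else 0
  | b :: w => if b = 2 then (if a = 2 then 0 else 1 / 2) else
      if a = inv b then 0 else if w.length + 1 < 2 * j0 then (if a = 2 then 1 else 0) else 1 / 2

/-- the weight of a word -/
noncomputable def em_om (j0 : ℕ) : List (Fin 3) → ℝ
  | [] => 1
  | a :: w => em_om j0 w * em_tr j0 a w

lemma em_tr_nonneg (j0 : ℕ) (a : Fin 3) (w : List (Fin 3)) : 0 ≤ em_tr j0 a w := by
  cases w with
  | nil => simp only [em_tr]; split_ifs <;> norm_num
  | cons b w => simp only [em_tr]; split_ifs <;> norm_num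

lemma em_tr_le (j0 : ℕ) (a : Fin 3) (w : List (Fin 3)) : em_tr j0 a w ≤ 1 := by
  cases w with
  | nil => simp only [em_tr]; split_ifs <;> norm_num
  | cons b w => simp only [em_tr]; split_ifs <;> norm_num

lemma em_tr_half (j0 : ℕ) (a : Fin 3) (ha : a ≠ 2) (w : List (Fin 3)) :
    em_tr j0 a w ≤ 1 / 2 := by
  cases w with
  | nil => simp only [em_tr, ha]; norm_num
  | cons b w => simp only [em_tr, ha, if_false]; split_ifs <;> norm_num

lemma em_tr_sum (j0 : ℕ) (w : List (Fin 3)) : ∑ a, em_tr j0 a w = 1 := by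
  cases w with
  | nil => simp [em_tr]
  | cons b w =>
    rw [Fin.sum_univ_three]
    by_cases h : w.length + 1 < 2 * j0
    · fin_cases b <;> simp [em_tr, h] <;> norm_num
    · fin_cases b <;> simp [em_tr, h] <;> norm_num

lemma em_om_nonneg (j0 : ℕ) (w : List (Fin 3)) : 0 ≤ em_om j0 w := by
  induction w with
  | nil => simp [em_om]
  | cons a w ih => exact mul_nonneg ih (em_tr_nonneg j0 a w)

lemma em_om_le (j0 : ℕ) (w : List (Fin 3)) : em_om j0 w ≤ 1 := by
  induction w with
  | nil => simp [em_om]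
  | cons a w ih => exact mul_le_one₀ ih (em_tr_nonneg j0 a w) (em_tr_le j0 a w)

lemma em_om_sum (j0 : ℕ) (w : List (Fin 3)) : ∑ a, em_om j0 (a :: w) = em_om j0 w := by
  simp only [em_om]
  rw [← mul_sum, em_tr_sum, mul_one]

lemma em_om_tail {j0 : ℕ} {a : Fin 3} {w : List (Fin 3)} (h : em_om j0 (a :: w) ≠ 0) :
    em_om j0 w ≠ 0 := fun h0 => h (by simp [em_om, h0])

lemma em_om_Em {j0 : ℕ} {w : List (Fin 3)} (h : em_om j0 w ≠ 0) : Em w := by
  induction w with
  | nil => exact ⟨List.isChain_nil, Or.inl rfl⟩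
  | cons a w ih =>
    have h1 := ih (em_om_tail h)
    have h2 : em_tr j0 a w ≠ 0 := fun h0 => h (by simp [em_om, h0])
    cases w with
    | nil =>
      have : a = 2 := by
        by_contra ha
        exact h2 (by simp [em_tr, ha])
      subst this
      exact ⟨List.isChain_singleton _, Or.inr rfl⟩
    | cons b w =>
      refine ⟨?_, Or.inr ?_⟩
      · refine List.isChain_cons_cons.2 ⟨?_, h1.1⟩
        intro ha
        apply h2
        by_cases hb : b = 2
        · subst hb
          simp [em_tr, ha]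
        · simp [em_tr, hb, ha]
      · rcases h1.2 with h3 | h3
        · exact absurd h3 (by simp)
        · rw [List.getLast?_cons_cons]
          exact h3

lemma em_om_two (j0 : ℕ) (w : List (Fin 3)) : em_om j0 (2 :: 2 :: w) = 0 := by
  simp [em_om, em_tr]

lemma em_om_pow (j0 : ℕ) (w : List (Fin 3)) (a : Fin 3) :
    em_om j0 (a :: w) ≤ (3 / 4) ^ w.length ∧
      (a ≠ 2 → em_om j0 (a :: w) ≤ (3 / 4) ^ (w.length + 1)) := by
  induction w generalizing a with
  | nil =>
    refine ⟨by simpa using em_om_le j0 [a], fun ha => ?_⟩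
    simp [em_om, em_tr, ha]
    norm_num
  | cons b w ih =>
    obtain ⟨h1, h2⟩ := ih b
    have hp : (0 : ℝ) < (3 / 4) ^ w.length := by positivity
    have hn := em_om_nonneg j0 (b :: w)
    have key : a ≠ 2 → em_om j0 (a :: b :: w) ≤ (3 / 4) ^ ((b :: w).length + 1) := by
      intro ha
      have h3 := em_tr_half j0 a ha (b :: w)
      have h4 : em_om j0 (a :: b :: w) = em_om j0 (b :: w) * em_tr j0 a (b :: w) := rfl
      rw [h4, List.length_cons, pow_succ, pow_succ]
      nlinarith [mul_le_mul_of_nonneg_left h3 hn]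
    refine ⟨?_, key⟩
    by_cases ha : a = 2
    · subst ha
      by_cases hb : b = 2
      · subst hb
        rw [em_om_two]
        positivity
      · have h4 : em_om j0 (2 :: b :: w) = em_om j0 (b :: w) * em_tr j0 2 (b :: w) := rfl
        have h5 := em_tr_le j0 2 (b :: w)
        rw [h4, List.length_cons]
        nlinarith [mul_le_mul_of_nonneg_left h5 hn, h2 hb]
    · refine (key ha).trans ?_
      rw [pow_succ]
      have : (0 : ℝ) < (3 / 4) ^ (b :: w).length := by positivity
      linarith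

/-- a short word that can be continued along the circuit has just used the mate -/
lemma em_head {j0 : ℕ} {a : Fin 3} (ha : a ≠ 2) {w : List (Fin 3)} (h : em_om j0 (a :: w) ≠ 0)
    (hw : w.length < 2 * j0) : w.head? = some 2 ∧ w.getLast? = some 2 := by
  have h1 := em_om_Em (em_om_tail h)
  have h2 : em_tr j0 a w ≠ 0 := fun h0 => h (by simp [em_om, h0])
  cases w with
  | nil => exact absurd (by simp [em_tr, ha]) h2
  | cons b w =>
    refine ⟨?_, h1.2.resolve_left (by simp)⟩
    by_contra hb
    have hb' : b ≠ 2 := fun h0 => hb (by simp [h0])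
    apply h2
    have hw' : w.length + 1 < 2 * j0 := by simpa using hw
    simp [em_tr, hb', ha, hw']

lemma em_total (j0 j : ℕ) : ∑ w ∈ em_Wd j, em_om j0 w = 1 := by
  induction j with
  | zero => simp [em_Wd, em_om]
  | succ j ih =>
    rw [em_sum_succ, ← ih]
    exact sum_congr rfl fun w _ => em_om_sum j0 w

section

variable {V : Type} [Fintype V] [DecidableEq V]

/-- the distribution after `j` steps -/
noncomputable def em_B (n : Equiv.Perm V) (m : V → V) (j0 j : ℕ) (u v : V) : ℝ :=
  ∑ w ∈ em_Wd j, if act n m w u = v then em_om j0 w else 0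

/-- the amount leaving `v` through the letter `a` -/
noncomputable def em_O (n : Equiv.Perm V) (m : V → V) (j0 R : ℕ) (c : V → ℝ) (v : V)
    (a : Fin 3) : ℝ :=
  ∑ u, ∑ j ∈ range R, ∑ w ∈ em_Wd j, if act n m w u = v then c u * em_om j0 (a :: w) else 0

lemma em_out (n : Equiv.Perm V) (m : V → V) (j0 R : ℕ) (c : V → ℝ) (v : V) :
    ∑ a, em_O n m j0 R c v a = ∑ u, c u * ∑ j ∈ range R, em_B n m j0 j u v := by
  unfold em_O em_B
  rw [sum_comm]
  refine sum_congr rfl fun u _ => ?_
  rw [sum_comm, mul_sum]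
  refine sum_congr rfl fun j _ => ?_
  rw [sum_comm, mul_sum]
  refine sum_congr rfl fun w _ => ?_
  split_ifs with h
  · rw [← mul_sum, em_om_sum]
  · simp

lemma em_step_iff (n : Equiv.Perm V) {m : V → V} (hm : ∀ v, m (m v) = v) (a : Fin 3) (x v : V) :
    x = step n m (inv a) v ↔ step n m a x = v := by
  constructor
  · rintro rfl
    have h := step_inv n hm (inv a) v
    have h2 : inv (inv a) = a := by fin_cases a <;> rfl
    rwa [h2] at h
  · rintro rfl
    exact (step_inv n hm a x).symm

lemma em_in (n : Equiv.Perm V) {m : V → V} (hm : ∀ v, m (m v) = v) (j0 R : ℕ) (c : V → ℝ)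
    (v : V) : ∑ a, em_O n m j0 R c (step n m (inv a) v) a =
      ∑ u, c u * ∑ j ∈ range R, em_B n m j0 (j + 1) u v := by
  unfold em_O em_B
  rw [sum_comm]
  refine sum_congr rfl fun u _ => ?_
  rw [sum_comm, mul_sum]
  refine sum_congr rfl fun j _ => ?_
  rw [sum_comm, em_sum_succ, mul_sum]
  refine sum_congr rfl fun w _ => ?_
  rw [mul_sum]
  refine sum_congr rfl fun a _ => ?_
  simp only [act_cons, em_step_iff n hm]
  split_ifs <;> simp

lemma em_B_zero (n : Equiv.Perm V) (m : V → V) (j0 : ℕ) (u v : V) :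
    em_B n m j0 0 u v = if u = v then 1 else 0 := by
  unfold em_B
  rw [em_sum_zero]
  rfl

lemma em_net (n : Equiv.Perm V) {m : V → V} (hm : ∀ v, m (m v) = v) (j0 R : ℕ) (c : V → ℝ)
    (v : V) : ∑ a, em_O n m j0 R c v a - ∑ a, em_O n m j0 R c (step n m (inv a) v) a =
      c v - ∑ u, c u * em_B n m j0 R u v := by
  rw [em_out, em_in n hm, ← sum_sub_distrib]
  have h : ∀ u, c u * ∑ j ∈ range R, em_B n m j0 j u v -
      c u * ∑ j ∈ range R, em_B n m j0 (j + 1) u v =
      (if u = v then c u else 0) - c u * em_B n m j0 R u v := by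
    intro u
    rw [← mul_sub, ← sum_sub_distrib, sum_range_sub' (fun j => em_B n m j0 j u v), em_B_zero]
    split_ifs <;> ring
  simp only [h, sum_sub_distrib, sum_ite_eq', mem_univ, if_true]

lemma em_single {n : Equiv.Perm V} {m : V → V} {A : Finset V} {R : ℕ} (hT : TreeInj n m A R)
    (j0 : ℕ) (c : V → ℝ) (hc : ∀ u, u ∉ A → c u = 0) (v : V) (a : Fin 3) :
    em_O n m j0 R c v a = 0 ∨ ∃ u ∈ A, ∃ w : List (Fin 3), w.length < R ∧
      em_om j0 (a :: w) ≠ 0 ∧ act n m w u = v ∧
      em_O n m j0 R c v a = c u * em_om j0 (a :: w) := by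
  by_cases h : ∃ u ∈ A, ∃ w : List (Fin 3), w.length < R ∧ em_om j0 (a :: w) ≠ 0 ∧
      act n m w u = v
  · obtain ⟨u, hu, w, h1, h2, h3⟩ := h
    refine Or.inr ⟨u, hu, w, h1, h2, h3, ?_⟩
    have key : ∀ u' w', w'.length < R → (u' ≠ u ∨ w' ≠ w) →
        (if act n m w' u' = v then c u' * em_om j0 (a :: w') else 0) = 0 := by
      intro u' w' h4 h5
      split_ifs with h6
      · by_cases h7 : u' ∈ A
        · by_cases h8 : em_om j0 (a :: w') = 0
          · rw [h8, mul_zero]
          · have := hT u' h7 u hu w' w (em_om_Em (em_om_tail h8)) (em_om_Em (em_om_tail h2))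
              h4.le h1.le (h6.trans h3.symm)
            tauto
        · rw [hc u' h7, zero_mul]
      · rfl
    unfold em_O
    rw [sum_eq_single u, sum_eq_single w.length, sum_eq_single w, if_pos h3]
    · intro w' hw' hne
      exact key u w' (by rw [(em_mem_Wd _ _).1 hw']; exact h1) (Or.inr hne)
    · intro h4
      exact absurd ((em_mem_Wd _ _).2 rfl) h4
    · intro j hj hne
      refine sum_eq_zero fun w' hw' => ?_
      have h5 := (em_mem_Wd _ _).1 hw'
      refine key u w' (by rw [h5]; exact mem_range.1 hj) (Or.inr ?_)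
      rintro rfl
      exact hne h5.symm
    · intro h4
      exact absurd (mem_range.2 h1) h4
    · intro u' _ hne
      refine sum_eq_zero fun j hj => sum_eq_zero fun w' hw' => ?_
      exact key u' w' (by rw [(em_mem_Wd _ _).1 hw']; exact mem_range.1 hj) (Or.inl hne)
    · intro h4
      exact absurd (mem_univ u) h4
  · left
    unfold em_O
    refine sum_eq_zero fun u _ => sum_eq_zero fun j hj => sum_eq_zero fun w hw => ?_
    split_ifs with h1
    · by_cases h2 : u ∈ A
      · by_cases h3 : em_om j0 (a :: w) = 0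
        · rw [h3, mul_zero]
        · exact absurd ⟨u, h2, w, by rw [(em_mem_Wd _ _).1 hw]; exact mem_range.1 hj, h3, h1⟩ h
      · rw [hc u h2, zero_mul]
    · rfl

lemma em_atom {n : Equiv.Perm V} {m : V → V} {A : Finset V} {R : ℕ} (hR : 1 ≤ R)
    (hT : TreeInj n m A R) (j0 : ℕ) (u : V) (hu : u ∈ A) (v : V) :
    em_B n m j0 R u v ≤ (3 / 4) ^ (R - 1) := by
  by_cases h : ∃ w : List (Fin 3), w.length = R ∧ em_om j0 w ≠ 0 ∧ act n m w u = v
  · obtain ⟨w, h1, h2, h3⟩ := h
    unfold em_B
    rw [sum_eq_single w, if_pos h3]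
    · cases w with
      | nil => simp at h1; omega
      | cons a w =>
        have h4 : R - 1 = w.length := by
          rw [← h1]
          simp
        rw [h4]
        exact (em_om_pow j0 w a).1
    · intro w' hw' hne
      split_ifs with h4
      · by_contra h5
        exact hne (hT u hu u hu w' w (em_om_Em h5) (em_om_Em h2) ((em_mem_Wd _ _).1 hw').le h1.le
          (h4.trans h3.symm)).2
      · rfl
    · intro h4
      exact absurd ((em_mem_Wd _ _).2 h1) h4
  · have : em_B n m j0 R u v = 0 := by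
      unfold em_B
      refine sum_eq_zero fun w hw => ?_
      split_ifs with h1
      · by_contra h2
        exact h ⟨w, (em_mem_Wd _ _).1 hw, h2, h1⟩
      · rfl
    rw [this]
    positivity

lemma em_mate {n : Equiv.Perm V} {m : V → V} {A : Finset V} {R : ℕ} (hT : TreeInj n m A R)
    (j0 : ℕ) (c : V → ℝ) (hc : ∀ u, u ∉ A → c u = 0) (C : ℝ) (hC : ∀ u, |c u| ≤ C) (v : V) :
    |em_O n m j0 R c v 2 - em_O n m j0 R c (m v) 2| ≤ C := by
  have hb : ∀ u w, |c u * em_om j0 w| ≤ C := by
    intro u w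
    rw [abs_mul, abs_of_nonneg (em_om_nonneg j0 w)]
    exact (mul_le_of_le_one_right (abs_nonneg _) (em_om_le j0 w)).trans (hC u)
  rcases em_single hT j0 c hc v 2 with h | ⟨u, hu, w, h1, h2, h3, h4⟩
  · rcases em_single hT j0 c hc (m v) 2 with h' | ⟨u', -, w', -, -, -, h4'⟩
    · rw [h, h', sub_zero, abs_zero]
      exact (abs_nonneg _).trans (hC v)
    · rw [h, h4', zero_sub, abs_neg]
      exact hb _ _
  · rcases em_single hT j0 c hc (m v) 2 with h' | ⟨u', hu', w', h1', h2', h3', -⟩
    · rw [h4, h', sub_zero]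
      exact hb _ _
    · have h5 := hT u hu u' hu' (2 :: w) w' (em_om_Em h2) (em_om_Em (em_om_tail h2'))
        (by simpa using h1) h1'.le (by simp [h3, h3'])
      rw [← h5.2, em_om_two] at h2'
      exact absurd rfl h2'

lemma em_circ {n : Equiv.Perm V} {m : V → V} {A : Finset V} {R : ℕ} (hT : TreeInj n m A R)
    (j0 : ℕ) (b k e : V → ℝ) (δ : ℝ) (hb : ∀ v, b v = 1 ∨ b v = -1)
    (hA : ∀ u, u ∉ A → k u = 0 ∧ e u = 0) (he : ∀ u, |e u| ≤ δ)
    (hk : ∀ u, k u = 0 ∨ ∃ y, (y = 1 ∨ y = -1) ∧ k u = y / 2 ∧ Good n m b j0 u y)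
    (v : V) (a : Fin 3) (ha : a ≠ 2) :
    |b v / 4 + em_O n m j0 R (fun u => k u + e u) v a| ≤ 1 / 4 + δ + (3 / 4) ^ (2 * j0) := by
  have hδ : 0 ≤ δ := (abs_nonneg _).trans (he v)
  have hp : (0 : ℝ) < (3 / 4) ^ (2 * j0) := by positivity
  have hc : ∀ u, u ∉ A → k u + e u = 0 := fun u hu => by rw [(hA u hu).1, (hA u hu).2, add_zero]
  rcases em_single hT j0 (fun u => k u + e u) hc v a with h | ⟨u, -, w, -, h2, h3, h4⟩
  · rw [h, abs_le]
    rcases hb v with h1 | h1 <;> rw [h1] <;> constructor <;> linarith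
  · rw [h4]
    have h5 := em_om_nonneg j0 (a :: w)
    have h6 := em_om_le j0 (a :: w)
    have h7 : |e u * em_om j0 (a :: w)| ≤ δ := by
      rw [abs_mul, abs_of_nonneg h5]
      exact (mul_le_of_le_one_right (abs_nonneg _) h6).trans (he u)
    have h8 := abs_le.1 h7
    rw [add_mul, abs_le]
    rcases hk u with h9 | ⟨y, hy, h9, h10⟩
    · rw [h9]
      rcases hb v with h1 | h1 <;> rw [h1] <;> constructor <;> linarith
    · rw [h9]
      by_cases hw : w.length < 2 * j0
      · obtain ⟨h11, h12⟩ := em_head ha h2 hw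
        have h13 := h10 w (em_om_Em (em_om_tail h2)).1 h11 h12 hw
        rw [h3] at h13
        rw [h13]
        rcases hy with h1 | h1 <;> rw [h1] <;> constructor <;> linarith
      · have h11 : em_om j0 (a :: w) ≤ (3 / 4) ^ (2 * j0) :=
          (em_om_pow j0 w a).1.trans
            (pow_le_pow_of_le_one (by norm_num) (by norm_num) (not_lt.1 hw))
        rcases hb v with h1 | h1 <;> rcases hy with h12 | h12 <;> rw [h1, h12] <;>
          constructor <;> linarith

end

theorem emit : EmitStmt := by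
  intro j0 R V _ _ n m A hR hm hT
  refine ⟨em_B n m j0 R, fun u v => ?_, fun u => ?_, fun u v h => ?_,
    fun u hu v => em_atom hR hT j0 u hu v, fun b k e δ hb hA he hk => ?_⟩
  · refine sum_nonneg fun w _ => ?_
    split_ifs
    · exact em_om_nonneg j0 w
    · exact le_rfl
  · unfold em_B
    rw [sum_comm, ← em_total j0 R]
    refine sum_congr rfl fun w _ => ?_
    simp
  · obtain ⟨w, hw, h1⟩ := exists_ne_zero_of_sum_ne_zero h
    refine ⟨w, (em_mem_Wd _ _).1 hw, ?_⟩
    by_contra h2
    exact h1 (if_neg h2)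
  · have hc : ∀ u, u ∉ A → k u + e u = 0 := fun u hu => by
      rw [(hA u hu).1, (hA u hu).2, add_zero]
    refine ⟨fun v => em_O n m j0 R (fun u => k u + e u) v 0 -
      em_O n m j0 R (fun u => k u + e u) (n v) 1,
      fun v => em_O n m j0 R (fun u => k u + e u) v 2 -
      em_O n m j0 R (fun u => k u + e u) (m v) 2, fun v => ?_, fun v => ?_, fun v => ?_,
      fun v => ?_⟩
    · simp only [hm]
      ring
    · refine em_mate hT j0 _ hc _ (fun u => ?_) v
      have h1 := abs_le.1 (he u)
      rw [abs_le]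
      rcases hk u with h2 | ⟨y, hy, h2, -⟩
      · rw [h2]
        constructor <;> linarith
      · rcases hy with h3 | h3 <;> rw [h2, h3] <;> constructor <;> linarith
    · have h1 := abs_le.1 (em_circ hT j0 b k e δ hb hA he hk v 0 (by decide))
      have h2 := abs_le.1 (em_circ hT j0 b k e δ hb hA he hk (n v) 1 (by decide))
      rw [abs_le]
      constructor <;> linarith [h1.1, h1.2, h2.1, h2.2]
    · have h := em_net n hm j0 R (fun u => k u + e u) v
      simp only [Fin.sum_univ_three, inv_zero', inv_one', inv_two', step_zero, step_one,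
        step_two] at h
      simp only [Equiv.apply_symm_apply]
      linarith

end Pool.Agent.Lib.MP_c8786f_co.W5
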