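import Pool.Agent.Lib.MP_c8786f_co.W5.Defs3
import Pool.Agent.Lib.MP_c8786f_co.W5.Emit

/-!
Module Emit3: flows along the trees hanging at the roots, charges of size at most one.
-/

namespace Pool.Agent.Lib.MP_c8786f_co.W5

open Finset

set_option linter.unusedSectionVars false

lemma em3_half (j0 : ℕ) (a : Fin 3) (ha : a ≠ 2) (w : List (Fin 3)) :
    em_om j0 (a :: w) ≤ 1 / 2 := by
  have h1 := em_tr_half j0 a ha w
  have h2 := em_om_le j0 w
  have h3 := em_om_nonneg j0 w
  have h4 := em_tr_nonneg j0 a w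
  have h5 : em_om j0 (a :: w) = em_om j0 w * em_tr j0 a w := rfl
  rw [h5]
  nlinarith

lemma em3_two (j0 : ℕ) (w : List (Fin 3)) (hw : w ≠ []) : em_om j0 (2 :: w) ≤ 1 / 2 := by
  cases w with
  | nil => exact absurd rfl hw
  | cons b w =>
    by_cases hb : b = 2
    · subst hb
      rw [em_om_two]
      norm_num
    · have h1 := em3_half j0 b hb w
      have h2 := em_tr_le j0 2 (b :: w)
      have h3 := em_om_nonneg j0 (b :: w)
      have h5 : em_om j0 (2 :: b :: w) = em_om j0 (b :: w) * em_tr j0 2 (b :: w) := rfl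
      rw [h5]
      nlinarith

section

variable {V : Type} [Fintype V] [DecidableEq V]

lemma em3_root {n : Equiv.Perm V} {m : V → V} {A : Finset V} {R : ℕ} (hR : 1 ≤ R)
    (hT : TreeInj n m A R) (j0 : ℕ) (c : V → ℝ) (hc : ∀ u, u ∉ A → c u = 0) (u : V)
    (hu : u ∈ A) (a : Fin 3) : em_O n m j0 R c u a = c u * em_om j0 [a] := by
  have hE : Em ([] : List (Fin 3)) := ⟨List.isChain_nil, Or.inl rfl⟩
  have key : ∀ u' w', w'.length < R → (u' ≠ u ∨ w' ≠ []) →
      (if act n m w' u' = u then c u' * em_om j0 (a :: w') else 0) = 0 := by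
    intro u' w' h4 h5
    split_ifs with h6
    · by_cases h7 : u' ∈ A
      · by_cases h8 : em_om j0 (a :: w') = 0
        · rw [h8, mul_zero]
        · have := hT u' h7 u hu w' [] (em_om_Em (em_om_tail h8)) hE h4.le (by simp) h6
          tauto
      · rw [hc u' h7, zero_mul]
    · rfl
  unfold em_O
  rw [sum_eq_single u, sum_eq_single 0, em_sum_zero, if_pos (act_nil n m u)]
  · intro j hj hne
    refine sum_eq_zero fun w' hw' => ?_
    have h5 := (em_mem_Wd _ _).1 hw'
    refine key u w' (by rw [h5]; exact mem_range.1 hj) (Or.inr ?_)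
    rintro rfl
    exact hne h5.symm
  · intro h4
    exact absurd (mem_range.2 hR) h4
  · intro u' _ hne
    refine sum_eq_zero fun j hj => sum_eq_zero fun w' hw' => ?_
    exact key u' w' (by rw [(em_mem_Wd _ _).1 hw']; exact mem_range.1 hj) (Or.inl hne)
  · intro h4
    exact absurd (mem_univ u) h4

lemma em3_into {n : Equiv.Perm V} {m : V → V} {A : Finset V} {R : ℕ}
    (hT : TreeInj n m A R) (j0 : ℕ) (c : V → ℝ) (hc : ∀ u, u ∉ A → c u = 0) (u : V)
    (hu : u ∈ A) (v : V) (a : Fin 3) (hv : step n m a v = u) : em_O n m j0 R c v a = 0 := by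
  have hE : Em ([] : List (Fin 3)) := ⟨List.isChain_nil, Or.inl rfl⟩
  rcases em_single hT j0 c hc v a with h | ⟨u', hu', w, h1, h2, h3, -⟩
  · exact h
  · have h5 := hT u' hu' u hu (a :: w) [] (em_om_Em h2) hE (by simpa using h1) (by simp)
      (by rw [act_cons, h3, hv, act_nil])
    exact absurd h5.2 (by simp)

lemma em3_mate {n : Equiv.Perm V} {m : V → V} {A : Finset V} {R : ℕ} (hT : TreeInj n m A R)
    (j0 : ℕ) (c : V → ℝ) (hc : ∀ u, u ∉ A → c u = 0) (C : ℝ) (hC : ∀ u, |c u| ≤ 2 * C) (v : V)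
    (h1 : |c v| ≤ C) (h2 : |c (m v)| ≤ C) :
    |em_O n m j0 R c v 2 - em_O n m j0 R c (m v) 2| ≤ C := by
  have hb : ∀ u w x, |c x| ≤ C → act n m w u = x → |c u * em_om j0 (2 :: w)| ≤ C := by
    intro u w x hx hw
    rw [abs_mul, abs_of_nonneg (em_om_nonneg j0 _)]
    by_cases h : w = []
    · subst h
      rw [act_nil] at hw
      subst hw
      exact (mul_le_of_le_one_right (abs_nonneg _) (em_om_le j0 _)).trans hx
    · have h3 := em3_two j0 w h
      have h4 := hC u
      have h5 := abs_nonneg (c u)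
      nlinarith
  rcases em_single hT j0 c hc v 2 with h | ⟨u, hu, w, h1', h2', h3, h4⟩
  · rcases em_single hT j0 c hc (m v) 2 with h' | ⟨u', -, w', -, -, h3', h4'⟩
    · rw [h, h', sub_zero, abs_zero]
      exact (abs_nonneg _).trans h1
    · rw [h, h4', zero_sub, abs_neg]
      exact hb _ _ _ h2 h3'
  · rcases em_single hT j0 c hc (m v) 2 with h' | ⟨u', hu', w', h1'', h2'', h3', -⟩
    · rw [h4, h', sub_zero]
      exact hb _ _ _ h1 h3
    · have h5 := hT u hu u' hu' (2 :: w) w' (em_om_Em h2') (em_om_Em (em_om_tail h2''))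
        (by simpa using h1') h1''.le (by simp [h3, h3'])
      rw [← h5.2, em_om_two] at h2''
      exact absurd rfl h2''

lemma em3_circ {n : Equiv.Perm V} {m : V → V} {A : Finset V} {R : ℕ} (hT : TreeInj n m A R)
    (j0 : ℕ) (b k e : V → ℝ) (δ : ℝ) (hb : ∀ v, b v = 1 ∨ b v = -1)
    (hA : ∀ u, u ∉ A → k u = 0 ∧ e u = 0) (he : ∀ u, |e u| ≤ δ)
    (hk : ∀ u, k u = 0 ∨ ∃ y κ, (y = 1 ∨ y = -1) ∧ 0 ≤ κ ∧ κ ≤ 1 ∧ k u = y * κ ∧
      Good n m b j0 u y)
    (v : V) (a : Fin 3) (ha : a ≠ 2) :
    |b v / 4 + em_O n m j0 R (fun u => k u + e u) v a| ≤ 1 / 4 + δ + (3 / 4) ^ (2 * j0) := by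
  have hδ : 0 ≤ δ := (abs_nonneg _).trans (he v)
  have hp : (0 : ℝ) < (3 / 4) ^ (2 * j0) := by positivity
  have hc : ∀ u, u ∉ A → k u + e u = 0 := fun u hu => by rw [(hA u hu).1, (hA u hu).2, add_zero]
  rcases em_single hT j0 (fun u => k u + e u) hc v a with h | ⟨u, -, w, -, h2, h3, h4⟩
  · rw [h, abs_le]
    rcases hb v with h1 | h1 <;> rw [h1] <;> constructor <;> linarith
  · rw [h4]
    have h5 := em_om_nonneg j0 (a :: w)
    have h6 := em_om_le j0 (a :: w)
    have h6' := em3_half j0 a ha w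
    have h7 : |e u * em_om j0 (a :: w)| ≤ δ := by
      rw [abs_mul, abs_of_nonneg h5]
      exact (mul_le_of_le_one_right (abs_nonneg _) h6).trans (he u)
    have h8 := abs_le.1 h7
    rw [add_mul, abs_le]
    rcases hk u with h9 | ⟨y, κ, hy, hκ0, hκ1, h9, h10⟩
    · rw [h9]
      rcases hb v with h1 | h1 <;> rw [h1] <;> constructor <;> linarith
    · rw [h9, mul_assoc]
      have h14 : 0 ≤ κ * em_om j0 (a :: w) := mul_nonneg hκ0 h5
      have h15 : κ * em_om j0 (a :: w) ≤ em_om j0 (a :: w) := mul_le_of_le_one_left h5 hκ1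
      by_cases hw : w.length < 2 * j0
      · obtain ⟨h11, h12⟩ := em_head ha h2 hw
        have h13 := h10 w (em_om_Em (em_om_tail h2)).1 h11 h12 hw
        rw [h3] at h13
        rw [h13]
        rcases hy with h1 | h1 <;> rw [h1] <;> constructor <;> linarith
      · have h11 : em_om j0 (a :: w) ≤ (3 / 4) ^ (2 * j0) :=
          (em_om_pow j0 w a).1.trans
            (pow_le_pow_of_le_one (by norm_num) (by norm_num) (not_lt.1 hw))
        rcases hb v with h1 | h1 <;> rcases hy with h12 | h12 <;> rw [h1, h12] <;>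
          constructor <;> linarith

end

theorem emit3 : Emit3Stmt := by
  intro j0 R V _ _ n m A hR hm hT
  refine ⟨em_B n m j0 R, fun u v => ?_, fun u => ?_, fun u v h => ?_,
    fun u hu v => em_atom hR hT j0 u hu v, fun b k e δ hb hA he hk => ?_⟩
  · refine sum_nonneg fun w _ => ?_
    split_ifs
    · exact em_om_nonneg j0 w
    · exact le_rfl
  · unfold em_B
    rw [sum_comm, ← em_total j0 R]
    refine sum_congr rfl fun w _ => ?_
    simp
  · obtain ⟨w, hw, h1⟩ := exists_ne_zero_of_sum_ne_zero h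
    have h3 : act n m w u = v := by
      by_contra h2
      exact h1 (if_neg h2)
    rw [if_pos h3] at h1
    exact ⟨w, em_om_Em h1, (em_mem_Wd _ _).1 hw, h3⟩
  · have hc : ∀ u, u ∉ A → k u + e u = 0 := fun u hu => by
      rw [(hA u hu).1, (hA u hu).2, add_zero]
    refine ⟨fun v => em_O n m j0 R (fun u => k u + e u) v 0 -
      em_O n m j0 R (fun u => k u + e u) (n v) 1,
      fun v => em_O n m j0 R (fun u => k u + e u) v 2 -
      em_O n m j0 R (fun u => k u + e u) (m v) 2, fun v => ?_, fun v hv hv' => ?_, fun v => ?_,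
      fun u hu => ⟨?_, ?_, ?_⟩, fun v => ?_⟩
    · simp only [hm]
      ring
    · have hδ : 0 ≤ δ := (abs_nonneg _).trans (he v)
      refine em3_mate hT j0 _ hc _ (fun u => ?_) v
        ((abs_add_le _ _).trans (add_le_add hv (he _)))
        ((abs_add_le _ _).trans (add_le_add hv' (he _)))
      have h1 := abs_le.1 (he u)
      rw [abs_le]
      rcases hk u with h2 | ⟨y, κ, hy, h4, h5, h2, -⟩
      · rw [h2]
        constructor <;> linarith
      · rcases hy with h3 | h3 <;> rw [h2, h3] <;> constructor <;> linarith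
    · have h1 := abs_le.1 (em3_circ hT j0 b k e δ hb hA he hk v 0 (by decide))
      have h2 := abs_le.1 (em3_circ hT j0 b k e δ hb hA he hk (n v) 1 (by decide))
      have hp : (0 : ℝ) < (3 / 4) ^ (2 * j0) := by positivity
      rw [abs_le]
      constructor <;> linarith [h1.1, h1.2, h2.1, h2.2]
    · simp only
      rw [em3_root hR hT j0 _ hc u hu 2, em3_into hT j0 _ hc u hu (m u) 2 (by simp [hm])]
      simp [em_om, em_tr]
    · simp only
      rw [em3_root hR hT j0 _ hc u hu 0, em3_into hT j0 _ hc u hu (n u) 1 (by simp)]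
      simp [em_om, em_tr]
    · simp only [Equiv.apply_symm_apply]
      rw [em3_root hR hT j0 _ hc u hu 1, em3_into hT j0 _ hc u hu (n.symm u) 0 (by simp)]
      simp [em_om, em_tr]
    · have h := em_net n hm j0 R (fun u => k u + e u) v
      simp only [Fin.sum_univ_three, inv_zero', inv_one', inv_two', step_zero, step_one,
        step_two] at h
      simp only [Equiv.apply_symm_apply]
      linarith

end Pool.Agent.Lib.MP_c8786f_co.W5
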