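import Pool.Agent.Lib.MP_c8786f_co.W5.FinalA
import Pool.Agent.Shared.TJoin

/-!
Weak five-flow theorem, final step: from the permutation model to cubic multigraphs.
-/

namespace Pool.Agent.Lib.MP_c8786f_co.W5

open Finset

set_option linter.unusedSectionVars false

variable {V E : Type} [Fintype V] [DecidableEq V] [Fintype E]

lemma fin_matching [DecidableEq E] (s t : E → V)
    (hdeg : ∀ v, (univ.filter fun e => s e = v).card + (univ.filter fun e => t e = v).card = 3)
    (hloop : ∀ e, s e ≠ t e) (h3 : ∀ Y : Finset V, cut s t Y ≠ 0 → 3 ≤ cut s t Y) :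
    ∃ (J : Finset E) (f : E → ℤ), (∀ v, ∃! e, e ∈ J ∧ (s e = v ∨ t e = v)) ∧
      (∀ e, e ∉ J → f e = 1 ∨ f e = -1) ∧
      (∀ v, ∃! e, e ∉ J ∧ (if f e = 1 then s e else t e) = v) ∧
      ∀ v, ∃! e, e ∉ J ∧ (if f e = 1 then t e else s e) = v := by
  have hstar : ∀ v e, e ∈ Shared.TJoin.star s t v ↔ s e = v ∨ t e = v := by
    intro v e
    rw [Shared.TJoin.mem_star]
    have := hloop e
    grind
  have hsc : ∀ v, (Shared.TJoin.star s t v).card = 3 := by
    intro v
    rw [← hdeg v, ← card_union_of_disjoint]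
    · congr 1
      ext e
      simp [hstar]
    · rw [disjoint_filter]
      intro e _ h1 h2
      exact hloop e (h1.trans h2.symm)
  obtain ⟨J, hJ, -, hJt⟩ := Shared.TJoin.edmonds_johnson_tight s t (fun _ => 1 / 3) (fun _ => 0)
    ⟨fun _ => by norm_num, fun c hc => by
      have h1 : (Shared.TJoin.cut s t c).card = cut s t (univ.filter fun v => c v = 1) := by
        unfold cut
        congr 1
        ext e
        rw [Shared.TJoin.mem_cut]
        simp only [mem_filter, mem_univ, true_and]
        generalize c (s e) = a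
        generalize c (t e) = b
        revert a b
        decide
      have h2 := (Shared.TJoin.par_univ_eq_one.mp hc).pos
      have h4 : (3 : ℝ) ≤ (Shared.TJoin.cut s t c).card := by
        rw [h1] at h2 ⊢
        exact_mod_cast h3 _ h2.ne'
      rw [sum_const, nsmul_eq_mul]
      linarith⟩ (fun _ => le_rfl)
  obtain ⟨f, hf, hf1, hf0⟩ := Shared.TJoin.exists_orient_compl s t J hJ
  have hone : ∀ v, (J ∩ Shared.TJoin.star s t v).card = 1 := by
    intro v
    refine hJt _ (Shared.TJoin.par_univ_eq_one.mpr ?_) ?_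
    · have := hsc v
      unfold Shared.TJoin.star at this
      rw [this]; decide
    · have := hsc v
      unfold Shared.TJoin.star at this
      rw [sum_const, this]; norm_num
  have hcount : ∀ v, (univ.filter fun e => e ∉ J ∧ (if f e = 1 then s e else t e) = v).card = 1 ∧
      (univ.filter fun e => e ∉ J ∧ (if f e = 1 then t e else s e) = v).card = 1 := by
    intro v
    have h1 : (univ.filter fun e => e ∉ J ∧ (if f e = 1 then s e else t e) = v).card +
        (univ.filter fun e => e ∉ J ∧ (if f e = 1 then t e else s e) = v).card +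
        (J ∩ Shared.TJoin.star s t v).card = 3 := by
      have h2 : J ∩ Shared.TJoin.star s t v = univ.filter fun e => e ∈ J ∧ (s e = v ∨ t e = v) := by
        ext e; simp [hstar]
      rw [← hdeg v, h2]
      simp only [card_filter]
      rw [← sum_add_distrib, ← sum_add_distrib, ← sum_add_distrib]
      refine sum_congr rfl fun e _ => ?_
      have := hloop e
      by_cases h4 : e ∈ J <;> by_cases h5 : f e = 1 <;> by_cases h6 : s e = v <;>
        by_cases h7 : t e = v <;> simp_all
    have h2 : ((univ.filter fun e => e ∉ J ∧ (if f e = 1 then s e else t e) = v).card : ℤ) =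
        (univ.filter fun e => e ∉ J ∧ (if f e = 1 then t e else s e) = v).card := by
      have h4 := hf.vertex v
      rw [← sub_eq_zero] at h4 ⊢
      rw [← h4]
      simp only [card_filter, sum_filter]
      push_cast
      rw [← sum_sub_distrib, ← sum_sub_distrib]
      refine sum_congr rfl fun e _ => ?_
      by_cases h5 : e ∈ J
      · simp [h5, hf0 e h5]
      · rcases hf1 e h5 with h6 | h6 <;> by_cases h7 : s e = v <;> by_cases h8 : t e = v <;>
          simp [h5, h6, h7, h8]
    have := hone v
    omega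
  refine ⟨J, f, fun v => ?_, hf1, fun v => ?_, fun v => ?_⟩
  · simpa [hstar] using card_eq_one_iff_existsUnique.mp (hone v)
  · simpa using card_eq_one_iff_existsUnique.mp (hcount v).1
  · simpa using card_eq_one_iff_existsUnique.mp (hcount v).2

/-- the permutation model of a cubic graph -/
lemma fin_model (s t : E → V)
    (hdeg : ∀ v, (univ.filter fun e => s e = v).card + (univ.filter fun e => t e = v).card = 3)
    (hloop : ∀ e, s e ≠ t e) (h3 : ∀ Y : Finset V, cut s t Y ≠ 0 → 3 ≤ cut s t Y) :
    ∃ (n : Equiv.Perm V) (m : V → V), (∀ v, m (m v) = v) ∧ (∀ v, m v ≠ v) ∧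
      (∀ Y, cut s t Y ≤ hcut n m Y) ∧
      ∀ (gC gM : V → ℝ) (r : ℝ), (∀ v, gM (m v) = -gM v) → (∀ v, |gC v| ≤ r ∧ |gM v| ≤ r) →
        ∃ g : E → ℝ, (∀ e, |g e| ≤ r) ∧ ∀ v, bd s t g v = gC v - gC (n.symm v) + gM v := by
  classical
  obtain ⟨J, f, hJ, hf, ho, hi⟩ := fin_matching s t hdeg hloop h3
  choose mat hmat hmat' using hJ
  choose out hout hout' using ho
  choose inn hinn hinn' using hi
  let tl : E → V := fun e => if f e = 1 then s e else t e
  let hd : E → V := fun e => if f e = 1 then t e else s e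
  let n : Equiv.Perm V := ⟨fun v => hd (out v), fun v => tl (inn v),
    fun v => by
      show tl (inn (hd (out v))) = v
      rw [← hinn' _ (out v) ⟨(hout v).1, rfl⟩]; exact (hout v).2,
    fun v => by
      show hd (out (tl (inn v))) = v
      rw [← hout' _ (inn v) ⟨(hinn v).1, rfl⟩]; exact (hinn v).2⟩
  let m : V → V := fun v => if s (mat v) = v then t (mat v) else s (mat v)
  have hms : ∀ e ∈ J, m (s e) = t e := by
    intro e he
    simp only [m]
    rw [← hmat' _ e ⟨he, Or.inl rfl⟩, if_pos rfl]
  have hmt : ∀ e ∈ J, m (t e) = s e := by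
    intro e he
    simp only [m]
    rw [← hmat' _ e ⟨he, Or.inr rfl⟩, if_neg (hloop e)]
  have hnt : ∀ e, e ∉ J → n (tl e) = hd e := by
    intro e he
    show hd (out (tl e)) = hd e
    rw [← hout' _ e ⟨he, rfl⟩]
  have hnh : ∀ e, e ∉ J → n.symm (hd e) = tl e := by
    intro e he
    rw [← hnt e he, Equiv.symm_apply_apply]
  refine ⟨n, m, fun v => ?_, fun v => ?_, fun Y => ?_, fun gC gM r hgM hr => ?_⟩
  · obtain ⟨h1, h2 | h2⟩ := hmat v
    · rw [← h2, hms _ h1, hmt _ h1]
    · rw [← h2, hmt _ h1, hms _ h1]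
  · obtain ⟨h1, h2 | h2⟩ := hmat v
    · rw [← h2, hms _ h1]; exact (hloop _).symm
    · rw [← h2, hmt _ h1]; exact hloop _
  · unfold cut hcut
    refine card_le_card_of_surjOn (fun q => ![out q.1, inn q.1, mat q.1] q.2) ?_
    intro e he
    have he' := (mem_filter.mp (mem_coe.mp he)).2
    by_cases h1 : e ∈ J
    · by_cases h2 : s e ∈ Y
      · refine ⟨(s e, 2), mem_coe.mpr (mem_filter.mpr ⟨mem_univ _, h2, ?_⟩),
          (hmat' _ e ⟨h1, Or.inl rfl⟩).symm⟩
        rw [step_two, hms e h1]; tauto
      · refine ⟨(t e, 2), mem_coe.mpr (mem_filter.mpr ⟨mem_univ _, by tauto, ?_⟩),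
          (hmat' _ e ⟨h1, Or.inr rfl⟩).symm⟩
        rw [step_two, hmt e h1]; exact h2
    · have h3 : ¬(tl e ∈ Y ↔ hd e ∈ Y) := by
        simp only [tl, hd]
        split_ifs <;> tauto
      by_cases h2 : tl e ∈ Y
      · refine ⟨(tl e, 0), mem_coe.mpr (mem_filter.mpr ⟨mem_univ _, h2, ?_⟩),
          (hout' _ e ⟨h1, rfl⟩).symm⟩
        rw [step_zero, hnt e h1]; tauto
      · refine ⟨(hd e, 1), mem_coe.mpr (mem_filter.mpr ⟨mem_univ _, by tauto, ?_⟩),
          (hinn' _ e ⟨h1, rfl⟩).symm⟩
        rw [step_one, hnh e h1]; exact h2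
  · refine ⟨fun e => if e ∈ J then gM (s e) else f e * gC (tl e), fun e => ?_, fun v => ?_⟩
    · by_cases h1 : e ∈ J
      · simp only [h1, if_true]; exact (hr _).2
      · simp only [h1, if_false]
        rcases hf e h1 with h2 | h2 <;> simp [h2, (hr _).1]
    · have e1 : gC v - gC (n.symm v) + gM v = ∑ e, ((if e = out v then gC v else 0) -
          (if e = inn v then gC (n.symm v) else 0) + if e = mat v then gM v else 0) := by
        simp [sum_add_distrib, sum_sub_distrib]
      rw [e1]
      unfold bd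
      rw [sum_filter, sum_filter, ← sum_sub_distrib]
      refine sum_congr rfl fun e _ => ?_
      have hl := hloop e
      by_cases h1 : e ∈ J
      · have h2 : e ≠ out v := fun h => (hout v).1 (h ▸ h1)
        have h4 : e ≠ inn v := fun h => (hinn v).1 (h ▸ h1)
        simp only [h1, h2, h4, if_true, if_false, sub_zero, zero_add]
        by_cases h5 : s e = v
        · rw [if_pos h5, if_neg (h5 ▸ hl.symm), if_pos (hmat' _ e ⟨h1, Or.inl h5⟩), h5, sub_zero]
        · by_cases h6 : t e = v
          · rw [if_neg h5, if_pos h6, if_pos (hmat' _ e ⟨h1, Or.inr h6⟩), ← hmt e h1, hgM, h6]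
            ring
          · rw [if_neg h5, if_neg h6, if_neg, sub_zero]
            intro h
            rw [h] at h5 h6
            exact (hmat v).2.elim h5 h6
      · have h2 : e ≠ mat v := fun h => h1 (h ▸ (hmat v).1)
        have h4 : e = out v ↔ tl e = v := ⟨fun h => h ▸ (hout v).2, fun h => hout' _ e ⟨h1, h⟩⟩
        have h5 : e = inn v ↔ hd e = v := ⟨fun h => h ▸ (hinn v).2, fun h => hinn' _ e ⟨h1, h⟩⟩
        have h6 := hnh e h1
        simp only [h1, h2, h4, h5, if_false, add_zero]
        simp only [tl, hd] at h6 ⊢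
        rcases hf e h1 with h7 | h7
        · simp only [h7, if_true] at h6 ⊢
          by_cases h8 : s e = v
          · simp [h8, (h8 ▸ hl.symm : t e ≠ v)]
          · by_cases h9 : t e = v
            · simp [← h9, h6, hl]
            · simp [h8, h9]
        · have h7' : f e ≠ 1 := by omega
          simp only [h7', if_false] at h6 ⊢
          by_cases h8 : s e = v
          · simp [← h8, h6, h7, hl.symm]
          · by_cases h9 : t e = v
            · simp [h8, h9, h7]
            · simp [h8, h9]

theorem final_of_model : ModelStmt → FinalStmt := by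
  intro hM q hq
  obtain ⟨K, hK⟩ := hM (1 / (2 * (4 * q + 1))) (by positivity)
  refine ⟨3 * (K + 3), fun V E _ _ _ s t cyc hdeg hcyc hex hcon => ?_⟩
  have : DecidableEq E := Classical.decEq E
  have hcon' : ∀ Y, cyc Y → cyc Yᶜ → 3 * (K + 3) ≤ cut s t Y := hcon
  have hac : ∀ Y : Finset V, Y.Nonempty → ¬cyc Y → Y.card + 2 ≤ cut s t Y := by
    intro Y hY hc
    have h1 := fin_degsum s t hdeg Y
    have h2 : ¬Y.card ≤ (univ.filter fun e => s e ∈ Y ∧ t e ∈ Y).card :=
      fun h => hc ((hcyc Y).mpr (fin_forest s t Y hY h))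
    omega
  have hV : 2 * (K + 3) ≤ Fintype.card V := by
    obtain ⟨Y, h1, h2⟩ := hex
    have h3 := hcon' Y h1 h2
    have h4 : cut s t Y ≤ Fintype.card E := card_le_univ _
    have h5 := fin_degsum s t hdeg univ
    simp only [cut, mem_univ, and_self, filter_true, card_univ, not_true_eq_false, filter_false,
      card_empty] at h5
    omega
  have hmin : ∀ Y : Finset V, Y.Nonempty → Yᶜ.Nonempty →
      Y.card + 2 ≤ cut s t Y ∨ Yᶜ.card + 2 ≤ cut s t Y ∨ 3 * (K + 3) ≤ cut s t Y := by
    intro Y h1 h2
    by_cases h3 : cyc Y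
    · by_cases h4 : cyc Yᶜ
      · exact Or.inr (Or.inr (hcon' Y h3 h4))
      · exact Or.inr (Or.inl (cut_compl s t Y ▸ hac _ h2 h4))
    · exact Or.inl (hac Y h1 h3)
  have hsmall : ∀ Y : Finset V, Y.Nonempty → Y.card ≤ K + 1 → Y.card + 2 ≤ cut s t Y := by
    intro Y h1 h2
    have h3 := card_add_card_compl Y
    have := hmin Y h1 (card_pos.mp (by omega))
    omega
  have hloop : ∀ e, s e ≠ t e := by
    intro e he
    have h1 := hsmall {s e} (singleton_nonempty _) (by simp)
    have h2 := fin_degsum s t hdeg {s e}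
    have h3 : 0 < (univ.filter fun e' => s e' ∈ ({s e} : Finset V) ∧
        t e' ∈ ({s e} : Finset V)).card := card_pos.mpr ⟨e, by simp [he]⟩
    rw [card_singleton] at h1 h2
    omega
  have h3 : ∀ Y : Finset V, cut s t Y ≠ 0 → 3 ≤ cut s t Y := by
    intro Y h
    obtain ⟨e, he⟩ := card_pos.mp (Nat.pos_of_ne_zero h)
    have he' := (mem_filter.mp he).2
    have h1 : Y.Nonempty := by
      by_cases h1 : s e ∈ Y
      · exact ⟨_, h1⟩
      · exact ⟨t e, by tauto⟩
    have h2 : Yᶜ.Nonempty := by
      by_cases h1 : s e ∈ Y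
      · exact ⟨t e, mem_compl.mpr (by tauto)⟩
      · exact ⟨_, mem_compl.mpr h1⟩
    have := hmin Y h1 h2
    have := card_pos.mpr h1
    have := card_pos.mpr h2
    omega
  obtain ⟨n, m, hm, hm', hc, hg⟩ := fin_model s t hdeg hloop h3
  obtain ⟨b, gC, gM, hb, hgM, hr, hbd⟩ := hK V n m hm
    (fin_inj n m hm hm' K fun Y h1 h2 => by
      have := hsmall Y h1 (by omega)
      have := hc Y
      omega)
    (fun Y h1 => by
      rcases Y.eq_empty_or_nonempty with rfl | h2
      · simp
      · have := hsmall Y h2 (by omega)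
        have := hc Y
        omega)
    (fun Y h1 h2 => by
      rcases K.eq_zero_or_pos with h0 | h0
      · omega
      · have := hmin Y (card_pos.mp (by omega)) (card_pos.mp (by omega))
        have := hc Y
        omega)
  obtain ⟨g, hg1, hg2⟩ := hg gC gM _ hgM hr
  exact fin_flow s t q hdeg g b hb hg1 fun v => (hg2 v).trans (hbd v)

end Pool.Agent.Lib.MP_c8786f_co.W5
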