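import Pool.Agent.Lib.MP_c8786f_co.W5.Final
import Pool.Agent.Lib.MP_c8786f_co.W5.Defs2

/-!
Five-flows at fixed cyclic connectivity and large girth, final step.
-/

namespace Pool.Agent.Lib.MP_c8786f_co.W5

open Finset

set_option linter.unusedSectionVars false

/-- The theorem in the model, with the size threshold at least the connectivity. -/
def Model3Stmt : Prop :=
  ∀ (k : ℕ) (δ : ℝ), 1 ≤ k → 0 < δ → ∃ K : ℕ, k ≤ K ∧
    ∀ (V : Type) [Fintype V] [DecidableEq V] (n : Equiv.Perm V) (m : V → V),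
    (∀ v, m (m v) = v) → Inj n m K →
    (∀ Y : Finset V, Y.card ≤ K → Y.card ≤ hcut n m Y) →
    (∀ Y : Finset V, K ≤ Y.card → K ≤ Yᶜ.card → k ≤ hcut n m Y) →
    ∃ b gC gM : V → ℝ, (∀ v, b v = 1 ∨ b v = -1) ∧ (∀ v, gM (m v) = -gM v) ∧
      (∀ v, |gC v| ≤ 1 / 2 + 2 / k + δ ∧ |gM v| ≤ 1 / 2 + 2 / k + δ) ∧
      ∀ v, gC v - gC (n.symm v) + gM v = b v

variable {V E : Type} [Fintype V] [DecidableEq V] [Fintype E]

/-- from a small flow with boundary of modulus one to an integer circulation -/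
lemma fin_flow2 (s t : E → V) (p q : ℕ) (hp : 0 < p)
    (hdeg : ∀ v, (univ.filter fun e => s e = v).card + (univ.filter fun e => t e = v).card = 3)
    (g : E → ℝ) (b : V → ℝ) (hb : ∀ v, b v = 1 ∨ b v = -1)
    (hg : ∀ e, |g e| ≤ 1 - 2 * q / p) (hbd : ∀ v, bd s t g v = b v) :
    ∃ f : E → ℤ, (∀ e, (q : ℤ) ≤ |f e| ∧ |f e| ≤ p - q) ∧
      ∀ v, ∑ e ∈ univ.filter (fun e => s e = v), f e =
        ∑ e ∈ univ.filter (fun e => t e = v), f e := by
  classical
  have hq : (0 : ℝ) ≤ q := Nat.cast_nonneg q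
  have hp' : (0 : ℝ) < p := by exact_mod_cast hp
  have hδ : (0 : ℝ) ≤ 2 * q / p := by positivity
  have hg1 : ∀ e, -1 ≤ g e ∧ g e ≤ 1 := fun e => by
    have := abs_le.mp (hg e); constructor <;> linarith
  have hdegR : ∀ v, ((univ.filter fun e => s e = v).card : ℝ) +
      ((univ.filter fun e => t e = v).card : ℝ) = 3 := fun v => by exact_mod_cast hdeg v
  obtain ⟨y, hy, hyb⟩ := fin_round s t (fun _ => 0) (fun _ => 1)
    (fun v => ((univ.filter fun e => s e = v).card : ℤ) - if b v = 1 then 1 else 2)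
    (fun e => (1 + g e) / 2) (fun e => by have := hg1 e; push_cast; linarith)
    (fun e => by have := hg1 e; push_cast; linarith) (fun v => by
      have h1 := hbd v
      have h2 := hdegR v
      unfold bd at h1 ⊢
      simp only [← sum_div, sum_add_distrib, sum_const, nsmul_eq_mul, mul_one]
      rcases hb v with h | h
      · rw [if_pos h]; push_cast; linarith
      · rw [if_neg (by rw [h]; norm_num)]; push_cast; linarith)
  have hc : (1 - 2 * q / p : ℝ) * (p / 2) = p / 2 - q := by field_simp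
  have hcp : (0 : ℝ) ≤ p / 2 := by positivity
  have hgc : ∀ e, -(p / 2 - q) ≤ g e * (p / 2) ∧ g e * (p / 2) ≤ p / 2 - q := fun e => by
    have h := abs_le.mp (hg e)
    have h1 := mul_le_mul_of_nonneg_right h.1 hcp
    have h2 := mul_le_mul_of_nonneg_right h.2 hcp
    constructor <;> linarith
  have hy' : ∀ e, y e = 0 ∨ y e = 1 := fun e => by have := hy e; omega
  obtain ⟨f, hf, hfb⟩ := fin_round s t (fun e => if y e = 1 then q else -(p - q))
    (fun e => if y e = 1 then p - q else -q) (fun _ => 0)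
    (fun e => (2 * y e - 1 - g e) * (p / 2))
    (fun e => by
      have := hgc e
      rcases hy' e with h | h <;> simp only [h] <;> push_cast <;> nlinarith)
    (fun e => by
      have := hgc e
      rcases hy' e with h | h <;> simp only [h] <;> push_cast <;> nlinarith)
    (fun v => by
      have h1 := hbd v
      have h2 := hdegR v
      have h3 : ∑ e with s e = v, (y e : ℝ) - ∑ e with t e = v, (y e : ℝ) =
          ((univ.filter fun e => s e = v).card : ℝ) - if b v = 1 then 1 else 2 := by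
        exact_mod_cast hyb v
      unfold bd at h1 ⊢
      simp only [← sum_mul, sum_sub_distrib, ← mul_sum, sum_const, nsmul_eq_mul, mul_one]
      rw [← sub_mul, Int.cast_zero]
      refine mul_eq_zero_of_left ?_ _
      rcases hb v with h | h
      · rw [if_pos h] at h3; linarith
      · rw [if_neg (by rw [h]; norm_num)] at h3; linarith)
  refine ⟨f, fun e => ?_, fun v => by have := hfb v; linarith⟩
  have h := hf e
  by_cases h1 : y e = 1
  · simp only [h1, if_true] at h
    rw [abs_of_nonneg (by omega)]; exact h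
  · simp only [h1, if_false] at h
    rw [abs_of_nonpos (by omega)]; omega

theorem final2_of : Model3Stmt → Final2Stmt := by
  intro hM k p q hkpq
  have hp : 0 < p := by
    rcases p.eq_zero_or_pos with rfl | h
    · simp at hkpq
    · exact h
  have hk : 4 < k := by
    by_contra h
    have : p * k ≤ p * 4 := Nat.mul_le_mul_left _ (by omega)
    omega
  have hp' : (0 : ℝ) < p := by exact_mod_cast hp
  have hk' : (0 : ℝ) < k := by exact_mod_cast (by omega : 0 < k)
  have hR : (4 * k * q + 4 * p : ℝ) < p * k := by exact_mod_cast hkpq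
  obtain ⟨K, hkK, hK⟩ := hM k (1 / 2 - 2 / k - 2 * q / p) (by omega) (by
    have : (1 / 2 - 2 / k - 2 * q / p : ℝ) = (p * k - (4 * k * q + 4 * p)) / (2 * p * k) := by
      field_simp; ring
    rw [this]
    exact div_pos (by linarith) (by positivity))
  refine ⟨K + 1, fun V E _ _ _ s t cyc hdeg hcyc hgirth hcon => ?_⟩
  have : DecidableEq E := Classical.decEq E
  have hcon' : ∀ Y, cyc Y → cyc Yᶜ → k ≤ cut s t Y := hcon
  have hac : ∀ Y : Finset V, Y.Nonempty → ¬cyc Y → Y.card + 2 ≤ cut s t Y := by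
    intro Y hY hc
    have h1 := fin_degsum s t hdeg Y
    have h2 : ¬Y.card ≤ (univ.filter fun e => s e ∈ Y ∧ t e ∈ Y).card :=
      fun h => hc ((hcyc Y).mpr (fin_forest s t Y hY h))
    omega
  have hmin : ∀ Y : Finset V, Y.Nonempty → Yᶜ.Nonempty →
      Y.card + 2 ≤ cut s t Y ∨ Yᶜ.card + 2 ≤ cut s t Y ∨ k ≤ cut s t Y := by
    intro Y h1 h2
    by_cases h3 : cyc Y
    · by_cases h4 : cyc Yᶜ
      · exact Or.inr (Or.inr (hcon' Y h3 h4))
      · exact Or.inr (Or.inl (cut_compl s t Y ▸ hac _ h2 h4))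
    · exact Or.inl (hac Y h1 h3)
  have hsmall : ∀ Y : Finset V, Y.Nonempty → Y.card ≤ K → Y.card + 2 ≤ cut s t Y :=
    fun Y h1 h2 => hac Y h1 fun h => by have := hgirth Y h; omega
  have hloop : ∀ e, s e ≠ t e := by
    intro e he
    have h1 := hsmall {s e} (singleton_nonempty _) (by rw [card_singleton]; omega)
    have h2 := fin_degsum s t hdeg {s e}
    have h3 : 0 < (univ.filter fun e' => s e' ∈ ({s e} : Finset V) ∧
        t e' ∈ ({s e} : Finset V)).card := card_pos.mpr ⟨e, by simp [he]⟩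
    rw [card_singleton] at h1 h2
    omega
  have h3 : ∀ Y : Finset V, cut s t Y ≠ 0 → 3 ≤ cut s t Y := by
    intro Y h
    obtain ⟨e, he⟩ := card_pos.mp (Nat.pos_of_ne_zero h)
    have he' := (mem_filter.mp he).2
    have h1 : Y.Nonempty := by
      by_cases h1 : s e ∈ Y
      · exact ⟨_, h1⟩
      · exact ⟨t e, by tauto⟩
    have h2 : Yᶜ.Nonempty := by
      by_cases h1 : s e ∈ Y
      · exact ⟨t e, mem_compl.mpr (by tauto)⟩
      · exact ⟨_, mem_compl.mpr h1⟩
    have := hmin Y h1 h2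
    have := card_pos.mpr h1
    have := card_pos.mpr h2
    omega
  obtain ⟨n, m, hm, hm', hc, hg⟩ := fin_model s t hdeg hloop h3
  obtain ⟨b, gC, gM, hb, hgM, hr, hbd⟩ := hK V n m hm
    (fin_inj n m hm hm' K fun Y h1 h2 => by
      have := hsmall Y h1 h2
      have := hc Y
      omega)
    (fun Y h1 => by
      rcases Y.eq_empty_or_nonempty with rfl | h2
      · simp
      · have := hsmall Y h2 h1
        have := hc Y
        omega)
    (fun Y h1 h2 => by
      have := hmin Y (card_pos.mp (by omega)) (card_pos.mp (by omega))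
      have := hc Y
      omega)
  obtain ⟨g, hg1, hg2⟩ := hg gC gM _ hgM hr
  exact fin_flow2 s t p q hp hdeg g b hb (fun e => (hg1 e).trans (le_of_eq (by ring)))
    fun v => (hg2 v).trans (hbd v)

theorem model_of_model3 : Model3Stmt → ModelStmt := by
  intro hM δ hδ
  obtain ⟨K, hkK, hK⟩ := hM (⌈4 / δ⌉₊ + 1) (δ / 2) (by omega) (by positivity)
  refine ⟨K, fun V _ _ n m hm hI h1 h2 => ?_⟩
  obtain ⟨b, gC, gM, hb, hgM, hr, hbd⟩ := hK V n m hm hI h1
    fun Y h3 h4 => hkK.trans (h2 Y h3 h4)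
  have h5 : (2 : ℝ) / ((⌈4 / δ⌉₊ + 1 : ℕ) : ℝ) ≤ δ / 2 := by
    have h6 := Nat.le_ceil (4 / δ)
    rw [div_le_iff₀ hδ] at h6
    rw [div_le_iff₀ (by positivity)]
    push_cast
    nlinarith
  exact ⟨b, gC, gM, hb, hgM, fun v => ⟨by linarith [(hr v).1], by linarith [(hr v).2]⟩, hbd⟩

end Pool.Agent.Lib.MP_c8786f_co.W5
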