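import Pool.Agent.Lib.MP_c8786f_co.W5.Defs
import Pool.Agent.Shared.HoffmanCirc

/-!
Weak five-flow theorem, final step, part A: rounding, forests, girth in the model.
-/

namespace Pool.Agent.Lib.MP_c8786f_co.W5

open Finset

set_option linter.unusedSectionVars false

section Graph

variable {V E : Type} [Fintype V] [DecidableEq V] [Fintype E]

lemma fin_sum_bd (s t : E → V) (z : E → ℝ) (X : Finset V) :
    ∑ v ∈ X, bd s t z v =
      ∑ e with s e ∈ X ∧ t e ∉ X, z e - ∑ e with t e ∈ X ∧ s e ∉ X, z e := by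
  unfold bd
  simp only [sum_filter]
  rw [sum_sub_distrib, sum_comm, sum_comm (s := X), ← sum_sub_distrib, ← sum_sub_distrib]
  refine sum_congr rfl fun e _ => ?_
  simp only [sum_ite_eq]
  by_cases h1 : s e ∈ X <;> by_cases h2 : t e ∈ X <;> simp [h1, h2]

/-- rounding a real flow with integer boundary -/
lemma fin_round (s t : E → V) (l u : E → ℤ) (b : V → ℤ) (z : E → ℝ)
    (hl : ∀ e, (l e : ℝ) ≤ z e) (hu : ∀ e, z e ≤ u e) (hb : ∀ v, bd s t z v = b v) :
    ∃ f : E → ℤ, (∀ e, l e ≤ f e ∧ f e ≤ u e) ∧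
      ∀ v, ∑ e with s e = v, f e - ∑ e with t e = v, f e = b v := by
  refine Pool.Agent.Shared.HoffmanCirc.hoffman s t l u b ?_ (fun e => ?_) (fun X => ?_)
  · have h := fin_sum_bd s t z univ
    simp only [hb, mem_univ, not_true_eq_false, and_false, filter_false, sum_empty,
      sub_zero] at h
    exact_mod_cast h
  · exact_mod_cast (hl e).trans (hu e)
  · have h := fin_sum_bd s t z X
    simp only [hb] at h
    have h1 : ∑ e with s e ∈ X ∧ t e ∉ X, z e ≤ ∑ e with s e ∈ X ∧ t e ∉ X, (u e : ℝ) :=
      sum_le_sum fun e _ => hu e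
    have h2 : ∑ e with t e ∈ X ∧ s e ∉ X, (l e : ℝ) ≤ ∑ e with t e ∈ X ∧ s e ∉ X, z e :=
      sum_le_sum fun e _ => hl e
    have h3 : ∑ v ∈ X, (b v : ℝ) ≤ ∑ e with s e ∈ X ∧ t e ∉ X, (u e : ℝ) -
        ∑ e with t e ∈ X ∧ s e ∉ X, (l e : ℝ) := by linarith
    exact_mod_cast h3

/-- from a small flow with boundary of modulus one to an integer circulation -/
lemma fin_flow (s t : E → V) (q : ℕ)
    (hdeg : ∀ v, (univ.filter fun e => s e = v).card + (univ.filter fun e => t e = v).card = 3)
    (g : E → ℝ) (b : V → ℝ) (hb : ∀ v, b v = 1 ∨ b v = -1)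
    (hg : ∀ e, |g e| ≤ 1 / 2 + 1 / (2 * (4 * q + 1))) (hbd : ∀ v, bd s t g v = b v) :
    ∃ f : E → ℤ, (∀ e, (q : ℤ) ≤ |f e| ∧ |f e| ≤ 3 * q + 1) ∧
      ∀ v, ∑ e ∈ univ.filter (fun e => s e = v), f e =
        ∑ e ∈ univ.filter (fun e => t e = v), f e := by
  classical
  have hq : (0 : ℝ) ≤ q := Nat.cast_nonneg q
  have hδ : (1 : ℝ) / (2 * (4 * q + 1)) ≤ 1 / 2 :=
    one_div_le_one_div_of_le (by norm_num) (by linarith)
  have hg1 : ∀ e, -1 ≤ g e ∧ g e ≤ 1 := fun e => by
    have := abs_le.mp (hg e); constructor <;> linarith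
  have hdegR : ∀ v, ((univ.filter fun e => s e = v).card : ℝ) +
      ((univ.filter fun e => t e = v).card : ℝ) = 3 := fun v => by exact_mod_cast hdeg v
  obtain ⟨y, hy, hyb⟩ := fin_round s t (fun _ => 0) (fun _ => 1)
    (fun v => ((univ.filter fun e => s e = v).card : ℤ) - if b v = 1 then 1 else 2)
    (fun e => (1 + g e) / 2) (fun e => by have := hg1 e; push_cast; linarith)
    (fun e => by have := hg1 e; push_cast; linarith) (fun v => by
      have h1 := hbd v
      have h2 := hdegR v
      unfold bd at h1 ⊢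
      simp only [← sum_div, sum_add_distrib, sum_const, nsmul_eq_mul, mul_one]
      rcases hb v with h | h
      · rw [if_pos h]; push_cast; linarith
      · rw [if_neg (by rw [h]; norm_num)]; push_cast; linarith)
  have hc : (1 : ℝ) / (2 * (4 * q + 1)) * ((4 * q + 1) / 2) = 1 / 4 := by field_simp; ring
  have hcp : (0 : ℝ) ≤ (4 * q + 1) / 2 := by positivity
  have hgc : ∀ e, -(q + 1 / 2) ≤ g e * ((4 * q + 1) / 2) ∧
      g e * ((4 * q + 1) / 2) ≤ q + 1 / 2 := fun e => by
    have h := abs_le.mp (hg e)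
    have h1 := mul_le_mul_of_nonneg_right h.1 hcp
    have h2 := mul_le_mul_of_nonneg_right h.2 hcp
    constructor <;> nlinarith
  have hy' : ∀ e, y e = 0 ∨ y e = 1 := fun e => by have := hy e; omega
  obtain ⟨f, hf, hfb⟩ := fin_round s t (fun e => if y e = 1 then q else -(3 * q + 1))
    (fun e => if y e = 1 then 3 * q + 1 else -q) (fun _ => 0)
    (fun e => (2 * y e - 1 - g e) * ((4 * q + 1) / 2))
    (fun e => by
      have := hgc e
      rcases hy' e with h | h <;> simp only [h] <;> push_cast <;> nlinarith)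
    (fun e => by
      have := hgc e
      rcases hy' e with h | h <;> simp only [h] <;> push_cast <;> nlinarith)
    (fun v => by
      have h1 := hbd v
      have h2 := hdegR v
      have h3 : ∑ e with s e = v, (y e : ℝ) - ∑ e with t e = v, (y e : ℝ) =
          ((univ.filter fun e => s e = v).card : ℝ) - if b v = 1 then 1 else 2 := by
        exact_mod_cast hyb v
      unfold bd at h1 ⊢
      simp only [← sum_mul, sum_sub_distrib, ← mul_sum, sum_const, nsmul_eq_mul, mul_one]
      rw [← sub_mul, Int.cast_zero]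
      refine mul_eq_zero_of_left ?_ _
      rcases hb v with h | h
      · rw [if_pos h] at h3; linarith
      · rw [if_neg (by rw [h]; norm_num)] at h3; linarith)
  refine ⟨f, fun e => ?_, fun v => by have := hfb v; linarith⟩
  have h := hf e
  by_cases h1 : y e = 1
  · simp only [h1, if_true] at h
    rw [abs_of_nonneg (by omega)]; exact h
  · simp only [h1, if_false] at h
    rw [abs_of_nonpos (by omega)]; omega

lemma fin_degsum (s t : E → V)
    (hdeg : ∀ v, (univ.filter fun e => s e = v).card + (univ.filter fun e => t e = v).card = 3)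
    (Y : Finset V) :
    3 * Y.card = 2 * (univ.filter fun e => s e ∈ Y ∧ t e ∈ Y).card + cut s t Y := by
  have h1 : 3 * Y.card = ∑ v ∈ Y,
      ((univ.filter fun e => s e = v).card + (univ.filter fun e => t e = v).card) := by
    simp [hdeg, mul_comm]
  rw [h1]
  unfold cut
  simp only [card_filter]
  rw [sum_add_distrib, sum_comm, sum_comm (s := Y), ← sum_add_distrib, mul_sum,
    ← sum_add_distrib]
  refine sum_congr rfl fun e _ => ?_
  simp only [sum_ite_eq]
  by_cases h1 : s e ∈ Y <;> by_cases h2 : t e ∈ Y <;> simp [h1, h2]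

/-- many edges inside a set contain an even subgraph -/
lemma fin_forest (s t : E → V) (Y : Finset V) (hY : Y.Nonempty)
    (h : Y.card ≤ (univ.filter fun e => s e ∈ Y ∧ t e ∈ Y).card) :
    ∃ C : Finset E, C.Nonempty ∧ (∀ e ∈ C, s e ∈ Y ∧ t e ∈ Y) ∧
      ∀ v, Even ((C.filter fun e => s e = v).card + (C.filter fun e => t e = v).card) := by
  classical
  obtain ⟨y, hy⟩ := hY
  set I := univ.filter fun e => s e ∈ Y ∧ t e ∈ Y with hI
  let a : E → V → ZMod 2 := fun e v => (if s e = v then 1 else 0) + if t e = v then 1 else 0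
  have hnot : ¬ LinearIndependent (ZMod 2) (fun (e : I) (v : Y.erase y) => a e v) := by
    intro hli
    have := hli.fintype_card_le_finrank
    rw [Module.finrank_fintype_fun_eq_card, Fintype.card_coe, Fintype.card_coe,
      card_erase_of_mem hy] at this
    have := card_pos.mpr ⟨y, hy⟩
    omega
  obtain ⟨g, hg, e0, he0⟩ := Fintype.not_linearIndependent_iff.mp hnot
  have z2 : ∀ x : ZMod 2, x = 0 ∨ x = 1 := by decide
  let C : Finset E := (univ.filter fun e : I => g e = 1).map (Function.Embedding.subtype _)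
  have hCI : ∀ e ∈ C, s e ∈ Y ∧ t e ∈ Y := by
    intro e he
    obtain ⟨e', -, rfl⟩ := mem_map.mp he
    exact (mem_filter.mp e'.2).2
  have hd : ∀ v ∈ Y.erase y, ∑ e ∈ C, a e v = 0 := by
    intro v hv
    have h1 := congrFun hg ⟨v, hv⟩
    simp only [Finset.sum_apply, Pi.smul_apply, smul_eq_mul, Pi.zero_apply] at h1
    rw [sum_map, sum_filter]
    refine Eq.trans (sum_congr rfl fun e _ => ?_) h1
    rcases z2 (g e) with h2 | h2 <;> simp [h2]
  have hout : ∀ v, v ∉ Y → ∑ e ∈ C, a e v = 0 := by
    intro v hv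
    refine sum_eq_zero fun e he => ?_
    have h1 : s e ≠ v := fun h => hv (h ▸ (hCI e he).1)
    have h2 : t e ≠ v := fun h => hv (h ▸ (hCI e he).2)
    simp [a, h1, h2]
  have htot : ∑ v ∈ Y, ∑ e ∈ C, a e v = 0 := by
    rw [sum_comm]
    refine sum_eq_zero fun e he => ?_
    simp only [a, sum_add_distrib, sum_ite_eq, (hCI e he).1, (hCI e he).2, if_true]
    decide
  have hall : ∀ v, ∑ e ∈ C, a e v = 0 := by
    intro v
    by_cases h1 : v ∈ Y
    · by_cases h2 : v = y
      · rw [← add_sum_erase _ _ hy, sum_eq_zero hd, add_zero] at htot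
        rw [h2]; exact htot
      · exact hd v (mem_erase.mpr ⟨h2, h1⟩)
    · exact hout v h1
  refine ⟨C, ⟨e0, mem_map.mpr ⟨e0, mem_filter.mpr ⟨mem_univ _, (z2 _).resolve_left he0⟩, rfl⟩⟩,
    hCI, fun v => ?_⟩
  rw [← ZMod.natCast_eq_zero_iff_even, ← hall v]
  simp only [a, sum_add_distrib, card_filter]
  push_cast
  rfl

end Graph

section Model

variable {V : Type} [Fintype V] [DecidableEq V]

lemma fin_inv_inv (a : Fin 3) : inv (inv a) = a := by fin_cases a <;> rfl

lemma fin_hcut_le (n : Equiv.Perm V) (m : V → V) (Y : Finset V)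
    (h : ∀ y ∈ Y, ∃ c c', c ≠ c' ∧ step n m c y ∈ Y ∧ step n m c' y ∈ Y) :
    hcut n m Y ≤ Y.card := by
  unfold hcut
  refine card_le_card_of_injOn (fun q => q.1) (fun q hq => ?_) ?_
  · exact (mem_filter.mp (mem_coe.mp hq)).2.1
  · rintro ⟨y, a⟩ hq ⟨y', a'⟩ hq' hyy
    obtain rfl : y = y' := hyy
    have h1 := (mem_filter.mp (mem_coe.mp hq)).2
    have h2 := (mem_filter.mp (mem_coe.mp hq')).2
    obtain ⟨c, c', hc, h3, h4⟩ := h y h1.1
    have key : ∀ a a' c c' : Fin 3, c ≠ c' → a ≠ c → a ≠ c' → a' ≠ c → a' ≠ c' → a = a' := by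
      decide
    rw [key a a' c c' hc (fun e => h1.2 (e ▸ h3)) (fun e => h1.2 (e ▸ h4))
      (fun e => h2.2 (e ▸ h3)) (fun e => h2.2 (e ▸ h4))]

lemma fin_closed (n : Equiv.Perm V) (m : V → V) (hm : ∀ v, m (m v) = v) (hm' : ∀ v, m v ≠ v)
    (K : ℕ) (h : ∀ Y : Finset V, Y.Nonempty → Y.card ≤ K → Y.card < hcut n m Y) :
    ∀ (L : ℕ) (w : List (Fin 3)) (v : V), w.length = L → L ≤ K → Red w → act n m w v = v →
      w = [] := by
  intro L
  induction L using Nat.strong_induction_on with
  | _ L ih =>
  intro w v hL hK hw hv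
  by_contra hne
  have hpos : 0 < w.length := List.length_pos_of_ne_nil hne
  by_cases hc : w[w.length - 1] = inv w[0]
  · obtain ⟨a, u, rfl⟩ := List.exists_cons_of_ne_nil hne
    rcases List.eq_nil_or_concat u with rfl | ⟨u', c, rfl⟩
    · have h1 : a = inv a := by simpa using hc
      have h2 : a = 2 := by revert h1; fin_cases a <;> simp
      subst h2
      exact hm' v (by simpa using hv)
    · have h1 : c = inv a := by simpa using hc
      rw [List.concat_eq_append] at hw hv hL
      have h2 : act n m u' (step n m c v) = step n m c v := by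
        have h3 := congrArg (step n m (inv a)) hv
        rw [act_cons, step_inv n hm, act_append, ← h1] at h3
        simpa using h3
      have h4 : Red u' := (List.isChain_append.mp (List.IsChain.tail hw)).1
      have h5 := ih u'.length (by simp at hL; omega) u' _ rfl (by simp at hL; omega) h4 h2
      subst h5
      have h6 : a ≠ inv c := by simpa [Red] using hw
      exact h6 (by rw [h1, fin_inv_inv])
  · let x : ℕ → V := fun i => act n m (w.drop i) v
    have hx : ∀ i (hi : i < w.length), x i = step n m w[i] (x (i + 1)) := by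
      intro i hi
      simp only [x]
      rw [List.drop_eq_getElem_cons hi, act_cons]
    have hxL : x w.length = x 0 := by simp [x, hv]
    have hmem : ∀ i ≤ w.length, x i ∈ (range w.length).image x := by
      intro i hi
      rcases hi.lt_or_eq with hi | rfl
      · exact mem_image_of_mem _ (mem_range.mpr hi)
      · rw [hxL]; exact mem_image_of_mem _ (mem_range.mpr hpos)
    have hcard : ((range w.length).image x).card ≤ K :=
      card_image_le.trans (by rw [card_range]; omega)
    refine absurd (h _ ⟨_, hmem 0 (Nat.zero_le _)⟩ hcard) (not_lt.mpr (fin_hcut_le n m _ ?_))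
    intro y hy
    obtain ⟨i, hi, rfl⟩ := mem_image.mp hy
    rw [mem_range] at hi
    have hfw : step n m (inv w[i]) (x i) ∈ (range w.length).image x := by
      rw [hx i hi, step_inv n hm]; exact hmem _ hi
    rcases i with _ | j
    · refine ⟨_, _, hc, ?_, hfw⟩
      have h1 := hx (w.length - 1) (by omega)
      rw [Nat.sub_add_cancel hpos, hxL] at h1
      rw [← h1]; exact hmem _ (by omega)
    · refine ⟨w[j], _, List.isChain_iff_getElem.mp hw j hi, ?_, hfw⟩
      rw [← hx j (by omega)]; exact hmem _ (by omega)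

lemma fin_inj (n : Equiv.Perm V) (m : V → V) (hm : ∀ v, m (m v) = v) (hm' : ∀ v, m v ≠ v)
    (K : ℕ) (h : ∀ Y : Finset V, Y.Nonempty → Y.card ≤ K → Y.card < hcut n m Y) :
    Inj n m K := by
  intro v w w'
  induction w' generalizing w with
  | nil =>
    intro hw _ hl he
    exact fin_closed n m hm hm' K h _ w v rfl (by simp at hl; omega) hw he
  | cons a u ih =>
    intro hw hw' hl he
    have hu : Red u := List.IsChain.tail hw'
    by_cases hh : ∃ w0, w = a :: w0
    · obtain ⟨w0, rfl⟩ := hh
      have h1 := congrArg (step n m (inv a)) he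
      rw [act_cons, act_cons, step_inv n hm, step_inv n hm] at h1
      rw [ih w0 (List.IsChain.tail hw) hu (by simp at hl; omega) h1]
    · exfalso
      have h1 : Red (inv a :: w) := by
        rcases w with _ | ⟨c, w0⟩
        · simp [Red]
        · refine List.isChain_cons_cons.mpr ⟨fun e => hh ⟨w0, ?_⟩, hw⟩
          have := congrArg inv e
          rw [fin_inv_inv, fin_inv_inv] at this
          rw [this]
      have h2 := ih (inv a :: w) h1 hu (by simp at hl ⊢; omega)
        (by rw [act_cons, he, act_cons, step_inv n hm])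
      subst h2
      exact (List.isChain_cons_cons.mp hw').1 (fin_inv_inv a).symm

end Model

end Pool.Agent.Lib.MP_c8786f_co.W5
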