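import Pool.Agent.Lib.MP_c8786f_co.W5.Defs2
import Pool.Agent.Lib.MP_c8786f_co.Weak.Steiner

/-!
Parity repair by the covering theorem with Steiner vertices.
-/

namespace Pool.Agent.Lib.MP_c8786f_co.W5

open Finset

set_option linter.unusedSectionVars false

variable {V E : Type} [Fintype V] [DecidableEq V] [Fintype E]

lemma fix_bd (s t : E → V) (z : E → ℝ) (v : V) :
    bd s t z v = ∑ e, ((if s e = v then z e else 0) - if t e = v then z e else 0) := by
  simp only [bd, sum_filter, sum_sub_distrib]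

/-- the real form of the covering theorem with Steiner vertices -/
lemma fix_real (T : Finset V) (lam : ℕ) (hlam : 0 < lam) (s t : E → V)
    (hev : ∀ X, Even (Elec.cut s t X))
    (hc : ∀ X : Finset V, (∃ x ∈ T, x ∈ X) → (∃ x ∈ T, x ∉ X) → 2 * lam ≤ Elec.cut s t X)
    (r : V → ℝ) (hr : ∃ n : ℤ, ∑ v ∈ T, r v = 2 * n) :
    ∃ x : E → ℝ, (∀ e, |x e| ≤ 1 / lam) ∧ (∀ v, v ∉ T → bd s t x v = 0) ∧
      ∀ v ∈ T, ∃ n : ℤ, bd s t x v - r v = 2 * n := by
  classical
  rcases T.eq_empty_or_nonempty with rfl | ⟨v0, hv0⟩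
  · exact ⟨0, fun e => by simp, fun v _ => by simp [bd], by simp⟩
  obtain ⟨n0, hn0⟩ := hr
  have hl : (1 : ℝ) ≤ lam := by exact_mod_cast hlam
  have hcont : ∀ v, Continuous fun x : E → ℝ => bd s t x v := fun v => by
    unfold bd; fun_prop
  let S : Set (E → ℝ) := Set.Icc (fun _ => -(1 / lam)) (fun _ => 1 / lam) ∩
    ⋂ v ∈ {v | v ∉ T}, {x | bd s t x v = 0}
  have hS : IsCompact S := isCompact_Icc.inter_right
    (isClosed_biInter fun v _ => isClosed_eq (hcont v) continuous_const)
  have hmem : ∀ x, x ∈ S ↔ (∀ e, |x e| ≤ 1 / lam) ∧ ∀ v, v ∉ T → bd s t x v = 0 := fun x => by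
    simp only [S, Set.mem_inter_iff, Set.mem_Icc, Pi.le_def, Set.mem_iInter, Set.mem_ofPred_eq,
      abs_le, forall_and]
  let Φ : (E → ℝ) → ℝ := fun x => ∑ v ∈ T, (1 - Real.cos (Real.pi * (bd s t x v - r v)))
  have hΦ : Continuous Φ := continuous_finsetSum _ fun v _ => by
    have := hcont v
    fun_prop
  obtain ⟨x, hx, hmin⟩ := hS.exists_isMinOn
    ⟨0, (hmem _).mpr ⟨fun e => by simp, fun v _ => by simp [bd]⟩⟩ hΦ.continuousOn
  have hC : (1 : ℝ) ≤ T.card := by exact_mod_cast card_pos.mpr ⟨v0, hv0⟩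
  have key : ∀ a : ℕ, 0 < a → Φ x ≤ T.card * (4 * T.card) / a := by
    intro a ha
    have ha' : (1 : ℝ) ≤ a := by exact_mod_cast ha
    set N : ℝ := a * lam with hN
    have hN1 : a ≤ N := by rw [hN]; nlinarith
    have hN0 : 0 < N := by linarith
    let β : V → ℤ := fun v => ⌊N * r v⌋ +
      if v = v0 then 2 * n0 * (a * lam) - ∑ w ∈ T, ⌊N * r w⌋ else 0
    obtain ⟨y, h1, h2, h3⟩ := Weak.steiner_cover T lam a (2 * a * lam) (by positivity) le_rfl s t
      hev hc β ⟨n0, by
        simp only [β, sum_add_distrib, sum_ite_eq', if_pos hv0]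
        push_cast; ring⟩
    have hb : ∀ v, bd s t (fun e => (y e : ℝ) / N) v = (Elec.bd s t y v : ℝ) / N := fun v => by
      rw [Elec.bd_eq, bd]
      push_cast
      rw [sub_div, sum_div, sum_div]
    have hβ : ∀ v, |(β v : ℝ) - N * r v| ≤ T.card := by
      intro v
      have f1 := Int.floor_le (N * r v)
      have f2 := Int.lt_floor_add_one (N * r v)
      by_cases h : v = v0
      · have g1 : ∑ w ∈ T, (⌊N * r w⌋ : ℝ) ≤ ∑ w ∈ T, N * r w :=
          sum_le_sum fun w _ => Int.floor_le _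
        have g2 : ∑ w ∈ T, N * r w ≤ ∑ w ∈ T, ((⌊N * r w⌋ : ℝ) + 1) :=
          sum_le_sum fun w _ => (Int.lt_floor_add_one _).le
        rw [sum_add_distrib, sum_const, nsmul_eq_mul, mul_one] at g2
        rw [← mul_sum, hn0] at g1 g2
        simp only [β, if_pos h]
        push_cast
        rw [abs_le, ← hN]
        constructor <;> linarith
      · simp only [β, if_neg h, add_zero]
        rw [abs_le]
        constructor <;> linarith
    refine (hmin ((hmem fun e => (y e : ℝ) / N).mpr ⟨fun e => ?_, fun v hv => ?_⟩)).trans ?_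
    · have : |(y e : ℝ)| ≤ a := by exact_mod_cast h1 e
      rw [abs_div, abs_of_pos hN0, div_le_div_iff₀ hN0 (by linarith), hN]
      nlinarith
    · rw [hb, h2 v hv]; simp
    · rw [mul_div_assoc, ← nsmul_eq_mul]
      refine sum_le_card_nsmul _ _ _ fun v hv => ?_
      obtain ⟨j, hj⟩ := h3 v hv
      have hj' : (Elec.bd s t y v : ℝ) = β v + 2 * N * j := by
        have : ((Elec.bd s t y v - β v : ℤ) : ℝ) = ((2 * a * lam : ℕ) : ℤ) * j := by
          exact_mod_cast hj
        push_cast at this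
        rw [hN]; linarith
      have e1 : Real.pi * (bd s t (fun e => (y e : ℝ) / N) v - r v) =
          Real.pi * ((β v - N * r v) / N) + j * (2 * Real.pi) := by
        rw [hb, hj']; field_simp; ring
      rw [e1, Real.cos_add_int_mul_two_pi]
      have e2 := Real.abs_cos_sub_cos_le 0 (Real.pi * ((β v - N * r v) / N))
      rw [Real.cos_zero, zero_sub, abs_neg, abs_mul, abs_of_pos Real.pi_pos, abs_div,
        abs_of_pos hN0] at e2
      have e3 : |(β v : ℝ) - N * r v| / N ≤ T.card / a :=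
        div_le_div₀ (by linarith) (hβ v) (by linarith) hN1
      have e4 : 0 ≤ |(β v : ℝ) - N * r v| / N := by positivity
      rw [mul_div_assoc]
      nlinarith [le_abs_self (1 - Real.cos (Real.pi * ((β v - N * r v) / N))), Real.pi_le_four]
  have h0 : Φ x ≤ 0 := by
    by_contra hn
    push Not at hn
    obtain ⟨a, ha⟩ := exists_nat_gt (T.card * (4 * T.card) / Φ x)
    have ha0 : (0 : ℝ) < a := lt_of_le_of_lt (by positivity) ha
    have := key a (by exact_mod_cast ha0)
    rw [le_div_iff₀ ha0] at this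
    rw [div_lt_iff₀ hn] at ha
    linarith
  have hz := (sum_eq_zero_iff_of_nonneg fun v _ => sub_nonneg.mpr (Real.cos_le_one _)).mp
    (le_antisymm h0 (sum_nonneg fun v _ => sub_nonneg.mpr (Real.cos_le_one _)))
  refine ⟨x, ((hmem x).mp hx).1, ((hmem x).mp hx).2, fun v hv => ?_⟩
  obtain ⟨j, hj⟩ := (Real.cos_eq_one_iff _).mp (sub_eq_zero.mp (hz v hv)).symm
  refine ⟨j, mul_left_cancel₀ Real.pi_ne_zero ?_⟩
  rw [← hj]; ring

/-- a unit flow inside a connected piece -/
lemma fix_path [DecidableEq E] (s t : E → V) (F : Finset E) (c v : V)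
    (h : ∀ φ : V → ℝ, (∀ e ∈ F, φ (t e) = φ (s e)) → φ c = φ v) :
    ∃ ψ : E → ℝ, (∀ e, |ψ e| ≤ if e ∈ F then 1 else 0) ∧
      ∀ w, bd s t ψ w = (if c = w then 1 else 0) - if v = w then 1 else 0 := by
  obtain ⟨f, h1, h2⟩ := Pool.Agent.Shared.HoffmanCirc.hoffman s t
    (fun e => if e ∈ F then -1 else 0) (fun e => if e ∈ F then 1 else 0)
    (fun w => (if c = w then 1 else 0) - if v = w then 1 else 0) (by simp [sum_sub_distrib])
    (fun e => by split_ifs <;> simp) (fun X => by
      rw [sum_filter, sum_filter, ← sum_sub_distrib]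
      have p : ∀ e, (0 : ℤ) ≤ (if s e ∈ X ∧ t e ∉ X then if e ∈ F then 1 else 0 else 0) -
          if t e ∈ X ∧ s e ∉ X then if e ∈ F then -1 else 0 else 0 := fun e => by
        split_ifs <;> simp
      have p0 := sum_nonneg fun e (_ : e ∈ univ) => p e
      simp only [sum_sub_distrib (s := X), sum_ite_eq]
      by_cases hc : c ∈ X ∧ v ∉ X
      · obtain ⟨e, he, he'⟩ : ∃ e ∈ F, ¬(s e ∈ X ↔ t e ∈ X) := by
          by_contra hn
          push Not at hn
          have := h (fun w => if w ∈ X then 1 else 0) fun e he => by simp only [hn e he]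
          simp [hc.1, hc.2] at this
        refine le_trans ?_ (single_le_sum (fun e _ => p e) (mem_univ e))
        by_cases h1 : s e ∈ X <;> by_cases h2 : t e ∈ X <;> simp_all
      · refine le_trans ?_ p0
        by_cases h1 : c ∈ X <;> by_cases h2 : v ∈ X <;> simp_all)
  refine ⟨fun e => f e, fun e => ?_, fun w => ?_⟩
  · have := h1 e
    show |(f e : ℝ)| ≤ _
    split_ifs at this ⊢
    · exact_mod_cast abs_le.mpr this
    · simp [le_antisymm this.2 this.1]
  · have : ((∑ e with s e = w, f e - ∑ e with t e = w, f e : ℤ) : ℝ) =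
        (((if c = w then 1 else 0) - if v = w then 1 else 0 : ℤ) : ℝ) := by rw [h2 w]
    push_cast at this
    exact this

theorem fix : FixStmt := by
  intro V E T X _ _ _ _ _ _ _ s t β Λ own F α l0 l1 L1 K k n wt G hk hn i1 i2 m0 hm0 hm1 cl B hB
    r hr
  classical
  have hX : Nonempty X := by
    by_contra h
    rw [not_nonempty_iff] at h
    simp at hm1
  obtain ⟨x0⟩ := hX
  have hc : ∀ τ, ∃ v, v ∈ Λ τ := fun τ => by
    by_contra h
    push Not at h
    have := G.total τ x0
    rw [sum_eq_zero fun v _ => G.supp τ x0 v (h v)] at this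
    exact zero_ne_one this
  choose c hc using hc
  have cinj : Function.Injective c := fun τ τ' h => by
    by_contra hne
    exact disjoint_left.mp (G.disj τ τ' hne) (hc τ) (h ▸ hc τ')
  have mu0 : ∀ τ v, 0 ≤ mu β m0 τ v := fun τ v =>
    sum_nonneg fun x _ => mul_nonneg (hm0 x) (G.nonneg τ x v)
  have mu1 : ∀ τ, ∑ v, mu β m0 τ v = 1 := fun τ => by
    simp only [mu]
    rw [sum_comm]
    simp only [← mul_sum, G.total, mul_one, hm1]
  have hψ : ∀ τ, ∃ ψ : E → ℝ, (∀ e, |ψ e| ≤ if e ∈ F τ then 1 else 0) ∧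
      ∀ w, bd s t ψ w = (if c τ = w then 1 else 0) - mu β m0 τ w := by
    intro τ
    have k1 : ∀ v, ∃ ψ : E → ℝ, (∀ e, |ψ e| ≤ if e ∈ F τ then 1 else 0) ∧ ∀ w,
        mu β m0 τ v * bd s t ψ w =
          mu β m0 τ v * ((if c τ = w then 1 else 0) - if v = w then 1 else 0) := by
      intro v
      by_cases hv : v ∈ Λ τ
      · obtain ⟨ψ, h1, h2⟩ := fix_path s t (F τ) (c τ) v fun φ hφ => by
          have := G.lip0 τ φ 0 le_rfl (fun e he => by simp [hφ e he]) _ (hc τ) _ hv
          rw [mul_zero, abs_nonpos_iff] at this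
          linarith
        exact ⟨ψ, h1, fun w => by rw [h2]⟩
      · have : mu β m0 τ v = 0 := sum_eq_zero fun x _ => by rw [G.supp τ x v hv, mul_zero]
        exact ⟨0, fun e => by split_ifs <;> simp, fun w => by simp [this]⟩
    choose ψ h1 h2 using k1
    refine ⟨fun e => ∑ v, mu β m0 τ v * ψ v e, fun e => ?_, fun w => ?_⟩
    · refine (abs_sum_le_sum_abs _ _).trans ?_
      refine le_trans (sum_le_sum fun v _ => ?_)
        (le_of_eq (b := if e ∈ F τ then (1 : ℝ) else 0) (by rw [← sum_mul, mu1 τ, one_mul] :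
          ∑ v, mu β m0 τ v * (if e ∈ F τ then (1 : ℝ) else 0) = _))
      rw [abs_mul, abs_of_nonneg (mu0 τ v)]
      exact mul_le_mul_of_nonneg_left (h1 v e) (mu0 τ v)
    · have : bd s t (fun e => ∑ v, mu β m0 τ v * ψ v e) w = ∑ v, mu β m0 τ v * bd s t (ψ v) w := by
        simp only [bd, mul_sub, mul_sum, sum_sub_distrib]
        rw [sum_comm, sum_comm (s := univ.filter fun e => t e = w)]
      rw [this, sum_congr rfl fun v _ => h2 v w]
      simp only [mul_sub, sum_sub_distrib]
      rw [← sum_mul, mu1, one_mul]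
      simp
  choose ψ hψ1 hψ2 using hψ
  let s' : (Σ e : E, Fin (2 * n * wt e)) ⊕ T × Fin 2 → V ⊕ T :=
    Sum.elim (fun e => .inl (s e.1)) fun p => if p.1 ∈ B then .inr (cl p.1) else .inl (c p.1)
  let t' : (Σ e : E, Fin (2 * n * wt e)) ⊕ T × Fin 2 → V ⊕ T :=
    Sum.elim (fun e => .inl (t e.1)) fun p => .inl (c p.1)
  have hcut : ∀ Y : Finset (V ⊕ T), Elec.cut s' t' Y =
      2 * n * wcut s t wt (univ.filter fun v => Sum.inl v ∈ Y) +
        2 * (B.filter fun τ => ¬(Sum.inr (cl τ) ∈ Y ↔ Sum.inl (c τ) ∈ Y)).card := by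
    intro Y
    simp only [Elec.cut, Fintype.sum_sum_type, Fintype.sum_sigma, Fintype.sum_prod_type, s', t',
      Sum.elim_inl, Sum.elim_inr, sum_const, card_univ, Fintype.card_fin, smul_eq_mul, wcut]
    congr 1
    · rw [sum_filter, mul_sum]
      refine sum_congr rfl fun e _ => ?_
      simp only [Elec.chi, mem_filter, mem_univ, true_and]
      split_ifs <;> simp
    · rw [← mul_sum, card_filter, ← sum_subset (subset_univ B) fun τ _ h => by simp [Elec.chi, h]]
      congr 1
      refine sum_congr rfl fun τ h => ?_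
      simp only [Elec.chi, if_pos h, ite_not]
  have small : ∀ Y : Finset (V ⊕ T), (∃ x ∈ (B.image cl).map Function.Embedding.inr, x ∈ Y) →
      (univ.filter fun v => Sum.inl v ∈ Y).card ≤ K → 2 * (2 * n * k) ≤ Elec.cut s' t' Y := by
    rintro Y ⟨x, hx, hxY⟩ hY
    obtain ⟨A, hA, rfl⟩ := mem_map.mp hx
    obtain ⟨τ, hτ, rfl⟩ := mem_image.mp hA
    have h1 := i1 _ hY
    rw [hcut]
    by_cases h2 : k ≤ (univ.filter fun v => Sum.inl v ∈ Y).card
    · have : 2 * n * (2 * k) ≤ 2 * n * wcut s t wt (univ.filter fun v => Sum.inl v ∈ Y) :=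
        Nat.mul_le_mul_left _ (by omega)
      nlinarith
    · have h3 := hB τ hτ
      have h4 := card_filter_add_card_filter_not (s := B.filter fun τ' => cl τ' = cl τ)
        fun τ' => Sum.inl (c τ') ∈ Y
      have h5 : ((B.filter fun τ' => cl τ' = cl τ).filter fun τ' => Sum.inl (c τ') ∈ Y).card ≤
          (univ.filter fun v => Sum.inl v ∈ Y).card :=
        card_le_card_of_injOn c (fun τ' h => by simpa using (mem_filter.mp h).2) cinj.injOn
      have h6 : ((B.filter fun τ' => cl τ' = cl τ).filter fun τ' => ¬Sum.inl (c τ') ∈ Y).card ≤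
          (B.filter fun τ => ¬(Sum.inr (cl τ) ∈ Y ↔ Sum.inl (c τ) ∈ Y)).card := by
        refine card_le_card fun τ' h => ?_
        simp only [mem_filter] at h ⊢
        refine ⟨h.1.1, fun h' => h.2 (h'.mp ?_)⟩
        rw [h.1.2]; exact hxY
      have h7 : (2 * n + 1) * k = 2 * n * k + k := by ring
      omega
  obtain ⟨x, hx1, hx2, hx3⟩ := fix_real ((B.image cl).map Function.Embedding.inr) (2 * n * k)
    (by positivity) s' t' (fun Y => by
      rw [hcut, mul_assoc]; exact (even_two_mul _).add (even_two_mul _))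
    (fun Y p q => by
      by_cases h1 : (univ.filter fun v => Sum.inl v ∈ Y).card ≤ K
      · exact small Y p h1
      have e : (univ.filter fun v => Sum.inl v ∈ Yᶜ) = (univ.filter fun v => Sum.inl v ∈ Y)ᶜ := by
        ext v; simp
      by_cases h2 : (univ.filter fun v => Sum.inl v ∈ Y)ᶜ.card ≤ K
      · rw [← Elec.cut_compl]
        exact small _ (by simpa only [mem_compl] using q) (by rwa [e])
      have h3 := Nat.mul_le_mul_left (2 * n) (i2 _ (by omega) (not_le.mp h2).le)
      rw [hcut]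
      nlinarith)
    (Sum.elim (fun _ => 0) r) (by simpa using hr)
  have hn' : (1 : ℝ) ≤ n := by exact_mod_cast hn
  have hk' : (1 : ℝ) ≤ k := by exact_mod_cast hk
  let y : T → ℝ := fun τ => if τ ∈ B then ∑ j, x (.inr (τ, j)) else 0
  have hy : ∀ τ, |y τ| ≤ 1 / (n * k) := fun τ => by
    simp only [y]
    split_ifs
    · rw [Fin.sum_univ_two]
      have h1 := hx1 (.inr (τ, 0))
      have h2 := hx1 (.inr (τ, 1))
      have h3 : (1 : ℝ) / (n * k) = 1 / (2 * n * k : ℕ) + 1 / (2 * n * k : ℕ) := by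
        push_cast; field_simp; ring
      rw [h3]
      exact (abs_add_le _ _).trans (add_le_add h1 h2)
    · simp only [abs_zero]; positivity
  let z0 : E → ℝ := fun e => ∑ j, x (.inl ⟨e, j⟩)
  refine ⟨fun e => z0 e - ∑ τ, y τ * ψ τ e, fun e => ?_, y, fun τ => (hy τ).trans ?_,
    fun τ h => if_neg h, fun v => ?_, fun A hA => ?_⟩
  · refine (abs_sub _ _).trans (add_le_add ?_ ?_)
    · refine (abs_sum_le_sum_abs _ _).trans ((sum_le_card_nsmul _ _ _ fun j _ => hx1 _).trans ?_)
      rw [card_univ, Fintype.card_fin, nsmul_eq_mul]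
      push_cast
      refine le_of_eq ?_
      field_simp
    · refine (abs_sum_le_sum_abs _ _).trans ?_
      have h1 : ∑ τ, |y τ * ψ τ e| ≤ ∑ τ, if e ∈ F τ then (1 : ℝ) / (n * k) else 0 :=
        sum_le_sum fun τ _ => by
          rw [abs_mul]
          refine (mul_le_mul (hy τ) (hψ1 τ e) (abs_nonneg _) (by positivity)).trans ?_
          split_ifs <;> simp
      rw [← sum_filter, sum_const, nsmul_eq_mul] at h1
      have h2 : ((univ.filter fun τ => e ∈ F τ).card : ℝ) ≤ 2 := by exact_mod_cast G.twice e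
      refine h1.trans ?_
      rw [mul_one_div]
      exact div_le_div_of_nonneg_right h2 (by positivity)
  · rw [div_le_one (by positivity)]; nlinarith
  · have h1 := hx2 (.inl v) (by simp)
    have h2 : bd s' t' x (.inl v) = bd s t z0 v - ∑ τ, y τ * if c τ = v then 1 else 0 := by
      rw [fix_bd, fix_bd, Fintype.sum_sum_type, Fintype.sum_sigma, Fintype.sum_prod_type,
        sub_eq_add_neg (∑ e, _), ← sum_neg_distrib]
      congr 1
      · refine sum_congr rfl fun e _ => ?_
        by_cases a1 : s e = v <;> by_cases a2 : t e = v <;> simp [s', t', z0, a1, a2]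
      · refine sum_congr rfl fun τ _ => ?_
        by_cases a1 : τ ∈ B <;> by_cases a2 : c τ = v <;> simp [s', t', y, a1, a2, add_comm]
    have h3 : bd s t (fun e => z0 e - ∑ τ, y τ * ψ τ e) v =
        bd s t z0 v - ∑ τ, y τ * bd s t (ψ τ) v := by
      simp only [bd, mul_sub, mul_sum, sum_sub_distrib]
      rw [sum_comm (s := univ.filter fun e => s e = v), sum_comm (s := univ.filter fun e => t e = v)]
      ring
    rw [h3]
    simp only [hψ2, mul_sub, sum_sub_distrib]
    linarith
  · obtain ⟨j, hj⟩ := hx3 (.inr A) (mem_map_of_mem _ hA)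
    refine ⟨j, ?_⟩
    rw [← hj, fix_bd, Fintype.sum_sum_type, Fintype.sum_prod_type, sum_eq_zero (s := univ)
      (fun e _ => by simp [s', t']), zero_add, sum_filter,
      sum_subset (subset_univ B) fun τ _ h => by simp [y, h]]
    congr 1
    refine sum_congr rfl fun τ _ => ?_
    by_cases a1 : τ ∈ B <;> by_cases a2 : cl τ = A <;> simp [s', t', y, a1, a2]

end Pool.Agent.Lib.MP_c8786f_co.W5
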