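import Pool.Agent.Lib.MP_c8786f_co.W5.Defs3

/-!
Parity repair with a source.
-/

namespace Pool.Agent.Lib.MP_c8786f_co.W5

open Finset

lemma f3_sum_bd {V E : Type} [Fintype V] [DecidableEq V] [Fintype E] (s t : E → V) (z : E → ℝ) :
    ∑ v, bd s t z v = 0 := by
  simp only [bd, sum_sub_distrib]
  rw [sum_fiberwise_of_maps_to fun e _ => mem_univ (s e),
    sum_fiberwise_of_maps_to fun e _ => mem_univ (t e), sub_self]

lemma f3_bd_add {V E : Type} [DecidableEq V] [Fintype E] (s t : E → V) (z z' : E → ℝ) (v : V) :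
    bd s t (z + z') v = bd s t z v + bd s t z' v := by
  simp only [bd, Pi.add_apply, sum_add_distrib]
  ring

lemma f3_wcut {V E : Type} [DecidableEq V] [Fintype E] (s t : E → V) (wt : E → ℕ) (Y : Finset V) :
    wcut s t (fun e => 2 * wt e) Y = 2 * wcut s t wt Y := by
  simp only [wcut, mul_sum]

theorem fix3_of (hF : FixStmt) (hR : RouteStmt) : Fix3Stmt := by
  intro L1 A' k n K0 Φ ξ hk hn hξ
  have k0 : (1 : ℝ) ≤ k := by exact_mod_cast hk
  have n0 : (1 : ℝ) ≤ n := by exact_mod_cast hn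
  obtain ⟨K, hK⟩ := hR L1 A' Φ (1 / (2 * (n * k))) ξ (by positivity) hξ
  refine ⟨max K (K0 + 1), ?_⟩
  intro V E T X _ _ _ _ _ _ _ s t β Λ own F α l0 l1 wt hG h1 h2 m0 hm0 hm1 σ hσ hΦ cl B hJ hB r hr
  obtain ⟨z1, y1, hz1, hy1, hy1B, hbd1⟩ := hK V E T X s t β Λ own F α l0 l1 hG
    (fun Y hY => (h1 Y (hY.trans (le_max_left _ _))).1) m0 hm0 hm1 B hB σ hσ hΦ
  have hfix := hF V E T X s t β Λ own F α l0 l1 L1 (K0 + 1) (2 * k) n (fun e => 2 * wt e) hG
    (by omega) hn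
    (fun Y hY => by
      rw [f3_wcut]; exact Nat.mul_le_mul_left _ (h1 Y (hY.trans (le_max_right _ _))).2)
    (fun Y hY hY' => by rw [f3_wcut]; exact Nat.mul_le_mul_left _ (h2 Y hY hY')) m0 hm0 hm1
  have hmu : ∀ τ, ∑ v, mu β m0 τ v = 1 := fun τ => by
    simp only [mu]
    rw [sum_comm]
    simp only [← mul_sum, hG.total, mul_one, hm1]
  have hs : ∑ τ ∈ B, y1 τ = ∑ v, σ v := by
    have h3 := f3_sum_bd s t z1
    simp only [hbd1, sum_sub_distrib] at h3
    rw [sum_comm] at h3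
    simp only [← mul_sum, hmu, mul_one] at h3
    rw [sum_subset (subset_univ B) fun τ _ hτ => hy1B τ hτ]
    linarith
  obtain ⟨j, hj⟩ := hr
  obtain ⟨z0, hz0, y0, hy0, hy0B, hbd0, hpar⟩ := hfix cl B
    (fun τ hτ => le_trans (le_of_eq (by ring)) (hJ τ hτ))
    (fun A => r A - ∑ τ ∈ B with cl τ = A, y1 τ)
    ⟨j, by rw [sum_sub_distrib, sum_fiberwise_of_maps_to fun τ hτ => mem_image_of_mem cl hτ, hs, hj]⟩
  refine ⟨z0 + z1, fun e => ?_, y0 + y1, fun τ => ?_, fun τ hτ => ?_, fun v => ?_, fun A hA => ?_⟩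
  · have h3 := hz0 e
    have h4 := hz1 e
    have e1 : ((2 * wt e : ℕ) : ℝ) / (2 * k : ℕ) + 2 / (n * (2 * k : ℕ)) + (ξ + 2 * (1 / (2 * (n * k))))
        = wt e / k + 2 / (n * k) + ξ := by
      push_cast; field_simp; ring
    exact (abs_add_le _ _).trans ((add_le_add h3 h4).trans e1.le)
  · have h3 : 1 / (2 * ((n : ℝ) * k)) ≤ 1 := by
      rw [div_le_one (by positivity)]; nlinarith
    exact (abs_add_le _ _).trans (by linarith [hy0 τ, hy1 τ])
  · simp [hy0B τ hτ, hy1B τ hτ]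
  · rw [f3_bd_add, hbd0, hbd1]
    simp only [Pi.add_apply, add_mul, sum_add_distrib]
    ring
  · obtain ⟨i, hi⟩ := hpar A hA
    refine ⟨i, ?_⟩
    simp only [Pi.add_apply, sum_add_distrib]
    linarith

end Pool.Agent.Lib.MP_c8786f_co.W5
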