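import Pool.Agent.Lib.MP_c8786f_co.W5.DefsGL

/-!
Weak five-flow theorem: Cheeger inequality, bump functions and the two counting statements.
-/

namespace Pool.Agent.Lib.MP_c8786f_co.W5

open Finset

set_option linter.unusedSectionVars false

section Aux

variable {V E : Type} [Fintype V] [DecidableEq V] [Fintype E] {s t : E → V} {K : ℕ}

lemma gla_cut (s t : E → V) (Y : Finset V) :
    (cut s t Y : ℝ) = ∑ e, if ¬(s e ∈ Y ↔ t e ∈ Y) then (1 : ℝ) else 0 := by
  rw [cut, sum_boole]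

lemma gla_coarea (iso : ∀ Y : Finset V, Y.card ≤ K → Y.card ≤ cut s t Y) (n : ℕ) :
    ∀ h : V → ℝ, (∀ v, 0 ≤ h v) → (univ.filter fun v => h v ≠ 0).card ≤ K →
      (univ.filter fun v => h v ≠ 0).card = n → ∑ v, h v ≤ ∑ e, |h (t e) - h (s e)| := by
  induction n using Nat.strong_induction_on with
  | _ n ih =>
    intro h h0 hK hn
    set Y := univ.filter fun v => h v ≠ 0 with hY
    have hm : ∀ v, v ∈ Y ↔ h v ≠ 0 := fun v => by simp [hY]
    rcases Y.eq_empty_or_nonempty with e | e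
    · rw [sum_eq_zero fun v _ => by simpa [e] using hm v]
      exact sum_nonneg fun _ _ => abs_nonneg _
    obtain ⟨v0, h1, h2⟩ := Y.exists_min_image h e
    have h3 : (univ.filter fun v => h v - (if v ∈ Y then h v0 else 0) ≠ 0) ⊆ Y.erase v0 := by
      intro v hv
      simp only [mem_filter, mem_univ, true_and] at hv
      refine mem_erase.2 ⟨?_, ?_⟩
      · rintro rfl; simp [h1] at hv
      · by_contra h4; rw [if_neg h4, sub_zero] at hv; exact h4 ((hm v).2 hv)
    have h4 := (card_le_card h3).trans_lt (card_erase_lt_of_mem h1)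
    have h5 : ∀ v, 0 ≤ h v - if v ∈ Y then h v0 else 0 := fun v => by
      split_ifs with h5
      · linarith [h2 v h5]
      · linarith [h0 v]
    have h6 := ih _ (hn ▸ h4) _ h5 (h4.le.trans hK) rfl
    have h7 : h v0 * Y.card ≤ h v0 * cut s t Y :=
      mul_le_mul_of_nonneg_left (Nat.cast_le.2 (iso Y hK)) (h0 v0)
    rw [sum_sub_distrib, sum_ite_mem, univ_inter, sum_const, nsmul_eq_mul] at h6
    rw [gla_cut, mul_sum] at h7
    refine le_trans (by linarith) ((add_le_add h6 h7).trans' le_rfl |>.trans ?_)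
    rw [← sum_add_distrib]
    refine sum_le_sum fun e _ => ?_
    have a1 := h5 (s e); have a2 := h5 (t e); have a3 := h0 (s e); have a4 := h0 (t e)
    by_cases b1 : s e ∈ Y <;> by_cases b2 : t e ∈ Y <;> simp only [b1, b2] at a1 a2 ⊢
    · simp
    · have : h (t e) = 0 := by simpa [b2] using hm (t e)
      simp only [if_true] at a1
      simp [this, abs_of_nonneg a1, abs_of_nonneg a3, abs_sub_comm (h v0)]
    · have : h (s e) = 0 := by simpa [b1] using hm (s e)
      simp only [if_true] at a2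
      simp [this, abs_of_nonneg a2, abs_of_nonneg a4]
    · simp

lemma gla_deg
    (deg : ∀ v, (univ.filter fun e => s e = v).card + (univ.filter fun e => t e = v).card ≤ 4)
    {F : V → ℝ} (hF : ∀ v, 0 ≤ F v) : ∑ e, (F (s e) + F (t e)) ≤ 4 * ∑ v, F v := by
  have a : ∀ u : E → V, ∑ e, F (u e) = ∑ v, ((univ.filter fun e => u e = v).card : ℝ) * F v :=
    fun u => by
      rw [← sum_fiberwise univ u]
      refine sum_congr rfl fun v _ => ?_
      rw [sum_congr rfl fun e he => by rw [(mem_filter.1 he).2], sum_const, nsmul_eq_mul]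
  rw [sum_add_distrib, a, a, ← sum_add_distrib, mul_sum]
  refine sum_le_sum fun v _ => ?_
  rw [← add_mul]
  exact mul_le_mul_of_nonneg_right (by exact_mod_cast deg v) (hF v)

lemma gla_cheeger
    (deg : ∀ v, (univ.filter fun e => s e = v).card + (univ.filter fun e => t e = v).card ≤ 4)
    (iso : ∀ Y : Finset V, Y.card ≤ K → Y.card ≤ cut s t Y) (g : V → ℝ)
    (hK : (univ.filter fun v => g v ≠ 0).card ≤ K) :
    ∑ v, g v ^ 2 ≤ 8 * ∑ e, (g (t e) - g (s e)) ^ 2 := by
  have a := gla_coarea iso _ (fun v => g v ^ 2) (fun v => sq_nonneg _) (by simpa using hK) rfl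
  have b := gla_deg deg (F := fun v => g v ^ 2) fun v => sq_nonneg _
  have c : ∑ e, |g (t e) ^ 2 - g (s e) ^ 2|
      ≤ ∑ e, (4 * (g (t e) - g (s e)) ^ 2 + (g (s e) ^ 2 + g (t e) ^ 2) / 8) :=
    sum_le_sum fun e _ => abs_le.2
      ⟨by nlinarith [sq_nonneg (8 * (g (t e) - g (s e)) + (g (t e) + g (s e))),
          sq_nonneg (g (t e) - g (s e))],
        by nlinarith [sq_nonneg (8 * (g (t e) - g (s e)) - (g (t e) + g (s e))),
          sq_nonneg (g (t e) - g (s e))]⟩
  rw [sum_add_distrib, ← mul_sum, ← sum_div] at c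
  linarith

lemma gla_count
    (deg : ∀ v, (univ.filter fun e => s e = v).card + (univ.filter fun e => t e = v).card ≤ 4)
    (iso : ∀ Y : Finset V, Y.card ≤ K → Y.card ≤ cut s t Y) (g : V → ℝ)
    (hK : (univ.filter fun v => g v ≠ 0).card ≤ K) {B : Finset V} (hB : ∀ v ∈ B, g v = 1) :
    (B.card : ℝ) ≤ 8 * ∑ e, (g (t e) - g (s e)) ^ 2 := by
  refine le_trans ?_ (gla_cheeger deg iso g hK)
  refine le_trans ?_ (sum_le_sum_of_subset_of_nonneg (subset_univ B) fun _ _ _ => sq_nonneg _)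
  rw [sum_congr rfl fun v hv => by rw [hB v hv]]
  simp

lemma gla_bumps {H : Type} [NormedAddCommGroup H] (f : V → H) (C : Finset V) (g : V → V → ℝ)
    {l : ℝ} (hd : ∀ v, ∀ y ∈ C, ∀ y' ∈ C, g y v ≠ 0 → g y' v ≠ 0 → y = y')
    (hl : ∀ y ∈ C, ∀ u v, |g y u - g y v| ≤ l * ‖f u - f v‖) :
    ∑ y ∈ C, ∑ e, (g y (t e) - g y (s e)) ^ 2 ≤ 2 * l ^ 2 * ∑ e, ‖f (t e) - f (s e)‖ ^ 2 := by
  rw [sum_comm, mul_sum]
  refine sum_le_sum fun e _ => ?_
  have a : ∀ v, (C.filter fun y => g y v ≠ 0).card ≤ 1 := fun v =>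
    card_le_one.2 fun y hy y' hy' => hd v y (mem_filter.1 hy).1 y' (mem_filter.1 hy').1
      (mem_filter.1 hy).2 (mem_filter.1 hy').2
  set S := (C.filter fun y => g y (t e) ≠ 0) ∪ C.filter fun y => g y (s e) ≠ 0 with hS
  have b : S ⊆ C := union_subset (filter_subset _ _) (filter_subset _ _)
  have c : (S.card : ℝ) ≤ 2 := by
    exact_mod_cast (card_union_le _ _).trans (add_le_add (a _) (a _))
  rw [← sum_subset b fun y hy hy' => by
    simp only [hS, mem_union, mem_filter, hy, true_and, not_or, not_not] at hy'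
    simp [hy'.1, hy'.2]]
  refine (sum_le_card_nsmul _ _ ((l * ‖f (t e) - f (s e)‖) ^ 2) fun y hy => ?_).trans ?_
  · rw [← sq_abs]; exact pow_le_pow_left₀ (abs_nonneg _) (hl y (b hy) _ _) 2
  · rw [nsmul_eq_mul, mul_assoc, ← mul_pow]
    exact mul_le_mul_of_nonneg_right c (sq_nonneg _)

lemma gla_cap
    (deg : ∀ v, (univ.filter fun e => s e = v).card + (univ.filter fun e => t e = v).card ≤ 4)
    (iso : ∀ Y : Finset V, Y.card ≤ K → Y.card ≤ cut s t Y)
    (iso2 : ∀ Y : Finset V, K ≤ Y.card → K ≤ Yᶜ.card → K ≤ cut s t Y) {κ : ℕ} (hκ : κ ≤ K)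
    (g : V → ℝ) {B B' N : Finset V} (hB : ∀ v ∈ B, g v = 1) (hB' : ∀ v ∈ B', g v = 0)
    (h1 : κ ≤ B.card) (h2 : κ ≤ B'.card) (hN : ∀ v, v ∉ N → g v = 0 ∨ g v = 1)
    (h3 : 10 * N.card ≤ K) : (κ : ℝ) ≤ 8 * ∑ e, (g (t e) - g (s e)) ^ 2 := by
  by_cases c1 : (univ.filter fun v => g v ≠ 0).card ≤ K
  · exact (Nat.cast_le.2 h1).trans (gla_count deg iso g c1 hB)
  by_cases c2 : (univ.filter fun v => 1 - g v ≠ 0).card ≤ K
  · refine (Nat.cast_le.2 h2).trans ((gla_count deg iso (fun v => 1 - g v) c2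
      fun v hv => by simp [hB' v hv]).trans_eq ?_)
    congr 1
    exact sum_congr rfl fun e _ => by ring
  set Y := univ.filter fun v => g v = 0 with hY
  have hm : ∀ v, v ∈ Y ↔ g v = 0 := fun v => by simp [hY]
  have a1 : K ≤ Yᶜ.card := by rw [hY, compl_filter]; exact (not_le.1 c1).le
  have a2 : K ≤ Y.card + N.card := by
    refine (not_le.1 c2).le.trans ((card_le_card fun v hv => ?_).trans (card_union_le _ _))
    by_contra h
    rw [mem_union, not_or, hm] at h
    exact (mem_filter.1 hv).2 (by rw [(hN v h.2).resolve_left h.1, sub_self])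
  have a3 : K ≤ cut s t Y + N.card := by
    by_cases c3 : Y.card ≤ K
    · have := iso Y c3; omega
    · have := iso2 Y (by omega) a1; omega
  have a4 := gla_deg deg (F := fun v => if v ∈ N then 1 else 0) fun v => by positivity
  have a5 : (cut s t Y : ℝ) ≤ ∑ e, ((g (t e) - g (s e)) ^ 2
      + ((if s e ∈ N then (1 : ℝ) else 0) + if t e ∈ N then 1 else 0)) := by
    rw [gla_cut]
    refine sum_le_sum fun e _ => ?_
    have b0 := sq_nonneg (g (t e) - g (s e))
    by_cases b1 : s e ∈ N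
    · rw [if_pos b1]; split_ifs <;> linarith
    by_cases b2 : t e ∈ N
    · rw [if_pos b2]; split_ifs <;> linarith
    rcases hN _ b1 with b3 | b3 <;> rcases hN _ b2 with b4 | b4 <;> simp [hm, b1, b2, b3, b4]
  rw [sum_add_distrib] at a5
  simp only [sum_ite_mem, univ_inter, sum_const, nsmul_eq_mul, mul_one] at a4
  have a6 : (K : ℝ) ≤ cut s t Y + N.card := by exact_mod_cast a3
  have a7 : (10 * N.card : ℝ) ≤ K := by exact_mod_cast h3
  have a8 : (κ : ℝ) ≤ K := by exact_mod_cast hκ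
  have a9 : (0 : ℝ) ≤ K := by positivity
  linarith

end Aux

lemma gla_clamp (a b : ℝ) : |max 0 (min 1 a) - max 0 (min 1 b)| ≤ |a - b| :=
  ((abs_max_sub_max_le_max 0 _ 0 _).trans (max_le (by simp) (abs_min_sub_min_le_max 1 a 1 b))).trans
    (max_le (by simp) le_rfl)

lemma gla_lip {H : Type} [NormedAddCommGroup H] {l : ℝ} (hl : 0 ≤ l) (r : ℝ) (a b c : H) :
    |max 0 (min 1 ((r - ‖a - c‖) * l)) - max 0 (min 1 ((r - ‖b - c‖) * l))| ≤ l * ‖a - b‖ := by
  refine (gla_clamp _ _).trans ?_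
  rw [← sub_mul, abs_mul, abs_of_nonneg hl, mul_comm, sub_sub_sub_cancel_left, abs_sub_comm]
  exact mul_le_mul_of_nonneg_left
    ((abs_norm_sub_norm_le _ _).trans_eq (by rw [sub_sub_sub_cancel_right])) hl

lemma gla_ne {r x l : ℝ} (hl : 0 ≤ l) (h : max 0 (min 1 ((r - x) * l)) ≠ 0) : x < r := by
  by_contra h1
  exact h (max_eq_left ((min_le_right _ _).trans
    (mul_nonpos_of_nonpos_of_nonneg (by linarith) hl)))

lemma gla_tri {H : Type} [NormedAddCommGroup H] (a b c : H) : ‖b - c‖ ≤ ‖a - b‖ + ‖a - c‖ := by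
  rw [norm_sub_rev a b]; exact norm_sub_le_norm_sub_add_norm_sub b a c

theorem light : LightStmt := by
  intro V E H _ _ _ _ s t K κ τ En f deg iso hτ hκ hE
  set L := univ.filter fun v => (univ.filter fun v' => ‖f v' - f v‖ ≤ τ).card < κ with hL
  obtain ⟨Z, hZ, hM⟩ := exists_max_image
    (L.powerset.filter fun Z => ∀ z ∈ Z, ∀ z' ∈ Z, z ≠ z' → τ < ‖f z - f z'‖) card
    ⟨∅, by simp⟩
  obtain ⟨z1, z2⟩ := mem_filter.1 hZ
  rw [mem_powerset] at z1
  have z3 : ∀ z ∈ Z, (univ.filter fun v' => ‖f v' - f z‖ ≤ τ).card < κ := fun z hz =>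
    (mem_filter.1 (z1 hz)).2
  have a1 : L ⊆ Z.biUnion fun z => univ.filter fun v' => ‖f v' - f z‖ ≤ τ := by
    intro v hv
    by_contra h
    simp only [mem_biUnion, mem_filter, mem_univ, true_and, not_exists, not_and, not_le] at h
    have h1 : v ∉ Z := fun h1 => by simpa [hτ.not_gt] using h v h1
    have := hM (insert v Z) (mem_filter.2 ⟨mem_powerset.2 (insert_subset hv z1), ?_⟩)
    · rw [card_insert_of_notMem h1] at this; omega
    intro z hz z' hz' hne
    rcases mem_insert.1 hz with rfl | h2 <;> rcases mem_insert.1 hz' with rfl | h3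
    · exact absurd rfl hne
    · exact h z' h3
    · rw [norm_sub_rev]; exact h z h2
    · exact z2 z h2 z' h3 hne
  have a2 : L.card ≤ Z.card * κ :=
    (card_le_card a1).trans (card_biUnion_le_card_mul _ _ _ fun z hz => (z3 z hz).le)
  have l0 : 0 ≤ 2 / τ := by positivity
  have a3 := gla_bumps (s := s) (t := t) f Z
    (fun z v => max 0 (min 1 ((τ / 2 - ‖f v - f z‖) * (2 / τ)))) (l := 2 / τ)
    (fun v y hy y' hy' h1 h2 => by
      by_contra h
      linarith [z2 y hy y' hy' h, gla_ne l0 h1, gla_ne l0 h2, gla_tri (f v) (f y) (f y')])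
    fun y _ u v => gla_lip l0 _ _ _ _
  have a4 := card_nsmul_le_sum Z (fun z => 8 * ∑ e,
    (max 0 (min 1 ((τ / 2 - ‖f (t e) - f z‖) * (2 / τ)))
      - max 0 (min 1 ((τ / 2 - ‖f (s e) - f z‖) * (2 / τ)))) ^ 2) 1 fun z hz => by
    have := gla_count deg iso (fun v => max 0 (min 1 ((τ / 2 - ‖f v - f z‖) * (2 / τ))))
      (((card_le_card fun v hv => ?_).trans (z3 z hz).le).trans hκ) (B := {z}) fun v hv => ?_
    · simpa using this
    · exact mem_filter.2 ⟨mem_univ _, by linarith [gla_ne l0 (mem_filter.1 hv).2]⟩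
    · rw [mem_singleton.1 hv, sub_self, norm_zero, sub_zero,
        show τ / 2 * (2 / τ) = 1 by field_simp]
      simp
  rw [← mul_sum, nsmul_eq_mul, mul_one] at a4
  have a5 : (Z.card : ℝ) ≤ 8 * (2 * (2 / τ) ^ 2 * En) := by
    refine a4.trans (mul_le_mul_of_nonneg_left (a3.trans ?_) (by norm_num))
    gcongr
  calc (L.card : ℝ) ≤ Z.card * κ := by exact_mod_cast a2
    _ ≤ 8 * (2 * (2 / τ) ^ 2 * En) * κ := by gcongr
    _ = _ := by field_simp; ring

theorem heavy : HeavyStmt := by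
  intro V E H _ _ _ _ s t K κ τ En f U C deg iso iso2 hτ hκ1 hκ hE hC hsep hU h2
  have gap : ∀ y, ∃ r, y ∈ C → τ ≤ r ∧ r + τ / 3 ≤ 2 * τ ∧
      ∀ v, v ∉ U → ‖f v - f y‖ ≤ r ∨ r + τ / 3 ≤ ‖f v - f y‖ := fun y => by
    by_cases h : ∀ v, v ∉ U → ‖f v - f y‖ ≤ τ ∨ τ + τ / 3 ≤ ‖f v - f y‖
    · exact ⟨τ, fun _ => ⟨le_rfl, by linarith, h⟩⟩
    refine ⟨5 * τ / 3, fun hy => ⟨by linarith, by linarith, fun v' hv' => ?_⟩⟩
    push Not at h
    obtain ⟨v, hv, h3, h4⟩ := h
    by_contra h5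
    push Not at h5
    linarith [hU y hy v hv v' hv' (by linarith) (by linarith), gla_tri (f v) (f v') (f y)]
  choose r hr using gap
  have l0 : 0 ≤ 3 / τ := by positivity
  set g : V → V → ℝ := fun y v => max 0 (min 1 ((r y + τ / 3 - ‖f v - f y‖) * (3 / τ))) with hg
  have g1 : ∀ y v, ‖f v - f y‖ ≤ r y → g y v = 1 := fun y v h => by
    have : 1 ≤ (r y + τ / 3 - ‖f v - f y‖) * (3 / τ) := by
      rw [← mul_div_assoc, le_div_iff₀ hτ]; linarith
    simp only [hg, min_eq_left this, max_eq_right zero_le_one]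
  have g0 : ∀ y v, g y v ≠ 0 → ‖f v - f y‖ < r y + τ / 3 := fun y v h => gla_ne l0 h
  have hd : ∀ v, ∀ y ∈ C, ∀ y' ∈ C, g y v ≠ 0 → g y' v ≠ 0 → y = y' := fun v y hy y' hy' h3 h4 => by
    by_contra h
    linarith [hsep y hy y' hy' h, g0 y v h3, g0 y' v h4, gla_tri (f v) (f y) (f y'),
      (hr y hy).2.1, (hr y' hy').2.1]
  have a3 := gla_bumps (s := s) (t := t) f C g (l := 3 / τ) hd fun y _ u v => gla_lip l0 _ _ _ _
  have a4 : ∑ y ∈ C, (U.filter fun v => g y v ≠ 0).card ≤ U.card := by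
    rw [← card_biUnion fun y hy y' hy' h => disjoint_left.2 fun v h3 h4 =>
      h (hd v y hy y' hy' (mem_filter.1 h3).2 (mem_filter.1 h4).2)]
    exact card_le_card (biUnion_subset.2 fun y _ => filter_subset _ _)
  have k0 : (0 : ℝ) < κ := by exact_mod_cast hκ1
  have k1 : (0 : ℝ) < K := by exact_mod_cast hκ1.trans hκ
  have a5 := card_nsmul_le_sum C (fun y => 10 / (K : ℝ) * ((U.filter fun v => g y v ≠ 0).card : ℝ)
    + 8 / (κ : ℝ) * ∑ e, (g y (t e) - g y (s e)) ^ 2) 1 fun y hy => by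
    have b0 : 0 ≤ ∑ e, (g y (t e) - g y (s e)) ^ 2 := sum_nonneg fun _ _ => sq_nonneg _
    by_cases b1 : 10 * (U.filter fun v => g y v ≠ 0).card ≤ K
    · obtain ⟨y', hy', hne⟩ := exists_mem_ne h2 y
      have := gla_cap deg iso iso2 hκ (g y) (fun v hv => g1 y v ((mem_filter.1 hv).2.trans
        (hr y hy).1)) (fun v hv => ?_) (hC y hy) (hC y' hy') (fun v hv => ?_) b1
      · refine le_add_of_nonneg_of_le (by positivity) ?_
        rw [div_mul_eq_mul_div, le_div_iff₀ k0]; linarith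
      · by_contra h
        linarith [hsep y' hy' y hy hne, g0 y v h, (mem_filter.1 hv).2, gla_tri (f v) (f y') (f y),
          (hr y hy).2.1]
      · by_cases b2 : g y v = 0
        · exact Or.inl b2
        · refine Or.inr (g1 y v (((hr y hy).2.2 v fun h => hv (mem_filter.2 ⟨h, b2⟩)).resolve_right
            (g0 y v b2).not_ge))
    · refine le_add_of_le_of_nonneg ?_ (by positivity)
      rw [div_mul_eq_mul_div, le_div_iff₀ k1, one_mul]
      exact_mod_cast (not_le.1 b1).le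
  rw [sum_add_distrib, ← mul_sum, ← mul_sum, nsmul_eq_mul, mul_one, ← Nat.cast_sum] at a5
  refine a5.trans (add_le_add ?_ ?_)
  · rw [div_mul_eq_mul_div]; gcongr
  · calc _ ≤ 8 / (κ : ℝ) * (2 * (3 / τ) ^ 2 * En) := by
          refine mul_le_mul_of_nonneg_left (a3.trans ?_) (by positivity)
          gcongr
      _ = _ := by field_simp; ring

end Pool.Agent.Lib.MP_c8786f_co.W5
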