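import Pool.Agent.Lib.MP_c8786f_co.W5.Defs2
import Pool.Agent.Lib.MP_c8786f_co.W5.GLa

/-!
Five-flows at fixed cyclic connectivity: Cheeger inequality on a sparse set and heavy centres.
-/

namespace Pool.Agent.Lib.MP_c8786f_co.W5

open Finset

set_option linter.unusedSectionVars false

lemma gl2a_coarea {V E : Type} [Fintype V] [DecidableEq V] [Fintype E] {s t : E → V} {A : ℝ}
    {N : Finset V} (hA : 0 ≤ A) (iso : ∀ Y ⊆ N, (Y.card : ℝ) ≤ A * cut s t Y) (n : ℕ) :
    ∀ h : V → ℝ, (∀ v, 0 ≤ h v) → (univ.filter fun v => h v ≠ 0) ⊆ N →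
      (univ.filter fun v => h v ≠ 0).card = n → ∑ v, h v ≤ A * ∑ e, |h (t e) - h (s e)| := by
  induction n using Nat.strong_induction_on with
  | _ n ih =>
    intro h h0 hK hn
    set Y := univ.filter fun v => h v ≠ 0 with hY
    have hm : ∀ v, v ∈ Y ↔ h v ≠ 0 := fun v => by simp [hY]
    rcases Y.eq_empty_or_nonempty with e | e
    · rw [sum_eq_zero fun v _ => by simpa [e] using hm v]
      exact mul_nonneg hA (sum_nonneg fun _ _ => abs_nonneg _)
    obtain ⟨v0, h1, h2⟩ := Y.exists_min_image h e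
    have h3 : (univ.filter fun v => h v - (if v ∈ Y then h v0 else 0) ≠ 0) ⊆ Y.erase v0 := by
      intro v hv
      simp only [mem_filter, mem_univ, true_and] at hv
      refine mem_erase.2 ⟨?_, ?_⟩
      · rintro rfl; simp [h1] at hv
      · by_contra h4; rw [if_neg h4, sub_zero] at hv; exact h4 ((hm v).2 hv)
    have h4 := (card_le_card h3).trans_lt (card_erase_lt_of_mem h1)
    have h5 : ∀ v, 0 ≤ h v - if v ∈ Y then h v0 else 0 := fun v => by
      split_ifs with h5
      · linarith [h2 v h5]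
      · linarith [h0 v]
    have h6 := ih _ (hn ▸ h4) _ h5 ((h3.trans (erase_subset _ _)).trans hK) rfl
    have h7 : h v0 * Y.card ≤ A * (h v0 * cut s t Y) := by
      rw [mul_left_comm]; exact mul_le_mul_of_nonneg_left (iso Y hK) (h0 v0)
    rw [sum_sub_distrib, sum_ite_mem, univ_inter, sum_const, nsmul_eq_mul] at h6
    rw [gla_cut, mul_sum] at h7
    refine le_trans (by linarith) ((add_le_add h6 h7).trans' le_rfl |>.trans ?_)
    rw [← mul_add, ← sum_add_distrib]
    refine mul_le_mul_of_nonneg_left (sum_le_sum fun e _ => ?_) hA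
    have a1 := h5 (s e); have a2 := h5 (t e); have a3 := h0 (s e); have a4 := h0 (t e)
    by_cases b1 : s e ∈ Y <;> by_cases b2 : t e ∈ Y <;> simp only [b1, b2] at a1 a2 ⊢
    · simp
    · have : h (t e) = 0 := by simpa [b2] using hm (t e)
      simp only [if_true] at a1
      simp [this, abs_of_nonneg a1, abs_of_nonneg a3, abs_sub_comm (h v0)]
    · have : h (s e) = 0 := by simpa [b1] using hm (s e)
      simp only [if_true] at a2
      simp [this, abs_of_nonneg a2, abs_of_nonneg a4]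
    · simp

theorem cheeger : CheegerStmt := by
  intro V E _ _ _ s t A N g deg hA iso _ hN
  have a := gl2a_coarea hA iso _ (fun v => g v ^ 2) (fun v => sq_nonneg _) (fun v hv => by
    by_contra h; simp [hN v h] at hv) rfl
  have b := gla_deg deg (F := fun v => g v ^ 2) fun v => sq_nonneg _
  have c : ∑ e, A * |g (t e) ^ 2 - g (s e) ^ 2|
      ≤ ∑ e, (4 * A ^ 2 * (g (t e) - g (s e)) ^ 2 + (g (s e) ^ 2 + g (t e) ^ 2) / 8) :=
    sum_le_sum fun e _ => by
      rw [← abs_of_nonneg hA, ← abs_mul, sq_abs]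
      exact abs_le.2
        ⟨by nlinarith [sq_nonneg (8 * A * (g (t e) - g (s e)) + (g (t e) + g (s e))),
            sq_nonneg (g (t e) - g (s e))],
          by nlinarith [sq_nonneg (8 * A * (g (t e) - g (s e)) - (g (t e) + g (s e))),
            sq_nonneg (g (t e) - g (s e))]⟩
  rw [sum_add_distrib, ← mul_sum, ← mul_sum, ← sum_div] at c
  linarith

theorem heavy2 : Heavy2Stmt := by
  intro V E H _ _ _ _ s t K κ τ En f N C deg iso hτ hκ1 hK1 hE hC hsep hN
  have l0 : 0 ≤ 1 / τ := by positivity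
  set g : V → V → ℝ := fun y v => max 0 (min 1 ((2 * τ - ‖f v - f y‖) * (1 / τ))) with hg
  have g1 : ∀ y v, ‖f v - f y‖ ≤ τ → g y v = 1 := fun y v h => by
    have : 1 ≤ (2 * τ - ‖f v - f y‖) * (1 / τ) := by
      rw [← mul_div_assoc, le_div_iff₀ hτ]; linarith
    simp only [hg, min_eq_left this, max_eq_right zero_le_one]
  have g0 : ∀ y v, g y v ≠ 0 → ‖f v - f y‖ < 2 * τ := fun y v h => gla_ne l0 h
  have hd : ∀ v, ∀ y ∈ C, ∀ y' ∈ C, g y v ≠ 0 → g y' v ≠ 0 → y = y' := fun v y hy y' hy' h3 h4 => by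
    by_contra h
    linarith [hsep y hy y' hy' h, g0 y v h3, g0 y' v h4, gla_tri (f v) (f y) (f y')]
  have a3 := gla_bumps (s := s) (t := t) f C g (l := 1 / τ) hd fun y _ u v => gla_lip l0 _ _ _ _
  have a4 : ∑ y ∈ C, (univ.filter fun v => g y v ≠ 0).card ≤ N.card := by
    rw [← card_biUnion fun y hy y' hy' h => disjoint_left.2 fun v h3 h4 =>
      h (hd v y hy y' hy' (mem_filter.1 h3).2 (mem_filter.1 h4).2)]
    exact card_le_card (biUnion_subset.2 fun y hy v hv => hN y hy v (g0 y v (mem_filter.1 hv).2))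
  have k0 : (0 : ℝ) < κ := by exact_mod_cast hκ1
  have k1 : (0 : ℝ) < K := by exact_mod_cast hK1
  have a5 := card_nsmul_le_sum C (fun y => 1 / (K : ℝ) * ((univ.filter fun v => g y v ≠ 0).card : ℝ)
    + 8 / (κ : ℝ) * ∑ e, (g y (t e) - g y (s e)) ^ 2) 1 fun y hy => by
    have b0 : 0 ≤ ∑ e, (g y (t e) - g y (s e)) ^ 2 := sum_nonneg fun _ _ => sq_nonneg _
    by_cases b1 : (univ.filter fun v => g y v ≠ 0).card ≤ K
    · have := (Nat.cast_le.2 (hC y hy)).trans
        (gla_count deg iso (g y) b1 fun v hv => g1 y v (mem_filter.1 hv).2)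
      refine le_add_of_nonneg_of_le (by positivity) ?_
      rw [div_mul_eq_mul_div, le_div_iff₀ k0]; linarith
    · refine le_add_of_le_of_nonneg ?_ (by positivity)
      rw [div_mul_eq_mul_div, le_div_iff₀ k1, one_mul, one_mul]
      exact_mod_cast (not_le.1 b1).le
  rw [sum_add_distrib, ← mul_sum, ← mul_sum, nsmul_eq_mul, mul_one, ← Nat.cast_sum] at a5
  refine a5.trans (add_le_add ?_ ?_)
  · rw [div_mul_eq_mul_div, one_mul]; gcongr
  · calc _ ≤ 8 / (κ : ℝ) * (2 * (1 / τ) ^ 2 * En) := by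
          refine mul_le_mul_of_nonneg_left (a3.trans ?_) (by positivity)
          gcongr
      _ = _ := by field_simp; ring

end Pool.Agent.Lib.MP_c8786f_co.W5
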