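import Pool.Agent.Lib.MP_c8786f_co.W5.GLb2

/-!
Weak five-flow theorem: the geometric lemma from the two counting statements.
-/

namespace Pool.Agent.Lib.MP_c8786f_co.W5

open Finset
open scoped RealInnerProductSpace

set_option linter.unusedSectionVars false

section Core

variable {V E T X H : Type} [Fintype V] [DecidableEq V] [Fintype E] [DecidableEq E] [Fintype T]
  [DecidableEq T] [Fintype X] [NormedAddCommGroup H] [InnerProductSpace ℝ H]
  [FiniteDimensional ℝ H]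
  {s t : E → V} {β : T → X → V → ℝ} {Λ : T → Finset V} {own : V → T} {F : T → Finset E}
  {α P l1 : ℝ} {L1 K : ℕ}

lemma glb_few (HS : HeavyStmt) (G : Geo s t β Λ own F α P l1 L1 K) (hl : 0 ≤ l1) (m0 : X → ℝ)
    (hm : ∀ x, 0 ≤ m0 x) (hm1 : ∑ x, m0 x = 1) (cl : T → T) (rd : Finset T)
    (h : ∀ τ, τ ∉ rd → ∀ τ', cl τ' = cl τ → τ' = τ) (f : V → H) (a : T → H) (iw c CE r θ : ℝ)
    (κ : ℕ) (hr : 0 < r) (hrc : 64 * r ≤ c) (hκ : 1 ≤ κ) (hκK : κ ≤ K)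
    (h1 : 288 * CE * P ≤ θ * κ * r ^ 2)
    (h2 : 20 * (L1 * (1 + P * (2 * l1 ^ 2 * CE + 1) / (r / 12) ^ 2)) ≤ θ * K)
    (hE : ∑ e, ‖f (t e) - f (s e)‖ ^ 2 ≤ CE * (P * (univ.image cl).card))
    (hA : ∑ τ ∈ rd, ‖a (cl τ) - ∑ v, mu β m0 τ v • f v‖ ^ 2 ≤ P * (univ.image cl).card)
    (hiw : ∀ τ ∈ rd, ‖a (cl τ) - ∑ v, mu β m0 τ v • f v‖ ≤ iw)
    (hn : ∀ τ ∈ rd, ∀ τ' ∈ rd, cl τ ≠ cl τ' → 2 * iw + 2 * c < ‖a (cl τ) - a (cl τ')‖) :
    ∃ C : Finset V, (2 ≤ C.card → (C.card : ℝ) ≤ θ * (univ.image cl).card) ∧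
      ∀ v, κ ≤ (univ.filter fun v' => ‖f v' - f v‖ ≤ r).card → ∃ y ∈ C, ‖f v - f y‖ ≤ 4 * r := by
  obtain ⟨C, c1, c2, c3⟩ := glb_centres f
    (fun v => κ ≤ (univ.filter fun v' => ‖f v' - f v‖ ≤ r).card) (4 * r) (by positivity)
  obtain ⟨U, u1, u2⟩ := glb_U G hl m0 hm hm1 cl rd h f a CE (r / 12) (by positivity) hE hA
  refine ⟨C, fun hC => ?_, c3⟩
  have key := HS V E H s t K κ r _ f U C G.deg G.iso1 G.iso2 hr hκ hκK hE c1 c2
    (fun y _ v hv v' hv' d1 d2 => by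
      obtain ⟨p1, q1⟩ := u2 v hv
      obtain ⟨p2, q2⟩ := u2 v' hv'
      have i0 : 0 ≤ iw := (norm_nonneg _).trans (hiw _ p1)
      by_cases e : cl (own v) = cl (own v')
      · rw [e] at q1
        have := norm_sub_le (f v - a (cl (own v'))) (f v' - a (cl (own v')))
        rw [sub_sub_sub_cancel_right] at this
        linarith
      · exfalso
        have k1 := hn _ p1 _ p2 e
        have e' : a (cl (own v)) - a (cl (own v')) = ((f v - f y) - (f v' - f y)) -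
            ((f v - a (cl (own v))) - (f v' - a (cl (own v')))) := by abel
        have k2 := norm_sub_le ((f v - f y) - (f v' - f y))
          ((f v - a (cl (own v))) - (f v' - a (cl (own v'))))
        have k3 := norm_sub_le (f v - f y) (f v' - f y)
        have k4 := norm_sub_le (f v - a (cl (own v))) (f v' - a (cl (own v')))
        rw [← e'] at k2
        linarith) hC
  set p : ℝ := ((univ.image cl).card : ℝ) with hp
  have hp0 : 0 ≤ p := Nat.cast_nonneg _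
  have hκ0 : (0 : ℝ) < κ := by exact_mod_cast hκ
  have hK0 : (0 : ℝ) < K := by exact_mod_cast hκ.trans hκK
  have k1 : 10 * (U.card : ℝ) / K ≤ θ * p / 2 := by
    rw [div_le_iff₀ hK0]
    have := mul_le_mul_of_nonneg_right h2 hp0
    nlinarith
  have k2 : 144 * (CE * (P * p)) / (κ * r ^ 2) ≤ θ * p / 2 := by
    rw [div_le_iff₀ (by positivity)]
    have := mul_le_mul_of_nonneg_right h1 hp0
    nlinarith
  linarith

lemma glb_good (LS : LightStmt) (G : Geo s t β Λ own F α P l1 L1 K)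
    (hX : (Fintype.card X : ℝ) + 1 ≤ P) (x1 : X) (f : V → H) (c CE r θ p : ℝ) (κ : ℕ)
    (hc1 : c ≤ 1) (hCE : 1 ≤ CE) (hP : 1 ≤ P) (hp : 0 ≤ p)
    (hr : 0 < r) (hrc : 64 * r ≤ c) (hκ : 1 ≤ κ) (hκK : κ ≤ K) (hθ : 0 < θ)
    (h3 : 20 * P ^ 3 * CE * θ ≤ (c / 8) ^ 2)
    (h4 : 800 * (64 * κ * CE * P / r ^ 2) * α * CE * P ^ 2 ≤ c)
    (hb : ∀ b : H, ∑ e, ⟪b, f (t e) - f (s e)⟫ ^ 2 ≤ CE * ‖b‖ ^ 2)
    (hE : ∑ e, ‖f (t e) - f (s e)‖ ^ 2 ≤ CE * (P * p))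
    (C : Finset V) (hC : 2 ≤ C.card → (C.card : ℝ) ≤ θ * p)
    (hcov : ∀ v, κ ≤ (univ.filter fun v' => ‖f v' - f v‖ ≤ r).card →
      ∃ y ∈ C, ‖f v - f y‖ ≤ 4 * r) :
    ∃ (B : Finset T) (xs z : T → V), (B.card : ℝ) ≤ 3 * p / 10 ∧ ∀ τ, τ ∉ B →
      z τ ∈ C ∧ ‖f (xs τ) - f (z τ)‖ ≤ 4 * r ∧ ∀ x, ‖f (xs τ) - ∑ v, β τ x v • f v‖ ≤ c / 2 := by
  classical
  set hv : V → Prop := fun v => κ ≤ (univ.filter fun v' => ‖f v' - f v‖ ≤ r).card with hhv
  have hy : ∀ v, ∃ y, hv v → y ∈ C ∧ ‖f v - f y‖ ≤ 4 * r := fun v => by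
    by_cases h : hv v
    · obtain ⟨y, h1, h2⟩ := hcov v h
      exact ⟨y, fun _ => ⟨h1, h2⟩⟩
    · exact ⟨v, fun h' => absurd h' h⟩
  choose y hy using hy
  have hxs : ∀ τ, ∃ x ∈ Λ τ, (∃ x' ∈ Λ τ, hv x') → hv x := fun τ => by
    by_cases h : ∃ x' ∈ Λ τ, hv x'
    · obtain ⟨x', h1, h2⟩ := h
      exact ⟨x', h1, fun _ => h2⟩
    · have h1 := glb_one_le G τ x1
      have h2 : (Λ τ).Nonempty := by
        rw [nonempty_iff_ne_empty]
        intro e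
        rw [e] at h1
        norm_num at h1
      obtain ⟨x', hx'⟩ := h2
      exact ⟨x', hx', fun h' => absurd h' h⟩
  choose xs hx1 hx2 using hxs
  obtain ⟨W, hW1, hW2⟩ : ∃ W : Submodule ℝ H, (Module.finrank ℝ W : ℝ) ≤ θ * p ∧
      ∀ u ∈ C, ∀ u' ∈ C, f u - f u' ∈ W := by
    by_cases h : 2 ≤ C.card
    · refine ⟨Submodule.span ℝ (C.image f : Set H), ?_, fun u hu u' hu' => ?_⟩
      · refine le_trans ?_ (hC h)
        exact_mod_cast (finrank_span_finset_le_card (R := ℝ) (C.image f)).trans card_image_le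
      · exact Submodule.sub_mem _ (Submodule.subset_span (by simpa using ⟨u, hu, rfl⟩))
          (Submodule.subset_span (by simpa using ⟨u', hu', rfl⟩))
    · refine ⟨⊥, by simpa using mul_nonneg hθ.le hp, fun u hu u' hu' => ?_⟩
      rw [card_le_one.1 (by omega) u hu u' hu']
      simp
  have hκ0 : (0 : ℝ) < κ := by exact_mod_cast hκ
  set Λ0 : ℝ := 64 * κ * CE * P / r ^ 2 with hΛ0
  have hΛpos : 0 < Λ0 := by positivity
  set g1 : T → ℝ := fun τ => (((Λ τ).filter fun v => ¬hv v).card : ℝ) with hg1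
  set g2 : T → ℝ := fun τ => ∑ e ∈ F τ, ‖f (t e) - f (s e)‖ ^ 2 with hg2
  set g3 : T → ℝ := fun τ => ∑ x, ‖W.starProjection (f (xs τ) - ∑ v, β τ x v • f v)‖ ^ 2 with hg3
  have m1 := glb_markov g1 (10 * Λ0) (Λ0 * p) (fun τ => Nat.cast_nonneg _) (by
    refine (glb_disj Λ G.disj fun v => ¬hv v).trans ?_
    have := LS V E H s t K κ r _ f G.deg G.iso1 hr hκK hE
    have e : Λ0 * p = 64 * κ * (CE * (P * p)) / r ^ 2 := by rw [hΛ0]; ring
    rw [e]
    refine le_trans (le_of_eq ?_) this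
    congr 2
    ext v
    simp [hhv])
  have m2 := glb_markov g2 (20 * CE * P) (2 * (CE * (P * p)))
    (fun τ => sum_nonneg fun e _ => sq_nonneg _) (by
      have := glb_twice F G.twice (fun e => ‖f (t e) - f (s e)‖ ^ 2) fun e => sq_nonneg _
      exact this.trans (by linarith))
  have m3 := glb_markov g3 (20 * P ^ 3 * CE * θ) (2 * P ^ 3 * CE * (θ * p))
    (fun τ => sum_nonneg fun e _ => sq_nonneg _) (by
      have := glb_trace (fun q : T × X => f (xs q.1) - ∑ v, β q.1 q.2 v • f v) _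
        (glb_trace_bound G hX f CE hb xs hx1) W
      rw [Fintype.sum_prod_type] at this
      exact this.trans (mul_le_mul_of_nonneg_left hW1 (by positivity)))
  have n1 : ((univ.filter fun τ => 10 * Λ0 < g1 τ).card : ℝ) ≤ p / 10 := by
    refine le_of_mul_le_mul_left ?_ (show 0 < 10 * Λ0 by positivity)
    linarith
  have n2 : ((univ.filter fun τ => 20 * CE * P < g2 τ).card : ℝ) ≤ p / 10 := by
    refine le_of_mul_le_mul_left ?_ (show 0 < 20 * CE * P by positivity)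
    linarith
  have n3 : ((univ.filter fun τ => 20 * P ^ 3 * CE * θ < g3 τ).card : ℝ) ≤ p / 10 := by
    refine le_of_mul_le_mul_left ?_ (show 0 < 20 * P ^ 3 * CE * θ by positivity)
    linarith
  refine ⟨(univ.filter fun τ => 10 * Λ0 < g1 τ) ∪ ((univ.filter fun τ => 20 * CE * P < g2 τ) ∪
    (univ.filter fun τ => 20 * P ^ 3 * CE * θ < g3 τ)), xs, fun τ => y (xs τ), ?_, fun τ hτ => ?_⟩
  · have c1 := (card_union_le (univ.filter fun τ => 10 * Λ0 < g1 τ)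
      ((univ.filter fun τ => 20 * CE * P < g2 τ) ∪
      (univ.filter fun τ => 20 * P ^ 3 * CE * θ < g3 τ))).trans
      (add_le_add le_rfl (card_union_le _ _))
    have c2 := (Nat.cast_le (α := ℝ)).2 c1
    push_cast at c2
    linarith
  · simp only [mem_union, mem_filter, mem_univ, true_and, not_or, not_lt] at hτ
    obtain ⟨b1, b2, b3⟩ := hτ
    have hα : 0 ≤ α := (G.nonneg τ x1 (xs τ)).trans (G.atom τ x1 (xs τ))
    have hcp : 1 ≤ CE * P ^ 2 := one_le_mul_of_one_le_of_one_le hCE (one_le_pow₀ hP)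
    have hz : α * (5 * CE * P ^ 2) * g1 τ ≤ c / 16 := by
      have : α * (5 * CE * P ^ 2) * g1 τ ≤ α * (5 * CE * P ^ 2) * (10 * Λ0) :=
        mul_le_mul_of_nonneg_left b1 (by positivity)
      linarith
    have hh : hv (xs τ) := by
      refine hx2 τ ?_
      by_contra hcon
      have e : ((Λ τ).filter fun v => ¬hv v) = Λ τ :=
        filter_true_of_mem fun v hv' h' => hcon ⟨v, hv', h'⟩
      have h1 := glb_one_le G τ x1
      have h2 : g1 τ = (Λ τ).card := by simp only [hg1, e]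
      rw [h2] at hz
      have h5 : 1 * 1 ≤ α * (Λ τ).card * (CE * P ^ 2) :=
        mul_le_mul h1 hcp zero_le_one (zero_le_one.trans h1)
      linarith
    refine ⟨(hy _ hh).1, (hy _ hh).2, fun x => ?_⟩
    have hD : ∀ v ∈ Λ τ, ‖f (xs τ) - f v‖ ≤ 5 * CE * P ^ 2 := fun v hv' => by
      have k1 := glb_vec s t _ P (by positivity) (xs τ) v
        (fun φ r hr h => G.lip0 τ φ r hr h _ (hx1 τ) _ hv') f
      have k2 : √(∑ e ∈ F τ, ‖f (t e) - f (s e)‖ ^ 2) ≤ 5 * CE * P := by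
        refine Real.sqrt_le_iff.2 ⟨by positivity, le_trans b2 ?_⟩
        have : 1 ≤ CE * P := one_le_mul_of_one_le_of_one_le hCE hP
        nlinarith
      have k3 := mul_le_mul_of_nonneg_left k2 (show 0 ≤ P by positivity)
      linarith
    have k4 := glb_window G f hv y W (4 * r) (5 * CE * P ^ 2) (by positivity) (by positivity)
      (fun v v' h h' => hW2 _ (hy v h).1 _ (hy v' h').1) (fun v h => (hy v h).2) τ (xs τ) hh hD x
    have k5 : ‖W.starProjection (f (xs τ) - ∑ v, β τ x v • f v)‖ ≤ c / 8 := by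
      refine (pow_le_pow_iff_left₀ (norm_nonneg _) (by linarith) two_ne_zero).1 ?_
      refine le_trans ?_ (b3.trans h3)
      exact single_le_sum
        (f := fun x => ‖W.starProjection (f (xs τ) - ∑ v, β τ x v • f v)‖ ^ 2)
        (fun _ _ => sq_nonneg _) (mem_univ x)
    simp only [hg1] at hz
    linarith

lemma glb_finish (m0 : X → ℝ) (hm : ∀ x, 0 ≤ m0 x) (hm1 : ∑ x, m0 x = 1) (cl : T → T)
    (rd : Finset T) (h : ∀ τ, τ ∉ rd → ∀ τ', cl τ' = cl τ → τ' = τ)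
    (h2 : 2 ≤ (univ.image cl).card ∨ ∃ τ, τ ∉ rd) (f : V → H) (a : T → H) (iw c r θ : ℝ)
    (hr : 0 < r) (hrc : 64 * r ≤ c) (hθ : θ ≤ 1 / 2)
    (hiw : ∀ τ ∈ rd, ‖a (cl τ) - ∑ v, mu β m0 τ v • f v‖ ≤ iw)
    (hn : ∀ τ ∈ rd, ∀ τ' ∈ rd, cl τ ≠ cl τ' → 2 * iw + 2 * c < ‖a (cl τ) - a (cl τ')‖)
    (C : Finset V) (hC : 2 ≤ C.card → (C.card : ℝ) ≤ θ * (univ.image cl).card)
    (B : Finset T) (xs z : T → V) (hB : (B.card : ℝ) ≤ 3 * (univ.image cl).card / 10)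
    (hg : ∀ τ, τ ∉ B → z τ ∈ C ∧ ‖f (xs τ) - f (z τ)‖ ≤ 4 * r ∧
      ∀ x, ‖f (xs τ) - ∑ v, β τ x v • f v‖ ≤ c / 2) :
    ∃ τ, τ ∉ rd ∧ ∀ x x', ‖∑ v, β τ x v • f v - ∑ v, β τ x' v • f v‖ ≤ c := by
  by_contra hcon
  have hrd : ∀ τ, τ ∉ B → τ ∈ rd := fun τ hτ => by
    by_contra hτ'
    refine hcon ⟨τ, hτ', fun x x' => ?_⟩
    have k1 := (hg τ hτ).2.2 x
    have k2 := (hg τ hτ).2.2 x'
    have k3 := norm_sub_le (f (xs τ) - ∑ v, β τ x' v • f v) (f (xs τ) - ∑ v, β τ x v • f v)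
    rw [sub_sub_sub_cancel_left] at k3
    linarith
  obtain ⟨Rp, -, r1, r2⟩ := exists_subset_injOn_image_eq_of_surjOn (f := cl) (Set.univ : Set T)
    (univ.image cl) (fun u hu => by
      obtain ⟨τ, -, e⟩ := mem_image.1 (mem_coe.1 hu)
      exact ⟨τ, Set.mem_univ _, e⟩)
  have r3 : Rp.card = (univ.image cl).card := by rw [← r2, card_image_of_injOn r1]
  have r4 : (univ.image cl).card ≤ (Rp \ B).card + B.card := by
    rw [← r3]; exact card_le_card_sdiff_add_card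
  have r5 := (Nat.cast_le (α := ℝ)).2 r4
  push_cast at r5
  by_cases hp : 2 ≤ (univ.image cl).card
  · have hp' : (2 : ℝ) ≤ (univ.image cl).card := by exact_mod_cast hp
    have r6 : C.card < (Rp \ B).card := by
      have : (C.card : ℝ) < (Rp \ B).card := by
        by_cases hc : 2 ≤ C.card
        · have := hC hc
          nlinarith
        · have : (C.card : ℝ) ≤ 1 := by exact_mod_cast (by omega : C.card ≤ 1)
          linarith
      exact_mod_cast this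
    obtain ⟨τ, hτ, τ', hτ', hne, e⟩ := exists_ne_map_eq_of_card_lt_of_maps_to r6 (f := z)
      (fun τ hτ => (hg τ (mem_sdiff.1 hτ).2).1)
    obtain ⟨t1, t2⟩ := mem_sdiff.1 hτ
    obtain ⟨t3, t4⟩ := mem_sdiff.1 hτ'
    have near : ∀ σ, σ ∉ B → ‖a (cl σ) - f (z σ)‖ ≤ iw + c / 2 + 4 * r := fun σ hσ => by
      have k1 := hiw σ (hrd σ hσ)
      have k2 := (hg σ hσ).2.1
      have k3 : ‖f (xs σ) - ∑ v, mu β m0 σ v • f v‖ ≤ c / 2 := by
        rw [glb_mu_smul, glb_sub_avg _ hm1]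
        exact glb_avg _ hm hm1 _ _ fun x _ => (hg σ hσ).2.2 x
      have e' : a (cl σ) - f (z σ) = ((a (cl σ) - ∑ v, mu β m0 σ v • f v) -
          (f (xs σ) - ∑ v, mu β m0 σ v • f v)) + (f (xs σ) - f (z σ)) := by abel
      have k4 := norm_sub_le (a (cl σ) - ∑ v, mu β m0 σ v • f v)
        (f (xs σ) - ∑ v, mu β m0 σ v • f v)
      have k5 := norm_add_le ((a (cl σ) - ∑ v, mu β m0 σ v • f v) -
          (f (xs σ) - ∑ v, mu β m0 σ v • f v)) (f (xs σ) - f (z σ))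
      rw [← e'] at k5
      linarith
    have k1 := near τ t2
    have k2 := near τ' t4
    rw [e] at k1
    have k3 := norm_sub_le (a (cl τ) - f (z τ')) (a (cl τ') - f (z τ'))
    rw [sub_sub_sub_cancel_right] at k3
    have k4 := hn τ (hrd τ t2) τ' (hrd τ' t4) fun e' => hne (r1 t1 t3 e')
    linarith
  · obtain ⟨τ0, h0⟩ := h2.resolve_left hp
    have p1 : 1 ≤ (univ.image cl).card := card_pos.2 ⟨cl τ0, mem_image_of_mem _ (mem_univ _)⟩
    have p2 : (1 : ℝ) ≤ (univ.image cl).card := by exact_mod_cast p1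
    have p3 : (0 : ℝ) < (Rp \ B).card := by linarith
    obtain ⟨τ, hτ⟩ := card_pos.1 (by exact_mod_cast p3 : 0 < (Rp \ B).card)
    have e : cl τ = cl τ0 := card_le_one.1 (by omega : (univ.image cl).card ≤ 1) _
      (mem_image_of_mem _ (mem_univ _)) _ (mem_image_of_mem _ (mem_univ _))
    exact h0 (h τ0 h0 τ e ▸ hrd τ (mem_sdiff.1 hτ).2)

end Core

lemma glb_consts (c CE P α : ℝ) (hc : 0 < c) (hc1 : c ≤ 1) (hCE : 1 ≤ CE) (hP : 1 ≤ P)
    (hα : α * (800 * 64 * 289 * 1280 * 64 ^ 4 * CE ^ 4 / c ^ 7) * P ^ 7 ≤ 1) :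
    ∃ (θ : ℝ) (κ : ℕ), 0 < θ ∧ θ ≤ 1 / 2 ∧ 1 ≤ κ ∧ 20 * P ^ 3 * CE * θ ≤ (c / 8) ^ 2 ∧
      288 * CE * P ≤ θ * κ * (c / 64) ^ 2 ∧
      800 * (64 * κ * CE * P / (c / 64) ^ 2) * α * CE * P ^ 2 ≤ c := by
  have hP3 : 1 ≤ P ^ 3 * CE := one_le_mul_of_one_le_of_one_le (one_le_pow₀ hP) hCE
  set Q : ℝ := 1280 * 64 ^ 2 * CE ^ 2 * P ^ 4 / c ^ 4 with hQ
  have hQ1 : 1 ≤ Q := by
    rw [hQ, one_le_div (by positivity)]
    have h1 : c ^ 4 ≤ 1 := pow_le_one₀ hc.le hc1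
    have h2 : 1 ≤ CE ^ 2 * P ^ 4 :=
      one_le_mul_of_one_le_of_one_le (one_le_pow₀ hCE) (one_le_pow₀ hP)
    nlinarith
  have k1 : 288 * Q ≤ (⌈288 * Q⌉₊ : ℝ) := Nat.le_ceil _
  have k2 : (⌈288 * Q⌉₊ : ℝ) ≤ 289 * Q := by
    have := Nat.ceil_lt_add_one (show 0 ≤ 288 * Q by linarith)
    linarith
  refine ⟨c ^ 2 / (1280 * P ^ 3 * CE), ⌈288 * Q⌉₊, by positivity, ?_, ?_, ?_, ?_, ?_⟩
  · rw [div_le_iff₀ (by positivity)]
    have h1 : c ^ 2 ≤ 1 := pow_le_one₀ hc.le hc1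
    nlinarith
  · exact Nat.one_le_ceil_iff.2 (by linarith)
  · refine le_of_eq ?_
    field_simp
    ring
  · calc 288 * CE * P = c ^ 2 / (1280 * P ^ 3 * CE) * (288 * Q) * (c / 64) ^ 2 := by
          rw [hQ]; field_simp
      _ ≤ _ := by gcongr
  · rcases le_or_gt α 0 with h0 | h0
    · have : 0 ≤ 800 * (64 * (⌈288 * Q⌉₊ : ℝ) * CE * P / (c / 64) ^ 2) * (-α) * CE * P ^ 2 := by
        have : 0 ≤ -α := by linarith
        positivity
      linarith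
    · calc 800 * (64 * (⌈288 * Q⌉₊ : ℝ) * CE * P / (c / 64) ^ 2) * α * CE * P ^ 2
          ≤ 800 * (64 * (289 * Q) * CE * P / (c / 64) ^ 2) * α * CE * P ^ 2 := by gcongr
        _ = c * (α * (800 * 64 * 289 * 1280 * 64 ^ 4 * CE ^ 4 / c ^ 7) * P ^ 7) := by
            rw [hQ]; field_simp
        _ ≤ c * 1 := by gcongr
        _ = c := mul_one c

theorem gl_of : HeavyStmt → LightStmt → GLStmt := by
  intro HS LS c CE hc hc1 hCE
  refine ⟨800 * 64 * 289 * 1280 * 64 ^ 4 * CE ^ 4 / c ^ 7, by positivity,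
    fun P α l1 L1 hP hl hα => ?_⟩
  obtain ⟨θ, κ, t1, t2, t3, t4, t5, t6⟩ := glb_consts c CE P α hc hc1 hCE hP hα
  refine ⟨max κ ⌈20 * (L1 * (1 + P * (2 * l1 ^ 2 * CE + 1) / (c / 64 / 12) ^ 2)) / θ⌉₊, ?_⟩
  intro V E T X H _ _ _ _ _ _ _ _ _ _ s t β Λ own F G hX m0 hm hm1 cl rd h h2 f a iw hb hE hA hiw
  rw [or_iff_not_imp_right]
  intro hn
  push Not at hn
  have hr : 0 < c / 64 := by positivity
  have hrc : 64 * (c / 64) ≤ c := by linarith
  obtain ⟨x1⟩ : Nonempty X := by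
    by_contra hx
    rw [not_nonempty_iff] at hx
    simp at hm1
  obtain ⟨C, c1, c2⟩ := glb_few HS G hl m0 hm hm1 cl rd h f a iw c CE (c / 64) θ κ hr hrc t3
    (le_max_left _ _) t5 (by
      rw [← div_le_iff₀' t1]
      refine (Nat.le_ceil _).trans ?_
      exact_mod_cast le_max_right _ _) hE hA hiw hn
  obtain ⟨B, xs, z, b1, b2⟩ := glb_good LS G hX x1 f c CE (c / 64) θ _ κ hc1 hCE hP
    (Nat.cast_nonneg _) hr hrc t3 (le_max_left _ _) t1 t4 t6 hb hE C c1 c2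
  exact glb_finish m0 hm hm1 cl rd h h2 f a iw c (c / 64) θ hr hrc t2 hiw hn C c1 B xs z b1 b2

end Pool.Agent.Lib.MP_c8786f_co.W5
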