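import Pool.Agent.Lib.MP_c8786f_co.W5.Defs2
import Pool.Agent.Lib.MP_c8786f_co.W5.GLb

/-!
Five-flows at fixed cyclic connectivity: the local geometric lemma.
-/

namespace Pool.Agent.Lib.MP_c8786f_co.W5

open Finset
open scoped RealInnerProductSpace

set_option linter.unusedSectionVars false

section Core

variable {V E T X H : Type} [Fintype V] [DecidableEq V] [Fintype E] [DecidableEq E] [Fintype T]
  [DecidableEq T] [Fintype X] [NormedAddCommGroup H] [InnerProductSpace ℝ H]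
  [FiniteDimensional ℝ H]
  {s t : E → V} {β : T → X → V → ℝ} {Λ : T → Finset V} {own : V → T} {F : T → Finset E}
  {α P l1 : ℝ} {L1 K : ℕ}

lemma gl2_window (G : Geo s t β Λ own F α P l1 L1 K) (f : V → H) (hv : V → Prop)
    [DecidablePred hv] (o : V → H) (W : Submodule ℝ H) (d D : ℝ) (hd : 0 ≤ d) (hD : 0 ≤ D)
    (hW : ∀ v, o v ∈ W) (τ : T) (hy : ∀ v ∈ Λ τ, hv v → ‖f v - o v‖ ≤ d) (x0 : V)
    (h0 : ‖f x0 - o x0‖ ≤ d) (hDD : ∀ v ∈ Λ τ, ‖f x0 - f v‖ ≤ D) (x : X) :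
    ‖f x0 - ∑ v, β τ x v • f v‖ ≤ ‖W.starProjection (f x0 - ∑ v, β τ x v • f v)‖ +
      2 * (2 * d + α * D * ((Λ τ).filter fun v => ¬hv v).card) := by
  have hw : (∑ v, β τ x v • (if hv v then o x0 - o v else 0)) ∈ W := by
    refine W.sum_mem fun v _ => W.smul_mem _ ?_
    split_ifs with h
    · exact W.sub_mem (hW _) (hW _)
    · exact W.zero_mem
  refine (glb_near W _ _ hw).trans (add_le_add le_rfl (mul_le_mul_of_nonneg_left ?_ zero_le_two))
  rw [glb_sub_avg _ (G.total τ x) f (f x0), ← sum_sub_distrib]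
  calc ‖∑ v, (β τ x v • (f x0 - f v) - β τ x v • if hv v then o x0 - o v else 0)‖
      ≤ ∑ v, ‖β τ x v • (f x0 - f v) - β τ x v • if hv v then o x0 - o v else 0‖ :=
        norm_sum_le _ _
    _ ≤ ∑ v, (β τ x v * (2 * d) + if v ∈ (Λ τ).filter fun v => ¬hv v then α * D else 0) := by
        refine sum_le_sum fun v _ => ?_
        have hb := G.nonneg τ x v
        have ha := G.atom τ x v
        rw [← smul_sub, norm_smul, Real.norm_of_nonneg hb]
        by_cases hz : β τ x v = 0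
        · have : 0 ≤ α * D := mul_nonneg (hb.trans ha) hD
          rw [hz]
          split_ifs <;> simp [this]
        have hm := glb_mem G hz
        by_cases h : hv v
        · have e : f x0 - f v - (o x0 - o v) = (f x0 - o x0) - (f v - o v) := by abel
          have h1 : ‖f x0 - f v - (o x0 - o v)‖ ≤ 2 * d := by
            rw [e]
            have := norm_sub_le (f x0 - o x0) (f v - o v)
            linarith [hy _ hm h]
          simp only [h, if_true, mem_filter, not_true, and_false, if_false, add_zero]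
          exact mul_le_mul_of_nonneg_left h1 hb
        · simp only [h, if_false, mem_filter, hm, not_false_iff, and_true, if_true, sub_zero]
          have h1 : β τ x v * ‖f x0 - f v‖ ≤ α * D :=
            mul_le_mul ha (hDD v hm) (norm_nonneg _) (hb.trans ha)
          have h2 : 0 ≤ β τ x v * (2 * d) := by positivity
          linarith
    _ = 2 * d + α * D * ((Λ τ).filter fun v => ¬hv v).card := by
        rw [sum_add_distrib, ← sum_mul, G.total τ x, one_mul, ← sum_filter, sum_const,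
          nsmul_eq_mul, filter_mem_eq_inter, univ_inter, mul_comm (α * D)]

lemma gl2_energy (s t : E → V) (f : V → H) (Y : Finset V) (ρ : ℝ) :
    ∑ e, ‖((f (t e), if t e ∈ Y then 0 else ρ) : H × ℝ) - (f (s e), if s e ∈ Y then 0 else ρ)‖ ^ 2
      ≤ ∑ e, ‖f (t e) - f (s e)‖ ^ 2 + ρ ^ 2 * cut s t Y := by
  have h1 : ρ ^ 2 * (cut s t Y : ℝ) = ∑ e, if ¬(s e ∈ Y ↔ t e ∈ Y) then ρ ^ 2 else 0 := by
    rw [← sum_filter, sum_const, nsmul_eq_mul, mul_comm, cut]
  rw [h1, ← sum_add_distrib]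
  refine sum_le_sum fun e _ => ?_
  rw [Prod.mk_sub_mk, Prod.norm_mk]
  have h2 : ‖(if t e ∈ Y then 0 else ρ) - (if s e ∈ Y then 0 else ρ)‖ ^ 2 =
      if ¬(s e ∈ Y ↔ t e ∈ Y) then ρ ^ 2 else 0 := by
    by_cases a : s e ∈ Y <;> by_cases b : t e ∈ Y <;> simp [a, b]
  rw [← h2]
  rcases le_total ‖f (t e) - f (s e)‖ ‖(if t e ∈ Y then 0 else ρ) - (if s e ∈ Y then 0 else ρ)‖
    with h | h
  · rw [max_eq_right h]; nlinarith [sq_nonneg ‖f (t e) - f (s e)‖]
  · rw [max_eq_left h]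
    nlinarith [sq_nonneg ‖(if t e ∈ Y then 0 else ρ) - (if s e ∈ Y then 0 else ρ)‖]

lemma gl2_few (HS : Heavy2Stmt) (LS : LightStmt)
    (deg : ∀ v, (univ.filter fun e => s e = v).card + (univ.filter fun e => t e = v).card ≤ 4)
    (iso : ∀ Y : Finset V, Y.card ≤ K → Y.card ≤ cut s t Y) (Y : Finset V) (f : V → H)
    (CE r θ p M2 : ℝ) (κ : ℕ) (hCP : 1 ≤ CE * P) (hp : 0 ≤ p) (hr : 0 < r) (hr1 : 32 * r ≤ 1)
    (hκ : 1 ≤ κ) (hκK : κ ≤ K) (h1 : 64 * CE * P ≤ θ * κ * r ^ 2) (h2 : 2 * M2 ≤ θ * K)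
    (hY : (cut s t Y : ℝ) ≤ p) (hE : ∑ e, ‖f (t e) - f (s e)‖ ^ 2 ≤ CE * (P * p))
    (hN : ((Y.filter fun v => 2 * r < ‖f v‖).card : ℝ) ≤ M2 * p) :
    ∃ (C Lt : Finset V) (o : V → H), (C.card : ℝ) ≤ θ * p ∧
      (Lt.card : ℝ) ≤ 128 * κ * CE * P / r ^ 2 * p ∧ (∀ v, o v = 0 ∨ ∃ y ∈ C, f y = o v) ∧
      ∀ v ∈ Y, v ∉ Lt → ‖f v - o v‖ ≤ 4 * r := by
  classical
  set g : V → H × ℝ := fun v => (f v, if v ∈ Y then 0 else 2 * r) with hg
  have hEg : ∑ e, ‖g (t e) - g (s e)‖ ^ 2 ≤ 2 * (CE * (P * p)) := by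
    refine (gl2_energy s t f Y (2 * r)).trans ?_
    have k1 : (2 * r) ^ 2 ≤ CE * P := by nlinarith
    have k2 : (2 * r) ^ 2 * (cut s t Y : ℝ) ≤ CE * P * p :=
      mul_le_mul k1 hY (Nat.cast_nonneg _) (by linarith)
    linarith
  have hfg : ∀ v v', ‖f v - f v'‖ ≤ ‖g v - g v'‖ := fun v v' => norm_fst_le (g v - g v')
  obtain ⟨C, c1, c2, c3⟩ := glb_centres g
    (fun v => v ∈ Y ∧ 4 * r < ‖f v‖ ∧ κ ≤ (univ.filter fun v' => ‖g v' - g v‖ ≤ r).card) (4 * r)
    (by positivity)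
  have key := HS V E (H × ℝ) s t K κ r _ g (Y.filter fun v => 2 * r < ‖f v‖) C deg iso hr hκ
    (hκ.trans hκK) hEg (fun y hy => (c1 y hy).2.2) c2 (fun y hy v hv => by
      obtain ⟨a1, a2, -⟩ := c1 y hy
      refine mem_filter.2 ⟨?_, ?_⟩
      · by_contra a3
        have k1 := norm_snd_le (g v - g y)
        simp only [hg, Prod.snd_sub, a1, a3, if_true, if_false, sub_zero] at k1 hv
        rw [Real.norm_of_nonneg (by positivity)] at k1
        linarith
      · have k1 := hfg v y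
        have k2 := norm_sub_le (f v) (f v - f y)
        rw [sub_sub_cancel] at k2
        linarith)
  have lt := LS V E (H × ℝ) s t K κ r _ g deg iso hr hκK hEg
  have hκ0 : (0 : ℝ) < κ := by exact_mod_cast hκ
  have hK0 : (0 : ℝ) < K := by exact_mod_cast hκ.trans hκK
  have ho : ∀ v, ∃ o : H, (o = 0 ∨ ∃ y ∈ C, f y = o) ∧
      (v ∈ Y → κ ≤ (univ.filter fun v' => ‖g v' - g v‖ ≤ r).card → ‖f v - o‖ ≤ 4 * r) := fun v => by
    by_cases a : v ∈ Y ∧ 4 * r < ‖f v‖ ∧ κ ≤ (univ.filter fun v' => ‖g v' - g v‖ ≤ r).card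
    · obtain ⟨y, hy, h⟩ := c3 v a
      exact ⟨f y, Or.inr ⟨y, hy, rfl⟩, fun _ _ => (hfg v y).trans h⟩
    · refine ⟨0, Or.inl rfl, fun b1 b2 => ?_⟩
      rw [sub_zero]
      by_contra b3
      exact a ⟨b1, not_le.1 b3, b2⟩
  choose o o1 o2 using ho
  refine ⟨C, univ.filter fun v => (univ.filter fun v' => ‖g v' - g v‖ ≤ r).card < κ, o, ?_, ?_, o1,
    fun v hv hl => o2 v hv (by simpa using hl)⟩
  · have k1 : ((Y.filter fun v => 2 * r < ‖f v‖).card : ℝ) / K ≤ θ * p / 2 := by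
      rw [div_le_iff₀ hK0]
      have := mul_le_mul_of_nonneg_right h2 hp
      nlinarith
    have k2 : 16 * (2 * (CE * (P * p))) / (κ * r ^ 2) ≤ θ * p / 2 := by
      rw [div_le_iff₀ (by positivity)]
      have := mul_le_mul_of_nonneg_right h1 hp
      nlinarith
    linarith
  · refine lt.trans (le_of_eq ?_)
    ring

lemma gl2_good (G : Geo s t β Λ own F α P l1 L1 K)
    (hX : (Fintype.card X : ℝ) + 1 ≤ P) (x1 : X) (f : V → H) (c CE r θ p Λ0 : ℝ)
    (hc1 : c ≤ 1) (hCE : 1 ≤ CE) (hP : 1 ≤ P) (hr : 0 < r) (hrc : 32 * r ≤ c) (hθ : 0 < θ)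
    (hΛpos : 0 < Λ0) (h3 : 20 * P ^ 3 * CE * θ ≤ (c / 8) ^ 2)
    (h4 : 800 * Λ0 * α * CE * P ^ 2 ≤ c)
    (hb : ∀ b : H, ∑ e, ⟪b, f (t e) - f (s e)⟫ ^ 2 ≤ CE * ‖b‖ ^ 2)
    (hE : ∑ e, ‖f (t e) - f (s e)‖ ^ 2 ≤ CE * (P * p))
    (Y C Lt : Finset V) (o : V → H) (hC : (C.card : ℝ) ≤ θ * p) (hL : (Lt.card : ℝ) ≤ Λ0 * p)
    (o1 : ∀ v, o v = 0 ∨ ∃ y ∈ C, f y = o v) (o2 : ∀ v ∈ Y, v ∉ Lt → ‖f v - o v‖ ≤ 4 * r) :
    ∃ (B : Finset T) (xs : T → V), (B.card : ℝ) ≤ 3 * p / 10 ∧ ∀ τ, τ ∉ B → Λ τ ⊆ Y →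
      ∀ x, ‖∑ v, β τ x v • f v - o (xs τ)‖ ≤ c := by
  classical
  have hxs : ∀ τ, ∃ x ∈ Λ τ, (∃ x' ∈ Λ τ, x' ∉ Lt) → x ∉ Lt := fun τ => by
    by_cases h : ∃ x' ∈ Λ τ, x' ∉ Lt
    · obtain ⟨x', h1, h2⟩ := h
      exact ⟨x', h1, fun _ => h2⟩
    · have h1 := glb_one_le G τ x1
      have h2 : (Λ τ).Nonempty := by
        rw [nonempty_iff_ne_empty]
        intro e
        rw [e] at h1
        norm_num at h1
      obtain ⟨x', hx'⟩ := h2
      exact ⟨x', hx', fun h' => absurd h' h⟩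
  choose xs hx1 hx2 using hxs
  obtain ⟨W, hW1, hW2⟩ : ∃ W : Submodule ℝ H, (Module.finrank ℝ W : ℝ) ≤ θ * p ∧
      ∀ v, o v ∈ W := by
    refine ⟨Submodule.span ℝ (C.image f : Set H), le_trans ?_ hC, fun v => ?_⟩
    · exact_mod_cast (finrank_span_finset_le_card (R := ℝ) (C.image f)).trans card_image_le
    · rcases o1 v with h | ⟨y, hy, h⟩
      · rw [h]; exact Submodule.zero_mem _
      · exact Submodule.subset_span (by simpa using ⟨y, hy, h⟩)
  set g1 : T → ℝ := fun τ => (((Λ τ).filter fun v => ¬v ∉ Lt).card : ℝ) with hg1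
  set g2 : T → ℝ := fun τ => ∑ e ∈ F τ, ‖f (t e) - f (s e)‖ ^ 2 with hg2
  set g3 : T → ℝ := fun τ => ∑ x, ‖W.starProjection (f (xs τ) - ∑ v, β τ x v • f v)‖ ^ 2 with hg3
  have m1 := glb_markov g1 (10 * Λ0) (Λ0 * p) (fun τ => Nat.cast_nonneg _) (by
    refine (glb_disj Λ G.disj fun v => ¬v ∉ Lt).trans (le_trans (le_of_eq ?_) hL)
    congr 2
    ext v
    simp)
  have m2 := glb_markov g2 (20 * CE * P) (2 * (CE * (P * p)))
    (fun τ => sum_nonneg fun e _ => sq_nonneg _) (by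
      have := glb_twice F G.twice (fun e => ‖f (t e) - f (s e)‖ ^ 2) fun e => sq_nonneg _
      exact this.trans (by linarith))
  have m3 := glb_markov g3 (20 * P ^ 3 * CE * θ) (2 * P ^ 3 * CE * (θ * p))
    (fun τ => sum_nonneg fun e _ => sq_nonneg _) (by
      have := glb_trace (fun q : T × X => f (xs q.1) - ∑ v, β q.1 q.2 v • f v) _
        (glb_trace_bound G hX f CE hb xs hx1) W
      rw [Fintype.sum_prod_type] at this
      exact this.trans (mul_le_mul_of_nonneg_left hW1 (by positivity)))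
  have n1 : ((univ.filter fun τ => 10 * Λ0 < g1 τ).card : ℝ) ≤ p / 10 := by
    refine le_of_mul_le_mul_left ?_ (show 0 < 10 * Λ0 by positivity)
    linarith
  have n2 : ((univ.filter fun τ => 20 * CE * P < g2 τ).card : ℝ) ≤ p / 10 := by
    refine le_of_mul_le_mul_left ?_ (show 0 < 20 * CE * P by positivity)
    linarith
  have n3 : ((univ.filter fun τ => 20 * P ^ 3 * CE * θ < g3 τ).card : ℝ) ≤ p / 10 := by
    refine le_of_mul_le_mul_left ?_ (show 0 < 20 * P ^ 3 * CE * θ by positivity)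
    linarith
  refine ⟨(univ.filter fun τ => 10 * Λ0 < g1 τ) ∪ ((univ.filter fun τ => 20 * CE * P < g2 τ) ∪
    (univ.filter fun τ => 20 * P ^ 3 * CE * θ < g3 τ)), xs, ?_, fun τ hτ hY x => ?_⟩
  · have c1 := (card_union_le (univ.filter fun τ => 10 * Λ0 < g1 τ)
      ((univ.filter fun τ => 20 * CE * P < g2 τ) ∪
      (univ.filter fun τ => 20 * P ^ 3 * CE * θ < g3 τ))).trans
      (add_le_add le_rfl (card_union_le _ _))
    have c2 := (Nat.cast_le (α := ℝ)).2 c1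
    push_cast at c2
    linarith
  · simp only [mem_union, mem_filter, mem_univ, true_and, not_or, not_lt] at hτ
    obtain ⟨b1, b2, b3⟩ := hτ
    have hα : 0 ≤ α := (G.nonneg τ x1 (xs τ)).trans (G.atom τ x1 (xs τ))
    have hcp : 1 ≤ CE * P ^ 2 := one_le_mul_of_one_le_of_one_le hCE (one_le_pow₀ hP)
    have hz : α * (5 * CE * P ^ 2) * g1 τ ≤ c / 16 := by
      have : α * (5 * CE * P ^ 2) * g1 τ ≤ α * (5 * CE * P ^ 2) * (10 * Λ0) :=
        mul_le_mul_of_nonneg_left b1 (by positivity)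
      linarith
    have hh : xs τ ∉ Lt := by
      refine hx2 τ ?_
      by_contra hcon
      have e : ((Λ τ).filter fun v => ¬v ∉ Lt) = Λ τ :=
        filter_true_of_mem fun v hv' h' => hcon ⟨v, hv', h'⟩
      have h1 := glb_one_le G τ x1
      have h2 : g1 τ = (Λ τ).card := by simp only [hg1, e]
      rw [h2] at hz
      have h5 : 1 * 1 ≤ α * (Λ τ).card * (CE * P ^ 2) :=
        mul_le_mul h1 hcp zero_le_one (zero_le_one.trans h1)
      linarith
    have h0 := o2 _ (hY (hx1 τ)) hh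
    have hD : ∀ v ∈ Λ τ, ‖f (xs τ) - f v‖ ≤ 5 * CE * P ^ 2 := fun v hv' => by
      have k1 := glb_vec s t _ P (by positivity) (xs τ) v
        (fun φ r hr h => G.lip0 τ φ r hr h _ (hx1 τ) _ hv') f
      have k2 : √(∑ e ∈ F τ, ‖f (t e) - f (s e)‖ ^ 2) ≤ 5 * CE * P := by
        refine Real.sqrt_le_iff.2 ⟨by positivity, le_trans b2 ?_⟩
        have : 1 ≤ CE * P := one_le_mul_of_one_le_of_one_le hCE hP
        nlinarith
      have k3 := mul_le_mul_of_nonneg_left k2 (show 0 ≤ P by positivity)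
      linarith
    have k4 := gl2_window G f (fun v => v ∉ Lt) o W (4 * r) (5 * CE * P ^ 2) (by positivity)
      (by positivity) hW2 τ (fun v hv h => o2 v (hY hv) h) (xs τ) h0 hD x
    have k5 : ‖W.starProjection (f (xs τ) - ∑ v, β τ x v • f v)‖ ≤ c / 8 := by
      refine (pow_le_pow_iff_left₀ (norm_nonneg _) (by linarith) two_ne_zero).1 ?_
      refine le_trans ?_ (b3.trans h3)
      exact single_le_sum
        (f := fun x => ‖W.starProjection (f (xs τ) - ∑ v, β τ x v • f v)‖ ^ 2)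
        (fun _ _ => sq_nonneg _) (mem_univ x)
    have k6 := norm_sub_le (f (xs τ) - o (xs τ)) (f (xs τ) - ∑ v, β τ x v • f v)
    rw [sub_sub_sub_cancel_left] at k6
    simp only [hg1] at hz
    linarith

end Core

theorem gl2_of : Heavy2Stmt → LightStmt → GL2Stmt := by
  intro HS LS c CE hc hc1 hCE
  refine ⟨800 * 64 * 289 * 1280 * 64 ^ 4 * CE ^ 4 / c ^ 7, by positivity,
    fun P α M2 hP hM hα => ?_⟩
  obtain ⟨θ, κ, t1, t2, t3, t4, t5, t6⟩ := glb_consts c CE P α hc hc1 hCE hP hα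
  refine ⟨max κ ⌈2 * M2 / θ⌉₊, ?_⟩
  intro V E T X H _ _ _ _ _ _ _ _ _ _ s t β Λ own F l1 L1 G iso hX Y R hR hY hcut f hb hE hN
  classical
  rcases isEmpty_or_nonempty X with hx | ⟨⟨x1⟩⟩
  · obtain ⟨τ, hτ⟩ := hR
    exact Or.inl ⟨τ, hτ, fun x => isEmptyElim x⟩
  have hr : 0 < c / 32 := by positivity
  have hκ0 : (0 : ℝ) < κ := by exact_mod_cast t3
  have hCP : 1 ≤ CE * P := one_le_mul_of_one_le_of_one_le hCE hP
  have hp : (1 : ℝ) ≤ R.card := by exact_mod_cast card_pos.2 hR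
  obtain ⟨C, Lt, o, c1, c2, c3, c4⟩ := gl2_few (P := P) HS LS G.deg iso Y f CE (c / 32) θ R.card
    M2 κ hCP (Nat.cast_nonneg _) hr (by linarith) t3 (le_max_left _ _)
    (by
      have e : θ * κ * (c / 32) ^ 2 = 4 * (θ * κ * (c / 64) ^ 2) := by ring
      rw [e]; nlinarith)
    (by
      rw [← div_le_iff₀' t1]
      refine (Nat.le_ceil _).trans ?_
      exact_mod_cast le_max_right _ _) (by exact_mod_cast hcut) hE
    (by
      have e : 2 * (c / 32) = c / 16 := by ring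
      rw [e]; exact hN)
  obtain ⟨B, xs, b1, b2⟩ := gl2_good G hX x1 f c CE (c / 32) θ R.card
    (128 * κ * CE * P / (c / 32) ^ 2) hc1 hCE hP hr (by linarith) t1 (by positivity) t4
    (by
      have e : 800 * (128 * κ * CE * P / (c / 32) ^ 2) * α * CE * P ^ 2 =
          800 * (64 * κ * CE * P / (c / 64) ^ 2) * α * CE * P ^ 2 / 2 := by
        field_simp
        ring
      rw [e]; linarith) hb hE Y C Lt o c1 c2 c3 c4
  by_cases h0 : ∃ τ ∈ R \ B, o (xs τ) = 0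
  · obtain ⟨τ, hτ, e⟩ := h0
    obtain ⟨a1, a2⟩ := mem_sdiff.1 hτ
    refine Or.inl ⟨τ, a1, fun x => ?_⟩
    have := b2 τ a2 (hY τ a1) x
    rwa [e, sub_zero] at this
  · have r4 : R.card ≤ (R \ B).card + B.card := card_le_card_sdiff_add_card
    have r5 := (Nat.cast_le (α := ℝ)).2 r4
    push_cast at r5
    have r6 : (C.image f).card < (R \ B).card := by
      refine card_image_le.trans_lt ?_
      have : (C.card : ℝ) < (R \ B).card := by nlinarith
      exact_mod_cast this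
    obtain ⟨τ, hτ, τ', hτ', hne, e⟩ := exists_ne_map_eq_of_card_lt_of_maps_to r6
      (f := fun τ => o (xs τ)) (fun τ hτ => by
        rcases c3 (xs τ) with h | ⟨y, hy, h⟩
        · exact absurd ⟨τ, hτ, h⟩ h0
        · exact mem_coe.2 (mem_image.2 ⟨y, hy, h⟩))
    obtain ⟨a1, a2⟩ := mem_sdiff.1 hτ
    obtain ⟨a3, a4⟩ := mem_sdiff.1 hτ'
    refine Or.inr ⟨τ, a1, τ', a3, hne, o (xs τ), fun x => ⟨b2 τ a2 (hY τ a1) x, ?_⟩⟩
    have := b2 τ' a4 (hY τ' a3) x
    rwa [← e] at this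

end Pool.Agent.Lib.MP_c8786f_co.W5
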