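import Pool.Agent.Lib.MP_c8786f_co.W5.DefsGL

/-!
Weak five-flow theorem: small tools for the geometric lemma.
-/

namespace Pool.Agent.Lib.MP_c8786f_co.W5

open Finset
open scoped RealInnerProductSpace

set_option linter.unusedSectionVars false

lemma glb_markov {T : Type} [Fintype T] (g : T → ℝ) (u B : ℝ) (hg : ∀ τ, 0 ≤ g τ)
    (hB : ∑ τ, g τ ≤ B) [DecidablePred fun τ => u < g τ] :
    u * ((univ.filter fun τ => u < g τ).card : ℝ) ≤ B := by
  calc u * ((univ.filter fun τ => u < g τ).card : ℝ)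
      = ∑ τ ∈ univ.filter fun τ => u < g τ, u := by simp [mul_comm]
    _ ≤ ∑ τ ∈ univ.filter fun τ => u < g τ, g τ :=
        sum_le_sum fun τ h => (mem_filter.1 h).2.le
    _ ≤ ∑ τ, g τ := sum_le_sum_of_subset_of_nonneg (filter_subset _ _) fun τ _ _ => hg τ
    _ ≤ B := hB

lemma glb_twice {E T : Type} [Fintype E] [DecidableEq E] [Fintype T] (F : T → Finset E)
    (h : ∀ e, (univ.filter fun τ => e ∈ F τ).card ≤ 2) (g : E → ℝ) (hg : ∀ e, 0 ≤ g e) :
    ∑ τ, ∑ e ∈ F τ, g e ≤ 2 * ∑ e, g e := by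
  calc ∑ τ, ∑ e ∈ F τ, g e = ∑ τ, ∑ e, if e ∈ F τ then g e else 0 := by
        refine sum_congr rfl fun τ _ => ?_
        rw [← sum_filter]
        congr 1
        ext e
        simp
    _ = ∑ e, ∑ τ, if e ∈ F τ then g e else 0 := sum_comm
    _ ≤ ∑ e, 2 * g e := by
        refine sum_le_sum fun e _ => ?_
        rw [← sum_filter, sum_const, nsmul_eq_mul]
        exact mul_le_mul_of_nonneg_right (by exact_mod_cast h e) (hg e)
    _ = 2 * ∑ e, g e := by rw [mul_sum]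

lemma glb_scalar {V E : Type} (s t : E → V) (S : Finset E) (l : ℝ) (v v' : V)
    (h : ∀ (φ : V → ℝ) (r : ℝ), 0 ≤ r → (∀ e ∈ S, |φ (t e) - φ (s e)| ≤ r) →
      |φ v - φ v'| ≤ l * r) (φ : V → ℝ) :
    |φ v - φ v'| ≤ l * √(∑ e ∈ S, (φ (t e) - φ (s e)) ^ 2) := by
  refine h φ _ (Real.sqrt_nonneg _) fun e he => ?_
  refine Real.abs_le_sqrt ?_
  exact single_le_sum (f := fun e => (φ (t e) - φ (s e)) ^ 2) (fun e _ => sq_nonneg _) he

lemma glb_vec {V E H : Type} [NormedAddCommGroup H] [InnerProductSpace ℝ H]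
    (s t : E → V) (S : Finset E) (l : ℝ) (hl : 0 ≤ l) (v v' : V)
    (h : ∀ (φ : V → ℝ) (r : ℝ), 0 ≤ r → (∀ e ∈ S, |φ (t e) - φ (s e)| ≤ r) →
      |φ v - φ v'| ≤ l * r) (f : V → H) :
    ‖f v - f v'‖ ≤ l * √(∑ e ∈ S, ‖f (t e) - f (s e)‖ ^ 2) := by
  set R := √(∑ e ∈ S, ‖f (t e) - f (s e)‖ ^ 2) with hR
  have hR0 : 0 ≤ R := Real.sqrt_nonneg _
  set u := f v - f v' with hu
  have h1 := h (fun w => ⟪u, f w⟫) (‖u‖ * R) (by positivity) (fun e he => by
    rw [← inner_sub_right]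
    refine (abs_real_inner_le_norm _ _).trans (mul_le_mul_of_nonneg_left ?_ (norm_nonneg _))
    refine Real.le_sqrt_of_sq_le ?_
    exact single_le_sum (f := fun e => ‖f (t e) - f (s e)‖ ^ 2) (fun e _ => sq_nonneg _) he)
  rw [← inner_sub_right, ← hu, real_inner_self_eq_norm_sq, abs_of_nonneg (sq_nonneg _)] at h1
  rcases (norm_nonneg u).eq_or_lt with h0 | h0
  · rw [← h0]; positivity
  · have : ‖u‖ * ‖u‖ ≤ ‖u‖ * (l * R) := by nlinarith
    exact le_of_mul_le_mul_left this h0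

lemma glb_avg {V G : Type} [Fintype V] [NormedAddCommGroup G] [NormedSpace ℝ G]
    (b : V → ℝ) (hb : ∀ v, 0 ≤ b v) (h1 : ∑ v, b v = 1) (g : V → G) (R : ℝ)
    (hR : ∀ v, b v ≠ 0 → ‖g v‖ ≤ R) : ‖∑ v, b v • g v‖ ≤ R := by
  calc ‖∑ v, b v • g v‖ ≤ ∑ v, ‖b v • g v‖ := norm_sum_le _ _
    _ ≤ ∑ v, b v * R := by
        refine sum_le_sum fun v _ => ?_
        rw [norm_smul, Real.norm_of_nonneg (hb v)]
        by_cases h : b v = 0
        · simp [h]
        · exact mul_le_mul_of_nonneg_left (hR v h) (hb v)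
    _ = R := by rw [← sum_mul, h1, one_mul]

lemma glb_sub_avg {V G : Type} [Fintype V] [AddCommGroup G] [Module ℝ G]
    (b : V → ℝ) (h1 : ∑ v, b v = 1) (g : V → G) (z : G) :
    z - ∑ v, b v • g v = ∑ v, b v • (z - g v) := by
  simp only [smul_sub, sum_sub_distrib]
  rw [← sum_smul, h1, one_smul]

lemma glb_trace {ι H : Type} [Fintype ι] [NormedAddCommGroup H] [InnerProductSpace ℝ H]
    [FiniteDimensional ℝ H] (w : ι → H) (C : ℝ)
    (h : ∀ b : H, ∑ i, ⟪b, w i⟫ ^ 2 ≤ C * ‖b‖ ^ 2) (W : Submodule ℝ H) :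
    ∑ i, ‖W.starProjection (w i)‖ ^ 2 ≤ C * Module.finrank ℝ W := by
  set b := stdOrthonormalBasis ℝ W
  have h1 : ∀ i, ‖W.starProjection (w i)‖ ^ 2 = ∑ j, ⟪(b j : H), w i⟫ ^ 2 := by
    intro i
    have := b.sum_sq_inner_right (W.orthogonalProjectionOnto (w i))
    rw [Submodule.starProjection_apply, Submodule.norm_coe, ← this]
    refine sum_congr rfl fun j _ => ?_
    rw [Submodule.inner_orthogonalProjectionOnto_eq_of_mem_left]
  calc ∑ i, ‖W.starProjection (w i)‖ ^ 2 = ∑ j, ∑ i, ⟪(b j : H), w i⟫ ^ 2 := by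
        rw [sum_comm]; exact sum_congr rfl fun i _ => h1 i
    _ ≤ ∑ j : Fin (Module.finrank ℝ W), C := by
        refine sum_le_sum fun j _ => (h _).trans ?_
        rw [Submodule.norm_coe, b.norm_eq_one j]
        simp
    _ = C * Module.finrank ℝ W := by simp [mul_comm]

lemma glb_centres {V H : Type} [Fintype V] [DecidableEq V] [NormedAddCommGroup H]
    (f : V → H) (hv : V → Prop) (d : ℝ) (hd : 0 ≤ d) :
    ∃ C : Finset V, (∀ y ∈ C, hv y) ∧ (∀ y ∈ C, ∀ y' ∈ C, y ≠ y' → d < ‖f y - f y'‖) ∧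
      ∀ v, hv v → ∃ y ∈ C, ‖f v - f y‖ ≤ d := by
  classical
  obtain ⟨C, hC, hmax⟩ := exists_max_image
    (univ.filter fun C : Finset V => (∀ y ∈ C, hv y) ∧
      (∀ y ∈ C, ∀ y' ∈ C, y ≠ y' → d < ‖f y - f y'‖)) Finset.card ⟨∅, by simp⟩
  obtain ⟨h1, h2⟩ := (mem_filter.1 hC).2
  refine ⟨C, h1, h2, fun v hvv => ?_⟩
  by_contra hcon
  push Not at hcon
  have hvC : v ∉ C := fun h => by
    have := hcon v h
    simp at this
    linarith
  have := hmax (insert v C) (mem_filter.2 ⟨mem_univ _, fun y hy => ?_, fun y hy y' hy' hne => ?_⟩)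
  · rw [card_insert_of_notMem hvC] at this
    omega
  · rcases mem_insert.1 hy with rfl | hy
    exacts [hvv, h1 y hy]
  · rcases mem_insert.1 hy with e1 | hz <;> rcases mem_insert.1 hy' with e2 | hz'
    · exact absurd (e1.trans e2.symm) hne
    · rw [e1]; exact hcon y' hz'
    · rw [norm_sub_rev, e2]; exact hcon y hz
    · exact h2 y hz y' hz' hne

lemma glb_near {H : Type} [NormedAddCommGroup H] [InnerProductSpace ℝ H]
    [FiniteDimensional ℝ H] (W : Submodule ℝ H) (v w : H) (hw : w ∈ W) :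
    ‖v‖ ≤ ‖W.starProjection v‖ + 2 * ‖v - w‖ := by
  have h1 : W.starProjection w = w := Submodule.starProjection_eq_self_iff.2 hw
  have h2 : v = W.starProjection v + ((v - w) - W.starProjection (v - w)) := by
    rw [map_sub, h1]; abel
  have h3 := W.norm_starProjection_apply_le (v - w)
  calc ‖v‖ = ‖W.starProjection v + ((v - w) - W.starProjection (v - w))‖ := by rw [← h2]
    _ ≤ ‖W.starProjection v‖ + (‖v - w‖ + ‖W.starProjection (v - w)‖) :=
        (norm_add_le _ _).trans (add_le_add le_rfl (norm_sub_le _ _))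
    _ ≤ _ := by linarith

lemma glb_disj {V T : Type} [Fintype V] [DecidableEq V] [Fintype T] (Λ : T → Finset V)
    (h : ∀ τ τ', τ ≠ τ' → Disjoint (Λ τ) (Λ τ')) (q : V → Prop) [DecidablePred q] :
    ∑ τ, (((Λ τ).filter q).card : ℝ) ≤ (univ.filter q).card := by
  classical
  have h1 : ∑ τ, ((Λ τ).filter q).card = (univ.biUnion fun τ => (Λ τ).filter q).card := by
    rw [card_biUnion]
    intro τ _ τ' _ hne
    exact Disjoint.mono (filter_subset _ _) (filter_subset _ _) (h τ τ' hne)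
  have h2 : (univ.biUnion fun τ => (Λ τ).filter q).card ≤ (univ.filter q).card := by
    refine card_le_card fun v hv => ?_
    obtain ⟨τ, _, hτ⟩ := mem_biUnion.1 hv
    exact mem_filter.2 ⟨mem_univ _, (mem_filter.1 hτ).2⟩
  exact_mod_cast h1.le.trans h2

lemma glb_cells {V T : Type} [Fintype V] [Fintype T] [DecidableEq T] (own : V → T) (L1 : ℕ)
    (h : ∀ τ, (univ.filter fun v => own v = τ).card ≤ L1) (B : Finset T) :
    (univ.filter fun v => own v ∈ B).card ≤ L1 * B.card := by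
  classical
  have h1 : (univ.filter fun v => own v ∈ B) ⊆ B.biUnion fun τ => univ.filter fun v => own v = τ := by
    intro v hv
    exact mem_biUnion.2 ⟨own v, (mem_filter.1 hv).2, by simp⟩
  refine (card_le_card h1).trans (card_biUnion_le.trans ?_)
  refine (sum_le_card_nsmul _ _ L1 fun τ _ => h τ).trans ?_
  simp [mul_comm]

lemma glb_mu_smul {V T X G : Type} [Fintype V] [Fintype X] [AddCommGroup G] [Module ℝ G]
    (β : T → X → V → ℝ) (m0 : X → ℝ) (τ : T) (f : V → G) :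
    ∑ v, mu β m0 τ v • f v = ∑ x, m0 x • ∑ v, β τ x v • f v := by
  simp only [mu, sum_smul, smul_sum, mul_smul]
  exact sum_comm

end Pool.Agent.Lib.MP_c8786f_co.W5
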