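import Pool.Agent.Lib.MP_c8786f_co.W5.GLb1

/-!
Weak five-flow theorem: windows and cells in the geometric lemma.
-/

namespace Pool.Agent.Lib.MP_c8786f_co.W5

open Finset
open scoped RealInnerProductSpace

set_option linter.unusedSectionVars false

variable {V E T X H : Type} [Fintype V] [DecidableEq V] [Fintype E] [DecidableEq E] [Fintype T]
  [DecidableEq T] [Fintype X] [NormedAddCommGroup H] [InnerProductSpace ℝ H]
  [FiniteDimensional ℝ H]
  {s t : E → V} {β : T → X → V → ℝ} {Λ : T → Finset V} {own : V → T} {F : T → Finset E}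
  {α P l1 : ℝ} {L1 K : ℕ}

lemma glb_mem (G : Geo s t β Λ own F α P l1 L1 K) {τ : T} {x : X} {v : V} (h : β τ x v ≠ 0) :
    v ∈ Λ τ := by
  by_contra hv
  exact h (G.supp τ x v hv)

lemma glb_one_le (G : Geo s t β Λ own F α P l1 L1 K) (τ : T) (x : X) :
    1 ≤ α * (Λ τ).card := by
  calc (1 : ℝ) = ∑ v, β τ x v := (G.total τ x).symm
    _ = ∑ v ∈ Λ τ, β τ x v :=
        (sum_subset (subset_univ _) fun v _ hv => G.supp τ x v hv).symm
    _ ≤ ∑ v ∈ Λ τ, α := sum_le_sum fun v _ => G.atom τ x v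
    _ = α * (Λ τ).card := by simp [mul_comm]

lemma glb_window (G : Geo s t β Λ own F α P l1 L1 K) (f : V → H) (hv : V → Prop)
    [DecidablePred hv] (y : V → V) (W : Submodule ℝ H) (d D : ℝ) (hd : 0 ≤ d) (hD : 0 ≤ D)
    (hW : ∀ v v', hv v → hv v' → f (y v) - f (y v') ∈ W)
    (hy : ∀ v, hv v → ‖f v - f (y v)‖ ≤ d) (τ : T) (x0 : V) (h0 : hv x0)
    (hDD : ∀ v ∈ Λ τ, ‖f x0 - f v‖ ≤ D) (x : X) :
    ‖f x0 - ∑ v, β τ x v • f v‖ ≤ ‖W.starProjection (f x0 - ∑ v, β τ x v • f v)‖ +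
      2 * (2 * d + α * D * ((Λ τ).filter fun v => ¬hv v).card) := by
  have hw : (∑ v, β τ x v • (if hv v then f (y x0) - f (y v) else 0)) ∈ W := by
    refine W.sum_mem fun v _ => W.smul_mem _ ?_
    split_ifs with h
    · exact hW _ _ h0 h
    · exact W.zero_mem
  refine (glb_near W _ _ hw).trans (add_le_add le_rfl (mul_le_mul_of_nonneg_left ?_ zero_le_two))
  rw [glb_sub_avg _ (G.total τ x) f (f x0), ← sum_sub_distrib]
  calc ‖∑ v, (β τ x v • (f x0 - f v) - β τ x v • if hv v then f (y x0) - f (y v) else 0)‖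
      ≤ ∑ v, ‖β τ x v • (f x0 - f v) - β τ x v • if hv v then f (y x0) - f (y v) else 0‖ :=
        norm_sum_le _ _
    _ ≤ ∑ v, (β τ x v * (2 * d) + if v ∈ (Λ τ).filter fun v => ¬hv v then α * D else 0) := by
        refine sum_le_sum fun v _ => ?_
        have hb := G.nonneg τ x v
        have ha := G.atom τ x v
        rw [← smul_sub, norm_smul, Real.norm_of_nonneg hb]
        by_cases h : hv v
        · have e : f x0 - f v - (f (y x0) - f (y v)) = (f x0 - f (y x0)) - (f v - f (y v)) := by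
            abel
          have h1 : ‖f x0 - f v - (f (y x0) - f (y v))‖ ≤ 2 * d := by
            rw [e]
            have := norm_sub_le (f x0 - f (y x0)) (f v - f (y v))
            linarith [hy _ h0, hy _ h]
          simp only [h, if_true, mem_filter, not_true, and_false, if_false, add_zero]
          exact mul_le_mul_of_nonneg_left h1 hb
        · by_cases hz : β τ x v = 0
          · have : 0 ≤ α * D := mul_nonneg (hb.trans ha) hD
            rw [hz]
            split_ifs <;> simp [this]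
          · have hm := glb_mem G hz
            simp only [h, if_false, mem_filter, hm, not_false_iff, and_true, if_true, sub_zero]
            have h1 : β τ x v * ‖f x0 - f v‖ ≤ α * D :=
              mul_le_mul ha (hDD v hm) (norm_nonneg _) (hb.trans ha)
            have h2 : 0 ≤ β τ x v * (2 * d) := by positivity
            linarith
    _ = 2 * d + α * D * ((Λ τ).filter fun v => ¬hv v).card := by
        rw [sum_add_distrib, ← sum_mul, G.total τ x, one_mul, ← sum_filter, sum_const,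
          nsmul_eq_mul, filter_mem_eq_inter, univ_inter, mul_comm (α * D)]

lemma glb_trace_bound (G : Geo s t β Λ own F α P l1 L1 K) (hX : (Fintype.card X : ℝ) + 1 ≤ P)
    (f : V → H) (CE : ℝ) (hE : ∀ b : H, ∑ e, ⟪b, f (t e) - f (s e)⟫ ^ 2 ≤ CE * ‖b‖ ^ 2)
    (xs : T → V) (hxs : ∀ τ, xs τ ∈ Λ τ) (b : H) :
    ∑ q : T × X, ⟪b, f (xs q.1) - ∑ v, β q.1 q.2 v • f v⟫ ^ 2 ≤ 2 * P ^ 3 * CE * ‖b‖ ^ 2 := by
  have hP : 0 ≤ P := le_trans (by positivity) hX
  have h1 : ∀ τ x, ⟪b, f (xs τ) - ∑ v, β τ x v • f v⟫ ^ 2 ≤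
      P ^ 2 * ∑ e ∈ F τ, ⟪b, f (t e) - f (s e)⟫ ^ 2 := by
    intro τ x
    have hS : 0 ≤ ∑ e ∈ F τ, ⟪b, f (t e) - f (s e)⟫ ^ 2 := sum_nonneg fun e _ => sq_nonneg _
    have h2 : ‖∑ v, β τ x v • ⟪b, f (xs τ) - f v⟫‖ ≤
        P * √(∑ e ∈ F τ, ⟪b, f (t e) - f (s e)⟫ ^ 2) := by
      refine glb_avg _ (G.nonneg τ x) (G.total τ x) _ _ fun v hv => ?_
      have := glb_scalar s t (F τ) P (xs τ) v
        (fun φ r hr h => G.lip0 τ φ r hr h _ (hxs τ) _ (glb_mem G hv)) (fun w => ⟪b, f w⟫)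
      simpa only [← inner_sub_right, Real.norm_eq_abs] using this
    have h3 : ⟪b, f (xs τ) - ∑ v, β τ x v • f v⟫ = ∑ v, β τ x v • ⟪b, f (xs τ) - f v⟫ := by
      rw [glb_sub_avg _ (G.total τ x), inner_sum]
      simp only [real_inner_smul_right, smul_eq_mul]
    rw [h3, ← sq_abs, ← Real.sq_sqrt hS, ← mul_pow]
    exact pow_le_pow_left₀ (abs_nonneg _) h2 2
  have h4 := glb_twice F G.twice (fun e => ⟪b, f (t e) - f (s e)⟫ ^ 2) fun e => sq_nonneg _
  calc ∑ q : T × X, ⟪b, f (xs q.1) - ∑ v, β q.1 q.2 v • f v⟫ ^ 2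
      = ∑ τ, ∑ x, ⟪b, f (xs τ) - ∑ v, β τ x v • f v⟫ ^ 2 := Fintype.sum_prod_type _
    _ ≤ ∑ τ, P * (P ^ 2 * ∑ e ∈ F τ, ⟪b, f (t e) - f (s e)⟫ ^ 2) := by
        refine sum_le_sum fun τ _ => (sum_le_sum fun x _ => h1 τ x).trans ?_
        rw [sum_const, nsmul_eq_mul, card_univ]
        refine mul_le_mul_of_nonneg_right (by linarith) ?_
        exact mul_nonneg (sq_nonneg _) (sum_nonneg fun e _ => sq_nonneg _)
    _ = P ^ 3 * ∑ τ, ∑ e ∈ F τ, ⟪b, f (t e) - f (s e)⟫ ^ 2 := by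
        rw [mul_sum]; exact sum_congr rfl fun τ _ => by ring
    _ ≤ P ^ 3 * (2 * (CE * ‖b‖ ^ 2)) :=
        mul_le_mul_of_nonneg_left (h4.trans (by linarith [hE b])) (by positivity)
    _ = 2 * P ^ 3 * CE * ‖b‖ ^ 2 := by ring

lemma glb_unready (cl : T → T) (rd : Finset T)
    (h : ∀ τ, τ ∉ rd → ∀ τ', cl τ' = cl τ → τ' = τ) :
    (univ.filter fun τ => τ ∉ rd).card ≤ (univ.image cl).card := by
  refine card_le_card_of_injOn cl (fun τ _ => by simp) fun τ hτ τ' hτ' e => ?_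
  exact h τ' (by simpa using hτ') τ e

lemma glb_U (G : Geo s t β Λ own F α P l1 L1 K) (hl : 0 ≤ l1) (m0 : X → ℝ) (hm : ∀ x, 0 ≤ m0 x)
    (hm1 : ∑ x, m0 x = 1) (cl : T → T) (rd : Finset T)
    (h : ∀ τ, τ ∉ rd → ∀ τ', cl τ' = cl τ → τ' = τ) (f : V → H) (a : T → H) (CE ρ : ℝ)
    (hρ : 0 < ρ)
    (hE : ∑ e, ‖f (t e) - f (s e)‖ ^ 2 ≤ CE * (P * (univ.image cl).card))
    (hA : ∑ τ ∈ rd, ‖a (cl τ) - ∑ v, mu β m0 τ v • f v‖ ^ 2 ≤ P * (univ.image cl).card) :
    ∃ U : Finset V, (U.card : ℝ) ≤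
        L1 * (1 + P * (2 * l1 ^ 2 * CE + 1) / ρ ^ 2) * (univ.image cl).card ∧
      ∀ v, v ∉ U → own v ∈ rd ∧ ‖f v - a (cl (own v))‖ ≤ 2 * ρ := by
  classical
  set p : ℝ := ((univ.image cl).card : ℝ) with hp
  set g1 : T → ℝ := fun τ => l1 ^ 2 * ∑ e ∈ F τ, ‖f (t e) - f (s e)‖ ^ 2 with hg1
  set g2 : T → ℝ := fun τ =>
    if τ ∈ rd then ‖a (cl τ) - ∑ v, mu β m0 τ v • f v‖ ^ 2 else 0 with hg2
  have hρ2 : 0 < ρ ^ 2 := by positivity
  have m1 := glb_markov g1 (ρ ^ 2) (l1 ^ 2 * (2 * (CE * (P * p))))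
    (fun τ => mul_nonneg (sq_nonneg _) (sum_nonneg fun e _ => sq_nonneg _)) (by
      rw [hg1, ← mul_sum]
      refine mul_le_mul_of_nonneg_left ?_ (sq_nonneg _)
      have := glb_twice F G.twice (fun e => ‖f (t e) - f (s e)‖ ^ 2) fun e => sq_nonneg _
      linarith)
  have m2 := glb_markov g2 (ρ ^ 2) (P * p)
    (fun τ => by simp only [hg2]; split_ifs <;> positivity) (by
      rw [hg2, ← sum_filter, filter_mem_eq_inter, univ_inter]
      exact hA)
  have m3 : (((univ.filter fun τ => τ ∉ rd).card : ℕ) : ℝ) ≤ p := by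
    rw [hp]; exact_mod_cast glb_unready cl rd h
  set B : Finset T := (univ.filter fun τ => τ ∉ rd) ∪
    ((univ.filter fun τ => ρ ^ 2 < g1 τ) ∪ (univ.filter fun τ => ρ ^ 2 < g2 τ)) with hB
  have hBc : (B.card : ℝ) ≤ (1 + P * (2 * l1 ^ 2 * CE + 1) / ρ ^ 2) * p := by
    have c1 : B.card ≤ (univ.filter fun τ => τ ∉ rd).card +
        ((univ.filter fun τ => ρ ^ 2 < g1 τ).card + (univ.filter fun τ => ρ ^ 2 < g2 τ).card) :=
      (card_union_le _ _).trans (add_le_add le_rfl (card_union_le _ _))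
    have c2 : (B.card : ℝ) ≤ (univ.filter fun τ => τ ∉ rd).card +
        (((univ.filter fun τ => ρ ^ 2 < g1 τ).card : ℝ) +
          (univ.filter fun τ => ρ ^ 2 < g2 τ).card) := by exact_mod_cast c1
    have c3 : ((univ.filter fun τ => ρ ^ 2 < g1 τ).card : ℝ) +
        (univ.filter fun τ => ρ ^ 2 < g2 τ).card ≤ P * (2 * l1 ^ 2 * CE + 1) / ρ ^ 2 * p := by
      rw [div_mul_eq_mul_div, le_div_iff₀ hρ2]
      nlinarith
    nlinarith
  refine ⟨univ.filter fun v => own v ∈ B, ?_, fun v hv => ?_⟩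
  · have c4 : ((univ.filter fun v => own v ∈ B).card : ℝ) ≤ L1 * B.card := by
      exact_mod_cast glb_cells own L1 G.cell B
    rw [mul_assoc]
    exact c4.trans (mul_le_mul_of_nonneg_left hBc (Nat.cast_nonneg _))
  · simp only [hB, mem_filter, mem_univ, true_and, mem_union, not_or, not_not, not_lt] at hv
    obtain ⟨h1, h2, h3⟩ := hv
    refine ⟨h1, ?_⟩
    have e1 : ‖a (cl (own v)) - ∑ w, mu β m0 (own v) w • f w‖ ≤ ρ := by
      simp only [hg2, h1, if_true] at h3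
      exact (pow_le_pow_iff_left₀ (norm_nonneg _) hρ.le two_ne_zero).1 h3
    have e2 : l1 * √(∑ e ∈ F (own v), ‖f (t e) - f (s e)‖ ^ 2) ≤ ρ := by
      refine (pow_le_pow_iff_left₀ (by positivity) hρ.le two_ne_zero).1 ?_
      rw [mul_pow, Real.sq_sqrt (sum_nonneg fun e _ => sq_nonneg _)]
      exact h2
    have e3 : ‖f v - ∑ w, mu β m0 (own v) w • f w‖ ≤ ρ := by
      rw [glb_mu_smul, glb_sub_avg _ hm1]
      refine glb_avg _ hm hm1 _ _ fun x _ => ?_
      rw [glb_sub_avg _ (G.total _ x)]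
      refine glb_avg _ (G.nonneg _ x) (G.total _ x) _ _ fun w hw => ?_
      exact (glb_vec s t _ l1 hl v w
        (fun φ r hr h => G.lip1 v φ r hr h w (glb_mem G hw)) f).trans e2
    have e4 := norm_sub_le (f v - ∑ w, mu β m0 (own v) w • f w)
      (a (cl (own v)) - ∑ w, mu β m0 (own v) w • f w)
    rw [sub_sub_sub_cancel_right] at e4
    linarith

end Pool.Agent.Lib.MP_c8786f_co.W5
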