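import Pool.Agent.Lib.MP_c8786f_co.W5.Defs

/-!
Module GS: from the geometric lemma to short solutions of the linear systems.
-/

namespace Pool.Agent.Lib.MP_c8786f_co.W5

open Finset
open scoped RealInnerProductSpace

set_option linter.unusedSectionVars false

/-- a projection of small rank that kills the kernel and respects the images of given vectors -/
lemma gs_proj {ι Y : Type} [Fintype ι] [AddCommGroup Y] [Module ℝ Y]
    (Lm : EuclideanSpace ℝ ι →ₗ[ℝ] Y) (S : Finset (EuclideanSpace ℝ ι)) :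
    ∃ Pr : EuclideanSpace ℝ ι →ₗ[ℝ] EuclideanSpace ℝ ι,
      (∀ k, Lm k = 0 → Pr k = 0) ∧ (∀ x ∈ S, Lm (Pr x) = Lm x) ∧ (∀ x, ‖Pr x‖ ≤ ‖x‖) ∧
      (∀ x y, ⟪x, Pr y⟫ = ⟪Pr x, y⟫) ∧
      ∀ [DecidableEq ι], ∑ i, ‖Pr (EuclideanSpace.single i 1)‖ ^ 2 ≤ S.card := by
  classical
  set Kr : Submodule ℝ (EuclideanSpace ℝ ι) := LinearMap.ker Lm with hKr
  set S' : Finset (EuclideanSpace ℝ ι) := S.image fun x => Krᗮ.starProjection x with hS'
  set Hs : Submodule ℝ (EuclideanSpace ℝ ι) := Submodule.span ℝ (S' : Set _) with hHs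
  have hle : Hs ≤ Krᗮ := by
    rw [hHs, Submodule.span_le]
    intro y hy
    obtain ⟨x, -, rfl⟩ := mem_image.mp (mem_coe.mp hy)
    exact Submodule.starProjection_apply_mem _ _
  have hker : ∀ k, Lm k = 0 → Hs.starProjection k = 0 := by
    intro k hk
    rw [Submodule.starProjection_apply_eq_zero_iff]
    have h1 : k ∈ Krᗮᗮ := Submodule.le_orthogonal_orthogonal Kr (LinearMap.mem_ker.mpr hk)
    exact Submodule.orthogonal_le hle h1
  have hdiff : ∀ x, Lm (x - Krᗮ.starProjection x) = 0 := by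
    intro x
    have h1 : x - Krᗮ.starProjection x ∈ Krᗮᗮ := Submodule.sub_starProjection_mem_orthogonal x
    rw [Submodule.orthogonal_orthogonal] at h1
    exact LinearMap.mem_ker.mp h1
  refine ⟨(Hs.starProjection : _ →L[ℝ] _).toLinearMap, hker, ?_, ?_, ?_, ?_⟩
  · intro x hx
    have h1 : Hs.starProjection x = Krᗮ.starProjection x := by
      have h2 := hker _ (hdiff x)
      rw [map_sub, sub_eq_zero] at h2
      rw [h2, Submodule.starProjection_eq_self_iff]
      exact Submodule.subset_span (mem_coe.mpr (mem_image_of_mem _ hx))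
    have h3 := hdiff x
    rw [map_sub, sub_eq_zero] at h3
    simp only [ContinuousLinearMap.coe_coe]
    rw [h1, ← h3]
  · intro x
    exact Hs.norm_starProjection_apply_le x
  · intro x y
    exact (Hs.inner_starProjection_left_eq_right x y).symm
  · intro _
    have hp : LinearMap.IsProj Hs (Hs.starProjection : _ →L[ℝ] _).toLinearMap :=
      ⟨fun x => Submodule.starProjection_apply_mem _ _,
        fun x hx => Submodule.starProjection_eq_self_iff.mpr hx⟩
    have h1 := hp.trace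
    rw [LinearMap.trace_eq_sum_inner _ (EuclideanSpace.basisFun ι ℝ)] at h1
    have h2 : ∑ i, ‖Hs.starProjection (EuclideanSpace.single i (1 : ℝ))‖ ^ 2 =
        (Module.finrank ℝ Hs : ℝ) := by
      rw [← h1]
      refine sum_congr rfl fun i _ => ?_
      simp only [EuclideanSpace.basisFun_apply, ContinuousLinearMap.coe_coe]
      rw [← real_inner_self_eq_norm_sq, Hs.inner_starProjection_left_eq_right,
        Submodule.starProjection_eq_self_iff.mpr (Submodule.starProjection_apply_mem _ _)]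
    simp only [ContinuousLinearMap.coe_coe]
    rw [h2]
    have h3 : Module.finrank ℝ Hs ≤ S'.card := finrank_span_finset_le_card S'
    exact_mod_cast h3.trans card_image_le

section

variable {V E T X : Type} [Fintype V] [DecidableEq V] [Fintype E] [DecidableEq E] [Fintype T]
  [DecidableEq T] [Fintype X]

/-- the linear system of a state -/
def gsL (s t : E → V) (β : T → X → V → ℝ) (m0 : X → ℝ) (ε w : ℝ) (cl : T → T) (rd : Finset T) :
    EuclideanSpace ℝ (E ⊕ T) →ₗ[ℝ] (V → ℝ) × (T → ℝ) × (T → ℝ) where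
  toFun u := (fun v => ε * bd s t (fun e => u (.inl e)) v -
      w * ∑ τ ∈ rd, u (.inr τ) * mu β m0 τ v,
    fun τ => if τ ∈ rd then 0 else u (.inr τ), fun A => w * ∑ τ with cl τ = A, u (.inr τ))
  map_add' u u' := by
    refine Prod.ext (funext fun v => ?_) (Prod.ext (funext fun τ => ?_) (funext fun A => ?_))
    · simp only [bd, PiLp.add_apply, Prod.fst_add, Pi.add_apply, add_mul, sum_add_distrib]
      ring
    · simp only [PiLp.add_apply, Prod.snd_add, Prod.fst_add, Pi.add_apply]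
      split_ifs <;> simp
    · simp only [PiLp.add_apply, Prod.snd_add, Pi.add_apply, sum_add_distrib]
      ring
  map_smul' c u := by
    refine Prod.ext (funext fun v => ?_) (Prod.ext (funext fun τ => ?_) (funext fun A => ?_))
    · simp only [bd, PiLp.smul_apply, smul_eq_mul, RingHom.id_apply, Prod.smul_fst,
        Pi.smul_apply, mul_assoc, ← mul_sum]
      ring
    · simp only [PiLp.smul_apply, smul_eq_mul, RingHom.id_apply, Prod.smul_snd, Prod.smul_fst,
        Pi.smul_apply]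
      split_ifs <;> simp
    · simp only [PiLp.smul_apply, smul_eq_mul, RingHom.id_apply, Prod.smul_snd,
        Pi.smul_apply, ← mul_sum]
      ring

lemma gs_sol {s t : E → V} {β : T → X → V → ℝ} {m0 : X → ℝ} {ε w : ℝ} {cl : T → T}
    {rd : Finset T} {u : EuclideanSpace ℝ (E ⊕ T)} {y : V → ℝ} {r : T → ℝ}
    (h : gsL s t β m0 ε w cl rd u = (y, 0, r)) :
    Sol s t β m0 ε w cl rd (fun i => u i) y r := by
  refine ⟨fun v => congrFun (congrArg Prod.fst h) v, fun τ hτ => ?_,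
    fun A => congrFun (congrArg (fun p => p.2.2) h) A⟩
  have := congrFun (congrArg (fun p => p.2.1) h) τ
  simpa [gsL, hτ] using this

lemma gs_edge (s t : E → V) (β : T → X → V → ℝ) (m0 : X → ℝ) (ε w : ℝ) (cl : T → T)
    (rd : Finset T) (e : E) :
    gsL s t β m0 ε w cl rd (EuclideanSpace.single (.inl e) 1) =
      (ε • (Pi.single (s e) 1 - Pi.single (t e) 1), 0, 0) := by
  refine Prod.ext (funext fun v => ?_) (Prod.ext (funext fun τ => ?_) (funext fun A => ?_))
  · simp [gsL, bd, Pi.single_apply, eq_comm]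
  · simp [gsL]
  · simp [gsL]

lemma gs_win (s t : E → V) (β : T → X → V → ℝ) (m0 : X → ℝ) (ε w : ℝ) (cl : T → T)
    (rd : Finset T) {τ : T} (hτ : τ ∈ rd) :
    gsL s t β m0 ε w cl rd (EuclideanSpace.single (.inr τ) 1) =
      (-(w • mu β m0 τ), 0, w • Pi.single (cl τ) 1) := by
  refine Prod.ext (funext fun v => ?_) (Prod.ext (funext fun τ' => ?_) (funext fun A => ?_))
  · simp [gsL, bd, hτ]
  · simp only [gsL, LinearMap.coe_mk, AddHom.coe_mk, Pi.zero_apply]
    split_ifs with h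
    · rfl
    · have : τ' ≠ τ := fun h' => h (h' ▸ hτ)
      simp [this]
  · simp [gsL, Pi.single_apply, eq_comm]

/-- the graph is connected -/
lemma gs_conn {s t : E → V} {β : T → X → V → ℝ} (m0 : X → ℝ) {ε : ℝ} (w : ℝ) (cl : T → T)
    (rd : Finset T) (hε : 0 < ε)
    (hiso : ∀ Y : Finset V, 1 ≤ Y.card → 1 ≤ Yᶜ.card → 1 ≤ cut s t Y) (v0 v : V) :
    ∃ F, gsL s t β m0 ε w cl rd F = (Pi.single v 1 - Pi.single v0 1, 0, 0) := by
  classical
  set Y : Finset V := univ.filter fun v =>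
    ∃ F, gsL s t β m0 ε w cl rd F = (Pi.single v 1 - Pi.single v0 1, 0, 0) with hY
  have h0 : v0 ∈ Y := by
    rw [hY, mem_filter]
    exact ⟨mem_univ _, 0, by simp [Prod.ext_iff]⟩
  have hcut : cut s t Y = 0 := by
    unfold cut
    rw [card_eq_zero, filter_eq_empty_iff]
    intro e _
    rw [not_not]
    simp only [hY, mem_filter, mem_univ, true_and]
    constructor
    · rintro ⟨F, hF⟩
      refine ⟨F - ε⁻¹ • EuclideanSpace.single (.inl e) 1, ?_⟩
      rw [map_sub, map_smul, hF, gs_edge]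
      simp [smul_smul, inv_mul_cancel₀ hε.ne', Prod.ext_iff]
    · rintro ⟨F, hF⟩
      refine ⟨F + ε⁻¹ • EuclideanSpace.single (.inl e) 1, ?_⟩
      rw [map_add, map_smul, hF, gs_edge]
      simp [smul_smul, inv_mul_cancel₀ hε.ne']
  by_contra hv
  have hv' : v ∈ Yᶜ := by
    rw [mem_compl, hY, mem_filter]
    exact fun h => hv h.2
  have := hiso Y (card_pos.mpr ⟨v0, h0⟩) (card_pos.mpr ⟨v, hv'⟩)
  omega

lemma gs_comb {Lm : EuclideanSpace ℝ (E ⊕ T) →ₗ[ℝ] (V → ℝ) × (T → ℝ) × (T → ℝ)} {v0 : V}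
    {F : V → EuclideanSpace ℝ (E ⊕ T)}
    (hF : ∀ v, Lm (F v) = (Pi.single v 1 - Pi.single v0 1, 0, 0)) (γ : V → ℝ)
    (hγ : ∑ v, γ v = 1) : Lm (∑ v, γ v • F v) = (γ - Pi.single v0 1, 0, 0) := by
  rw [map_sum]
  simp only [map_smul, hF]
  refine Prod.ext ?_ (Prod.ext ?_ ?_)
  · rw [Prod.fst_sum]
    funext u
    simp only [Prod.smul_mk, Finset.sum_apply, Pi.smul_apply, Pi.sub_apply, smul_eq_mul, mul_sub,
      sum_sub_distrib, ← sum_mul, hγ, one_mul]
    simp [Pi.single_apply]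
  · simp [Prod.snd_sum]
  · simp [Prod.snd_sum]

end

theorem gs_of_gl : GLStmt → GSStmt := by
  intro hGL ε w c hε hε1 hw hc hc1
  have hCE : 1 ≤ (ε⁻¹) ^ 2 := one_le_pow₀ (one_le_inv_iff₀.mpr ⟨hε, hε1⟩)
  obtain ⟨A, hA, hA2⟩ := hGL c ((ε⁻¹) ^ 2) hc hc1 hCE
  refine ⟨A, hA, fun P α l1 L1 hP hl1 hα => ?_⟩
  obtain ⟨K, hK⟩ := hA2 P α l1 L1 hP hl1 hα
  refine ⟨max K 1, ?_⟩
  intro V E T X _ _ _ _ _ _ _ s t β Λ own F hgeo hX m0 hm0 hm1 cl rd hun hp
  classical
  have hw0 : 0 < w := by linarith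
  have geoK := hgeo.mono (le_max_left K 1)
  have geo1 := hgeo.mono (le_max_right K 1)
  obtain ⟨τ0⟩ : Nonempty T := by
    rcases hp with h | ⟨τ, -⟩
    · obtain ⟨A, -⟩ : (univ.image cl).Nonempty := card_pos.mp (by omega)
      exact ⟨A⟩
    · exact ⟨τ⟩
  obtain ⟨x0⟩ : Nonempty X := by
    by_contra h
    rw [not_nonempty_iff] at h
    simp at hm1
  obtain ⟨v0⟩ : Nonempty V := by
    by_contra h
    rw [not_nonempty_iff] at h
    have := hgeo.total τ0 x0
    simp at this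
  set Lm := gsL s t β m0 ε w cl rd with hLm
  choose Fv hFv using fun v => gs_conn (β := β) m0 w cl rd hε geo1.iso2 v0 v
  rw [← hLm] at hFv
  have hmu : ∀ τ, ∑ v, mu β m0 τ v = 1 := by
    intro τ
    unfold mu
    rw [sum_comm]
    simp only [← mul_sum, hgeo.total, mul_one, hm1]
  set G : T → EuclideanSpace ℝ (E ⊕ T) := fun τ =>
    w⁻¹ • EuclideanSpace.single (.inr τ) 1 + ∑ v, mu β m0 τ v • Fv v with hG
  have hLG : ∀ τ ∈ rd, Lm (G τ) = (-Pi.single v0 1, 0, Pi.single (cl τ) 1) := by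
    intro τ hτ
    rw [hG]
    simp only
    rw [map_add, map_smul, gs_comb hFv _ (hmu τ), hLm, gs_win _ _ _ _ _ _ _ _ hτ]
    simp [smul_smul, inv_mul_cancel₀ hw0.ne', sub_eq_add_neg]
  have hrep : ∀ A : T, ∃ τ', ∀ τ ∈ rd, cl τ = A → τ' ∈ rd ∧ cl τ' = A := by
    intro A
    by_cases h : ∃ τ ∈ rd, cl τ = A
    · obtain ⟨τ, h1, h2⟩ := h
      exact ⟨τ, fun _ _ _ => ⟨h1, h2⟩⟩
    · exact ⟨A, fun τ h1 h2 => absurd ⟨τ, h1, h2⟩ h⟩
  choose rep hrep using hrep
  set B : T × X → EuclideanSpace ℝ (E ⊕ T) := fun q => ∑ v, β q.1 q.2 v • Fv v with hB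
  set S : Finset (EuclideanSpace ℝ (E ⊕ T)) :=
    (rdᶜ ×ˢ (univ : Finset X)).image B ∪ (rd.image cl).image fun A => G (rep A) with hS
  have hcard : (S.card : ℝ) ≤ P * (univ.image cl).card := by
    have h1 : rdᶜ.card ≤ (univ.image cl).card := by
      refine card_le_card_of_injOn cl (fun τ _ => mem_coe.mpr (mem_image_of_mem _ (mem_univ _))) ?_
      intro τ hτ τ' _ h
      exact (hun τ (mem_compl.mp (mem_coe.mp hτ)) τ' h.symm).symm
    have h2 : (rd.image cl).card ≤ (univ.image cl).card :=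
      card_le_card (image_subset_image (subset_univ _))
    have h3 : S.card ≤ (univ.image cl).card * Fintype.card X + (univ.image cl).card := by
      refine (card_union_le _ _).trans (add_le_add (card_image_le.trans ?_) (card_image_le.trans h2))
      rw [card_product, card_univ]
      exact Nat.mul_le_mul_right _ h1
    have h4 : (S.card : ℝ) ≤ (univ.image cl).card * Fintype.card X + (univ.image cl).card := by
      exact_mod_cast h3
    have h5 : (0 : ℝ) ≤ (univ.image cl).card := Nat.cast_nonneg _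
    nlinarith
  obtain ⟨Pr, hk, hS1, hn, hsym, htr⟩ := gs_proj Lm S
  have htr' := htr.trans hcard
  rw [Fintype.sum_sum_type] at htr'
  have hE0 : 0 ≤ ∑ e : E, ‖Pr (EuclideanSpace.single (.inl e) 1)‖ ^ 2 :=
    sum_nonneg fun _ _ => sq_nonneg _
  have hT0 : 0 ≤ ∑ τ : T, ‖Pr (EuclideanSpace.single (.inr τ) 1)‖ ^ 2 :=
    sum_nonneg fun _ _ => sq_nonneg _
  have hdf : ∀ e, Pr (Fv (t e)) - Pr (Fv (s e)) =
      -(ε⁻¹ • Pr (EuclideanSpace.single (.inl e) 1)) := by
    intro e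
    have h1 : Lm (Fv (t e) - Fv (s e) + ε⁻¹ • EuclideanSpace.single (.inl e) 1) = 0 := by
      rw [map_add, map_sub, map_smul, hFv, hFv, hLm, gs_edge]
      simp [smul_smul, inv_mul_cancel₀ hε.ne']
    have h2 := hk _ h1
    rw [map_add, map_sub, map_smul] at h2
    exact eq_neg_of_add_eq_zero_left h2
  have hlin : ∀ γ : V → ℝ, ∑ v, γ v • Pr (Fv v) = Pr (∑ v, γ v • Fv v) := by
    intro γ
    rw [map_sum]
    simp only [map_smul]
  have hda : ∀ τ ∈ rd, Pr (G (rep (cl τ))) - ∑ v, mu β m0 τ v • Pr (Fv v) =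
      w⁻¹ • Pr (EuclideanSpace.single (.inr τ) 1) := by
    intro τ hτ
    obtain ⟨h1, h2⟩ := hrep (cl τ) τ hτ rfl
    have h3 : Lm (G (rep (cl τ)) - G τ) = 0 := by
      rw [map_sub, hLG _ h1, hLG _ hτ, h2, sub_self]
    have h4 := hk _ h3
    rw [map_sub, sub_eq_zero] at h4
    rw [h4, hlin, hG]
    simp only [map_add, map_smul, add_sub_cancel_right]
  have hwi : 0 < w⁻¹ := inv_pos.mpr hw0
  have hwi1 : w⁻¹ ≤ 1 := inv_le_one_of_one_le₀ hw
  have hnorm : ∀ u : EuclideanSpace ℝ (E ⊕ T), ∑ i, u i ^ 2 = ‖u‖ ^ 2 := by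
    intro u
    rw [EuclideanSpace.real_norm_sq_eq]
  have key := hK V E T X (EuclideanSpace ℝ (E ⊕ T)) s t β Λ own F geoK hX m0 hm0 hm1 cl rd hun hp
    (fun v => Pr (Fv v)) (fun A => Pr (G (rep A))) w⁻¹ ?_ ?_ ?_ ?_
  · rcases key with ⟨τ, hτ, h⟩ | ⟨τ, hτ, τ', hτ', hne, h⟩
    · refine Or.inl ⟨τ, hτ, fun x x' => ?_⟩
      have hm : ∀ x, B (τ, x) ∈ S := fun x =>
        mem_union_left _ (mem_image_of_mem _ (mem_product.mpr ⟨mem_compl.mpr hτ, mem_univ _⟩))
      refine ⟨fun i => (Pr (B (τ, x)) - Pr (B (τ, x'))) i, gs_sol ?_, ?_⟩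
      · rw [← hLm, map_sub, hS1 _ (hm x), hS1 _ (hm x'), hB]
        simp only
        rw [gs_comb hFv _ (hgeo.total τ x), gs_comb hFv _ (hgeo.total τ x')]
        simp only [Prod.mk_sub_mk, sub_self, sub_sub_sub_cancel_right]
        rfl
      · rw [hnorm]
        have h1 := h x x'
        simp only [hlin] at h1
        exact pow_le_pow_left₀ (norm_nonneg _) h1 2
    · refine Or.inr ⟨τ, hτ, τ', hτ', hne, fun i =>
        (Pr (G (rep (cl τ))) - Pr (G (rep (cl τ')))) i, gs_sol ?_, ?_⟩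
      · have hm : ∀ τ ∈ rd, G (rep (cl τ)) ∈ S := fun τ hτ =>
          mem_union_right _ (mem_image_of_mem (fun A => G (rep A)) (mem_image_of_mem _ hτ))
        obtain ⟨h1, h2⟩ := hrep (cl τ) τ hτ rfl
        obtain ⟨h3, h4⟩ := hrep (cl τ') τ' hτ' rfl
        rw [← hLm, map_sub, hS1 _ (hm τ hτ), hS1 _ (hm τ' hτ'), hLG _ h1, hLG _ h3, h2, h4]
        simp only [Prod.mk_sub_mk, sub_self]
        congr 2
        funext A
        simp [Pi.single_apply]
      · rw [hnorm, div_eq_mul_inv]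
        exact pow_le_pow_left₀ (norm_nonneg _) h 2
  · intro b
    simp only [hdf, inner_neg_right, inner_smul_right, neg_sq, mul_pow, ← mul_sum, hsym]
    refine mul_le_mul_of_nonneg_left ?_ (sq_nonneg _)
    have h1 : ∑ e : E, ⟪Pr b, EuclideanSpace.single (Sum.inl e : E ⊕ T) (1 : ℝ)⟫ ^ 2 ≤
        ‖Pr b‖ ^ 2 := by
      rw [← hnorm, Fintype.sum_sum_type]
      simp only [EuclideanSpace.inner_single_right, conj_trivial, one_mul]
      exact le_add_of_nonneg_right (sum_nonneg fun _ _ => sq_nonneg _)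
    exact h1.trans (pow_le_pow_left₀ (norm_nonneg _) (hn b) 2)
  · simp only [hdf, norm_neg, norm_smul, mul_pow, ← mul_sum, Real.norm_eq_abs, sq_abs]
    exact mul_le_mul_of_nonneg_left (by linarith) (sq_nonneg _)
  · rw [sum_congr rfl fun τ hτ => by rw [hda τ hτ]]
    have h1 : ∑ τ ∈ rd, ‖w⁻¹ • Pr (EuclideanSpace.single (.inr τ) 1)‖ ^ 2 ≤
        ∑ τ ∈ rd, ‖Pr (EuclideanSpace.single (.inr τ) 1)‖ ^ 2 := by
      refine sum_le_sum fun τ _ => pow_le_pow_left₀ (norm_nonneg _) ?_ 2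
      rw [norm_smul, Real.norm_eq_abs, abs_of_pos hwi]
      exact mul_le_of_le_one_left (norm_nonneg _) hwi1
    have h2 : ∑ τ ∈ rd, ‖Pr (EuclideanSpace.single (.inr τ) 1)‖ ^ 2 ≤
        ∑ τ : T, ‖Pr (EuclideanSpace.single (.inr τ) 1)‖ ^ 2 :=
      sum_le_sum_of_subset_of_nonneg (subset_univ _) fun _ _ _ => sq_nonneg _
    linarith
  · intro τ hτ
    rw [hda τ hτ, norm_smul, Real.norm_eq_abs, abs_of_pos hwi]
    refine mul_le_of_le_one_right hwi.le ((hn _).trans ?_)
    simp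

end Pool.Agent.Lib.MP_c8786f_co.W5
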