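import Pool.Agent.Lib.MP_c8786f_co.W5.Defs

/-!
Weak five-flow theorem, module GT: the abstract balancing theorem from the game and the
geometric step.
-/

namespace Pool.Agent.Lib.MP_c8786f_co.W5

open Finset

set_option linter.unusedSectionVars false

lemma gt_win_mono {ι : Type} {L : List ((ι → ℝ) × ℝ)} {Ψ Φ : (ι → ℝ) → Prop} (h : Win L Ψ)
    (hi : ∀ z, Ψ z → Φ z) : Win L Φ := by
  cases L with
  | nil => exact hi _ h
  | cons p L =>
    obtain ⟨Ψ', h1, h2⟩ := h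
    refine ⟨Ψ', h1, fun z hz => ?_⟩
    obtain ⟨⟨a, ha, ha', h3⟩, ⟨b, hb, hb', h4⟩⟩ := h2 z hz
    exact ⟨⟨a, ha, ha', hi _ h3⟩, ⟨b, hb, hb', hi _ h4⟩⟩

lemma gt_win_cons {ι : Type} {L : List ((ι → ℝ) × ℝ)} {Ψ Φ : (ι → ℝ) → Prop} (h : Win L Ψ)
    (u : ι → ℝ) (η : ℝ) (hi : ∀ z, Ψ z → ∀ σ : ℝ, σ = 1 ∨ σ = -1 →
      ∃ a, η ≤ a ∧ a ≤ 1 ∧ Φ (z + (σ * a) • u)) : Win ((u, η) :: L) Φ := by
  refine ⟨Ψ, h, fun z hz => ⟨?_, ?_⟩⟩
  · obtain ⟨a, h1, h2, h3⟩ := hi z hz 1 (Or.inl rfl)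
    exact ⟨a, h1, h2, by simpa using h3⟩
  · obtain ⟨a, h1, h2, h3⟩ := hi z hz (-1) (Or.inr rfl)
    exact ⟨a, h1, h2, by simpa [sub_eq_add_neg] using h3⟩

/-- admissible lists of moves -/
def gt_Adm {ι : Type} [Fintype ι] (L : List ((ι → ℝ) × ℝ)) : Prop :=
  ∀ p ∈ L, 0 < p.2 ∧ p.2 ≤ 1 ∧ 3600 * ∑ i, p.1 i ^ 2 ≤ p.2 ^ 2

lemma gt_adm_cons {ι : Type} [Fintype ι] {L : List ((ι → ℝ) × ℝ)} (h : gt_Adm L) (u : ι → ℝ)
    (η : ℝ) (h1 : 0 < η) (h2 : η ≤ 1) (h3 : 3600 * ∑ i, u i ^ 2 ≤ η ^ 2) :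
    gt_Adm ((u, η) :: L) := by
  intro p hp
  rcases List.mem_cons.1 hp with rfl | hp
  · exact ⟨h1, h2, h3⟩
  · exact h p hp

lemma gt_par (x σ : ℝ) (hσ : σ = 1 ∨ σ = -1) :
    ∃ a : ℝ, 1 / 3 ≤ a ∧ a ≤ 1 ∧ ∃ k : ℤ, x + σ * a * 3 = 2 * k := by
  have key : ∀ y : ℝ, ∃ a : ℝ, 1 / 3 ≤ a ∧ a ≤ 1 ∧ ∃ k : ℤ, y + a * 3 = 2 * k := by
    intro y
    have h1 := Int.le_ceil ((y + 1) / 2)
    have h2 := Int.ceil_lt_add_one ((y + 1) / 2)
    refine ⟨(2 * (⌈(y + 1) / 2⌉ : ℝ) - y) / 3, by linarith, by linarith, ⌈(y + 1) / 2⌉, by ring⟩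
  rcases hσ with rfl | rfl
  · obtain ⟨a, h1, h2, k, h3⟩ := key x
    exact ⟨a, h1, h2, k, by linarith⟩
  · obtain ⟨a, h1, h2, k, h3⟩ := key (-x)
    exact ⟨a, h1, h2, -k, by push_cast; linarith⟩

lemma gt_cs {X I : Type} [Fintype X] [Fintype I] (d : X → ℝ) (U : X → I → ℝ) (c B : ℝ)
    (hd : ∑ x, |d x| ≤ B) (hU : ∀ x, ∑ i, U x i ^ 2 ≤ c ^ 2) :
    ∑ i, (∑ x, d x * U x i) ^ 2 ≤ (B * c) ^ 2 := by
  have h0 : 0 ≤ ∑ x, |d x| := sum_nonneg fun x _ => abs_nonneg _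
  have h1 : ∀ i, (∑ x, d x * U x i) ^ 2 ≤ (∑ x, |d x|) * ∑ x, |d x| * U x i ^ 2 := by
    intro i
    refine sum_sq_le_sum_mul_sum_of_sq_le_mul _ (fun x _ => abs_nonneg _)
      (fun x _ => by positivity) fun x _ => le_of_eq ?_
    rw [mul_pow, ← sq_abs (d x)]
    ring
  calc ∑ i, (∑ x, d x * U x i) ^ 2 ≤ ∑ i, (∑ x, |d x|) * ∑ x, |d x| * U x i ^ 2 :=
        sum_le_sum fun i _ => h1 i
    _ = (∑ x, |d x|) * ∑ x, |d x| * ∑ i, U x i ^ 2 := by
        rw [← mul_sum, sum_comm]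
        simp only [mul_sum]
    _ ≤ (∑ x, |d x|) * ∑ x, |d x| * c ^ 2 := by
        gcongr with x
        exact hU x
    _ = (∑ x, |d x|) ^ 2 * c ^ 2 := by rw [← sum_mul]; ring
    _ ≤ B ^ 2 * c ^ 2 := by gcongr
    _ = (B * c) ^ 2 := by ring

section Local

variable {X : Type} [Fintype X] {M : ℕ}

/-- the blocks not yet tried for the charge `Q` -/
def gt_J (S : Finset (ℤ × Fin M)) (Q : ℤ) : Finset (Fin M) := univ.filter fun j => (Q, j) ∉ S

/-- the local invariant of a window -/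
def gt_P (m0 : X → ℝ) (p : ℤ) (kap : ℤ → Fin M → X → ℝ) (η : ℝ) (S : Finset (ℤ × Fin M))
    (q : ℝ) (k : X → ℝ) : Prop :=
  |q| ≤ 6480 → ∃ Q : ℤ, |Q| ≤ 6480 ∧ Even (Q - p) ∧ q = Q ∧ ∃ J : Finset (Fin M), J.Nonempty ∧
    (J = gt_J S Q ∨ J.card = 1) ∧ ∃ ρ : X → ℝ, ∑ x, ρ x = 0 ∧
      ∑ x, |ρ x| ≤ S.card * (12960 * η) ∧
      ∀ x, k x = Q * m0 x - (∑ j, kap Q j x) / M + (∑ j ∈ J, kap Q j x) / J.card + ρ x

/-- the direction of a rounding move -/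
noncomputable def gt_d (kap : ℤ → Fin M → X → ℝ) (S : Finset (ℤ × Fin M)) (Q : ℤ) (i : Fin M)
    (x : X) : ℝ :=
  kap Q i x - (∑ j ∈ gt_J S Q, kap Q j x) / (gt_J S Q).card

lemma gt_exists_I (M : ℕ) (p : ℤ) : ∃ I : Finset (ℤ × Fin M),
    (∀ Q i, (Q, i) ∈ I ↔ |Q| ≤ 6480 ∧ Even (Q - p)) ∧ (I.card : ℝ) ≤ 12961 * M := by
  obtain ⟨A, hA, hc⟩ : ∃ A : Finset ℤ, (∀ Q, Q ∈ A ↔ |Q| ≤ 6480) ∧ A.card = 12961 := by
    refine ⟨Icc (-6480) 6480, fun Q => by rw [mem_Icc, abs_le], ?_⟩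
    rw [Int.card_Icc]
    rfl
  refine ⟨(A.filter fun Q => Even (Q - p)) ×ˢ univ, fun Q i => by simp [hA], ?_⟩
  have h1 : (A.filter fun Q => Even (Q - p)).card ≤ 12961 := hc ▸ card_filter_le _ _
  have h2 : ((A.filter fun Q => Even (Q - p)) ×ˢ (univ : Finset (Fin M))).card ≤ 12961 * M := by
    rw [card_product, card_univ, Fintype.card_fin]
    exact Nat.mul_le_mul_right _ h1
  exact_mod_cast h2

lemma gt_mem_J {S : Finset (ℤ × Fin M)} {Q : ℤ} {j : Fin M} : j ∈ gt_J S Q ↔ (Q, j) ∉ S := by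
  simp only [gt_J, mem_filter, mem_univ, true_and]

lemma gt_d_bound (kap : ℤ → Fin M → X → ℝ) (S : Finset (ℤ × Fin M)) (Q : ℤ) (i : Fin M)
    (hi : (Q, i) ∉ S) (hk : ∀ j, ∑ x, kap Q j x = Q ∧ ∑ x, |kap Q j x| ≤ 6480) :
    ∑ x, gt_d kap S Q i x = 0 ∧ ∑ x, |gt_d kap S Q i x| ≤ 12960 := by
  have hn : (0 : ℝ) < (gt_J S Q).card := by
    exact_mod_cast card_pos.2 ⟨i, gt_mem_J.2 hi⟩
  constructor
  · simp only [gt_d, sum_sub_distrib, ← sum_div]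
    rw [sum_comm, (hk i).1, sum_congr rfl fun j _ => (hk j).1, sum_const, nsmul_eq_mul]
    field_simp
    ring
  · have h1 : ∀ x, |gt_d kap S Q i x| ≤
        |kap Q i x| + (∑ j ∈ gt_J S Q, |kap Q j x|) / (gt_J S Q).card := by
      intro x
      refine (abs_sub _ _).trans ?_
      rw [abs_div, abs_of_pos hn]
      gcongr
      exact abs_sum_le_sum_abs _ _
    refine (sum_le_sum fun x _ => h1 x).trans ?_
    rw [sum_add_distrib, ← sum_div, sum_comm]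
    have h2 : ∑ j ∈ gt_J S Q, ∑ x, |kap Q j x| ≤ (gt_J S Q).card * 6480 := by
      have := sum_le_card_nsmul (gt_J S Q) (fun j => ∑ x, |kap Q j x|) 6480 fun j _ => (hk j).2
      simpa using this
    have h3 : (∑ j ∈ gt_J S Q, ∑ x, |kap Q j x|) / (gt_J S Q).card ≤ 6480 := by
      rw [div_le_iff₀ hn]
      linarith
    linarith [(hk i).2]

lemma gt_P_empty (hM : 0 < M) (m0 : X → ℝ) (p : ℤ) (kap : ℤ → Fin M → X → ℝ) (η q : ℝ)
    (k : X → ℝ) (hq : ∃ n : ℤ, q - p = 2 * n) (hk : ∀ x, k x = q * m0 x) :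
    gt_P m0 p kap η ∅ q k := by
  intro h
  obtain ⟨n, hn⟩ := hq
  have h1 : q = ((p + 2 * n : ℤ) : ℝ) := by push_cast; linarith
  refine ⟨p + 2 * n, ?_, ⟨n, by ring⟩, h1, univ, ⟨⟨0, hM⟩, mem_univ _⟩, Or.inl ?_, 0, by simp,
    by simp, fun x => ?_⟩
  · rw [h1] at h
    exact_mod_cast h
  · ext j
    simp [gt_J]
  · rw [hk x, ← h1]
    simp

lemma gt_P_full (m0 : X → ℝ) (p : ℤ) (kap : ℤ → Fin M → X → ℝ) (η q ε2 : ℝ) (hη : 0 ≤ η)
    (hε : 12961 * M * (12960 * η) ≤ ε2) (k : X → ℝ) (I : Finset (ℤ × Fin M))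
    (hI : ∀ Q i, (Q, i) ∈ I ↔ |Q| ≤ 6480 ∧ Even (Q - p)) (hc : (I.card : ℝ) ≤ 12961 * M)
    (h : gt_P m0 p kap η I q k) (hq : |q| ≤ 6480) : ∃ (Q : ℤ) (i : Fin M) (ρ : X → ℝ),
      (|Q| ≤ 6480 ∧ Even (Q - p) ∧ ∑ x, ρ x = 0 ∧ ∑ x, |ρ x| ≤ ε2) ∧
      ∀ x, k x = Q * m0 x - (∑ j, kap Q j x) / M + kap Q i x + ρ x := by
  obtain ⟨Q, h1, h2, -, J, hJ, h3, ρ, h4, h5, h6⟩ := h hq
  rcases h3 with h3 | h3
  · obtain ⟨j, hj⟩ := hJ
    rw [h3, gt_mem_J] at hj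
    exact absurd ((hI _ _).2 ⟨h1, h2⟩) hj
  obtain ⟨i, rfl⟩ := card_eq_one.1 h3
  refine ⟨Q, i, ρ, ⟨h1, h2, h4, h5.trans (le_trans ?_ hε)⟩, fun x => by simpa using h6 x⟩
  gcongr

lemma gt_P_step (m0 : X → ℝ) (p : ℤ) (kap : ℤ → Fin M → X → ℝ) (η q : ℝ) (hη : 0 ≤ η)
    (hη1 : η ≤ 1 / M) (S : Finset (ℤ × Fin M)) (Q' : ℤ) (i : Fin M) (hi : (Q', i) ∉ S)
    (hk : ∀ j, ∑ x, kap Q' j x = Q' ∧ ∑ x, |kap Q' j x| ≤ 6480) (k : X → ℝ)
    (h : gt_P m0 p kap η S q k) (σ : ℝ) (hσ : σ = 1 ∨ σ = -1) :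
    ∃ a, η ≤ a ∧ a ≤ 1 ∧ gt_P m0 p kap η (insert (Q', i) S) q
      fun x => k x + σ * a * gt_d kap S Q' i x := by
  have hM : (1 : ℝ) ≤ M := by exact_mod_cast i.pos
  have hη2 : η ≤ 1 := hη1.trans ((div_le_one (by linarith)).2 hM)
  by_cases hq : |q| ≤ 6480
  swap
  · exact ⟨1, hη2, le_rfl, fun h => absurd h hq⟩
  obtain ⟨Q, h1, h2, h7, J, hJ, h3, ρ, h4, h5, h6⟩ := h hq
  obtain ⟨hd1, hd2⟩ := gt_d_bound kap S Q' i hi hk
  have hc : ((insert (Q', i) S).card : ℝ) = S.card + 1 := by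
    rw [card_insert_of_notMem hi]
    push_cast
    rfl
  have h5' : ∑ x, |ρ x| ≤ (insert (Q', i) S).card * (12960 * η) := by
    rw [hc]
    nlinarith
  by_cases hcase : Q ≠ Q' ∨ J.card = 1
  · refine ⟨η, le_rfl, hη2, fun _ => ⟨Q, h1, h2, h7, J, hJ, ?_,
      fun x => ρ x + σ * η * gt_d kap S Q' i x, ?_, ?_, fun x => ?_⟩⟩
    · rcases h3 with h3 | h3
      · rcases hcase with hc1 | hc1
        · left
          rw [h3]
          ext j
          simp [gt_mem_J, hc1]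
        · exact Or.inr hc1
      · exact Or.inr h3
    · rw [sum_add_distrib, ← mul_sum, h4, hd1]
      simp
    · have h8 : ∀ x, |ρ x + σ * η * gt_d kap S Q' i x| ≤ |ρ x| + η * |gt_d kap S Q' i x| := by
        intro x
        refine (abs_add_le _ _).trans (le_of_eq ?_)
        rcases hσ with rfl | rfl <;> simp [abs_mul, abs_of_nonneg hη]
      refine (sum_le_sum fun x _ => h8 x).trans ?_
      rw [sum_add_distrib, ← mul_sum, hc]
      nlinarith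
    · simp only [h6 x]
      ring
  push Not at hcase
  obtain ⟨rfl, hc1⟩ := hcase
  have hJe : J = gt_J S Q := h3.resolve_right hc1
  have hiJ : i ∈ J := hJe ▸ gt_mem_J.2 hi
  have hJ2 : 2 ≤ J.card := by
    have := card_pos.2 hJ
    omega
  have hJ2' : (2 : ℝ) ≤ J.card := by exact_mod_cast hJ2
  have hJM : (J.card : ℝ) ≤ M := by
    have := card_le_univ J
    rw [Fintype.card_fin] at this
    exact_mod_cast this
  rcases hσ with rfl | rfl
  · refine ⟨1, hη2, le_rfl, fun _ => ⟨Q, h1, h2, h7, {i}, singleton_nonempty _,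
      Or.inr (card_singleton _), ρ, h4, h5', fun x => ?_⟩⟩
    simp only [h6 x, gt_d, ← hJe, sum_singleton, card_singleton]
    push_cast
    ring
  · have hce : ((J.erase i).card : ℝ) = J.card - 1 := by
      rw [card_erase_of_mem hiJ, Nat.cast_sub (by omega)]
      simp
    refine ⟨1 / (J.card - 1), hη1.trans ?_, ?_, fun _ => ⟨Q, h1, h2, h7, J.erase i, ?_,
      Or.inl ?_, ρ, h4, h5', fun x => ?_⟩⟩
    · exact one_div_le_one_div_of_le (by linarith) (by linarith)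
    · exact (div_le_one (by linarith)).2 (by linarith)
    · rw [← card_pos, card_erase_of_mem hiJ]
      omega
    · rw [hJe]
      ext j
      simp [gt_mem_J]
    · simp only [h6 x, gt_d, ← hJe, hce, sum_erase_eq_sub hiJ]
      have h9 : (J.card : ℝ) - 1 ≠ 0 := by linarith
      have h10 : (J.card : ℝ) ≠ 0 := by linarith
      field_simp
      ring

end Local

section Global

variable {V E T X : Type} [Fintype V] [DecidableEq V] [Fintype E] [DecidableEq E] [Fintype T]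
  [DecidableEq T] [Fintype X] {M : ℕ}

lemma gt_bd_add (s t : E → V) (z u : E → ℝ) (a : ℝ) (v : V) :
    bd s t (fun e => z e + a * u e) v = bd s t z v + a * bd s t u v := by
  simp only [bd, sum_add_distrib, ← mul_sum]
  ring

lemma gt_bd_sum (s t : E → V) (d : X → ℝ) (U : X → E → ℝ) (v : V) :
    bd s t (fun e => ∑ x, d x * U x e) v = ∑ x, d x * bd s t (U x) v := by
  simp only [bd, mul_sub, sum_sub_distrib, mul_sum]
  rw [sum_comm, sum_comm (s := univ.filter fun e => t e = v)]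

lemma gt_sol_sum {s t : E → V} {β : T → X → V → ℝ} {m0 : X → ℝ} {ε w : ℝ} {cl : T → T}
    {rd : Finset T} (d : X → ℝ) (U : X → E ⊕ T → ℝ) (y : X → V → ℝ)
    (h : ∀ x, Sol s t β m0 ε w cl rd (U x) (y x) 0) :
    Sol s t β m0 ε w cl rd (fun i => ∑ x, d x * U x i) (fun v => ∑ x, d x * y x v) 0 := by
  refine ⟨fun v => ?_, fun τ hτ => ?_, fun A => ?_⟩
  · rw [gt_bd_sum s t d (fun x e => U x (.inl e)) v]
    simp only [← (h _).1 v, mul_sub, sum_sub_distrib, sum_mul, mul_sum]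
    congr 1
    · exact sum_congr rfl fun x _ => by ring
    · rw [sum_comm]
      exact sum_congr rfl fun x _ => sum_congr rfl fun τ _ => by ring
  · simp [(h _).2.1 τ hτ]
  · have h1 : ∀ x, w * ∑ τ with cl τ = A, U x (.inr τ) = 0 := fun x => (h x).2.2 A
    calc w * ∑ τ with cl τ = A, ∑ x, d x * U x (.inr τ)
        = ∑ x, d x * (w * ∑ τ with cl τ = A, U x (.inr τ)) := by
          rw [sum_comm]
          simp only [mul_sum]
          exact sum_congr rfl fun x _ => sum_congr rfl fun τ _ => by ring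
      _ = 0 := by simp [h1]

/-- the linear part of the invariant -/
def gt_Lin (s t : E → V) (β : T → X → V → ℝ) (m0 : X → ℝ) (ε : ℝ) (rd : Finset T)
    (z : E ⊕ T → ℝ) (κ : T → X → ℝ) : Prop :=
  (∀ v, ε * bd s t (fun e => z (.inl e)) v = ∑ τ, ∑ x, κ τ x * β τ x v) ∧
    ∀ τ ∈ rd, ∀ x, κ τ x = 2160 * z (.inr τ) * m0 x

lemma gt_lin_move {s t : E → V} {β : T → X → V → ℝ} {m0 : X → ℝ} {ε : ℝ} {cl : T → T}
    {rd : Finset T} {z u : E ⊕ T → ℝ} {κ : T → X → ℝ} {y : V → ℝ} {r : T → ℝ}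
    (h : gt_Lin s t β m0 ε rd z κ) (hu : Sol s t β m0 ε 2160 cl rd u y r) (D : T → X → ℝ)
    (hy : ∀ v, y v = ∑ τ, ∑ x, D τ x * β τ x v) (hD : ∀ τ ∈ rd, ∀ x, D τ x = 0) (a : ℝ) :
    gt_Lin s t β m0 ε rd (z + a • u)
      fun τ x => κ τ x + a * (2160 * u (.inr τ) * m0 x + D τ x) := by
  refine ⟨fun v => ?_, fun τ hτ x => ?_⟩
  · have h1 : (fun e => (z + a • u) (.inl e)) = fun e => z (.inl e) + a * u (.inl e) := rfl
    have h2 := hu.1 v
    have h3 : ∑ τ ∈ rd, u (.inr τ) * mu β m0 τ v = ∑ τ, u (.inr τ) * mu β m0 τ v :=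
      sum_subset (subset_univ _) fun τ _ hτ => by rw [hu.2.1 τ hτ, zero_mul]
    rw [h1, gt_bd_add, mul_add, h.1 v]
    have h4 : ∑ τ, ∑ x, (κ τ x + a * (2160 * u (.inr τ) * m0 x + D τ x)) * β τ x v =
        ∑ τ, ∑ x, κ τ x * β τ x v + a * (2160 * ∑ τ, u (.inr τ) * mu β m0 τ v +
          ∑ τ, ∑ x, D τ x * β τ x v) := by
      simp only [mu, mul_sum, ← sum_add_distrib]
      exact sum_congr rfl fun τ _ => sum_congr rfl fun x _ => by ring
    rw [h4, ← hy, ← h3, ← h2]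
    ring
  · simp only [h.2 τ hτ x, hD τ hτ x, Pi.add_apply, Pi.smul_apply, smul_eq_mul]
    ring

/-- the invariant of the game -/
def gt_Inv (s t : E → V) (β : T → X → V → ℝ) (m0 : X → ℝ) (ε : ℝ) (p : T → ℤ)
    (kap : T → ℤ → Fin M → X → ℝ) (η : ℝ) (cl : T → T) (rd : Finset T)
    (Sf : T → Finset (ℤ × Fin M)) (z : E ⊕ T → ℝ) : Prop :=
  ∃ κ : T → X → ℝ, gt_Lin s t β m0 ε rd z κ ∧
    (∀ A, ∃ k : ℤ, ∑ τ with cl τ = A, (2160 * z (.inr τ) - p τ) = 2 * k) ∧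
    ∀ τ, τ ∉ rd → gt_P m0 (p τ) (kap τ) η (Sf τ) (2160 * z (.inr τ)) (κ τ)

variable {s t : E → V} {β : T → X → V → ℝ} {m0 : X → ℝ} {ε : ℝ} {p : T → ℤ}
  {kap : T → ℤ → Fin M → X → ℝ} {η : ℝ}

lemma gt_par_move (cl : T → T) (z u : E ⊕ T → ℝ) (a : ℝ) (A : T) :
    ∑ τ with cl τ = A, (2160 * (z + a • u) (.inr τ) - (p τ : ℝ)) =
      ∑ τ with cl τ = A, (2160 * z (.inr τ) - p τ) +
        a * (2160 * ∑ τ with cl τ = A, u (.inr τ)) := by
  simp only [mul_sum, ← sum_add_distrib, Pi.add_apply, Pi.smul_apply, smul_eq_mul]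
  exact sum_congr rfl fun τ _ => by ring

lemma gt_base (cl : T → T) (rd : Finset T) (Sf : T → Finset (ℤ × Fin M)) (hp : Even (∑ τ, p τ))
    (h : ¬(2 ≤ (univ.image cl).card ∨ ∃ τ, τ ∉ rd)) :
    gt_Inv s t β m0 ε p kap η cl rd Sf 0 := by
  push Not at h
  refine ⟨0, ⟨fun v => by simp [bd], fun τ _ x => by simp⟩, fun A => ?_,
    fun τ hτ => absurd (h.2 τ) hτ⟩
  by_cases hA : ∃ τ, cl τ = A
  · obtain ⟨τ, rfl⟩ := hA
    have h1 : ∀ τ', cl τ' = cl τ := fun τ' =>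
      card_le_one.1 (show (univ.image cl).card ≤ 1 by omega) _ (mem_image_of_mem _ (mem_univ _))
        _ (mem_image_of_mem _ (mem_univ _))
    obtain ⟨k, hk⟩ := hp
    have h2 : ∑ τ, (p τ : ℝ) = k + k := by exact_mod_cast hk
    refine ⟨-k, ?_⟩
    simp [h1, h2]
    ring
  · push Not at hA
    exact ⟨0, by simp [hA]⟩

lemma gt_merge (cl : T → T) (rd : Finset T) (Sf : T → Finset (ℤ × Fin M)) {A B : T} (hAB : A ≠ B)
    {u : E ⊕ T → ℝ} (hu : Sol s t β m0 ε 2160 cl rd u 0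
      fun C => (if C = A then 1 else 0) - if C = B then 1 else 0) (z : E ⊕ T → ℝ)
    (hz : gt_Inv s t β m0 ε p kap η (fun τ => if cl τ = B then A else cl τ) rd Sf z) (σ : ℝ)
    (hσ : σ = 1 ∨ σ = -1) : ∃ a, 1 / 3 ≤ a ∧ a ≤ 1 ∧
      gt_Inv s t β m0 ε p kap η cl rd Sf (z + (σ * a) • (3 : ℝ) • u) := by
  obtain ⟨κ, h1, h2, h3⟩ := hz
  obtain ⟨a, ha, ha', k, hk⟩ := gt_par (∑ τ with cl τ = A, (2160 * z (.inr τ) - p τ)) σ hσ
  refine ⟨a, ha, ha', ?_⟩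
  rw [smul_smul]
  refine ⟨_, gt_lin_move h1 hu 0 (fun v => by simp) (fun _ _ _ => rfl) _, fun C => ?_,
    fun τ hτ => ?_⟩
  · rw [gt_par_move, hu.2.2 C]
    by_cases hCA : C = A
    · subst hCA
      exact ⟨k, by simpa [hAB] using hk⟩
    by_cases hCB : C = B
    · subst hCB
      obtain ⟨k', hk'⟩ := h2 A
      have h4 : (univ.filter fun τ => (if cl τ = C then A else cl τ) = A) =
          (univ.filter fun τ => cl τ = A) ∪ univ.filter fun τ => cl τ = C := by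
        ext τ
        by_cases h : cl τ = C <;> simp [h]
      rw [h4, sum_union (disjoint_filter.2 fun τ _ h h' => hAB (h.symm.trans h'))] at hk'
      refine ⟨k' - k, ?_⟩
      simp only [hCA, if_false, if_true]
      push_cast
      linarith
    · obtain ⟨k', hk'⟩ := h2 C
      have h4 : (univ.filter fun τ => (if cl τ = B then A else cl τ) = C) =
          univ.filter fun τ => cl τ = C := by
        ext τ
        by_cases h : cl τ = B
        · simp [h, Ne.symm hCA, Ne.symm hCB]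
        · simp [h]
      rw [h4] at hk'
      exact ⟨k', by simpa [hCA, hCB] using hk'⟩
  · simpa [hu.2.1 τ hτ] using h3 τ hτ

lemma gt_ready0 (hM : 0 < M) (cl : T → T) (rd : Finset T) (Sf : T → Finset (ℤ × Fin M)) {τ : T}
    (hτ : ∀ τ', cl τ' = cl τ → τ' = τ) (z : E ⊕ T → ℝ)
    (hz : gt_Inv s t β m0 ε p kap η cl (insert τ rd) Sf z) :
    gt_Inv s t β m0 ε p kap η cl rd (Function.update Sf τ ∅) z := by
  obtain ⟨κ, h1, h2, h3⟩ := hz
  refine ⟨κ, ⟨h1.1, fun τ' h => h1.2 τ' (mem_insert_of_mem h)⟩, h2, fun τ' h => ?_⟩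
  by_cases h4 : τ' = τ
  · subst h4
    rw [Function.update_self]
    refine gt_P_empty hM _ _ _ _ _ _ ?_ (h1.2 τ' (mem_insert_self _ _))
    obtain ⟨k, hk⟩ := h2 (cl τ')
    have h5 : (univ.filter fun σ => cl σ = cl τ') = {τ'} := by
      ext σ
      simp only [mem_filter, mem_univ, true_and, mem_singleton]
      exact ⟨hτ σ, fun h => by rw [h]⟩
    rw [h5, sum_singleton] at hk
    exact ⟨k, hk⟩
  · rw [Function.update_of_ne h4]
    exact h3 τ' (by simp [h4, h])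

lemma gt_ready1 (hη : 0 ≤ η) (hη1 : η ≤ 1 / M) (cl : T → T) (rd : Finset T)
    (Sf : T → Finset (ℤ × Fin M)) {τ : T} (hτ : τ ∉ rd) (S : Finset (ℤ × Fin M)) (Q : ℤ)
    (i : Fin M) (hi : (Q, i) ∉ S)
    (hk : ∀ j, ∑ x, kap τ Q j x = Q ∧ ∑ x, |kap τ Q j x| ≤ 6480) {u : E ⊕ T → ℝ}
    (hu : Sol s t β m0 ε 2160 cl rd u (fun v => ∑ x, gt_d (kap τ) S Q i x * β τ x v) 0)
    (z : E ⊕ T → ℝ) (hz : gt_Inv s t β m0 ε p kap η cl rd (Function.update Sf τ S) z) (σ : ℝ)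
    (hσ : σ = 1 ∨ σ = -1) : ∃ a, η ≤ a ∧ a ≤ 1 ∧
      gt_Inv s t β m0 ε p kap η cl rd (Function.update Sf τ (insert (Q, i) S))
        (z + (σ * a) • u) := by
  obtain ⟨κ, h1, h2, h3⟩ := hz
  have h4 := h3 τ hτ
  rw [Function.update_self] at h4
  obtain ⟨a, ha, ha', h5⟩ := gt_P_step m0 (p τ) (kap τ) η _ hη hη1 S Q i hi hk _ h4 σ hσ
  refine ⟨a, ha, ha', _, gt_lin_move h1 hu
    (fun τ' x => if τ' = τ then gt_d (kap τ) S Q i x else 0) (fun v => ?_) (fun τ' h x => ?_) _,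
    fun C => ?_, fun τ' h => ?_⟩
  · rw [sum_eq_single τ (fun τ' _ h => by simp [h]) (by simp)]
    simp
  · exact if_neg fun h' : τ' = τ => hτ (h' ▸ h)
  · rw [gt_par_move, hu.2.2 C]
    simpa using h2 C
  · by_cases h6 : τ' = τ
    · subst h6
      simpa [hu.2.1 τ' h] using h5
    · have h7 := h3 τ' h
      rw [Function.update_of_ne h6] at h7 ⊢
      simpa [hu.2.1 τ' h, h6] using h7

lemma gt_claim (hM : 0 < M) (hη : 0 < η) (hη1 : η ≤ 1 / M) {c : ℝ} (hc : 0 ≤ c)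
    (hc1 : c ≤ 1 / 2160) (hc2 : 777600 * c ≤ η) (x0 : X) (I : T → Finset (ℤ × Fin M))
    (hp : Even (∑ τ, p τ))
    (hk : ∀ τ Q i, (Q, i) ∈ I τ → ∀ j, ∑ x, kap τ Q j x = Q ∧ ∑ x, |kap τ Q j x| ≤ 6480)
    (gs : ∀ (cl : T → T) (rd : Finset T), (∀ τ, τ ∉ rd → ∀ τ', cl τ' = cl τ → τ' = τ) →
      (2 ≤ (univ.image cl).card ∨ ∃ τ, τ ∉ rd) →
      (∃ τ, τ ∉ rd ∧ ∀ x x', ∃ u, Sol s t β m0 ε 2160 cl rd u (fun v => β τ x v - β τ x' v) 0 ∧
        ∑ i, u i ^ 2 ≤ c ^ 2) ∨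
      (∃ τ ∈ rd, ∃ τ' ∈ rd, cl τ ≠ cl τ' ∧ ∃ u, Sol s t β m0 ε 2160 cl rd u 0
        (fun A => (if A = cl τ then 1 else 0) - if A = cl τ' then 1 else 0) ∧
        ∑ i, u i ^ 2 ≤ (2 / 2160 + 2 * c) ^ 2))
    (n : ℕ) : ∀ (cl : T → T) (rd : Finset T), (univ.image cl).card + rdᶜ.card < n →
      (∀ τ, τ ∉ rd → ∀ τ', cl τ' = cl τ → τ' = τ) →
      ∃ L, gt_Adm L ∧ Win L (gt_Inv s t β m0 ε p kap η cl rd I) := by
  have hM1 : (1 : ℝ) ≤ M := by exact_mod_cast hM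
  have hη2 : η ≤ 1 := hη1.trans ((div_le_one (by linarith)).2 hM1)
  induction n with
  | zero => intro cl rd h; omega
  | succ n ih =>
    intro cl rd hn hcl
    by_cases hb : 2 ≤ (univ.image cl).card ∨ ∃ τ, τ ∉ rd
    swap
    · exact ⟨[], fun _ h => by simp at h, gt_base cl rd I hp hb⟩
    rcases gs cl rd hcl hb with ⟨τ, hτ, hu⟩ | ⟨τ, hτ, τ', hτ', hne, u, hu, hu2⟩
    · have h1 : (insert τ rd)ᶜ.card < rdᶜ.card := by
        rw [compl_insert]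
        exact card_erase_lt_of_mem (mem_compl.2 hτ)
      obtain ⟨L, hL, hW⟩ := ih cl (insert τ rd) (by omega)
        fun σ hσ => hcl σ fun h => hσ (mem_insert_of_mem h)
      choose U hU hU2 using fun x => hu x x0
      have key : ∀ S : Finset (ℤ × Fin M), S ⊆ I τ → ∃ L, gt_Adm L ∧
          Win L (gt_Inv s t β m0 ε p kap η cl rd (Function.update I τ S)) := by
        intro S
        induction S using Finset.induction_on with
        | empty => exact fun _ => ⟨L, hL, gt_win_mono hW (gt_ready0 hM cl rd I (hcl τ hτ))⟩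
        | insert q S hq ihS =>
          obtain ⟨Q, i⟩ := q
          intro hS
          obtain ⟨L', hL', hW'⟩ := ihS ((subset_insert _ _).trans hS)
          have hk' := hk τ Q i (hS (mem_insert_self _ _))
          obtain ⟨hd1, hd2⟩ := gt_d_bound (kap τ) S Q i hq hk'
          have h2 := gt_sol_sum (gt_d (kap τ) S Q i) U _ hU
          have h3 : (fun v => ∑ x, gt_d (kap τ) S Q i x * (β τ x v - β τ x0 v)) =
              fun v => ∑ x, gt_d (kap τ) S Q i x * β τ x v := by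
            funext v
            simp only [mul_sub, sum_sub_distrib, ← sum_mul, hd1]
            ring
          rw [h3] at h2
          have h4 := gt_cs (gt_d (kap τ) S Q i) U c 12960 hd2 hU2
          refine ⟨_, gt_adm_cons hL' _ η hη hη2 ?_,
            gt_win_cons hW' _ η (gt_ready1 hη.le hη1 cl rd I hτ S Q i hq hk' h2)⟩
          nlinarith
      simpa using key (I τ) Subset.rfl
    · have h1 : (univ.image fun σ => if cl σ = cl τ' then cl τ else cl σ).card <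
          (univ.image cl).card := by
        refine lt_of_le_of_lt (card_le_card ?_)
          (card_erase_lt_of_mem (mem_image_of_mem cl (mem_univ τ')))
        intro A hA
        obtain ⟨σ, -, rfl⟩ := mem_image.1 hA
        by_cases h : cl σ = cl τ' <;> simp [h, hne]
      obtain ⟨L, hL, hW⟩ := ih (fun σ => if cl σ = cl τ' then cl τ else cl σ) rd (by omega) (by
        intro σ hσ σ' h
        have h2 : cl σ ≠ cl τ' := fun h => hσ (hcl σ hσ τ' h.symm ▸ hτ')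
        have h3 : cl τ ≠ cl σ := fun h => hσ (hcl σ hσ τ h ▸ hτ)
        simp only [h2, if_false] at h
        by_cases h4 : cl σ' = cl τ'
        · simp only [h4, if_true] at h
          exact absurd h h3
        · simp only [h4, if_false] at h
          exact hcl σ hσ σ' h)
      refine ⟨_, gt_adm_cons hL ((3 : ℝ) • u) (1 / 3) (by norm_num) (by norm_num) ?_,
        gt_win_cons hW _ _ (gt_merge cl rd I hne hu)⟩
      have h5 : ∑ i, ((3 : ℝ) • u) i ^ 2 = 9 * ∑ i, u i ^ 2 := by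
        rw [mul_sum]
        exact sum_congr rfl fun i _ => by simp only [Pi.smul_apply, smul_eq_mul]; ring
      have h6 : (2 / 2160 + 2 * c) ^ 2 ≤ (1 / 540) ^ 2 := by
        gcongr
        linarith
      rw [h5]
      linarith

end Global

theorem ab_of (hK : KomlosStmt) (hG : GSStmt) : ABStmt := by
  intro ε ε2 M hε hε1 hε2 hM
  have hM1 : (1 : ℝ) ≤ M := by exact_mod_cast hM
  obtain ⟨η, hη, hη1, hη2⟩ : ∃ η : ℝ, 0 < η ∧ η ≤ 1 / M ∧ 12961 * M * (12960 * η) ≤ ε2 := by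
    refine ⟨min (1 / M) (ε2 / (12961 * M * 12960)), by positivity, min_le_left _ _, ?_⟩
    have := (le_div_iff₀ (by positivity)).1 (min_le_right (1 / (M : ℝ)) (ε2 / (12961 * M * 12960)))
    linarith
  obtain ⟨c, hc, hc1, hc2⟩ : ∃ c : ℝ, 0 < c ∧ c ≤ 1 / 2160 ∧ 777600 * c ≤ η := by
    refine ⟨min (1 / 2160) (η / 777600), by positivity, min_le_left _ _, ?_⟩
    have := min_le_right (1 / 2160 : ℝ) (η / 777600)
    linarith
  obtain ⟨A, hA, h⟩ := hG ε 2160 c hε hε1 (by norm_num) hc (by linarith)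
  refine ⟨A, hA, fun P α l1 L1 hP hl hα => ?_⟩
  obtain ⟨K, h⟩ := h P α l1 L1 hP hl hα
  refine ⟨K, fun V E T X _ _ _ _ _ _ _ s t β Λ own F hgeo hX m0 hm0 hm1 p kap hp hkap => ?_⟩
  obtain ⟨x0⟩ : Nonempty X := by
    by_contra hne
    rw [not_nonempty_iff] at hne
    simp at hm1
  choose I hI hIc using fun τ => gt_exists_I M (p τ)
  obtain ⟨L, hL, hW⟩ := gt_claim (s := s) (t := t) (β := β) (m0 := m0) (ε := ε) (kap := kap) hM hη
    hη1 hc.le hc1 hc2 x0 I hp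
    (fun τ Q i hi j => hkap τ Q j ((hI τ Q i).1 hi).1 ((hI τ Q i).1 hi).2)
    (h V E T X s t β Λ own F hgeo hX m0 hm0 hm1) _ id ∅ (Nat.lt_succ_self _) fun _ _ _ h => h
  obtain ⟨z, ⟨κ, h1, -, h3⟩, hz⟩ := hK _ L _ hL hW
  have h4 : ∀ τ, |2160 * z (.inr τ)| ≤ 6480 := by
    intro τ
    rw [abs_mul, abs_of_pos (by norm_num : (0 : ℝ) < 2160)]
    linarith [hz (.inr τ)]
  choose Q i ρ h5 h6 using fun τ => gt_P_full m0 (p τ) (kap τ) η _ ε2 hη.le hη2 _ (I τ) (hI τ)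
    (hIc τ) (h3 τ (notMem_empty τ)) (h4 τ)
  refine ⟨fun e => ε * z (.inl e), Q, i, ρ, fun e => ?_, h5, fun v => ?_⟩
  · rw [abs_mul, abs_of_pos hε]
    nlinarith [hz (.inl e)]
  · have h7 := gt_bd_add s t 0 (fun e => z (.inl e)) ε v
    simp only [Pi.zero_apply, zero_add] at h7
    rw [h7, h1.1 v]
    simp [bd, h6]

end Pool.Agent.Lib.MP_c8786f_co.W5
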