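import Pool.Agent.Lib.MP_c8786f_co.W5.Defs3
import Pool.Agent.Lib.MP_c8786f_co.W5.GT2

/-!
Module GT3: the abstract balancing theorem with a fixed source.
-/

namespace Pool.Agent.Lib.MP_c8786f_co.W5

open Finset

set_option linter.unusedSectionVars false

section Global

variable {V E T X : Type} [Fintype V] [DecidableEq V] [Fintype E] [DecidableEq E] [Fintype T]
  [DecidableEq T] [Fintype X] {M : ℕ}

/-- the linear part of the invariant -/
def gt3_Lin (s t : E → V) (β : T → X → V → ℝ) (m0 : X → ℝ) (ε : ℝ) (ς : V → ℝ) (rd : Finset T)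
    (z : E ⊕ T → ℝ) (κ : T → X → ℝ) : Prop :=
  (∀ v, ε * bd s t (fun e => z (.inl e)) v = ∑ τ, ∑ x, κ τ x * β τ x v - ς v) ∧
    ∀ τ ∈ rd, ∀ x, κ τ x = 1000 * z (.inr τ) * m0 x

lemma gt3_lin_move {s t : E → V} {β : T → X → V → ℝ} {m0 : X → ℝ} {ε : ℝ} {ς : V → ℝ} {cl : T → T}
    {rd : Finset T} {z u : E ⊕ T → ℝ} {κ : T → X → ℝ} {y : V → ℝ} {r : T → ℝ}
    (h : gt3_Lin s t β m0 ε ς rd z κ) (hu : Sol s t β m0 ε 1000 cl rd u y r) (D : T → X → ℝ)
    (hy : ∀ v, y v = ∑ τ, ∑ x, D τ x * β τ x v) (hD : ∀ τ ∈ rd, ∀ x, D τ x = 0) (a : ℝ) :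
    gt3_Lin s t β m0 ε ς rd (z + a • u)
      fun τ x => κ τ x + a * (1000 * u (.inr τ) * m0 x + D τ x) := by
  refine ⟨fun v => ?_, fun τ hτ x => ?_⟩
  · have h1 : (fun e => (z + a • u) (.inl e)) = fun e => z (.inl e) + a * u (.inl e) := rfl
    have h2 := hu.1 v
    have h3 : ∑ τ ∈ rd, u (.inr τ) * mu β m0 τ v = ∑ τ, u (.inr τ) * mu β m0 τ v :=
      sum_subset (subset_univ _) fun τ _ hτ => by rw [hu.2.1 τ hτ, zero_mul]
    rw [h1, gt_bd_add, mul_add, h.1 v]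
    have h4 : ∑ τ, ∑ x, (κ τ x + a * (1000 * u (.inr τ) * m0 x + D τ x)) * β τ x v =
        ∑ τ, ∑ x, κ τ x * β τ x v + a * (1000 * ∑ τ, u (.inr τ) * mu β m0 τ v +
          ∑ τ, ∑ x, D τ x * β τ x v) := by
      simp only [mu, mul_sum, ← sum_add_distrib]
      exact sum_congr rfl fun τ _ => sum_congr rfl fun x _ => by ring
    rw [h4, ← hy, ← h3, ← h2]
    ring
  · simp only [h.2 τ hτ x, hD τ hτ x, Pi.add_apply, Pi.smul_apply, smul_eq_mul]
    ring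

/-- the invariant of the game -/
def gt3_Inv (s t : E → V) (β : T → X → V → ℝ) (m0 : X → ℝ) (ε : ℝ) (ς : V → ℝ) (p : T → ℤ)
    (kap : T → ℤ → Fin M → X → ℝ) (η : ℝ) (cl : T → T) (rd : Finset T)
    (Sf : T → Finset (ℤ × Fin M)) (z : E ⊕ T → ℝ) : Prop :=
  ∃ κ : T → X → ℝ, gt3_Lin s t β m0 ε ς rd z κ ∧
    (∀ A, ∃ k : ℤ, ∑ τ with cl τ = A, (1000 * z (.inr τ) - p τ) = 2 * k) ∧
    ∀ τ, τ ∉ rd → gt_P m0 (p τ) (kap τ) η (Sf τ) (1000 * z (.inr τ)) (κ τ)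

variable {s t : E → V} {β : T → X → V → ℝ} {m0 : X → ℝ} {ε : ℝ} {ς : V → ℝ} {p : T → ℤ}
  {kap : T → ℤ → Fin M → X → ℝ} {η : ℝ}

lemma gt3_merge (cl : T → T) (rd : Finset T) (Sf : T → Finset (ℤ × Fin M)) {A B : T} (hAB : A ≠ B)
    {u : E ⊕ T → ℝ} (hu : Sol s t β m0 ε 1000 cl rd u 0
      fun C => (if C = A then 1 else 0) - if C = B then 1 else 0) (z : E ⊕ T → ℝ)
    (hz : gt3_Inv s t β m0 ε ς p kap η (fun τ => if cl τ = B then A else cl τ) rd Sf z) (σ : ℝ)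
    (hσ : σ = 1 ∨ σ = -1) : ∃ a, 1 / 2 ≤ a ∧ a ≤ 1 ∧
      gt3_Inv s t β m0 ε ς p kap η cl rd Sf (z + (σ * a) • (4 : ℝ) • u) := by
  obtain ⟨κ, h1, h2, h3⟩ := hz
  obtain ⟨a, ha, ha', k, hk⟩ := gt2_par (∑ τ with cl τ = A, (1000 * z (.inr τ) - p τ)) σ hσ
  refine ⟨a, ha, ha', ?_⟩
  rw [smul_smul]
  refine ⟨_, gt3_lin_move h1 hu 0 (fun v => by simp) (fun _ _ _ => rfl) _, fun C => ?_,
    fun τ hτ => ?_⟩
  · rw [gt2_par_move, hu.2.2 C]
    by_cases hCA : C = A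
    · subst hCA
      exact ⟨k, by simpa [hAB] using hk⟩
    by_cases hCB : C = B
    · subst hCB
      obtain ⟨k', hk'⟩ := h2 A
      have h4 : (univ.filter fun τ => (if cl τ = C then A else cl τ) = A) =
          (univ.filter fun τ => cl τ = A) ∪ univ.filter fun τ => cl τ = C := by
        ext τ
        by_cases h : cl τ = C <;> simp [h]
      rw [h4, sum_union (disjoint_filter.2 fun τ _ h h' => hAB (h.symm.trans h'))] at hk'
      refine ⟨k' - k, ?_⟩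
      simp only [hCA, if_false, if_true]
      push_cast
      linarith
    · obtain ⟨k', hk'⟩ := h2 C
      have h4 : (univ.filter fun τ => (if cl τ = B then A else cl τ) = C) =
          univ.filter fun τ => cl τ = C := by
        ext τ
        by_cases h : cl τ = B
        · simp [h, Ne.symm hCA, Ne.symm hCB]
        · simp [h]
      rw [h4] at hk'
      exact ⟨k', by simpa [hCA, hCB] using hk'⟩
  · simpa [hu.2.1 τ hτ] using h3 τ hτ

lemma gt3_ready0 (hM : 0 < M) (cl : T → T) (rd : Finset T) (Sf : T → Finset (ℤ × Fin M)) {τ : T}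
    (hτ : ∀ τ', cl τ' = cl τ → τ' = τ) (z : E ⊕ T → ℝ)
    (hz : gt3_Inv s t β m0 ε ς p kap η cl (insert τ rd) Sf z) :
    gt3_Inv s t β m0 ε ς p kap η cl rd (Function.update Sf τ ∅) z := by
  obtain ⟨κ, h1, h2, h3⟩ := hz
  refine ⟨κ, ⟨h1.1, fun τ' h => h1.2 τ' (mem_insert_of_mem h)⟩, h2, fun τ' h => ?_⟩
  by_cases h4 : τ' = τ
  · subst h4
    rw [Function.update_self]
    refine gt_P_empty hM _ _ _ _ _ _ ?_ (h1.2 τ' (mem_insert_self _ _))
    obtain ⟨k, hk⟩ := h2 (cl τ')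
    have h5 : (univ.filter fun σ => cl σ = cl τ') = {τ'} := by
      ext σ
      simp only [mem_filter, mem_univ, true_and, mem_singleton]
      exact ⟨hτ σ, fun h => by rw [h]⟩
    rw [h5, sum_singleton] at hk
    exact ⟨k, hk⟩
  · rw [Function.update_of_ne h4]
    exact h3 τ' (by simp [h4, h])

lemma gt3_ready1 (hη : 0 ≤ η) (hη1 : η ≤ 1 / M) (cl : T → T) (rd : Finset T)
    (Sf : T → Finset (ℤ × Fin M)) {τ : T} (hτ : τ ∉ rd) (S : Finset (ℤ × Fin M)) (Q : ℤ)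
    (i : Fin M) (hi : (Q, i) ∉ S)
    (hk : ∀ j, ∑ x, kap τ Q j x = Q ∧ ∑ x, |kap τ Q j x| ≤ 6480) {u : E ⊕ T → ℝ}
    (hu : Sol s t β m0 ε 1000 cl rd u (fun v => ∑ x, gt_d (kap τ) S Q i x * β τ x v) 0)
    (z : E ⊕ T → ℝ) (hz : gt3_Inv s t β m0 ε ς p kap η cl rd (Function.update Sf τ S) z) (σ : ℝ)
    (hσ : σ = 1 ∨ σ = -1) : ∃ a, η ≤ a ∧ a ≤ 1 ∧
      gt3_Inv s t β m0 ε ς p kap η cl rd (Function.update Sf τ (insert (Q, i) S))
        (z + (σ * a) • u) := by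
  obtain ⟨κ, h1, h2, h3⟩ := hz
  have h4 := h3 τ hτ
  rw [Function.update_self] at h4
  obtain ⟨a, ha, ha', h5⟩ := gt_P_step m0 (p τ) (kap τ) η _ hη hη1 S Q i hi hk _ h4 σ hσ
  refine ⟨a, ha, ha', _, gt3_lin_move h1 hu
    (fun τ' x => if τ' = τ then gt_d (kap τ) S Q i x else 0) (fun v => ?_) (fun τ' h x => ?_) _,
    fun C => ?_, fun τ' h => ?_⟩
  · rw [sum_eq_single τ (fun τ' _ h => by simp [h]) (by simp)]
    simp
  · exact if_neg fun h' : τ' = τ => hτ (h' ▸ h)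
  · rw [gt2_par_move, hu.2.2 C]
    simpa using h2 C
  · by_cases h6 : τ' = τ
    · subst h6
      simpa [hu.2.1 τ' h] using h5
    · have h7 := h3 τ' h
      rw [Function.update_of_ne h6] at h7 ⊢
      simpa [hu.2.1 τ' h, h6] using h7

lemma gt3_move (hM : 0 < M) (hη : 0 < η) (hη1 : η ≤ 1 / M) {c : ℝ} (hc : 0 ≤ c)
    (hc1 : c ≤ 1 / 24000) (hc2 : 777600 * c ≤ η) (x0 : X) (I : T → Finset (ℤ × Fin M))
    (hk : ∀ τ Q i, (Q, i) ∈ I τ → ∀ j, ∑ x, kap τ Q j x = Q ∧ ∑ x, |kap τ Q j x| ≤ 6480)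
    (cl : T → T) (rd : Finset T) (hcl : ∀ τ, τ ∉ rd → ∀ τ', cl τ' = cl τ → τ' = τ)
    (hm : Move s t β m0 ε 1000 c cl rd) : ∃ (cl' : T → T) (rd' : Finset T),
      (univ.image cl').card + rd'ᶜ.card < (univ.image cl).card + rdᶜ.card ∧
      (∀ τ, τ ∉ rd' → ∀ τ', cl' τ' = cl' τ → τ' = τ) ∧ rd ⊆ rd' ∧
      (∀ τ τ', cl τ = cl τ' → cl' τ = cl' τ') ∧
      ∀ z0, gt2_Wn (gt3_Inv s t β m0 ε ς p kap η cl' rd' I) z0 →
        gt2_Wn (gt3_Inv s t β m0 ε ς p kap η cl rd I) z0 := by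
  have hM1 : (1 : ℝ) ≤ M := by exact_mod_cast hM
  have hη2 : η ≤ 1 := hη1.trans ((div_le_one (by linarith)).2 hM1)
  rcases hm with ⟨τ, hτ, hu⟩ | ⟨τ, hτ, τ', hτ', hne, u, hu, hu2⟩
  · have h1 : (insert τ rd)ᶜ.card < rdᶜ.card := by
      rw [compl_insert]
      exact card_erase_lt_of_mem (mem_compl.2 hτ)
    refine ⟨cl, insert τ rd, by omega, fun σ hσ => hcl σ fun h => hσ (mem_insert_of_mem h),
      subset_insert _ _, fun _ _ h => h, fun z0 hW => ?_⟩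
    choose U hU hU2 using fun x => hu x x0
    have key : ∀ S : Finset (ℤ × Fin M), S ⊆ I τ →
        gt2_Wn (gt3_Inv s t β m0 ε ς p kap η cl rd (Function.update I τ S)) z0 := by
      intro S
      induction S using Finset.induction_on with
      | empty => exact fun _ => gt2_wn_mono hW (gt3_ready0 hM cl rd I (hcl τ hτ))
      | insert q S hq ihS =>
        obtain ⟨Q, i⟩ := q
        intro hS
        have hW' := ihS ((subset_insert _ _).trans hS)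
        have hk' := hk τ Q i (hS (mem_insert_self _ _))
        obtain ⟨hd1, hd2⟩ := gt_d_bound (kap τ) S Q i hq hk'
        have h2 := gt_sol_sum (gt_d (kap τ) S Q i) U _ hU
        have h3 : (fun v => ∑ x, gt_d (kap τ) S Q i x * (β τ x v - β τ x0 v)) =
            fun v => ∑ x, gt_d (kap τ) S Q i x * β τ x v := by
          funext v
          simp only [mul_sub, sum_sub_distrib, ← sum_mul, hd1]
          ring
        rw [h3] at h2
        have h4 := gt_cs (gt_d (kap τ) S Q i) U c 12960 hd2 hU2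
        refine gt2_wn_cons hW' _ η hη hη2 ?_ (gt3_ready1 hη.le hη1 cl rd I hτ S Q i hq hk' h2)
        nlinarith
    simpa using key (I τ) Subset.rfl
  · have h1 : (univ.image fun σ => if cl σ = cl τ' then cl τ else cl σ).card <
        (univ.image cl).card := by
      refine lt_of_le_of_lt (card_le_card ?_)
        (card_erase_lt_of_mem (mem_image_of_mem cl (mem_univ τ')))
      intro A hA
      obtain ⟨σ, -, rfl⟩ := mem_image.1 hA
      by_cases h : cl σ = cl τ' <;> simp [h, hne]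
    refine ⟨fun σ => if cl σ = cl τ' then cl τ else cl σ, rd, by omega, ?_, Subset.rfl,
      fun σ σ' h => by simp only [h], fun z0 hW => ?_⟩
    · intro σ hσ σ' h
      have h2 : cl σ ≠ cl τ' := fun h => hσ (hcl σ hσ τ' h.symm ▸ hτ')
      have h3 : cl τ ≠ cl σ := fun h => hσ (hcl σ hσ τ h ▸ hτ)
      simp only [h2, if_false] at h
      by_cases h4 : cl σ' = cl τ'
      · simp only [h4, if_true] at h
        exact absurd h h3
      · simp only [h4, if_false] at h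
        exact hcl σ hσ σ' h
    refine gt2_wn_cons hW ((4 : ℝ) • u) (1 / 2) (by norm_num) (by norm_num) ?_
      (gt3_merge cl rd I hne hu)
    have h5 : ∑ i, ((4 : ℝ) • u) i ^ 2 = 16 * ∑ i, u i ^ 2 := by
      rw [mul_sum]
      exact sum_congr rfl fun i _ => by simp only [Pi.smul_apply, smul_eq_mul]; ring
    have h6 : (2 / 1000 + 2 * c) ^ 2 ≤ (1 / 480) ^ 2 := by
      gcongr
      linarith
    rw [h5]
    linarith

/-- the parity repair between the two games -/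
lemma gt3_repair (hε : 0 < ε) {own : V → T} {Z : Set (E → ℝ)} {J A' : ℕ}
    (hZ : Fix3 s t β m0 own ς Z J A') (cl cl0 : T → T)
    (rd B : Finset T) (I : T → Finset (ℤ × Fin M)) (hB : B ⊆ rd)
    (hBc : ∀ τ ∈ B, ∀ τ', cl τ' = cl τ → τ' ∈ B)
    (hJ : ∀ τ ∈ B, J ≤ (univ.filter fun τ' => cl τ' = cl τ).card)
    (hsp : ∀ Y : Finset V, (∀ v ∈ Y, own v ∉ B) → Y.card ≤ A' * cut s t Y)
    (h1 : ∀ τ ∈ B, ∀ τ', cl0 τ' = cl0 τ ↔ τ' ∈ B) (h2 : ∀ τ, τ ∉ B → cl0 τ = cl τ)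
    {p' : T → ℤ} (hp1 : ∀ τ, τ ∉ B → p' τ = p τ)
    (hp2 : ∑ τ ∈ B, ((p τ : ℝ) - p' τ) = ∑ v, ς v)
    (z : E ⊕ T → ℝ) (hz : gt2_Inv s t β m0 ε p' kap η cl0 rd I z) :
    ∃ z0 ∈ Z, ∃ y : T → ℝ, (∀ τ, |y τ| ≤ 2) ∧ gt3_Inv s t β m0 ε ς p kap η cl rd I
      (z + Sum.elim (fun e => z0 e / ε) fun τ => y τ / 1000) := by
  obtain ⟨κ, k1, k2, k3⟩ := hz
  have hf : ∀ τ ∈ B, (B.filter fun τ' => cl τ' = cl τ) = univ.filter fun τ' => cl τ' = cl τ := by
    intro τ hτ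
    ext τ'
    simp only [mem_filter, mem_univ, true_and]
    exact ⟨fun h => h.2, fun h => ⟨hBc τ hτ τ' h, h⟩⟩
  obtain ⟨z0, hz0, y, y1, y2, y3, y4⟩ := hZ cl B (fun τ hτ => by rw [hf τ hτ]; exact hJ τ hτ) hsp
    (fun A => -∑ τ ∈ B with cl τ = A, (1000 * z (.inr τ) - p τ)) (by
      rw [sum_neg_distrib, sum_fiberwise_of_maps_to fun τ hτ => mem_image_of_mem cl hτ, ← hp2]
      rcases B.eq_empty_or_nonempty with rfl | ⟨τ, hτ⟩
      · exact ⟨0, by simp⟩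
      obtain ⟨k, hk⟩ := k2 (cl0 τ)
      have h3 : (univ.filter fun τ' => cl0 τ' = cl0 τ) = B := by
        ext τ'
        simp [h1 τ hτ]
      rw [h3] at hk
      refine ⟨-k, ?_⟩
      simp only [sum_sub_distrib] at hk ⊢
      push_cast
      linarith)
  refine ⟨z0, hz0, y, y1, fun τ x => κ τ x + y τ * m0 x, ⟨fun v => ?_, fun τ hτ x => ?_⟩,
    fun A => ?_, fun τ hτ => ?_⟩
  · have h3 := gt_bd_add s t (fun e => z (.inl e)) z0 ε⁻¹ v
    have h4 : (fun e => (z + Sum.elim (fun e => z0 e / ε) fun τ => y τ / 1000) (.inl e)) =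
        fun e => z (.inl e) + ε⁻¹ * z0 e := by
      funext e
      simp only [Pi.add_apply, Sum.elim_inl]
      ring
    have h5 : ∑ τ, ∑ x, (κ τ x + y τ * m0 x) * β τ x v =
        ∑ τ, ∑ x, κ τ x * β τ x v + ∑ τ, y τ * mu β m0 τ v := by
      simp only [mu, mul_sum, ← sum_add_distrib]
      exact sum_congr rfl fun τ _ => sum_congr rfl fun x _ => by ring
    rw [h4, h3, h5, mul_add, k1.1 v, y3 v, ← mul_assoc, mul_inv_cancel₀ hε.ne']
    ring
  · simp only [k1.2 τ hτ x, Pi.add_apply, Sum.elim_inr]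
    ring
  · have h0 : ∑ τ with cl τ = A, (1000 * (z + Sum.elim (fun e => z0 e / ε) fun τ => y τ / 1000)
        (.inr τ) - (p τ : ℝ)) = ∑ τ with cl τ = A, (1000 * z (.inr τ) - p τ) +
          ∑ τ with cl τ = A, y τ := by
      simp only [← sum_add_distrib, Pi.add_apply, Sum.elim_inr]
      exact sum_congr rfl fun τ _ => by ring
    rw [h0]
    by_cases hA : A ∈ B.image cl
    · obtain ⟨n, hn⟩ := y4 A hA
      obtain ⟨τ, hτ, rfl⟩ := mem_image.1 hA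
      rw [hf τ hτ] at hn
      exact ⟨n, by linarith⟩
    have h3 : ∀ τ, cl τ = A → τ ∉ B := fun τ h hτ => hA (h ▸ mem_image_of_mem cl hτ)
    rw [sum_eq_zero (f := y) fun τ hτ => y2 τ (h3 τ (mem_filter.1 hτ).2), add_zero,
      sum_congr rfl fun τ hτ => by rw [← hp1 τ (h3 τ (mem_filter.1 hτ).2)]]
    by_cases hA' : ∃ τ, cl τ = A
    · obtain ⟨τ, rfl⟩ := hA'
      have h4 : (univ.filter fun τ' => cl τ' = cl τ) = univ.filter fun τ' => cl0 τ' = cl τ := by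
        ext τ'
        simp only [mem_filter, mem_univ, true_and]
        by_cases h5 : τ' ∈ B
        · refine ⟨fun h => absurd h5 (h3 τ' h), fun h => absurd ?_ (h3 τ rfl)⟩
          exact (h1 τ' h5 τ).1 (by rw [h, h2 τ (h3 τ rfl)])
        · rw [h2 τ' h5]
      rw [h4]
      exact k2 _
    · push Not at hA'
      exact ⟨0, by simp [hA']⟩
  · have h3 : τ ∉ B := fun h => hτ (hB h)
    simpa [y2 τ h3, hp1 τ h3] using k3 τ hτ

end Global

theorem ab3_of (hK : KomlosStmt) (hS : SparseStmt) (hC : StageCStmt) : AB3Stmt := by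
  intro ε ε2 M hε hε1 hε2 hM
  have hM1 : (1 : ℝ) ≤ M := by exact_mod_cast hM
  obtain ⟨η, hη, hη1, hη2⟩ : ∃ η : ℝ, 0 < η ∧ η ≤ 1 / M ∧ 12961 * M * (12960 * η) ≤ ε2 := by
    refine ⟨min (1 / M) (ε2 / (12961 * M * 12960)), by positivity, min_le_left _ _, ?_⟩
    have := (le_div_iff₀ (by positivity)).1 (min_le_right (1 / (M : ℝ)) (ε2 / (12961 * M * 12960)))
    linarith
  obtain ⟨c, hc, hc1, hc2⟩ : ∃ c : ℝ, 0 < c ∧ c ≤ 1 / 24000 ∧ 777600 * c ≤ η := by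
    refine ⟨min (1 / 24000) (η / 777600), by positivity, min_le_left _ _, ?_⟩
    have := min_le_right (1 / 24000 : ℝ) (η / 777600)
    linarith
  obtain ⟨A1, hA1, h1⟩ := hS ε 1000 c hε hε1 (by norm_num) hc (by linarith)
  obtain ⟨A2, hA2, h2⟩ := hC ε 1000 c hε hε1 (by norm_num) hc (by linarith)
  refine ⟨max A1 A2, lt_max_of_lt_left hA1, fun P α l1 L1 J hP hl hJ2 hα => ?_⟩
  obtain ⟨K1, h1⟩ := h1 P α l1 L1 J hP (by omega) (gt2_max hA1 (le_max_left _ _) hP hα)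
  obtain ⟨K2, h2⟩ := h2 P α l1 L1 (4 * L1 * J) hP hl (gt2_max hA2 (le_max_right _ _) hP hα)
  refine ⟨max K1 K2, fun V E T X _ _ _ _ _ _ _ s t β Λ own F hgeo hiso hX m0 hm0 hm1 ς Z hZ p kap hp
    hkap => ?_⟩
  replace h1 := h1 V E T X s t β Λ own F hgeo
    ⟨fun Y hY => hiso.1 Y (hY.trans (le_max_left _ _)), hiso.2⟩ hX m0 hm0 hm1
  replace h2 := h2 V E T X s t β Λ own F hgeo
    ⟨fun Y hY => hiso.1 Y (hY.trans (le_max_right _ _)), hiso.2⟩ hX m0 hm0 hm1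
  obtain ⟨x0⟩ : Nonempty X := by
    by_contra hne
    rw [not_nonempty_iff] at hne
    simp at hm1
  choose I hI hIc using fun τ => gt_exists_I M (p τ)
  have hmove := gt3_move (s := s) (t := t) (β := β) (m0 := m0) (ε := ε) (ς := ς) (p := p)
    (kap := kap) hM hη hη1 hc.le hc1 hc2 x0 I
    fun τ Q i hi j => hkap τ Q j ((hI τ Q i).1 hi).1 ((hI τ Q i).1 hi).2
  have stA : ∀ (n : ℕ) (cl : T → T) (rd : Finset T), (univ.image cl).card + rdᶜ.card < n →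
      (∀ τ, τ ∉ rd → ∀ τ', cl τ' = cl τ → τ' = τ) → ∃ (cl' : T → T) (rd' : Finset T),
      (∀ τ, τ ∉ rd' → ∀ τ', cl' τ' = cl' τ → τ' = τ) ∧ ¬Move s t β m0 ε 1000 c cl' rd' ∧
      ∀ z0, gt2_Wn (gt3_Inv s t β m0 ε ς p kap η cl' rd' I) z0 →
        gt2_Wn (gt3_Inv s t β m0 ε ς p kap η cl rd I) z0 := by
    intro n
    induction n with
    | zero => intro cl rd h; omega
    | succ n ih =>
      intro cl rd hn hcl
      by_cases hm : Move s t β m0 ε 1000 c cl rd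
      · obtain ⟨cl1, rd1, k1, k2, -, -, k3⟩ := hmove cl rd hcl hm
        obtain ⟨cl2, rd2, k4, k5, k6⟩ := ih cl1 rd1 (by omega) k2
        exact ⟨cl2, rd2, k4, k5, fun z0 h => k3 z0 (k6 z0 h)⟩
      · exact ⟨cl, rd, hcl, hm, fun _ h => h⟩
  obtain ⟨cl, rd, hcl, hnm, hA⟩ := stA _ id ∅ (Nat.lt_succ_self _) fun _ _ _ h => h
  obtain ⟨B, hB⟩ : ∃ B : Finset T, ∀ τ,
      τ ∈ B ↔ J ≤ (univ.filter fun τ' => cl τ' = cl τ).card :=
    ⟨univ.filter fun τ => J ≤ (univ.filter fun τ' => cl τ' = cl τ).card, fun τ => by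
      rw [mem_filter, and_iff_right (mem_univ _)]⟩
  have hBc : ∀ τ ∈ B, ∀ τ', cl τ' = cl τ → τ' ∈ B := fun τ hτ τ' h => by
    rw [hB, h]
    exact (hB τ).1 hτ
  have hBr : B ⊆ rd := by
    intro τ hτ
    by_contra h
    have k1 : (univ.filter fun τ' => cl τ' = cl τ).card ≤ 1 :=
      card_le_one.2 fun a ha b hb =>
        (hcl τ h a (mem_filter.1 ha).2).trans (hcl τ h b (mem_filter.1 hb).2).symm
    have k2 := (hB τ).1 hτ
    omega
  have hsp := (h1 cl rd B fun τ hτ => (not_le.1 fun h => hτ ((hB τ).2 h)).le).resolve_left hnm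
  obtain ⟨p', hp0, hp1, hp2⟩ : ∃ p' : T → ℤ, Even (∑ τ, p' τ) ∧ (∀ τ, τ ∉ B → p' τ = p τ) ∧
      ∑ τ ∈ B, ((p τ : ℝ) - p' τ) = ∑ v, ς v := by
    obtain ⟨n, hn⟩ := hp
    rcases B.eq_empty_or_nonempty with rfl | ⟨t0, ht0⟩
    · have k1 := hsp univ (by simp)
      have k2 : cut s t univ = 0 := by simp [cut]
      rw [k2, mul_zero, Nat.le_zero, card_eq_zero] at k1
      rw [k1, sum_empty, sub_zero] at hn
      refine ⟨p, ⟨n, ?_⟩, fun _ _ => rfl, by rw [k1]; simp⟩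
      have : ((∑ τ, p τ : ℤ) : ℝ) = (n + n : ℤ) := by
        push_cast
        linarith
      exact_mod_cast this
    · refine ⟨fun τ => p τ - if τ = t0 then ∑ τ, p τ - 2 * n else 0, ⟨n, ?_⟩, fun τ hτ => ?_, ?_⟩
      · simp only [sum_sub_distrib, sum_ite_eq', mem_univ, if_true]
        ring
      · beta_reduce
        rw [if_neg fun h : τ = t0 => hτ (h ▸ ht0), sub_zero]
      · push_cast
        simp only [sub_sub_cancel, sum_ite_eq', ht0, if_true]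
        linarith
  have hmoveC := gt2_move (s := s) (t := t) (β := β) (m0 := m0) (ε := ε) (p := p')
    (kap := kap) hM hη hη1 hc.le hc1 hc2 x0 I
    fun τ Q i hi j => hkap τ Q j ((hI τ Q i).1 hi).1 ((hI τ Q i).1 hi).2
  have stC : ∀ (n : ℕ) (cl : T → T) (rd : Finset T), (univ.image cl).card + rdᶜ.card < n →
      (∀ τ, τ ∉ rd → ∀ τ', cl τ' = cl τ → τ' = τ) → B ⊆ rd → (∀ τ ∈ B, ∀ τ' ∈ B, cl τ = cl τ') →
      gt2_Wn (gt2_Inv s t β m0 ε p' kap η cl rd I) 0 := by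
    intro n
    induction n with
    | zero => intro cl rd h; omega
    | succ n ih =>
      intro cl rd hn hcl k1 k2
      by_cases hb : 2 ≤ (univ.image cl).card ∨ ∃ τ, τ ∉ rd
      · obtain ⟨cl1, rd1, k3, k4, k5, k6, k7⟩ := hmoveC cl rd hcl (h2 cl rd B hcl k1 k2 hsp hb)
        exact k7 _ (ih cl1 rd1 (by omega) k4 (k1.trans k5)
          fun τ hτ τ' hτ' => k6 _ _ (k2 τ hτ τ' hτ'))
      · exact gt2_wn_base (gt2_base cl rd I hp0 hb)
  obtain ⟨cl0, c1, c2⟩ : ∃ cl0 : T → T, (∀ τ ∈ B, ∀ τ', cl0 τ' = cl0 τ ↔ τ' ∈ B) ∧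
      ∀ τ, τ ∉ B → cl0 τ = cl τ := by
    rcases B.eq_empty_or_nonempty with rfl | ⟨t0, ht0⟩
    · exact ⟨cl, by simp, fun _ _ => rfl⟩
    refine ⟨fun τ => if τ ∈ B then cl t0 else cl τ, fun τ hτ τ' => ?_, fun τ hτ => if_neg hτ⟩
    by_cases h : τ' ∈ B
    · simp [h, hτ]
    · simp only [h, hτ, if_true, if_false, iff_false]
      exact fun h' => h (hBc t0 ht0 τ' h')
  obtain ⟨z1, hz1, hb1⟩ := gt2_wn_out hK (stC _ cl0 rd (Nat.lt_succ_self _)
    (fun τ hτ τ' h => by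
      have k1 : τ ∉ B := fun h => hτ (hBr h)
      have k2 : τ' ∉ B := fun h' => k1 ((c1 τ' h' τ).1 h.symm)
      rw [c2 τ k1, c2 τ' k2] at h
      exact hcl τ hτ τ' h)
    hBr fun τ hτ τ' hτ' => (c1 τ' hτ' τ).2 hτ)
  rw [zero_add] at hz1
  obtain ⟨z0, hz0, y, hy, hz2⟩ := gt3_repair hε hZ cl cl0 rd B I hBr hBc
    (fun τ hτ => (hB τ).1 hτ) hsp c1 c2 hp1 hp2 z1 hz1
  obtain ⟨z3, ⟨κ, k1, -, k3⟩, hb3⟩ := gt2_wn_out hK (hA _ (gt2_wn_base hz2))
  have h4 : ∀ τ, |1000 * (z1 + Sum.elim (fun e => z0 e / ε) (fun τ => y τ / 1000) + z3)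
      (.inr τ)| ≤ 6480 := by
    intro τ
    have k4 := abs_le.1 (hb1 (.inr τ))
    have k5 := abs_le.1 (hb3 (.inr τ))
    have k6 := abs_le.1 (hy τ)
    simp only [Pi.add_apply, Sum.elim_inr]
    rw [abs_le]
    constructor <;> linarith
  choose Q i ρ h5 h6 using fun τ => gt_P_full m0 (p τ) (kap τ) η _ ε2 hη.le hη2 _ (I τ) (hI τ)
    (hIc τ) (k3 τ (notMem_empty τ)) (h4 τ)
  refine ⟨z0, hz0, fun e => ε * (z1 (.inl e) + z3 (.inl e)), Q, i, ρ, fun e => ?_, h5,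
    fun v => ?_⟩
  · have k4 := abs_le.1 (hb1 (.inl e))
    have k5 := abs_le.1 (hb3 (.inl e))
    rw [abs_le]
    constructor <;> nlinarith
  · have h7 := gt_bd_add s t 0 (fun e => (z1 + Sum.elim (fun e => z0 e / ε)
      (fun τ => y τ / 1000) + z3) (.inl e)) ε v
    have h8 : (fun e => (0 : E → ℝ) e + ε * (z1 + Sum.elim (fun e => z0 e / ε)
        (fun τ => y τ / 1000) + z3) (.inl e)) =
        z0 + fun e => ε * (z1 (.inl e) + z3 (.inl e)) := by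
      funext e
      simp only [Pi.add_apply, Pi.zero_apply, Sum.elim_inl]
      field_simp
      ring
    rw [h8, k1.1 v] at h7
    rw [h7]
    simp [bd, h6]

end Pool.Agent.Lib.MP_c8786f_co.W5
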