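import Pool.Agent.Lib.MP_c8786f_co.W5.Defs

/-!
Module GeoInst: the model graph with its windows is an instance of `Geo`.
-/

namespace Pool.Agent.Lib.MP_c8786f_co.W5

open Finset

set_option linter.unusedSectionVars false

section

variable {V : Type} [Fintype V] [DecidableEq V]

open Classical in
/-- the vertices reached from the window at `s` -/
noncomputable def gi_lam (n : Equiv.Perm V) (m : V → V) (D R : ℕ) (s : V) : Finset V :=
  univ.filter fun v => ∃ x < D, ∃ w : List (Fin 3), w.length ≤ R ∧ act n m w ((n ^ x) s) = v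

lemma gi_mem_lam {n : Equiv.Perm V} {m : V → V} {D R : ℕ} {s v : V} :
    v ∈ gi_lam n m D R s ↔
      ∃ x < D, ∃ w : List (Fin 3), w.length ≤ R ∧ act n m w ((n ^ x) s) = v := by
  simp [gi_lam]

lemma gi_deg (n : Equiv.Perm V) {m : V → V} (hm : ∀ v, m (m v) = v) (v : V) :
    (univ.filter fun e : V × Bool => e.1 = v).card +
      (univ.filter fun e : V × Bool => (if e.2 then m e.1 else n e.1) = v).card ≤ 4 := by
  have h1 : (univ.filter fun e : V × Bool => e.1 = v) ⊆ {(v, false), (v, true)} := by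
    rintro ⟨u, b⟩ he
    simp only [mem_filter, mem_univ, true_and] at he
    subst he
    cases b <;> simp
  have h2 : (univ.filter fun e : V × Bool => (if e.2 then m e.1 else n e.1) = v) ⊆
      {(n.symm v, false), (m v, true)} := by
    rintro ⟨u, b⟩ he
    simp only [mem_filter, mem_univ, true_and] at he
    subst he
    cases b <;> simp [hm]
  have h3 := (card_le_card h1).trans card_le_two
  have h4 := (card_le_card h2).trans card_le_two
  omega

lemma gi_hcut (n : Equiv.Perm V) (m : V → V) (Y : Finset V) :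
    hcut n m Y ≤ cut (fun e : V × Bool => e.1) (fun e => if e.2 then m e.1 else n e.1) Y := by
  unfold hcut cut
  refine card_le_card_of_injOn
    (fun q => if q.2 = 0 then (q.1, false) else if q.2 = 1 then (n.symm q.1, false)
      else (q.1, true)) ?_ ?_
  · rintro ⟨u, a⟩ hq
    simp only [coe_filter, mem_univ, true_and, Set.mem_ofPred_eq] at hq ⊢
    fin_cases a <;> simp_all
  · rintro ⟨u, a⟩ hq ⟨u', a'⟩ hq' h
    simp only [coe_filter, mem_univ, true_and, Set.mem_ofPred_eq] at hq hq'
    fin_cases a <;> fin_cases a' <;> simp_all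

lemma gi_pow (n : Equiv.Perm V) (φ : V → ℝ) (r : ℝ) (s : V) (x : ℕ)
    (h : ∀ j < x, |φ (n ((n ^ j) s)) - φ ((n ^ j) s)| ≤ r) :
    |φ ((n ^ x) s) - φ s| ≤ x * r := by
  induction x with
  | zero => simp
  | succ x ih =>
    have h1 := ih fun j hj => h j (by omega)
    have h2 := h x (by omega)
    have h3 : (n ^ (x + 1)) s = n ((n ^ x) s) := by simp [pow_succ']
    rw [h3, Nat.cast_succ]
    have := abs_sub_le (φ (n ((n ^ x) s))) (φ ((n ^ x) s)) (φ s)
    linarith

lemma gi_word (n : Equiv.Perm V) (m : V → V) (φ : V → ℝ) (r : ℝ) (u : V) (R : ℕ)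
    (h : ∀ w : List (Fin 3), w.length ≤ R → |φ (n (act n m w u)) - φ (act n m w u)| ≤ r ∧
      |φ (m (act n m w u)) - φ (act n m w u)| ≤ r) (w : List (Fin 3)) (hw : w.length ≤ R) :
    |φ (act n m w u) - φ u| ≤ w.length * r := by
  induction w with
  | nil => simp
  | cons a w ih =>
    have hw' : w.length ≤ R := by simp at hw; omega
    have h1 := ih hw'
    have h2 : |φ (act n m (a :: w) u) - φ (act n m w u)| ≤ r := by
      fin_cases a
      · simpa using (h w hw').1
      · have := (h (1 :: w) hw).1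
        rw [abs_sub_comm]
        simpa using this
      · simpa using (h w hw').2
    have := abs_sub_le (φ (act n m (a :: w) u)) (φ (act n m w u)) (φ u)
    simp only [List.length_cons]
    push_cast
    linarith

lemma gi_lip (n : Equiv.Perm V) (m : V → V) (D R : ℕ) (φ : V → ℝ) (r : ℝ) (hr : 0 ≤ r) (s : V)
    (h : ∀ u ∈ gi_lam n m D R s, |φ (n u) - φ u| ≤ r ∧ |φ (m u) - φ u| ≤ r) :
    ∀ v ∈ gi_lam n m D R s, |φ v - φ s| ≤ (D + R) * r := by
  intro v hv
  obtain ⟨x, hx, w, hw, rfl⟩ := gi_mem_lam.1 hv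
  have h1 := gi_pow n φ r s x fun j hj =>
    (h _ (gi_mem_lam.2 ⟨j, hj.trans hx, [], by simp, rfl⟩)).1
  have h2 := gi_word n m φ r ((n ^ x) s) R
    (fun w' hw' => h _ (gi_mem_lam.2 ⟨x, hx, w', hw', rfl⟩)) w hw
  have h3 := abs_sub_le (φ (act n m w ((n ^ x) s))) (φ ((n ^ x) s)) (φ s)
  have h4 : (x : ℝ) * r ≤ D * r := mul_le_mul_of_nonneg_right (by exact_mod_cast hx.le) hr
  have h5 : (w.length : ℝ) * r ≤ R * r := mul_le_mul_of_nonneg_right (by exact_mod_cast hw) hr
  linarith

lemma gi_back {n : Equiv.Perm V} {m : V → V} {S : Finset V} {own : V → V} {back : V → ℕ}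
    {D R L : ℕ} (h : Seg n m S own back D R L) (φ : V → ℝ) (r : ℝ) (k : ℕ) :
    ∀ v, back v = k → (∀ u, own u = own v → |φ (n u) - φ u| ≤ r) →
      |φ v - φ (own v)| ≤ k * r := by
  induction k with
  | zero =>
    intro v hv _
    have := h.eq v
    rw [hv] at this
    simp at this
    simp [this]
  | succ k ih =>
    intro v hv hφ
    have hS : n (n.symm v) ∉ S := by
      intro hS
      have := h.zero _ hS
      simp at this
      omega
    obtain ⟨h1, h2⟩ := h.succ _ hS
    simp only [Equiv.apply_symm_apply] at h1 h2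
    have h3 := ih (n.symm v) (by omega) fun u hu => hφ u (hu.trans h1.symm)
    have h4 := hφ (n.symm v) h1.symm
    simp only [Equiv.apply_symm_apply] at h4
    rw [← h1] at h3
    have := abs_sub_le (φ v) (φ (n.symm v)) (φ (own v))
    push_cast
    linarith

end

theorem geoInst : GeoInstStmt := by
  intro D R L K α V _ _ n m hm h1 h2 S own back h β hnn htot hsupp hatom
  have hdisj : ∀ τ τ' : S, τ ≠ τ' → Disjoint (gi_lam n m D R τ.1) (gi_lam n m D R τ'.1) := by
    intro τ τ' hne
    rw [disjoint_left]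
    intro v hv hv'
    obtain ⟨x, hx, w, hw, e1⟩ := gi_mem_lam.1 hv
    obtain ⟨x', hx', w', hw', e2⟩ := gi_mem_lam.1 hv'
    exact hne (Subtype.ext (h.sep _ τ.2 _ τ'.2 x hx.le x' hx'.le w w' hw hw' (e1.trans e2.symm)))
  refine ⟨fun s => gi_lam n m D R s.1,
    fun s => univ.filter fun e => e.1 ∈ gi_lam n m D R s.1 ∨ own e.1 = s.1, ?_⟩
  have key : ∀ (τ : S) (φ : V → ℝ) (r : ℝ),
      (∀ e ∈ (univ.filter fun e : V × Bool => e.1 ∈ gi_lam n m D R τ.1 ∨ own e.1 = τ.1),
        |φ (if e.2 then m e.1 else n e.1) - φ e.1| ≤ r) →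
      ∀ u, (u ∈ gi_lam n m D R τ.1 ∨ own u = τ.1) →
        |φ (n u) - φ u| ≤ r ∧ |φ (m u) - φ u| ≤ r := by
    intro τ φ r hφ u hu
    exact ⟨by simpa using hφ (u, false) (by simpa using hu),
      by simpa using hφ (u, true) (by simpa using hu)⟩
  refine
    { deg := gi_deg n hm
      iso1 := fun Y hY => (h1 Y hY).trans (gi_hcut n m Y)
      iso2 := fun Y hY hY' => (h2 Y hY hY').trans (gi_hcut n m Y)
      nonneg := fun τ x v => hnn _ _
      atom := fun τ x v => hatom _ τ.2 _ x.2 _
      total := fun τ x => htot _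
      supp := ?_
      disj := hdisj
      cell := ?_
      twice := ?_
      lip0 := ?_
      lip1 := ?_ }
  · intro τ x v hv
    by_contra hne
    obtain ⟨w, hw, e⟩ := hsupp _ _ hne
    exact hv (gi_mem_lam.2 ⟨x.1, x.2, w, hw.le, e⟩)
  · intro τ
    refine le_trans (card_le_card_of_injOn (t := range L) back
      (fun v _ => by simpa using h.lt v) ?_) (card_range L).le
    intro v hv v' hv' e
    simp only [coe_filter, mem_univ, true_and, Set.mem_ofPred_eq] at hv hv'
    have e1 : own v = own v' := by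
      have := hv.trans hv'.symm
      exact congrArg Subtype.val this
    rw [← h.eq v, ← h.eq v', e, e1]
  · intro e
    have hsub : (univ.filter fun τ : S => e ∈ (univ.filter fun e : V × Bool =>
        e.1 ∈ gi_lam n m D R τ.1 ∨ own e.1 = τ.1)) ⊆
        insert ⟨own e.1, h.mem _⟩ (univ.filter fun τ : S => e.1 ∈ gi_lam n m D R τ.1) := by
      intro τ hτ
      simp only [mem_filter, mem_univ, true_and, mem_insert] at hτ ⊢
      rcases hτ with hτ | hτ
      · exact Or.inr hτ
      · exact Or.inl (Subtype.ext hτ.symm)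
    have hone : (univ.filter fun τ : S => e.1 ∈ gi_lam n m D R τ.1).card ≤ 1 := by
      rw [card_le_one]
      intro τ hτ τ' hτ'
      simp only [mem_filter, mem_univ, true_and] at hτ hτ'
      by_contra hne
      exact disjoint_left.1 (hdisj τ τ' hne) hτ hτ'
    have := (card_le_card hsub).trans (card_insert_le _ _)
    omega
  · intro τ φ r hr hφ v hv v' hv'
    have hl := gi_lip n m D R φ r hr τ.1 fun u hu => key τ φ r hφ u (Or.inl hu)
    have a1 := hl v hv
    have a2 := hl v' hv'
    rw [abs_sub_comm] at a2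
    have := abs_sub_le (φ v) (φ τ.1) (φ v')
    linarith
  · intro v φ r hr hφ v' hv'
    have hk := key ⟨own v, h.mem v⟩ φ r hφ
    have a2 := gi_lip n m D R φ r hr (own v) (fun u hu => hk u (Or.inl hu)) v' hv'
    have a1 := gi_back h φ r _ v rfl fun u hu => (hk u (Or.inr hu)).1
    have a3 : (back v : ℝ) * r ≤ L * r :=
      mul_le_mul_of_nonneg_right (by exact_mod_cast (h.lt v).le) hr
    rw [abs_sub_comm] at a2
    have := abs_sub_le (φ v) (φ (own v)) (φ v')
    linarith

end Pool.Agent.Lib.MP_c8786f_co.W5
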