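import Pool.Agent.Lib.MP_c8786f_co.W5.Defs3
import Pool.Agent.Lib.MP_c8786f_co.W5.GeoInst

/-!
Module GeoInst3: the geometry inside `B`.
-/

namespace Pool.Agent.Lib.MP_c8786f_co.W5

open Finset

set_option linter.unusedSectionVars false

section

variable {V : Type} [Fintype V] [DecidableEq V]

lemma g3_succ (n : Equiv.Perm V) (j : ℕ) (v : V) : (n ^ (j + 1)) v = n ((n ^ j) v) := by
  simp [pow_succ']

lemma g3_succ' (n : Equiv.Perm V) (j : ℕ) (v : V) : (n ^ (j + 1)) v = (n ^ j) (n v) := by
  simp [pow_succ]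

/-- the forward distance to the next window start -/
lemma g3_fwd {n : Equiv.Perm V} {m : V → V} {S : Finset V} {own : V → V} {back : V → ℕ}
    {D R L : ℕ} (h : Seg n m S own back D R L) :
    ∃ f : V → ℕ, (∀ v, (n ^ f v) v ∈ S) ∧ (∀ v, v ∉ S → f v = f (n v) + 1) ∧
      (∀ v ∈ S, f v = 0) ∧ ∀ v, back v + f v ≤ L := by
  have hex : ∀ v, ∃ i, (n ^ i) v ∈ S := by
    intro v
    by_contra hno
    push Not at hno
    have : ∀ j, back ((n ^ j) v) = back v + j := by
      intro j
      induction j with
      | zero => simp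
      | succ j ih =>
        have h1 := hno (j + 1)
        rw [g3_succ] at h1 ⊢
        rw [(h.succ _ h1).2, ih]
        omega
    have h1 := this L
    have h2 := h.lt ((n ^ L) v)
    omega
  have h0 : ∀ v ∈ S, Nat.find (hex v) = 0 := by
    intro v hv
    rw [Nat.find_eq_zero]
    simpa using hv
  have h1 : ∀ v, v ∉ S → Nat.find (hex v) = Nat.find (hex (n v)) + 1 := by
    intro v hv
    rw [Nat.find_eq_iff]
    refine ⟨?_, ?_⟩
    · rw [g3_succ']
      exact Nat.find_spec (hex (n v))
    · intro k hk
      cases k with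
      | zero => simpa using hv
      | succ k =>
        rw [g3_succ']
        exact Nat.find_min (hex (n v)) (by omega)
  refine ⟨fun v => Nat.find (hex v), fun v => Nat.find_spec (hex v), h1, h0, ?_⟩
  have : ∀ k v, Nat.find (hex v) = k → back v + k ≤ L := by
    intro k
    induction k with
    | zero => intro v _; have := h.lt v; omega
    | succ k ih =>
      intro v hv
      have hvS : v ∉ S := fun hS => by have := h0 v hS; omega
      have h2 := h1 v hvS
      by_cases hS : n v ∈ S
      · have := h0 _ hS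
        have := h.lt v
        omega
      · have h3 := ih (n v) (by omega)
        rw [(h.succ _ hS).2] at h3
        omega
  exact fun v => this _ v rfl

lemma g3_stay {n : Equiv.Perm V} {B : Finset V} {L : ℕ}
    (hL : ∀ a ∈ B, n.symm a ∉ B → ∀ j ≤ 2 * L, (n ^ j) a ∈ B) (s : V) (k : ℕ) :
    (n ^ k) s ∈ B → (∃ j ≤ k, (n ^ j) s ∉ B) → ∀ i, i + k ≤ 2 * L → (n ^ i) ((n ^ k) s) ∈ B := by
  induction k with
  | zero =>
    rintro hk ⟨j, hj, hj'⟩
    obtain rfl : j = 0 := by omega
    exact absurd hk hj'
  | succ k ih =>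
    rintro hk ⟨j, hj, hj'⟩ i hi
    by_cases hB : (n ^ k) s ∈ B
    · have hjk : j ≤ k := by
        by_contra hc
        obtain rfl : j = k + 1 := by omega
        exact hj' hk
      have := ih hB ⟨j, hjk, hj'⟩ (i + 1) (by omega)
      rwa [g3_succ', ← g3_succ] at this
    · refine hL _ hk ?_ i (by omega)
      rw [g3_succ]
      simpa using hB

lemma g3_lam {n : Equiv.Perm V} {m : V → V} {B : Finset V} {D R : ℕ} {s : V} (hs : s ∈ B)
    (hin : ∀ j ≤ D, ∀ w : List (Fin 3), w.length ≤ R → act n m w ((n ^ j) s) ∈ B →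
      ∀ l, step n m l (act n m w ((n ^ j) s)) ∈ B) :
    ∀ u ∈ gi_lam n m D R s, u ∈ B ∧ n u ∈ B ∧ m u ∈ B := by
  have h1 : ∀ j ≤ D, (n ^ j) s ∈ B := by
    intro j
    induction j with
    | zero => intro _; simpa using hs
    | succ j ih =>
      intro hj
      have := hin j (by omega) [] (by simp) (ih (by omega)) 0
      rw [g3_succ]
      simpa using this
  have h2 : ∀ j ≤ D, ∀ w : List (Fin 3), w.length ≤ R → act n m w ((n ^ j) s) ∈ B := by
    intro j hj w
    induction w with
    | nil => intro _; exact h1 j hj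
    | cons a w ih =>
      intro hw
      have hw' : w.length ≤ R := by simp at hw; omega
      exact hin j hj w hw' (ih hw') a
  intro u hu
  obtain ⟨x, hx, w, hw, rfl⟩ := gi_mem_lam.1 hu
  have h3 := h2 x hx.le w hw
  exact ⟨h3, hin x hx.le w hw h3 0, hin x hx.le w hw h3 2⟩

/-- the cells inside `B` -/
lemma g3_own {n : Equiv.Perm V} {m : V → V} {B S : Finset V} {own : V → V} {back : V → ℕ}
    {D R L : ℕ} (h : Seg n m S own back D R L)
    (hL : ∀ a ∈ B, n.symm a ∉ B → ∀ j ≤ 2 * L, (n ^ j) a ∈ B) :
    ∃ (ow : V → V) (c : V → ℕ), (∀ v ∈ B, ow v ∈ S ∩ B) ∧ (∀ v, c v < 2 * L) ∧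
      (∀ v v', ow v = ow v' → c v = c v' → v = v') ∧
      ∀ (φ : V → ℝ) (r : ℝ), 0 ≤ r → ∀ v ∈ B,
        (∀ u ∈ B, n u ∈ B → ow u = ow v → |φ (n u) - φ u| ≤ r) → |φ v - φ (ow v)| ≤ L * r := by
  classical
  obtain ⟨f, f1, f2, f3, f4⟩ := g3_fwd h
  have hS0 : ∀ v, back v = 0 → own v = v := by
    intro v hv
    have := h.eq v
    rw [hv] at this
    simpa using this
  have f5 : ∀ v, f v < L := by
    intro v
    by_cases hv : v ∈ S
    · have := f3 v hv
      have := h.lt v
      omega
    · have h1 := f4 v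
      have h2 : back v ≠ 0 := fun h0 => hv (hS0 v h0 ▸ h.mem v)
      omega
  let good : V → Prop := fun v => ∀ j ≤ back v, (n ^ j) (own v) ∈ B
  have hstay : ∀ v ∈ B, ¬ good v → ∀ i ≤ L, (n ^ i) v ∈ B := by
    intro v hv hg i hi
    have h1 := g3_stay hL (own v) (back v) (by rw [h.eq v]; exact hv)
      (by simpa [good] using hg) i (by have := h.lt v; omega)
    rwa [h.eq v] at h1
  have hgS : ∀ v ∈ B, v ∈ S → good v := by
    intro v hv hS j hj
    have h0 := h.zero v hS
    obtain rfl : j = 0 := by omega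
    rw [hS0 v h0]
    simpa using hv
  let ow : V → V := fun v => if good v then own v else (n ^ f v) v
  have ow1 : ∀ v, good v → ow v = own v := fun v hv => if_pos hv
  have ow2 : ∀ v, ¬ good v → ow v = (n ^ f v) v := fun v hv => if_neg hv
  refine ⟨ow, fun v => if good v then back v else L + f v, ?_, ?_, ?_, ?_⟩
  · intro v hv
    by_cases hg : good v
    · rw [ow1 v hg, mem_inter]
      exact ⟨h.mem v, by simpa using hg 0 (Nat.zero_le _)⟩
    · rw [ow2 v hg, mem_inter]
      exact ⟨f1 v, hstay v hv hg _ (f5 v).le⟩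
  · intro v
    have := h.lt v
    have := f5 v
    dsimp only
    split_ifs <;> omega
  · intro v v' e1 e2
    have a1 := h.lt v
    have a2 := h.lt v'
    dsimp only at e2
    by_cases hg : good v <;> by_cases hg' : good v'
    · rw [if_pos hg, if_pos hg'] at e2
      rw [ow1 v hg, ow1 v' hg'] at e1
      rw [← h.eq v, ← h.eq v', e1, e2]
    · rw [if_pos hg, if_neg hg'] at e2
      omega
    · rw [if_neg hg, if_pos hg'] at e2
      omega
    · rw [if_neg hg, if_neg hg'] at e2
      rw [ow2 v hg, ow2 v' hg', show f v = f v' by omega] at e1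
      exact (n ^ f v').injective e1
  · intro φ r hr v hv hφ
    by_cases hg : good v
    · have key : ∀ k v, good v → back v = k →
          (∀ u ∈ B, n u ∈ B → ow u = own v → |φ (n u) - φ u| ≤ r) →
          |φ v - φ (own v)| ≤ k * r := by
        intro k
        induction k with
        | zero =>
          intro v _ hv _
          simp [hS0 v hv]
        | succ k ih =>
          intro v hg hv hφ
          have hS : n (n.symm v) ∉ S := by
            intro hS
            have := h.zero _ hS
            simp at this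
            omega
          obtain ⟨h1, h2⟩ := h.succ _ hS
          simp only [Equiv.apply_symm_apply] at h1 h2
          have hg' : good (n.symm v) := by
            intro j hj
            rw [← h1]
            exact hg j (by omega)
          have hB' : n.symm v ∈ B := by
            have := hg' _ le_rfl
            rwa [h.eq] at this
          have hB : v ∈ B := by
            have := hg _ le_rfl
            rwa [h.eq] at this
          have h3 := ih (n.symm v) hg' (by omega) fun u hu hu' e =>
            hφ u hu hu' (e.trans h1.symm)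
          have h4 := hφ (n.symm v) hB' (by simpa using hB) ((ow1 _ hg').trans h1.symm)
          simp only [Equiv.apply_symm_apply] at h4
          rw [← h1] at h3
          have := abs_sub_le (φ v) (φ (n.symm v)) (φ (own v))
          push_cast
          linarith
      rw [ow1 v hg] at hφ ⊢
      have a1 := key _ v hg rfl hφ
      have a3 : (back v : ℝ) * r ≤ L * r :=
        mul_le_mul_of_nonneg_right (by exact_mod_cast (h.lt v).le) hr
      linarith
    · have key : ∀ k, ∀ v ∈ B, ¬ good v → f v = k →
          (∀ u ∈ B, n u ∈ B → ow u = ow v → |φ (n u) - φ u| ≤ r) →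
          |φ v - φ (ow v)| ≤ k * r := by
        intro k
        induction k with
        | zero =>
          intro v _ hg hv _
          simp [ow2 v hg, hv]
        | succ k ih =>
          intro v hB hg hv hφ
          have hS : v ∉ S := fun hS => hg (hgS v hB hS)
          have hB' : n v ∈ B := by
            have := hstay v hB hg 1 (by have := h.lt v; omega)
            simpa using this
          have h1 := f2 v hS
          have h4 := hφ v hB hB' rfl
          rw [abs_sub_comm] at h4
          have h5 : ow v = (n ^ f (n v)) (n v) := by rw [ow2 v hg, h1, g3_succ']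
          by_cases hS' : n v ∈ S
          · have h6 := f3 _ hS'
            have h7 : k = 0 := by omega
            rw [h5, h6, h7]
            simpa using h4
          · obtain ⟨h6, h7⟩ := h.succ _ hS'
            have hg' : ¬ good (n v) := by
              intro hg'
              apply hg
              intro j hj
              rw [← h6]
              exact hg' j (by omega)
            have h8 : ow (n v) = ow v := by rw [h5, ow2 _ hg']
            have h3 := ih (n v) hB' hg' (by omega) fun u hu hu' e => hφ u hu hu' (e.trans h8)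
            rw [h8] at h3
            have := abs_sub_le (φ v) (φ (n v)) (φ (ow v))
            push_cast
            linarith
      have a1 := key _ v hv hg rfl hφ
      have a3 : (f v : ℝ) * r ≤ L * r :=
        mul_le_mul_of_nonneg_right (by exact_mod_cast (f5 v).le) hr
      linarith

end

theorem geoInst3 : GeoInst3Stmt := by
  intro D R L α V _ _ n m hm B S own back h hin hL β hnn htot hsupp hatom
  obtain ⟨ow, c, o1, o2, o3, o4⟩ := g3_own h hL
  have hlam : ∀ τ : (S ∩ B : Finset V), ∀ u ∈ gi_lam n m D R τ.1, u ∈ B ∧ n u ∈ B ∧ m u ∈ B :=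
    fun τ => g3_lam (mem_inter.1 τ.2).2 (hin _ (mem_inter.1 τ.2).1)
  have hdisj : ∀ τ τ' : (S ∩ B : Finset V), τ ≠ τ' →
      Disjoint (gi_lam n m D R τ.1) (gi_lam n m D R τ'.1) := by
    intro τ τ' hne
    rw [disjoint_left]
    intro v hv hv'
    obtain ⟨x, hx, w, hw, e1⟩ := gi_mem_lam.1 hv
    obtain ⟨x', hx', w', hw', e2⟩ := gi_mem_lam.1 hv'
    exact hne (Subtype.ext (h.sep _ (mem_inter.1 τ.2).1 _ (mem_inter.1 τ'.2).1 x hx.le x' hx'.le
      w w' hw hw' (e1.trans e2.symm)))
  have hsup : ∀ (τ : (S ∩ B : Finset V)) (x : Fin D) (v : V), v ∉ gi_lam n m D R τ.1 →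
      β ((n ^ x.1) τ.1) v = 0 := by
    intro τ x v hv
    by_contra hne
    obtain ⟨w, hw, e⟩ := hsupp _ _ hne
    exact hv (gi_mem_lam.2 ⟨x.1, x.2, w, hw.le, e⟩)
  refine ⟨fun s => univ.filter fun v => v.1 ∈ gi_lam n m D R s.1, fun v => ⟨ow v.1, o1 _ v.2⟩,
    fun s => univ.filter fun e => e.1.1 ∈ gi_lam n m D R s.1 ∨ ow e.1.1 = s.1, ?_⟩
  have key : ∀ (τ : (S ∩ B : Finset V)) (φ : B → ℝ) (r : ℝ),
      (∀ e ∈ (univ.filter fun e : EB n m B => e.1.1 ∈ gi_lam n m D R τ.1 ∨ ow e.1.1 = τ.1),
        |φ (tB n m B e) - φ (sB n m B e)| ≤ r) →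
      ∃ ψ : V → ℝ, (∀ v : B, ψ v.1 = φ v) ∧
        ∀ u ∈ B, (u ∈ gi_lam n m D R τ.1 ∨ ow u = τ.1) →
          (n u ∈ B → |ψ (n u) - ψ u| ≤ r) ∧ (m u ∈ B → |ψ (m u) - ψ u| ≤ r) := by
    intro τ φ r hφ
    refine ⟨fun v => if hv : v ∈ B then φ ⟨v, hv⟩ else 0, fun v => dif_pos v.2, ?_⟩
    intro u hu hu'
    refine ⟨fun h1 => ?_, fun h1 => ?_⟩
    · have := hφ ⟨(u, false), hu, by simpa using h1⟩ (by simpa using hu')
      simpa [sB, tB, hu, h1] using this
    · have := hφ ⟨(u, true), hu, by simpa using h1⟩ (by simpa using hu')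
      simpa [sB, tB, hu, h1] using this
  refine
    { deg := ?_
      iso1 := fun Y hY => hY.trans (Nat.zero_le _)
      iso2 := fun Y _ _ => Nat.zero_le _
      nonneg := fun τ x v => hnn _ _
      atom := fun τ x v => hatom _ (mem_inter.1 τ.2).1 _ x.2 _
      total := ?_
      supp := ?_
      disj := ?_
      cell := ?_
      twice := ?_
      lip0 := ?_
      lip1 := ?_ }
  · intro v
    refine le_trans (add_le_add ?_ ?_) (gi_deg n hm v.1)
    · refine card_le_card_of_injOn Subtype.val ?_ Subtype.val_injective.injOn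
      intro e he
      simp only [coe_filter, mem_univ, true_and, Set.mem_ofPred_eq] at he ⊢
      exact congrArg Subtype.val he
    · refine card_le_card_of_injOn Subtype.val ?_ Subtype.val_injective.injOn
      intro e he
      simp only [coe_filter, mem_univ, true_and, Set.mem_ofPred_eq] at he ⊢
      exact congrArg Subtype.val he
  · intro τ x
    rw [← htot ((n ^ x.1) τ.1), sum_coe_sort B (β ((n ^ x.1) τ.1))]
    refine sum_subset (subset_univ _) fun v _ hv => hsup τ x v fun hl => hv (hlam τ v hl).1
  · intro τ x v hv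
    exact hsup τ x v.1 (by simpa using hv)
  · intro τ τ' hne
    rw [disjoint_left]
    intro v hv hv'
    simp only [mem_filter, mem_univ, true_and] at hv hv'
    exact disjoint_left.1 (hdisj τ τ' hne) hv hv'
  · intro τ
    refine le_trans (card_le_card_of_injOn (t := range (2 * L)) (fun v => c v.1)
      (fun v _ => by simpa using o2 v.1) ?_) (card_range _).le
    intro v hv v' hv' e
    simp only [coe_filter, mem_univ, true_and, Set.mem_ofPred_eq] at hv hv'
    have e1 : ow v.1 = ow v'.1 := congrArg Subtype.val (hv.trans hv'.symm)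
    exact Subtype.ext (o3 _ _ e1 e)
  · intro e
    have hsub : (univ.filter fun τ : (S ∩ B : Finset V) => e ∈ (univ.filter fun e : EB n m B =>
        e.1.1 ∈ gi_lam n m D R τ.1 ∨ ow e.1.1 = τ.1)) ⊆
        insert ⟨ow e.1.1, o1 _ e.2.1⟩
          (univ.filter fun τ : (S ∩ B : Finset V) => e.1.1 ∈ gi_lam n m D R τ.1) := by
      intro τ hτ
      simp only [mem_filter, mem_univ, true_and, mem_insert] at hτ ⊢
      rcases hτ with hτ | hτ
      · exact Or.inr hτ
      · exact Or.inl (Subtype.ext hτ.symm)
    have hone : (univ.filter fun τ : (S ∩ B : Finset V) =>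
        e.1.1 ∈ gi_lam n m D R τ.1).card ≤ 1 := by
      rw [card_le_one]
      intro τ hτ τ' hτ'
      simp only [mem_filter, mem_univ, true_and] at hτ hτ'
      by_contra hne
      exact disjoint_left.1 (hdisj τ τ' hne) hτ hτ'
    have := (card_le_card hsub).trans (card_insert_le _ _)
    omega
  · intro τ φ r hr hφ v hv v' hv'
    simp only [mem_filter, mem_univ, true_and] at hv hv'
    obtain ⟨ψ, p1, p2⟩ := key τ φ r hφ
    have hl := gi_lip n m D R ψ r hr τ.1 fun u hu =>
      ⟨(p2 u (hlam τ u hu).1 (Or.inl hu)).1 (hlam τ u hu).2.1,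
        (p2 u (hlam τ u hu).1 (Or.inl hu)).2 (hlam τ u hu).2.2⟩
    have a1 := hl v hv
    have a2 := hl v' hv'
    rw [abs_sub_comm] at a2
    have := abs_sub_le (ψ v) (ψ τ.1) (ψ v')
    rw [← p1, ← p1]
    linarith
  · intro v φ r hr hφ v' hv'
    simp only [mem_filter, mem_univ, true_and] at hv'
    obtain ⟨ψ, p1, p2⟩ := key ⟨ow v.1, o1 _ v.2⟩ φ r hφ
    have hl := hlam ⟨ow v.1, o1 _ v.2⟩
    have a2 := gi_lip n m D R ψ r hr (ow v.1) (fun u hu =>
      ⟨(p2 u (hl u hu).1 (Or.inl hu)).1 (hl u hu).2.1,
        (p2 u (hl u hu).1 (Or.inl hu)).2 (hl u hu).2.2⟩) v' hv'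
    have a1 := o4 ψ r hr v.1 v.2 fun u hu hu' e => (p2 u hu (Or.inr e)).1 hu'
    rw [abs_sub_comm] at a2
    have := abs_sub_le (ψ v) (ψ (ow v.1)) (ψ v')
    rw [← p1, ← p1]
    linarith

end Pool.Agent.Lib.MP_c8786f_co.W5
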