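import Mathlib

/-!
Vector balancing by lifting: the Komlos bound, in a form that allows every coefficient to be chosen
from any set meeting all admissible intervals (signs, or a coset of `2 ℤ`).
-/

namespace Pool.Agent.Lib.MP_c8786f_co.W5

open Function

lemma fin_shift {G Y : Type} [AddCommGroup G] {P : G × Y → ℝ} (hf : (support P).Finite) (u : G) :
    (support fun z : G × Y => P (z.1 + u, z.2)).Finite := by
  refine (hf.image fun z : G × Y => (z.1 - u, z.2)).subset fun z hz => ⟨(z.1 + u, z.2), hz, ?_⟩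
  simp

lemma sum_shift {G Y M : Type} [AddCommGroup G] [AddCommMonoid M] (F : G × Y → M) (u : G) :
    ∑ᶠ z : G × Y, F (z.1 + u, z.2) = ∑ᶠ z, F z :=
  finsum_comp_equiv ((Equiv.addRight u).prodCongr (Equiv.refl Y))

lemma sum_layers {G Y M : Type} [AddCommMonoid M] (F : G × (Y × Bool) → M)
    (hF : (support F).Finite) :
    ∑ᶠ z, F z = ∑ᶠ x : G × Y, (F (x.1, (x.2, false)) + F (x.1, (x.2, true))) := by
  have h1 : ∑ᶠ z, F z = ∑ᶠ z : (G × Y) × Bool, F (Equiv.prodAssoc G Y Bool z) :=
    (finsum_comp_equiv (Equiv.prodAssoc G Y Bool)).symm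
  have h2 : (support fun z : (G × Y) × Bool => F (Equiv.prodAssoc G Y Bool z)).Finite :=
    hF.preimage (Equiv.injective _).injOn
  rw [h1, finsum_curry _ h2]
  refine finsum_congr fun x => ?_
  rw [finsum_eq_sum_of_fintype, Fintype.sum_bool, add_comm]
  rfl

lemma fsum_le {X : Type} {f g : X → ℝ} (hf : (support f).Finite) (hg : (support g).Finite)
    (h : ∀ x, f x ≤ g x) : ∑ᶠ x, f x ≤ ∑ᶠ x, g x := by
  classical
  rw [finsum_eq_sum_of_support_subset f (s := (hf.union hg).toFinset) (by simp),
    finsum_eq_sum_of_support_subset g (s := (hf.union hg).toFinset) (by simp)]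
  exact Finset.sum_le_sum fun x _ => h x

lemma fin_of {X M N : Type} [Zero M] [Zero N] {f : X → M} {s : Set X} (hs : s.Finite)
    (h : ∀ x, x ∉ s → f x = 0) : (support f).Finite :=
  hs.subset fun x hx => by by_contra h'; exact hx (h x h')

theorem lift {G : Type} [AddCommGroup G] (n : ℕ) : ∀ (Y E : Type) [AddCommGroup E] [Module ℝ E]
    (L : G →+ E) (j : Y → E) (P : G × Y → ℝ), (support P).Finite → (∀ z, 0 ≤ P z) →
    ∑ᶠ z, P z = 1 → ∀ g : Fin n → G,
    (∀ i, ∑ᶠ z : G × Y, |P (z.1 + (g i + g i), z.2) - P z| ≤ 2 / 3) → ∀ A : Fin n → Set ℝ,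
    (∀ i c b, 1 / 3 ≤ b → |c| ≤ 1 - b → ∃ a ∈ A i, |a - c| ≤ b) → ∀ K : Set E, Convex ℝ K →
    (∀ z, P z ≠ 0 → L z.1 + j z.2 ∈ K) →
    ∃ a : Fin n → ℝ, (∀ i, a i ∈ A i ∧ |a i| ≤ 1) ∧
      ∑ᶠ z, P z • (L z.1 + j z.2) + ∑ i, a i • L (g i) ∈ K := by
  classical
  induction n with
  | zero =>
    intro Y E _ _ L j P hf h0 h1 g _ A _ K hK hs
    refine ⟨fun i => i.elim0, fun i => i.elim0, ?_⟩
    rw [Finset.univ_eq_empty, Finset.sum_empty, add_zero,
      finsum_eq_sum_of_support_subset _ (s := hf.toFinset) (fun z hz => by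
        simp only [Set.Finite.coe_toFinset, mem_support] at hz ⊢
        intro h; exact hz (by rw [h, zero_smul]))]
    rw [finsum_eq_sum_of_support_subset _ (s := hf.toFinset) (by simp)] at h1
    exact hK.sum_mem (fun z _ => h0 z) h1 fun z hz => hs z (by simpa using hz)
  | succ n ih =>
    intro Y E _ _ L j P hf h0 h1 g hD A hA K hK hs
    set w := g (Fin.last n) with hw
    let Pp : G × Y → ℝ := fun x => P (x.1 + w, x.2)
    let Pm : G × Y → ℝ := fun x => P (x.1 + -w, x.2)
    have fp : (support Pp).Finite := fin_shift hf w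
    have fm : (support Pm).Finite := fin_shift hf (-w)
    have sp : ∑ᶠ x, Pp x = 1 := (sum_shift P w).trans h1
    have sm : ∑ᶠ x, Pm x = 1 := (sum_shift P (-w)).trans h1
    let T : G × (Y × Bool) → ℝ := fun z =>
      (if z.2.2 then min (Pp (z.1, z.2.1)) (Pm (z.1, z.2.1))
        else max (Pp (z.1, z.2.1)) (Pm (z.1, z.2.1))) / 2
    have fT : (support T).Finite := by
      refine fin_of (N := ℝ) (((fp.union fm).prod (Set.toFinite (Set.univ : Set Bool))).image
        (Equiv.prodAssoc G Y Bool)) fun z hz => ?_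
      have : ¬(Pp (z.1, z.2.1) ≠ 0 ∨ Pm (z.1, z.2.1) ≠ 0) := fun h =>
        hz ⟨((z.1, z.2.1), z.2.2), ⟨h, trivial⟩, rfl⟩
      push Not at this
      simp [T, this.1, this.2]
    have hsum : ∀ x : G × Y, T (x.1, (x.2, false)) + T (x.1, (x.2, true)) = (Pp x + Pm x) / 2 := by
      intro x
      simp only [T, Bool.false_eq_true, if_false, if_true, Prod.mk.eta]
      rw [← add_div, max_add_min]
    have fpm : (support fun x => (Pp x + Pm x) / 2).Finite :=
      fin_of (N := ℝ) (fp.union fm) fun x hx => by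
        simp only [Set.mem_union, mem_support, not_or, not_not] at hx
        simp [hx.1, hx.2]
    have half : ∀ {f : G × Y → ℝ}, ∑ᶠ x, f x / 2 = (∑ᶠ x, f x) / 2 := fun {f} => by
      simp only [div_eq_mul_inv, finsum_mul]
    have T1 : ∑ᶠ z, T z = 1 := by
      rw [sum_layers T fT, finsum_congr hsum, half, finsum_add_distrib fp fm, sp, sm]; norm_num
    let K' : Set (E × ℝ) := {z | ∃ c : ℝ, |c| ≤ 1 - z.2 ∧
      ∀ s : ℝ, |s| ≤ 1 → z.1 + (c + s * z.2) • L w ∈ K}
    have hK' : Convex ℝ K' := by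
      rintro z ⟨c, hc, hz⟩ z' ⟨c', hc', hz'⟩ a b ha hb hab
      refine ⟨a * c + b * c', ?_, fun s hs => ?_⟩
      · simp only [Prod.snd_add, Prod.smul_snd, smul_eq_mul]
        have := abs_add_le (a * c) (b * c')
        rw [abs_mul, abs_mul, abs_of_nonneg ha, abs_of_nonneg hb] at this
        nlinarith [mul_le_mul_of_nonneg_left hc ha, mul_le_mul_of_nonneg_left hc' hb]
      · have := hK (hz s hs) (hz' s hs) ha hb hab
        convert this using 1
        simp only [Prod.fst_add, Prod.smul_fst, Prod.snd_add, Prod.smul_snd, smul_eq_mul]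
        module
    let L' : G →+ E × ℝ := L.prod 0
    let j' : Y × Bool → E × ℝ := fun y => (j y.1, if y.2 then 1 else 0)
    obtain ⟨a, ha, c, hc, hfin⟩ := ih (Y × Bool) (E × ℝ) L' j' T fT
      (fun z => by
        have h2 := h0 (z.1 + w, z.2.1)
        have h3 := h0 (z.1 + -w, z.2.1)
        simp only [T]
        split_ifs
        · exact div_nonneg (le_min h2 h3) two_pos.le
        · exact div_nonneg (le_max_of_le_left h2) two_pos.le)
      T1 (fun i => g i.castSucc) (fun i => by
        set u := g i.castSucc + g i.castSucc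
        have f1 : (support fun z : G × (Y × Bool) => |T (z.1 + u, z.2) - T z|).Finite :=
          fin_of (N := ℝ) ((fin_shift fT u).union fT) fun z hz => by
            simp only [Set.mem_union, mem_support, not_or, not_not] at hz
            simp [hz.1, hz.2]
        let Q : G × Y → ℝ := fun z => |P (z.1 + u, z.2) - P z|
        have fQ : (support Q).Finite :=
          fin_of (N := ℝ) ((fin_shift hf u).union hf) fun z hz => by
            simp only [Set.mem_union, mem_support, not_or, not_not] at hz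
            simp [Q, hz.1, hz.2]
        have f2 := fin_shift fQ w
        have f3 := fin_shift fQ (-w)
        rw [sum_layers _ f1]
        refine (fsum_le (g := fun x => (Q (x.1 + w, x.2) + Q (x.1 + -w, x.2)) / 2) ?_ ?_
          fun x => ?_).trans ?_
        · refine fin_of (N := ℝ) ((f1.image fun z => (z.1, z.2.1))) fun x hx => ?_
          have h2 : ∀ b, |T (x.1 + u, (x.2, b)) - T (x.1, (x.2, b))| = 0 := fun b => by
            by_contra h; exact hx ⟨(x.1, (x.2, b)), h, rfl⟩
          simp only [h2, add_zero]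
        · exact fin_of (N := ℝ) (f2.union f3) fun x hx => by
            simp only [Set.mem_union, mem_support, not_or, not_not] at hx
            simp [hx.1, hx.2]
        · simp only [T, Q, Pp, Pm, Bool.false_eq_true, if_false, if_true,
            add_right_comm x.1 u]
          generalize P (x.1 + w + u, x.2) = a1
          generalize P (x.1 + -w + u, x.2) = a2
          generalize P (x.1 + w, x.2) = a3
          generalize P (x.1 + -w, x.2) = a4
          rw [← sub_div, ← sub_div, abs_div, abs_div, abs_two, ← add_div]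
          refine div_le_div_of_nonneg_right ?_ two_pos.le
          rcases le_total a1 a2 with h | h <;> rcases le_total a3 a4 with h' | h' <;>
            simp only [max_eq_left, max_eq_right, min_eq_left, min_eq_right, h, h'] <;>
            [linarith; skip; skip; linarith] <;>
            rcases abs_cases (a1 - a3) with h1 | h1 <;> rcases abs_cases (a2 - a4) with h2 | h2 <;>
            rcases abs_cases (a2 - a3) with h3 | h3 <;> rcases abs_cases (a1 - a4) with h4 | h4 <;>
            linarith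
        · rw [half, finsum_add_distrib f2 f3, sum_shift Q w, sum_shift Q (-w)]
          have := hD i.castSucc
          simp only [Q] at this ⊢
          linarith)
      (fun i => A i.castSucc) (fun i => hA i.castSucc) K' hK' (fun z hz => by
        obtain ⟨x, y, b⟩ := z
        cases b
        · simp only [T, Bool.false_eq_true, if_false] at hz
          by_cases h : Pp (x, y) = 0
          · refine ⟨-1, by simp [L', j'], fun s _ => ?_⟩
            have h2 : Pm (x, y) ≠ 0 := fun h2 => hz (by simp [h, h2])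
            have := hs _ h2
            convert this using 1
            simp only [L', j', map_add, map_neg]
            simp; abel
          · refine ⟨1, by simp [L', j'], fun s _ => ?_⟩
            have := hs _ h
            convert this using 1
            simp only [L', j', map_add]
            simp; abel
        · simp only [T, if_true] at hz
          have h2 : Pp (x, y) ≠ 0 := fun h2 => hz (by
            rw [h2, min_eq_left (h0 _)]; simp)
          have h3 : Pm (x, y) ≠ 0 := fun h3 => hz (by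
            rw [h3, min_eq_right (h0 _)]; simp)
          refine ⟨0, by simp [L', j'], fun s hs1 => ?_⟩
          have hs2 := abs_le.mp hs1
          have := hK (hs _ h2) (hs _ h3) (a := (1 + s) / 2) (b := (1 - s) / 2) (by linarith)
            (by linarith) (by ring)
          convert this using 1
          simp only [L', j', map_add, map_neg]
          simp
          module)
    have fv : (support fun z : G × (Y × Bool) => T z • (L' z.1 + j' z.2)).Finite :=
      fin_of (N := ℝ) fT fun z hz => by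
        simp only [mem_support, not_not] at hz
        rw [hz, zero_smul]
    let pos : G × Y → E := fun x => L x.1 + j x.2
    have fvp : ∀ {f : G × Y → ℝ} (F : G × Y → E), (support f).Finite →
        (support fun x => f x • F x).Finite := fun {f} F h =>
      fin_of (N := ℝ) h fun z hz => by
        simp only [mem_support, not_not] at hz
        rw [hz, zero_smul]
    have m1 : (∑ᶠ z, T z • (L' z.1 + j' z.2)).1 = ∑ᶠ z, P z • pos z := by
      have e1 : (∑ᶠ z, T z • (L' z.1 + j' z.2)).1 = ∑ᶠ z, T z • pos (z.1, z.2.1) :=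
        (AddMonoidHom.fst E ℝ).map_finsum fv
      have e2 : ∀ u : G, ∑ᶠ x : G × Y, P (x.1 + u, x.2) • pos x = ∑ᶠ z, P z • pos z - L u := by
        intro u
        have := sum_shift (fun x : G × Y => P x • pos x - P x • L u) u
        rw [finsum_sub_distrib (fvp _ hf) (fvp _ hf), ← finsum_smul' hf, h1, one_smul] at this
        rw [← this]
        refine finsum_congr fun x => ?_
        simp only [pos, map_add]
        module
      rw [e1, sum_layers _ (fin_of (N := ℝ) fT fun z hz => by
        simp only [mem_support, not_not] at hz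
        rw [hz, zero_smul])]
      have e3 : ∀ x : G × Y, T (x.1, (x.2, false)) • pos (x.1, x.2) +
          T (x.1, (x.2, true)) • pos (x.1, x.2) =
          (2⁻¹ : ℝ) • (Pp x • pos x + Pm x • pos x) := fun x => by
        rw [← add_smul, hsum, ← add_smul, smul_smul, Prod.mk.eta]
        congr 1; ring
      rw [finsum_congr e3, ← smul_finsum, finsum_add_distrib (fvp _ fp) (fvp _ fm), e2, e2,
        map_neg]
      module
    set b := (∑ᶠ z, T z • (L' z.1 + j' z.2) + ∑ i, a i • L' (g i.castSucc)).2 with hb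
    have m2 : b = ∑ᶠ x, min (Pp x) (Pm x) / 2 := by
      have e1 : (∑ᶠ z, T z • (L' z.1 + j' z.2)).2 = ∑ᶠ z, (T z • (L' z.1 + j' z.2)).2 :=
        (AddMonoidHom.snd E ℝ).map_finsum fv
      rw [hb, Prod.snd_add, Prod.snd_sum, e1, sum_layers _ (fin_of (N := ℝ) fT fun z hz => by
        simp only [mem_support, not_not] at hz
        rw [hz, zero_smul]; rfl)]
      simp [L', j', T]
    have hb3 : 1 / 3 ≤ b := by
      have e1 : ∀ x, min (Pp x) (Pm x) / 2 = ((Pp x + Pm x) - |Pp x - Pm x|) / 2 / 2 := fun x => by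
        rcases le_total (Pp x) (Pm x) with h | h
        · rw [min_eq_left h, abs_of_nonpos (by linarith)]; ring
        · rw [min_eq_right h, abs_of_nonneg (by linarith)]; ring
      have f1 : (support fun x => Pp x + Pm x).Finite :=
        fin_of (N := ℝ) (fp.union fm) fun x hx => by
          simp only [Set.mem_union, mem_support, not_or, not_not] at hx
          simp [hx.1, hx.2]
      have f2 : (support fun x => |Pp x - Pm x|).Finite :=
        fin_of (N := ℝ) (fp.union fm) fun x hx => by
          simp only [Set.mem_union, mem_support, not_or, not_not] at hx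
          simp [hx.1, hx.2]
      have e2 : ∑ᶠ x, |Pp x - Pm x| ≤ 2 / 3 := by
        have := sum_shift (fun z : G × Y => |P (z.1 + (w + w), z.2) - P z|) (-w)
        refine le_of_eq_of_le (Eq.trans (finsum_congr fun x => ?_) this) (hD (Fin.last n))
        simp only [Pp, Pm]
        rw [show x.1 + -w + (w + w) = x.1 + w by abel]
      rw [m2, finsum_congr e1, half, half, finsum_sub_distrib f1 f2, finsum_add_distrib fp fm, sp,
        sm]
      linarith
    obtain ⟨a0, ha0, ha1⟩ := hA (Fin.last n) c b hb3 hc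
    have hb0 : 0 < b := by linarith
    have hfin' := hfin ((a0 - c) / b) (by
      rw [abs_div, abs_of_pos hb0, div_le_one hb0]; exact ha1)
    rw [div_mul_cancel₀ _ hb0.ne', add_sub_cancel, Prod.fst_add, m1, Prod.fst_sum] at hfin'
    refine ⟨Fin.snoc (α := fun _ => ℝ) a a0, fun i => ?_, ?_⟩
    · refine Fin.lastCases ?_ (fun i => ?_) i
      · rw [Fin.snoc_last]
        refine ⟨ha0, ?_⟩
        have := abs_add_le (a0 - c) c
        rw [sub_add_cancel] at this
        linarith
      · rw [Fin.snoc_castSucc]; exact ha i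
    · rw [Fin.sum_univ_castSucc]
      simp only [Fin.snoc_castSucc, Fin.snoc_last]
      rw [← add_assoc]
      exact hfin'

/-- the tent function -/
def tent (W : ℕ) (x : ℤ) : ℝ := max 0 ((W : ℝ) - |(x : ℝ)|)

lemma tent_zero {W : ℕ} {x : ℤ} (h : x ∉ Finset.Icc (-(W : ℤ)) W) : tent W x = 0 := by
  rw [Finset.mem_Icc, ← abs_le, not_le] at h
  have : (W : ℝ) < |(x : ℝ)| := by exact_mod_cast h
  exact max_eq_left (by linarith)

lemma tent_fin (W : ℕ) (t : ℤ) : (support fun x => tent W (x + t)).Finite :=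
  fin_of (N := ℝ) (Finset.Icc (-(W : ℤ) - t) (W - t)).finite_toSet fun x hx => tent_zero (by
    simp only [Finset.coe_Icc, Set.mem_Icc, Finset.mem_Icc] at hx ⊢
    omega)

lemma tent_lip (W : ℕ) (x t : ℤ) : |tent W (x + t) - tent W x| ≤ |(t : ℝ)| := by
  unfold tent
  rw [max_comm 0, max_comm 0]
  refine (abs_max_sub_max_le_abs _ _ _).trans ?_
  rw [sub_sub_sub_cancel_left]
  refine (abs_abs_sub_abs_le_abs_sub _ _).trans (le_of_eq ?_)
  push_cast
  rw [show (x : ℝ) - (x + t) = -t by ring, abs_neg]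

lemma tent_norm (W : ℕ) : 8 * (W : ℝ) ^ 3 ≤ ∑ᶠ x, tent (3 * W) x * tent (3 * W) x := by
  rw [finsum_eq_sum_of_support_subset _ (s := Finset.Icc (-((3 * W : ℕ) : ℤ)) (3 * W : ℕ))
    (fun x hx => by
      by_contra h
      exact hx (mul_eq_zero_of_left (tent_zero (by simpa using h)) _))]
  refine le_trans ?_ (Finset.sum_le_sum_of_subset_of_nonneg
    (Finset.Icc_subset_Icc (a₁ := -(W : ℤ)) (b₁ := W) (by omega) (by omega))
    fun x _ _ => mul_self_nonneg _)
  refine le_trans ?_ (Finset.card_nsmul_le_sum _ _ ((2 * W : ℝ) * (2 * W)) fun x hx => ?_)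
  · rw [Int.card_Icc, nsmul_eq_mul, show ((W : ℤ) + 1 - -W).toNat = 2 * W + 1 by omega]
    push_cast
    nlinarith [mul_self_nonneg (W : ℝ)]
  · rw [Finset.mem_Icc, ← abs_le] at hx
    have h1 : |(x : ℝ)| ≤ W := by exact_mod_cast hx
    have h2 : (2 * W : ℝ) ≤ tent (3 * W) x := le_max_of_le_right (by push_cast; linarith)
    exact mul_self_le_mul_self (by positivity) h2

lemma tent_diff (W : ℕ) (t : ℤ) : 2 * ∑ᶠ x, tent W x * tent W x - (4 * W + 2) * (t : ℝ) ^ 2 ≤
    2 * ∑ᶠ x, tent W (x + t) * tent W x := by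
  classical
  have f0 : (support fun x => tent W x).Finite := by simpa using tent_fin W 0
  set S := Finset.Icc (-(W : ℤ) - t) (W - t) ∪ Finset.Icc (-(W : ℤ)) W with hS
  have z1 : ∀ x, x ∉ S → tent W (x + t) = 0 := fun x hx => tent_zero (by
    simp only [hS, Finset.mem_union, Finset.mem_Icc] at hx ⊢; omega)
  have z2 : ∀ x, x ∉ S → tent W x = 0 := fun x hx => tent_zero fun h =>
    hx (Finset.mem_union_right _ h)
  have e0 : ∑ᶠ x, tent W (x + t) * tent W (x + t) = ∑ᶠ x, tent W x * tent W x :=
    finsum_comp_equiv (Equiv.addRight t) (f := fun x => tent W x * tent W x)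
  have e1 : ∑ᶠ x, tent W (x + t) * tent W (x + t) = ∑ x ∈ S, tent W (x + t) * tent W (x + t) :=
    finsum_eq_sum_of_support_subset _ fun x hx => by
      by_contra h; exact hx (mul_eq_zero_of_right _ (z1 x h))
  have e2 : ∑ᶠ x, tent W x * tent W x = ∑ x ∈ S, tent W x * tent W x :=
    finsum_eq_sum_of_support_subset _ fun x hx => by
      by_contra h; exact hx (mul_eq_zero_of_right _ (z2 x h))
  have e3 : ∑ᶠ x, tent W (x + t) * tent W x = ∑ x ∈ S, tent W (x + t) * tent W x :=
    finsum_eq_sum_of_support_subset _ fun x hx => by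
      by_contra h; exact hx (mul_eq_zero_of_right _ (z2 x h))
  have c1 : S.card ≤ 4 * W + 2 := by
    refine (Finset.card_union_le _ _).trans ?_
    rw [Int.card_Icc, Int.card_Icc]; omega
  have c2 : (S.card : ℝ) ≤ 4 * W + 2 := by exact_mod_cast c1
  have h1 : ∑ x ∈ S, (tent W (x + t) - tent W x) ^ 2 ≤ S.card • (t : ℝ) ^ 2 :=
    Finset.sum_le_card_nsmul _ _ _ fun x _ => by
      rw [← sq_abs, ← sq_abs (t : ℝ)]
      exact pow_le_pow_left₀ (abs_nonneg _) (tent_lip W x t) 2
  have h2 : ∑ x ∈ S, (tent W (x + t) - tent W x) ^ 2 = ∑ x ∈ S, tent W (x + t) * tent W (x + t) +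
      ∑ x ∈ S, tent W x * tent W x - 2 * ∑ x ∈ S, tent W (x + t) * tent W x := by
    rw [Finset.mul_sum, ← Finset.sum_add_distrib, ← Finset.sum_sub_distrib]
    exact Finset.sum_congr rfl fun x _ => by ring
  rw [nsmul_eq_mul] at h1
  nlinarith [mul_le_mul_of_nonneg_right c2 (sq_nonneg (t : ℝ))]

lemma fsum_pi {E : Type} [Fintype E] [DecidableEq E] (φ : E → ℤ → ℝ)
    (h : ∀ e, (support (φ e)).Finite) :
    (support fun z : (E → ℤ) × Unit => ∏ e, φ e (z.1 e)).Finite ∧
      ∑ᶠ z : (E → ℤ) × Unit, ∏ e, φ e (z.1 e) = ∏ e, ∑ᶠ x, φ e x := by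
  have hs : (support fun z : E → ℤ => ∏ e, φ e (z e)) ⊆
      Fintype.piFinset fun e => (h e).toFinset := fun z hz => by
    simpa using Finset.prod_ne_zero_iff.mp hz
  refine ⟨((Finset.finite_toSet _).subset hs).preimage (f := fun z : (E → ℤ) × Unit => z.1)
    (fun a _ b _ hab => Prod.ext hab rfl), ?_⟩
  refine ((finsum_comp_equiv (Equiv.prodUnique (E → ℤ) Unit)
    (f := fun z => ∏ e, φ e (z e))).trans (finsum_eq_sum_of_support_subset _ hs)).trans ?_
  rw [← Finset.prod_univ_sum]
  exact Finset.prod_congr rfl fun e _ => (finsum_eq_sum_of_support_subset _ (by simp)).symm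

lemma one_sub_sum_le {E : Type} (s : Finset E) (x : E → ℝ) (h0 : ∀ e, 0 ≤ x e)
    (y : E → ℝ) (h1 : ∀ e, 0 ≤ y e) (h : ∀ e, 1 - x e ≤ y e) :
    1 - ∑ e ∈ s, x e ≤ ∏ e ∈ s, y e := by
  classical
  induction s using Finset.induction_on with
  | empty => simp
  | insert a s ha ih =>
    rw [Finset.sum_insert ha, Finset.prod_insert ha]
    have h2 : 0 ≤ ∑ e ∈ s, x e := Finset.sum_nonneg fun e _ => h0 e
    have h3 : 0 ≤ ∏ e ∈ s, y e := Finset.prod_nonneg fun e _ => h1 e
    by_cases h4 : x a ≤ 1
    · nlinarith [mul_le_mul_of_nonneg_right (h a) h3, mul_le_mul_of_nonneg_left ih (sub_nonneg.2 h4),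
        mul_nonneg (h0 a) h2]
    · nlinarith [mul_nonneg (h1 a) h3]

/-- **Komlos bound**, with coefficients from sets meeting all admissible intervals. -/
theorem komlos {E ι : Type} [Fintype E] [Fintype ι] (v : ι → E → ℝ) {κ : ℝ} (hκ : 0 < κ)
    (hv : ∀ i, ∑ e, v i e ^ 2 ≤ κ ^ 2) (A : ι → Set ℝ)
    (hA : ∀ i c b, 1 ≤ b → |c| ≤ 3 - b → ∃ a ∈ A i, |a - c| ≤ b) :
    ∃ a : ι → ℝ, (∀ i, a i ∈ A i ∧ |a i| ≤ 3) ∧ ∀ e, |∑ i, a i * v i e| ≤ 100 * κ := by
  classical
  obtain ⟨N, hN1, hN2, hN3⟩ : ∃ N : ℕ, 1 ≤ N ∧ Fintype.card E ≤ N ∧ Fintype.card ι ≤ N :=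
    ⟨1 + Fintype.card E + Fintype.card ι, by omega, by omega, by omega⟩
  have hN : (1 : ℝ) ≤ N := by exact_mod_cast hN1
  have hNE : (Fintype.card E : ℝ) ≤ N := by exact_mod_cast hN2
  have hNι : (Fintype.card ι : ℝ) ≤ N := by exact_mod_cast hN3
  set δ := κ / N with hδ
  have hδ0 : 0 < δ := by positivity
  have hδN : δ * N = κ := div_mul_cancel₀ _ (by positivity)
  set W := 3 * (32 * N) with hW
  have hWR : (W : ℝ) = 96 * N := by rw [hW]; push_cast; ring
  set Z := ∑ᶠ x, tent W x * tent W x with hZ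
  have hZ1 : 8 * (32 * N : ℝ) ^ 3 ≤ Z := by exact_mod_cast tent_norm (32 * N)
  have hZ0 : 0 < Z := lt_of_lt_of_le (by positivity) hZ1
  have f0 : (support fun x => tent W x).Finite := by simpa using tent_fin W 0
  have fq : ∀ s t : ℤ, (support fun x => tent W (x + s) * tent W (x + t) / Z).Finite := fun s t =>
    fin_of (N := ℝ) (tent_fin W s) fun x hx => by
      simp only [mem_support, not_not] at hx
      simp [hx]
  have sq : ∀ s : ℤ, ∑ᶠ x, tent W (x + s) * tent W (x + s) / Z = 1 := fun s => by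
    simp only [div_eq_mul_inv, ← finsum_mul]
    rw [show ∑ᶠ x, tent W (x + s) * tent W (x + s) = Z from
      finsum_comp_equiv (Equiv.addRight s) (f := fun x => tent W x * tent W x),
      mul_inv_cancel₀ hZ0.ne']
  let Q : (E → ℤ) → (E → ℤ) → (E → ℤ) × Unit → ℝ := fun s t z =>
    ∏ e, tent W (z.1 e + s e) * tent W (z.1 e + t e) / Z
  have fQ : ∀ s t, (support (Q s t)).Finite := fun s t =>
    (fsum_pi (fun e x => tent W (x + s e) * tent W (x + t e) / Z) fun e => fq _ _).1
  have sQ : ∀ s t, ∑ᶠ z, Q s t z = ∏ e, ∑ᶠ x, tent W (x + s e) * tent W (x + t e) / Z :=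
    fun s t => (fsum_pi (fun e x => tent W (x + s e) * tent W (x + t e) / Z) fun e => fq _ _).2
  have sQ1 : ∀ s, ∑ᶠ z, Q s s z = 1 := fun s => by rw [sQ]; simp only [sq, Finset.prod_const_one]
  have tn : ∀ x, 0 ≤ tent W x := fun x => le_max_left _ _
  let g : ι → E → ℤ := fun i e => round (3 * v i e / δ)
  have hg : ∀ i e, |δ * g i e - 3 * v i e| ≤ δ / 2 := fun i e => by
    have := abs_sub_round (3 * v i e / δ)
    rw [show δ * g i e - 3 * v i e = -δ * (3 * v i e / δ - round (3 * v i e / δ)) by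
      simp only [g]; field_simp; ring, abs_mul, abs_neg, abs_of_pos hδ0]
    nlinarith
  let L : (E → ℤ) →+ (E → ℝ) :=
    { toFun := fun z e => δ * z e
      map_zero' := by ext e; simp
      map_add' := fun x y => by ext e; simp [mul_add] }
  let eq := (Fintype.equivFin ι).symm
  obtain ⟨a, ha, hfin⟩ := lift (Fintype.card ι) Unit (E → ℝ) L (fun _ => 0) (Q 0 0) (fQ 0 0)
    (fun z => Finset.prod_nonneg fun e _ => div_nonneg (mul_self_nonneg _) hZ0.le) (sQ1 0)
    (fun i => g (eq i)) (fun i => by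
      set t := g (eq i) + g (eq i) with ht
      have e1 : ∀ z : (E → ℤ) × Unit, Q 0 0 (z.1 + t, z.2) = Q t t z := fun z => by simp [Q]
      have key : ∀ z, |Q t t z - Q 0 0 z| ≤ 3 * (Q t t z + Q 0 0 z - 2 * Q t 0 z) +
          (Q t t z + Q 0 0 z) / 6 := fun z => by
        have hs : 0 < √Z := Real.sqrt_pos.2 hZ0
        have e2 : ∀ s s', Q s s' z = (∏ e, tent W (z.1 e + s e) / √Z) *
            ∏ e, tent W (z.1 e + s' e) / √Z := fun s s' => by
          rw [← Finset.prod_mul_distrib]
          exact Finset.prod_congr rfl fun e _ => by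
            rw [div_mul_div_comm, Real.mul_self_sqrt hZ0.le]
        rw [e2, e2, e2]
        generalize ∏ e, tent W (z.1 e + t e) / √Z = x
        generalize ∏ e, tent W (z.1 e + (0 : E → ℤ) e) / √Z = y
        rw [abs_le]
        constructor <;> nlinarith [sq_nonneg (6 * (x - y) + (x + y)),
          sq_nonneg (6 * (x - y) - (x + y)), sq_nonneg (x - y)]
      have f1 : (support fun z => Q t t z + Q 0 0 z).Finite :=
        fin_of (N := ℝ) ((fQ t t).union (fQ 0 0)) fun x hx => by
          simp only [Set.mem_union, mem_support, not_or, not_not] at hx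
          simp [hx.1, hx.2]
      have f2 : (support fun z => 2 * Q t 0 z).Finite :=
        fin_of (N := ℝ) (fQ t 0) fun x hx => by
          simp only [mem_support, not_not] at hx
          simp [hx]
      have f3 : (support fun z => 3 * (Q t t z + Q 0 0 z - 2 * Q t 0 z)).Finite :=
        fin_of (N := ℝ) (f1.union f2) fun x hx => by
          simp only [Set.mem_union, mem_support, not_or, not_not] at hx
          rw [hx.1, hx.2]; simp
      have f4 : (support fun z => (Q t t z + Q 0 0 z) / 6).Finite :=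
        fin_of (N := ℝ) f1 fun x hx => by
          simp only [mem_support, not_not] at hx
          rw [hx]; simp
      simp only [e1]
      refine (fsum_le ?_ ?_ key).trans ?_
      · exact fin_of (N := ℝ) ((fQ t t).union (fQ 0 0)) fun x hx => by
          simp only [Set.mem_union, mem_support, not_or, not_not] at hx
          simp [hx.1, hx.2]
      · exact fin_of (N := ℝ) (f3.union f4) fun x hx => by
          simp only [Set.mem_union, mem_support, not_or, not_not] at hx
          rw [hx.1, hx.2]; simp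
      rw [finsum_add_distrib f3 f4, ← mul_finsum, finsum_sub_distrib f1 f2, ← mul_finsum]
      simp only [div_eq_mul_inv, ← finsum_mul]
      rw [finsum_add_distrib (fQ t t) (fQ 0 0), sQ1, sQ1, sQ]
      have h1 := one_sub_sum_le Finset.univ (fun e => (2 * W + 1) * (t e : ℝ) ^ 2 / Z)
        (fun e => by positivity)
        (fun e => ∑ᶠ x, tent W (x + t e) * tent W (x + (0 : E → ℤ) e) / Z)
        (fun e => finsum_nonneg fun x => div_nonneg (mul_nonneg (tn _) (tn _)) hZ0.le)
        (fun e => by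
          have := tent_diff W (t e)
          simp only [Pi.zero_apply, add_zero, div_eq_mul_inv, ← finsum_mul]
          rw [← div_eq_mul_inv, ← div_eq_mul_inv, le_div_iff₀ hZ0, sub_mul,
            div_mul_cancel₀ _ hZ0.ne']
          linarith)
      have h2 : ∑ e, (t e : ℝ) ^ 2 ≤ 74 * N ^ 2 := by
        have h3 : ∀ e, (t e : ℝ) ^ 2 * δ ^ 2 ≤ 72 * v (eq i) e ^ 2 + 2 * δ ^ 2 := fun e => by
          have h4 := abs_le.mp (hg (eq i) e)
          have h5 : (t e : ℝ) = 2 * g (eq i) e := by rw [ht]; simp [two_mul]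
          rw [h5]
          nlinarith [sq_nonneg (δ * g (eq i) e - 6 * v (eq i) e),
            mul_nonneg (sub_nonneg.2 h4.1) (sub_nonneg.2 h4.2)]
        have h6 := Finset.sum_le_sum fun e (_ : e ∈ Finset.univ) => h3 e
        rw [← Finset.sum_mul, Finset.sum_add_distrib, ← Finset.mul_sum, Finset.sum_const,
          Finset.card_univ, nsmul_eq_mul] at h6
        have h7 := hv (eq i)
        rw [← hδN] at h7
        have h8 : (Fintype.card E : ℝ) ≤ N ^ 2 := by nlinarith
        have hδ2 : 0 < δ ^ 2 := by positivity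
        refine le_of_mul_le_mul_right ?_ hδ2
        nlinarith [mul_le_mul_of_nonneg_right h8 hδ2.le]
      have h3 : ∑ e, (2 * W + 1) * (t e : ℝ) ^ 2 / Z ≤ 1 / 18 := by
        simp only [div_eq_mul_inv, ← Finset.sum_mul, ← Finset.mul_sum]
        rw [← div_eq_mul_inv, div_le_iff₀ hZ0]
        rw [hWR]
        have h4 : (2 * (96 * N) + 1) * ∑ e, (t e : ℝ) ^ 2 ≤ (193 * N) * (74 * N ^ 2) :=
          mul_le_mul (by linarith) h2 (Finset.sum_nonneg fun e _ => sq_nonneg _) (by positivity)
        have h5 : 0 ≤ (N : ℝ) ^ 3 := by positivity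
        nlinarith
      linarith)
    (fun i => {a | 3 * a ∈ A (eq i)}) (fun i c b hb hc => by
      obtain ⟨a, ha, ha'⟩ := hA (eq i) (3 * c) (3 * b) (by linarith)
        (by rw [abs_mul, abs_of_pos three_pos]; linarith)
      refine ⟨a / 3, by simpa [mul_div_cancel₀] using ha, ?_⟩
      rw [show a / 3 - c = (a - 3 * c) / 3 by ring, abs_div, abs_of_pos (three_pos (α := ℝ))]
      linarith)
    (Set.pi Set.univ fun _ => Set.Icc (-(δ * W)) (δ * W))
    (convex_pi fun _ _ => convex_Icc _ _) (fun z hz e _ => by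
      have h1 := Finset.prod_ne_zero_iff.mp hz e (Finset.mem_univ e)
      have h2 : z.1 e ∈ Finset.Icc (-(W : ℤ)) W := by
        by_contra h
        exact h1 (by simp [tent_zero h])
      rw [Finset.mem_Icc, ← abs_le] at h2
      have h3 : |(z.1 e : ℝ)| ≤ W := by exact_mod_cast h2
      rw [Set.mem_Icc, ← abs_le]
      simp only [L, add_zero, AddMonoidHom.coe_mk, ZeroHom.coe_mk]
      rw [abs_mul, abs_of_pos hδ0]
      exact mul_le_mul_of_nonneg_left h3 hδ0.le)
  have hm : ∑ᶠ z : (E → ℤ) × Unit, Q 0 0 z • (L z.1 + 0) = 0 := by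
    have h1 := finsum_comp_equiv ((Equiv.neg (E → ℤ)).prodCongr (Equiv.refl Unit))
      (f := fun z : (E → ℤ) × Unit => Q 0 0 z • (L z.1 + 0))
    have h2 : ∀ z : (E → ℤ) × Unit, Q 0 0 (-z.1, z.2) • (L (-z.1) + 0) =
        -(Q 0 0 z • (L z.1 + 0)) := fun z => by
      simp [Q, tent]
    have h3 : ∑ᶠ z : (E → ℤ) × Unit, -(Q 0 0 z • (L z.1 + 0)) = _ :=
      (finsum_congr fun z => (h2 z).symm).trans h1
    rw [finsum_neg_distrib] at h3
    ext e
    have := congrFun h3 e
    simp only [Pi.neg_apply, Pi.zero_apply] at this ⊢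
    linarith
  refine ⟨fun i => 3 * a (eq.symm i), fun i => ⟨by simpa using (ha (eq.symm i)).1, ?_⟩,
    fun e => ?_⟩
  · rw [abs_mul, abs_of_pos three_pos]; linarith [(ha (eq.symm i)).2]
  · have h1 := hfin e trivial
    rw [hm, zero_add, Set.mem_Icc, ← abs_le, Finset.sum_apply] at h1
    rw [← Equiv.sum_comp eq]
    simp only [Equiv.symm_apply_apply]
    have h2 : |∑ i, (a i • L (g (eq i))) e - ∑ i, 3 * a i * v (eq i) e| ≤ κ := by
      rw [← Finset.sum_sub_distrib]
      refine (Finset.abs_sum_le_sum_abs _ _).trans ((Finset.sum_le_card_nsmul _ _ δ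
        fun i _ => ?_).trans ?_)
      · have h3 : (a i • L (g (eq i))) e - 3 * a i * v (eq i) e =
            a i * (δ * g (eq i) e - 3 * v (eq i) e) := by simp [L]; ring
        rw [h3, abs_mul]
        nlinarith [mul_le_mul (ha i).2 (hg (eq i) e) (abs_nonneg _) zero_le_one]
      · rw [Finset.card_univ, Fintype.card_fin, nsmul_eq_mul]
        nlinarith
    have h3 := abs_sub_abs_le_abs_sub (∑ i, 3 * a i * v (eq i) e) (∑ i, (a i • L (g (eq i))) e)
    rw [abs_sub_comm] at h3
    rw [hWR] at h1
    nlinarith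

/-- signs -/
theorem komlos_sign {E ι : Type} [Fintype E] [Fintype ι] (v : ι → E → ℝ) {κ : ℝ} (hκ : 0 < κ)
    (hv : ∀ i, ∑ e, v i e ^ 2 ≤ κ ^ 2) :
    ∃ a : ι → ℝ, (∀ i, a i = 1 ∨ a i = -1) ∧ ∀ e, |∑ i, a i * v i e| ≤ 100 * κ := by
  obtain ⟨a, h1, h2⟩ := komlos v hκ hv (fun _ => {a | a = 1 ∨ a = -1}) fun i c b hb hc => by
    have := abs_le.mp hc
    rcases le_total 0 c with h | h
    · exact ⟨1, Or.inl rfl, abs_le.mpr ⟨by linarith, by linarith⟩⟩
    · exact ⟨-1, Or.inr rfl, abs_le.mpr ⟨by linarith, by linarith⟩⟩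
  exact ⟨a, fun i => (h1 i).1, h2⟩

/-- cosets of `2 ℤ` -/
theorem komlos_coset {E ι : Type} [Fintype E] [Fintype ι] (v : ι → E → ℝ) {κ : ℝ} (hκ : 0 < κ)
    (hv : ∀ i, ∑ e, v i e ^ 2 ≤ κ ^ 2) (c : ι → ℝ) :
    ∃ z : ι → ℤ, (∀ i, |c i + 2 * z i| ≤ 3) ∧ ∀ e, |∑ i, (c i + 2 * z i) * v i e| ≤ 100 * κ := by
  obtain ⟨a, h1, h2⟩ := komlos v hκ hv (fun i => {a | ∃ z : ℤ, a = c i + 2 * z})
    fun i x b hb _ => by
      refine ⟨_, ⟨round ((x - c i) / 2), rfl⟩, ?_⟩
      have := abs_le.mp (abs_sub_round ((x - c i) / 2))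
      rw [abs_le]; constructor <;> linarith [this.1, this.2]
  choose z hz using fun i => (h1 i).1
  exact ⟨z, fun i => hz i ▸ (h1 i).2, fun e => by simpa only [← hz] using h2 e⟩

end Pool.Agent.Lib.MP_c8786f_co.W5
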