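import Pool.Agent.Lib.MP_c8786f_co.W5.Defs
import Pool.Agent.Lib.MP_c8786f_co.W5.Once

/-!
Vector balancing by lifting, in the form of a game.
-/

namespace Pool.Agent.Lib.MP_c8786f_co.W5

open Function

lemma k_fin_shift {G Y : Type} [AddCommGroup G] {P : G × Y → ℝ} (hf : (support P).Finite) (u : G) :
    (support fun z : G × Y => P (z.1 + u, z.2)).Finite := by
  refine (hf.image fun z : G × Y => (z.1 - u, z.2)).subset fun z hz => ⟨(z.1 + u, z.2), hz, ?_⟩
  simp

lemma k_sum_shift {G Y M : Type} [AddCommGroup G] [AddCommMonoid M] (F : G × Y → M) (u : G) :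
    ∑ᶠ z : G × Y, F (z.1 + u, z.2) = ∑ᶠ z, F z :=
  finsum_comp_equiv ((Equiv.addRight u).prodCongr (Equiv.refl Y))

lemma k_sum_layers {G Y M : Type} [AddCommMonoid M] (F : G × (Y × Bool) → M)
    (hF : (support F).Finite) :
    ∑ᶠ z, F z = ∑ᶠ x : G × Y, (F (x.1, (x.2, false)) + F (x.1, (x.2, true))) := by
  have h1 : ∑ᶠ z, F z = ∑ᶠ z : (G × Y) × Bool, F (Equiv.prodAssoc G Y Bool z) :=
    (finsum_comp_equiv (Equiv.prodAssoc G Y Bool)).symm
  have h2 : (support fun z : (G × Y) × Bool => F (Equiv.prodAssoc G Y Bool z)).Finite :=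
    hF.preimage (Equiv.injective _).injOn
  rw [h1, finsum_curry _ h2]
  refine finsum_congr fun x => ?_
  rw [finsum_eq_sum_of_fintype, Fintype.sum_bool, add_comm]
  rfl

lemma k_fsum_le {X : Type} {f g : X → ℝ} (hf : (support f).Finite) (hg : (support g).Finite)
    (h : ∀ x, f x ≤ g x) : ∑ᶠ x, f x ≤ ∑ᶠ x, g x := by
  classical
  rw [finsum_eq_sum_of_support_subset f (s := (hf.union hg).toFinset) (by simp),
    finsum_eq_sum_of_support_subset g (s := (hf.union hg).toFinset) (by simp)]
  exact Finset.sum_le_sum fun x _ => h x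

lemma k_fin_of {X M N : Type} [Zero M] [Zero N] {f : X → M} {s : Set X} (hs : s.Finite)
    (h : ∀ x, x ∉ s → f x = 0) : (support f).Finite :=
  hs.subset fun x hx => by by_contra h'; exact hx (h x h')

theorem k_lift {ι G : Type} [AddCommGroup G] (g : (ι → ℝ) → G) (l : List ((ι → ℝ) × ℝ)) :
    ∀ (Φ : (ι → ℝ) → Prop) (Y E : Type) [AddCommGroup E] [Module ℝ E]
    (L : G →+ E) (j : Y → E) (P : G × Y → ℝ), (support P).Finite → (∀ z, 0 ≤ P z) →
    ∑ᶠ z, P z = 1 →
    (∀ p ∈ l, p.2 ≤ 1 ∧ ∑ᶠ z : G × Y, |P (z.1 + (g p.1 + g p.1), z.2) - P z| ≤ 2 * p.2 / 3) →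
    Win l Φ → ∀ K : Set E, Convex ℝ K → (∀ z, P z ≠ 0 → L z.1 + j z.2 ∈ K) →
    ∃ a : Fin l.length → ℝ, (∀ i, |a i| ≤ 1) ∧ Φ (∑ i, a i • (l.get i).1) ∧
      ∑ᶠ z, P z • (L z.1 + j z.2) + ∑ i, (a i / 3) • L (g (l.get i).1) ∈ K := by
  classical
  induction l with
  | nil =>
    intro Φ Y E _ _ L j P hf h0 h1 _ hW K hK hs
    refine ⟨fun i => i.elim0, fun i => i.elim0, by simpa [Win] using hW, ?_⟩
    rw [show (Finset.univ : Finset (Fin ([] : List ((ι → ℝ) × ℝ)).length)) = ∅ from rfl,
      Finset.sum_empty, add_zero,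
      finsum_eq_sum_of_support_subset _ (s := hf.toFinset) (fun z hz => by
        simp only [Set.Finite.coe_toFinset, mem_support] at hz ⊢
        intro h; exact hz (by rw [h, zero_smul]))]
    rw [finsum_eq_sum_of_support_subset _ (s := hf.toFinset) (by simp)] at h1
    exact hK.sum_mem (fun z _ => h0 z) h1 fun z hz => hs z (by simpa using hz)
  | cons p l ih =>
    intro Φ Y E _ _ L j P hf h0 h1 hD hW K hK hs
    obtain ⟨Ψ, hΨ, hW⟩ := hW
    set w := g p.1 with hw
    let Pp : G × Y → ℝ := fun x => P (x.1 + w, x.2)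
    let Pm : G × Y → ℝ := fun x => P (x.1 + -w, x.2)
    have fp : (support Pp).Finite := k_fin_shift hf w
    have fm : (support Pm).Finite := k_fin_shift hf (-w)
    have sp : ∑ᶠ x, Pp x = 1 := (k_sum_shift P w).trans h1
    have sm : ∑ᶠ x, Pm x = 1 := (k_sum_shift P (-w)).trans h1
    let T : G × (Y × Bool) → ℝ := fun z =>
      (if z.2.2 then min (Pp (z.1, z.2.1)) (Pm (z.1, z.2.1))
        else max (Pp (z.1, z.2.1)) (Pm (z.1, z.2.1))) / 2
    have fT : (support T).Finite := by
      refine k_fin_of (N := ℝ) (((fp.union fm).prod (Set.toFinite (Set.univ : Set Bool))).image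
        (Equiv.prodAssoc G Y Bool)) fun z hz => ?_
      have : ¬(Pp (z.1, z.2.1) ≠ 0 ∨ Pm (z.1, z.2.1) ≠ 0) := fun h =>
        hz ⟨((z.1, z.2.1), z.2.2), ⟨h, trivial⟩, rfl⟩
      push Not at this
      simp [T, this.1, this.2]
    have hsum : ∀ x : G × Y, T (x.1, (x.2, false)) + T (x.1, (x.2, true)) = (Pp x + Pm x) / 2 := by
      intro x
      simp only [T, Bool.false_eq_true, if_false, if_true, Prod.mk.eta]
      rw [← add_div, max_add_min]
    have fpm : (support fun x => (Pp x + Pm x) / 2).Finite :=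
      k_fin_of (N := ℝ) (fp.union fm) fun x hx => by
        simp only [Set.mem_union, mem_support, not_or, not_not] at hx
        simp [hx.1, hx.2]
    have half : ∀ {f : G × Y → ℝ}, ∑ᶠ x, f x / 2 = (∑ᶠ x, f x) / 2 := fun {f} => by
      simp only [div_eq_mul_inv, finsum_mul]
    have T1 : ∑ᶠ z, T z = 1 := by
      rw [k_sum_layers T fT, finsum_congr hsum, half, finsum_add_distrib fp fm, sp, sm]; norm_num
    let K' : Set (E × ℝ) := {z | ∃ c : ℝ, |c| ≤ 1 - z.2 ∧
      ∀ s : ℝ, |s| ≤ 1 → z.1 + (c + s * z.2) • L w ∈ K}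
    have hK' : Convex ℝ K' := by
      rintro z ⟨c, hc, hz⟩ z' ⟨c', hc', hz'⟩ a b ha hb hab
      refine ⟨a * c + b * c', ?_, fun s hs => ?_⟩
      · simp only [Prod.snd_add, Prod.smul_snd, smul_eq_mul]
        have := abs_add_le (a * c) (b * c')
        rw [abs_mul, abs_mul, abs_of_nonneg ha, abs_of_nonneg hb] at this
        nlinarith [mul_le_mul_of_nonneg_left hc ha, mul_le_mul_of_nonneg_left hc' hb]
      · have := hK (hz s hs) (hz' s hs) ha hb hab
        convert this using 1
        simp only [Prod.fst_add, Prod.smul_fst, Prod.snd_add, Prod.smul_snd, smul_eq_mul]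
        module
    let L' : G →+ E × ℝ := L.prod 0
    let j' : Y × Bool → E × ℝ := fun y => (j y.1, if y.2 then 1 else 0)
    obtain ⟨a, ha, hz, c, hc, hfin⟩ := ih Ψ (Y × Bool) (E × ℝ) L' j' T fT
      (fun z => by
        have h2 := h0 (z.1 + w, z.2.1)
        have h3 := h0 (z.1 + -w, z.2.1)
        simp only [T]
        split_ifs
        · exact div_nonneg (le_min h2 h3) two_pos.le
        · exact div_nonneg (le_max_of_le_left h2) two_pos.le)
      T1 (fun q hq => ⟨(hD q (List.mem_cons_of_mem _ hq)).1, by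
        set u := g q.1 + g q.1
        have f1 : (support fun z : G × (Y × Bool) => |T (z.1 + u, z.2) - T z|).Finite :=
          k_fin_of (N := ℝ) ((k_fin_shift fT u).union fT) fun z hz => by
            simp only [Set.mem_union, mem_support, not_or, not_not] at hz
            simp [hz.1, hz.2]
        let Q : G × Y → ℝ := fun z => |P (z.1 + u, z.2) - P z|
        have fQ : (support Q).Finite :=
          k_fin_of (N := ℝ) ((k_fin_shift hf u).union hf) fun z hz => by
            simp only [Set.mem_union, mem_support, not_or, not_not] at hz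
            simp [Q, hz.1, hz.2]
        have f2 := k_fin_shift fQ w
        have f3 := k_fin_shift fQ (-w)
        rw [k_sum_layers _ f1]
        refine (k_fsum_le (g := fun x => (Q (x.1 + w, x.2) + Q (x.1 + -w, x.2)) / 2) ?_ ?_
          fun x => ?_).trans ?_
        · refine k_fin_of (N := ℝ) ((f1.image fun z => (z.1, z.2.1))) fun x hx => ?_
          have h2 : ∀ b, |T (x.1 + u, (x.2, b)) - T (x.1, (x.2, b))| = 0 := fun b => by
            by_contra h; exact hx ⟨(x.1, (x.2, b)), h, rfl⟩
          simp only [h2, add_zero]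
        · exact k_fin_of (N := ℝ) (f2.union f3) fun x hx => by
            simp only [Set.mem_union, mem_support, not_or, not_not] at hx
            simp [hx.1, hx.2]
        · simp only [T, Q, Pp, Pm, Bool.false_eq_true, if_false, if_true,
            add_right_comm x.1 u]
          generalize P (x.1 + w + u, x.2) = a1
          generalize P (x.1 + -w + u, x.2) = a2
          generalize P (x.1 + w, x.2) = a3
          generalize P (x.1 + -w, x.2) = a4
          rw [← sub_div, ← sub_div, abs_div, abs_div, abs_two, ← add_div]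
          refine div_le_div_of_nonneg_right ?_ two_pos.le
          rcases le_total a1 a2 with h | h <;> rcases le_total a3 a4 with h' | h' <;>
            simp only [max_eq_left, max_eq_right, min_eq_left, min_eq_right, h, h'] <;>
            [linarith; skip; skip; linarith] <;>
            rcases abs_cases (a1 - a3) with h1 | h1 <;> rcases abs_cases (a2 - a4) with h2 | h2 <;>
            rcases abs_cases (a2 - a3) with h3 | h3 <;> rcases abs_cases (a1 - a4) with h4 | h4 <;>
            linarith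
        · rw [half, finsum_add_distrib f2 f3, k_sum_shift Q w, k_sum_shift Q (-w)]
          have := (hD q (List.mem_cons_of_mem _ hq)).2
          simp only [Q] at this ⊢
          linarith⟩)
      hΨ K' hK' (fun z hz => by
        obtain ⟨x, y, b⟩ := z
        cases b
        · simp only [T, Bool.false_eq_true, if_false] at hz
          by_cases h : Pp (x, y) = 0
          · refine ⟨-1, by simp [L', j'], fun s _ => ?_⟩
            have h2 : Pm (x, y) ≠ 0 := fun h2 => hz (by simp [h, h2])
            have := hs _ h2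
            convert this using 1
            simp only [L', j', map_add, map_neg]
            simp; abel
          · refine ⟨1, by simp [L', j'], fun s _ => ?_⟩
            have := hs _ h
            convert this using 1
            simp only [L', j', map_add]
            simp; abel
        · simp only [T, if_true] at hz
          have h2 : Pp (x, y) ≠ 0 := fun h2 => hz (by
            rw [h2, min_eq_left (h0 _)]; simp)
          have h3 : Pm (x, y) ≠ 0 := fun h3 => hz (by
            rw [h3, min_eq_right (h0 _)]; simp)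
          refine ⟨0, by simp [L', j'], fun s hs1 => ?_⟩
          have hs2 := abs_le.mp hs1
          have := hK (hs _ h2) (hs _ h3) (a := (1 + s) / 2) (b := (1 - s) / 2) (by linarith)
            (by linarith) (by ring)
          convert this using 1
          simp only [L', j', map_add, map_neg]
          simp
          module)
    have fv : (support fun z : G × (Y × Bool) => T z • (L' z.1 + j' z.2)).Finite :=
      k_fin_of (N := ℝ) fT fun z hz => by
        simp only [mem_support, not_not] at hz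
        rw [hz, zero_smul]
    let pos : G × Y → E := fun x => L x.1 + j x.2
    have fvp : ∀ {f : G × Y → ℝ} (F : G × Y → E), (support f).Finite →
        (support fun x => f x • F x).Finite := fun {f} F h =>
      k_fin_of (N := ℝ) h fun z hz => by
        simp only [mem_support, not_not] at hz
        rw [hz, zero_smul]
    have m1 : (∑ᶠ z, T z • (L' z.1 + j' z.2)).1 = ∑ᶠ z, P z • pos z := by
      have e1 : (∑ᶠ z, T z • (L' z.1 + j' z.2)).1 = ∑ᶠ z, T z • pos (z.1, z.2.1) :=
        (AddMonoidHom.fst E ℝ).map_finsum fv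
      have e2 : ∀ u : G, ∑ᶠ x : G × Y, P (x.1 + u, x.2) • pos x = ∑ᶠ z, P z • pos z - L u := by
        intro u
        have := k_sum_shift (fun x : G × Y => P x • pos x - P x • L u) u
        rw [finsum_sub_distrib (fvp _ hf) (fvp _ hf), ← finsum_smul' hf, h1, one_smul] at this
        rw [← this]
        refine finsum_congr fun x => ?_
        simp only [pos, map_add]
        module
      rw [e1, k_sum_layers _ (k_fin_of (N := ℝ) fT fun z hz => by
        simp only [mem_support, not_not] at hz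
        rw [hz, zero_smul])]
      have e3 : ∀ x : G × Y, T (x.1, (x.2, false)) • pos (x.1, x.2) +
          T (x.1, (x.2, true)) • pos (x.1, x.2) =
          (2⁻¹ : ℝ) • (Pp x • pos x + Pm x • pos x) := fun x => by
        rw [← add_smul, hsum, ← add_smul, smul_smul, Prod.mk.eta]
        congr 1; ring
      rw [finsum_congr e3, ← smul_finsum, finsum_add_distrib (fvp _ fp) (fvp _ fm), e2, e2,
        map_neg]
      module
    set b := (∑ᶠ z, T z • (L' z.1 + j' z.2) + ∑ i, (a i / 3) • L' (g (l.get i).1)).2 with hb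
    have m2 : b = ∑ᶠ x, min (Pp x) (Pm x) / 2 := by
      have e1 : (∑ᶠ z, T z • (L' z.1 + j' z.2)).2 = ∑ᶠ z, (T z • (L' z.1 + j' z.2)).2 :=
        (AddMonoidHom.snd E ℝ).map_finsum fv
      rw [hb, Prod.snd_add, Prod.snd_sum, e1, k_sum_layers _ (k_fin_of (N := ℝ) fT fun z hz => by
        simp only [mem_support, not_not] at hz
        rw [hz, zero_smul]; rfl)]
      simp [L', j', T]
    have hp := hD p List.mem_cons_self
    have hb3 : 1 / 2 - p.2 / 6 ≤ b := by
      have e1 : ∀ x, min (Pp x) (Pm x) / 2 = ((Pp x + Pm x) - |Pp x - Pm x|) / 2 / 2 := fun x => by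
        rcases le_total (Pp x) (Pm x) with h | h
        · rw [min_eq_left h, abs_of_nonpos (by linarith)]; ring
        · rw [min_eq_right h, abs_of_nonneg (by linarith)]; ring
      have f1 : (support fun x => Pp x + Pm x).Finite :=
        k_fin_of (N := ℝ) (fp.union fm) fun x hx => by
          simp only [Set.mem_union, mem_support, not_or, not_not] at hx
          simp [hx.1, hx.2]
      have f2 : (support fun x => |Pp x - Pm x|).Finite :=
        k_fin_of (N := ℝ) (fp.union fm) fun x hx => by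
          simp only [Set.mem_union, mem_support, not_or, not_not] at hx
          simp [hx.1, hx.2]
      have e2 : ∑ᶠ x, |Pp x - Pm x| ≤ 2 * p.2 / 3 := by
        have := k_sum_shift (fun z : G × Y => |P (z.1 + (w + w), z.2) - P z|) (-w)
        refine le_of_eq_of_le (Eq.trans (finsum_congr fun x => ?_) this) hp.2
        simp only [Pp, Pm]
        rw [show x.1 + -w + (w + w) = x.1 + w by abel]
      rw [m2, finsum_congr e1, half, half, finsum_sub_distrib f1 f2, finsum_add_distrib fp fm, sp,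
        sm]
      linarith
    obtain ⟨a0, ha0, ha1, ha2⟩ : ∃ a0 : ℝ, |a0| ≤ 1 ∧ |a0 / 3 - c| ≤ b ∧
        Φ (∑ i, a i • (l.get i).1 + a0 • p.1) := by
      have hc' := abs_le.mp hc
      have h1' := hp.1
      rcases le_total 0 c with h | h
      · obtain ⟨a0, h2, h3, h4⟩ := (hW _ hz).1
        have h5 : 0 ≤ p.2 := by
          have := finsum_nonneg fun z : G × Y => abs_nonneg (P (z.1 + (w + w), z.2) - P z)
          linarith [hp.2]
        exact ⟨a0, abs_le.mpr ⟨by linarith, h3⟩, abs_le.mpr ⟨by linarith, by linarith⟩, h4⟩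
      · obtain ⟨a0, h2, h3, h4⟩ := (hW _ hz).2
        have h5 : 0 ≤ p.2 := by
          have := finsum_nonneg fun z : G × Y => abs_nonneg (P (z.1 + (w + w), z.2) - P z)
          linarith [hp.2]
        refine ⟨-a0, abs_le.mpr ⟨by linarith, by linarith⟩,
          abs_le.mpr ⟨by linarith, by linarith⟩, ?_⟩
        rw [neg_smul, ← sub_eq_add_neg]; exact h4
    have hb0 : 0 < b := by linarith [hp.1]
    have hfin' := hfin ((a0 / 3 - c) / b) (by
      rw [abs_div, abs_of_pos hb0, div_le_one hb0]; exact ha1)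
    rw [div_mul_cancel₀ _ hb0.ne', add_sub_cancel, Prod.fst_add, m1, Prod.fst_sum] at hfin'
    refine ⟨Fin.cons (α := fun _ => ℝ) a0 a, fun i => ?_, ?_, ?_⟩
    · exact Fin.cases ha0 ha i
    · rw [add_comm] at ha2
      exact (Fin.sum_univ_succ (n := l.length) fun i =>
        Fin.cons (α := fun _ => ℝ) a0 a i • ((p :: l).get i).1) ▸ ha2
    · rw [add_assoc, add_comm (∑ i, _)] at hfin'
      exact (Fin.sum_univ_succ (n := l.length) fun i =>
        (Fin.cons (α := fun _ => ℝ) a0 a i / 3) • L (g ((p :: l).get i).1)) ▸ hfin'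

/-- the tent function -/
def k_tent (W : ℕ) (x : ℤ) : ℝ := max 0 ((W : ℝ) - |(x : ℝ)|)

lemma k_tent_zero {W : ℕ} {x : ℤ} (h : x ∉ Finset.Icc (-(W : ℤ)) W) : k_tent W x = 0 := by
  rw [Finset.mem_Icc, ← abs_le, not_le] at h
  have : (W : ℝ) < |(x : ℝ)| := by exact_mod_cast h
  exact max_eq_left (by linarith)

lemma k_tent_fin (W : ℕ) (t : ℤ) : (support fun x => k_tent W (x + t)).Finite :=
  k_fin_of (N := ℝ) (Finset.Icc (-(W : ℤ) - t) (W - t)).finite_toSet fun x hx => k_tent_zero (by
    simp only [Finset.coe_Icc, Set.mem_Icc, Finset.mem_Icc] at hx ⊢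
    omega)

lemma k_tent_lip (W : ℕ) (x t : ℤ) : |k_tent W (x + t) - k_tent W x| ≤ |(t : ℝ)| := by
  unfold k_tent
  rw [max_comm 0, max_comm 0]
  refine (abs_max_sub_max_le_abs _ _ _).trans ?_
  rw [sub_sub_sub_cancel_left]
  refine (abs_abs_sub_abs_le_abs_sub _ _).trans (le_of_eq ?_)
  push_cast
  rw [show (x : ℝ) - (x + t) = -t by ring, abs_neg]

lemma k_tent_norm (W : ℕ) : ((2 * W : ℕ) : ℝ) ^ 3 / 4 ≤ ∑ᶠ x, k_tent (2 * W) x * k_tent (2 * W) x := by
  rw [finsum_eq_sum_of_support_subset _ (s := Finset.Icc (-((2 * W : ℕ) : ℤ)) (2 * W : ℕ))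
    (fun x hx => by
      by_contra h
      exact hx (mul_eq_zero_of_left (k_tent_zero (by simpa using h)) _))]
  refine le_trans ?_ (Finset.sum_le_sum_of_subset_of_nonneg
    (Finset.Icc_subset_Icc (a₁ := -(W : ℤ)) (b₁ := W) (by omega) (by omega))
    fun x _ _ => mul_self_nonneg _)
  refine le_trans ?_ (Finset.card_nsmul_le_sum _ _ ((W : ℝ) * W) fun x hx => ?_)
  · rw [Int.card_Icc, nsmul_eq_mul, show ((W : ℤ) + 1 - -W).toNat = 2 * W + 1 by omega]
    push_cast
    nlinarith [mul_self_nonneg (W : ℝ)]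
  · rw [Finset.mem_Icc, ← abs_le] at hx
    have h1 : |(x : ℝ)| ≤ W := by exact_mod_cast hx
    have h2 : (W : ℝ) ≤ k_tent (2 * W) x := le_max_of_le_right (by push_cast; linarith)
    exact mul_self_le_mul_self (Nat.cast_nonneg _) h2

lemma k_tent_diff (W : ℕ) (t : ℤ) : 2 * ∑ᶠ x, k_tent W x * k_tent W x - (4 * W + 2) * (t : ℝ) ^ 2 ≤
    2 * ∑ᶠ x, k_tent W (x + t) * k_tent W x := by
  classical
  have f0 : (support fun x => k_tent W x).Finite := by simpa using k_tent_fin W 0
  set S := Finset.Icc (-(W : ℤ) - t) (W - t) ∪ Finset.Icc (-(W : ℤ)) W with hS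
  have z1 : ∀ x, x ∉ S → k_tent W (x + t) = 0 := fun x hx => k_tent_zero (by
    simp only [hS, Finset.mem_union, Finset.mem_Icc] at hx ⊢; omega)
  have z2 : ∀ x, x ∉ S → k_tent W x = 0 := fun x hx => k_tent_zero fun h =>
    hx (Finset.mem_union_right _ h)
  have e0 : ∑ᶠ x, k_tent W (x + t) * k_tent W (x + t) = ∑ᶠ x, k_tent W x * k_tent W x :=
    finsum_comp_equiv (Equiv.addRight t) (f := fun x => k_tent W x * k_tent W x)
  have e1 : ∑ᶠ x, k_tent W (x + t) * k_tent W (x + t) = ∑ x ∈ S, k_tent W (x + t) * k_tent W (x + t) :=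
    finsum_eq_sum_of_support_subset _ fun x hx => by
      by_contra h; exact hx (mul_eq_zero_of_right _ (z1 x h))
  have e2 : ∑ᶠ x, k_tent W x * k_tent W x = ∑ x ∈ S, k_tent W x * k_tent W x :=
    finsum_eq_sum_of_support_subset _ fun x hx => by
      by_contra h; exact hx (mul_eq_zero_of_right _ (z2 x h))
  have e3 : ∑ᶠ x, k_tent W (x + t) * k_tent W x = ∑ x ∈ S, k_tent W (x + t) * k_tent W x :=
    finsum_eq_sum_of_support_subset _ fun x hx => by
      by_contra h; exact hx (mul_eq_zero_of_right _ (z2 x h))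
  have c1 : S.card ≤ 4 * W + 2 := by
    refine (Finset.card_union_le _ _).trans ?_
    rw [Int.card_Icc, Int.card_Icc]; omega
  have c2 : (S.card : ℝ) ≤ 4 * W + 2 := by exact_mod_cast c1
  have h1 : ∑ x ∈ S, (k_tent W (x + t) - k_tent W x) ^ 2 ≤ S.card • (t : ℝ) ^ 2 :=
    Finset.sum_le_card_nsmul _ _ _ fun x _ => by
      rw [← sq_abs, ← sq_abs (t : ℝ)]
      exact pow_le_pow_left₀ (abs_nonneg _) (k_tent_lip W x t) 2
  have h2 : ∑ x ∈ S, (k_tent W (x + t) - k_tent W x) ^ 2 = ∑ x ∈ S, k_tent W (x + t) * k_tent W (x + t) +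
      ∑ x ∈ S, k_tent W x * k_tent W x - 2 * ∑ x ∈ S, k_tent W (x + t) * k_tent W x := by
    rw [Finset.mul_sum, ← Finset.sum_add_distrib, ← Finset.sum_sub_distrib]
    exact Finset.sum_congr rfl fun x _ => by ring
  rw [nsmul_eq_mul] at h1
  nlinarith [mul_le_mul_of_nonneg_right c2 (sq_nonneg (t : ℝ))]

lemma k_fsum_pi {E : Type} [Fintype E] [DecidableEq E] (φ : E → ℤ → ℝ)
    (h : ∀ e, (support (φ e)).Finite) :
    (support fun z : (E → ℤ) × Unit => ∏ e, φ e (z.1 e)).Finite ∧
      ∑ᶠ z : (E → ℤ) × Unit, ∏ e, φ e (z.1 e) = ∏ e, ∑ᶠ x, φ e x := by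
  have hs : (support fun z : E → ℤ => ∏ e, φ e (z e)) ⊆
      Fintype.piFinset fun e => (h e).toFinset := fun z hz => by
    simpa using Finset.prod_ne_zero_iff.mp hz
  refine ⟨((Finset.finite_toSet _).subset hs).preimage (f := fun z : (E → ℤ) × Unit => z.1)
    (fun a _ b _ hab => Prod.ext hab rfl), ?_⟩
  refine ((finsum_comp_equiv (Equiv.prodUnique (E → ℤ) Unit)
    (f := fun z => ∏ e, φ e (z e))).trans (finsum_eq_sum_of_support_subset _ hs)).trans ?_
  rw [← Finset.prod_univ_sum]
  exact Finset.prod_congr rfl fun e _ => (finsum_eq_sum_of_support_subset _ (by simp)).symm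

lemma k_one_sub_sum_le {E : Type} (s : Finset E) (x : E → ℝ) (h0 : ∀ e, 0 ≤ x e)
    (y : E → ℝ) (h1 : ∀ e, 0 ≤ y e) (h : ∀ e, 1 - x e ≤ y e) :
    1 - ∑ e ∈ s, x e ≤ ∏ e ∈ s, y e := by
  classical
  induction s using Finset.induction_on with
  | empty => simp
  | insert a s ha ih =>
    rw [Finset.sum_insert ha, Finset.prod_insert ha]
    have h2 : 0 ≤ ∑ e ∈ s, x e := Finset.sum_nonneg fun e _ => h0 e
    have h3 : 0 ≤ ∏ e ∈ s, y e := Finset.prod_nonneg fun e _ => h1 e
    by_cases h4 : x a ≤ 1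
    · nlinarith [mul_le_mul_of_nonneg_right (h a) h3, mul_le_mul_of_nonneg_left ih (sub_nonneg.2 h4),
        mul_nonneg (h0 a) h2]
    · nlinarith [mul_nonneg (h1 a) h3]

lemma k_big {ι : Type} (l : List ((ι → ℝ) × ℝ)) (h : ∀ p ∈ l, 0 < p.2) :
    ∃ N : ℕ, ∀ p ∈ l, 1 ≤ N * p.2 := by
  induction l with
  | nil => exact ⟨0, fun p hp => by simp at hp⟩
  | cons p l ih =>
    obtain ⟨N, hN⟩ := ih fun q hq => h q (List.mem_cons_of_mem _ hq)
    have hp := h p List.mem_cons_self
    obtain ⟨M, hM⟩ := exists_nat_ge (1 / p.2)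
    rw [div_le_iff₀ hp] at hM
    refine ⟨N + M, fun q hq => ?_⟩
    push_cast
    rcases List.mem_cons.mp hq with rfl | hq
    · nlinarith [mul_nonneg (Nat.cast_nonneg (α := ℝ) N) hp.le]
    · have := h q (List.mem_cons_of_mem _ hq)
      nlinarith [hN q hq, mul_nonneg (Nat.cast_nonneg (α := ℝ) M) this.le]

/-- **Komlos bound in game form.** -/
theorem komlos_game : KomlosStmt := by
  classical
  intro E _ l Φ hl hWin
  obtain ⟨N0, hN0⟩ := k_big l fun p hp => (hl p hp).1
  obtain ⟨N, hN1, hN2, hN3, hN4⟩ : ∃ N : ℕ, 1 ≤ N ∧ Fintype.card E ≤ N ∧ l.length ≤ N ∧ N0 ≤ N :=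
    ⟨1 + Fintype.card E + l.length + N0, by omega, by omega, by omega, by omega⟩
  have hN : (1 : ℝ) ≤ N := by exact_mod_cast hN1
  have hNE : (Fintype.card E : ℝ) ≤ N := by exact_mod_cast hN2
  have hNι : (l.length : ℝ) ≤ N := by exact_mod_cast hN3
  have hNη : ∀ p ∈ l, 1 ≤ N * p.2 := fun p hp => by
    have h1 : (N0 : ℝ) ≤ N := by exact_mod_cast hN4
    nlinarith [hN0 p hp, mul_le_mul_of_nonneg_right h1 (hl p hp).1.le]
  set W := 2 * (25 * N ^ 2) with hW
  have hWR : (W : ℝ) = 50 * N ^ 2 := by rw [hW]; push_cast; ring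
  have hW50 : (50 : ℝ) ≤ W := by rw [hWR]; nlinarith
  set δ : ℝ := 2 / W with hδ
  have hδ0 : 0 < δ := by positivity
  have hδW : δ * W = 2 := div_mul_cancel₀ _ (by positivity)
  set Z := ∑ᶠ x, k_tent W x * k_tent W x with hZ
  have hZ1 : (W : ℝ) ^ 3 / 4 ≤ Z := k_tent_norm (25 * N ^ 2)
  have hZ0 : 0 < Z := lt_of_lt_of_le (by positivity) hZ1
  have f0 : (support fun x => k_tent W x).Finite := by simpa using k_tent_fin W 0
  have fq : ∀ s t : ℤ, (support fun x => k_tent W (x + s) * k_tent W (x + t) / Z).Finite := fun s t =>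
    k_fin_of (N := ℝ) (k_tent_fin W s) fun x hx => by
      simp only [mem_support, not_not] at hx
      simp [hx]
  have sq : ∀ s : ℤ, ∑ᶠ x, k_tent W (x + s) * k_tent W (x + s) / Z = 1 := fun s => by
    simp only [div_eq_mul_inv, ← finsum_mul]
    rw [show ∑ᶠ x, k_tent W (x + s) * k_tent W (x + s) = Z from
      finsum_comp_equiv (Equiv.addRight s) (f := fun x => k_tent W x * k_tent W x),
      mul_inv_cancel₀ hZ0.ne']
  let Q : (E → ℤ) → (E → ℤ) → (E → ℤ) × Unit → ℝ := fun s t z =>
    ∏ e, k_tent W (z.1 e + s e) * k_tent W (z.1 e + t e) / Z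
  have fQ : ∀ s t, (support (Q s t)).Finite := fun s t =>
    (k_fsum_pi (fun e x => k_tent W (x + s e) * k_tent W (x + t e) / Z) fun e => fq _ _).1
  have sQ : ∀ s t, ∑ᶠ z, Q s t z = ∏ e, ∑ᶠ x, k_tent W (x + s e) * k_tent W (x + t e) / Z :=
    fun s t => (k_fsum_pi (fun e x => k_tent W (x + s e) * k_tent W (x + t e) / Z) fun e => fq _ _).2
  have sQ1 : ∀ s, ∑ᶠ z, Q s s z = 1 := fun s => by rw [sQ]; simp only [sq, Finset.prod_const_one]
  have tn : ∀ x, 0 ≤ k_tent W x := fun x => le_max_left _ _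
  let g : (E → ℝ) → E → ℤ := fun u e => round (3 * u e / δ)
  have hg : ∀ u e, |δ * g u e - 3 * u e| ≤ δ / 2 := fun u e => by
    have := abs_sub_round (3 * u e / δ)
    rw [show δ * g u e - 3 * u e = -δ * (3 * u e / δ - round (3 * u e / δ)) by
      simp only [g]; field_simp; ring, abs_mul, abs_neg, abs_of_pos hδ0]
    nlinarith
  let L : (E → ℤ) →+ (E → ℝ) :=
    { toFun := fun z e => δ * z e
      map_zero' := by ext e; simp
      map_add' := fun x y => by ext e; simp [mul_add] }
  obtain ⟨a, ha, hΦ, hfin⟩ := k_lift g l Φ Unit (E → ℝ) L (fun _ => 0) (Q 0 0) (fQ 0 0)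
    (fun z => Finset.prod_nonneg fun e _ => div_nonneg (mul_self_nonneg _) hZ0.le) (sQ1 0)
    (fun p hp => ⟨(hl p hp).2.1, by
      obtain ⟨hη, -, hu⟩ := hl p hp
      have hηN := hNη p hp
      generalize p.2 = η at hη hu hηN
      generalize p.1 = u at hu
      set t := g u + g u with ht
      have e1 : ∀ z : (E → ℤ) × Unit, Q 0 0 (z.1 + t, z.2) = Q t t z := fun z => by simp [Q]
      have key : ∀ z, |Q t t z - Q 0 0 z| ≤ 3 / η * (Q t t z + Q 0 0 z - 2 * Q t 0 z) +
          (Q t t z + Q 0 0 z) * (η / 6) := fun z => by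
        have hs : 0 < √Z := Real.sqrt_pos.2 hZ0
        have e2 : ∀ s s', Q s s' z = (∏ e, k_tent W (z.1 e + s e) / √Z) *
            ∏ e, k_tent W (z.1 e + s' e) / √Z := fun s s' => by
          rw [← Finset.prod_mul_distrib]
          exact Finset.prod_congr rfl fun e _ => by
            rw [div_mul_div_comm, Real.mul_self_sqrt hZ0.le]
        rw [e2, e2, e2]
        generalize ∏ e, k_tent W (z.1 e + t e) / √Z = x
        generalize ∏ e, k_tent W (z.1 e + (0 : E → ℤ) e) / √Z = y
        have e3 : 3 / η * (x * x + y * y - 2 * (x * y)) + (x * x + y * y) * (η / 6) =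
            (3 * (x - y) ^ 2 + (x * x + y * y) * (η ^ 2 / 6)) / η := by field_simp; ring
        rw [e3, le_div_iff₀ hη, ← abs_of_pos hη, ← abs_mul, abs_of_pos hη, abs_le]
        constructor <;> nlinarith [sq_nonneg (6 * (x - y) + η * (x + y)),
          sq_nonneg (6 * (x - y) - η * (x + y)), sq_nonneg (η * (x - y))]
      have f1 : (support fun z => Q t t z + Q 0 0 z).Finite :=
        k_fin_of (N := ℝ) ((fQ t t).union (fQ 0 0)) fun x hx => by
          simp only [Set.mem_union, mem_support, not_or, not_not] at hx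
          simp [hx.1, hx.2]
      have f2 : (support fun z => 2 * Q t 0 z).Finite :=
        k_fin_of (N := ℝ) (fQ t 0) fun x hx => by
          simp only [mem_support, not_not] at hx
          simp [hx]
      have f3 : (support fun z => 3 / η * (Q t t z + Q 0 0 z - 2 * Q t 0 z)).Finite :=
        k_fin_of (N := ℝ) (f1.union f2) fun x hx => by
          simp only [Set.mem_union, mem_support, not_or, not_not] at hx
          rw [hx.1, hx.2]; simp
      have f4 : (support fun z => (Q t t z + Q 0 0 z) * (η / 6)).Finite :=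
        k_fin_of (N := ℝ) f1 fun x hx => by
          simp only [mem_support, not_not] at hx
          rw [hx]; simp
      simp only [e1]
      refine (k_fsum_le ?_ ?_ key).trans ?_
      · exact k_fin_of (N := ℝ) ((fQ t t).union (fQ 0 0)) fun x hx => by
          simp only [Set.mem_union, mem_support, not_or, not_not] at hx
          simp [hx.1, hx.2]
      · exact k_fin_of (N := ℝ) (f3.union f4) fun x hx => by
          simp only [Set.mem_union, mem_support, not_or, not_not] at hx
          rw [hx.1, hx.2]; simp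
      rw [finsum_add_distrib f3 f4, ← mul_finsum, finsum_sub_distrib f1 f2, ← mul_finsum,
        ← finsum_mul, finsum_add_distrib (fQ t t) (fQ 0 0), sQ1, sQ1, sQ]
      have h1 := k_one_sub_sum_le Finset.univ (fun e => (2 * W + 1) * (t e : ℝ) ^ 2 / Z)
        (fun e => by positivity)
        (fun e => ∑ᶠ x, k_tent W (x + t e) * k_tent W (x + (0 : E → ℤ) e) / Z)
        (fun e => finsum_nonneg fun x => div_nonneg (mul_nonneg (tn _) (tn _)) hZ0.le)
        (fun e => by
          have := k_tent_diff W (t e)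
          simp only [Pi.zero_apply, add_zero, div_eq_mul_inv, ← finsum_mul]
          rw [← div_eq_mul_inv, ← div_eq_mul_inv, le_div_iff₀ hZ0, sub_mul,
            div_mul_cancel₀ _ hZ0.ne']
          linarith)
      have h2 : (∑ e, (t e : ℝ) ^ 2) * δ ^ 2 ≤ η ^ 2 / 40 := by
        have h3 : ∀ e, (t e : ℝ) ^ 2 * δ ^ 2 ≤ 72 * u e ^ 2 + 2 * δ ^ 2 := fun e => by
          have h4 := abs_le.mp (hg u e)
          have h5 : (t e : ℝ) = 2 * g u e := by rw [ht]; simp [two_mul]
          rw [h5]
          nlinarith [sq_nonneg (δ * g u e - 6 * u e),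
            mul_nonneg (sub_nonneg.2 h4.1) (sub_nonneg.2 h4.2)]
        have h6 := Finset.sum_le_sum fun e (_ : e ∈ Finset.univ) => h3 e
        rw [← Finset.sum_mul, Finset.sum_add_distrib, ← Finset.mul_sum, Finset.sum_const,
          Finset.card_univ, nsmul_eq_mul] at h6
        have h7 : δ * N ^ 2 = 1 / 25 := by rw [hWR] at hδW; linarith
        have h8 : δ * N ≤ η / 25 := by
          have : δ * N * 1 ≤ δ * N * (N * η) := mul_le_mul_of_nonneg_left hηN (by positivity)
          nlinarith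
        have h9 : (δ * N) ^ 2 ≤ (η / 25) ^ 2 := pow_le_pow_left₀ (by positivity) h8 2
        have h10 : (Fintype.card E : ℝ) ≤ N ^ 2 := by nlinarith
        have h11 := mul_le_mul_of_nonneg_right h10 (sq_nonneg δ)
        nlinarith
      have h3 : ∑ e, (2 * W + 1) * (t e : ℝ) ^ 2 / Z ≤ η ^ 2 / 18 := by
        simp only [div_eq_mul_inv, ← Finset.sum_mul, ← Finset.mul_sum]
        rw [← div_eq_mul_inv, div_le_iff₀ hZ0]
        have h4 : ∑ e, (t e : ℝ) ^ 2 ≤ η ^ 2 * W ^ 2 / 160 := by
          have := mul_le_mul_of_nonneg_right h2 (sq_nonneg (W : ℝ))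
          rw [mul_assoc, ← mul_pow, hδW] at this
          linarith
        have h5 : (2 * W + 1) * ∑ e, (t e : ℝ) ^ 2 ≤ (2.1 * W) * (η ^ 2 * W ^ 2 / 160) :=
          mul_le_mul (by linarith) h4 (Finset.sum_nonneg fun e _ => sq_nonneg _) (by positivity)
        have h6 := mul_le_mul_of_nonneg_left hZ1 (sq_nonneg η)
        have h7 : 0 ≤ η ^ 2 * W ^ 3 := by positivity
        nlinarith
      have h4 : 3 / η * (1 + 1 - 2 * ∏ e, ∑ᶠ x, k_tent W (x + t e) *
          k_tent W (x + (0 : E → ℤ) e) / Z) ≤ 3 / η * (η ^ 2 / 9) :=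
        mul_le_mul_of_nonneg_left (by linarith) (by positivity)
      have h5 : 3 / η * (η ^ 2 / 9) = η / 3 := by field_simp; ring
      linarith⟩)
    hWin (Set.pi Set.univ fun _ => Set.Icc (-(δ * W)) (δ * W))
    (convex_pi fun _ _ => convex_Icc _ _) (fun z hz e _ => by
      have h1 := Finset.prod_ne_zero_iff.mp hz e (Finset.mem_univ e)
      have h2 : z.1 e ∈ Finset.Icc (-(W : ℤ)) W := by
        by_contra h
        exact h1 (by simp [k_tent_zero h])
      rw [Finset.mem_Icc, ← abs_le] at h2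
      have h3 : |(z.1 e : ℝ)| ≤ W := by exact_mod_cast h2
      rw [Set.mem_Icc, ← abs_le]
      simp only [L, add_zero, AddMonoidHom.coe_mk, ZeroHom.coe_mk]
      rw [abs_mul, abs_of_pos hδ0]
      exact mul_le_mul_of_nonneg_left h3 hδ0.le)
  have hm : ∑ᶠ z : (E → ℤ) × Unit, Q 0 0 z • (L z.1 + 0) = 0 := by
    have h1 := finsum_comp_equiv ((Equiv.neg (E → ℤ)).prodCongr (Equiv.refl Unit))
      (f := fun z : (E → ℤ) × Unit => Q 0 0 z • (L z.1 + 0))
    have h2 : ∀ z : (E → ℤ) × Unit, Q 0 0 (-z.1, z.2) • (L (-z.1) + 0) =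
        -(Q 0 0 z • (L z.1 + 0)) := fun z => by
      simp [Q, k_tent]
    have h3 : ∑ᶠ z : (E → ℤ) × Unit, -(Q 0 0 z • (L z.1 + 0)) = _ :=
      (finsum_congr fun z => (h2 z).symm).trans h1
    rw [finsum_neg_distrib] at h3
    ext e
    have := congrFun h3 e
    simp only [Pi.neg_apply, Pi.zero_apply] at this ⊢
    linarith
  refine ⟨_, hΦ, fun e => ?_⟩
  have h1 := hfin e trivial
  rw [hm, zero_add, Set.mem_Icc, ← abs_le, Finset.sum_apply, hδW] at h1
  rw [Finset.sum_apply]
  have h2 : |∑ i, ((a i / 3) • L (g (l.get i).1)) e - ∑ i, (a i • (l.get i).1) e| ≤ 1 := by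
    rw [← Finset.sum_sub_distrib]
    refine (Finset.abs_sum_le_sum_abs _ _).trans ((Finset.sum_le_card_nsmul _ _ δ
      fun i _ => ?_).trans ?_)
    · have h3 : ((a i / 3) • L (g (l.get i).1)) e - (a i • (l.get i).1) e =
          a i * (δ * g (l.get i).1 e - 3 * (l.get i).1 e) / 3 := by simp [L]; ring
      rw [h3, abs_div, abs_mul, abs_of_pos (three_pos (α := ℝ))]
      nlinarith [mul_le_mul (ha i) (hg (l.get i).1 e) (abs_nonneg _) zero_le_one]
    · rw [Finset.card_univ, Fintype.card_fin, nsmul_eq_mul]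
      rw [hWR] at hδW
      nlinarith [mul_le_mul_of_nonneg_right hNι hδ0.le,
        mul_le_mul_of_nonneg_left hN (by positivity : 0 ≤ δ * N)]
  have h3 := abs_sub_abs_le_abs_sub (∑ i, (a i • (l.get i).1) e)
    (∑ i, ((a i / 3) • L (g (l.get i).1)) e)
  rw [abs_sub_comm] at h3
  linarith

end Pool.Agent.Lib.MP_c8786f_co.W5
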