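import Pool.Agent.Lib.MP_c8786f_co.W5.ModelA

/-!
Weak five-flow theorem: assembly of the theorem in the permutation model.
-/

namespace Pool.Agent.Lib.MP_c8786f_co.W5

open Finset

section

variable {V : Type} {n : Equiv.Perm V} {m : V → V} {S : Finset V} {own : V → V} {back : V → ℕ}
  {D R L K : ℕ}

lemma mo_colour [Fintype V] (h : Seg n m S own back D R L) (hI : Inj n m K)
    (hK : 2 * (D + R) < K) {χ : V → ℝ} (h1 : ∀ v, χ v = 1 ∨ χ v = -1)
    (hχ : ∀ v, n v ∉ S → χ (n v) = -χ v) {j0 : ℕ} (hj : 2 * j0 ≤ R) (J : S → Finset ℕ)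
    (y : S → ℝ) (hy : ∀ s, y s = 1 ∨ y s = -1)
    (hJ : ∀ s : S, ∀ j ∈ J s, j + 2 ≤ D ∧
      (Good n m χ j0 ((n ^ j) s.1) (y s) ∧ Good n m χ j0 ((n ^ (j + 1)) s.1) (y s)) ∧
      j + 1 ∉ J s ∧ -χ (n.symm s.1) * (-1) ^ (j + ((J s).filter (· < j)).card) = y s)
    (hp : ∀ s : S, -χ (n.symm s.1) * (-1) ^ (J s).card = χ s.1) (k : V → ℝ)
    (hk : ∀ v, k v = kf (J ⟨own v, h.mem v⟩) (y ⟨own v, h.mem v⟩) (back v)) :
    ∃ b : V → ℝ, (∀ v, b v = 1 ∨ b v = -1) ∧
      (∀ v, k v = (2 * b v + b (n v) + b (n.symm v)) / 4) ∧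
      ∀ u, k u = 0 ∨ ∃ y', (y' = 1 ∨ y' = -1) ∧ k u = y' / 2 ∧ Good n m b j0 u y' := by
  have hD : D < K := by omega
  set o : V → S := fun v => ⟨own v, h.mem v⟩ with ho
  set b : V → ℝ := fun v =>
    -χ (n.symm (o v).1) * (-1) ^ (back v + ((J (o v)).filter (· < back v)).card) with hb
  have b2 : ∀ v, D ≤ back v → b v = χ v := by
    intro v hv
    have : (J (o v)).filter (· < back v) = J (o v) :=
      filter_true_of_mem fun j hj => by have := (hJ _ j hj).1; omega
    rw [h.sign hχ _ v rfl, ← hp (o v), hb]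
    simp only [this, pow_add]
    ring
  have b3 : ∀ v, (b v + b (n v)) / 4 = y (o v) / 2 * if back v ∈ J (o v) then 1 else 0 := by
    intro v
    by_cases hv : n v ∈ S
    · have e1 := h.last hI hD hv
      have e2 : b (n v) = -χ v := by
        simp only [hb, ho, h.zero _ hv, h.own_self hv]
        simp
      rw [if_neg fun h3 => by have := (hJ _ _ h3).1; omega, e2, b2 v e1]
      ring
    · obtain ⟨e1, e2⟩ := h.succ v hv
      have e3 : o (n v) = o v := Subtype.ext e1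
      have e4 : ((J (o v)).filter (· < back v + 1)).card =
          ((J (o v)).filter (· < back v)).card + if back v ∈ J (o v) then 1 else 0 := by
        split_ifs with h3
        · rw [← card_insert_of_notMem (a := back v) (by simp)]
          congr 1
          ext a
          simp only [mem_filter, mem_insert]
          constructor
          · intro h4
            rcases Nat.lt_succ_iff_lt_or_eq.1 h4.2 with h5 | h5
            exacts [Or.inr ⟨h4.1, h5⟩, Or.inl h5]
          · rintro (rfl | h4)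
            exacts [⟨h3, by omega⟩, ⟨h4.1, by omega⟩]
        · rw [add_zero]
          congr 1
          refine filter_congr fun a ha => ?_
          have : a ≠ back v := fun h4 => h3 (h4 ▸ ha)
          omega
      have e5 : b (n v) = -b v * (-1) ^ (if back v ∈ J (o v) then 1 else 0) := by
        simp only [hb, e3, e2, e4, pow_add]
        ring
      rw [e5]
      split_ifs with h3
      · have : b v = y (o v) := (hJ _ _ h3).2.2.2
        rw [this]
        ring
      · ring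
  have b4 : ∀ u y', back u < D → Good n m χ j0 u y' → Good n m b j0 u y' := by
    intro u y' hu hG w w1 w2 w3 w4
    rw [b2, hG w w1 w2 w3 w4]
    by_contra hlt
    have := (h.tree hI hK u (by simpa using hu) (act n m w u) (by simpa using hlt) w []
      ⟨w1, Or.inr w3⟩ ⟨List.IsChain.nil, Or.inl rfl⟩ (by omega) (Nat.zero_le _) rfl).2
    rw [this] at w2
    simp at w2
  refine ⟨b, fun v => ?_, fun v => ?_, fun u => ?_⟩
  · rcases h1 (n.symm (o v).1) with h2 | h2 <;>
      rcases neg_one_pow_eq_or ℝ (back v + ((J (o v)).filter (· < back v)).card) with h3 | h3 <;>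
      simp only [hb, h2, h3] <;> norm_num
  · obtain ⟨u, rfl⟩ := n.surjective v
    have e1 := b3 u
    have e2 := b3 (n u)
    have e3 : (y (o u) / 2 * if back u ∈ J (o u) then (1 : ℝ) else 0) = y (o (n u)) / 2 *
        if back (n u) ∈ (J (o (n u))).image (· + 1) then (1 : ℝ) else 0 := by
      by_cases hv : n u ∈ S
      · have := h.last hI hD hv
        rw [if_neg fun h3 => by have := (hJ _ _ h3).1; omega, if_neg (by simp [h.zero _ hv])]
        simp
      · obtain ⟨e4, e5⟩ := h.succ u hv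
        have e6 : o (n u) = o u := Subtype.ext e4
        rw [e6, e5]
        simp
    rw [hk, Equiv.symm_apply_apply, kf, mul_add]
    linarith
  · rw [hk, kf]
    by_cases h2 : back u ∈ J (o u)
    · obtain ⟨a1, a2, -, -⟩ := hJ _ _ h2
      refine Or.inr ⟨y (o u), hy _, ?_, b4 u _ (by omega) (by
        have a3 := a2.1
        rwa [show (n ^ back u) (o u).1 = u from h.eq u] at a3)⟩
      rw [if_pos h2, if_neg]
      · simp [ho]
      · intro h3
        obtain ⟨j, hj, h4⟩ := mem_image.1 h3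
        exact (hJ _ _ hj).2.2.1 (by rw [h4]; exact h2)
    · rw [if_neg h2]
      split_ifs with h3
      · obtain ⟨j, hj, h4⟩ := mem_image.1 h3
        obtain ⟨a1, a2, -, -⟩ := hJ _ _ hj
        have a3 := a2.2
        rw [h4, h.eq u] at a3
        exact Or.inr ⟨y (o u), hy _, by simp [ho], b4 u _ (by omega) a3⟩
      · simp

lemma mo_arc (h : Seg n m S own back D R L) (hI : Inj n m K) (hK : D < K) (e : S → ℕ → ℝ)
    (he : ∀ s, ∑ x ∈ range D, e s x = 0) (g : V → ℝ)
    (hg : ∀ v, g v = ∑ x ∈ range (min (back v + 1) D), e ⟨own v, h.mem v⟩ x) (v : V) :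
    g v - g (n.symm v) = if back v < D then e ⟨own v, h.mem v⟩ (back v) else 0 := by
  obtain ⟨u, rfl⟩ := n.surjective v
  rw [Equiv.symm_apply_apply, hg, hg]
  by_cases hv : n u ∈ S
  · have := h.last hI hK hv
    rw [min_eq_right (by omega : D ≤ back u + 1), he, h.zero _ hv]
    split_ifs with h1
    · rw [min_eq_left (by omega)]
      simp
    · rw [min_eq_right (by omega), he]
      simp
  · obtain ⟨e1, e2⟩ := h.succ u hv
    have e3 : (⟨own (n u), h.mem _⟩ : S) = ⟨own u, h.mem u⟩ := Subtype.ext e1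
    rw [e3, e2]
    split_ifs with h1
    · rw [min_eq_left (by omega), min_eq_left (by omega), sum_range_succ _ (back u + 1)]
      ring
    · rw [min_eq_right (by omega), min_eq_right (by omega), sub_self]

lemma mo_bd [Fintype V] [DecidableEq V] (hm : ∀ v, m (m v) = v) (z : V × Bool → ℝ) (v : V) :
    bd (fun e : V × Bool => e.1) (fun e => if e.2 then m e.1 else n e.1) z v =
      z (v, false) - z (n.symm v, false) + (z (v, true) - z (m v, true)) := by
  have e1 : ∀ u, (m u = v) = (u = m v) := fun u =>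
    propext ⟨fun h => by rw [← h, hm], fun h => by rw [h, hm]⟩
  have e2 : ∀ u, (n u = v) = (u = n.symm v) := fun u => propext n.eq_symm_apply.symm
  simp only [bd, sum_filter, Fintype.sum_prod_type, Fintype.sum_bool, if_true,
    Bool.false_eq_true, if_false, sum_add_distrib, e1, e2, sum_ite_eq', mem_univ]
  ring

end

theorem model_of (hAB : ABStmt) (hW : WindowsStmt) (hP : PhasesStmt) (hE : EmitStmt)
    (hG : GeoInstStmt) : ModelStmt := by
  intro δ hδ
  obtain ⟨j1, hj1⟩ := exists_pow_lt_of_lt_one (show 0 < δ / 8 by positivity)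
    (show (3 / 4 : ℝ) < 1 by norm_num)
  obtain ⟨j0, hj0, hj0'⟩ : ∃ j0 : ℕ, 1 ≤ j0 ∧ (3 / 4 : ℝ) ^ (2 * j0) ≤ δ / 8 :=
    ⟨j1 + 1, by omega, (pow_le_pow_of_le_one (by norm_num) (by norm_num) (by omega)).trans hj1.le⟩
  obtain ⟨M, hM⟩ := exists_nat_gt (2 * 6480 / (δ / 20))
  have hM0 : (0 : ℝ) < M := lt_trans (by positivity) hM
  have hM1 : 2 * 6480 / (M : ℝ) ≤ δ / 20 := by
    rw [div_lt_iff₀ (by positivity)] at hM
    rw [div_le_iff₀ hM0]
    linarith
  obtain ⟨A, hA, hAB⟩ := hAB (min (δ / 12) 1) (δ / 20) M (by positivity) (min_le_right _ _)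
    (by positivity) (by exact_mod_cast hM0)
  obtain ⟨ρ, c, hρ0, hρ1, hc, hP⟩ := hP j0 hj0
  obtain ⟨T, R, hR1, hR2, hR3, hR4⟩ := mo_consts hA hρ0 hρ1 hc (M * 6480) (2 * j0)
  obtain ⟨D, hD⟩ : ∃ D, D = M * 6480 * (2 * T + 2) := ⟨_, rfl⟩
  rw [← hD] at hR3 hR4
  obtain ⟨L, hL⟩ : ∃ L, L = 48 * (D + 1) ^ 2 * 16 ^ R := ⟨_, rfl⟩
  rw [← hL] at hR4
  obtain ⟨K1, hAB⟩ := hAB (2 * (D + R) + 1) _ (L + D + R) L
    (by have : (0 : ℝ) ≤ D + R := by positivity
        linarith) (by positivity) hR3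
  refine ⟨K1 + L + 2 * (D + R) + 4 * j0 + 2, fun V _ _ n m hm hI iso1 iso2 => ?_⟩
  obtain ⟨S, own, back, h⟩ := hW D R V n m hm (hI.mono (by omega))
  rw [← hL] at h
  obtain ⟨χ, χ1, χ2, χ3⟩ := hP T D R L hR2 hR4 V n m hm (hI.mono (by omega)) S own back h
  obtain ⟨β, β1, β2, β3, β4, hE⟩ := hE j0 R V n m _ hR1 hm (h.tree hI (by omega))
  have hDK : D < K1 + L + 2 * (D + R) + 4 * j0 + 2 := by omega
  obtain ⟨Λ, F, hG⟩ := hG D R L _ ((3 / 4) ^ (R - 1)) V n m hm iso1 iso2 S own back h β β1 β2 β3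
    fun s hs x hx => β4 _ (by simpa [(h.pow hI hDK hs x hx.le).2] using hx)
  -- the patterns
  obtain ⟨B, hB⟩ : ∃ B, B = 6480 * (2 * T + 2) := ⟨_, rfl⟩
  have hB0 : 0 < B := by omega
  have hDB : D = M * B := by rw [hD, hB]; ring
  have hiB : ∀ i : Fin M, (i.1 + 1) * B ≤ D := fun i =>
    hDB ▸ Nat.mul_le_mul_right _ i.2
  have hiB' : ∀ i : Fin M, i.1 * B < D := fun i => by
    have := hiB i
    rw [add_mul] at this
    omega
  set y : ℤ → ℝ := fun Q => if 0 ≤ Q then 1 else -1 with hy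
  have y1 : ∀ Q, y Q = 1 ∨ y Q = -1 := fun Q => by simp only [hy]; split_ifs <;> simp
  have y2 : ∀ Q : ℤ, (Q.natAbs : ℝ) * y Q = Q := fun Q => by
    rw [Nat.cast_natAbs]
    simp only [hy]
    split_ifs with h0
    · rw [abs_of_nonneg h0, mul_one]
    · rw [abs_of_neg (by omega)]
      simp
  have hJ : ∀ (s : S) (Q : ℤ) (i : Fin M), ∃ J : Finset ℕ, |Q| ≤ 6480 → J.card = Q.natAbs ∧
      ∀ j ∈ J, i.1 * B ≤ j ∧ j + 2 ≤ (i.1 + 1) * B ∧
      (Good n m χ j0 ((n ^ j) s.1) (y Q) ∧ Good n m χ j0 ((n ^ (j + 1)) s.1) (y Q)) ∧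
      j + 1 ∉ J ∧ -χ (n.symm s.1) * (-1) ^ (j + (J.filter (· < j)).card) = y Q := by
    intro s Q i
    by_cases hQ : |Q| ≤ 6480
    swap
    · exact ⟨∅, fun h => absurd h hQ⟩
    have e1 : (i.1 * 6480 + Q.natAbs) * (2 * T + 2) ≤ (i.1 + 1) * B := by
      rw [hB, ← mul_assoc]
      refine Nat.mul_le_mul_right _ ?_
      have := abs_le.1 hQ
      omega
    obtain ⟨J, J1, J2⟩ := mo_exists_J (ψ := -χ (n.symm s.1)) (D := D)
      (by rcases χ1 (n.symm s.1) with h | h <;> simp [h]) (y1 Q) _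
      (fun σ hσ => χ3 s.1 s.2 σ hσ (y Q) (y1 Q)) (i.1 * 6480) Q.natAbs (e1.trans (hiB i))
    refine ⟨J, fun _ => ⟨J1, fun j hj => ?_⟩⟩
    obtain ⟨a1, a2, a3⟩ := J2 j hj
    exact ⟨by rw [hB, ← mul_assoc]; exact a1, a2.trans e1, a3⟩
  choose J hJ using hJ
  have hJD : ∀ s Q i, |Q| ≤ 6480 → ∀ j ∈ J s Q i, j + 2 ≤ D := fun s Q i hQ j hj =>
    ((hJ s Q i hQ).2 j hj).2.1.trans (hiB i)
  have k1 : ∀ s Q i, |Q| ≤ 6480 → ∑ x ∈ range D, kf (J s Q i) (y Q) x = Q := fun s Q i hQ => by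
    rw [mo_kf_total _ (hJD s Q i hQ), (hJ s Q i hQ).1, y2]
  have k2 : ∀ s Q i, |Q| ≤ 6480 → ∑ x ∈ range D, |kf (J s Q i) (y Q) x| ≤ 6480 :=
    fun s Q i hQ => by
      rw [mo_kf_abs (y1 Q) (hJD s Q i hQ), (hJ s Q i hQ).1, Nat.cast_natAbs]
      exact_mod_cast hQ
  have m1 : ∀ i : Fin M, ∑ x ∈ range D, (if x = i.1 * B then (1 : ℝ) else 0) = 1 := fun i => by
    rw [sum_ite_eq' (range D), if_pos (mem_range.2 (hiB' i))]
  obtain ⟨z, Q, i, ρ', z1, z2, z3⟩ := hAB V (V × Bool) S (Fin D) _ _ _ Λ _ F (hG.mono (by omega))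
    (by
      have : (0 : ℝ) ≤ D := by positivity
      have : (0 : ℝ) ≤ R := by positivity
      rw [Fintype.card_fin]
      linarith)
    (fun x => (∑ i : Fin M, if x.1 = i.1 * B then (1 : ℝ) else 0) / M)
    (fun x => div_nonneg (sum_nonneg fun _ _ => by split_ifs <;> norm_num) hM0.le)
    (by
      rw [← sum_div, Fin.sum_univ_eq_sum_range
        (fun x => ∑ i : Fin M, if x = i.1 * B then (1 : ℝ) else 0) D, sum_comm]
      simp only [m1, sum_const, card_univ, Fintype.card_fin, nsmul_eq_mul, mul_one]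
      exact div_self hM0.ne')
    (fun s => if χ (n.symm s.1) = χ s.1 then 1 else 0) (fun s Q i x => kf (J s Q i) (y Q) x)
    (mo_parity hm (fun v hv => by
      have := hI v [2] [] (List.IsChain.singleton _) List.IsChain.nil (by simp) hv
      simp at this) χ1 χ2)
    fun s Q i hQ _ => ⟨(Fin.sum_univ_eq_sum_range (kf (J s Q i) (y Q)) D).trans (k1 s Q i hQ),
      (Fin.sum_univ_eq_sum_range (fun x => |kf (J s Q i) (y Q) x|) D).trans_le (k2 s Q i hQ)⟩
  -- the error terms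
  set r : S → ℕ → ℝ := fun s x => if hx : x < D then ρ' s ⟨x, hx⟩ else 0 with hr
  have r0 : ∀ s (x : Fin D), r s x = ρ' s x := fun s x => dif_pos x.2
  set d : S → Fin M → ℕ → ℝ := fun s j x =>
    (Q s * (if x = j.1 * B then 1 else 0) - kf (J s (Q s) j) (y (Q s)) x) / M with hd
  set e : S → ℕ → ℝ := fun s x => ∑ j, d s j x + r s x with he
  have d1 : ∀ s j, ∑ x ∈ range D, d s j x = 0 := fun s j => by
    simp only [hd]
    rw [← sum_div, sum_sub_distrib, ← mul_sum, m1, k1 s _ j (z2 s).1]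
    simp
  have r1 : ∀ s, ∑ x ∈ range D, r s x = 0 := fun s => by
    rw [← Fin.sum_univ_eq_sum_range (r s) D]
    simp only [r0]
    exact (z2 s).2.2.1
  have r2 : ∀ s, ∑ x ∈ range D, |r s x| ≤ δ / 20 := fun s => by
    rw [← Fin.sum_univ_eq_sum_range (fun x => |r s x|) D]
    simp only [r0]
    exact (z2 s).2.2.2
  have e1 : ∀ s, ∑ x ∈ range D, e s x = 0 := fun s => by
    simp only [he]
    rw [sum_add_distrib, r1, sum_comm]
    simp [d1]
  have e2 : ∀ s, ∀ t ≤ D, |∑ x ∈ range t, e s x| ≤ δ / 10 := fun s t ht => by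
    have a1 := mo_blocks (c := 2 * 6480 / M) (by positivity) (d s) (fun j x hx => by
      simp only [hd]
      rw [if_neg (by rw [add_mul] at hx; omega), mo_kf_zero (fun a ha =>
        ⟨((hJ s _ j (z2 s).1).2 a ha).1, ((hJ s _ j (z2 s).1).2 a ha).2.1⟩) hx]
      simp) (fun j => hDB ▸ d1 s j) (fun j => by
      rw [← hDB]
      simp only [hd, abs_div, abs_of_pos hM0]
      rw [← sum_div]
      refine div_le_div_of_nonneg_right ?_ hM0.le
      have a2 : |(Q s : ℝ)| ≤ 6480 := by exact_mod_cast (z2 s).1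
      have a3 := k2 s _ j (z2 s).1
      have a4 : ∑ x ∈ range D, |(Q s : ℝ) * if x = j.1 * B then 1 else 0| = |(Q s : ℝ)| := by
        have : ∀ x, |(Q s : ℝ) * if x = j.1 * B then 1 else 0| =
            |(Q s : ℝ)| * if x = j.1 * B then 1 else 0 := fun x => by split_ifs <;> simp
        simp only [this]
        rw [← mul_sum, m1, mul_one]
      refine (sum_le_sum fun x _ => abs_sub _ _).trans ?_
      rw [sum_add_distrib, a4]
      linarith) (hDB ▸ ht)
    have a2 : |∑ x ∈ range t, r s x| ≤ δ / 20 := (abs_sum_le_sum_abs _ _).trans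
      ((sum_le_sum_of_subset_of_nonneg (range_mono ht) fun _ _ _ => abs_nonneg _).trans (r2 s))
    simp only [he]
    rw [sum_add_distrib]
    refine (abs_add_le _ _).trans ?_
    linarith
  obtain ⟨k, hk⟩ : ∃ k : V → ℝ, ∀ v, k v = kf (J ⟨own v, h.mem v⟩ (Q ⟨own v, h.mem v⟩)
    (i ⟨own v, h.mem v⟩)) (y (Q ⟨own v, h.mem v⟩)) (back v) := ⟨_, fun _ => rfl⟩
  obtain ⟨b, b1, b2, b3⟩ := mo_colour h hI (by omega) χ1 χ2 hR2 (fun s => J s (Q s) (i s))
    (fun s => y (Q s)) (fun s => y1 _)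
    (fun s j hj => ⟨hJD s _ _ (z2 s).1 j hj, ((hJ s _ _ (z2 s).1).2 j hj).2.2⟩)
    (fun s => by
      have a1 := (z2 s).2.1
      rw [(hJ s _ _ (z2 s).1).1]
      split_ifs at a1 with h0
      · rw [Odd.neg_one_pow (Int.natAbs_odd.2 (by simpa [Int.even_sub] using a1)), h0]
        ring
      · rw [Even.neg_one_pow (Int.natAbs_even.2 (by simpa using a1))]
        rcases χ1 (n.symm s.1) with h2 | h2 <;> rcases χ1 s.1 with h3 | h3 <;>
          rw [h2, h3] at h0 ⊢ <;> first | exact absurd rfl h0 | norm_num) k hk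
  obtain ⟨g, hg⟩ : ∃ g : V → ℝ, ∀ v, g v =
    ∑ x ∈ range (min (back v + 1) D), e ⟨own v, h.mem v⟩ x := ⟨_, fun _ => rfl⟩
  have g1 := mo_arc h hI hDK e e1 g hg
  have g2 : ∀ v, |g v| ≤ δ / 10 := fun v => hg v ▸ e2 _ _ (min_le_right _ _)
  have k0 : ∀ u, ¬back u < D → k u = 0 := fun u hu => by
    rw [hk]
    exact mo_kf_zero (fun a ha => ⟨Nat.zero_le a, hJD _ _ _ (z2 _).1 a ha⟩) (Or.inr (by omega))
  obtain ⟨gC, gM, c1, c2, c3, c4⟩ := hE b k (fun v => g v - g (n.symm v)) (δ / 5) b1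
    (fun u hu => by
      have hu : ¬back u < D := by simpa using hu
      exact ⟨k0 u hu, by rw [g1, if_neg hu]⟩)
    (fun u => (abs_sub _ _).trans (by linarith [g2 u, g2 (n.symm u)])) b3
  have z4 : ∀ v, bd (fun e : V × Bool => e.1) (fun e => if e.2 then m e.1 else n e.1) z v =
      ∑ u, (k u + (g u - g (n.symm u))) * β u v := fun v => by
    have := h.sum_roots hI hDK (fun s x => kf (J s (Q s) (i s)) (y (Q s)) x + e s x)
      fun u => β u v
    rw [z3]
    refine Eq.trans (sum_congr rfl fun s _ => sum_congr rfl fun x _ => ?_)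
      (this.trans (sum_congr rfl fun u _ => ?_))
    · simp only [he, hd, r0]
      rw [← sum_div, sum_sub_distrib, ← mul_sum]
      ring
    · rw [g1]
      split_ifs with hu
      · rw [hk]
      · rw [k0 u hu, add_zero]
  have z5 : ∀ q, |z q| ≤ δ / 4 := fun q => by
    have := z1 q
    have := min_le_left (δ / 12) 1
    linarith
  refine ⟨b, fun v => (b v - b (n v)) / 4 + gC v + z (v, false) - g v,
    fun v => gM v + (z (v, true) - z (m v, true)), b1, fun v => ?_, fun v => ⟨?_, ?_⟩, fun v => ?_⟩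
  · simp only [c1, hm]
    ring
  · have a1 := abs_le.1 (c3 v)
    have a2 := abs_le.1 (z5 (v, false))
    have a3 := abs_le.1 (g2 v)
    rw [abs_le]
    constructor <;> linarith
  · have a1 := abs_le.1 (c2 v)
    have a2 := abs_le.1 (z5 (v, true))
    have a3 := abs_le.1 (z5 (m v, true))
    rw [abs_le]
    constructor <;> linarith
  · have a1 := c4 v
    have a2 := b2 v
    have a3 := z4 v
    rw [mo_bd hm] at a3
    simp only [Equiv.apply_symm_apply]
    linarith

end Pool.Agent.Lib.MP_c8786f_co.W5
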