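import Pool.Agent.Lib.MP_c8786f_co.W5.Model
import Pool.Agent.Lib.MP_c8786f_co.W5.Final2

/-!
Five-flows at fixed cyclic connectivity: the local construction as a core lemma, and the theorem
in the permutation model.
-/

namespace Pool.Agent.Lib.MP_c8786f_co.W5

open Finset

/-- The local construction: windows, patterns, and for every flow `z` that balances a choice of
patterns a colouring `b` and a small flow with net outflow `b - bd z`. -/
theorem model_core (hW : WindowsStmt) (hP : PhasesStmt) (hE : EmitStmt) (hG : GeoInstStmt)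
    {δ : ℝ} (hδ : 0 < δ) : ∃ (ε2 : ℝ) (M : ℕ), 0 < ε2 ∧ 0 < M ∧ ∀ A : ℝ, 0 < A →
    ∃ (P α l1 : ℝ) (L1 D K : ℕ), 1 ≤ P ∧ 0 ≤ l1 ∧ α * A * P ^ 7 ≤ 1 ∧ (D : ℝ) + 1 ≤ P ∧
    ∀ (V : Type) [Fintype V] [DecidableEq V] (n : Equiv.Perm V) (m : V → V),
    (∀ v, m (m v) = v) → Inj n m K →
    ∃ (S : Finset V) (β : S → Fin D → V → ℝ) (Λ : S → Finset V) (own : V → S)
      (F : S → Finset (V × Bool)) (m0 : Fin D → ℝ) (p : S → ℤ)
      (kap : S → ℤ → Fin M → Fin D → ℝ),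
      Geo (fun e : V × Bool => e.1) (fun e => if e.2 then m e.1 else n e.1) β Λ own F α P l1 L1 0 ∧
      (∀ x, 0 ≤ m0 x) ∧ ∑ x, m0 x = 1 ∧ Even (∑ τ, p τ) ∧
      (∀ τ Q i, |Q| ≤ 6480 → Even (Q - p τ) →
        ∑ x, kap τ Q i x = Q ∧ ∑ x, |kap τ Q i x| ≤ 6480) ∧
      ∀ (z : V × Bool → ℝ) (Q : S → ℤ) (i : S → Fin M) (ρ : S → Fin D → ℝ),
        (∀ τ, |Q τ| ≤ 6480 ∧ Even (Q τ - p τ) ∧ ∑ x, ρ τ x = 0 ∧ ∑ x, |ρ τ x| ≤ ε2) →
        (∀ v, bd (fun e : V × Bool => e.1) (fun e => if e.2 then m e.1 else n e.1) z v =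
          ∑ τ, ∑ x, (Q τ * m0 x - (∑ j, kap τ (Q τ) j x) / M +
            kap τ (Q τ) (i τ) x + ρ τ x) * β τ x v) →
        ∃ b gC gM : V → ℝ, (∀ v, b v = 1 ∨ b v = -1) ∧ (∀ v, gM (m v) = -gM v) ∧
          (∀ v, |gC v| ≤ 1 / 2 + δ ∧ |gM v| ≤ 1 / 2 + δ) ∧
          ∀ v, gC v - gC (n.symm v) + gM v =
            b v - bd (fun e : V × Bool => e.1) (fun e => if e.2 then m e.1 else n e.1) z v := by
  obtain ⟨j1, hj1⟩ := exists_pow_lt_of_lt_one (show 0 < δ / 8 by positivity)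
    (show (3 / 4 : ℝ) < 1 by norm_num)
  obtain ⟨j0, hj0, hj0'⟩ : ∃ j0 : ℕ, 1 ≤ j0 ∧ (3 / 4 : ℝ) ^ (2 * j0) ≤ δ / 8 :=
    ⟨j1 + 1, by omega, (pow_le_pow_of_le_one (by norm_num) (by norm_num) (by omega)).trans hj1.le⟩
  obtain ⟨M, hM⟩ := exists_nat_gt (2 * 6480 / (δ / 20))
  have hM0 : (0 : ℝ) < M := lt_trans (by positivity) hM
  have hM1 : 2 * 6480 / (M : ℝ) ≤ δ / 20 := by
    rw [div_lt_iff₀ (by positivity)] at hM
    rw [div_le_iff₀ hM0]
    linarith
  refine ⟨δ / 20, M, by positivity, by exact_mod_cast hM0, fun A hA => ?_⟩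
  obtain ⟨ρ, c, hρ0, hρ1, hc, hP⟩ := hP j0 hj0
  obtain ⟨T, R, hR1, hR2, hR3, hR4⟩ := mo_consts hA hρ0 hρ1 hc (M * 6480) (2 * j0)
  obtain ⟨D, hD⟩ : ∃ D, D = M * 6480 * (2 * T + 2) := ⟨_, rfl⟩
  rw [← hD] at hR3 hR4
  obtain ⟨L, hL⟩ : ∃ L, L = 48 * (D + 1) ^ 2 * 16 ^ R := ⟨_, rfl⟩
  rw [← hL] at hR4
  have hD0 : (0 : ℝ) ≤ D := by positivity
  have hR0 : (0 : ℝ) ≤ R := by positivity
  refine ⟨2 * (D + R) + 1, _, L + D + R, L, D, L + 2 * (D + R) + 4 * j0 + 2, by linarith,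
    by positivity, hR3, by linarith, fun V _ _ n m hm hI => ?_⟩
  obtain ⟨S, own, back, h⟩ := hW D R V n m hm (hI.mono (by omega))
  rw [← hL] at h
  obtain ⟨χ, χ1, χ2, χ3⟩ := hP T D R L hR2 hR4 V n m hm (hI.mono (by omega)) S own back h
  obtain ⟨β, β1, β2, β3, β4, hE⟩ := hE j0 R V n m _ hR1 hm (h.tree hI (by omega))
  have hDK : D < L + 2 * (D + R) + 4 * j0 + 2 := by omega
  obtain ⟨Λ, F, hG⟩ := hG D R L 0 ((3 / 4) ^ (R - 1)) V n m hm
    (fun Y hY => hY.trans (Nat.zero_le _)) (fun _ _ _ => Nat.zero_le _) S own back h β β1 β2 β3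
    fun s hs x hx => β4 _ (by simpa [(h.pow hI hDK hs x hx.le).2] using hx)
  -- the patterns
  obtain ⟨B, hB⟩ : ∃ B, B = 6480 * (2 * T + 2) := ⟨_, rfl⟩
  have hB0 : 0 < B := by omega
  have hDB : D = M * B := by rw [hD, hB]; ring
  have hiB : ∀ i : Fin M, (i.1 + 1) * B ≤ D := fun i =>
    hDB ▸ Nat.mul_le_mul_right _ i.2
  have hiB' : ∀ i : Fin M, i.1 * B < D := fun i => by
    have := hiB i
    rw [add_mul] at this
    omega
  set y : ℤ → ℝ := fun Q => if 0 ≤ Q then 1 else -1 with hy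
  have y1 : ∀ Q, y Q = 1 ∨ y Q = -1 := fun Q => by simp only [hy]; split_ifs <;> simp
  have y2 : ∀ Q : ℤ, (Q.natAbs : ℝ) * y Q = Q := fun Q => by
    rw [Nat.cast_natAbs]
    simp only [hy]
    split_ifs with h0
    · rw [abs_of_nonneg h0, mul_one]
    · rw [abs_of_neg (by omega)]
      simp
  have hJ : ∀ (s : S) (Q : ℤ) (i : Fin M), ∃ J : Finset ℕ, |Q| ≤ 6480 → J.card = Q.natAbs ∧
      ∀ j ∈ J, i.1 * B ≤ j ∧ j + 2 ≤ (i.1 + 1) * B ∧
      (Good n m χ j0 ((n ^ j) s.1) (y Q) ∧ Good n m χ j0 ((n ^ (j + 1)) s.1) (y Q)) ∧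
      j + 1 ∉ J ∧ -χ (n.symm s.1) * (-1) ^ (j + (J.filter (· < j)).card) = y Q := by
    intro s Q i
    by_cases hQ : |Q| ≤ 6480
    swap
    · exact ⟨∅, fun h => absurd h hQ⟩
    have e1 : (i.1 * 6480 + Q.natAbs) * (2 * T + 2) ≤ (i.1 + 1) * B := by
      rw [hB, ← mul_assoc]
      refine Nat.mul_le_mul_right _ ?_
      have := abs_le.1 hQ
      omega
    obtain ⟨J, J1, J2⟩ := mo_exists_J (ψ := -χ (n.symm s.1)) (D := D)
      (by rcases χ1 (n.symm s.1) with h | h <;> simp [h]) (y1 Q) _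
      (fun σ hσ => χ3 s.1 s.2 σ hσ (y Q) (y1 Q)) (i.1 * 6480) Q.natAbs (e1.trans (hiB i))
    refine ⟨J, fun _ => ⟨J1, fun j hj => ?_⟩⟩
    obtain ⟨a1, a2, a3⟩ := J2 j hj
    exact ⟨by rw [hB, ← mul_assoc]; exact a1, a2.trans e1, a3⟩
  choose J hJ using hJ
  have hJD : ∀ s Q i, |Q| ≤ 6480 → ∀ j ∈ J s Q i, j + 2 ≤ D := fun s Q i hQ j hj =>
    ((hJ s Q i hQ).2 j hj).2.1.trans (hiB i)
  have k1 : ∀ s Q i, |Q| ≤ 6480 → ∑ x ∈ range D, kf (J s Q i) (y Q) x = Q := fun s Q i hQ => by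
    rw [mo_kf_total _ (hJD s Q i hQ), (hJ s Q i hQ).1, y2]
  have k2 : ∀ s Q i, |Q| ≤ 6480 → ∑ x ∈ range D, |kf (J s Q i) (y Q) x| ≤ 6480 :=
    fun s Q i hQ => by
      rw [mo_kf_abs (y1 Q) (hJD s Q i hQ), (hJ s Q i hQ).1, Nat.cast_natAbs]
      exact_mod_cast hQ
  have m1 : ∀ i : Fin M, ∑ x ∈ range D, (if x = i.1 * B then (1 : ℝ) else 0) = 1 := fun i => by
    rw [sum_ite_eq' (range D), if_pos (mem_range.2 (hiB' i))]
  refine ⟨S, _, Λ, _, F, fun x => (∑ i : Fin M, if x.1 = i.1 * B then (1 : ℝ) else 0) / M,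
    fun s => if χ (n.symm s.1) = χ s.1 then 1 else 0, fun s Q i x => kf (J s Q i) (y Q) x, hG,
    fun x => div_nonneg (sum_nonneg fun _ _ => by split_ifs <;> norm_num) hM0.le, ?_,
    mo_parity hm (fun v hv => by
      have := hI v [2] [] (List.IsChain.singleton _) List.IsChain.nil (by simp) hv
      simp at this) χ1 χ2,
    fun s Q i hQ _ => ⟨(Fin.sum_univ_eq_sum_range (kf (J s Q i) (y Q)) D).trans (k1 s Q i hQ),
      (Fin.sum_univ_eq_sum_range (fun x => |kf (J s Q i) (y Q) x|) D).trans_le (k2 s Q i hQ)⟩,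
    fun z Q i ρ' z2 z3 => ?_⟩
  · rw [← sum_div, Fin.sum_univ_eq_sum_range
      (fun x => ∑ i : Fin M, if x = i.1 * B then (1 : ℝ) else 0) D, sum_comm]
    simp only [m1, sum_const, card_univ, Fintype.card_fin, nsmul_eq_mul, mul_one]
    exact div_self hM0.ne'
  -- the error terms
  set r : S → ℕ → ℝ := fun s x => if hx : x < D then ρ' s ⟨x, hx⟩ else 0 with hr
  have r0 : ∀ s (x : Fin D), r s x = ρ' s x := fun s x => dif_pos x.2
  set d : S → Fin M → ℕ → ℝ := fun s j x =>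
    (Q s * (if x = j.1 * B then 1 else 0) - kf (J s (Q s) j) (y (Q s)) x) / M with hd
  set e : S → ℕ → ℝ := fun s x => ∑ j, d s j x + r s x with he
  have d1 : ∀ s j, ∑ x ∈ range D, d s j x = 0 := fun s j => by
    simp only [hd]
    rw [← sum_div, sum_sub_distrib, ← mul_sum, m1, k1 s _ j (z2 s).1]
    simp
  have r1 : ∀ s, ∑ x ∈ range D, r s x = 0 := fun s => by
    rw [← Fin.sum_univ_eq_sum_range (r s) D]
    simp only [r0]
    exact (z2 s).2.2.1
  have r2 : ∀ s, ∑ x ∈ range D, |r s x| ≤ δ / 20 := fun s => by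
    rw [← Fin.sum_univ_eq_sum_range (fun x => |r s x|) D]
    simp only [r0]
    exact (z2 s).2.2.2
  have e1 : ∀ s, ∑ x ∈ range D, e s x = 0 := fun s => by
    simp only [he]
    rw [sum_add_distrib, r1, sum_comm]
    simp [d1]
  have e2 : ∀ s, ∀ t ≤ D, |∑ x ∈ range t, e s x| ≤ δ / 10 := fun s t ht => by
    have a1 := mo_blocks (c := 2 * 6480 / M) (by positivity) (d s) (fun j x hx => by
      simp only [hd]
      rw [if_neg (by rw [add_mul] at hx; omega), mo_kf_zero (fun a ha =>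
        ⟨((hJ s _ j (z2 s).1).2 a ha).1, ((hJ s _ j (z2 s).1).2 a ha).2.1⟩) hx]
      simp) (fun j => hDB ▸ d1 s j) (fun j => by
      rw [← hDB]
      simp only [hd, abs_div, abs_of_pos hM0]
      rw [← sum_div]
      refine div_le_div_of_nonneg_right ?_ hM0.le
      have a2 : |(Q s : ℝ)| ≤ 6480 := by exact_mod_cast (z2 s).1
      have a3 := k2 s _ j (z2 s).1
      have a4 : ∑ x ∈ range D, |(Q s : ℝ) * if x = j.1 * B then 1 else 0| = |(Q s : ℝ)| := by
        have : ∀ x, |(Q s : ℝ) * if x = j.1 * B then 1 else 0| =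
            |(Q s : ℝ)| * if x = j.1 * B then 1 else 0 := fun x => by split_ifs <;> simp
        simp only [this]
        rw [← mul_sum, m1, mul_one]
      refine (sum_le_sum fun x _ => abs_sub _ _).trans ?_
      rw [sum_add_distrib, a4]
      linarith) (hDB ▸ ht)
    have a2 : |∑ x ∈ range t, r s x| ≤ δ / 20 := (abs_sum_le_sum_abs _ _).trans
      ((sum_le_sum_of_subset_of_nonneg (range_mono ht) fun _ _ _ => abs_nonneg _).trans (r2 s))
    simp only [he]
    rw [sum_add_distrib]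
    refine (abs_add_le _ _).trans ?_
    linarith
  obtain ⟨k, hk⟩ : ∃ k : V → ℝ, ∀ v, k v = kf (J ⟨own v, h.mem v⟩ (Q ⟨own v, h.mem v⟩)
    (i ⟨own v, h.mem v⟩)) (y (Q ⟨own v, h.mem v⟩)) (back v) := ⟨_, fun _ => rfl⟩
  obtain ⟨b, b1, b2, b3⟩ := mo_colour h hI (by omega) χ1 χ2 hR2 (fun s => J s (Q s) (i s))
    (fun s => y (Q s)) (fun s => y1 _)
    (fun s j hj => ⟨hJD s _ _ (z2 s).1 j hj, ((hJ s _ _ (z2 s).1).2 j hj).2.2⟩)
    (fun s => by
      have a1 := (z2 s).2.1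
      rw [(hJ s _ _ (z2 s).1).1]
      beta_reduce at a1
      split_ifs at a1 with h0
      · rw [Odd.neg_one_pow (Int.natAbs_odd.2 (by simpa [Int.even_sub] using a1)), h0]
        ring
      · rw [Even.neg_one_pow (Int.natAbs_even.2 (by simpa using a1))]
        rcases χ1 (n.symm s.1) with h2 | h2 <;> rcases χ1 s.1 with h3 | h3 <;>
          rw [h2, h3] at h0 ⊢ <;> first | exact absurd rfl h0 | norm_num) k hk
  obtain ⟨g, hg⟩ : ∃ g : V → ℝ, ∀ v, g v =
    ∑ x ∈ range (min (back v + 1) D), e ⟨own v, h.mem v⟩ x := ⟨_, fun _ => rfl⟩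
  have g1 := mo_arc h hI hDK e e1 g hg
  have g2 : ∀ v, |g v| ≤ δ / 10 := fun v => hg v ▸ e2 _ _ (min_le_right _ _)
  have k0 : ∀ u, ¬back u < D → k u = 0 := fun u hu => by
    rw [hk]
    exact mo_kf_zero (fun a ha => ⟨Nat.zero_le a, hJD _ _ _ (z2 _).1 a ha⟩) (Or.inr (by omega))
  obtain ⟨gC, gM, c1, c2, c3, c4⟩ := hE b k (fun v => g v - g (n.symm v)) (δ / 5) b1
    (fun u hu => by
      have hu : ¬back u < D := by simpa using hu
      exact ⟨k0 u hu, by rw [g1, if_neg hu]⟩)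
    (fun u => (abs_sub _ _).trans (by linarith [g2 u, g2 (n.symm u)])) b3
  have z4 : ∀ v, bd (fun e : V × Bool => e.1) (fun e => if e.2 then m e.1 else n e.1) z v =
      ∑ u, (k u + (g u - g (n.symm u))) * β u v := fun v => by
    have := h.sum_roots hI hDK (fun s x => kf (J s (Q s) (i s)) (y (Q s)) x + e s x)
      fun u => β u v
    rw [z3]
    refine Eq.trans (sum_congr rfl fun s _ => sum_congr rfl fun x _ => ?_)
      (this.trans (sum_congr rfl fun u _ => ?_))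
    · simp only [he, hd, r0]
      rw [← sum_div, sum_sub_distrib, ← mul_sum]
      ring
    · rw [g1]
      split_ifs with hu
      · rw [hk]
      · rw [k0 u hu, add_zero]
  refine ⟨b, fun v => (b v - b (n v)) / 4 + gC v - g v, gM, b1, c1, fun v => ⟨?_, ?_⟩,
    fun v => ?_⟩
  · have a1 := abs_le.1 (c3 v)
    have a3 := abs_le.1 (g2 v)
    rw [abs_le]
    constructor <;> linarith
  · linarith [c2 v]
  · have a1 := c4 v
    have a2 := b2 v
    have a3 := z4 v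
    simp only [Equiv.apply_symm_apply]
    linarith

lemma mo_wcut {V : Type} [Fintype V] [DecidableEq V] (n : Equiv.Perm V) {m : V → V}
    (hm : ∀ v, m (m v) = v) (Y : Finset V) :
    wcut (fun e : V × Bool => e.1) (fun e => if e.2 then m e.1 else n e.1)
      (fun e => if e.2 then 1 else 2) Y = 2 * hcut n m Y := by
  have e1 := Equiv.sum_comp n fun v => if v ∈ Y ∧ n.symm v ∉ Y then (1 : ℕ) else 0
  have e2 := Equiv.sum_comp (Function.Involutive.toPerm m hm)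
    fun v => if v ∈ Y ∧ m v ∉ Y then (1 : ℕ) else 0
  simp only [Equiv.symm_apply_apply, Function.Involutive.coe_toPerm, hm] at e1 e2
  have e3 : hcut n m Y = ∑ v, ((if v ∈ Y ∧ n v ∉ Y then 1 else 0) +
      (if v ∈ Y ∧ n.symm v ∉ Y then 1 else 0) + if v ∈ Y ∧ m v ∉ Y then 1 else 0) := by
    rw [hcut, card_filter, Fintype.sum_prod_type]
    exact sum_congr rfl fun v _ => Fin.sum_univ_three _
  have e4 : wcut (fun e : V × Bool => e.1) (fun e => if e.2 then m e.1 else n e.1)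
      (fun e => if e.2 then 1 else 2) Y = ∑ v, (((if v ∈ Y ∧ m v ∉ Y then 1 else 0) +
        if m v ∈ Y ∧ v ∉ Y then 1 else 0) + 2 * ((if v ∈ Y ∧ n v ∉ Y then 1 else 0) +
        if n v ∈ Y ∧ v ∉ Y then 1 else 0)) := by
    rw [wcut, sum_filter, Fintype.sum_prod_type]
    refine sum_congr rfl fun v _ => ?_
    rw [Fintype.sum_bool]
    by_cases h1 : v ∈ Y <;> by_cases h2 : n v ∈ Y <;> by_cases h3 : m v ∈ Y <;> simp [h1, h2, h3]
  rw [e3, e4]
  simp only [sum_add_distrib, ← mul_sum]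
  omega

lemma mo_wcut_le {V E : Type} [Fintype E] [DecidableEq V] (s t : E → V) (wt : E → ℕ)
    (h : ∀ e, wt e ≤ 2) (Y : Finset V) : wcut s t wt Y ≤ 2 * cut s t Y := by
  unfold wcut cut
  rw [mul_comm]
  exact sum_le_card_nsmul _ _ 2 fun e _ => h e

lemma mo_hcut_compl {V : Type} [Fintype V] [DecidableEq V] (n : Equiv.Perm V) {m : V → V}
    (hm : ∀ v, m (m v) = v) (Y : Finset V) : hcut n m Yᶜ = hcut n m Y := by
  have e1 := mo_wcut n hm Y
  have e2 := mo_wcut n hm Yᶜ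
  have e3 : wcut (fun e : V × Bool => e.1) (fun e => if e.2 then m e.1 else n e.1)
      (fun e => if e.2 then 1 else 2) Yᶜ = wcut (fun e : V × Bool => e.1)
      (fun e => if e.2 then m e.1 else n e.1) (fun e => if e.2 then 1 else 2) Y := by
    unfold wcut
    refine sum_congr (filter_congr fun e _ => ?_) fun _ _ => rfl
    simp only [mem_compl]
    tauto
  omega

theorem model3_of (hAB : AB2Stmt) (hF : FixStmt) (hW : WindowsStmt) (hP : PhasesStmt)
    (hE : EmitStmt) (hG : GeoInstStmt) : Model3Stmt := by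
  intro k δ hk hδ
  obtain ⟨ε2, M, hε2, hM, hC⟩ := model_core hW hP hE hG (half_pos hδ)
  obtain ⟨A, hA, hAB⟩ := hAB (min (δ / 48) 1) ε2 M (by positivity) (min_le_right _ _) hε2 hM
  obtain ⟨P, α, l1, L1, D, K0, hP1, hl1, hα, hD, hC⟩ := hC A hA
  obtain ⟨N, hN⟩ := exists_nat_gt (16 / δ)
  have hN0 : (0 : ℝ) < N := lt_trans (by positivity) hN
  have hk0 : (1 : ℝ) ≤ k := by exact_mod_cast hk
  have hN1 : 2 / ((N : ℝ) * k) ≤ δ / 8 := by
    rw [div_lt_iff₀ hδ] at hN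
    rw [div_le_iff₀ (by positivity)]
    nlinarith [mul_pos hN0 hδ]
  obtain ⟨K1, hAB⟩ := hAB P α l1 L1 ((2 * N + 1) * k) hP1 hl1 hα
  refine ⟨K0 + K1 + k, by omega, fun V _ _ n m hm hI iso1 iso2 => ?_⟩
  obtain ⟨S, β, Λ, own, F, m0, p, kap, hG, m1, m2, p1, p2, hC⟩ :=
    hC V n m hm (hI.mono (by omega))
  have hc : ∀ Y, hcut n m Y ≤
      cut (fun e : V × Bool => e.1) (fun e => if e.2 then m e.1 else n e.1) Y := fun Y => by
    have := mo_wcut_le (fun e : V × Bool => e.1) (fun e => if e.2 then m e.1 else n e.1)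
      (fun e => if e.2 then 1 else 2) (fun e => by split_ifs <;> omega) Y
    rw [mo_wcut n hm] at this
    omega
  obtain ⟨z0, z1, z, Q, i, ρ, z2, z3, z4⟩ := hAB V (V × Bool) S (Fin D) _ _ β Λ own F hG
    ⟨fun Y hY => (iso1 Y (by omega)).trans (hc Y), fun Y hY => by
      have h1 := hc Y
      by_cases h2 : Y.card ≤ K0 + K1 + k
      · exact Or.inl (card_eq_zero.1 (by have := iso1 Y h2; omega))
      by_cases h3 : Yᶜ.card ≤ K0 + K1 + k
      · have := iso1 _ h3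
        rw [mo_hcut_compl n hm] at this
        exact Or.inr ((compl_eq_empty_iff Y).1 (card_eq_zero.1 (by omega)))
      have := iso2 Y (by omega) (by omega)
      omega⟩
    (by rw [Fintype.card_fin]; exact hD) m0 m1 m2 _
    (hF V (V × Bool) S (Fin D) _ _ β Λ own F α P l1 L1 (K0 + K1 + k) k N
      (fun e => if e.2 then 1 else 2) hG hk (by exact_mod_cast hN0)
      (fun Y hY => by rw [mo_wcut n hm]; have := iso1 Y hY; omega)
      (fun Y h1 h2 => by rw [mo_wcut n hm]; have := iso2 Y h1 h2; omega) m0 m1 m2)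
    p kap p1 p2
  obtain ⟨b, gC, gM, b1, c1, c2, c3⟩ := hC (z0 + z) Q i ρ z3 z4
  have z5 : ∀ q, |z q| ≤ δ / 8 := fun q => by
    have := z2 q
    have := min_le_left (δ / 48) 1
    linarith
  have z6 : ∀ v, |z0 (v, false)| ≤ 2 / k + δ / 8 := fun v => by
    have := z1 (v, false)
    simp only [Bool.false_eq_true, if_false, Nat.cast_ofNat] at this
    linarith
  have z7 : ∀ v, 2 * |z0 (v, true)| ≤ 2 / k + δ / 4 := fun v => by
    have := z1 (v, true)
    simp only [if_true, Nat.cast_one] at this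
    have e : (2 : ℝ) / k = 2 * (1 / k) := by ring
    linarith
  refine ⟨b, fun v => gC v + (z0 + z) (v, false),
    fun v => gM v + ((z0 + z) (v, true) - (z0 + z) (m v, true)), b1, fun v => ?_,
    fun v => ⟨?_, ?_⟩, fun v => ?_⟩
  · simp only [c1, hm]
    ring
  · have a1 := abs_le.1 (c2 v).1
    have a2 := abs_le.1 (z5 (v, false))
    have a3 := abs_le.1 (z6 v)
    simp only [abs_le, Pi.add_apply]
    constructor <;> linarith
  · have a1 := abs_le.1 (c2 v).2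
    have a2 := abs_le.1 (z5 (v, true))
    have a3 := abs_le.1 (z5 (m v, true))
    have a4 := z7 v
    have a5 := z7 (m v)
    have a6 := le_abs_self (z0 (v, true))
    have a7 := neg_abs_le (z0 (v, true))
    have a8 := le_abs_self (z0 (m v, true))
    have a9 := neg_abs_le (z0 (m v, true))
    simp only [abs_le, Pi.add_apply]
    constructor <;> linarith
  · have a1 := c3 v
    rw [mo_bd hm] at a1
    linarith

end Pool.Agent.Lib.MP_c8786f_co.W5
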