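import Pool.Agent.Lib.MP_c8786f_co.W5.Defs

/-!
Weak five-flow theorem: segments, defect patterns and the choice of the constants.
-/

namespace Pool.Agent.Lib.MP_c8786f_co.W5

open Finset

section Seg

variable {V : Type} {n : Equiv.Perm V} {m : V → V} {S : Finset V} {own : V → V} {back : V → ℕ}
  {D R L K : ℕ}

lemma mo_red_replicate (x : ℕ) : Red (List.replicate x 0) := by
  induction x with
  | zero => exact List.IsChain.nil
  | succ x ih =>
    cases x with
    | zero => exact List.IsChain.singleton _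
    | succ x =>
      rw [List.replicate_succ, List.replicate_succ]
      exact List.IsChain.cons_cons (by decide) ih

lemma mo_red_append {w : List (Fin 3)} (hw : Em w) (x : ℕ) : Red (w ++ List.replicate x 0) := by
  refine List.IsChain.append hw.1 (mo_red_replicate x) fun a ha b hb => ?_
  rcases hw.2 with h | h
  · subst h; simp at ha
  · rw [h] at ha
    have h1 : a = 2 := by simpa using ha.symm
    have h2 : b = 0 := List.eq_of_mem_replicate (List.mem_of_mem_head? hb)
    subst h1 h2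
    decide

lemma mo_append_inj {w w' : List (Fin 3)} (hw : Em w) (hw' : Em w') : ∀ x x' : ℕ,
    w ++ List.replicate x 0 = w' ++ List.replicate x' 0 → w = w' ∧ x = x' := by
  have key : ∀ {u u' : List (Fin 3)}, Em u → ∀ y : ℕ, u ≠ u' ++ List.replicate (y + 1) 0 := by
    intro u u' hu y h
    rcases hu.2 with h1 | h1
    · rw [h1] at h
      have := congrArg List.length h
      simp at this
    · rw [h, List.replicate_succ', ← List.append_assoc, List.getLast?_concat] at h1
      revert h1; decide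
  intro x
  induction x with
  | zero =>
    intro x' h
    cases x' with
    | zero => simpa using h
    | succ y => exact absurd (by simpa using h) (key hw y)
  | succ x ih =>
    intro x' h
    cases x' with
    | zero => exact absurd (by simpa using h.symm) (key hw' x)
    | succ y =>
      rw [List.replicate_succ', List.replicate_succ', ← List.append_assoc,
        ← List.append_assoc] at h
      obtain ⟨h1, h2⟩ := ih y (List.append_cancel_right h)
      exact ⟨h1, by omega⟩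

lemma mo_pow_ne (hI : Inj n m K) {k : ℕ} (h0 : 0 < k) (hk : k < K) (v : V) : (n ^ k) v ≠ v := by
  intro h
  have := hI v (List.replicate k 0) [] (mo_red_replicate k) List.IsChain.nil (by simpa using hk)
    (by rw [act_replicate]; exact h)
  have := congrArg List.length this
  simp at this
  omega

lemma Seg.own_self (h : Seg n m S own back D R L) {s : V} (hs : s ∈ S) : own s = s := by
  have := h.eq s
  rwa [h.zero s hs, pow_zero] at this

lemma Seg.mem_of_zero (h : Seg n m S own back D R L) {v : V} (hv : back v = 0) : v ∈ S := by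
  have := h.eq v
  rw [hv, pow_zero] at this
  exact this ▸ h.mem v

lemma Seg.not_mem (h : Seg n m S own back D R L) (hI : Inj n m K) (hK : D < K) {s : V}
    (hs : s ∈ S) {x : ℕ} (h0 : 0 < x) (hx : x ≤ D) : (n ^ x) s ∉ S := by
  intro h1
  have := h.sep s hs _ h1 x hx 0 (Nat.zero_le _) [] [] (Nat.zero_le _) (Nat.zero_le _) rfl
  exact mo_pow_ne hI h0 (by omega) s this.symm

lemma Seg.pow (h : Seg n m S own back D R L) (hI : Inj n m K) (hK : D < K) {s : V}
    (hs : s ∈ S) : ∀ x ≤ D, own ((n ^ x) s) = s ∧ back ((n ^ x) s) = x := by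
  intro x
  induction x with
  | zero => exact fun _ => ⟨h.own_self hs, h.zero s hs⟩
  | succ x ih =>
    intro hx
    have h1 := h.not_mem hI hK hs (Nat.succ_pos x) hx
    rw [pow_succ', Equiv.Perm.mul_apply] at h1 ⊢
    obtain ⟨h2, h3⟩ := h.succ _ h1
    obtain ⟨h4, h5⟩ := ih (by omega)
    exact ⟨h2.trans h4, by rw [h3, h5]⟩

lemma Seg.last (h : Seg n m S own back D R L) (hI : Inj n m K) (hK : D < K) {v : V}
    (hv : n v ∈ S) : D ≤ back v := by
  by_contra hlt
  refine h.not_mem hI hK (h.mem v) (Nat.succ_pos (back v)) (by omega) ?_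
  rw [pow_succ', Equiv.Perm.mul_apply, h.eq v]
  exact hv

lemma Seg.tree [Fintype V] (h : Seg n m S own back D R L) (hI : Inj n m K)
    (hK : 2 * (D + R) < K) : TreeInj n m (univ.filter fun v => back v < D) R := by
  intro u hu u' hu' w w' hw hw' h1 h2 h3
  have hu := (mem_filter.1 hu).2
  have hu' := (mem_filter.1 hu').2
  have h4 : act n m w ((n ^ back u) (own u)) = act n m w' ((n ^ back u') (own u')) := by
    rw [h.eq, h.eq, h3]
  have h5 := h.sep _ (h.mem u) _ (h.mem u') _ hu.le _ hu'.le w w' h1 h2 h4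
  rw [← h5, ← act_replicate n m, ← act_replicate n m, ← act_append, ← act_append] at h4
  obtain ⟨h6, h7⟩ := mo_append_inj hw hw' _ _
    (hI _ _ _ (mo_red_append hw _) (mo_red_append hw' _) (by simp; omega) h4)
  refine ⟨?_, h6⟩
  rw [← h.eq u, ← h.eq u', h5, h7]

lemma Seg.sign (h : Seg n m S own back D R L) {χ : V → ℝ}
    (hχ : ∀ v, n v ∉ S → χ (n v) = -χ v) : ∀ (k : ℕ) (v : V), back v = k →
      χ v = χ (own v) * (-1) ^ k := by
  intro k
  induction k with
  | zero =>
    intro v hv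
    rw [h.own_self (h.mem_of_zero hv), pow_zero, mul_one]
  | succ k ih =>
    intro v hv
    obtain ⟨u, rfl⟩ := n.surjective v
    have h1 : n u ∉ S := fun h1 => by rw [h.zero _ h1] at hv; omega
    obtain ⟨h2, h3⟩ := h.succ u h1
    rw [hχ u h1, h2, ih u (by omega), pow_succ]
    ring

lemma Seg.sum_roots [Fintype V] [DecidableEq V] (h : Seg n m S own back D R L) (hI : Inj n m K)
    (hK : D < K) (c : S → ℕ → ℝ) (g : V → ℝ) :
    ∑ s : S, ∑ x : Fin D, c s x * g ((n ^ x.1) s.1) =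
      ∑ u, (if back u < D then c ⟨own u, h.mem u⟩ (back u) else 0) * g u := by
  simp only [ite_mul, zero_mul]
  rw [← sum_filter, ← Fintype.sum_prod_type']
  refine sum_bij (fun q _ => (n ^ q.2.1) q.1.1) (fun q _ => ?_) (fun q _ q' _ hq => ?_)
    (fun u hu => ?_) (fun q _ => ?_)
  · rw [mem_filter, (h.pow hI hK q.1.2 _ q.2.2.le).2]
    exact ⟨mem_univ _, q.2.2⟩
  · obtain ⟨h1, h2⟩ := h.pow hI hK q.1.2 _ q.2.2.le
    obtain ⟨h3, h4⟩ := h.pow hI hK q'.1.2 _ q'.2.2.le
    rw [hq] at h1 h2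
    exact Prod.ext (Subtype.ext (h1.symm.trans h3)) (Fin.ext (h2.symm.trans h4))
  · exact ⟨(⟨own u, h.mem u⟩, ⟨back u, (mem_filter.1 hu).2⟩), mem_univ _, h.eq u⟩
  · obtain ⟨h1, h2⟩ := h.pow hI hK q.1.2 _ q.2.2.le
    rw [h2]
    congr 2
    exact Subtype.ext h1.symm

lemma mo_parity [Fintype V] [DecidableEq V] (hm : ∀ v, m (m v) = v) (hm' : ∀ v, m v ≠ v)
    {χ : V → ℝ} (h1 : ∀ v, χ v = 1 ∨ χ v = -1) (hχ : ∀ v, n v ∉ S → χ (n v) = -χ v) :
    Even (∑ s : S, if χ (n.symm s.1) = χ s.1 then (1 : ℤ) else 0) := by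
  classical
  rw [← ZMod.intCast_eq_zero_iff_even]
  have e1 : ∑ _v : V, (1 : ZMod 2) = 0 :=
    sum_involution (fun v _ => m v) (fun _ _ => by decide) (fun v _ _ => hm' v)
      (fun _ _ => mem_univ _) (fun v _ => hm v)
  have e2 : ∀ v, (if χ v = χ (n v) then (1 : ZMod 2) else 0) =
      1 + ((if χ (n v) = 1 then 1 else 0) + if χ v = 1 then 1 else 0) := by
    intro v
    have e : (-1 : ℝ) ≠ 1 := by norm_num
    rcases h1 v with h | h <;> rcases h1 (n v) with h' | h' <;> simp only [h, h', e, e.symm] <;>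
      decide
  have e3 : ∑ v, (if χ v = χ (n v) then (1 : ZMod 2) else 0) = 0 := by
    simp only [e2, sum_add_distrib, e1]
    rw [Equiv.sum_comp n fun v => if χ v = 1 then (1 : ZMod 2) else 0, zero_add]
    exact CharTwo.add_self_eq_zero _
  rw [← Equiv.sum_comp n.symm] at e3
  simp only [Equiv.apply_symm_apply] at e3
  push_cast
  rw [sum_coe_sort S fun s => if χ (n.symm s) = χ s then (1 : ZMod 2) else 0]
  refine Eq.trans ?_ e3
  refine sum_subset (subset_univ _) fun v _ hv => if_neg fun h => ?_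
  have := hχ (n.symm v) (by simpa using hv)
  rw [Equiv.apply_symm_apply, h] at this
  rcases h1 v with h2 | h2 <;> linarith

end Seg

section Pattern

/-- charge at position `x` of the defects `J` of sign `y` -/
noncomputable def kf (J : Finset ℕ) (y : ℝ) (x : ℕ) : ℝ :=
  y / 2 * ((if x ∈ J then 1 else 0) + if x ∈ J.image (· + 1) then 1 else 0)

lemma mo_exists_J {T D : ℕ} {ψ y : ℝ} (hψ : ψ = 1 ∨ ψ = -1) (hy : y = 1 ∨ y = -1) (G : ℕ → Prop)
    (hG : ∀ σ : ℕ, (σ + 1) * (2 * T + 2) ≤ D → ∀ π < 2, ∃ j, σ * (2 * T + 2) ≤ j ∧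
      j + 2 ≤ σ * (2 * T + 2) + 2 * T + 1 ∧ j % 2 = π ∧ G j) (σ : ℕ) :
    ∀ r : ℕ, (σ + r) * (2 * T + 2) ≤ D → ∃ J : Finset ℕ, J.card = r ∧
      ∀ j ∈ J, σ * (2 * T + 2) ≤ j ∧ j + 2 ≤ (σ + r) * (2 * T + 2) ∧ G j ∧ j + 1 ∉ J ∧
        ψ * (-1) ^ (j + (J.filter (· < j)).card) = y := by
  intro r
  induction r with
  | zero => exact fun _ => ⟨∅, rfl, by simp⟩
  | succ r ih =>
    intro hr
    have e1 : (σ + (r + 1)) * (2 * T + 2) = (σ + r) * (2 * T + 2) + (2 * T + 2) := by ring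
    have e2 : σ * (2 * T + 2) ≤ (σ + r) * (2 * T + 2) := Nat.mul_le_mul_right _ (by omega)
    obtain ⟨J, hJ, hJ'⟩ := ih (by omega)
    obtain ⟨π, hπ, hπ'⟩ : ∃ π < 2, ψ * (-1) ^ (π + r) = y := by
      by_cases h0 : ψ * (-1) ^ r = y
      · exact ⟨0, by omega, by rw [zero_add, h0]⟩
      · refine ⟨1, by omega, ?_⟩
        rw [pow_add]
        rcases neg_one_pow_eq_or ℝ r with h | h <;> rw [h] at h0 ⊢ <;>
          rcases hψ with rfl | rfl <;> rcases hy with rfl | rfl <;>
          first | (exfalso; apply h0; norm_num; done) | norm_num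
    obtain ⟨j, h1, h2, h3, h4⟩ := hG (σ + r) hr π hπ
    have hlt : ∀ i ∈ J, i + 2 ≤ j := fun i hi => (hJ' i hi).2.1.trans h1
    have hj : j ∉ J := fun h => by have := hlt j h; omega
    refine ⟨insert j J, by rw [card_insert_of_notMem hj, hJ], fun i hi => ?_⟩
    rcases mem_insert.1 hi with rfl | hi
    · refine ⟨by omega, by omega, h4, fun h => ?_, ?_⟩
      · rcases mem_insert.1 h with h | h
        · omega
        · have := hlt _ h; omega
      · have : (insert i J).filter (· < i) = J := by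
          ext a
          simp only [mem_filter, mem_insert]
          exact ⟨fun h => h.1.resolve_left (by omega),
            fun h => ⟨Or.inr h, by have := hlt a h; omega⟩⟩
        rw [this, hJ, ← hπ', ← h3, pow_add, pow_add, ← neg_one_pow_eq_pow_mod_two]
    · obtain ⟨a1, a2, a3, a4, a5⟩ := hJ' i hi
      have := hlt i hi
      refine ⟨a1, by omega, a3, fun h => ?_, ?_⟩
      · rcases mem_insert.1 h with h | h
        · omega
        · exact a4 h
      · rw [filter_insert, if_neg (by omega)]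
        exact a5

lemma mo_kf_zero {J : Finset ℕ} {y : ℝ} {a b x : ℕ} (hJ : ∀ j ∈ J, a ≤ j ∧ j + 2 ≤ b)
    (hx : x < a ∨ b ≤ x) : kf J y x = 0 := by
  unfold kf
  rw [if_neg, if_neg]
  · simp
  · intro h
    obtain ⟨j, hj, rfl⟩ := mem_image.1 h
    have := hJ j hj
    omega
  · intro h
    have := hJ x h
    omega

lemma mo_kf_sum {J : Finset ℕ} {b : ℕ} (hJ : ∀ j ∈ J, j + 2 ≤ b) :
    ∑ x ∈ range b, ((if x ∈ J then (1 : ℝ) else 0) + if x ∈ J.image (· + 1) then 1 else 0) =
      2 * J.card := by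
  rw [sum_add_distrib, sum_ite_mem, sum_ite_mem, inter_eq_right.2, inter_eq_right.2]
  · simp only [sum_const, nsmul_eq_mul, mul_one]
    rw [card_image_of_injective _ (add_left_injective 1)]
    ring
  · intro x hx
    obtain ⟨j, hj, rfl⟩ := mem_image.1 hx
    have := hJ j hj
    simp only [mem_range]
    omega
  · intro x hx
    have := hJ x hx
    simp only [mem_range]
    omega

lemma mo_kf_total {J : Finset ℕ} {b : ℕ} (y : ℝ) (hJ : ∀ j ∈ J, j + 2 ≤ b) :
    ∑ x ∈ range b, kf J y x = J.card * y := by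
  unfold kf
  rw [← mul_sum, mo_kf_sum hJ]
  ring

lemma mo_kf_abs {J : Finset ℕ} {b : ℕ} {y : ℝ} (hy : y = 1 ∨ y = -1) (hJ : ∀ j ∈ J, j + 2 ≤ b) :
    ∑ x ∈ range b, |kf J y x| = J.card := by
  have : ∀ x, |kf J y x| = kf J 1 x := by
    intro x
    unfold kf
    rw [abs_mul, abs_of_nonneg (a := _ + _) (by split_ifs <;> norm_num)]
    rcases hy with rfl | rfl <;> norm_num [abs_div]
  simp only [this]
  rw [mo_kf_total 1 hJ, mul_one]

/-- partial sums of functions with total zero on consecutive blocks -/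
lemma mo_blocks {M B : ℕ} {c : ℝ} (hc : 0 ≤ c) (d : Fin M → ℕ → ℝ)
    (h0 : ∀ (i : Fin M) (x : ℕ), x < i.1 * B ∨ (i.1 + 1) * B ≤ x → d i x = 0)
    (h1 : ∀ i, ∑ x ∈ range (M * B), d i x = 0) (h2 : ∀ i, ∑ x ∈ range (M * B), |d i x| ≤ c)
    {y : ℕ} (hy : y ≤ M * B) : |∑ x ∈ range y, ∑ i, d i x| ≤ c := by
  rw [sum_comm]
  have key : ∀ i : Fin M, i.1 ≠ y / B → ∑ x ∈ range y, d i x = 0 := by
    intro i hi
    rcases lt_or_gt_of_ne hi with h | h
    · have hB : (i + 1) * B ≤ y := (Nat.mul_le_mul_right B h).trans (Nat.div_mul_le_self y B)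
      rw [← h1 i]
      refine sum_subset (range_mono hy) fun x _ hx => h0 i x (Or.inr ?_)
      simp only [mem_range] at hx
      omega
    · refine sum_eq_zero fun x hx => h0 i x (Or.inl ?_)
      rcases Nat.eq_zero_or_pos B with rfl | hB
      · simp only [mem_range] at hx
        omega
      · have := (Nat.div_lt_iff_lt_mul hB).1 h
        simp only [mem_range] at hx
        omega
  by_cases hM : y / B < M
  · rw [sum_eq_single ⟨y / B, hM⟩ (fun i _ hi => key i fun h => hi (Fin.ext h)) (by simp)]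
    exact (abs_sum_le_sum_abs _ _).trans
      ((sum_le_sum_of_subset_of_nonneg (range_mono hy) fun _ _ _ => abs_nonneg _).trans (h2 _))
  · rw [sum_eq_zero fun i _ => key i (by have := i.2; omega)]
    simpa using hc

end Pattern

lemma mo_consts {A ρ c : ℝ} (hA : 0 < A) (h0 : 0 < ρ) (h1 : ρ < 1) (hc : 0 < c) (N j : ℕ) :
    ∃ T R : ℕ, 1 ≤ R ∧ j ≤ R ∧
      (3 / 4 : ℝ) ^ (R - 1) * A * (2 * (((N * (2 * T + 2) : ℕ) : ℝ) + R) + 1) ^ 7 ≤ 1 ∧
      ((48 * (N * (2 * T + 2) + 1) ^ 2 * 16 ^ R : ℕ) : ℝ) * ρ ^ T ≤ c := by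
  obtain ⟨C, hC⟩ := exists_pow_lt_of_lt_one (show (0 : ℝ) < 1 / 64 by norm_num) h1
  set a : ℝ := 2 * (N * (2 * C + 2)) + 3 with ha
  have ha0 : 0 < a := by positivity
  have t1 := (tendsto_pow_const_mul_const_pow_of_abs_lt_one 7
    (show |(3 / 4 : ℝ)| < 1 by norm_num [abs_of_pos])).eventually
    (gt_mem_nhds (show (0 : ℝ) < 1 / (4 / 3 * A * a ^ 7) by positivity))
  have t2 := (tendsto_pow_const_mul_const_pow_of_abs_lt_one 2
    (show |(1 / 4 : ℝ)| < 1 by norm_num [abs_of_pos])).eventually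
    (gt_mem_nhds (show (0 : ℝ) < c / (48 * a ^ 2) by positivity))
  obtain ⟨R, ⟨hR1, hR2⟩, hR3, hR4⟩ := ((t1.and t2).and ((Filter.eventually_ge_atTop 1).and
    (Filter.eventually_ge_atTop j))).exists
  have hR : (1 : ℝ) ≤ R := by exact_mod_cast hR3
  have hD : ((N * (2 * (C * R) + 2) : ℕ) : ℝ) ≤ N * (2 * C + 2) * R := by
    push_cast
    have : (0 : ℝ) ≤ N * (R - 1) := by positivity
    nlinarith
  have hD0 : (0 : ℝ) ≤ ((N * (2 * (C * R) + 2) : ℕ) : ℝ) := Nat.cast_nonneg _
  refine ⟨C * R, R, hR3, hR4, ?_, ?_⟩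
  · have e1 : 2 * (((N * (2 * (C * R) + 2) : ℕ) : ℝ) + R) + 1 ≤ a * R := by rw [ha]; nlinarith
    have e2 : (3 / 4 : ℝ) ^ (R - 1) = 4 / 3 * (3 / 4) ^ R := by
      obtain ⟨k, rfl⟩ : ∃ k, R = k + 1 := ⟨R - 1, by omega⟩
      rw [Nat.add_sub_cancel, pow_succ]
      ring
    rw [lt_div_iff₀ (by positivity)] at hR1
    calc _ ≤ (3 / 4 : ℝ) ^ (R - 1) * A * (a * R) ^ 7 := by gcongr
      _ = (R : ℝ) ^ 7 * (3 / 4) ^ R * (4 / 3 * A * a ^ 7) := by rw [e2]; ring
      _ ≤ 1 := hR1.le
  · have e1 : ((N * (2 * (C * R) + 2) : ℕ) : ℝ) + 1 ≤ a * R := by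
      rw [ha]
      have : (0 : ℝ) ≤ N * (2 * C + 2) * R := by positivity
      nlinarith
    have e2 : ρ ^ (C * R) ≤ (1 / 64) ^ R := by rw [pow_mul]; gcongr
    have e3 : (16 : ℝ) ^ R * (1 / 64) ^ R = (1 / 4) ^ R := by rw [← mul_pow]; norm_num
    rw [lt_div_iff₀ (by positivity)] at hR2
    calc _ = 48 * (((N * (2 * (C * R) + 2) : ℕ) : ℝ) + 1) ^ 2 * 16 ^ R * ρ ^ (C * R) := by
          push_cast; ring
      _ ≤ 48 * (a * R) ^ 2 * 16 ^ R * (1 / 64) ^ R := by gcongr
      _ = (R : ℝ) ^ 2 * (1 / 4) ^ R * (48 * a ^ 2) := by rw [← e3]; ring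
      _ ≤ c := hR2.le

end Pool.Agent.Lib.MP_c8786f_co.W5
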