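import Pool.Agent.Lib.MP_c8786f_co.W5.ModelY2

/-!
Reducible blobs: the extension theorem inside an ambient model of large girth.
-/

namespace Pool.Agent.Lib.MP_c8786f_co.W5

open Finset

lemma my_map {V : Type} [Fintype V] [DecidableEq V] (B : Finset V) (Y : Finset B) :
    Y.map (Function.Embedding.subtype _) ⊆ B ∧
      B \ Y.map (Function.Embedding.subtype _) = Yᶜ.map (Function.Embedding.subtype _) := by
  refine ⟨fun v hv => ?_, ?_⟩
  · obtain ⟨u, -, rfl⟩ := mem_map.1 hv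
    exact u.2
  · ext v
    simp only [mem_sdiff, mem_map, mem_compl, Function.Embedding.coe_subtype]
    constructor
    · rintro ⟨h1, h2⟩
      exact ⟨⟨v, h1⟩, fun h => h2 ⟨_, h, rfl⟩, rfl⟩
    · rintro ⟨u, h1, rfl⟩
      refine ⟨u.2, ?_⟩
      rintro ⟨u', h2, h3⟩
      exact h1 (Subtype.ext h3 ▸ h2)

theorem modelY_of (hAB : AB3Stmt) (hF : Fix3Stmt) (hW : Windows3Stmt) (hP : Phases3Stmt)
    (hE : Emit3Stmt) (hG : GeoInst3Stmt) (hC : CutBStmt) : ModelYStmt := by
  intro k δ hk hδ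
  obtain ⟨j1, hj1⟩ := exists_pow_lt_of_lt_one (show 0 < δ / 16 by positivity)
    (show (3 / 4 : ℝ) < 1 by norm_num)
  obtain ⟨j0, hj0, hj0'⟩ : ∃ j0 : ℕ, 1 ≤ j0 ∧ (3 / 4 : ℝ) ^ (2 * j0) ≤ δ / 16 :=
    ⟨j1 + 1, by omega, (pow_le_pow_of_le_one (by norm_num) (by norm_num) (by omega)).trans hj1.le⟩
  obtain ⟨M, hM⟩ := exists_nat_gt (2 * 6480 / (δ / 2 / 20))
  have hM0 : (0 : ℝ) < M := lt_trans (by positivity) hM
  have hM1 : 2 * 6480 / (M : ℝ) ≤ δ / 2 / 20 := by
    rw [div_lt_iff₀ (by positivity)] at hM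
    rw [div_le_iff₀ hM0]
    linarith
  have hM2 : 0 < M := by exact_mod_cast hM0
  obtain ⟨N, hN⟩ := exists_nat_gt (20 / δ)
  have hN0 : (0 : ℝ) < N := lt_trans (by positivity) hN
  have hN2 : 1 ≤ N := by exact_mod_cast hN0
  have hk0 : (1 : ℝ) ≤ k := by exact_mod_cast hk
  have hN1 : 2 / ((N : ℝ) * k) ≤ δ / 10 := by
    rw [div_lt_iff₀ hδ] at hN
    rw [div_le_iff₀ (by positivity)]
    nlinarith [mul_pos hN0 hδ]
  obtain ⟨A, hA, hAB⟩ := hAB (min (δ / 60) 1) (δ / 2 / 20) M (by positivity) (min_le_right _ _)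
    (by positivity) hM2
  obtain ⟨ρ, c, hρ0, hρ1, hc, hP⟩ := hP j0 hj0
  obtain ⟨T, R, hR1, hR2, hR3, hR4⟩ := mo_consts (show 0 < A + 20 / δ by positivity) hρ0 hρ1
    (half_pos hc) (M * 6480) (2 * j0)
  obtain ⟨D, hD⟩ : ∃ D, D = M * 6480 * (2 * T + 2) := ⟨_, rfl⟩
  rw [← hD] at hR3 hR4
  obtain ⟨L, hL⟩ : ∃ L, L = 96 * (D + 1) ^ 2 * 16 ^ R := ⟨_, rfl⟩
  have hR5 : (L : ℝ) * ρ ^ T ≤ c := by
    rw [hL]
    push_cast at hR4 ⊢
    linarith
  obtain ⟨α, hα⟩ : ∃ α : ℝ, α = (3 / 4) ^ (R - 1) := ⟨_, rfl⟩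
  rw [← hα] at hR3
  have hα0 : 0 < α := by rw [hα]; positivity
  have hD0 : (0 : ℝ) ≤ D := by positivity
  have hR0 : (0 : ℝ) ≤ R := by positivity
  have hP1 : (1 : ℝ) ≤ 2 * (D + R) + 1 := by linarith
  have hP7 : (1 : ℝ) ≤ (2 * (D + R) + 1) ^ 7 := one_le_pow₀ hP1
  have hα1 : α * A * (2 * (D + R) + 1) ^ 7 ≤ 1 := by
    refine le_trans ?_ hR3
    have : 0 < 20 / δ := by positivity
    gcongr
    linarith
  have hα2 : α ≤ δ / 20 := by
    have h1 : α * (20 / δ) * 1 ≤ α * (A + 20 / δ) * (2 * (D + R) + 1) ^ 7 := by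
      gcongr
      linarith
    have h2 : α * (20 / δ) ≤ 1 := by linarith
    rw [← mul_div_assoc, div_le_one hδ] at h2
    linarith
  obtain ⟨K1, hAB⟩ := hAB (2 * (D + R) + 1) α (L + D + R) (2 * L) ((4 * N + 2) * k) hP1
    (by positivity) (by nlinarith) hα1
  obtain ⟨D0, hD0'⟩ : ∃ D0, D0 = K1 + 2 * L + 2 * (D + R) + 8 * j0 + 2 := ⟨_, rfl⟩
  refine ⟨D0, fun Φ => ?_⟩
  obtain ⟨K2, hF⟩ := hF (2 * L) (4 * (2 * L) * ((4 * N + 2) * k)) k N Φ Φ (2 * α) hk hN2
    (by positivity)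
  refine ⟨K2 + Φ, fun V _ _ n m B hm hB x hx hxp => ?_⟩
  have hI := hB.inj
  obtain ⟨S, own, back, h, hav⟩ := hW D R V n m hm (hI.mono (by omega)) (Att n m B)
    fun a ha a' ha' w hw e => by
      obtain ⟨a1, l, a2⟩ := mem_filter.1 ha
      obtain ⟨a3, l', a4⟩ := mem_filter.1 ha'
      exact (hB.clean a a1 a' a3 l l' w a2 a4 (by omega) e).1
  rw [← hL] at h
  have hside := fun s hs => my_side hm (hav s hs)
  have hrt : ∀ s ∈ S, ∀ j ≤ D, ∀ w : List (Fin 3), w.length ≤ 2 * R →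
      act n m w ((n ^ j) s) ∉ Rt n m B := fun s hs j hj => my_avoid hm (hav s hs j hj)
  have hrt' : ∀ u, back u < D → ∀ w : List (Fin 3), w.length ≤ 2 * R →
      act n m w u ∉ Rt n m B := fun u hu w hw => by
    have := hrt _ (h.mem u) _ hu.le w hw
    rwa [h.eq] at this
  have hatt : ∀ u, back u < D → ∀ w : List (Fin 3), w.length ≤ 2 * R + 1 →
      act n m w u ∉ Att n m B := fun u hu w hw => by
    have := hav _ (h.mem u) _ hu.le w hw
    rwa [h.eq] at this
  obtain ⟨cU, yU, r, c1, y1, r0, r1, r2, r3, r4, r5, r6, r7⟩ := my_roots hm hB x hx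
  obtain ⟨χ, χ1, χ2, χ3, χ4⟩ := hP T D R L hR2 hR5 V n m hm (hI.mono (by omega)) S own back h
    (Rt n m B) yU cU y1 c1 (fun u hu u' hu' w hw => my_sparse hm hB hu hu' (by omega))
    fun s hs j hj w hw => hrt s hs j hj w (by omega)
  have htree : TreeInj n m ((univ.filter fun v => back v < D) ∪ Rt n m B) R := by
    have key : ∀ {u u' : V} {w w' : List (Fin 3)}, act n m w u = act n m w' u' →
        act n m ((w'.map inv).reverse ++ w) u = u' := fun e => by rw [act_append, e, my_undo hm]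
    intro u hu u' hu' w w' hw hw' h1 h2 e
    rcases mem_union.1 hu with hu | hu <;> rcases mem_union.1 hu' with hu' | hu'
    · exact h.tree hI (by omega) u hu u' hu' w w' hw hw' h1 h2 e
    · exact absurd (key e ▸ hu') (hrt' u (mem_filter.1 hu).2 _ (by simp; omega))
    · exact absurd (key e.symm ▸ hu) (hrt' u' (mem_filter.1 hu').2 _ (by simp; omega))
    · obtain rfl := my_sparse hm hB hu hu' (by simp; omega) (key e)
      exact ⟨rfl, hI u w w' hw.1 hw'.1 (by omega) e⟩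
  obtain ⟨β, β1, β2, β3, β4, hE⟩ := hE j0 R V n m _ hR1 hm htree
  rw [← hα] at β4
  have hDK : D < D0 := by omega
  obtain ⟨Λ, own', F, hG⟩ := hG D R L α V n m hm B S own back h
    (fun s hs j hj w hw e l => by
      by_contra e'
      exact hav s hs j hj w (by omega) (mem_filter.2 ⟨e, l, e'⟩))
    (fun a ha e j hj => my_run hB ha e j (by omega)) β β1 β2
    (fun u v e => (β3 u v e).imp fun _ e => e.2)
    fun s hs x hx => β4 _ (mem_union_left _ (by simpa [(h.pow hI hDK hs x hx.le).2] using hx))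
  obtain ⟨m0, kap, m1, m2, p2, hloc⟩ := my_local h hI (by omega) χ1 χ2 hR2 χ3 hD hM0 hM1
  obtain ⟨hC1, hC2⟩ := hC V n m hm B
  have hsub : ∀ τ : (S ∩ B : Finset V), τ.1 ∈ S := fun τ => (mem_inter.1 τ.2).1
  have βB : ∀ u ∈ Rt n m B, ∀ v, v ∉ B → β u v = 0 := fun u hu v hv => by
    by_contra e
    obtain ⟨w, w1, w2, rfl⟩ := β3 u v e
    exact hv (my_stay hm hB hu w w1 (by rintro rfl; simp at w2; omega) (by omega))
  have σ1 : ∀ u, ∑ v : B, r u * β u v = r u := fun u => by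
    by_cases hu : u ∈ Rt n m B
    · rw [← mul_sum, sum_coe_sort B (β u),
        sum_subset (subset_univ B) fun v _ hv => βB u hu v hv, β2, mul_one]
    · simp [r0 u hu]
  have hcard : ∀ Y : Finset B, (Y.map (Function.Embedding.subtype _)).card = Y.card :=
    fun Y => card_map _
  have iso1 : ∀ Y : Finset B, Y.card ≤ K2 + Φ →
      Y.card ≤ 2 * icut n m B (Y.map (Function.Embedding.subtype _)) := fun Y hY =>
    hcard Y ▸ hB.iso1 _ (my_map B Y).1 (by rw [hcard]; exact hY)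
  have conn : ∀ Y : Finset B, Φ < Y.card → Φ < Yᶜ.card →
      k ≤ icut n m B (Y.map (Function.Embedding.subtype _)) := fun Y h1 h2 =>
    hB.conn _ (my_map B Y).1 (by rwa [hcard]) (by rwa [(my_map B Y).2, hcard])
  obtain ⟨z0, z1, z, Q, i, ρ', z2, z3, z4⟩ := hAB B (EB n m B) (S ∩ B : Finset V) (Fin D) _ _ _
    Λ own' F hG
    ⟨fun Y hY => (hcard Y ▸ hB.iso0 _ (my_map B Y).1 (by rw [hcard]; omega)).trans (hC1 Y).1,
      fun Y hY => by
      have h1 := (hC1 Y).1
      have h4 := (hC1 Yᶜ).1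
      rw [cut_compl] at h4
      by_cases h2 : Y.card ≤ K2 + Φ
      · exact Or.inl (card_eq_zero.1 (by have := iso1 Y h2; omega))
      by_cases h3 : Yᶜ.card ≤ K2 + Φ
      · exact Or.inr ((compl_eq_empty_iff Y).1 (card_eq_zero.1 (by have := iso1 _ h3; omega)))
      have := conn Y (by omega) (by omega)
      omega⟩
    (by rw [Fintype.card_fin]; linarith) m0 m1 m2 (fun v => -∑ u, r u * β u v) _
    (hF B (EB n m B) (S ∩ B : Finset V) (Fin D) _ _ _ Λ own' F α _ _
      (fun e => if e.1.2 then 1 else 2) hG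
      (fun Y hY => by
        have h1 := iso1 Y (by omega)
        obtain ⟨h2, -, h3⟩ := hC1 Y
        omega)
      (fun Y h1 h2 => by
        have h3 := conn Y h1 h2
        have h4 := (hC1 Y).2.2
        omega) m0 m1 m2 _
      (fun v => by
        rw [abs_neg]
        refine mul_le_mul_of_nonneg_left ?_ zero_le_two
        by_cases e : ∃ u ∈ Rt n m B, β u v ≠ 0
        · obtain ⟨u, hu, e⟩ := e
          obtain ⟨w, w1, w2, w3⟩ := β3 u v e
          rw [sum_eq_single u (fun u' _ hne => ?_) (by simp), abs_mul, abs_of_nonneg (β1 _ _)]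
          · have := mul_le_mul (r1 u).1 (β4 u (mem_union_right _ hu) v) (β1 _ _) zero_le_one
            linarith
          · by_cases hu' : u' ∈ Rt n m B
            · by_contra e'
              obtain ⟨w', w4, w5, w6⟩ := β3 u' v (right_ne_zero_of_mul e')
              exact hne (htree u' (mem_union_right _ hu') u (mem_union_right _ hu) w' w w4 w1
                w5.le w2.le (w6.trans w3.symm)).1
            · rw [r0 u' hu', zero_mul]
        · rw [sum_eq_zero fun u _ => ?_, abs_zero]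
          · exact hα0.le
          · by_cases hu : u ∈ Rt n m B
            · rw [not_not.1 fun e' => e ⟨u, hu, e'⟩, mul_zero]
            · rw [r0 u hu, zero_mul])
      (by
        refine le_trans ?_ r6
        simp only [abs_neg]
        refine (sum_le_sum fun v _ => abs_sum_le_sum_abs _ _).trans ?_
        rw [sum_comm]
        refine sum_le_sum fun u _ => ?_
        simp only [abs_mul, abs_of_nonneg (β1 _ _)]
        rw [← mul_sum, sum_coe_sort B (β u)]
        exact mul_le_of_le_one_right (abs_nonneg _) ((sum_le_sum_of_subset_of_nonneg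
          (subset_univ B) fun v _ _ => β1 u v).trans (β2 u).le)))
    (fun τ => if χ (n.symm τ.1) = χ τ.1 then 1 else 0) (fun τ => kap ⟨τ.1, hsub τ⟩)
    (by
      obtain ⟨j, hj⟩ := hxp
      obtain ⟨j', hj'⟩ := my_parity (B := B) χ1 χ2 fun v h1 h2 => by
        have := (hside _ h1 0 (Nat.zero_le _) [1] (by simp)).2 h2
        simpa using this
      refine ⟨j' - j, ?_⟩
      have e1 : ∑ u, ((if u ∈ B ∧ n u ∉ B then cU u / 2 else 0) +
          if u ∈ B ∧ n.symm u ∉ B then cU u / 2 else 0) =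
          ∑ u, ((if u ∈ B ∧ n u ∉ B then χ u / 2 else 0) +
            if u ∈ B ∧ n.symm u ∉ B then χ u / 2 else 0) := by
        refine sum_congr rfl fun u _ => ?_
        by_cases hu : u ∈ Rt n m B
        · rw [(χ4 u hu).1]
        · simp only [Rt, mem_filter, mem_univ, true_and] at hu
          rw [if_neg (by tauto), if_neg (by tauto), if_neg (by tauto), if_neg (by tauto)]
      rw [sum_neg_distrib, sum_comm]
      simp only [σ1]
      rw [r7, e1]
      push_cast at hj' ⊢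
      linarith)
    fun τ Q i hQ _ => p2 _ Q i hQ
  obtain ⟨b, kk, g, b1, b2, b3, b4, g2, hsum⟩ := hloc
    (fun s => if hs : s.1 ∈ B then Q ⟨s.1, mem_inter.2 ⟨s.2, hs⟩⟩ else
      if χ (n.symm s.1) = χ s.1 then 1 else 0)
    (fun s => if hs : s.1 ∈ B then i ⟨s.1, mem_inter.2 ⟨s.2, hs⟩⟩ else ⟨0, hM2⟩)
    (fun s => if hs : s.1 ∈ B then ρ' ⟨s.1, mem_inter.2 ⟨s.2, hs⟩⟩ else 0) fun s => by
      by_cases hs : s.1 ∈ B
      · simp only [dif_pos hs]
        exact z3 _
      · simp only [dif_neg hs]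
        refine ⟨by split_ifs <;> norm_num, by simp, by simp, ?_⟩
        simp only [Pi.zero_apply, abs_zero, sum_const_zero]
        positivity
  have hbU : ∀ u ∈ Rt n m B, D ≤ back u := fun u hu => by
    by_contra e
    exact hrt' u (by omega) [] (Nat.zero_le _) hu
  have kb : ∀ u, |kk u| ≤ 1 / 2 := fun u => by
    rcases b4 u with e | ⟨y, rfl | rfl, e, -⟩ <;> rw [e] <;> norm_num [abs_le]
  have kB : ∀ u ∈ B, |kk u + r u| ≤ 1 / 2 := fun u hu => by
    by_cases e : u ∈ Rt n m B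
    · rw [(b3 u (hbU u e)).2.2.1, zero_add]
      exact r2 u hu
    · rw [r0 u e, add_zero]
      exact kb u
  obtain ⟨gC, gM, e1, e2, e3, e4, e5⟩ := hE b (fun u => kk u + r u)
    (fun v => g v - g (n.symm v)) (δ / 10) b1
    (fun u hu => by
      rw [mem_union, not_or] at hu
      obtain ⟨-, -, a1, a2, a3⟩ := b3 u (by simpa using hu.1)
      exact ⟨by rw [a1, r0 u hu.2, add_zero], by rw [a2, a3, sub_zero]⟩)
    (fun u => (abs_sub _ _).trans (by linarith [g2 u, g2 (n.symm u)]))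
    fun u => by
      by_cases hu : u ∈ Rt n m B
      · refine Or.inr ⟨yU u, |r u|, y1 u, abs_nonneg _, (r1 u).1, ?_, fun w w1 w2 w3 w4 => ?_⟩
        · rw [(b3 u (hbU u hu)).2.2.1, zero_add]
          exact (r1 u).2
        · rw [(b3 _ ?_).1, (χ4 u hu).2 w w1 w2 w3 w4]
          by_contra e
          have := (htree u (mem_union_right _ hu) (act n m w u)
            (mem_union_left _ (by simpa using e)) w [] ⟨w1, Or.inr w3⟩
            ⟨List.IsChain.nil, Or.inl rfl⟩ (by omega) (Nat.zero_le _) rfl).2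
          rw [this] at w2
          simp at w2
      · rw [r0 u hu, add_zero]
        exact (b4 u).imp_right fun ⟨y, a1, a2, a3⟩ =>
          ⟨y, 1 / 2, a1, by norm_num, by norm_num, by rw [a2]; ring, a3⟩
  obtain ⟨G, hGd⟩ : ∃ G : V → ℝ, ∀ v, G v =
    (b v - b (n v)) / 4 + gC v + zx n m B (z0 + z) (v, false) - g v := ⟨_, fun _ => rfl⟩
  obtain ⟨H, hH⟩ : ∃ H : V → ℝ, ∀ v, H v =
    gM v + (zx n m B (z0 + z) (v, true) - zx n m B (z0 + z) (m v, true)) := ⟨_, fun _ => rfl⟩
  have hbal : ∀ v ∈ B, G v - G (n.symm v) + H v = b v + r v := fun v hv => by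
    have a1 := e5 v
    have a2 := b2 v
    have a3 := z4 ⟨v, hv⟩
    have a4 := hsum fun u => β u v
    have a5 : ∑ u, (kk u + r u + (g u - g (n.symm u))) * β u v =
        ∑ u, (kk u + (g u - g (n.symm u))) * β u v + ∑ u, r u * β u v := by
      rw [← sum_add_distrib]
      exact sum_congr rfl fun u _ => by ring
    rw [← Fintype.sum_of_injective (fun τ : (S ∩ B : Finset V) => (⟨τ.1, hsub τ⟩ : S))
      (fun τ τ' e => Subtype.ext (congrArg Subtype.val e :))
      (fun τ => ∑ x, (Q τ * m0 x - (∑ j, kap ⟨τ.1, hsub τ⟩ (Q τ) j x) / M +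
        kap ⟨τ.1, hsub τ⟩ (Q τ) (i τ) x + ρ' τ x) * β ((n ^ x.1) τ.1) v) _
      (fun s hs => sum_eq_zero fun x _ => mul_eq_zero_of_right _ (by
        by_contra e
        obtain ⟨w, -, w2, w3⟩ := β3 _ _ e
        exact hs ⟨⟨s.1, mem_inter.2 ⟨s.2, (hside s.1 s.2 x x.2.le w (by omega)).1 (w3 ▸ hv)⟩⟩,
          rfl⟩))
      (fun τ => by simp only [dif_pos (mem_inter.1 τ.2).2])] at a4
    rw [hC2] at a3
    simp only [hGd, hH, Equiv.apply_symm_apply]
    linarith
  have z5 : ∀ q, |zx n m B (z0 + z) q| ≤ (if q.2 then 1 else 2) / k + 3 * δ / 10 := fun q => by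
    unfold zx
    by_cases e1 : q.1 ∈ B ∧ (if q.2 then m q.1 else n q.1) ∈ B
    · have a1 := z1 ⟨q, e1⟩
      have a2 := z2 ⟨q, e1⟩
      have a3 := min_le_left (δ / 60) 1
      rw [dif_pos e1, Pi.add_apply]
      push_cast at a1
      exact (abs_add_le _ _).trans (by linarith)
    · rw [dif_neg e1, abs_zero]
      split_ifs <;> positivity
  have G1 : ∀ v, |G v| ≤ 1 / 2 + 2 / k + δ := fun v => by
    have a1 := abs_le.1 (e3 v)
    have a2 := abs_le.1 (z5 (v, false))
    have a3 := abs_le.1 (g2 v)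
    simp only [Bool.false_eq_true, if_false] at a2
    rw [hGd, abs_le]
    constructor <;> linarith
  have H1 : ∀ v ∈ B, m v ∈ B → |H v| ≤ 1 / 2 + 2 / k + δ := fun v h1 h2 => by
    have a1 := abs_le.1 (e2 v (kB v h1) (kB _ h2))
    have a2 := abs_le.1 (z5 (v, true))
    have a3 := abs_le.1 (z5 (m v, true))
    have a4 : (2 : ℝ) / k = 2 * (1 / k) := by ring
    simp only [if_true] at a2 a3
    rw [hH, abs_le]
    constructor <;> linarith
  have hU : ∀ v ∈ B, n v ∉ B ∨ n.symm v ∉ B → v ∈ Rt n m B := fun v h1 h2 =>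
    mem_filter.2 ⟨mem_univ _, Or.inl ⟨h1, h2⟩⟩
  have G2 : ∀ v ∈ B, n v ∉ B → x (v, 0) = G v - r v := fun v h1 h2 => by
    have a0 := hU v h1 (Or.inl h2)
    obtain ⟨a1, a2, -, a3, -⟩ := b3 v (hbU v a0)
    have a4 : zx n m B (z0 + z) (v, false) = 0 := dif_neg fun e => h2 e.2
    rw [hGd, a2, a3, a4, (e4 v (mem_union_right _ a0)).2.1, r3 v h1 h2, a1, (χ4 v a0).1]
    ring
  have G3 : ∀ v ∈ B, n.symm v ∉ B → x (v, 1) = -G (n.symm v) - r v := fun v h1 h2 => by
    have a0 := hU v h1 (Or.inr h2)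
    obtain ⟨a1, -, -, -, a3⟩ := b3 v (hbU v a0)
    have a2 := (b3 (n.symm v) (by
      by_contra e
      have a5 : v ∈ Att n m B := mem_filter.2 ⟨h1, 1, h2⟩
      exact hatt (n.symm v) (by omega) [0] (by simp) (by simpa using a5))).2.1
    have a4 : zx n m B (z0 + z) (n.symm v, false) = 0 := dif_neg fun e => h2 e.1
    rw [Equiv.apply_symm_apply] at a2
    rw [hGd, a3, a4, (e4 v (mem_union_right _ a0)).2.2, r4 v h1 h2, Equiv.apply_symm_apply,
      ← (χ4 v a0).1, ← a1]
    linarith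
  have H2 : ∀ v ∈ B, m v ∉ B → x (v, 2) = H v := fun v h1 h2 => by
    have a0 : m v ∈ Rt n m B := mem_filter.2 ⟨mem_univ _, Or.inr ⟨h2, by rwa [hm]⟩⟩
    obtain ⟨-, -, a1, a2, a3⟩ := b3 _ (hbU _ a0)
    have a4 : zx n m B (z0 + z) (v, true) = 0 := dif_neg fun e => h2 e.2
    have a5 : zx n m B (z0 + z) (m v, true) = 0 := dif_neg fun e => h2 e.1
    have a6 := (e4 _ (mem_union_right _ a0)).1
    rw [e1, a1, a2, a3, r5 v h1 h2] at a6
    rw [hH, a4, a5]
    linarith
  refine ⟨fun q => if step n m q.2 q.1 ∈ B then ![G q.1, -G (n.symm q.1), H q.1] q.2 else x q,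
    fun v hv => ⟨?_, fun l => ⟨fun e => if_neg e, fun e => ?_⟩⟩⟩
  · have a1 : (if m v ∈ B then H v else x (v, 2)) = H v := by
      split_ifs with e
      exacts [rfl, H2 v hv e]
    have a2 : (if n v ∈ B then G v else x (v, 0)) +
        (if n.symm v ∈ B then -G (n.symm v) else x (v, 1)) = G v - G (n.symm v) - r v := by
      split_ifs with e e' e'
      · rw [r0 v fun a => by simp [Rt, hv, e, e'] at a]
        ring
      · rw [G3 v hv e']
        ring
      · rw [G2 v hv e]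
        ring
      · have := (hB.clean _ hv _ hv 0 1 [] e e' (Nat.zero_le _) rfl).2
        exact absurd this (by decide)
    have a3 : ∑ l : Fin 3, (if step n m l v ∈ B then ![G v, -G (n.symm v), H v] l else x (v, l)) =
        b v := by
      rw [Fin.sum_univ_three]
      have := hbal v hv
      exact (congrArg₂ (· + ·) a2 a1).trans (by linarith)
    exact a3 ▸ b1 v
  · simp only [step_inv n hm, if_pos hv, if_pos e]
    fin_cases l
    · exact ⟨by simp, G1 v⟩
    · exact ⟨by simp, by simpa using G1 (n.symm v)⟩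
    · refine ⟨?_, H1 v hv e⟩
      show H (m v) = -H v
      rw [hH, hH, e1, hm]
      ring

end Pool.Agent.Lib.MP_c8786f_co.W5
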