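import Pool.Agent.Lib.MP_c8786f_co.W5.ModelY1

/-!
Reducible blobs: the roots at the boundary of the blob.
-/

namespace Pool.Agent.Lib.MP_c8786f_co.W5

open Finset

set_option linter.unusedSectionVars false

variable {V : Type} [Fintype V] [DecidableEq V] {n : Equiv.Perm V} {m : V → V} {B : Finset V}
  {k D Φ K : ℕ}

/-- the attachments -/
def Att (n : Equiv.Perm V) (m : V → V) (B : Finset V) : Finset V :=
  B.filter fun a => ∃ l, step n m l a ∉ B

/-- the roots -/
def Rt (n : Equiv.Perm V) (m : V → V) (B : Finset V) : Finset V :=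
  univ.filter fun u => (u ∈ B ∧ (n u ∉ B ∨ n.symm u ∉ B)) ∨ (u ∉ B ∧ m u ∈ B)

lemma my_undo (hm : ∀ v, m (m v) = v) (w : List (Fin 3)) (v : V) :
    act n m (w.map inv).reverse (act n m w v) = v := by
  induction w with
  | nil => rfl
  | cons a w ih => simp [act_append, step_inv n hm, ih]

lemma my_att (hm : ∀ v, m (m v) = v) {u : V} (hu : u ∈ Rt n m B) :
    ∃ a ∈ B, ∃ l, step n m l a ∉ B ∧ ((u = a ∧ l ≠ 2) ∨ (u = m a ∧ l = 2)) := by
  rcases (mem_filter.1 hu).2 with ⟨h1, h2 | h2⟩ | ⟨h1, h2⟩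
  · exact ⟨u, h1, 0, h2, Or.inl ⟨rfl, by decide⟩⟩
  · exact ⟨u, h1, 1, h2, Or.inl ⟨rfl, by decide⟩⟩
  · exact ⟨m u, h2, 2, by simpa [hm] using h1, Or.inr ⟨(hm u).symm, rfl⟩⟩

lemma my_sparse (hm : ∀ v, m (m v) = v) (hA : Amb n m B k D Φ K) {u u' : V} (hu : u ∈ Rt n m B)
    (hu' : u' ∈ Rt n m B) {w : List (Fin 3)} (hw : w.length + 2 ≤ D) (h : act n m w u = u') :
    u = u' := by
  obtain ⟨a, ha, l, h1, h2⟩ := my_att hm hu
  obtain ⟨a', ha', l', h1', h2'⟩ := my_att hm hu'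
  rcases h2 with ⟨rfl, h2⟩ | ⟨rfl, h2⟩ <;> rcases h2' with ⟨rfl, h2'⟩ | ⟨rfl, h2'⟩
  · exact (hA.clean _ ha _ ha' l l' w h1 h1' (by omega) h).1
  · have := (hA.clean _ ha _ ha' l l' (2 :: w) h1 h1' (by simp; omega) (by simp [h, hm])).2
    exact absurd (this.trans h2') h2
  · have := (hA.clean _ ha _ ha' l l' (w ++ [2]) h1 h1' (by simp; omega)
      (by simp [act_append, h])).2
    exact absurd (this.symm.trans h2) h2'
  · rw [(hA.clean _ ha _ ha' l l' (2 :: (w ++ [2])) h1 h1' (by simp; omega)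
      (by simp [act_append, h, hm])).1]

lemma my_avoid (hm : ∀ v, m (m v) = v) {z : V} {r : ℕ}
    (h : ∀ w : List (Fin 3), w.length ≤ r + 1 → act n m w z ∉ Att n m B) (w : List (Fin 3))
    (hw : w.length ≤ r) : act n m w z ∉ Rt n m B := by
  intro hu
  obtain ⟨a, ha, l, h1, ⟨h2, -⟩ | ⟨h2, -⟩⟩ := my_att hm hu
  · exact h w (by omega) (h2 ▸ mem_filter.2 ⟨ha, l, h1⟩)
  · refine h (2 :: w) (by simpa using hw) ?_
    simp only [act_cons, step_two, h2, hm]
    exact mem_filter.2 ⟨ha, l, h1⟩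

lemma my_stay (hm : ∀ v, m (m v) = v) (hA : Amb n m B k D Φ K) {u : V} (hu : u ∈ Rt n m B) :
    ∀ w : List (Fin 3), Em w → w ≠ [] → w.length + 1 ≤ D → act n m w u ∈ B := by
  obtain ⟨a, ha, l, h1, h2⟩ := my_att hm hu
  intro w
  induction w with
  | nil => exact fun _ h => absurd rfl h
  | cons c w ih =>
    intro hw _ hl
    simp only [List.length_cons] at hl
    rcases w with _ | ⟨c', w⟩
    · have hc : c = 2 := by simpa using hw.2
      subst hc
      rcases h2 with ⟨rfl, h2⟩ | ⟨rfl, h2⟩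
      · by_contra h3
        exact h2 (hA.clean _ ha _ ha l 2 [] h1 h3 (Nat.zero_le _) rfl).2
      · simpa [hm] using ha
    · have hr : Red (c' :: w) := hw.1.tail
      have h3 := ih ⟨hr, Or.inr (by simpa using hw.2)⟩ (by simp) (by omega)
      by_contra h4
      rcases h2 with ⟨rfl, h2⟩ | ⟨rfl, h2⟩
      · have h5 := (hA.clean _ ha _ h3 l c (c' :: w) h1 h4 (by omega) rfl).1
        have := hA.inj u (c' :: w) [] hr List.IsChain.nil (by simp at hl ⊢; omega) h5.symm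
        simp at this
      · obtain ⟨h5, h6⟩ := hA.clean _ ha _ h3 l c (c' :: w ++ [2]) h1 h4
          (by simp at hl ⊢; omega) (by rw [act_append]; rfl)
        have := hA.inj (m a) (c' :: w) [2] hr (List.IsChain.singleton _)
          (by simp at hl ⊢; omega) (by rw [← h5]; simp [hm])
        have h7 := hw.1
        rw [this, ← h6, h2] at h7
        revert h7
        simp [Red]

lemma my_side (hm : ∀ v, m (m v) = v) {s : V} {d r : ℕ}
    (h : ∀ j ≤ d, ∀ w : List (Fin 3), w.length ≤ r → act n m w ((n ^ j) s) ∉ Att n m B) :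
    ∀ j ≤ d, ∀ w : List (Fin 3), w.length ≤ r → (act n m w ((n ^ j) s) ∈ B ↔ s ∈ B) := by
  have key : ∀ v l, v ∉ Att n m B → step n m l v ∉ Att n m B → (step n m l v ∈ B ↔ v ∈ B) := by
    intro v l h1 h2
    constructor
    · intro h3
      by_contra h4
      exact h2 (mem_filter.2 ⟨h3, inv l, by rwa [step_inv n hm]⟩)
    · intro h3
      by_contra h4
      exact h1 (mem_filter.2 ⟨h3, l, h4⟩)
  have h0 : ∀ j ≤ d, ((n ^ j) s ∈ B ↔ s ∈ B) := by
    intro j
    induction j with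
    | zero => exact fun _ => Iff.rfl
    | succ j ih =>
      intro hj
      have h1 := h (j + 1) hj [] (Nat.zero_le _)
      rw [pow_succ', Equiv.Perm.mul_apply] at h1 ⊢
      exact (key _ 0 (h j (by omega) [] (Nat.zero_le _)) h1).trans (ih (by omega))
  intro j hj w
  induction w with
  | nil => exact fun _ => h0 j hj
  | cons a w ih =>
    intro hw
    simp only [List.length_cons] at hw
    exact (key _ a (h j hj w (by omega)) (h j hj (a :: w) hw)).trans (ih (by omega))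

lemma my_run (hA : Amb n m B k D Φ K) {a : V} (ha : a ∈ B) (h : n.symm a ∉ B) :
    ∀ j ≤ D, (n ^ j) a ∈ B := by
  intro j
  induction j with
  | zero => exact fun _ => ha
  | succ j ih =>
    intro hj
    by_contra h1
    rw [pow_succ', Equiv.Perm.mul_apply] at h1
    have := (hA.clean _ ha _ (ih (by omega)) 1 0 (List.replicate j 0) h h1 (by simp; omega)
      (act_replicate n m j a)).2
    revert this
    decide

lemma my_even {ι : Type} (s : Finset ι) (f : ι → ℝ) (h : ∀ i, ∃ j : ℤ, f i = 2 * j) :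
    ∃ j : ℤ, ∑ i ∈ s, f i = 2 * j := by
  choose j hj using h
  exact ⟨∑ i ∈ s, j i, by simp [hj, mul_sum]⟩

lemma my_parity {S : Finset V} {χ : V → ℝ} (h1 : ∀ v, χ v = 1 ∨ χ v = -1)
    (h2 : ∀ v, n v ∉ S → χ (n v) = -χ v) (h3 : ∀ v, n v ∈ S → n v ∈ B → v ∈ B) :
    ∃ j : ℤ, ∑ τ : (S ∩ B : Finset V), (((if χ (n.symm τ.1) = χ τ.1 then 1 else 0 : ℤ)) : ℝ) +
      ∑ u, ((if u ∈ B ∧ n u ∉ B then χ u / 2 else 0) +
        if u ∈ B ∧ n.symm u ∉ B then χ u / 2 else 0) - B.card = 2 * j := by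
  obtain ⟨j, hj⟩ := my_even univ (fun v => (if n v ∈ S ∩ B then if χ v = χ (n v) then (1 : ℝ)
    else 0 else 0) + (if v ∈ B then χ v - 1 else 0) - ((if v ∈ B ∧ n v ∈ B then χ v / 2 else 0) +
      if n v ∈ B ∧ v ∈ B then χ (n v) / 2 else 0)) fun v => by
    by_cases a1 : v ∈ B
    · have b0 : ∃ j : ℤ, χ v - 1 = 2 * j := by
        rcases h1 v with b1 | b1 <;> rw [b1]
        exacts [⟨0, by norm_num⟩, ⟨-1, by norm_num⟩]
      by_cases a2 : n v ∈ B
      · by_cases a3 : χ v = χ (n v)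
        · have a4 : n v ∈ S := by
            by_contra h
            have := h2 v h
            rcases h1 v with b1 | b1 <;> linarith
          exact ⟨0, by simp [a1, a2, a4, ← a3]⟩
        · have a4 : χ (n v) = -χ v := by
            rcases h1 v with b1 | b1 <;> rcases h1 (n v) with b2 | b2 <;> rw [b1, b2] at a3 ⊢ <;>
              first | exact absurd rfl a3 | norm_num
          obtain ⟨j, hj⟩ := b0
          refine ⟨j, ?_⟩
          rw [if_neg a3, a4, ← hj]
          simp [a1, a2]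
          ring
      · simpa [a1, a2] using b0
    · refine ⟨0, ?_⟩
      rw [if_neg fun h => a1 (h3 v (mem_inter.1 h).1 (mem_inter.1 h).2)]
      simp [a1]
  refine ⟨j, hj ▸ ?_⟩
  have e1 := Equiv.sum_comp n fun s =>
    if s ∈ S ∩ B then if χ (n.symm s) = χ s then (1 : ℝ) else 0 else 0
  have e2 := Equiv.sum_comp n fun u => if u ∈ B ∧ n.symm u ∈ B then χ u / 2 else 0
  simp only [Equiv.symm_apply_apply] at e1 e2
  have e3 : (B.card : ℝ) = ∑ v, if v ∈ B then 1 else 0 := by simp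
  have e4 : ∑ v, (((if v ∈ B ∧ n v ∉ B then χ v / 2 else 0) +
      if v ∈ B ∧ n.symm v ∉ B then χ v / 2 else 0) - if v ∈ B then 1 else 0) =
      ∑ v, ((if v ∈ B then χ v - 1 else 0) - ((if v ∈ B ∧ n v ∈ B then χ v / 2 else 0) +
        if v ∈ B ∧ n.symm v ∈ B then χ v / 2 else 0)) := by
    refine sum_congr rfl fun v _ => ?_
    by_cases a1 : v ∈ B <;> by_cases a2 : n v ∈ B <;> by_cases a3 : n.symm v ∈ B <;>
      simp [a1, a2, a3] <;> ring
  have e5 : ∑ s, (if s ∈ S ∩ B then if χ (n.symm s) = χ s then (1 : ℝ) else 0 else 0) =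
      ∑ s ∈ S ∩ B, if χ (n.symm s) = χ s then (1 : ℝ) else 0 := by
    rw [sum_ite_mem, univ_inter]
  push_cast
  rw [sum_coe_sort (S ∩ B) fun s => if χ (n.symm s) = χ s then (1 : ℝ) else 0]
  simp only [sum_sub_distrib, sum_add_distrib] at e4 ⊢
  linarith

lemma my_darts (hm : ∀ v, m (m v) = v) (f : V × Fin 3 → ℝ) :
    ∑ q with q.1 ∈ B ∧ step n m q.2 q.1 ∉ B, f q =
      ∑ u, ((if u ∈ B ∧ n u ∉ B then f (u, 0) else 0) +
        (if u ∈ B ∧ n.symm u ∉ B then f (u, 1) else 0) +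
        if u ∉ B ∧ m u ∈ B then f (m u, 2) else 0) := by
  have e := Equiv.sum_comp (Function.Involutive.toPerm m hm)
    fun u => if u ∈ B ∧ m u ∉ B then f (u, 2) else 0
  simp only [Function.Involutive.coe_toPerm, hm] at e
  rw [sum_filter, Fintype.sum_prod_type, sum_add_distrib]
  simp only [and_comm (a := _ ∉ B)]
  rw [e, ← sum_add_distrib]
  exact sum_congr rfl fun v _ => Fin.sum_univ_three _

lemma my_roots (hm : ∀ v, m (m v) = v) (hA : Amb n m B k D Φ K) (x : V × Fin 3 → ℝ)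
    (hx : ∀ q, |x q| ≤ 1) : ∃ c y r : V → ℝ, (∀ u, c u = 1 ∨ c u = -1) ∧
      (∀ u, y u = 1 ∨ y u = -1) ∧ (∀ u, u ∉ Rt n m B → r u = 0) ∧
      (∀ u, |r u| ≤ 1 ∧ r u = y u * |r u|) ∧ (∀ u ∈ B, |r u| ≤ 1 / 2) ∧
      (∀ u ∈ B, n u ∉ B → r u = c u / 2 - x (u, 0)) ∧
      (∀ u ∈ B, n.symm u ∉ B → r u = c u / 2 - x (u, 1)) ∧
      (∀ u ∈ B, m u ∉ B → r (m u) = -x (u, 2)) ∧ ∑ u, |r u| ≤ Φ ∧
      ∑ u, r u = ∑ u, ((if u ∈ B ∧ n u ∉ B then c u / 2 else 0) +
        if u ∈ B ∧ n.symm u ∉ B then c u / 2 else 0) -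
        ∑ q with q.1 ∈ B ∧ step n m q.2 q.1 ∉ B, x q := by
  set sg : ℝ → ℝ := fun t => if 0 ≤ t then 1 else -1 with hsg
  have s1 : ∀ t, sg t = 1 ∨ sg t = -1 := fun t => by simp only [hsg]; split_ifs <;> simp
  have s2 : ∀ t, t = sg t * |t| := fun t => by
    simp only [hsg]
    split_ifs with h
    · rw [abs_of_nonneg h, one_mul]
    · rw [abs_of_neg (not_le.1 h)]
      ring
  have s3 : ∀ q, |sg (x q) / 2 - x q| ≤ 1 / 2 := fun q => by
    have := abs_le.1 (hx q)
    simp only [hsg]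
    rw [abs_le]
    split_ifs with h <;> constructor <;> linarith
  have ex : ∀ u ∈ B, n u ∉ B → n.symm u ∈ B := fun u hu h => by
    by_contra h'
    have := (hA.clean _ hu _ hu 0 1 [] h h' (Nat.zero_le _) rfl).2
    revert this
    decide
  set c : V → ℝ := fun u => if n u ∈ B then sg (x (u, 1)) else sg (x (u, 0)) with hc
  set r : V → ℝ := fun u => (if u ∈ B ∧ n u ∉ B then c u / 2 - x (u, 0) else 0) +
    (if u ∈ B ∧ n.symm u ∉ B then c u / 2 - x (u, 1) else 0) +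
    if u ∉ B ∧ m u ∈ B then -x (m u, 2) else 0 with hr
  have r1 : ∀ u, |r u| ≤ (if u ∈ B ∧ n u ∉ B then 1 / 2 else 0) +
      (if u ∈ B ∧ n.symm u ∉ B then 1 / 2 else 0) + if u ∉ B ∧ m u ∈ B then 1 else 0 := by
    intro u
    by_cases a1 : u ∈ B
    · by_cases a2 : n u ∈ B
      · by_cases a3 : n.symm u ∈ B
        · simp [hr, a1, a2, a3]
        · simpa [hr, hc, a1, a2, a3] using s3 (u, 1)
      · simpa [hr, hc, a1, a2, ex u a1 a2] using s3 (u, 0)
    · by_cases a4 : m u ∈ B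
      · simpa [hr, a1, a4] using hx (m u, 2)
      · simp [hr, a1, a4]
  have r2 : ∀ u ∈ B, |r u| ≤ 1 / 2 := fun u a1 => by
    refine (r1 u).trans ?_
    by_cases a2 : n u ∈ B
    · by_cases a3 : n.symm u ∈ B <;> simp [a1, a2, a3]
    · simp [a1, a2, ex u a1 a2]
  refine ⟨c, fun u => sg (r u), r, fun u => ?_, fun u => s1 _, fun u hu => ?_,
    fun u => ⟨?_, s2 _⟩, r2, fun u a1 a2 => ?_, fun u a1 a2 => ?_, fun u a1 a2 => ?_, ?_, ?_⟩
  · simp only [hc]
    split_ifs <;> exact s1 _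
  · simp only [Rt, mem_filter, mem_univ, true_and] at hu
    simp only [hr]
    rw [if_neg (by tauto), if_neg (by tauto), if_neg (by tauto)]
    simp
  · by_cases a1 : u ∈ B
    · linarith [r2 u a1]
    · refine (r1 u).trans ?_
      by_cases a2 : m u ∈ B <;> simp [a1, a2]
  · simp [hr, a1, a2, ex u a1 a2]
  · have a3 : n u ∈ B := by
      by_contra h
      exact a2 (ex u a1 h)
    simp [hr, a1, a2, a3]
  · simp [hr, a1, a2, hm]
  · have e := my_darts (n := n) (B := B) hm fun _ => (1 : ℝ)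
    have e2 : ((hcut n m B : ℕ) : ℝ) ≤ Φ := by exact_mod_cast hA.few
    rw [sum_const, nsmul_eq_mul, mul_one] at e
    refine (sum_le_sum fun u _ => (r1 u).trans ?_).trans (e.symm.trans_le e2)
    refine add_le_add (add_le_add ?_ ?_) le_rfl <;> split_ifs <;> norm_num
  · rw [my_darts hm, ← sum_sub_distrib]
    refine sum_congr rfl fun u _ => ?_
    simp only [hr]
    split_ifs <;> ring

end Pool.Agent.Lib.MP_c8786f_co.W5
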