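import Pool.Agent.Lib.MP_c8786f_co.W5.Defs
import Pool.Agent.Shared.CountingLLL

/-!
Random phases: every slot of every window contains a pair of good roots of each sign and parity.
-/

namespace Pool.Agent.Lib.MP_c8786f_co.W5

open Finset

section Count

variable {V : Type} [Fintype V] [DecidableEq V]

lemma ph_half (P : (V → Bool) → Prop) [DecidablePred P] (v : V) (b : Bool)
    (hP : ∀ φ c, P φ → P (Function.update φ v c)) :
    ((univ.filter fun φ => P φ ∧ φ v = b).card : ℝ) = (univ.filter P).card / 2 := by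
  have h1 : (univ.filter fun φ => P φ ∧ φ v = b).card =
      (univ.filter fun φ => P φ ∧ ¬ φ v = b).card := by
    refine card_nbij' (fun φ => Function.update φ v (!φ v))
      (fun φ => Function.update φ v (!φ v)) ?_ ?_ ?_ ?_
    · intro φ hφ
      simp only [coe_filter, mem_univ, true_and, Set.mem_ofPred_eq] at hφ ⊢
      refine ⟨hP _ _ hφ.1, ?_⟩
      rw [Function.update_self, hφ.2]
      cases b <;> simp
    · intro φ hφ
      simp only [coe_filter, mem_univ, true_and, Set.mem_ofPred_eq] at hφ ⊢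
      refine ⟨hP _ _ hφ.1, ?_⟩
      rw [Function.update_self]
      have := hφ.2
      revert this
      cases b <;> cases φ v <;> simp
    · intro φ _
      simp
    · intro φ _
      simp
  have h2 := card_filter_add_card_filter_not (s := univ.filter P) (fun φ => φ v = b)
  rw [filter_filter, filter_filter, ← h1] at h2
  have h3 : ((univ.filter P).card : ℝ) =
      (univ.filter fun φ => P φ ∧ φ v = b).card + (univ.filter fun φ => P φ ∧ φ v = b).card := by
    exact_mod_cast h2.symm
  linarith

lemma ph_fix {W : Type} [DecidableEq W] (g : W → V) (hg : Function.Injective g) (tg : W → Bool)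
    (A : Finset W) :
    ((univ.filter fun φ : V → Bool => ∀ w ∈ A, φ (g w) = tg w).card : ℝ) =
      (1 / 2) ^ A.card * Fintype.card (V → Bool) := by
  induction A using Finset.induction_on with
  | empty => simp
  | insert w A hw ih =>
    have h1 := ph_half (fun φ : V → Bool => ∀ w ∈ A, φ (g w) = tg w) (g w) (tg w) (by
      intro φ c hφ w' hw'
      rw [Function.update_of_ne]
      · exact hφ w' hw'
      · intro h
        exact hw (hg h ▸ hw'))
    have h2 : (univ.filter fun φ : V → Bool => ∀ w' ∈ insert w A, φ (g w') = tg w') =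
        univ.filter fun φ : V → Bool => (∀ w ∈ A, φ (g w) = tg w) ∧ φ (g w) = tg w := by
      ext φ
      simp only [mem_filter, mem_univ, true_and, forall_mem_insert]
      tauto
    rw [h2, h1, ih, card_insert_of_notMem hw]
    ring

lemma ph_blocks {κ W : Type} [DecidableEq κ] [Fintype W] [DecidableEq W] (g : κ × W → V)
    (hg : Function.Injective g) (tg : κ × W → Bool) (A : Finset κ) :
    ((univ.filter fun φ : V → Bool => ∀ k ∈ A, ¬ ∀ w, φ (g (k, w)) = tg (k, w)).card : ℝ) =
      (1 - (1 / 2) ^ Fintype.card W) ^ A.card * Fintype.card (V → Bool) := by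
  induction A using Finset.induction_on with
  | empty => simp
  | insert k A hk ih =>
    have hN : (0 : ℝ) < Fintype.card (V → Bool) := by exact_mod_cast Fintype.card_pos
    have h0 := Pool.Agent.Shared.CountingLLL.card_inter_mul (univ.image fun w => g (k, w))
      (univ.filter fun φ : V → Bool => ∀ k ∈ A, ¬ ∀ w, φ (g (k, w)) = tg (k, w))
      (univ.filter fun φ : V → Bool => ¬ ∀ w, φ (g (k, w)) = tg (k, w)) (by
        intro φ ψ h hφ
        simp only [mem_filter, mem_univ, true_and] at hφ ⊢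
        intro k' hk' h'
        refine hφ k' hk' fun w => ?_
        rw [h _ ?_]
        · exact h' w
        · intro hm
          obtain ⟨w', -, hw'⟩ := mem_image.1 hm
          have := congrArg Prod.fst (hg hw')
          simp only at this
          exact hk (this ▸ hk')) (by
        intro φ ψ h hφ
        simp only [mem_filter, mem_univ, true_and] at hφ ⊢
        intro h'
        refine hφ fun w => ?_
        rw [h _ (mem_image.2 ⟨w, mem_univ _, rfl⟩)]
        exact h' w)
    have h1 := ph_fix (fun w => g (k, w))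
      (fun w w' h => by simpa using hg h) (fun w => tg (k, w)) univ
    have h2 := card_filter_add_card_filter_not (s := (univ : Finset (V → Bool)))
      (fun φ => ∀ w, φ (g (k, w)) = tg (k, w))
    have h3 : ((univ.filter fun φ : V → Bool => ¬ ∀ w, φ (g (k, w)) = tg (k, w)).card : ℝ) =
        (1 - (1 / 2) ^ Fintype.card W) * Fintype.card (V → Bool) := by
      have h4 : ((univ.filter fun φ : V → Bool => ∀ w, φ (g (k, w)) = tg (k, w)).card : ℝ) +
          (univ.filter fun φ : V → Bool => ¬ ∀ w, φ (g (k, w)) = tg (k, w)).card =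
          Fintype.card (V → Bool) := by
        rw [← card_univ]
        exact_mod_cast h2
      simp only [mem_univ, true_imp_iff, card_univ] at h1
      rw [h1] at h4
      linarith
    have h5 : (univ.filter fun φ : V → Bool =>
        ∀ k' ∈ insert k A, ¬ ∀ w, φ (g (k', w)) = tg (k', w)) =
        (univ.filter fun φ : V → Bool => ∀ k ∈ A, ¬ ∀ w, φ (g (k, w)) = tg (k, w)) ∩
        (univ.filter fun φ : V → Bool => ¬ ∀ w, φ (g (k, w)) = tg (k, w)) := by
      ext φ
      simp only [mem_filter, mem_univ, true_and, forall_mem_insert, mem_inter]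
      tauto
    rw [h5, card_insert_of_notMem hk]
    apply mul_right_cancel₀ hN.ne'
    have h6 := congrArg (Nat.cast : ℕ → ℝ) h0
    rw [Nat.cast_mul, Nat.cast_mul] at h6
    rw [h6, ih, h3]
    ring

lemma ph_lll {ι W : Type} [Fintype W] [DecidableEq W] [Nonempty W] (T : ℕ) (hT : 0 < T)
    (s : Finset ι) (g : ι → Fin T × W → V) (hg : ∀ i ∈ s, Function.Injective (g i))
    (tg : ι → Fin T × W → Bool) (γ : ℝ) (hγ0 : 0 < γ) (hγ1 : γ ≤ 1) (Δ : ℕ)
    (hΔ : ∀ v, (s.filter fun i => v ∈ univ.image (g i)).card ≤ Δ)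
    (h : Δ * ((1 - (1 / 2) ^ Fintype.card W) / γ ^ Fintype.card W) ^ T ≤ 1 - γ) :
    ∃ φ : V → Bool, ∀ i ∈ s, ∃ k, ∀ w, φ (g i (k, w)) = tg i (k, w) := by
  have ha : (0 : ℝ) ≤ 1 - (1 / 2) ^ Fintype.card W := by
    have : ((1 : ℝ) / 2) ^ Fintype.card W ≤ 1 := pow_le_one₀ (by norm_num) (by norm_num)
    linarith
  obtain ⟨φ, hφ⟩ := Pool.Agent.Shared.CountingLLL.exists_avoid s (fun i => univ.image (g i))
    (fun i => univ.filter fun φ : V → Bool =>
      ∀ k ∈ (univ : Finset (Fin T)), ¬ ∀ w, φ (g i (k, w)) = tg i (k, w))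
    (fun i _ => ⟨g i (⟨0, hT⟩, Classical.arbitrary W), mem_image.2 ⟨_, mem_univ _, rfl⟩⟩)
    (by
      intro i _ φ ψ h hφ
      simp only [mem_filter, mem_univ, true_and] at hφ ⊢
      intro k hk h'
      refine hφ k hk fun w => ?_
      rw [h _ (mem_image.2 ⟨_, mem_univ _, rfl⟩)]
      exact h' w)
    (fun _ => (1 - (1 / 2) ^ Fintype.card W) ^ T) (fun _ _ => pow_nonneg ha _)
    (by
      intro i hi
      have h1 := ph_blocks (g i) (hg i hi) (tg i) univ
      rw [card_univ, Fintype.card_fin] at h1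
      apply le_of_eq
      convert h1)
    γ hγ0 hγ1
    (by
      intro v
      refine le_trans ?_ h
      have h1 : ∀ i ∈ s, (if v ∈ univ.image (g i) then
          (1 - (1 / 2 : ℝ) ^ Fintype.card W) ^ T / γ ^ (univ.image (g i)).card else 0) =
          if v ∈ univ.image (g i) then
            ((1 - (1 / 2) ^ Fintype.card W) / γ ^ Fintype.card W) ^ T else 0 := by
        intro i hi
        rw [card_image_of_injective _ (hg i hi), card_univ, Fintype.card_prod, Fintype.card_fin,
          div_pow _ (γ ^ Fintype.card W), ← pow_mul, mul_comm]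
      rw [sum_congr rfl h1, ← sum_filter, sum_const, nsmul_eq_mul]
      refine mul_le_mul_of_nonneg_right ?_ (pow_nonneg (div_nonneg ha (by positivity)) _)
      exact_mod_cast hΔ v)
  refine ⟨φ, fun i hi => ?_⟩
  have := hφ i hi
  simp only [mem_filter, mem_univ, true_and, true_imp_iff, not_forall] at this
  obtain ⟨k, hk⟩ := this
  exact ⟨k, by simpa using hk⟩

end Count

lemma ph_gamma (N : ℕ) (hN : 0 < N) : ∃ γ : ℝ, 0 < γ ∧ γ < 1 ∧
    0 < (1 - (1 / 2) ^ N) / γ ^ N ∧ (1 - (1 / 2) ^ N) / γ ^ N < 1 := by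
  have hN' : (1 : ℝ) ≤ N := by exact_mod_cast hN
  have ha0 : (0 : ℝ) < (1 / 2) ^ N := by positivity
  have ha1 : ((1 : ℝ) / 2) ^ N < 1 := pow_lt_one₀ (by norm_num) (by norm_num) hN.ne'
  set a : ℝ := (1 / 2) ^ N
  have h1 : 0 < a / (2 * N) := by positivity
  have h2 : a / (2 * N) ≤ 1 / 2 := by
    rw [div_le_iff₀ (by positivity)]
    linarith
  have h3 := one_add_mul_le_pow (a := -(a / (2 * N))) (by linarith) N
  have h4 : (N : ℝ) * -(a / (2 * N)) = -(a / 2) := by field_simp
  rw [h4, ← sub_eq_add_neg, ← sub_eq_add_neg] at h3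
  have h5 : 0 < (1 - a / (2 * N)) ^ N := by linarith
  refine ⟨1 - a / (2 * N), by linarith, by linarith, div_pos (by linarith) h5, ?_⟩
  rw [div_lt_one h5]
  linarith

lemma ph_rep : ∀ (x x' : ℕ) (l l' : List (Fin 3)), l.head? = some 2 → l'.head? = some 2 →
    List.replicate x 0 ++ l = List.replicate x' 0 ++ l' → x = x' ∧ l = l'
  | 0, 0, l, l', _, _, h => ⟨rfl, by simpa using h⟩
  | 0, x' + 1, l, l', h1, _, h => by
    rw [List.replicate_zero, List.nil_append] at h
    rw [h, List.replicate_succ] at h1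
    simp at h1
  | x + 1, 0, l, l', _, h2, h => by
    rw [List.replicate_zero, List.nil_append] at h
    rw [← h, List.replicate_succ] at h2
    simp at h2
  | x + 1, x' + 1, l, l', h1, h2, h => by
    rw [List.replicate_succ, List.replicate_succ, List.cons_append, List.cons_append] at h
    obtain ⟨h3, h4⟩ := ph_rep x x' l l' h1 h2 (List.cons.inj h).2
    exact ⟨by omega, h4⟩

lemma ph_rep' (x x' : ℕ) (l l' : List (Fin 3)) (h1 : l.getLast? = some 2)
    (h2 : l'.getLast? = some 2) (h : l ++ List.replicate x 0 = l' ++ List.replicate x' 0) :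
    x = x' ∧ l = l' := by
  have h3 := congrArg List.reverse h
  rw [List.reverse_append, List.reverse_append, List.reverse_replicate,
    List.reverse_replicate] at h3
  obtain ⟨h4, h5⟩ := ph_rep x x' _ _ (by rwa [List.head?_reverse])
    (by rwa [List.head?_reverse]) h3
  exact ⟨h4, List.reverse_injective h5⟩

lemma ph_red_rep (k : ℕ) : Red (List.replicate k 0) := by
  unfold Red
  exact List.isChain_replicate_of_rel k (by decide)

lemma ph_red (k x : ℕ) (w : List (Fin 3)) (hw : Red w) (h1 : w.head? = some 2)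
    (h2 : w.getLast? = some 2) : Red (List.replicate k 0 ++ (w ++ List.replicate x 0)) := by
  have hne : w ≠ [] := by
    rintro rfl
    simp at h1
  refine List.IsChain.append (ph_red_rep k) (List.IsChain.append hw (ph_red_rep x) ?_) ?_
  · intro a ha b hb
    rw [h2] at ha
    have hb' := List.eq_of_mem_replicate (List.mem_of_mem_head? hb)
    simp only [Option.mem_def, Option.some.injEq] at ha
    subst ha hb'
    decide
  · intro a ha b hb
    rw [List.head?_append_of_ne_nil _ hne, h1] at hb
    have ha' := List.eq_of_mem_replicate (List.mem_of_mem_getLast? ha)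
    simp only [Option.mem_def, Option.some.injEq] at hb
    subst hb ha'
    decide

/-- the pattern words -/
def phPat (j0 : ℕ) (w : List (Fin 3)) : Prop :=
  Red w ∧ w.head? = some 2 ∧ w.getLast? = some 2 ∧ w.length < 2 * j0

lemma ph_shift {V : Type} {n : Equiv.Perm V} {m : V → V} {j0 D L : ℕ}
    (hI : Inj n m (L + 2 * D + 4 * j0 + 1)) {s : V} {w w' : List (Fin 3)} (hw : phPat j0 w)
    (hw' : phPat j0 w') {x x' k : ℕ} (hx : x ≤ D) (hx' : x' ≤ D) (hk : k ≤ L)
    (h : (n ^ k) (act n m w ((n ^ x) s)) = act n m w' ((n ^ x') s)) : x = x' ∧ w = w' := by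
  have h1 := hI s _ _ (ph_red k x w hw.1 hw.2.1 hw.2.2.1) (ph_red 0 x' w' hw'.1 hw'.2.1 hw'.2.2.1)
    (by
      have := hw.2.2.2
      have := hw'.2.2.2
      simp only [List.length_append, List.length_replicate]
      omega)
    (by simpa only [act_append, act_replicate, pow_zero, Equiv.Perm.coe_one, id_eq] using h)
  have hne : ∀ {w : List (Fin 3)}, phPat j0 w → w ≠ [] := by
    rintro w hw rfl
    simpa using hw.2.1
  obtain ⟨-, h2⟩ := ph_rep k 0 _ _ (by rw [List.head?_append_of_ne_nil _ (hne hw), hw.2.1])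
    (by rw [List.head?_append_of_ne_nil _ (hne hw'), hw'.2.1]) h1
  exact ph_rep' x x' w w' hw.2.2.1 hw'.2.2.1 h2

lemma ph_own {V : Type} {n : Equiv.Perm V} {m : V → V} {j0 D R L : ℕ}
    (hI : Inj n m (L + 2 * D + 4 * j0 + 1)) {S : Finset V} {own : V → V} {back : V → ℕ}
    (hS : Seg n m S own back D R L) {s : V} {w w' : List (Fin 3)} (hw : phPat j0 w)
    (hw' : phPat j0 w') {x x' : ℕ} (hx : x ≤ D) (hx' : x' ≤ D)
    (h : own (act n m w ((n ^ x) s)) = own (act n m w' ((n ^ x') s))) : x = x' ∧ w = w' := by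
  have key : ∀ u u' : V, own u = own u' → back u ≤ back u' →
      (n ^ (back u' - back u)) u = u' := by
    intro u u' h1 h2
    have h3 := hS.eq u'
    rwa [← Nat.sub_add_cancel h2, pow_add, Equiv.Perm.mul_apply, ← h1, hS.eq u] at h3
  rcases le_total (back (act n m w ((n ^ x) s))) (back (act n m w' ((n ^ x') s))) with h1 | h1
  · refine ph_shift hI hw hw' hx hx' ?_ (key _ _ h h1)
    have := hS.lt (act n m w' ((n ^ x') s))
    omega
  · have := ph_shift hI hw' hw hx' hx (by
      have := hS.lt (act n m w ((n ^ x) s))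
      omega) (key _ _ h.symm h1)
    exact ⟨this.1.symm, this.2.symm⟩

lemma ph_cell {V : Type} [Fintype V] [DecidableEq V] {n : Equiv.Perm V} {m : V → V} {D R L : ℕ}
    {S : Finset V} {own : V → V} {back : V → ℕ} (hS : Seg n m S own back D R L) (o : V) :
    (univ.filter fun u => own u = o).card ≤ L := by
  rw [← card_range L]
  refine card_le_card_of_injOn back (fun u _ => by simpa using hS.lt u) ?_
  intro u hu u' hu' h
  simp only [coe_filter, mem_univ, true_and, Set.mem_ofPred_eq] at hu hu'
  rw [← hS.eq u, ← hS.eq u', hu, hu', h]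

theorem phases : PhasesStmt := by
  classical
  intro j0 hj0
  have hfin : {w : List (Fin 3) | phPat j0 w}.Finite :=
    (List.finite_length_lt (Fin 3) (2 * j0)).subset fun w hw => hw.2.2.2
  have : Fintype {w // phPat j0 w} := hfin.fintype
  have : Nonempty {w // phPat j0 w} :=
    ⟨⟨[2], List.isChain_singleton _, rfl, rfl, by simp only [List.length_singleton]; omega⟩⟩
  obtain ⟨γ, hγ0, hγ1, hρ0, hρ1⟩ := ph_gamma (Fintype.card (Fin 2 × {w // phPat j0 w}))
    Fintype.card_pos
  refine ⟨_, (1 - γ) / 4, hρ0, hρ1, by linarith, ?_⟩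
  intro T D R L hR hL V _ _ n m _ hI S own back hS
  rcases Nat.eq_zero_or_pos T with rfl | hT
  · have hL0 : L = 0 := by
      rw [pow_zero, mul_one] at hL
      have : (L : ℝ) < 1 := by linarith
      exact_mod_cast Nat.lt_one_iff.1 (by exact_mod_cast this)
    have hV : ∀ v : V, False := fun v => by
      have := hS.lt v
      omega
    exact ⟨fun _ => 1, fun v => (hV v).elim, fun v => (hV v).elim, fun v => (hV v).elim⟩
  let ev : Finset (V × ℕ × Bool × ℕ) :=
    S ×ˢ ((range D).filter fun σ => (σ + 1) * (2 * T + 2) ≤ D) ×ˢ univ ×ˢ range 2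
  have hev : ∀ i : V × ℕ × Bool × ℕ, i ∈ ev →
      i.1 ∈ S ∧ (i.2.1 + 1) * (2 * T + 2) ≤ D ∧ i.2.2.2 < 2 := by
    intro i hi
    simp only [ev, mem_product, mem_filter, mem_range] at hi
    exact ⟨hi.1, hi.2.1.2, hi.2.2.2⟩
  let xx : V × ℕ × Bool × ℕ → Fin T × Fin 2 × {w // phPat j0 w} → ℕ := fun i q =>
    i.2.1 * (2 * T + 2) + i.2.2.2 + 2 * q.1.1 + q.2.1.1
  let vt : V × ℕ × Bool × ℕ → Fin T × Fin 2 × {w // phPat j0 w} → V := fun i q =>
    act n m q.2.2.1 ((n ^ xx i q) i.1)
  have hxx : ∀ i ∈ ev, ∀ q, i.2.1 * (2 * T + 2) ≤ xx i q ∧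
      xx i q < (i.2.1 + 1) * (2 * T + 2) ∧ xx i q ≤ D := by
    intro i hi q
    obtain ⟨-, h2, h3⟩ := hev i hi
    have h4 := q.1.2
    have h5 := q.2.1.2
    rw [add_mul, one_mul] at h2 ⊢
    simp only [xx]
    omega
  obtain ⟨φ, hφ⟩ := ph_lll T hT ev (fun i q => own (vt i q))
    (by
      intro i hi q q' h
      obtain ⟨h1, h2⟩ := ph_own hI hS q.2.2.2 q'.2.2.2 (hxx i hi q).2.2 (hxx i hi q').2.2 h
      have h4 := q.2.1.2
      have h5 := q'.2.1.2
      simp only [xx] at h1
      exact Prod.ext (Fin.ext (by omega)) (Prod.ext (Fin.ext (by omega)) (Subtype.ext h2)))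
    (fun i q => if Even (back (vt i q)) then !i.2.2.1 else i.2.2.1) γ hγ0 hγ1.le (L * 4)
    (by
      intro o
      have h1 : (ev.filter fun i => o ∈ univ.image fun q => own (vt i q)) ⊆
          (univ.filter fun u => own u = o).biUnion fun u => ev.filter fun i => ∃ q, vt i q = u := by
        intro i hi
        obtain ⟨hi1, hi2⟩ := mem_filter.1 hi
        obtain ⟨q, -, hq⟩ := mem_image.1 hi2
        exact mem_biUnion.2 ⟨vt i q, mem_filter.2 ⟨mem_univ _, hq⟩, mem_filter.2 ⟨hi1, q, rfl⟩⟩
      refine (card_le_card h1).trans ((card_biUnion_le_card_mul _ _ 4 ?_).trans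
        (Nat.mul_le_mul_right 4 (ph_cell hS o)))
      intro u _
      have h2 : ((univ : Finset Bool) ×ˢ range 2).card = 4 := by simp
      rw [← h2]
      refine card_le_card_of_injOn (fun i => i.2.2) ?_ ?_
      · intro i hi
        have := (hev i (mem_filter.1 hi).1).2.2
        simpa using this
      · intro i hi i' hi' h
        obtain ⟨hi1, q, hq⟩ := mem_filter.1 hi
        obtain ⟨hi1', q', hq'⟩ := mem_filter.1 hi'
        have h3 : vt i q = vt i' q' := hq.trans hq'.symm
        have h4 : i.1 = i'.1 := hS.sep _ (hev i hi1).1 _ (hev i' hi1').1 _ (hxx i hi1 q).2.2 _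
          (hxx i' hi1' q').2.2 _ _ (by have := q.2.2.2.2.2.2; omega)
          (by have := q'.2.2.2.2.2.2; omega) h3
        simp only [vt, ← h4] at h3
        have h5 := (ph_shift hI q.2.2.2 q'.2.2.2 (hxx i hi1 q).2.2 (hxx i' hi1' q').2.2
          (Nat.zero_le L) (by simpa using h3)).1
        have h6 : i.2.1 = i'.2.1 := by
          rw [← Nat.div_eq_of_lt_le (hxx i hi1 q).1 (hxx i hi1 q).2.1,
            ← Nat.div_eq_of_lt_le (hxx i' hi1' q').1 (hxx i' hi1' q').2.1, h5]
        exact Prod.ext h4 (Prod.ext h6 h))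
    (by
      push_cast
      linarith)
  refine ⟨fun v => (if φ (own v) then 1 else -1) * (-1) ^ back v, ?_, ?_, ?_⟩
  · intro v
    rcases neg_one_pow_eq_or ℝ (back v) with h | h <;> cases h' : φ (own v) <;> simp [h, h']
  · intro v hv
    obtain ⟨h1, h2⟩ := hS.succ v hv
    simp only [h1, h2, pow_succ]
    ring
  · intro s hs σ hσ y hy π hπ
    obtain ⟨yb, rfl⟩ : ∃ yb : Bool, y = if yb then 1 else -1 := by
      rcases hy with rfl | rfl
      · exact ⟨true, by simp⟩
      · exact ⟨false, by simp⟩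
    have hσD : σ < D := by nlinarith
    obtain ⟨k, hk⟩ := hφ (s, σ, yb, π) (by
      simp only [ev, mem_product, mem_filter, mem_range, mem_univ, true_and]
      exact ⟨hs, ⟨hσD, hσ⟩, hπ⟩)
    have hk2 := k.2
    have hG : ∀ i : Fin 2, Good n m (fun v => (if φ (own v) then 1 else -1) * (-1) ^ back v) j0
        ((n ^ (σ * (2 * T + 2) + π + 2 * k.1 + i.1)) s) (if yb then 1 else -1) := by
      intro i w h1 h2 h3 h4
      have h5 := hk (i, ⟨w, h1, h2, h3, h4⟩)
      simp only [vt, xx] at h5
      simp only [h5]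
      rcases Nat.even_or_odd (back (act n m w ((n ^ (σ * (2 * T + 2) + π + 2 * k.1 + i.1)) s)))
        with h | h
      · rw [if_pos h, h.neg_one_pow]
        cases yb <;> simp
      · rw [if_neg (Nat.not_even_iff_odd.2 h), h.neg_one_pow]
        ring
    refine ⟨σ * (2 * T + 2) + π + 2 * k.1, by omega, by omega, ?_, hG 0, hG 1⟩
    have : σ * (2 * T + 2) = 2 * (σ * (T + 1)) := by ring
    omega

end Pool.Agent.Lib.MP_c8786f_co.W5
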