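import Pool.Agent.Lib.MP_c8786f_co.W5.Defs3
import Pool.Agent.Lib.MP_c8786f_co.W5.Phases

/-!
Random phases with prescribed patterns at a sparse set of roots.
-/

namespace Pool.Agent.Lib.MP_c8786f_co.W5

open Finset

/-- the word that undoes `w` -/
def ph3_inv (w : List (Fin 3)) : List (Fin 3) := (w.map inv).reverse

lemma ph3_inv_length (w : List (Fin 3)) : (ph3_inv w).length = w.length := by simp [ph3_inv]

lemma ph3_inv_act {V : Type} (n : Equiv.Perm V) {m : V → V} (hm : ∀ v, m (m v) = v)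
    (w : List (Fin 3)) (v : V) : act n m (ph3_inv w) (act n m w v) = v := by
  induction w with
  | nil => rfl
  | cons a w ih =>
    have h : ph3_inv (a :: w) = ph3_inv w ++ [inv a] := by simp [ph3_inv]
    rw [h, act_append, act_cons, act_cons, act_nil, step_inv n hm, ih]

lemma ph3_inv_red {w : List (Fin 3)} (hw : Red w) : Red (ph3_inv w) := by
  unfold Red ph3_inv at *
  rw [List.isChain_reverse, List.isChain_map]
  refine hw.imp ?_
  intro a b
  revert a b
  decide

lemma ph3_inv_pat {j0 : ℕ} {w : List (Fin 3)} (hw : phPat j0 w) : phPat j0 (ph3_inv w) := by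
  refine ⟨ph3_inv_red hw.1, ?_, ?_, by rw [ph3_inv_length]; exact hw.2.2.2⟩
  · unfold ph3_inv
    rw [List.head?_reverse, List.getLast?_map, hw.2.2.1]
    rfl
  · unfold ph3_inv
    rw [List.getLast?_reverse, List.head?_map, hw.2.1]
    rfl

/-- pattern words and the empty word -/
def ph3_pat (j0 : ℕ) (v : List (Fin 3)) : Prop := v = [] ∨ phPat j0 v

lemma ph3_pat_length {j0 : ℕ} {v : List (Fin 3)} (hv : ph3_pat j0 v) : v.length ≤ 2 * j0 := by
  rcases hv with rfl | hv
  · simp
  · exact hv.2.2.2.le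

lemma ph3_pat_red {j0 : ℕ} {v : List (Fin 3)} (hv : ph3_pat j0 v) : Red v := by
  rcases hv with rfl | hv
  · exact List.isChain_nil
  · exact hv.1

lemma ph3_pat_head {j0 : ℕ} {v : List (Fin 3)} (hv : ph3_pat j0 v) {b : Fin 3}
    (hb : b ∈ v.head?) : b = 2 := by
  rcases hv with rfl | hv
  · simp at hb
  · rw [hv.2.1] at hb
    simp only [Option.mem_def, Option.some.injEq] at hb
    exact hb.symm

lemma ph3_red_rc {j0 : ℕ} {v : List (Fin 3)} (hv : ph3_pat j0 v) (k : ℕ) {c : Fin 3}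
    (hc : c = 0 ∨ c = 1) : Red (List.replicate k c ++ v) := by
  refine List.IsChain.append (List.isChain_replicate_of_rel k ?_) (ph3_pat_red hv) ?_
  · rcases hc with rfl | rfl <;> decide
  · intro a ha b hb
    have ha' := List.eq_of_mem_replicate (List.mem_of_mem_getLast? ha)
    have hb' := ph3_pat_head hv hb
    subst ha' hb'
    rcases hc with rfl | rfl <;> decide

lemma ph3_red_big {j0 : ℕ} {w v : List (Fin 3)} (hw : phPat j0 w) (hv : ph3_pat j0 v) (x : ℕ)
    {k : ℕ} (hk : 0 < k) {c : Fin 3} (hc : c = 0 ∨ c = 1) :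
    Red (List.replicate x 0 ++ (w ++ (List.replicate k c ++ v))) := by
  have hne : w ≠ [] := by
    rintro rfl
    simpa using hw.2.1
  refine List.IsChain.append (ph_red_rep x) (List.IsChain.append hw.1 (ph3_red_rc hv k hc) ?_) ?_
  · intro a ha b hb
    rw [hw.2.2.1] at ha
    obtain ⟨k, rfl⟩ : ∃ k', k = k' + 1 := ⟨k - 1, by omega⟩
    rw [List.replicate_succ, List.cons_append, List.head?_cons] at hb
    simp only [Option.mem_def, Option.some.injEq] at ha hb
    subst ha hb
    rcases hc with rfl | rfl <;> decide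
  · intro a ha b hb
    rw [List.head?_append_of_ne_nil _ hne, hw.2.1] at hb
    have ha' := List.eq_of_mem_replicate (List.mem_of_mem_getLast? ha)
    simp only [Option.mem_def, Option.some.injEq] at hb
    subst hb ha'
    decide

section Cells

variable {V : Type} {n : Equiv.Perm V} {m : V → V} {j0 D R L : ℕ} {S : Finset V} {own : V → V}
  {back : V → ℕ}

lemma ph3_dir (hm : ∀ v, m (m v) = v) (hS : Seg n m S own back D R L) {z z' : V}
    (h : own z = own z') :
    ∃ k < L, ∃ c : Fin 3, (c = 0 ∨ c = 1) ∧ z = act n m (List.replicate k c) z' := by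
  have key : ∀ u u' : V, own u = own u' → back u ≤ back u' →
      (n ^ (back u' - back u)) u = u' := by
    intro u u' h1 h2
    have h3 := hS.eq u'
    rwa [← Nat.sub_add_cancel h2, pow_add, Equiv.Perm.mul_apply, ← h1, hS.eq u] at h3
  rcases le_total (back z') (back z) with h1 | h1
  · refine ⟨back z - back z', by have := hS.lt z; omega, 0, Or.inl rfl, ?_⟩
    rw [act_replicate, key _ _ h.symm h1]
  · refine ⟨back z' - back z, by have := hS.lt z'; omega, 1, Or.inr rfl, ?_⟩
    have h2 := ph3_inv_act n hm (List.replicate (back z' - back z) 0) z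
    rw [act_replicate, key _ _ h h1] at h2
    have h3 : ph3_inv (List.replicate (back z' - back z) 0) =
        List.replicate (back z' - back z) 1 := by simp [ph3_inv]
    rw [← h3, h2]

lemma ph3_injU (hm : ∀ v, m (m v) = v) (hI : Inj n m (2 * L + 2 * D + 8 * j0 + 1))
    (hS : Seg n m S own back D R L) {U : Finset V}
    (hU : ∀ u ∈ U, ∀ u' ∈ U, ∀ w : List (Fin 3), w.length ≤ 2 * L + D + 8 * j0 →
      act n m w u = u' → u = u')
    {u u' : V} (hu : u ∈ U) (hu' : u' ∈ U) {v v' : List (Fin 3)} (hv : ph3_pat j0 v)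
    (hv' : ph3_pat j0 v') (h : own (act n m v u) = own (act n m v' u')) : u = u' ∧ v = v' := by
  obtain ⟨k, hk, c, hc, h1⟩ := ph3_dir hm hS h
  have hl := ph3_pat_length hv
  have hl' := ph3_pat_length hv'
  have h2 : u' = u := by
    refine hU u' hu' u hu (ph3_inv v ++ (List.replicate k c ++ v')) ?_ ?_
    · simp only [List.length_append, List.length_replicate, ph3_inv_length]
      omega
    · rw [act_append, act_append, ← h1, ph3_inv_act n hm]
  subst h2
  refine ⟨rfl, ?_⟩
  have h3 := hI u' v (List.replicate k c ++ v') (ph3_pat_red hv) (ph3_red_rc hv' k hc)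
    (by
      simp only [List.length_append, List.length_replicate]
      omega)
    (by rw [act_append, ← h1])
  rcases Nat.eq_zero_or_pos k with rfl | hk0
  · simpa using h3
  · exfalso
    obtain ⟨k, rfl⟩ : ∃ k', k = k' + 1 := ⟨k - 1, by omega⟩
    have h4 : c ∈ v.head? := by
      rw [h3, List.replicate_succ, List.cons_append, List.head?_cons]
      rfl
    have h5 := ph3_pat_head hv h4
    rcases hc with rfl | rfl <;> exact absurd h5 (by decide)

lemma ph3_reach (hm : ∀ v, m (m v) = v) (hS : Seg n m S own back D R L) {U : Finset V} {z : V}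
    (hF : ∀ w : List (Fin 3), w.length ≤ 4 * j0 → act n m w z ∉ U) {u : V} (hu : u ∈ U)
    {w v : List (Fin 3)} (hw : phPat j0 w) (hv : ph3_pat j0 v)
    (h : own (act n m w z) = own (act n m v u)) :
    ∃ k < L, 0 < k ∧ ∃ c : Fin 3, (c = 0 ∨ c = 1) ∧
      z = act n m (ph3_inv w ++ (List.replicate k c ++ v)) u := by
  obtain ⟨k, hk, c, hc, h1⟩ := ph3_dir hm hS h
  refine ⟨k, hk, ?_, c, hc, ?_⟩
  · rcases Nat.eq_zero_or_pos k with rfl | hk0
    · exfalso
      refine hF (ph3_inv v ++ w) ?_ ?_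
      · have := ph3_pat_length hv
        have := hw.2.2.2
        simp only [List.length_append, ph3_inv_length]
        omega
      · rw [act_append, h1, List.replicate_zero, act_nil, ph3_inv_act n hm]
        exact hu
    · exact hk0
  · rw [act_append, act_append, ← h1, ph3_inv_act n hm]

lemma ph3_spoil (hm : ∀ v, m (m v) = v) (hI : Inj n m (2 * L + 2 * D + 8 * j0 + 1))
    (hS : Seg n m S own back D R L) {U : Finset V}
    (hU : ∀ u ∈ U, ∀ u' ∈ U, ∀ w : List (Fin 3), w.length ≤ 2 * L + D + 8 * j0 →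
      act n m w u = u' → u = u')
    {s : V} (hF : ∀ j ≤ D, ∀ w : List (Fin 3), w.length ≤ 4 * j0 → act n m w ((n ^ j) s) ∉ U)
    {x x' : ℕ} (hx : x < x') (hx' : x' ≤ D) {u u' : V} (hu : u ∈ U) (hu' : u' ∈ U)
    {w w' v v' : List (Fin 3)} (hw : phPat j0 w) (hw' : phPat j0 w') (hv : ph3_pat j0 v)
    (hv' : ph3_pat j0 v') (h : own (act n m w ((n ^ x) s)) = own (act n m v u))
    (h' : own (act n m w' ((n ^ x') s)) = own (act n m v' u')) : False := by
  obtain ⟨k, hk, hk0, c, hc, h1⟩ := ph3_reach hm hS (hF x (by omega)) hu hw hv h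
  obtain ⟨k', hk', hk0', c', hc', h1'⟩ := ph3_reach hm hS (hF x' hx') hu' hw' hv' h'
  have hl := ph3_pat_length hv
  have hl' := ph3_pat_length hv'
  have hm1 := hw.2.2.2
  have hm1' := hw'.2.2.2
  have h2 : act n m (List.replicate (x' - x) 0 ++ (ph3_inv w ++ (List.replicate k c ++ v))) u =
      act n m (List.replicate 0 0 ++ (ph3_inv w' ++ (List.replicate k' c' ++ v'))) u' := by
    rw [act_append n m (List.replicate (x' - x) 0), ← h1, List.replicate_zero, List.nil_append,
      ← h1', act_replicate, ← Equiv.Perm.mul_apply, ← pow_add, Nat.sub_add_cancel hx.le]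
  have h3 : u = u' := by
    refine hU u hu u' hu' (ph3_inv (List.replicate 0 0 ++
      (ph3_inv w' ++ (List.replicate k' c' ++ v'))) ++
      (List.replicate (x' - x) 0 ++ (ph3_inv w ++ (List.replicate k c ++ v)))) ?_ ?_
    · simp only [List.length_append, List.length_replicate, ph3_inv_length]
      omega
    · rw [act_append, h2, ph3_inv_act n hm]
  subst h3
  have h4 := hI u _ _ (ph3_red_big (ph3_inv_pat hw) hv (x' - x) hk0 hc)
    (ph3_red_big (ph3_inv_pat hw') hv' 0 hk0' hc')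
    (by
      simp only [List.length_append, List.length_replicate, ph3_inv_length]
      omega) h2
  have hne : ∀ {w : List (Fin 3)}, phPat j0 w → w ≠ [] := by
    rintro w hw rfl
    simpa using hw.2.1
  have h5 := (ph_rep _ _ _ _
    (by rw [List.head?_append_of_ne_nil _ (hne (ph3_inv_pat hw)), (ph3_inv_pat hw).2.1])
    (by rw [List.head?_append_of_ne_nil _ (hne (ph3_inv_pat hw')), (ph3_inv_pat hw').2.1]) h4).1
  omega

end Cells

lemma ph3_sign (y : ℝ) (hy : y = 1 ∨ y = -1) (b : ℕ) (t : Bool) (ht : t = true ↔ y * (-1) ^ b = 1) :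
    (if t then (1 : ℝ) else -1) * (-1) ^ b = y := by
  rcases neg_one_pow_eq_or ℝ b with h | h <;> rcases hy with rfl | rfl <;> rw [h] at ht ⊢ <;>
    cases t <;> first | (norm_num at ht; done) | norm_num

theorem phases3 : Phases3Stmt := by
  classical
  intro j0 hj0
  have hfin : {w : List (Fin 3) | phPat j0 w}.Finite :=
    (List.finite_length_lt (Fin 3) (2 * j0)).subset fun w hw => hw.2.2.2
  have : Fintype {w // phPat j0 w} := hfin.fintype
  have : Nonempty {w // phPat j0 w} :=
    ⟨⟨[2], List.isChain_singleton _, rfl, rfl, by simp only [List.length_singleton]; omega⟩⟩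
  obtain ⟨γ, hγ0, hγ1, hρ0, hρ1⟩ := ph_gamma (Fintype.card (Fin 2 × {w // phPat j0 w}))
    Fintype.card_pos
  set ρ : ℝ := (1 - (1 / 2) ^ Fintype.card (Fin 2 × {w // phPat j0 w})) /
    γ ^ Fintype.card (Fin 2 × {w // phPat j0 w}) with hρ
  have hγ2 : 0 < 1 - γ := by linarith
  refine ⟨ρ, ρ * (1 - γ) / 4, hρ0, hρ1, by positivity, ?_⟩
  intro T D R L hR hL V _ _ n m hm hI' S own back hS U yU cU hyU hcU hU hF
  have hI : Inj n m (L + 2 * D + 4 * j0 + 1) := hI'.mono (by omega)
  by_cases hT2 : T < 2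
  · have hL0 : L = 0 := by
      have h1 : ρ ≤ ρ ^ T := by
        have h2 : ρ ^ 1 ≤ ρ ^ T := pow_le_pow_of_le_one hρ0.le hρ1.le (by omega)
        rwa [pow_one] at h2
      have h2 : (L : ℝ) * ρ ≤ L * ρ ^ T := mul_le_mul_of_nonneg_left h1 (Nat.cast_nonneg L)
      have h3 : (L : ℝ) * ρ < 1 * ρ := by nlinarith
      have h4 : (L : ℝ) < 1 := lt_of_mul_lt_mul_right h3 hρ0.le
      exact_mod_cast Nat.lt_one_iff.1 (by exact_mod_cast h4)
    have hV : ∀ v : V, False := fun v => by
      have := hS.lt v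
      omega
    exact ⟨fun _ => 1, fun v => (hV v).elim, fun v => (hV v).elim, fun v => (hV v).elim,
      fun v => (hV v).elim⟩
  obtain ⟨T', rfl⟩ : ∃ T', T = T' + 1 := ⟨T - 1, by omega⟩
  have hT : 0 < T' := by omega
  let S0 : V → Prop := fun o => ∃ p : V × List (Fin 3), p.1 ∈ U ∧ ph3_pat j0 p.2 ∧
    o = own (act n m p.2 p.1)
  let t0 : V × List (Fin 3) → Bool := fun p =>
    decide ((if p.2 = [] then cU p.1 else -yU p.1) * (-1) ^ back (act n m p.2 p.1) = 1)
  let ev : Finset (V × ℕ × Bool × ℕ) :=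
    S ×ˢ ((range D).filter fun σ => (σ + 1) * (2 * (T' + 1) + 2) ≤ D) ×ˢ univ ×ˢ range 2
  have hev : ∀ i : V × ℕ × Bool × ℕ, i ∈ ev →
      i.1 ∈ S ∧ (i.2.1 + 1) * (2 * (T' + 1) + 2) ≤ D ∧ i.2.2.2 < 2 := by
    intro i hi
    simp only [ev, mem_product, mem_filter, mem_range] at hi
    exact ⟨hi.1, hi.2.1.2, hi.2.2.2⟩
  let xx : V × ℕ × Bool × ℕ → Fin (T' + 1) × Fin 2 × {w // phPat j0 w} → ℕ := fun i q =>
    i.2.1 * (2 * (T' + 1) + 2) + i.2.2.2 + 2 * q.1.1 + q.2.1.1
  let vt : V × ℕ × Bool × ℕ → Fin (T' + 1) × Fin 2 × {w // phPat j0 w} → V := fun i q =>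
    act n m q.2.2.1 ((n ^ xx i q) i.1)
  have hxx : ∀ i ∈ ev, ∀ q, i.2.1 * (2 * (T' + 1) + 2) ≤ xx i q ∧
      xx i q < (i.2.1 + 1) * (2 * (T' + 1) + 2) ∧ xx i q ≤ D := by
    intro i hi q
    obtain ⟨-, h2, h3⟩ := hev i hi
    have h4 := q.1.2
    have h5 := q.2.1.2
    rw [add_mul, one_mul] at h2 ⊢
    simp only [xx]
    omega
  have hp : ∀ i : V × ℕ × Bool × ℕ, ∃ p : Fin (T' + 1), i ∈ ev → ∀ k, k ≠ p →
      ∀ q, ¬ S0 (own (vt i (k, q))) := by
    intro i
    by_cases h : ∃ k q, S0 (own (vt i (k, q)))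
    · obtain ⟨k, q, p, hp1, hp2, hp3⟩ := h
      refine ⟨k, fun hi k' hk' q' h' => ?_⟩
      obtain ⟨p', hp1', hp2', hp3'⟩ := h'
      have h4 := q.1.2
      have h5 := q'.1.2
      have h6 : k'.1 ≠ k.1 := fun h => hk' (Fin.ext h)
      have h7 : xx i (k, q) ≠ xx i (k', q') := by
        simp only [xx]
        omega
      rcases lt_or_gt_of_ne h7 with h8 | h8
      · exact ph3_spoil hm hI' hS hU (hF _ (hev i hi).1) h8 (hxx i hi _).2.2 hp1 hp1' q.2.2 q'.2.2
          hp2 hp2' hp3 hp3'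
      · exact ph3_spoil hm hI' hS hU (hF _ (hev i hi).1) h8 (hxx i hi _).2.2 hp1' hp1 q'.2.2 q.2.2
          hp2' hp2 hp3' hp3
    · exact ⟨0, fun _ k _ q h' => h ⟨k, q, h'⟩⟩
  choose pp hpp using hp
  let κ : V × ℕ × Bool × ℕ → Fin T' × Fin 2 × {w // phPat j0 w} →
      Fin (T' + 1) × Fin 2 × {w // phPat j0 w} := fun i q => ((pp i).succAbove q.1, q.2)
  obtain ⟨φ, hφ⟩ := ph_lll T' hT ev (fun i q => own (vt i (κ i q)))
    (by
      intro i hi q q' h
      obtain ⟨h1, h2⟩ := ph_own hI hS (κ i q).2.2.2 (κ i q').2.2.2 (hxx i hi (κ i q)).2.2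
        (hxx i hi (κ i q')).2.2 h
      have h4 := q.2.1.2
      have h5 := q'.2.1.2
      simp only [xx, κ] at h1 h2
      have h6 : (pp i).succAbove q.1 = (pp i).succAbove q'.1 := Fin.ext (by omega)
      exact Prod.ext (Fin.succAbove_right_injective h6)
        (Prod.ext (Fin.ext (by omega)) (Subtype.ext h2)))
    (fun i q => if Even (back (vt i (κ i q))) then !i.2.2.1 else i.2.2.1) γ hγ0 hγ1.le (L * 4)
    (by
      intro o
      have h1 : (ev.filter fun i => o ∈ univ.image fun q => own (vt i (κ i q))) ⊆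
          (univ.filter fun u => own u = o).biUnion fun u => ev.filter fun i => ∃ q, vt i q = u := by
        intro i hi
        obtain ⟨hi1, hi2⟩ := mem_filter.1 hi
        obtain ⟨q, -, hq⟩ := mem_image.1 hi2
        exact mem_biUnion.2 ⟨vt i (κ i q), mem_filter.2 ⟨mem_univ _, hq⟩,
          mem_filter.2 ⟨hi1, κ i q, rfl⟩⟩
      refine (card_le_card h1).trans ((card_biUnion_le_card_mul _ _ 4 ?_).trans
        (Nat.mul_le_mul_right 4 (ph_cell hS o)))
      intro u _
      have h2 : ((univ : Finset Bool) ×ˢ range 2).card = 4 := by simp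
      rw [← h2]
      refine card_le_card_of_injOn (fun i => i.2.2) ?_ ?_
      · intro i hi
        have := (hev i (mem_filter.1 hi).1).2.2
        simpa using this
      · intro i hi i' hi' h
        obtain ⟨hi1, q, hq⟩ := mem_filter.1 hi
        obtain ⟨hi1', q', hq'⟩ := mem_filter.1 hi'
        have h3 : vt i q = vt i' q' := hq.trans hq'.symm
        have h4 : i.1 = i'.1 := hS.sep _ (hev i hi1).1 _ (hev i' hi1').1 _ (hxx i hi1 q).2.2 _
          (hxx i' hi1' q').2.2 _ _ (by have := q.2.2.2.2.2.2; omega)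
          (by have := q'.2.2.2.2.2.2; omega) h3
        simp only [vt, ← h4] at h3
        have h5 := (ph_shift hI q.2.2.2 q'.2.2.2 (hxx i hi1 q).2.2 (hxx i' hi1' q').2.2
          (Nat.zero_le L) (by simpa using h3)).1
        have h6 : i.2.1 = i'.2.1 := by
          rw [← Nat.div_eq_of_lt_le (hxx i hi1 q).1 (hxx i hi1 q).2.1,
            ← Nat.div_eq_of_lt_le (hxx i' hi1' q').1 (hxx i' hi1' q').2.1, h5]
        exact Prod.ext h4 (Prod.ext h6 h))
    (by
      rw [← hρ]
      have h1 : ρ * (L * ρ ^ T') ≤ ρ * ((1 - γ) / 4) := by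
        rw [pow_succ] at hL
        linarith
      have h2 := le_of_mul_le_mul_left h1 hρ0
      push_cast
      linarith)
  let φ' : V → Bool := fun o => if h : S0 o then t0 h.choose else φ o
  have hφ0 : ∀ u ∈ U, ∀ v, ph3_pat j0 v → φ' (own (act n m v u)) = t0 (u, v) := by
    intro u hu v hv
    have h : S0 (own (act n m v u)) := ⟨(u, v), hu, hv, rfl⟩
    obtain ⟨h1, h2, h3⟩ := h.choose_spec
    obtain ⟨h4, h5⟩ := ph3_injU hm hI' hS hU hu h1 hv h2 h3
    have h6 : h.choose = (u, v) := Prod.ext h4.symm h5.symm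
    simp only [φ', dif_pos h, h6]
  have hφ1 : ∀ o, ¬ S0 o → φ' o = φ o := fun o h => by simp only [φ', dif_neg h]
  refine ⟨fun v => (if φ' (own v) then 1 else -1) * (-1) ^ back v, ?_, ?_, ?_, ?_⟩
  · intro v
    rcases neg_one_pow_eq_or ℝ (back v) with h | h <;> cases h' : φ' (own v) <;> simp [h, h']
  · intro v hv
    obtain ⟨h1, h2⟩ := hS.succ v hv
    simp only [h1, h2, pow_succ]
    ring
  · intro s hs σ hσ y hy π hπ
    obtain ⟨yb, rfl⟩ : ∃ yb : Bool, y = if yb then 1 else -1 := by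
      rcases hy with rfl | rfl
      · exact ⟨true, by simp⟩
      · exact ⟨false, by simp⟩
    have hσD : σ < D := by nlinarith
    have hi : (s, σ, yb, π) ∈ ev := by
      simp only [ev, mem_product, mem_filter, mem_range, mem_univ, true_and]
      exact ⟨hs, ⟨hσD, hσ⟩, hπ⟩
    obtain ⟨k0, hk⟩ := hφ (s, σ, yb, π) hi
    set k := (pp (s, σ, yb, π)).succAbove k0 with hk0
    have hk2 := k.2
    have hG : ∀ i : Fin 2, Good n m (fun v => (if φ' (own v) then 1 else -1) * (-1) ^ back v) j0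
        ((n ^ (σ * (2 * (T' + 1) + 2) + π + 2 * k.1 + i.1)) s) (if yb then 1 else -1) := by
      intro i w h1 h2 h3 h4
      have h5 := hk (i, ⟨w, h1, h2, h3, h4⟩)
      have h6 := hφ1 _ (hpp _ hi k (Fin.succAbove_ne _ _) (i, ⟨w, h1, h2, h3, h4⟩))
      simp only [vt, xx, κ, ← hk0] at h5 h6
      simp only [h6, h5]
      rcases Nat.even_or_odd
        (back (act n m w ((n ^ (σ * (2 * (T' + 1) + 2) + π + 2 * k.1 + i.1)) s))) with h | h
      · rw [if_pos h, h.neg_one_pow]
        cases yb <;> simp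
      · rw [if_neg (Nat.not_even_iff_odd.2 h), h.neg_one_pow]
        ring
    refine ⟨σ * (2 * (T' + 1) + 2) + π + 2 * k.1, by omega, by omega, ?_, hG 0, hG 1⟩
    have : σ * (2 * (T' + 1) + 2) = 2 * (σ * (T' + 2)) := by ring
    omega
  · intro u hu
    refine ⟨?_, ?_⟩
    · have h1 := hφ0 u hu [] (Or.inl rfl)
      rw [act_nil] at h1
      refine ph3_sign _ (hcU u) _ _ ?_
      rw [h1]
      simp [t0]
    · intro w h1 h2 h3 h4
      have h5 := hφ0 u hu w (Or.inr ⟨h1, h2, h3, h4⟩)
      have hne : w ≠ [] := by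
        rintro rfl
        simp at h2
      refine ph3_sign _ (by rcases hyU u with h | h <;> simp [h]) _ _ ?_
      rw [h5]
      simp only [t0, if_neg hne, decide_eq_true_eq]

end Pool.Agent.Lib.MP_c8786f_co.W5
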