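import Pool.Agent.Lib.MP_c8786f_co.W5.Defs2
import Pool.Agent.Lib.MP_c8786f_co.W5.GS

/-!
Module Proj: the embedding attached to a state and a family of windows.
-/

namespace Pool.Agent.Lib.MP_c8786f_co.W5

open Finset
open scoped RealInnerProductSpace

theorem proj : ProjStmt := by
  intro ε w hε hw0 V E T X _ _ _ _ _ _ _ s t β m0 hcon htot hm1 cl rd R
  classical
  obtain ⟨x0⟩ : Nonempty X := by
    by_contra h
    rw [not_nonempty_iff] at h
    simp at hm1
  rcases isEmpty_or_nonempty V with hV | ⟨⟨v0⟩⟩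
  · have hT : ∀ τ : T, False := fun τ => by
      have := htot τ x0
      simp at this
    refine ⟨fun _ => 0, fun _ => 0, fun b => ?_, ?_, ?_, fun τ => (hT τ).elim,
      fun τ => (hT τ).elim, fun τ => (hT τ).elim⟩
    · simp only [sub_self, inner_zero_right, ne_eq, OfNat.ofNat_ne_zero, not_false_eq_true,
        zero_pow, sum_const_zero]
      positivity
    · simp only [sub_self, norm_zero, ne_eq, OfNat.ofNat_ne_zero, not_false_eq_true,
        zero_pow, sum_const_zero]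
      positivity
    · rw [sum_eq_zero fun τ _ => (hT τ).elim]
      positivity
  have hiso : ∀ Y : Finset V, 1 ≤ Y.card → 1 ≤ Yᶜ.card → 1 ≤ cut s t Y := by
    intro Y h1 h2
    by_contra h
    rcases hcon Y (by omega) with h3 | h3
    · simp [h3] at h1
    · simp [h3] at h2
  set Lm := gsL s t β m0 ε w cl rd with hLm
  choose Fv hFv using fun v => gs_conn (β := β) m0 w cl rd hε hiso v0 v
  rw [← hLm] at hFv
  have hmu : ∀ τ, ∑ v, mu β m0 τ v = 1 := by
    intro τ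
    unfold mu
    rw [sum_comm]
    simp only [← mul_sum, htot, mul_one, hm1]
  set G : T → EuclideanSpace ℝ (E ⊕ T) := fun τ =>
    w⁻¹ • EuclideanSpace.single (.inr τ) 1 + ∑ v, mu β m0 τ v • Fv v with hG
  have hLG : ∀ τ ∈ rd, Lm (G τ) = (-Pi.single v0 1, 0, Pi.single (cl τ) 1) := by
    intro τ hτ
    rw [hG]
    simp only
    rw [map_add, map_smul, gs_comb hFv _ (hmu τ), hLm, gs_win _ _ _ _ _ _ _ _ hτ]
    simp [smul_smul, inv_mul_cancel₀ hw0.ne', sub_eq_add_neg]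
  have hrep : ∀ A : T, ∃ τ', ∀ τ ∈ rd, cl τ = A → τ' ∈ rd ∧ cl τ' = A := by
    intro A
    by_cases h : ∃ τ ∈ rd, cl τ = A
    · obtain ⟨τ, h1, h2⟩ := h
      exact ⟨τ, fun _ _ _ => ⟨h1, h2⟩⟩
    · exact ⟨A, fun τ h1 h2 => absurd ⟨τ, h1, h2⟩ h⟩
  choose rep hrep using hrep
  set B : T × X → EuclideanSpace ℝ (E ⊕ T) := fun q => ∑ v, β q.1 q.2 v • Fv v with hB
  set S : Finset (EuclideanSpace ℝ (E ⊕ T)) :=
    (R ×ˢ (univ : Finset X)).image B ∪ R.image fun τ => G (rep (cl τ)) with hS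
  have hcard : (S.card : ℝ) ≤ (Fintype.card X + 1) * R.card := by
    have h3 : S.card ≤ R.card * Fintype.card X + R.card := by
      refine (card_union_le _ _).trans (add_le_add (card_image_le.trans ?_) card_image_le)
      rw [card_product, card_univ]
    have h4 : (S.card : ℝ) ≤ R.card * Fintype.card X + R.card := by
      exact_mod_cast h3
    linarith
  obtain ⟨Pr, hk, hS1, hn, hsym, htr⟩ := gs_proj Lm S
  have htr' := htr.trans hcard
  rw [Fintype.sum_sum_type] at htr'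
  have hE0 : 0 ≤ ∑ e : E, ‖Pr (EuclideanSpace.single (.inl e) 1)‖ ^ 2 :=
    sum_nonneg fun _ _ => sq_nonneg _
  have hT0 : 0 ≤ ∑ τ : T, ‖Pr (EuclideanSpace.single (.inr τ) 1)‖ ^ 2 :=
    sum_nonneg fun _ _ => sq_nonneg _
  have hdf : ∀ e, Pr (Fv (t e)) - Pr (Fv (s e)) =
      -(ε⁻¹ • Pr (EuclideanSpace.single (.inl e) 1)) := by
    intro e
    have h1 : Lm (Fv (t e) - Fv (s e) + ε⁻¹ • EuclideanSpace.single (.inl e) 1) = 0 := by
      rw [map_add, map_sub, map_smul, hFv, hFv, hLm, gs_edge]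
      simp [smul_smul, inv_mul_cancel₀ hε.ne']
    have h2 := hk _ h1
    rw [map_add, map_sub, map_smul] at h2
    exact eq_neg_of_add_eq_zero_left h2
  have hlin : ∀ γ : V → ℝ, ∑ v, γ v • Pr (Fv v) = Pr (∑ v, γ v • Fv v) := by
    intro γ
    rw [map_sum]
    simp only [map_smul]
  have hda : ∀ τ ∈ rd, Pr (G (rep (cl τ))) - ∑ v, mu β m0 τ v • Pr (Fv v) =
      w⁻¹ • Pr (EuclideanSpace.single (.inr τ) 1) := by
    intro τ hτ
    obtain ⟨h1, h2⟩ := hrep (cl τ) τ hτ rfl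
    have h3 : Lm (G (rep (cl τ)) - G τ) = 0 := by
      rw [map_sub, hLG _ h1, hLG _ hτ, h2, sub_self]
    have h4 := hk _ h3
    rw [map_sub, sub_eq_zero] at h4
    rw [h4, hlin, hG]
    simp only [map_add, map_smul, add_sub_cancel_right]
  have hwi : 0 < w⁻¹ := inv_pos.mpr hw0
  have hnorm : ∀ u : EuclideanSpace ℝ (E ⊕ T), ∑ i, u i ^ 2 = ‖u‖ ^ 2 := by
    intro u
    rw [EuclideanSpace.real_norm_sq_eq]
  refine ⟨fun v => Pr (Fv v), fun A => Pr (G (rep A)), ?_, ?_, ?_, ?_, ?_, ?_⟩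
  · intro b
    simp only [hdf, inner_neg_right, inner_smul_right, neg_sq, mul_pow, ← mul_sum, hsym]
    rw [div_eq_inv_mul, ← inv_pow]
    refine mul_le_mul_of_nonneg_left ?_ (sq_nonneg _)
    have h1 : ∑ e : E, ⟪Pr b, EuclideanSpace.single (Sum.inl e : E ⊕ T) (1 : ℝ)⟫ ^ 2 ≤
        ‖Pr b‖ ^ 2 := by
      rw [← hnorm, Fintype.sum_sum_type]
      simp only [EuclideanSpace.inner_single_right, conj_trivial, one_mul]
      exact le_add_of_nonneg_right (sum_nonneg fun _ _ => sq_nonneg _)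
    exact h1.trans (pow_le_pow_left₀ (norm_nonneg _) (hn b) 2)
  · simp only [hdf, norm_neg, norm_smul, mul_pow, ← mul_sum, Real.norm_eq_abs, sq_abs]
    rw [div_eq_inv_mul, ← inv_pow]
    exact mul_le_mul_of_nonneg_left (by linarith) (sq_nonneg _)
  · rw [sum_congr rfl fun τ hτ => by rw [hda τ hτ]]
    simp only [norm_smul, mul_pow, ← mul_sum, Real.norm_eq_abs, sq_abs]
    rw [div_eq_inv_mul, ← inv_pow]
    refine mul_le_mul_of_nonneg_left ?_ (sq_nonneg _)
    have h2 : ∑ τ ∈ rd, ‖Pr (EuclideanSpace.single (.inr τ) 1)‖ ^ 2 ≤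
        ∑ τ : T, ‖Pr (EuclideanSpace.single (.inr τ) 1)‖ ^ 2 :=
      sum_le_sum_of_subset_of_nonneg (subset_univ _) fun _ _ _ => sq_nonneg _
    linarith
  · intro τ hτ
    rw [hda τ hτ, norm_smul, Real.norm_eq_abs, abs_of_pos hwi, one_div]
    refine mul_le_of_le_one_right hwi.le ((hn _).trans ?_)
    simp
  · intro τ hτ _ x x'
    have hm : ∀ x, B (τ, x) ∈ S := fun x =>
      mem_union_left _ (mem_image_of_mem _ (mem_product.mpr ⟨hτ, mem_univ _⟩))
    refine gs_sol ?_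
    simp only [hlin]
    rw [← hLm, map_sub]
    have h1 := hS1 _ (hm x)
    have h2 := hS1 _ (hm x')
    simp only [hB] at h1 h2
    rw [h1, h2, gs_comb hFv _ (htot τ x), gs_comb hFv _ (htot τ x')]
    simp only [Prod.mk_sub_mk, sub_self, sub_sub_sub_cancel_right]
    rfl
  · intro τ hτR hτ τ' hτR' hτ'
    have hm : ∀ τ ∈ R, G (rep (cl τ)) ∈ S := fun τ hτ =>
      mem_union_right _ (mem_image_of_mem (fun τ => G (rep (cl τ))) hτ)
    obtain ⟨h1, h2⟩ := hrep (cl τ) τ hτ rfl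
    obtain ⟨h3, h4⟩ := hrep (cl τ') τ' hτ' rfl
    refine gs_sol ?_
    rw [← hLm, map_sub, hS1 _ (hm τ hτR), hS1 _ (hm τ' hτR'), hLG _ h1, hLG _ h3, h2, h4]
    simp only [Prod.mk_sub_mk, sub_self]
    congr 2
    funext A
    simp [Pi.single_apply]

end Pool.Agent.Lib.MP_c8786f_co.W5
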