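import Pool.Agent.Lib.MP_c8786f_co.W5.Defs2

/-!
In a stuck state the cells of the small clusters are sparse.
-/

namespace Pool.Agent.Lib.MP_c8786f_co.W5

open Finset
open scoped RealInnerProductSpace

section Count

variable {V E T X : Type} [Fintype V] [DecidableEq V] [Fintype E] [DecidableEq E] [Fintype T]
  [DecidableEq T] [Fintype X]

/-- a window whose edge set misses the cut lies on the side of every vertex of its cell -/
lemma sp_inside {s t : E → V} {β : T → X → V → ℝ} {Λ : T → Finset V} {own : V → T}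
    {F : T → Finset E} {α P l1 : ℝ} {L1 : ℕ} (hG : Geo s t β Λ own F α P l1 L1 0)
    (Y : Finset V) {v : V} (hv : v ∈ Y) (he : ∀ e ∈ F (own v), (s e ∈ Y ↔ t e ∈ Y)) :
    Λ (own v) ⊆ Y := by
  intro v' hv'
  have h := hG.lip1 v (fun u => if u ∈ Y then (1 : ℝ) else 0) 0 le_rfl (fun e hF => by
    by_cases h1 : s e ∈ Y
    · simp [h1, (he e hF).1 h1]
    · have h2 : t e ∉ Y := fun h2 => h1 ((he e hF).2 h2)
      simp [h1, h2]) v' hv'
  by_contra hn
  simp only [hv, hn, if_true, if_false] at h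
  norm_num at h

/-- many windows lie inside a set with a small cut -/
lemma sp_count {s t : E → V} {β : T → X → V → ℝ} {Λ : T → Finset V} {own : V → T}
    {F : T → Finset E} {α P l1 : ℝ} {L1 : ℕ} (hG : Geo s t β Λ own F α P l1 L1 0)
    (B : Finset T) (Y : Finset V) (hY : ∀ v ∈ Y, own v ∉ B) :
    Y.card ≤ L1 * ((univ.filter fun τ => τ ∉ B ∧ Λ τ ⊆ Y).card + 2 * cut s t Y) := by
  classical
  set C : Finset E := univ.filter fun e => ¬(s e ∈ Y ↔ t e ∈ Y) with hC
  set T2 : Finset T := C.biUnion fun e => univ.filter fun τ => e ∈ F τ with hT2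
  set T1 : Finset T := univ.filter fun τ => τ ∉ B ∧ Λ τ ⊆ Y with hT1
  have h2 : T2.card ≤ 2 * cut s t Y := by
    have := Finset.card_biUnion_le_card_mul C (fun e => univ.filter fun τ => e ∈ F τ) 2
      (fun e _ => hG.twice e)
    rw [mul_comm] at this
    exact this
  have hsub : Y ⊆ (T1 ∪ T2).biUnion fun τ => univ.filter fun v => own v = τ := by
    intro v hv
    simp only [mem_biUnion, mem_filter, mem_univ, true_and, exists_eq_right', mem_union]
    by_cases h : own v ∈ T2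
    · exact Or.inr h
    · refine Or.inl ?_
      simp only [hT1, mem_filter, mem_univ, true_and]
      refine ⟨hY v hv, sp_inside hG Y hv fun e he => ?_⟩
      by_contra hn
      exact h (mem_biUnion.2 ⟨e, by simp only [hC, mem_filter, mem_univ, true_and]; exact hn,
        by simpa using he⟩)
  calc Y.card ≤ _ := card_le_card hsub
    _ ≤ (T1 ∪ T2).card * L1 := Finset.card_biUnion_le_card_mul _ _ _ fun τ _ => hG.cell τ
    _ ≤ (T1.card + 2 * cut s t Y) * L1 :=
        Nat.mul_le_mul_right _ ((card_union_le _ _).trans (Nat.add_le_add_left h2 _))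
    _ = _ := mul_comm _ _

omit [Fintype V] [DecidableEq V] [Fintype E] [DecidableEq E] [Fintype X] in
/-- one representative for every cluster -/
lemma sp_reps (cl : T → T) (T1 : Finset T) (J : ℕ)
    (hJ : ∀ τ ∈ T1, (univ.filter fun τ' => cl τ' = cl τ).card ≤ J) :
    ∃ R ⊆ T1, Set.InjOn cl R ∧ T1.card ≤ J * R.card := by
  obtain ⟨R, hR, hinj, him⟩ := Finset.exists_subset_injOn_image_eq_of_surjOn (f := cl)
    (T1 : Set T) (T1.image cl) (by
      intro a ha
      simpa using ha)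
  refine ⟨R, fun x hx => by simpa using hR (mem_coe.2 hx), hinj, ?_⟩
  rw [← card_image_of_injOn hinj, him]
  refine Finset.card_le_mul_card_image T1 J fun a ha => ?_
  obtain ⟨τ, hτ, rfl⟩ := mem_image.1 ha
  exact (card_le_card (filter_subset_filter _ (subset_univ _))).trans (hJ τ hτ)

end Count

section Avg

variable {V X H : Type} [Fintype V] [Fintype X] [NormedAddCommGroup H] [NormedSpace ℝ H]

lemma sp_shift (b : V → ℝ) (hb : ∑ v, b v = 1) (f : V → H) (h : H) :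
    ∑ v, b v • (f v + h) = ∑ v, b v • f v + h := by
  simp only [smul_add, sum_add_distrib, ← sum_smul, hb, one_smul]

lemma sp_norm (b : V → ℝ) (h0 : ∀ v, 0 ≤ b v) (hb : ∑ v, b v = 1) (f : V → H) :
    ‖∑ v, b v • f v‖ ≤ ∑ v, ‖f v‖ := by
  refine (norm_sum_le _ _).trans (sum_le_sum fun v _ => ?_)
  have h1 : b v ≤ 1 := hb ▸ single_le_sum (fun u _ => h0 u) (mem_univ v)
  rw [norm_smul, Real.norm_of_nonneg (h0 v)]
  nlinarith [norm_nonneg (f v), h0 v]

lemma sp_mean {T : Type} (β : T → X → V → ℝ) (m0 : X → ℝ) (h0 : ∀ x, 0 ≤ m0 x)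
    (h1 : ∑ x, m0 x = 1) (τ : T) (f : V → H) (y : H) (r : ℝ)
    (h : ∀ x, ‖∑ v, β τ x v • f v - y‖ ≤ r) : ‖∑ v, mu β m0 τ v • f v - y‖ ≤ r := by
  have e1 : ∑ v, mu β m0 τ v • f v - y = ∑ x, m0 x • (∑ v, β τ x v • f v - y) := by
    simp only [mu, sum_smul, smul_sub, sum_sub_distrib, ← sum_smul, h1, one_smul]
    congr 1
    simp only [sum_smul, smul_sum, mul_smul]
    exact sum_comm
  rw [e1]
  calc _ ≤ ∑ x, ‖m0 x • (∑ v, β τ x v • f v - y)‖ := norm_sum_le _ _
    _ ≤ ∑ x, m0 x * r := sum_le_sum fun x _ => by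
        rw [norm_smul, Real.norm_of_nonneg (h0 x)]
        exact mul_le_mul_of_nonneg_left (h x) (h0 x)
    _ = r := by rw [← sum_mul, h1, one_mul]

end Avg

lemma sp_sq {ι : Type} [Fintype ι] (z : EuclideanSpace ℝ ι) {r : ℝ} (h : ‖z‖ ≤ r) :
    ∑ i, z i ^ 2 ≤ r ^ 2 := by
  rw [← EuclideanSpace.real_norm_sq_eq]
  exact pow_le_pow_left₀ (norm_nonneg _) h 2

theorem sparse_of : ProjStmt → GL2Stmt → SparseStmt := by
  intro hP hGL ε w c hε hε1 hw hc hc1
  have hCE : 1 ≤ 1 / ε ^ 2 := by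
    rw [le_div_iff₀ (by positivity)]
    nlinarith
  obtain ⟨A, hA, hGL⟩ := hGL (c / 2) (1 / ε ^ 2) (by positivity) (by linarith) hCE
  refine ⟨A, hA, fun P α l1 L1 J hP1 hJ hα => ?_⟩
  obtain ⟨K, hGL⟩ := hGL P α (2 * L1 * J) hP1 (by positivity) hα
  refine ⟨K, ?_⟩
  intro V E T X _ _ _ _ _ _ _ s t β Λ own F hG hI hX m0 hm0 hm1 cl rd B hB
  rw [or_iff_not_imp_right]
  intro hY
  push Not at hY
  obtain ⟨Y, hYB, hY⟩ := hY
  have h1 := sp_count hG B Y hYB
  obtain ⟨R, hRT, hinj, hR⟩ := sp_reps cl (univ.filter fun τ => τ ∉ B ∧ Λ τ ⊆ Y) J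
    fun τ hτ => hB τ (mem_filter.1 hτ).2.1
  set n1 := (univ.filter fun τ => τ ∉ B ∧ Λ τ ⊆ Y).card
  have h2 : 4 * L1 * cut s t Y ≤ 4 * L1 * J * cut s t Y :=
    Nat.mul_le_mul_right _ (Nat.le_mul_of_pos_right _ hJ)
  have h3 : Y.card ≤ 2 * L1 * J * R.card := by
    have : L1 * n1 ≤ L1 * (J * R.card) := Nat.mul_le_mul_left _ hR
    nlinarith
  have h4 : 2 * cut s t Y < R.card := by
    by_contra hn
    have : 2 * L1 * J * R.card ≤ 2 * L1 * J * (2 * cut s t Y) :=
      Nat.mul_le_mul_left _ (not_lt.1 hn)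
    nlinarith
  have hne : R.Nonempty := card_pos.1 (by omega)
  obtain ⟨τ0, -⟩ := id hne
  obtain ⟨f, a, p1, p2, -, p4, p5, p6⟩ :=
    hP ε w hε (by linarith) V E T X s t β m0 hI.2 hG.total hm1 cl rd R
  set h : EuclideanSpace ℝ (E ⊕ T) := EuclideanSpace.single (Sum.inr τ0) (1 + ∑ v, ‖f v‖) with hh
  have hn0 : 0 ≤ ∑ v, ‖f v‖ := sum_nonneg fun v _ => norm_nonneg _
  have hhn : ‖h‖ = 1 + ∑ v, ‖f v‖ := by
    rw [hh, EuclideanSpace.norm_single, Real.norm_of_nonneg (by linarith)]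
  have key := hGL V E T X (EuclideanSpace ℝ (E ⊕ T)) s t β Λ own F l1 L1 hG hI.1 hX Y R hne
    (fun τ hτ => (mem_filter.1 (hRT hτ)).2.2) (by omega) (fun v => f v + h)
    (fun b => by
      simp only [add_sub_add_right_eq_sub]
      exact (p1 b).trans_eq (by ring))
    (by
      simp only [add_sub_add_right_eq_sub]
      refine p2.trans ?_
      rw [div_eq_mul_one_div, mul_comm]
      exact mul_le_mul_of_nonneg_left (mul_le_mul_of_nonneg_right hX (Nat.cast_nonneg _))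
        (by positivity))
    (by exact_mod_cast (card_filter_le _ _).trans h3)
  simp only [sp_shift _ (hG.total _ _)] at key
  rcases key with ⟨τ, -, hτ⟩ | ⟨τ, hτ, τ', hτ', hne', y, hy⟩
  · exfalso
    have hXne : (univ : Finset X).Nonempty := by
      by_contra hn
      rw [not_nonempty_iff_eq_empty.1 hn, sum_empty] at hm1
      exact zero_ne_one hm1
    obtain ⟨x, -⟩ := hXne
    have q1 := sp_norm _ (hG.nonneg τ x) (hG.total τ x) f
    have q2 := norm_sub_le (∑ v, β τ x v • f v + h) (∑ v, β τ x v • f v)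
    rw [add_sub_cancel_left] at q2
    linarith [hτ x]
  have hy1 : ∀ x, ‖∑ v, β τ x v • f v - (y - h)‖ ≤ c / 2 := fun x => by
    rw [← sub_add, sub_add_eq_add_sub]
    exact (hy x).1
  have hy2 : ∀ x, ‖∑ v, β τ' x v • f v - (y - h)‖ ≤ c / 2 := fun x => by
    rw [← sub_add, sub_add_eq_add_sub]
    exact (hy x).2
  have ready : ∀ σ ∈ R, σ ∉ rd → (∀ x, ‖∑ v, β σ x v • f v - (y - h)‖ ≤ c / 2) →
      Move s t β m0 ε w c cl rd := fun σ hσ hr hσy => by
    refine Or.inl ⟨σ, hr, fun x x' => ⟨_, p5 σ hσ hr x x', sp_sq _ ?_⟩⟩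
    have := norm_sub_le_norm_sub_add_norm_sub (∑ v, β σ x v • f v) (y - h) (∑ v, β σ x' v • f v)
    rw [norm_sub_rev (y - h)] at this
    linarith [hσy x, hσy x']
  by_cases r1 : τ ∈ rd
  swap
  · exact ready τ hτ r1 hy1
  by_cases r2 : τ' ∈ rd
  swap
  · exact ready τ' hτ' r2 hy2
  refine Or.inr ⟨τ, r1, τ', r2, fun e => hne' (hinj (mem_coe.2 hτ) (mem_coe.2 hτ') e), _,
    p6 τ hτ r1 τ' hτ' r2, sp_sq _ ?_⟩
  have m1 := sp_mean β m0 hm0 hm1 τ f _ _ hy1
  have m2 := sp_mean β m0 hm0 hm1 τ' f _ _ hy2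
  have n1 := norm_sub_le_norm_sub_add_norm_sub (a (cl τ)) (∑ v, mu β m0 τ v • f v) (y - h)
  have n2 := norm_sub_le_norm_sub_add_norm_sub (a (cl τ')) (∑ v, mu β m0 τ' v • f v) (y - h)
  have n3 := norm_sub_le_norm_sub_add_norm_sub (a (cl τ)) (y - h) (a (cl τ'))
  rw [norm_sub_rev (y - h)] at n3
  have e2 : 2 / w = 1 / w + 1 / w := by ring
  linarith [p4 τ r1, p4 τ' r2]

end Pool.Agent.Lib.MP_c8786f_co.W5
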