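import Pool.Agent.Lib.MP_c8786f_co.W5.Defs3
import Pool.Agent.Lib.MP_c8786f_co.W5.Fix
import Pool.Agent.Lib.MP_c8786f_co.W5.Sparse

/-!
A thin source of bounded mass is absorbed by the windows.
-/

namespace Pool.Agent.Lib.MP_c8786f_co.W5

open Finset

set_option linter.unusedSectionVars false

variable {V E : Type} [Fintype V] [DecidableEq V] [Fintype E]

lemma rt_sum (s t : E → V) (x : E → ℝ) (Y : Finset V) : ∑ v ∈ Y, bd s t x v =
    ∑ e, ((if s e ∈ Y then x e else 0) - if t e ∈ Y then x e else 0) := by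
  simp only [fix_bd]
  rw [sum_comm]
  exact sum_congr rfl fun e _ => by simp [sum_sub_distrib]

/-- Gale's theorem with real capacities -/
lemma rt_gale (s t : E → V) (c : E → ℝ) (hc : ∀ e, 0 ≤ c e) (b : V → ℝ) (hb : ∑ v, b v = 0)
    (h : ∀ Y : Finset V, ∑ v ∈ Y, b v ≤ ∑ e, if (s e ∈ Y ↔ t e ∈ Y) then 0 else c e) :
    ∃ x : E → ℝ, (∀ e, |x e| ≤ c e) ∧ ∀ v, bd s t x v = b v := by
  classical
  have hcont : Continuous fun x : E → ℝ => ∑ v, (bd s t x v - b v) ^ 2 := by
    unfold bd; fun_prop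
  obtain ⟨x, hx, hmin⟩ := (isCompact_Icc (a := fun e => -c e) (b := c)).exists_isMinOn
    ⟨0, fun e => by simpa using hc e, fun e => hc e⟩ hcont.continuousOn
  set φ : V → ℝ := fun v => bd s t x v - b v with hφ
  have key : ∀ e (ε : ℝ), ε ^ 2 = 1 → ε * φ (s e) < ε * φ (t e) → c e ≤ ε * x e := by
    intro e ε hε hlt
    by_contra hn
    push Not at hn
    have hne : s e ≠ t e := fun h => by rw [h] at hlt; exact lt_irrefl _ hlt
    set δ := min (c e - ε * x e) ((ε * φ (t e) - ε * φ (s e)) / 2) with hδ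
    have d0 : 0 < δ := lt_min (by linarith) (by linarith)
    have d1 : δ ≤ c e - ε * x e := min_le_left _ _
    have d2 : δ ≤ (ε * φ (t e) - ε * φ (s e)) / 2 := min_le_right _ _
    have hε' : ε = 1 ∨ ε = -1 := sq_eq_one_iff.mp hε
    have hmem : (fun e' => x e' + if e' = e then ε * δ else 0) ∈ Set.Icc (fun e => -c e) c := by
      refine ⟨fun e' => ?_, fun e' => ?_⟩
      · have h1 := hx.1 e'
        by_cases h : e' = e
        · subst h
          simp only [if_true] at h1 ⊢
          rcases hε' with h | h <;> rw [h] at d1 ⊢ <;> linarith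
        · simpa [h] using h1
      · have h1 := hx.2 e'
        by_cases h : e' = e
        · subst h
          simp only [if_true] at h1 ⊢
          rcases hε' with h | h <;> rw [h] at d1 ⊢ <;> linarith
        · simpa [h] using h1
    have h1 : ∑ v, φ v ^ 2 ≤ _ := hmin hmem
    have h2 : ∀ v, bd s t (fun e' => x e' + if e' = e then ε * δ else 0) v - b v =
        φ v + ((if s e = v then ε * δ else 0) - if t e = v then ε * δ else 0) := by
      intro v
      have : bd s t (fun e' => x e' + if e' = e then ε * δ else 0) v = bd s t x v +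
          ((if s e = v then ε * δ else 0) - if t e = v then ε * δ else 0) := by
        simp only [bd, sum_add_distrib, sum_ite_eq', mem_filter, mem_univ, true_and]
        ring
      rw [this, hφ]; ring
    have h3 : ∀ v, (φ v + ((if s e = v then ε * δ else 0) - if t e = v then ε * δ else 0)) ^ 2 =
        φ v ^ 2 + ((if s e = v then 2 * (ε * δ) * φ v + δ ^ 2 else 0) +
          if t e = v then -(2 * (ε * δ) * φ v) + δ ^ 2 else 0) := by
      intro v
      by_cases a1 : s e = v <;> by_cases a2 : t e = v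
      · exact absurd (a1.trans a2.symm) hne
      · simp only [a1, a2, if_true, if_false]; linear_combination δ ^ 2 * hε
      · simp only [a1, a2, if_true, if_false]; linear_combination δ ^ 2 * hε
      · simp [a1, a2]
    simp only [h2, h3, sum_add_distrib, sum_ite_eq, mem_univ, if_true] at h1
    nlinarith
  have h0 : ∑ v, φ v = 0 := by
    simp only [hφ, sum_sub_distrib, hb, rt_sum s t x univ]
    simp
  have h1 : ∀ v, 0 ≤ φ v := by
    by_contra hn
    push Not at hn
    obtain ⟨v, hv⟩ := hn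
    have h2 : ∑ w ∈ univ.filter (fun w => φ w < 0), φ w < 0 :=
      sum_neg (fun w hw => (mem_filter.mp hw).2) ⟨v, by simpa using hv⟩
    have h3 := h (univ.filter fun w => φ w < 0)
    have h4 : ∑ w ∈ univ.filter (fun w => φ w < 0), φ w =
        ∑ w ∈ univ.filter (fun w => φ w < 0), bd s t x w -
          ∑ w ∈ univ.filter (fun w => φ w < 0), b w := sum_sub_distrib _ _
    have h5 : (∑ e, if (s e ∈ univ.filter (fun w => φ w < 0) ↔
        t e ∈ univ.filter (fun w => φ w < 0)) then 0 else c e) ≤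
        ∑ w ∈ univ.filter (fun w => φ w < 0), bd s t x w := by
      rw [rt_sum]
      refine sum_le_sum fun e _ => ?_
      have k1 := key e 1 (by norm_num)
      have k2 := key e (-1) (by norm_num)
      simp only [mem_filter, mem_univ, true_and]
      by_cases a1 : φ (s e) < 0 <;> by_cases a2 : φ (t e) < 0 <;> simp only [a1, a2] <;> simp
      · simpa using k1 (by linarith)
      · simpa using k2 (by linarith)
    linarith
  refine ⟨x, fun e => abs_le.mpr ⟨hx.1 e, hx.2 e⟩, fun v => ?_⟩
  exact sub_eq_zero.mp ((sum_eq_zero_iff_of_nonneg fun v _ => h1 v).mp h0 v (mem_univ v))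

/-- ports and port flows -/
lemma rt_ports {T X : Type} [DecidableEq E] [Fintype T] [DecidableEq T] [Fintype X]
    {s t : E → V} {β : T → X → V → ℝ} {Λ : T → Finset V} {own : V → T} {F : T → Finset E}
    {α l0 l1 : ℝ} {L1 K : ℕ} (G : Geo s t β Λ own F α l0 l1 L1 K) (m0 : X → ℝ)
    (hm0 : ∀ x, 0 ≤ m0 x) (hm1 : ∑ x, m0 x = 1) :
    ∃ (c : T → V) (ψ : T → E → ℝ), (∀ τ, c τ ∈ Λ τ) ∧
      (∀ τ e, |ψ τ e| ≤ if e ∈ F τ then 1 else 0) ∧
      ∀ τ w, bd s t (ψ τ) w = (if c τ = w then 1 else 0) - mu β m0 τ w := by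
  have hX : Nonempty X := by
    by_contra h
    rw [not_nonempty_iff] at h
    simp at hm1
  obtain ⟨x0⟩ := hX
  have hc : ∀ τ, ∃ v, v ∈ Λ τ := fun τ => by
    by_contra h
    push Not at h
    have := G.total τ x0
    rw [sum_eq_zero fun v _ => G.supp τ x0 v (h v)] at this
    exact zero_ne_one this
  choose c hc using hc
  have mu0 : ∀ τ v, 0 ≤ mu β m0 τ v := fun τ v =>
    sum_nonneg fun x _ => mul_nonneg (hm0 x) (G.nonneg τ x v)
  have mu1 : ∀ τ, ∑ v, mu β m0 τ v = 1 := fun τ => by
    simp only [mu]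
    rw [sum_comm]
    simp only [← mul_sum, G.total, mul_one, hm1]
  have hψ : ∀ τ, ∃ ψ : E → ℝ, (∀ e, |ψ e| ≤ if e ∈ F τ then 1 else 0) ∧
      ∀ w, bd s t ψ w = (if c τ = w then 1 else 0) - mu β m0 τ w := by
    intro τ
    have k1 : ∀ v, ∃ ψ : E → ℝ, (∀ e, |ψ e| ≤ if e ∈ F τ then 1 else 0) ∧ ∀ w,
        mu β m0 τ v * bd s t ψ w =
          mu β m0 τ v * ((if c τ = w then 1 else 0) - if v = w then 1 else 0) := by
      intro v
      by_cases hv : v ∈ Λ τ
      · obtain ⟨ψ, h1, h2⟩ := fix_path s t (F τ) (c τ) v fun φ hφ => by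
          have := G.lip0 τ φ 0 le_rfl (fun e he => by simp [hφ e he]) _ (hc τ) _ hv
          rw [mul_zero, abs_nonpos_iff] at this
          linarith
        exact ⟨ψ, h1, fun w => by rw [h2]⟩
      · have : mu β m0 τ v = 0 := sum_eq_zero fun x _ => by rw [G.supp τ x v hv, mul_zero]
        exact ⟨0, fun e => by split_ifs <;> simp, fun w => by simp [this]⟩
    choose ψ h1 h2 using k1
    refine ⟨fun e => ∑ v, mu β m0 τ v * ψ v e, fun e => ?_, fun w => ?_⟩
    · refine (abs_sum_le_sum_abs _ _).trans ?_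
      refine le_trans (sum_le_sum fun v _ => ?_)
        (le_of_eq (b := if e ∈ F τ then (1 : ℝ) else 0) (by rw [← sum_mul, mu1 τ, one_mul] :
          ∑ v, mu β m0 τ v * (if e ∈ F τ then (1 : ℝ) else 0) = _))
      rw [abs_mul, abs_of_nonneg (mu0 τ v)]
      exact mul_le_mul_of_nonneg_left (h1 v e) (mu0 τ v)
    · have : bd s t (fun e => ∑ v, mu β m0 τ v * ψ v e) w = ∑ v, mu β m0 τ v * bd s t (ψ v) w := by
        simp only [bd, mul_sub, mul_sum, sum_sub_distrib]
        rw [sum_comm, sum_comm (s := univ.filter fun e => t e = w)]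
      rw [this, sum_congr rfl fun v _ => h2 v w]
      simp only [mul_sub, sum_sub_distrib]
      rw [← sum_mul, mu1, one_mul]
      simp
  choose ψ hψ1 hψ2 using hψ
  exact ⟨c, ψ, hc, hψ1, hψ2⟩

theorem route : RouteStmt := by
  intro L1 A' Φ η ξ hη hξ
  refine ⟨A' * (⌈Φ / ξ⌉₊ + 4 * (L1 * (2 * ⌈Φ / ξ⌉₊ + ⌈Φ / η⌉₊))) +
    L1 * (2 * ⌈Φ / ξ⌉₊ + ⌈Φ / η⌉₊), ?_⟩
  intro V E T X _ _ _ _ _ _ _ s t β Λ own F α l0 l1 G iso m0 hm0 hm1 B hB σ hσ hΦ
  classical
  obtain ⟨c, ψ, hc, hψ1, hψ2⟩ := rt_ports G m0 hm0 hm1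
  have key : ∀ Y : Finset V, ∑ v ∈ Y, |σ v| ≤
      ξ * cut s t Y + η * (B.filter fun τ => c τ ∈ Y).card := by
    intro Y
    have p1 : 0 ≤ ξ * cut s t Y := by positivity
    have p2 : 0 ≤ η * (B.filter fun τ => c τ ∈ Y).card := by positivity
    have p3 : ∑ v ∈ Y, |σ v| ≤ Φ :=
      (sum_le_sum_of_subset_of_nonneg (subset_univ Y) fun _ _ _ => abs_nonneg _).trans hΦ
    by_cases h1 : ⌈Φ / ξ⌉₊ ≤ cut s t Y
    · have := Nat.ceil_le.mp h1
      rw [div_le_iff₀ hξ] at this
      linarith
    by_cases h2 : ⌈Φ / η⌉₊ ≤ (B.filter fun τ => c τ ∈ Y).card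
    · have := Nat.ceil_le.mp h2
      rw [div_le_iff₀ hη] at this
      linarith
    set Y2 := Y.filter fun v => own v ∈ B with hY2
    set Y1 := Y.filter fun v => own v ∉ B with hY1
    set C : Finset E := univ.filter fun e => ¬(s e ∈ Y ↔ t e ∈ Y) with hC
    set T2 : Finset T := C.biUnion fun e => univ.filter fun τ => e ∈ F τ with hT2
    have h3 : T2.card ≤ cut s t Y * 2 :=
      card_biUnion_le_card_mul C (fun e => univ.filter fun τ => e ∈ F τ) 2 fun e _ => G.twice e
    have h4 : Y2 ⊆ (T2 ∪ B.filter fun τ => c τ ∈ Y).biUnion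
        fun τ => univ.filter fun v => own v = τ := by
      intro v hv
      obtain ⟨hv1, hv2⟩ := mem_filter.mp hv
      simp only [mem_biUnion, mem_filter, mem_univ, true_and, exists_eq_right', mem_union]
      by_cases h : own v ∈ T2
      · exact Or.inl h
      · refine Or.inr ⟨hv2, sp_inside G Y hv1 (fun e he => ?_) (hc _)⟩
        by_contra hn
        exact h (mem_biUnion.2 ⟨e, by simp only [hC, mem_filter, mem_univ, true_and]; exact hn,
          by simpa using he⟩)
    have h5 : Y2.card ≤ L1 * (2 * ⌈Φ / ξ⌉₊ + ⌈Φ / η⌉₊) := by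
      refine (card_le_card h4).trans ((card_biUnion_le_card_mul _ _ _ fun τ _ => G.cell τ).trans ?_)
      rw [mul_comm]
      exact Nat.mul_le_mul_left _ ((card_union_le _ _).trans (by omega))
    have h6 : cut s t Y1 ≤ cut s t Y + Y2.card * 4 := by
      have : (univ.filter fun e => ¬(s e ∈ Y1 ↔ t e ∈ Y1)) ⊆ C ∪ Y2.biUnion
          fun v => (univ.filter fun e => s e = v) ∪ univ.filter fun e => t e = v := by
        intro e he
        simp only [hY1, hY2, hC, mem_filter, mem_univ, true_and, mem_union, mem_biUnion] at he ⊢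
        by_cases a1 : s e ∈ Y ∧ own (s e) ∈ B
        · exact Or.inr ⟨_, a1, Or.inl rfl⟩
        by_cases a2 : t e ∈ Y ∧ own (t e) ∈ B
        · exact Or.inr ⟨_, a2, Or.inr rfl⟩
        exact Or.inl (by tauto)
      exact (card_le_card this).trans ((card_union_le _ _).trans (Nat.add_le_add_left
        (card_biUnion_le_card_mul _ _ _ fun v _ => (card_union_le _ _).trans (G.deg v)) _))
    have h7 := hB Y1 fun v hv => (mem_filter.mp hv).2
    have h8 : Y2.card + Y1.card = Y.card := card_filter_add_card_filter_not _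
    have h9 : A' * cut s t Y1 ≤ A' * (⌈Φ / ξ⌉₊ + 4 * (L1 * (2 * ⌈Φ / ξ⌉₊ + ⌈Φ / η⌉₊))) :=
      Nat.mul_le_mul_left _ (by omega)
    have h10 : (Y.card : ℝ) ≤ 2 * cut s t Y := by exact_mod_cast iso Y (by omega)
    have h11 : ∑ v ∈ Y, |σ v| ≤ Y.card • (ξ / 2) :=
      sum_le_card_nsmul _ _ _ fun v _ => by linarith [hσ v]
    rw [nsmul_eq_mul] at h11
    nlinarith
  have hcut : ∀ Y : Finset V, (∑ e, if (s e ∈ Y ↔ t e ∈ Y) then 0 else ξ) = ξ * cut s t Y := by
    intro Y
    rw [cut, card_filter]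
    push_cast
    rw [mul_sum]
    exact sum_congr rfl fun e _ => by split_ifs <;> simp
  obtain ⟨x, hx1, hx2⟩ := rt_gale (V := Option V) (E := E ⊕ T)
    (Sum.elim (fun e => some (s e)) fun _ => none) (Sum.elim (fun e => some (t e)) fun τ => some (c τ))
    (Sum.elim (fun _ => ξ) fun τ => if τ ∈ B then η else 0)
    (fun e => by
      rcases e with e | τ
      · exact hξ.le
      · simp only [Sum.elim_inr]; split_ifs <;> linarith)
    (fun v => v.elim (∑ v, σ v) fun v => -σ v) (by simp [Fintype.sum_option]) (fun Y => by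
      set Y0 : Finset V := univ.filter fun v => some v ∈ Y with hY0
      have e1 : ∑ v ∈ Y, (v.elim (∑ v, σ v) fun v => -σ v) =
          (if none ∈ Y then ∑ v, σ v else 0) - ∑ v ∈ Y0, σ v := by
        rw [← univ_inter Y, ← filter_mem_eq_inter, sum_filter, Fintype.sum_option, hY0, sum_filter,
          sub_eq_add_neg, ← sum_neg_distrib]
        simp only [filter_mem_eq_inter, univ_inter, Option.elim_none, Option.elim_some]
        congr 1
        exact sum_congr rfl fun v _ => by split_ifs <;> simp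
      have e2 := hcut Y0
      simp only [hY0, mem_filter, mem_univ, true_and] at e2
      rw [e1, Fintype.sum_sum_type]
      simp only [Sum.elim_inl, Sum.elim_inr]
      rw [e2]
      by_cases h : none ∈ Y
      · have k := key Y0ᶜ
        rw [cut_compl] at k
        have k1 : ∑ v ∈ Y0ᶜ, σ v ≤ ∑ v ∈ Y0ᶜ, |σ v| := sum_le_sum fun v _ => le_abs_self _
        have k2 := sum_compl_add_sum Y0 σ
        have k3 : (∑ τ, if (none ∈ Y ↔ some (c τ) ∈ Y) then 0 else if τ ∈ B then η else 0) =
            η * (B.filter fun τ => c τ ∈ Y0ᶜ).card := by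
          rw [card_filter, ← sum_subset (subset_univ B) fun τ _ hτ => by simp [hτ]]
          push_cast
          rw [mul_sum]
          exact sum_congr rfl fun τ hτ => by by_cases a : some (c τ) ∈ Y <;> simp [hY0, h, hτ, a]
        rw [k3, if_pos h]
        linarith
      · have k := key Y0
        have k1 : -∑ v ∈ Y0, σ v ≤ ∑ v ∈ Y0, |σ v| := by
          rw [← sum_neg_distrib]; exact sum_le_sum fun v _ => neg_le_abs _
        have k3 : (∑ τ, if (none ∈ Y ↔ some (c τ) ∈ Y) then 0 else if τ ∈ B then η else 0) =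
            η * (B.filter fun τ => c τ ∈ Y0).card := by
          rw [card_filter, ← sum_subset (subset_univ B) fun τ _ hτ => by simp [hτ]]
          push_cast
          rw [mul_sum]
          exact sum_congr rfl fun τ hτ => by by_cases a : some (c τ) ∈ Y <;> simp [hY0, h, hτ, a]
        rw [k3, if_neg h]
        linarith)
  have hy : ∀ τ, |x (.inr τ)| ≤ η := fun τ => (hx1 _).trans (by
    simp only [Sum.elim_inr]; split_ifs <;> linarith)
  refine ⟨fun e => x (.inl e) - ∑ τ, x (.inr τ) * ψ τ e, fun τ => x (.inr τ), fun e => ?_, hy,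
    fun τ h => by simpa [h] using hx1 (.inr τ), fun v => ?_⟩
  · refine (abs_sub _ _).trans (add_le_add (hx1 (.inl e)) ((abs_sum_le_sum_abs _ _).trans ?_))
    have h1 : ∑ τ, |x (.inr τ) * ψ τ e| ≤ ∑ τ, if e ∈ F τ then η else 0 :=
      sum_le_sum fun τ _ => by
        rw [abs_mul]
        refine (mul_le_mul (hy τ) (hψ1 τ e) (abs_nonneg _) hη.le).trans ?_
        split_ifs <;> simp
    rw [← sum_filter, sum_const, nsmul_eq_mul] at h1
    have h2 : ((univ.filter fun τ => e ∈ F τ).card : ℝ) ≤ 2 := by exact_mod_cast G.twice e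
    exact h1.trans (mul_le_mul_of_nonneg_right h2 hη.le)
  · have h1 := hx2 (some v)
    rw [fix_bd, Fintype.sum_sum_type] at h1
    simp only [Sum.elim_inl, Sum.elim_inr, Option.some.injEq, reduceCtorEq, if_false, zero_sub,
      Option.elim_some, sum_neg_distrib] at h1
    rw [← fix_bd s t fun e => x (.inl e)] at h1
    have h3 : bd s t (fun e => x (.inl e) - ∑ τ, x (.inr τ) * ψ τ e) v =
        bd s t (fun e => x (.inl e)) v - ∑ τ, x (.inr τ) * bd s t (ψ τ) v := by
      simp only [bd, mul_sub, mul_sum, sum_sub_distrib]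
      rw [sum_comm (s := univ.filter fun e => s e = v), sum_comm (s := univ.filter fun e => t e = v)]
      ring
    rw [h3]
    simp only [hψ2, mul_sub, sum_sub_distrib, mul_ite, mul_one, mul_zero]
    linarith

end Pool.Agent.Lib.MP_c8786f_co.W5
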