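import Pool.Agent.Lib.MP_c8786f_co.W5.Defs2

/-!
With one big cluster whose complement is sparse a move is always available.
-/

namespace Pool.Agent.Lib.MP_c8786f_co.W5

open Finset
open scoped RealInnerProductSpace

lemma sc_markov {ι : Type} (S : Finset ι) (g : ι → ℝ) {r En : ℝ} (hr : 0 < r)
    (h : ∑ i ∈ S, g i ^ 2 ≤ En) : ((S.filter fun i => r ≤ g i).card : ℝ) ≤ En / r ^ 2 := by
  rw [le_div_iff₀ (by positivity), ← nsmul_eq_mul, ← sum_const]
  refine le_trans ?_ h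
  exact (sum_le_sum fun i hi => pow_le_pow_left₀ hr.le (mem_filter.mp hi).2 2).trans
    (sum_le_sum_of_subset_of_nonneg (filter_subset _ _) fun _ _ _ => sq_nonneg _)

lemma sc_avg {V H : Type} [Fintype V] [NormedAddCommGroup H] [NormedSpace ℝ H] {μ : V → ℝ}
    (f : V → H) (y : H) {r : ℝ} (h0 : ∀ v, 0 ≤ μ v) (h1 : ∑ v, μ v = 1)
    (h : ∀ v, μ v ≠ 0 → ‖f v - y‖ ≤ r) : ‖∑ v, μ v • f v - y‖ ≤ r := by
  have e : ∑ v, μ v • f v - y = ∑ v, μ v • (f v - y) := by
    simp only [smul_sub, sum_sub_distrib, ← sum_smul, h1, one_smul]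
  rw [e]
  refine (norm_sum_le _ _).trans ((sum_le_sum (g := fun v => μ v * r) fun v _ => ?_).trans ?_)
  · rw [norm_smul, Real.norm_of_nonneg (h0 v)]
    by_cases hv : μ v = 0
    · simp [hv]
    · exact mul_le_mul_of_nonneg_left (h v hv) (h0 v)
  · rw [← sum_mul, h1, one_mul]

lemma sc_cover {A B : Type} [Fintype A] [DecidableEq B] (S : Finset B) (p : A → B → Prop)
    [∀ a b, Decidable (p a b)] (n : ℕ) (h : ∀ b, (univ.filter fun a => p a b).card ≤ n) :
    (univ.filter fun a => ∃ b ∈ S, p a b).card ≤ n * S.card := by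
  classical
  rw [mul_comm]
  refine le_trans (card_le_card fun a ha => ?_)
    (card_biUnion_le_card_mul S (fun b => univ.filter fun a => p a b) n fun b _ => h b)
  obtain ⟨b, hb, hp⟩ := (mem_filter.mp ha).2
  exact mem_biUnion.mpr ⟨b, hb, mem_filter.mpr ⟨mem_univ _, hp⟩⟩

/-- few vertices are far from the position of the big cluster -/
lemma sc_count (hC : CheegerStmt) {V E T X H : Type} [Fintype V] [DecidableEq V] [Fintype E]
    [DecidableEq E] [Fintype T] [DecidableEq T] [Fintype X] [NormedAddCommGroup H]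
    [NormedSpace ℝ H] {s t : E → V} {β : T → X → V → ℝ} {Λ : T → Finset V} {own : V → T}
    {F : T → Finset E} {α P l1 : ℝ} {L1 A' : ℕ} (hG : Geo s t β Λ own F α P l1 L1 0)
    (hl : 0 ≤ l1) {m0 : X → ℝ} (hm : ∀ x, 0 ≤ m0 x) (hm1 : ∑ x, m0 x = 1) (B : Finset T)
    (hsp : ∀ Y : Finset V, (∀ v ∈ Y, own v ∉ B) → Y.card ≤ A' * cut s t Y)
    (f : V → H) (y : H) {σ En : ℝ} (hσ : 0 < σ) (h1 : ∑ e, ‖f (t e) - f (s e)‖ ^ 2 ≤ En)
    (h2 : ∑ τ ∈ B, ‖y - ∑ v, mu β m0 τ v • f v‖ ^ 2 ≤ En) :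
    ((univ.filter fun v => 2 * σ < ‖f v - y‖).card : ℝ) ≤
      L1 * (2 * (En / (σ / (2 * (l1 + 1))) ^ 2) + En / (σ / 2) ^ 2) * (1 + 32 * A' ^ 2) +
        8 * A' ^ 2 * En / σ ^ 2 := by
  classical
  set ρ := σ / (2 * (l1 + 1)) with hρ
  have hρ0 : 0 < ρ := by positivity
  let E1 := univ.filter fun e => ρ ≤ ‖f (t e) - f (s e)‖
  let B1 := univ.filter fun τ => ∃ e ∈ E1, e ∈ F τ
  let B2 := B.filter fun τ => σ / 2 ≤ ‖y - ∑ v, mu β m0 τ v • f v‖
  let U := univ.filter fun v => ∃ τ ∈ B1 ∪ B2, own v = τ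
  have c1 : (E1.card : ℝ) ≤ En / ρ ^ 2 := sc_markov _ _ hρ0 h1
  have c2 : (B1.card : ℝ) ≤ 2 * E1.card := by
    exact_mod_cast sc_cover E1 (fun τ e => e ∈ F τ) 2 hG.twice
  have c3 : (B2.card : ℝ) ≤ En / (σ / 2) ^ 2 := sc_markov _ _ (by positivity) h2
  have c4 : (U.card : ℝ) ≤ L1 * (B1.card + B2.card) := by
    exact_mod_cast (sc_cover (B1 ∪ B2) (fun v τ => own v = τ) L1 hG.cell).trans
      (Nat.mul_le_mul_left _ (card_union_le _ _))
  have c5 : (U.card : ℝ) ≤ L1 * (2 * (En / ρ ^ 2) + En / (σ / 2) ^ 2) :=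
    c4.trans (mul_le_mul_of_nonneg_left (by linarith) (Nat.cast_nonneg _))
  have near : ∀ v, v ∉ U → own v ∈ B → ‖f v - y‖ ≤ σ := by
    intro v hv hB
    have hn : own v ∉ B1 ∪ B2 := fun h => hv (mem_filter.mpr ⟨mem_univ _, _, h, rfl⟩)
    rw [mem_union, not_or] at hn
    have a1 : ∀ e ∈ F (own v), ‖f (t e) - f (s e)‖ ≤ ρ := fun e he => by
      by_contra h
      exact hn.1 (mem_filter.mpr ⟨mem_univ _, e,
        mem_filter.mpr ⟨mem_univ _, (not_le.mp h).le⟩, he⟩)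
    have a2 : ‖y - ∑ u, mu β m0 (own v) u • f u‖ ≤ σ / 2 := by
      by_contra h
      exact hn.2 (mem_filter.mpr ⟨hB, (not_le.mp h).le⟩)
    have a3 : ‖∑ u, mu β m0 (own v) u • f u - f v‖ ≤ σ / 2 := by
      refine sc_avg f (f v) (fun u => sum_nonneg fun x _ => mul_nonneg (hm x) (hG.nonneg _ _ _))
        ?_ fun u hu => ?_
      · unfold mu
        rw [sum_comm]
        simp only [← mul_sum, hG.total, mul_one, hm1]
      · have hu' : u ∈ Λ (own v) := by
          by_contra h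
          exact hu (sum_eq_zero fun x _ => by rw [hG.supp _ _ _ h, mul_zero])
        have h3 := hG.lip1 v (fun z => ‖f z - f v‖) ρ hρ0.le (fun e he =>
          ((abs_norm_sub_norm_le _ _).trans (by rw [sub_sub_sub_cancel_right])).trans (a1 e he))
          u hu'
        simp only [sub_self, norm_zero, zero_sub, abs_neg, abs_norm] at h3
        refine h3.trans ?_
        rw [hρ, ← mul_div_assoc, div_le_div_iff₀ (by positivity) (by positivity)]
        nlinarith
    have a4 := norm_sub_le_norm_sub_add_norm_sub y (∑ u, mu β m0 (own v) u • f u) (f v)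
    rw [norm_sub_rev]
    linarith
  let h : V → ℝ := fun v => min σ (max 0 (‖f v - y‖ - σ))
  let g : V → ℝ := fun v => if own v ∈ B then 0 else h v
  have h0 : ∀ v, 0 ≤ g v ∧ g v ≤ σ := fun v => by
    simp only [g]
    split_ifs
    · exact ⟨le_rfl, hσ.le⟩
    · exact ⟨le_min hσ.le (le_max_left _ _), min_le_left _ _⟩
  have gh : ∀ v, v ∉ U → g v = h v := fun v hv => by
    simp only [g]
    split_ifs with hB
    · simp only [h]
      rw [max_eq_left (by linarith [near v hv hB]), min_eq_right hσ.le]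
    · rfl
  have hlip : ∀ u v, |h u - h v| ≤ ‖f u - f v‖ := fun u v => by
    refine (abs_min_sub_min_le_max _ _ _ _).trans (max_le (by simp) ?_)
    refine (abs_max_sub_max_le_max _ _ _ _).trans (max_le (by simp) ?_)
    rw [sub_sub_sub_cancel_right]
    exact (abs_norm_sub_norm_le _ _).trans (by rw [sub_sub_sub_cancel_right])
  have c6 : ((univ.filter fun e => s e ∈ U ∨ t e ∈ U).card : ℝ) ≤ 4 * U.card := by
    have := sc_cover U (fun e v => s e = v ∨ t e = v) 4 fun v => by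
      rw [filter_or]
      exact (card_union_le _ _).trans (hG.deg v)
    suffices h3 : (univ.filter fun e => s e ∈ U ∨ t e ∈ U).card ≤ 4 * U.card by
      exact_mod_cast h3
    refine le_trans (card_le_card fun e he => mem_filter.mpr ⟨mem_univ _, ?_⟩) this
    rcases (mem_filter.mp he).2 with h3 | h3
    · exact ⟨_, h3, Or.inl rfl⟩
    · exact ⟨_, h3, Or.inr rfl⟩
  have c7 : ∑ e, (g (t e) - g (s e)) ^ 2 ≤ En + σ ^ 2 * (4 * U.card) := by
    have : ∀ e, (g (t e) - g (s e)) ^ 2 ≤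
        ‖f (t e) - f (s e)‖ ^ 2 + σ ^ 2 * if s e ∈ U ∨ t e ∈ U then 1 else 0 := fun e => by
      split_ifs with h3
      · have := h0 (t e)
        have := h0 (s e)
        nlinarith [sq_nonneg ‖f (t e) - f (s e)‖]
      · rw [not_or] at h3
        rw [gh _ h3.1, gh _ h3.2, mul_zero, add_zero, ← sq_abs]
        exact pow_le_pow_left₀ (abs_nonneg _) (hlip _ _) 2
    refine (sum_le_sum fun e _ => this e).trans ?_
    rw [sum_add_distrib, ← mul_sum, sum_boole]
    exact add_le_add h1 (mul_le_mul_of_nonneg_left c6 (sq_nonneg _))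
  have c8 := hC V E s t A' (univ.filter fun v => own v ∉ B) g hG.deg (Nat.cast_nonneg _)
    (fun Y hY => by exact_mod_cast hsp Y fun v hv => (mem_filter.mp (hY hv)).2)
    (fun v => (h0 v).1) fun v hv => if_pos (by simpa using hv)
  have c9 := sc_markov univ g hσ
    (c8.trans (mul_le_mul_of_nonneg_left c7 (by positivity)))
  have c10 : (univ.filter fun v => 2 * σ < ‖f v - y‖) ⊆ U ∪ univ.filter fun v => σ ≤ g v := by
    intro v hv
    by_cases h3 : v ∈ U
    · exact mem_union_left _ h3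
    · refine mem_union_right _ (mem_filter.mpr ⟨mem_univ _, ?_⟩)
      rw [gh v h3]
      exact le_min le_rfl (le_max_of_le_right (by linarith [(mem_filter.mp hv).2]))
  have c11 : ((univ.filter fun v => 2 * σ < ‖f v - y‖).card : ℝ) ≤
      U.card + (univ.filter fun v => σ ≤ g v).card := by
    exact_mod_cast (card_le_card c10).trans (card_union_le _ _)
  have c12 : 8 * (A' : ℝ) ^ 2 * (En + σ ^ 2 * (4 * U.card)) / σ ^ 2 =
      8 * A' ^ 2 * En / σ ^ 2 + 32 * A' ^ 2 * U.card := by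
    field_simp
    ring
  have c13 := mul_le_mul_of_nonneg_right c5 (show (0 : ℝ) ≤ 1 + 32 * A' ^ 2 by positivity)
  linarith

theorem stageC_of (hP : ProjStmt) (hGL : GL2Stmt) (hC : CheegerStmt) : StageCStmt := by
  intro ε w c hε hε1 hw hc hc1
  have hCE : 1 ≤ 2 / ε ^ 2 := by
    rw [le_div_iff₀ (by positivity)]; nlinarith
  obtain ⟨A, hA, hGL⟩ := hGL (c / 2) (2 / ε ^ 2) (by positivity) (by linarith) hCE
  refine ⟨A, hA, fun P α l1 L1 A' hP1 hl hα => ?_⟩
  set En := 2 / ε ^ 2 * P with hEn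
  obtain ⟨K, hK⟩ := hGL P α (L1 * (2 * (En / (c / 64 / (2 * (l1 + 1))) ^ 2) +
    En / (c / 64 / 2) ^ 2) * (1 + 32 * A' ^ 2) + 8 * A' ^ 2 * En / (c / 64) ^ 2) hP1
    (by positivity) hα
  refine ⟨K, fun V E T X _ _ _ _ _ _ _ s t β Λ own F hG hI hX m0 hm hm1 cl rd B hal hB hcl hsp
    hne => ?_⟩
  have hcu : cut s t univ = 0 := by simp [cut]
  obtain ⟨τ0, h0⟩ : B.Nonempty := by
    by_contra hn
    have h1 := hsp univ fun v _ hv => hn ⟨_, hv⟩
    rw [hcu, mul_zero, Nat.le_zero, card_eq_zero] at h1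
    obtain ⟨x, -⟩ := nonempty_of_sum_ne_zero (hm1.trans_ne one_ne_zero)
    have h2 : ∀ τ : T, False := fun τ => by simpa [h1] using hG.total τ x
    rcases hne with h | ⟨τ, -⟩
    · obtain ⟨A, hA⟩ := card_pos.mp (show 0 < (univ.image cl).card by omega)
      obtain ⟨τ, -⟩ := mem_image.mp hA
      exact h2 τ
    · exact h2 τ
  obtain ⟨τ1, h1⟩ : ∃ τ1, cl τ1 ≠ cl τ0 := by
    rcases hne with h | ⟨τ, h⟩
    · obtain ⟨A, hA, hA'⟩ := exists_mem_ne (show 1 < (univ.image cl).card from h) (cl τ0)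
      obtain ⟨τ, -, rfl⟩ := mem_image.mp hA
      exact ⟨τ, hA'⟩
    · exact ⟨τ, fun h' => h (hal τ h τ0 h'.symm ▸ hB h0)⟩
  obtain ⟨f, a, p1, p2, p3, p4, p5, p6⟩ := hP ε w hε (by linarith) V E T X s t β m0 hI.2 hG.total
    hm1 cl rd {τ0, τ1}
  have hc2 : (({τ0, τ1} : Finset T).card : ℝ) ≤ 2 := by exact_mod_cast card_le_two
  have hb : ((Fintype.card X : ℝ) + 1) * ({τ0, τ1} : Finset T).card ≤ 2 * P := by
    rw [mul_comm]
    exact mul_le_mul hc2 hX (by positivity) (by norm_num)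
  have q2 : ∑ e, ‖f (t e) - f (s e)‖ ^ 2 ≤ En := by
    refine p2.trans ((div_le_div_of_nonneg_right hb (by positivity)).trans (le_of_eq ?_))
    rw [hEn]; ring
  have q3 : ∑ τ ∈ B, ‖a (cl τ0) - ∑ v, mu β m0 τ v • f v‖ ^ 2 ≤ En := by
    rw [sum_congr rfl fun τ hτ => by rw [hcl τ0 h0 τ hτ]]
    refine ((sum_le_sum_of_subset_of_nonneg hB fun _ _ _ => sq_nonneg _).trans p3).trans ?_
    refine (div_le_div₀ (by positivity) hb (show 0 < ε ^ 2 by positivity) (by nlinarith)).trans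
      (le_of_eq ?_)
    rw [hEn]; ring
  have q4 := sc_count hC hG hl hm hm1 B hsp f (a (cl τ0)) (show 0 < c / 64 by positivity) q2 q3
  have q5 := hK V E T X (EuclideanSpace ℝ (E ⊕ T)) s t β Λ own F l1 L1 hG hI.1 hX univ {τ1}
    (singleton_nonempty _) (fun _ _ => subset_univ _) (by simp [hcu]) (fun v => f v - a (cl τ0))
    (fun b => by
      simp only [sub_sub_sub_cancel_right]
      refine (p1 b).trans ?_
      rw [div_mul_eq_mul_div]
      exact div_le_div_of_nonneg_right (by nlinarith [sq_nonneg ‖b‖]) (by positivity))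
    (by simpa only [sub_sub_sub_cancel_right, card_singleton, Nat.cast_one, mul_one] using q2)
    (by rw [show c / 2 / 16 = 2 * (c / 64) by ring, card_singleton, Nat.cast_one, mul_one]
        exact q4)
  obtain ⟨τ, hτ, q6⟩ | ⟨τ, hτ, τ', hτ', h, -⟩ := q5
  swap
  · exact absurd ((mem_singleton.mp hτ).trans (mem_singleton.mp hτ').symm) h
  obtain rfl := mem_singleton.mp hτ
  have q7 : ∀ x, ‖∑ v, β τ x v • f v - a (cl τ0)‖ ≤ c / 2 := fun x => by
    simpa only [smul_sub, sum_sub_distrib, ← sum_smul, hG.total, one_smul] using q6 x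
  have sq : ∀ (u : EuclideanSpace ℝ (E ⊕ T)) (r : ℝ), ‖u‖ ≤ r → ∑ i, u i ^ 2 ≤ r ^ 2 :=
    fun u r h => by
      rw [← EuclideanSpace.real_norm_sq_eq]
      exact pow_le_pow_left₀ (norm_nonneg _) h 2
  by_cases hr : τ ∈ rd
  · refine Or.inr ⟨τ, hr, τ0, hB h0, h1, _, p6 τ (by simp) hr τ0 (by simp) (hB h0), sq _ _ ?_⟩
    have q8 : ‖∑ v, mu β m0 τ v • f v - a (cl τ0)‖ ≤ c / 2 := by
      have := sc_avg (fun x => ∑ v, β τ x v • f v) (a (cl τ0)) hm hm1 fun x _ => q7 x
      simp only [smul_sum, smul_smul] at this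
      rw [sum_comm] at this
      simpa only [mu, sum_smul] using this
    have q9 := norm_sub_le_norm_sub_add_norm_sub (a (cl τ)) (∑ v, mu β m0 τ v • f v) (a (cl τ0))
    have q10 := p4 τ hr
    have q11 : 0 < 1 / w := by positivity
    rw [show 2 / w = 2 * (1 / w) by ring]
    linarith
  · refine Or.inl ⟨τ, hr, fun x x' => ⟨_, p5 τ (by simp) hr x x', sq _ _ ?_⟩⟩
    have q9 := norm_sub_le_norm_sub_add_norm_sub (∑ v, β τ x v • f v) (a (cl τ0))
      (∑ v, β τ x' v • f v)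
    rw [norm_sub_rev (a _)] at q9
    linarith [q7 x, q7 x']

end Pool.Agent.Lib.MP_c8786f_co.W5
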