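import Pool.Agent.Lib.MP_c8786f_co.W5.Defs
import Pool.Agent.Shared.CountingLLL

/-!
Weak five-flow theorem: well separated window starts on the circuits.
-/

namespace Pool.Agent.Lib.MP_c8786f_co.W5

open Finset

set_option linter.unusedSectionVars false

lemma win_words (R : ℕ) :
    ∃ W : Finset (List (Fin 3)), W.card ≤ 4 ^ R ∧ ∀ w : List (Fin 3), w.length ≤ R → w ∈ W := by
  induction R with
  | zero => exact ⟨{[]}, by simp, fun w hw => by simpa using hw⟩
  | succ R ih =>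
    obtain ⟨W, h1, h2⟩ := ih
    refine ⟨W ∪ ((univ : Finset (Fin 3)) ×ˢ W).image fun q => q.1 :: q.2, ?_, fun w hw => ?_⟩
    · refine (card_union_le _ _).trans ((Nat.add_le_add_left card_image_le _).trans ?_)
      rw [card_product, card_univ, Fintype.card_fin, pow_succ]
      omega
    · rcases w with _ | ⟨a, w⟩
      · exact mem_union_left _ (h2 _ (by simp))
      · exact mem_union_right _ (mem_image.2 ⟨(a, w), by simpa using h2 w (by simpa using hw), rfl⟩)

variable {V : Type} [Fintype V] [DecidableEq V] {n : Equiv.Perm V} {m : V → V}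

lemma win_act_inj (hm : ∀ v, m (m v) = v) (w : List (Fin 3)) : Function.Injective (act n m w) := by
  induction w with
  | nil => exact fun _ _ h => h
  | cons a w ih =>
    exact fun u v h => ih (Function.LeftInverse.injective (step_inv n hm a) h)

/-- the neighbourhoods of the windows starting at `u` and `u'` meet -/
def winRel (n : Equiv.Perm V) (m : V → V) (D R : ℕ) (u u' : V) : Prop :=
  ∃ j ≤ D, ∃ j' ≤ D, ∃ w w' : List (Fin 3), w.length ≤ R ∧ w'.length ≤ R ∧
    act n m w ((n ^ j) u) = act n m w' ((n ^ j') u')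

lemma winRel.symm {D R : ℕ} {u u' : V} (h : winRel n m D R u u') : winRel n m D R u' u :=
  let ⟨j, a, j', b, w, w', c, d, e⟩ := h; ⟨j', b, j, a, w', w, d, c, e.symm⟩

open Classical in
lemma win_partners (hm : ∀ v, m (m v) = v) (D R : ℕ) (u : V) :
    (univ.filter fun u' => winRel n m D R u u').card ≤ (D + 1) ^ 2 * 16 ^ R := by
  obtain ⟨W, h1, h2⟩ := win_words R
  have : (univ.filter fun u' => winRel n m D R u u') ⊆
      ((range (D + 1) ×ˢ range (D + 1)) ×ˢ (W ×ˢ W)).biUnion fun q =>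
        univ.filter fun u' => act n m q.2.1 ((n ^ q.1.1) u) = act n m q.2.2 ((n ^ q.1.2) u') := by
    intro u' hu
    obtain ⟨j, a, j', b, w, w', c, d, e⟩ := (mem_filter.1 hu).2
    exact mem_biUnion.2 ⟨((j, j'), (w, w')), by
      simp only [mem_product, mem_range]; exact ⟨⟨by omega, by omega⟩, h2 w c, h2 w' d⟩,
      mem_filter.2 ⟨mem_univ _, e⟩⟩
  refine (card_le_card this).trans ((card_biUnion_le_card_mul _ _ 1 fun q _ =>
    card_le_one.2 fun a ha b hb => (n ^ q.1.2).injective (win_act_inj hm q.2.2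
      ((mem_filter.1 ha).2.symm.trans (mem_filter.1 hb).2))).trans ?_)
  simp only [card_product, card_range, mul_one]
  rw [show (16 : ℕ) = 4 * 4 by norm_num, mul_pow, sq]
  exact Nat.mul_le_mul_left _ (Nat.mul_le_mul h1 h1)

lemma win_period {K k : ℕ} (h : Inj n m K) (h0 : 0 < k) (hk : k < K) (v : V) : (n ^ k) v ≠ v := by
  intro e
  have := h v (List.replicate k 0) [] (List.isChain_replicate_of_rel k (by decide)) List.IsChain.nil (by simpa using hk) (by rw [act_replicate, e]; rfl)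
  have := congrArg List.length this
  simp at this
  omega

lemma win_markers {L0 : ℕ} (h : ∀ k, 0 < k → k < L0 → ∀ v, (n ^ k) v ≠ v) (h0 : 0 < L0) :
    ∃ Z : Finset V, (∀ z ∈ Z, ∀ z' ∈ Z, ∀ a < L0, ∀ a' < L0, (n ^ a) z = (n ^ a') z' → z = z' ∧ a = a') ∧
      ∀ v, ∃ z ∈ Z, ∃ k, L0 ≤ k ∧ k < 3 * L0 ∧ (n ^ k) z = v := by
  classical
  obtain ⟨Z, hZ, hmax⟩ := exists_max_image (univ.filter fun Z : Finset V =>
    ∀ z ∈ Z, ∀ z' ∈ Z, ∀ k, 0 < k → k < L0 → (n ^ k) z ≠ z') card ⟨∅, by simp⟩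
  replace hZ := (mem_filter.1 hZ).2
  have key : ∀ z ∈ Z, ∀ z' ∈ Z, ∀ a a', a ≤ a' → a' < L0 → (n ^ a) z = (n ^ a') z' →
      z = z' ∧ a = a' := fun z hz z' hz' a a' h1 h2 e => by
    obtain ⟨k, rfl⟩ := Nat.exists_eq_add_of_le h1
    rw [pow_add, Equiv.Perm.mul_apply] at e
    have e' := (n ^ a).injective e
    rcases Nat.eq_zero_or_pos k with rfl | hk
    · exact ⟨by simpa using e', rfl⟩
    · exact absurd e'.symm (hZ z' hz' z hz k hk (by omega))
  refine ⟨Z, fun z hz z' hz' a ha a' ha' e => ?_, fun v => ?_⟩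
  · rcases le_total a a' with h1 | h1
    · exact key z hz z' hz' a a' h1 ha' e
    · obtain ⟨h2, h3⟩ := key z' hz' z hz a' a h1 ha e.symm
      exact ⟨h2.symm, h3.symm⟩
  obtain ⟨v, rfl⟩ := (n ^ (2 * L0)).surjective v
  by_cases hv : v ∈ Z
  · exact ⟨v, hv, 2 * L0, by omega, by omega, rfl⟩
  have : ¬∀ z ∈ insert v Z, ∀ z' ∈ insert v Z, ∀ k, 0 < k → k < L0 → (n ^ k) z ≠ z' := fun hc => by
    have := hmax _ (mem_filter.2 ⟨mem_univ _, hc⟩)
    rw [card_insert_of_notMem hv] at this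
    omega
  push Not at this
  obtain ⟨z, hz, z', hz', k, h1, h2, e⟩ := this
  rw [mem_insert] at hz hz'
  rcases hz with rfl | hz <;> rcases hz' with rfl | hz'
  · exact absurd e (h k h1 h2 _)
  · refine ⟨z', hz', 2 * L0 - k, by omega, by omega, ?_⟩
    rw [← e, ← Equiv.Perm.mul_apply, ← pow_add, Nat.sub_add_cancel (by omega)]
  · refine ⟨z, hz, 2 * L0 + k, by omega, by omega, ?_⟩
    rw [← e, pow_add, Equiv.Perm.mul_apply]
  · exact absurd e (hZ z hz z' hz' k h1 h2)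

lemma win_choose {L0 Δ : ℕ} (hL : L0 = 16 * Δ) (hΔ : 0 < Δ) (r : V → V → Prop) [DecidableRel r]
    (hs : ∀ u u', r u u' → r u' u) (hr : ∀ u, (univ.filter fun u' => r u u').card ≤ Δ)
    (Z : Finset V)
    (hZ : ∀ z ∈ Z, ∀ z' ∈ Z, ∀ a < L0, ∀ a' < L0, (n ^ a) z = (n ^ a') z' → z = z' ∧ a = a') :
    ∃ φ : V → Fin L0, ∀ z ∈ Z, ∀ z' ∈ Z, r ((n ^ (φ z).1) z) ((n ^ (φ z').1) z') → z = z' := by
  have h0 : 0 < L0 := by omega
  have : Nonempty (Fin L0) := ⟨⟨0, h0⟩⟩
  have hR : (0 : ℝ) < L0 := by exact_mod_cast h0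
  let s : Finset ((V × Fin L0) × (V × Fin L0)) := univ.filter fun i =>
    i.1.1 ∈ Z ∧ i.2.1 ∈ Z ∧ i.1.1 ≠ i.2.1 ∧ r ((n ^ i.1.2.1) i.1.1) ((n ^ i.2.2.1) i.2.1)
  let B : (V × Fin L0) × (V × Fin L0) → Finset (V → Fin L0) := fun i =>
    Fintype.piFinset fun v => if v = i.1.1 then {i.1.2} else if v = i.2.1 then {i.2.2} else univ
  have memB : ∀ i ∈ s, ∀ φ, φ ∈ B i ↔ φ i.1.1 = i.1.2 ∧ φ i.2.1 = i.2.2 := fun i hi φ => by
    have hne := (mem_filter.1 hi).2.2.2.1
    simp only [B, Fintype.mem_piFinset]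
    refine ⟨fun h => ⟨by simpa using h i.1.1, by simpa [hne.symm] using h i.2.1⟩, fun h v => ?_⟩
    split_ifs with h1 h2
    · simp [h1, h.1]
    · simp [h2, h.2]
    · exact mem_univ _
  have cnt : ∀ v, (s.filter fun i => i.1.1 = v).card ≤ L0 * Δ := fun v => by
    have : (s.filter fun i => i.1.1 = v) ⊆ (univ : Finset (Fin L0)).biUnion fun a =>
        (univ.filter fun y : V × Fin L0 => y.1 ∈ Z ∧ r ((n ^ a.1) v) ((n ^ y.2.1) y.1)).image
          fun y => ((v, a), y) := by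
      intro i hi
      obtain ⟨h1, rfl⟩ := mem_filter.1 hi
      obtain ⟨-, h2, -, h3⟩ := (mem_filter.1 h1).2
      exact mem_biUnion.2 ⟨i.1.2, mem_univ _, mem_image.2 ⟨i.2, mem_filter.2 ⟨mem_univ _, h2, h3⟩, rfl⟩⟩
    refine (card_le_card this).trans ((card_biUnion_le_card_mul _ _ Δ fun a _ =>
      card_image_le.trans (le_trans ?_ (hr ((n ^ a.1) v)))).trans (by simp))
    refine card_le_card_of_injOn (fun y => (n ^ y.2.1) y.1)
      (fun y hy => mem_filter.2 ⟨mem_univ _, (mem_filter.1 hy).2.2⟩) fun y hy y' hy' e => ?_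
    obtain ⟨h1, h2⟩ := hZ _ (mem_filter.1 hy).2.1 _ (mem_filter.1 hy').2.1 _ y.2.2 _ y'.2.2 e
    exact Prod.ext h1 (Fin.ext h2)
  have cnt' : ∀ v, (s.filter fun i => i.2.1 = v).card ≤ L0 * Δ := fun v => by
    refine le_trans (card_le_card_of_injOn Prod.swap (fun i hi => ?_)
      Prod.swap_injective.injOn) (cnt v)
    obtain ⟨h1, h2⟩ := mem_filter.1 hi
    obtain ⟨a, b, c, d⟩ := (mem_filter.1 h1).2
    exact mem_filter.2 ⟨mem_filter.2 ⟨mem_univ _, b, a, c.symm, hs _ _ d⟩, h2⟩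
  obtain ⟨φ, hφ⟩ := Pool.Agent.Shared.CountingLLL.exists_avoid s (fun i => {i.1.1, i.2.1}) B
    (fun i _ => insert_nonempty _ _)
    (fun i hi φ ψ h1 h2 => by
      rw [memB i hi] at h2 ⊢
      rw [← h1 _ (by simp), ← h1 _ (by simp)]
      exact h2)
    (fun _ => ((L0 : ℝ)⁻¹) ^ 2) (fun _ _ => by positivity)
    (fun i hi => by
      have hne := (mem_filter.1 hi).2.2.2.1
      refine le_of_eq ?_
      simp only [B, Fintype.card_piFinset, Fintype.card_fun, Fintype.card_fin]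
      push_cast
      have h1 : ∀ v, ((if v = i.1.1 then {i.1.2} else if v = i.2.1 then {i.2.2}
          else (univ : Finset (Fin L0))).card : ℝ)
          = (if v ∈ ({i.1.1, i.2.1} : Finset V) then (L0 : ℝ)⁻¹ else 1) * L0 := fun v => by
        by_cases a : v = i.1.1
        · simp [a, hR.ne']
        · by_cases b : v = i.2.1
          · simp [b, hne.symm, hR.ne']
          · simp [a, b]
      rw [prod_congr rfl fun v _ => h1 v, prod_mul_distrib, prod_const, card_univ, prod_ite_mem,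
        univ_inter, prod_const, card_pair hne])
    (1 / 2) (by norm_num) (by norm_num) (fun v => by
      have h1 : ∀ i ∈ s, (if v ∈ ({i.1.1, i.2.1} : Finset V) then
          ((L0 : ℝ)⁻¹) ^ 2 / (1 / 2) ^ ({i.1.1, i.2.1} : Finset V).card else 0)
          ≤ (if i.1.1 = v then 4 * ((L0 : ℝ)⁻¹) ^ 2 else 0)
            + if i.2.1 = v then 4 * ((L0 : ℝ)⁻¹) ^ 2 else 0 := fun i hi => by
        have hne := (mem_filter.1 hi).2.2.2.1
        have h2 : 0 ≤ ((L0 : ℝ)⁻¹) ^ 2 := by positivity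
        rw [card_pair hne, show ((L0 : ℝ)⁻¹) ^ 2 / (1 / 2) ^ 2 = 4 * ((L0 : ℝ)⁻¹) ^ 2 by ring]
        simp only [mem_insert, mem_singleton, eq_comm (a := v)]
        split_ifs with a b c c <;> first | tauto | linarith
      refine (sum_le_sum h1).trans ?_
      rw [sum_add_distrib, ← sum_filter, ← sum_filter, sum_const, sum_const, nsmul_eq_mul,
        nsmul_eq_mul, ← add_mul]
      have h2 : ((s.filter fun i => i.1.1 = v).card : ℝ) + (s.filter fun i => i.2.1 = v).card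
          ≤ 2 * (L0 * Δ) := by
        have := cnt v; have := cnt' v
        exact_mod_cast (by omega)
      refine (mul_le_mul_of_nonneg_right h2 (by positivity)).trans (le_of_eq ?_)
      have h3 : (L0 : ℝ) = 16 * Δ := by exact_mod_cast hL
      have h4 : (Δ : ℝ) ≠ 0 := by exact_mod_cast hΔ.ne'
      rw [h3]; field_simp; norm_num)
  refine ⟨φ, fun z hz z' hz' h => ?_⟩
  by_contra hne
  have hi : ((z, φ z), (z', φ z')) ∈ s := mem_filter.2 ⟨mem_univ _, hz, hz', hne, h⟩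
  exact hφ _ hi ((memB _ hi φ).2 ⟨rfl, rfl⟩)

lemma win_seg {D R L : ℕ} (S : Finset V) (hc : ∀ v, ∃ k < L, ∃ s ∈ S, (n ^ k) s = v)
    (hs : ∀ s ∈ S, ∀ s' ∈ S, winRel n m D R s s' → s = s') :
    ∃ own back, Seg n m S own back D R L := by
  have ex : ∀ v, ∃ k, (n ^ k)⁻¹ v ∈ S := fun v => by
    obtain ⟨k, -, s, h1, rfl⟩ := hc v
    exact ⟨k, by simpa using h1⟩
  have e1 : ∀ k v, (n ^ (k + 1))⁻¹ (n v) = (n ^ k)⁻¹ v := fun k v => by
    rw [pow_succ', mul_inv_rev]; simp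
  have sc : ∀ v, n v ∉ S → Nat.find (ex (n v)) = Nat.find (ex v) + 1 := fun v hv => by
    rw [Nat.find_eq_iff]
    refine ⟨by rw [e1]; exact Nat.find_spec (ex v), fun k hk => ?_⟩
    rcases k with _ | k
    · simpa using hv
    · rw [e1]; exact Nat.find_min (ex v) (by omega)
  refine ⟨fun v => (n ^ Nat.find (ex v))⁻¹ v, fun v => Nat.find (ex v),
    fun v => Nat.find_spec (ex v), fun v => by simp, fun v => ?_, fun s h => ?_,
    fun v hv => ⟨by simp only [sc v hv, e1], sc v hv⟩,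
    fun s h s' h' j a j' b w w' c d e => hs s h s' h' ⟨j, a, j', b, w, w', c, d, e⟩⟩
  · obtain ⟨k, h0, s, h1, rfl⟩ := hc v
    exact (Nat.find_min' _ (by simpa using h1)).trans_lt h0
  · rw [Nat.find_eq_zero]; simpa using h

theorem windows : WindowsStmt := by
  classical
  intro D R V _ _ n m hm hI
  have hΔ : 0 < (D + 1) ^ 2 * 16 ^ R := by positivity
  rw [mul_assoc] at hI ⊢
  have hp := win_partners (n := n) hm D R
  generalize (D + 1) ^ 2 * 16 ^ R = Δ at hΔ hI hp ⊢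
  obtain ⟨Z, h1, h2⟩ := win_markers (n := n) (L0 := 16 * Δ)
    (fun k a b => win_period hI a (by omega)) (by omega)
  obtain ⟨φ, hφ⟩ := win_choose rfl hΔ (winRel n m D R) (fun _ _ h => h.symm) hp Z h1
  refine ⟨Z.image fun z => (n ^ (φ z).1) z, win_seg _ (fun v => ?_) fun s hs s' hs' h => ?_⟩
  · obtain ⟨z, hz, k, a, b, rfl⟩ := h2 v
    have := (φ z).2
    refine ⟨k - φ z, by omega, _, mem_image_of_mem _ hz, ?_⟩
    rw [← Equiv.Perm.mul_apply, ← pow_add, Nat.sub_add_cancel (by omega)]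
  · obtain ⟨z, hz, rfl⟩ := mem_image.1 hs
    obtain ⟨z', hz', rfl⟩ := mem_image.1 hs'
    rw [hφ z hz z' hz' h]

end Pool.Agent.Lib.MP_c8786f_co.W5
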