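import Pool.Agent.Lib.MP_c8786f_co.W5.Defs3
import Pool.Agent.Lib.MP_c8786f_co.W5.Windows

/-!
Well separated window starts that avoid a sparse set.
-/

namespace Pool.Agent.Lib.MP_c8786f_co.W5

open Finset

set_option linter.unusedSectionVars false

variable {V : Type} [Fintype V] [DecidableEq V] {n : Equiv.Perm V} {m : V → V}

lemma w3_undo (hm : ∀ v, m (m v) = v) (w : List (Fin 3)) (v : V) :
    act n m (w.map inv).reverse (act n m w v) = v := by
  induction w with
  | nil => rfl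
  | cons a w ih => simp [act_append, step_inv n hm, ih]

/-- choice of window starts that avoids at most half of the positions -/
lemma w3_choose {Δ : ℕ} (hΔ : 0 < Δ) (r : V → V → Prop) [DecidableRel r]
    (hs : ∀ u u', r u u' → r u' u) (hr : ∀ u, (univ.filter fun u' => r u u').card ≤ Δ)
    (Z : Finset V) (hZ : ∀ z ∈ Z, ∀ z' ∈ Z, ∀ a < 32 * Δ, ∀ a' < 32 * Δ,
      (n ^ a) z = (n ^ a') z' → z = z' ∧ a = a') (P : V → Prop) [DecidablePred P]
    (hP : ∀ z ∈ Z, ((range (32 * Δ)).filter fun a => P ((n ^ a) z)).card ≤ 16 * Δ) :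
    ∃ φ : V → ℕ, ∀ z ∈ Z, φ z < 32 * Δ ∧ ¬P ((n ^ φ z) z) ∧
      ∀ z' ∈ Z, r ((n ^ φ z) z) ((n ^ φ z') z') → z = z' := by
  classical
  have : NeZero (16 * Δ) := ⟨by omega⟩
  have ex : ∀ z, ∃ e : ZMod (16 * Δ) → ℕ, z ∈ Z → e.Injective ∧
      ∀ a, e a < 32 * Δ ∧ ¬P ((n ^ e a) z) := fun z => by
    by_cases hz : z ∈ Z
    swap
    · exact ⟨fun _ => 0, fun h => absurd h hz⟩
    have h1 := card_filter_add_card_filter_not (s := range (32 * Δ)) fun a => P ((n ^ a) z)
    have h2 := hP z hz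
    rw [card_range] at h1
    obtain ⟨e⟩ : Nonempty (ZMod (16 * Δ) ↪ ((range (32 * Δ)).filter fun a => ¬P ((n ^ a) z))) :=
      Function.Embedding.nonempty_of_card_le (by rw [ZMod.card, Fintype.card_coe]; omega)
    exact ⟨fun a => e a, fun _ => ⟨Subtype.val_injective.comp e.injective, fun a =>
      ⟨mem_range.1 (mem_filter.1 (e a).2).1, (mem_filter.1 (e a).2).2⟩⟩⟩
  choose e he using ex
  let n' : Equiv.Perm (V × ZMod (16 * Δ)) := Equiv.prodCongr (Equiv.refl V) (Equiv.addRight 1)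
  have hn : ∀ (a : ℕ) z, (n' ^ a) (z, 0) = (z, (a : ZMod (16 * Δ))) := fun a z => by
    induction a with
    | zero => simp
    | succ a ih => rw [pow_succ', Equiv.Perm.mul_apply, ih]; simp [n']
  obtain ⟨φ, hφ⟩ := win_choose (n := n') rfl hΔ
    (fun u u' => u.1 ∈ Z ∧ u'.1 ∈ Z ∧ r ((n ^ e u.1 u.2) u.1) ((n ^ e u'.1 u'.2) u'.1))
    (fun _ _ h => ⟨h.2.1, h.1, hs _ _ h.2.2⟩) (fun u => by
      refine le_trans (card_le_card_of_injOn (fun y => (n ^ e y.1 y.2) y.1)
        (fun y hy => mem_filter.2 ⟨mem_univ _, (mem_filter.1 hy).2.2.2⟩) fun y hy y' hy' h => ?_)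
        (hr ((n ^ e u.1 u.2) u.1))
      have a := (mem_filter.1 hy).2.2.1
      have b := (mem_filter.1 hy').2.2.1
      obtain ⟨h1, h2⟩ := hZ _ a _ b _ ((he _ a).2 _).1 _ ((he _ b).2 _).1 h
      rw [← h1] at h2
      exact Prod.ext h1 ((he _ a).1 h2))
    (Z.image fun z => (z, 0)) (fun u hu u' hu' a ha a' ha' h => by
      obtain ⟨z, -, rfl⟩ := mem_image.1 hu
      obtain ⟨z', -, rfl⟩ := mem_image.1 hu'
      rw [hn, hn, Prod.mk.injEq] at h
      have := congrArg ZMod.val h.2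
      rw [ZMod.val_cast_of_lt ha, ZMod.val_cast_of_lt ha'] at this
      exact ⟨by rw [h.1], this⟩)
  refine ⟨fun z => e z (φ (z, 0)).1, fun z hz => ⟨((he z hz).2 _).1, ((he z hz).2 _).2,
    fun z' hz' h => congrArg Prod.fst (hφ _ (mem_image_of_mem _ hz) _ (mem_image_of_mem _ hz') ?_)⟩⟩
  rw [hn, hn]
  exact ⟨hz, hz', h⟩

theorem windows3 : Windows3Stmt := by
  classical
  intro D R V _ _ n m hm hI A hA
  have h16 : R < 16 ^ R := Nat.lt_pow_self (by norm_num)
  have hD : (D + 1) * 16 ^ R ≤ (D + 1) ^ 2 * 16 ^ R :=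
    Nat.mul_le_mul_right _ (by rw [sq]; exact Nat.le_mul_self _)
  have h1 : D + 1 ≤ (D + 1) * 16 ^ R := Nat.le_mul_of_pos_right _ (by positivity)
  have h2 : 16 ^ R ≤ (D + 1) * 16 ^ R := Nat.le_mul_of_pos_left _ (by positivity)
  rw [mul_assoc] at hI hA ⊢
  have hp := win_partners (n := n) hm D R
  generalize (D + 1) ^ 2 * 16 ^ R = Δ at hD hI hA hp ⊢
  obtain ⟨Z, z1, z2⟩ := win_markers (n := n) (L0 := 32 * Δ)
    (fun k a b => win_period hI a (by omega)) (by omega)
  obtain ⟨W, w1, w2⟩ := win_words (2 * R + 1)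
  obtain ⟨φ, hφ⟩ := w3_choose (by omega) (winRel n m D R) (fun _ _ h => h.symm) hp Z z1
    (fun s => ∃ j ≤ D, ∃ w : List (Fin 3), w.length ≤ 2 * R + 1 ∧ act n m w ((n ^ j) s) ∈ A)
    fun z hz => by
      rcases eq_empty_or_nonempty ((range (32 * Δ)).filter fun a => ∃ j ≤ D, ∃ w : List (Fin 3),
        w.length ≤ 2 * R + 1 ∧ act n m w ((n ^ j) ((n ^ a) z)) ∈ A) with h | ⟨a0, h⟩
      · rw [h]; simp
      obtain ⟨b0, j0, b1, w0, b2, b3⟩ := mem_filter.1 h
      rw [mem_range] at b0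
      refine (card_le_card (t := (range (D + 1) ×ˢ W).biUnion fun q => (range (32 * Δ)).filter
        fun a => act n m w0 ((n ^ j0) ((n ^ a0) z)) = act n m q.2 ((n ^ q.1) ((n ^ a) z)))
        fun a ha => ?_).trans ((card_biUnion_le_card_mul _ _ 1 fun q _ =>
          card_le_one.2 fun a ha b hb => ?_).trans ?_)
      · obtain ⟨c0, j, c1, w, c2, c3⟩ := mem_filter.1 ha
        refine mem_biUnion.2 ⟨(j, w), mem_product.2 ⟨mem_range.2 (by omega), w2 w c2⟩,
          mem_filter.2 ⟨c0, hA _ b3 _ c3 ((w ++ List.replicate j 0 ++ List.replicate a 0) ++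
            ((w0 ++ List.replicate j0 0 ++ List.replicate a0 0).map inv).reverse) ?_ ?_⟩⟩
        · rw [mem_range] at c0
          simp only [List.length_append, List.length_reverse, List.length_map,
            List.length_replicate]
          omega
        · have := w3_undo (n := n) hm (w0 ++ List.replicate j0 0 ++ List.replicate a0 0) z
          simp only [act_append, act_replicate] at this
          rw [act_append, this]
          simp only [act_append, act_replicate]
      · exact (z1 z hz z hz a (mem_range.1 (mem_filter.1 ha).1) b (mem_range.1 (mem_filter.1 hb).1)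
          ((n ^ q.1).injective (win_act_inj hm q.2
            ((mem_filter.1 ha).2.symm.trans (mem_filter.1 hb).2)))).2
      · rw [card_product, card_range, mul_one]
        rw [pow_succ, pow_mul] at w1
        have := Nat.mul_le_mul_left (D + 1) w1
        rw [← mul_assoc] at this
        norm_num at this
        omega
  obtain ⟨own, back, hS⟩ := win_seg (n := n) (m := m) (D := D) (R := R) (L := 96 * Δ)
    (Z.image fun z => (n ^ φ z) z) (fun v => by
      obtain ⟨z, hz, k, a, b, rfl⟩ := z2 v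
      have := (hφ z hz).1
      refine ⟨k - φ z, by omega, _, mem_image_of_mem _ hz, ?_⟩
      rw [← Equiv.Perm.mul_apply, ← pow_add, Nat.sub_add_cancel (by omega)])
    fun s hs s' hs' h => by
      obtain ⟨z, hz, rfl⟩ := mem_image.1 hs
      obtain ⟨z', hz', rfl⟩ := mem_image.1 hs'
      rw [(hφ z hz).2.2 z' hz' h]
  refine ⟨_, own, back, hS, fun s hs j hj w hw h => ?_⟩
  obtain ⟨z, hz, rfl⟩ := mem_image.1 hs
  exact (hφ z hz).2.1 ⟨j, hj, w, hw, h⟩

end Pool.Agent.Lib.MP_c8786f_co.W5
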