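import Pool.Agent.Lib.MP_c8786f_co.W5.XDefs
import Pool.Agent.Lib.MP_c8786f_co.W5.GL2a
import Pool.Agent.Lib.MP_c8786f_co.W5.GL2b
import Pool.Agent.Lib.MP_c8786f_co.W5.GLa
import Pool.Agent.Lib.MP_c8786f_co.W5.Proj
import Pool.Agent.Lib.MP_c8786f_co.W5.Sparse
import Pool.Agent.Lib.MP_c8786f_co.W5.StageC

/-!
Explicit constants: the geometric lemmas.
-/

namespace Pool.Agent.Lib.MP_c8786f_co.W5

open Finset
open scoped RealInnerProductSpace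

set_option linter.unusedSectionVars false

lemma x_c {Z C : ℝ} {j : ℕ} (hZ : 2 ^ 20 ≤ Z) (hC : C ≤ (2 ^ 20) ^ j) : C ≤ Z ^ j :=
  hC.trans (pow_le_pow_left₀ (by positivity) hZ j)

lemma x_inv {c Z : ℝ} (hc : 0 < c) (h : 1 ≤ c * Z) : c⁻¹ ≤ Z := by
  rw [inv_le_iff_one_le_mul₀ hc]
  linarith

lemma x_up {Z : ℝ} (hZ : 2 ^ 20 ≤ Z) {j : ℕ} (hj : j ≠ 0) : Z ≤ Z ^ j :=
  le_self_pow₀ (by linarith) hj

lemma x_half {c Z : ℝ} (hc : 0 < c) (hZ : 2 ^ 20 ≤ Z) (h : 1 ≤ c * Z) {j : ℕ} (hj : 2 ≤ j) :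
    1 ≤ c / 2 * Z ^ j := by
  have h1 : Z ^ 2 ≤ Z ^ j := pow_le_pow_right₀ (by linarith) hj
  nlinarith

lemma x_sq {ε Z : ℝ} (hε : 0 < ε) (hZ : 2 ^ 20 ≤ Z) (h : 1 ≤ ε * Z) : 2 / ε ^ 2 ≤ 2 * Z ^ 2 := by
  have h1 := x_inv hε h
  rw [div_eq_mul_inv, ← inv_pow]
  gcongr

lemma x_consts (c CE P α : ℝ) (hc : 0 < c) (hc1 : c ≤ 1) (hCE : 1 ≤ CE) (hP : 1 ≤ P)
    (hα : α * (800 * 64 * 289 * 1280 * 64 ^ 4 * CE ^ 4 / c ^ 7) * P ^ 7 ≤ 1) :
    ∃ (θ : ℝ) (κ : ℕ), 0 < θ ∧ θ ≤ 1 / 2 ∧ 1 ≤ κ ∧ 20 * P ^ 3 * CE * θ ≤ (c / 8) ^ 2 ∧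
      288 * CE * P ≤ θ * κ * (c / 64) ^ 2 ∧
      800 * (64 * κ * CE * P / (c / 64) ^ 2) * α * CE * P ^ 2 ≤ c ∧
      θ = c ^ 2 / (1280 * P ^ 3 * CE) ∧ (κ : ℝ) ≤ 289 * (1280 * 64 ^ 2 * CE ^ 2 * P ^ 4 / c ^ 4) := by
  have hP3 : 1 ≤ P ^ 3 * CE := one_le_mul_of_one_le_of_one_le (one_le_pow₀ hP) hCE
  set Q : ℝ := 1280 * 64 ^ 2 * CE ^ 2 * P ^ 4 / c ^ 4 with hQ
  have hQ1 : 1 ≤ Q := by
    rw [hQ, one_le_div (by positivity)]
    have h1 : c ^ 4 ≤ 1 := pow_le_one₀ hc.le hc1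
    have h2 : 1 ≤ CE ^ 2 * P ^ 4 :=
      one_le_mul_of_one_le_of_one_le (one_le_pow₀ hCE) (one_le_pow₀ hP)
    nlinarith
  have k1 : 288 * Q ≤ (⌈288 * Q⌉₊ : ℝ) := Nat.le_ceil _
  have k2 : (⌈288 * Q⌉₊ : ℝ) ≤ 289 * Q := by
    have := Nat.ceil_lt_add_one (show 0 ≤ 288 * Q by linarith)
    linarith
  refine ⟨c ^ 2 / (1280 * P ^ 3 * CE), ⌈288 * Q⌉₊, by positivity, ?_, ?_, ?_, ?_, ?_, rfl, k2⟩
  · rw [div_le_iff₀ (by positivity)]
    have h1 : c ^ 2 ≤ 1 := pow_le_one₀ hc.le hc1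
    nlinarith
  · exact Nat.one_le_ceil_iff.2 (by linarith)
  · refine le_of_eq ?_
    field_simp
    ring
  · calc 288 * CE * P = c ^ 2 / (1280 * P ^ 3 * CE) * (288 * Q) * (c / 64) ^ 2 := by
          rw [hQ]; field_simp
      _ ≤ _ := by gcongr
  · rcases le_or_gt α 0 with h0 | h0
    · have : 0 ≤ 800 * (64 * (⌈288 * Q⌉₊ : ℝ) * CE * P / (c / 64) ^ 2) * (-α) * CE * P ^ 2 := by
        have : 0 ≤ -α := by linarith
        positivity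
      linarith
    · calc 800 * (64 * (⌈288 * Q⌉₊ : ℝ) * CE * P / (c / 64) ^ 2) * α * CE * P ^ 2
          ≤ 800 * (64 * (289 * Q) * CE * P / (c / 64) ^ 2) * α * CE * P ^ 2 := by gcongr
        _ = c * (α * (800 * 64 * 289 * 1280 * 64 ^ 4 * CE ^ 4 / c ^ 7) * P ^ 7) := by
            rw [hQ]; field_simp
        _ ≤ c * 1 := by gcongr
        _ = c := mul_one c

theorem gl2X : GL2X := by
  have HS := heavy2
  have LS := light
  intro c CE hc hc1 hCE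
  refine ⟨800 * 64 * 289 * 1280 * 64 ^ 4 * CE ^ 4 / c ^ 7, by positivity,
    fun Z z1 z2 z3 => ?_, fun P α M2 hP hM hα => ?_⟩
  · have z4 := x_inv hc z2
    have z5 : (800 * 64 * 289 * 1280 * 64 ^ 4 : ℝ) ≤ Z ^ 3 := x_c z1 (by norm_num)
    calc _ = (800 * 64 * 289 * 1280 * 64 ^ 4 : ℝ) * CE ^ 4 * c⁻¹ ^ 7 := by
          rw [div_eq_mul_inv, inv_pow]
      _ ≤ Z ^ 3 * Z ^ 4 * Z ^ 7 := by gcongr
      _ = _ := by ring
  obtain ⟨θ, κ, t1, t2, t3, t4, t5, t6, t7, t8⟩ := x_consts c CE P α hc hc1 hCE hP hα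
  refine ⟨max κ ⌈2 * M2 / θ⌉₊, fun Z z1 z2 z3 z6 z7 => ?_, ?_⟩
  · have z4 := x_inv hc z2
    have z0 : 1 ≤ Z := by linarith
    rw [Nat.cast_max]
    refine max_le (t8.trans ?_) ((Nat.ceil_lt_add_one (by positivity)).le.trans ?_)
    · have z5 : (289 * (1280 * 64 ^ 2) : ℝ) ≤ Z ^ 2 := x_c z1 (by norm_num)
      calc _ = (289 * (1280 * 64 ^ 2) : ℝ) * CE ^ 2 * P ^ 4 * c⁻¹ ^ 4 := by
            rw [div_eq_mul_inv, inv_pow]; ring
        _ ≤ Z ^ 2 * Z ^ 2 * Z ^ 4 * Z ^ 4 := by gcongr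
        _ = _ := by ring
    · have z5 : (1 : ℝ) ≤ Z ^ 7 := one_le_pow₀ z0
      have z8 : (2561 : ℝ) ≤ Z ^ 5 := x_c z1 (by norm_num)
      calc _ = 2560 * M2 * P ^ 3 * CE * c⁻¹ ^ 2 + 1 := by rw [t7]; field_simp; ring
        _ ≤ 2560 * Z * Z ^ 3 * Z * Z ^ 2 + Z ^ 7 := by gcongr
        _ = 2561 * Z ^ 7 := by ring
        _ ≤ Z ^ 5 * Z ^ 7 := by gcongr
        _ = _ := by ring
  intro V E T X H _ _ _ _ _ _ _ _ _ _ s t β Λ own F l1 L1 G iso hX Y R hR hY hcut f hb hE hN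
  classical
  rcases isEmpty_or_nonempty X with hx | ⟨⟨x1⟩⟩
  · obtain ⟨τ, hτ⟩ := hR
    exact Or.inl ⟨τ, hτ, fun x => isEmptyElim x⟩
  have hr : 0 < c / 32 := by positivity
  have hκ0 : (0 : ℝ) < κ := by exact_mod_cast t3
  have hCP : 1 ≤ CE * P := one_le_mul_of_one_le_of_one_le hCE hP
  have hp : (1 : ℝ) ≤ R.card := by exact_mod_cast card_pos.2 hR
  obtain ⟨C, Lt, o, c1, c2, c3, c4⟩ := gl2_few (P := P) HS LS G.deg iso Y f CE (c / 32) θ R.card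
    M2 κ hCP (Nat.cast_nonneg _) hr (by linarith) t3 (le_max_left _ _)
    (by
      have e : θ * κ * (c / 32) ^ 2 = 4 * (θ * κ * (c / 64) ^ 2) := by ring
      rw [e]; nlinarith)
    (by
      rw [← div_le_iff₀' t1]
      refine (Nat.le_ceil _).trans ?_
      exact_mod_cast le_max_right _ _) (by exact_mod_cast hcut) hE
    (by
      have e : 2 * (c / 32) = c / 16 := by ring
      rw [e]; exact hN)
  obtain ⟨B, xs, b1, b2⟩ := gl2_good G hX x1 f c CE (c / 32) θ R.card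
    (128 * κ * CE * P / (c / 32) ^ 2) hc1 hCE hP hr (by linarith) t1 (by positivity) t4
    (by
      have e : 800 * (128 * κ * CE * P / (c / 32) ^ 2) * α * CE * P ^ 2 =
          800 * (64 * κ * CE * P / (c / 64) ^ 2) * α * CE * P ^ 2 / 2 := by
        field_simp
        ring
      rw [e]; linarith) hb hE Y C Lt o c1 c2 c3 c4
  by_cases h0 : ∃ τ ∈ R \ B, o (xs τ) = 0
  · obtain ⟨τ, hτ, e⟩ := h0
    obtain ⟨a1, a2⟩ := mem_sdiff.1 hτ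
    refine Or.inl ⟨τ, a1, fun x => ?_⟩
    have := b2 τ a2 (hY τ a1) x
    rwa [e, sub_zero] at this
  · have r4 : R.card ≤ (R \ B).card + B.card := card_le_card_sdiff_add_card
    have r5 := (Nat.cast_le (α := ℝ)).2 r4
    push_cast at r5
    have r6 : (C.image f).card < (R \ B).card := by
      refine card_image_le.trans_lt ?_
      have : (C.card : ℝ) < (R \ B).card := by nlinarith
      exact_mod_cast this
    obtain ⟨τ, hτ, τ', hτ', hne, e⟩ := exists_ne_map_eq_of_card_lt_of_maps_to r6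
      (f := fun τ => o (xs τ)) (fun τ hτ => by
        rcases c3 (xs τ) with h | ⟨y, hy, h⟩
        · exact absurd ⟨τ, hτ, h⟩ h0
        · exact mem_coe.2 (mem_image.2 ⟨y, hy, h⟩))
    obtain ⟨a1, a2⟩ := mem_sdiff.1 hτ
    obtain ⟨a3, a4⟩ := mem_sdiff.1 hτ'
    refine Or.inr ⟨τ, a1, τ', a3, hne, o (xs τ), fun x => ⟨b2 τ a2 (hY τ a1) x, ?_⟩⟩
    have := b2 τ' a4 (hY τ' a3) x
    rwa [← e] at this

theorem sparseX : SparseX := by
  have hP := proj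
  have hGL := gl2X
  intro ε w c hε hε1 hw hc hc1
  have hCE : 1 ≤ 1 / ε ^ 2 := by
    rw [le_div_iff₀ (by positivity)]
    nlinarith
  obtain ⟨A, hA, hAb, hGL⟩ := hGL (c / 2) (1 / ε ^ 2) (by positivity) (by linarith) hCE
  have zc : ∀ Z : ℝ, 2 ^ 20 ≤ Z → 1 ≤ ε * Z → 1 / ε ^ 2 ≤ Z ^ 3 := fun Z z1 z3 => by
    have z4 := x_sq hε z1 z3
    have z5 : 2 / ε ^ 2 = 2 * (1 / ε ^ 2) := by ring
    have z6 : Z ^ 2 ≤ Z ^ 3 := pow_le_pow_right₀ (by linarith) (by norm_num)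
    linarith
  refine ⟨A, hA, fun Z z1 z2 z3 => (hAb (Z ^ 3) (z1.trans (x_up z1 (by norm_num)))
    (x_half hc z1 z2 (by norm_num)) (zc Z z1 z3)).trans_eq (by ring),
    fun P α l1 L1 J hP1 hJ hα => ?_⟩
  obtain ⟨K, hKb, hGL⟩ := hGL P α (2 * L1 * J) hP1 (by positivity) hα
  refine ⟨K, fun Z z1 z2 z3 z4 z5 z6 => (hKb (Z ^ 3) (z1.trans (x_up z1 (by norm_num)))
    (x_half hc z1 z2 (by norm_num)) (zc Z z1 z3) (z4.trans (x_up z1 (by norm_num)))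
    ?_).trans_eq (by ring), ?_⟩
  · calc (2 * L1 * J : ℝ) ≤ Z * Z * Z := by gcongr; linarith
      _ = _ := by ring
  intro V E T X _ _ _ _ _ _ _ s t β Λ own F hG hI hX m0 hm0 hm1 cl rd B hB
  rw [or_iff_not_imp_right]
  intro hY
  push Not at hY
  obtain ⟨Y, hYB, hY⟩ := hY
  have h1 := sp_count hG B Y hYB
  obtain ⟨R, hRT, hinj, hR⟩ := sp_reps cl (univ.filter fun τ => τ ∉ B ∧ Λ τ ⊆ Y) J
    fun τ hτ => hB τ (mem_filter.1 hτ).2.1
  set n1 := (univ.filter fun τ => τ ∉ B ∧ Λ τ ⊆ Y).card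
  have h2 : 4 * L1 * cut s t Y ≤ 4 * L1 * J * cut s t Y :=
    Nat.mul_le_mul_right _ (Nat.le_mul_of_pos_right _ hJ)
  have h3 : Y.card ≤ 2 * L1 * J * R.card := by
    have : L1 * n1 ≤ L1 * (J * R.card) := Nat.mul_le_mul_left _ hR
    nlinarith
  have h4 : 2 * cut s t Y < R.card := by
    by_contra hn
    have : 2 * L1 * J * R.card ≤ 2 * L1 * J * (2 * cut s t Y) :=
      Nat.mul_le_mul_left _ (not_lt.1 hn)
    nlinarith
  have hne : R.Nonempty := card_pos.1 (by omega)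
  obtain ⟨τ0, -⟩ := id hne
  obtain ⟨f, a, p1, p2, -, p4, p5, p6⟩ :=
    hP ε w hε (by linarith) V E T X s t β m0 hI.2 hG.total hm1 cl rd R
  set h : EuclideanSpace ℝ (E ⊕ T) := EuclideanSpace.single (Sum.inr τ0) (1 + ∑ v, ‖f v‖) with hh
  have hn0 : 0 ≤ ∑ v, ‖f v‖ := sum_nonneg fun v _ => norm_nonneg _
  have hhn : ‖h‖ = 1 + ∑ v, ‖f v‖ := by
    rw [hh, EuclideanSpace.norm_single, Real.norm_of_nonneg (by linarith)]
  have key := hGL V E T X (EuclideanSpace ℝ (E ⊕ T)) s t β Λ own F l1 L1 hG hI.1 hX Y R hne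
    (fun τ hτ => (mem_filter.1 (hRT hτ)).2.2) (by omega) (fun v => f v + h)
    (fun b => by
      simp only [add_sub_add_right_eq_sub]
      exact (p1 b).trans_eq (by ring))
    (by
      simp only [add_sub_add_right_eq_sub]
      refine p2.trans ?_
      rw [div_eq_mul_one_div, mul_comm]
      exact mul_le_mul_of_nonneg_left (mul_le_mul_of_nonneg_right hX (Nat.cast_nonneg _))
        (by positivity))
    (by exact_mod_cast (card_filter_le _ _).trans h3)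
  simp only [sp_shift _ (hG.total _ _)] at key
  rcases key with ⟨τ, -, hτ⟩ | ⟨τ, hτ, τ', hτ', hne', y, hy⟩
  · exfalso
    have hXne : (univ : Finset X).Nonempty := by
      by_contra hn
      rw [not_nonempty_iff_eq_empty.1 hn, sum_empty] at hm1
      exact zero_ne_one hm1
    obtain ⟨x, -⟩ := hXne
    have q1 := sp_norm _ (hG.nonneg τ x) (hG.total τ x) f
    have q2 := norm_sub_le (∑ v, β τ x v • f v + h) (∑ v, β τ x v • f v)
    rw [add_sub_cancel_left] at q2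
    linarith [hτ x]
  have hy1 : ∀ x, ‖∑ v, β τ x v • f v - (y - h)‖ ≤ c / 2 := fun x => by
    rw [← sub_add, sub_add_eq_add_sub]
    exact (hy x).1
  have hy2 : ∀ x, ‖∑ v, β τ' x v • f v - (y - h)‖ ≤ c / 2 := fun x => by
    rw [← sub_add, sub_add_eq_add_sub]
    exact (hy x).2
  have ready : ∀ σ ∈ R, σ ∉ rd → (∀ x, ‖∑ v, β σ x v • f v - (y - h)‖ ≤ c / 2) →
      Move s t β m0 ε w c cl rd := fun σ hσ hr hσy => by
    refine Or.inl ⟨σ, hr, fun x x' => ⟨_, p5 σ hσ hr x x', sp_sq _ ?_⟩⟩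
    have := norm_sub_le_norm_sub_add_norm_sub (∑ v, β σ x v • f v) (y - h) (∑ v, β σ x' v • f v)
    rw [norm_sub_rev (y - h)] at this
    linarith [hσy x, hσy x']
  by_cases r1 : τ ∈ rd
  swap
  · exact ready τ hτ r1 hy1
  by_cases r2 : τ' ∈ rd
  swap
  · exact ready τ' hτ' r2 hy2
  refine Or.inr ⟨τ, r1, τ', r2, fun e => hne' (hinj (mem_coe.2 hτ) (mem_coe.2 hτ') e), _,
    p6 τ hτ r1 τ' hτ' r2, sp_sq _ ?_⟩
  have m1 := sp_mean β m0 hm0 hm1 τ f _ _ hy1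
  have m2 := sp_mean β m0 hm0 hm1 τ' f _ _ hy2
  have n1 := norm_sub_le_norm_sub_add_norm_sub (a (cl τ)) (∑ v, mu β m0 τ v • f v) (y - h)
  have n2 := norm_sub_le_norm_sub_add_norm_sub (a (cl τ')) (∑ v, mu β m0 τ' v • f v) (y - h)
  have n3 := norm_sub_le_norm_sub_add_norm_sub (a (cl τ)) (y - h) (a (cl τ'))
  rw [norm_sub_rev (y - h)] at n3
  have e2 : 2 / w = 1 / w + 1 / w := by ring
  linarith [p4 τ r1, p4 τ' r2]

lemma x_stage {c Z l1 En : ℝ} {L1 A' : ℕ} (hc : 0 < c) (z1 : 2 ^ 20 ≤ Z) (z2 : 1 ≤ c * Z)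
    (hl : 0 ≤ l1) (z5 : l1 ≤ Z) (z6 : L1 ≤ Z) (z7 : A' ≤ Z) (h0 : 0 ≤ En) (h : En ≤ 2 * Z ^ 3) :
    L1 * (2 * (En / (c / 64 / (2 * (l1 + 1))) ^ 2) + En / (c / 64 / 2) ^ 2) * (1 + 32 * A' ^ 2) +
      8 * A' ^ 2 * En / (c / 64) ^ 2 ≤ Z ^ 12 := by
  have z4 := x_inv hc z2
  have z0 : 1 ≤ Z := by linarith
  have a1 : l1 + 1 ≤ 2 * Z := by linarith
  have a2 : (1 : ℝ) ≤ Z ^ 2 := one_le_pow₀ z0
  have a3 : Z ^ 5 ≤ Z ^ 7 := pow_le_pow_right₀ z0 (by norm_num)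
  have a4 : Z ^ 7 ≤ Z ^ 10 := pow_le_pow_right₀ z0 (by norm_num)
  have a5 : (2 ^ 26 : ℝ) ≤ Z ^ 2 := x_c z1 (by norm_num)
  have e1 : En / (c / 64 / (2 * (l1 + 1))) ^ 2 ≤ 2 ^ 17 * Z ^ 7 :=
    calc _ = En * (128 * (l1 + 1) * c⁻¹) ^ 2 := by field_simp; ring
      _ ≤ 2 * Z ^ 3 * (128 * (2 * Z) * Z) ^ 2 := by gcongr
      _ = _ := by ring
  have e2 : En / (c / 64 / 2) ^ 2 ≤ 2 ^ 15 * Z ^ 7 :=
    calc _ = En * (128 * c⁻¹) ^ 2 := by field_simp; ring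
      _ ≤ 2 * Z ^ 3 * (128 * Z) ^ 2 := by gcongr
      _ = 2 ^ 15 * Z ^ 5 := by ring
      _ ≤ _ := by gcongr
  have e3 : 8 * A' ^ 2 * En / (c / 64) ^ 2 ≤ 2 ^ 16 * Z ^ 10 :=
    calc _ = 8 * A' ^ 2 * En * (64 * c⁻¹) ^ 2 := by field_simp
      _ ≤ 8 * Z ^ 2 * (2 * Z ^ 3) * (64 * Z) ^ 2 := by gcongr
      _ = 2 ^ 16 * Z ^ 7 := by ring
      _ ≤ _ := by gcongr
  have a6 : 0 ≤ Z ^ 10 := by positivity
  calc _ ≤ Z * (2 * (2 ^ 17 * Z ^ 7) + 2 ^ 15 * Z ^ 7) * (Z ^ 2 + 32 * Z ^ 2) + 2 ^ 16 * Z ^ 10 := by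
        gcongr
    _ = 9797632 * Z ^ 10 := by ring
    _ ≤ Z ^ 2 * Z ^ 10 := by gcongr; linarith
    _ = _ := by ring

theorem stageCX : StageCX := by
  have hP := proj
  have hGL := gl2X
  have hC := cheeger
  intro ε w c hε hε1 hw hc hc1
  have hCE : 1 ≤ 2 / ε ^ 2 := by
    rw [le_div_iff₀ (by positivity)]; nlinarith
  obtain ⟨A, hA, hAb, hGL⟩ := hGL (c / 2) (2 / ε ^ 2) (by positivity) (by linarith) hCE
  have zc : ∀ Z : ℝ, 2 ^ 20 ≤ Z → 1 ≤ ε * Z → 2 / ε ^ 2 ≤ Z ^ 3 := fun Z z1 z3 => by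
    have z4 := x_sq hε z1 z3
    nlinarith [sq_nonneg Z]
  refine ⟨A, hA, fun Z z1 z2 z3 => (hAb (Z ^ 3) (z1.trans (x_up z1 (by norm_num)))
    (x_half hc z1 z2 (by norm_num)) (zc Z z1 z3)).trans_eq (by ring),
    fun P α l1 L1 A' hP1 hl hα => ?_⟩
  set En := 2 / ε ^ 2 * P with hEn
  obtain ⟨K, hKb, hK⟩ := hGL P α (L1 * (2 * (En / (c / 64 / (2 * (l1 + 1))) ^ 2) +
    En / (c / 64 / 2) ^ 2) * (1 + 32 * A' ^ 2) + 8 * A' ^ 2 * En / (c / 64) ^ 2) hP1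
    (by positivity) hα
  refine ⟨K, fun Z z1 z2 z3 z4 z5 z6 z7 => (hKb (Z ^ 12) (z1.trans (x_up z1 (by norm_num)))
    (x_half hc z1 z2 (by norm_num)) ((zc Z z1 z3).trans (pow_le_pow_right₀ (by linarith)
      (by norm_num))) (z4.trans (x_up z1 (by norm_num))) (x_stage hc z1 z2 hl z5 z6 z7
        (by positivity) (by
          have := x_sq hε z1 z3
          calc En ≤ 2 * Z ^ 2 * Z := by rw [hEn]; gcongr
            _ = _ := by ring))).trans_eq (by ring), fun V E T X _ _ _ _ _ _ _ s t β Λ own F hG hI hX m0 hm hm1 cl rd B hal hB hcl hsp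
    hne => ?_⟩
  have hcu : cut s t univ = 0 := by simp [cut]
  obtain ⟨τ0, h0⟩ : B.Nonempty := by
    by_contra hn
    have h1 := hsp univ fun v _ hv => hn ⟨_, hv⟩
    rw [hcu, mul_zero, Nat.le_zero, card_eq_zero] at h1
    obtain ⟨x, -⟩ := nonempty_of_sum_ne_zero (hm1.trans_ne one_ne_zero)
    have h2 : ∀ τ : T, False := fun τ => by simpa [h1] using hG.total τ x
    rcases hne with h | ⟨τ, -⟩
    · obtain ⟨A, hA⟩ := card_pos.mp (show 0 < (univ.image cl).card by omega)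
      obtain ⟨τ, -⟩ := mem_image.mp hA
      exact h2 τ
    · exact h2 τ
  obtain ⟨τ1, h1⟩ : ∃ τ1, cl τ1 ≠ cl τ0 := by
    rcases hne with h | ⟨τ, h⟩
    · obtain ⟨A, hA, hA'⟩ := exists_mem_ne (show 1 < (univ.image cl).card from h) (cl τ0)
      obtain ⟨τ, -, rfl⟩ := mem_image.mp hA
      exact ⟨τ, hA'⟩
    · exact ⟨τ, fun h' => h (hal τ h τ0 h'.symm ▸ hB h0)⟩
  obtain ⟨f, a, p1, p2, p3, p4, p5, p6⟩ := hP ε w hε (by linarith) V E T X s t β m0 hI.2 hG.total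
    hm1 cl rd {τ0, τ1}
  have hc2 : (({τ0, τ1} : Finset T).card : ℝ) ≤ 2 := by exact_mod_cast card_le_two
  have hb : ((Fintype.card X : ℝ) + 1) * ({τ0, τ1} : Finset T).card ≤ 2 * P := by
    rw [mul_comm]
    exact mul_le_mul hc2 hX (by positivity) (by norm_num)
  have q2 : ∑ e, ‖f (t e) - f (s e)‖ ^ 2 ≤ En := by
    refine p2.trans ((div_le_div_of_nonneg_right hb (by positivity)).trans (le_of_eq ?_))
    rw [hEn]; ring
  have q3 : ∑ τ ∈ B, ‖a (cl τ0) - ∑ v, mu β m0 τ v • f v‖ ^ 2 ≤ En := by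
    rw [sum_congr rfl fun τ hτ => by rw [hcl τ0 h0 τ hτ]]
    refine ((sum_le_sum_of_subset_of_nonneg hB fun _ _ _ => sq_nonneg _).trans p3).trans ?_
    refine (div_le_div₀ (by positivity) hb (show 0 < ε ^ 2 by positivity) (by nlinarith)).trans
      (le_of_eq ?_)
    rw [hEn]; ring
  have q4 := sc_count hC hG hl hm hm1 B hsp f (a (cl τ0)) (show 0 < c / 64 by positivity) q2 q3
  have q5 := hK V E T X (EuclideanSpace ℝ (E ⊕ T)) s t β Λ own F l1 L1 hG hI.1 hX univ {τ1}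
    (singleton_nonempty _) (fun _ _ => subset_univ _) (by simp [hcu]) (fun v => f v - a (cl τ0))
    (fun b => by
      simp only [sub_sub_sub_cancel_right]
      refine (p1 b).trans ?_
      rw [div_mul_eq_mul_div]
      exact div_le_div_of_nonneg_right (by nlinarith [sq_nonneg ‖b‖]) (by positivity))
    (by simpa only [sub_sub_sub_cancel_right, card_singleton, Nat.cast_one, mul_one] using q2)
    (by rw [show c / 2 / 16 = 2 * (c / 64) by ring, card_singleton, Nat.cast_one, mul_one]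
        exact q4)
  obtain ⟨τ, hτ, q6⟩ | ⟨τ, hτ, τ', hτ', h, -⟩ := q5
  swap
  · exact absurd ((mem_singleton.mp hτ).trans (mem_singleton.mp hτ').symm) h
  obtain rfl := mem_singleton.mp hτ
  have q7 : ∀ x, ‖∑ v, β τ x v • f v - a (cl τ0)‖ ≤ c / 2 := fun x => by
    simpa only [smul_sub, sum_sub_distrib, ← sum_smul, hG.total, one_smul] using q6 x
  have sq : ∀ (u : EuclideanSpace ℝ (E ⊕ T)) (r : ℝ), ‖u‖ ≤ r → ∑ i, u i ^ 2 ≤ r ^ 2 :=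
    fun u r h => by
      rw [← EuclideanSpace.real_norm_sq_eq]
      exact pow_le_pow_left₀ (norm_nonneg _) h 2
  by_cases hr : τ ∈ rd
  · refine Or.inr ⟨τ, hr, τ0, hB h0, h1, _, p6 τ (by simp) hr τ0 (by simp) (hB h0), sq _ _ ?_⟩
    have q8 : ‖∑ v, mu β m0 τ v • f v - a (cl τ0)‖ ≤ c / 2 := by
      have := sc_avg (fun x => ∑ v, β τ x v • f v) (a (cl τ0)) hm hm1 fun x _ => q7 x
      simp only [smul_sum, smul_smul] at this
      rw [sum_comm] at this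
      simpa only [mu, sum_smul] using this
    have q9 := norm_sub_le_norm_sub_add_norm_sub (a (cl τ)) (∑ v, mu β m0 τ v • f v) (a (cl τ0))
    have q10 := p4 τ hr
    have q11 : 0 < 1 / w := by positivity
    rw [show 2 / w = 2 * (1 / w) by ring]
    linarith
  · refine Or.inl ⟨τ, hr, fun x x' => ⟨_, p5 τ (by simp) hr x x', sq _ _ ?_⟩⟩
    have q9 := norm_sub_le_norm_sub_add_norm_sub (∑ v, β τ x v • f v) (a (cl τ0))
      (∑ v, β τ x' v • f v)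
    rw [norm_sub_rev (a _)] at q9
    linarith [q7 x, q7 x']

end Pool.Agent.Lib.MP_c8786f_co.W5
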