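import Pool.Agent.Lib.MP_c8786f_co.W5.X1
import Pool.Agent.Lib.MP_c8786f_co.W5.GT3
import Pool.Agent.Lib.MP_c8786f_co.W5.KomlosGame

/-!
Explicit constants: the abstract balancing theorem.
-/

namespace Pool.Agent.Lib.MP_c8786f_co.W5

open Finset

set_option linter.unusedSectionVars false

theorem ab3X : AB3X := by
  have hK := komlos_game
  have hS := sparseX
  have hC := stageCX
  intro ε ε2 M hε hε1 hε2 hM
  have hM1 : (1 : ℝ) ≤ M := by exact_mod_cast hM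
  obtain ⟨η, hη, hη1, hη3, hη2⟩ : ∃ η : ℝ, 0 < η ∧ η ≤ 1 / M ∧
      (∀ Z : ℝ, 1 ≤ Z → 1 ≤ ε2 * Z → M ≤ Z → 1 ≤ η * (2 ^ 28 * Z ^ 2)) ∧
      12961 * M * (12960 * η) ≤ ε2 := by
    refine ⟨min (1 / M) (ε2 / (12961 * M * 12960)), by positivity, min_le_left _ _,
      fun Z z0 z1 z2 => ?_, ?_⟩
    · rw [min_mul_of_nonneg _ _ (by positivity), div_mul_eq_mul_div, div_mul_eq_mul_div]
      refine le_min ?_ ?_ <;> rw [le_div_iff₀ (by positivity)]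
      · nlinarith
      · have : M * 1 ≤ Z * (ε2 * Z) := by gcongr
        nlinarith
    have := (le_div_iff₀ (by positivity)).1 (min_le_right (1 / (M : ℝ)) (ε2 / (12961 * M * 12960)))
    linarith
  obtain ⟨c, hc, hc1, hc3, hc2⟩ : ∃ c : ℝ, 0 < c ∧ c ≤ 1 / 24000 ∧
      (∀ Z : ℝ, 2 ^ 20 ≤ Z → 1 ≤ ε2 * Z → M ≤ Z → 1 ≤ c * Z ^ 5) ∧ 777600 * c ≤ η := by
    refine ⟨min (1 / 24000) (η / 777600), by positivity, min_le_left _ _,
      fun Z z0 z1 z2 => ?_, ?_⟩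
    · have z3 := hη3 Z (by linarith) z1 z2
      have z4 : (24000 : ℝ) ≤ Z ^ 5 := x_c z0 (by norm_num)
      have z5 : (777600 * 2 ^ 28 : ℝ) ≤ Z ^ 3 := x_c z0 (by norm_num)
      rw [min_mul_of_nonneg _ _ (by positivity)]
      refine le_min (by linarith) ?_
      have z6 : η * Z ^ 2 * (777600 * 2 ^ 28) ≤ η * Z ^ 2 * Z ^ 3 := by gcongr
      linarith
    have := min_le_right (1 / 24000 : ℝ) (η / 777600)
    linarith
  obtain ⟨A1, hA1, hB1, h1⟩ := hS ε 1000 c hε hε1 (by norm_num) hc (by linarith)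
  obtain ⟨A2, hA2, hB2, h2⟩ := hC ε 1000 c hε hε1 (by norm_num) hc (by linarith)
  have zu : ∀ {Z x : ℝ}, 2 ^ 20 ≤ Z → x ≤ Z → x ≤ Z ^ 5 := fun z1 z2 =>
    z2.trans (x_up z1 (by norm_num))
  have ze : ∀ {Z : ℝ}, 2 ^ 20 ≤ Z → 1 ≤ ε * Z → 1 ≤ ε * Z ^ 5 := fun z1 z2 =>
    z2.trans (mul_le_mul_of_nonneg_left (zu z1 le_rfl) hε.le)
  refine ⟨max A1 A2, lt_max_of_lt_left hA1, fun Z z1 z2 z3 z4 => (max_le
    (hB1 _ (zu z1 z1) (hc3 Z z1 z3 z4) (ze z1 z2))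
    (hB2 _ (zu z1 z1) (hc3 Z z1 z3 z4) (ze z1 z2))).trans_eq (by ring),
    fun P α l1 L1 J hP hl hJ2 hα => ?_⟩
  obtain ⟨K1, hK1, h1⟩ := h1 P α l1 L1 J hP (by omega) (gt2_max hA1 (le_max_left _ _) hP hα)
  obtain ⟨K2, hK2, h2⟩ := h2 P α l1 L1 (4 * L1 * J) hP hl (gt2_max hA2 (le_max_right _ _) hP hα)
  refine ⟨max K1 K2, fun Z z1 z2 z3 z4 z5 z6 z7 z8 => ?_,
    fun V E T X _ _ _ _ _ _ _ s t β Λ own F hgeo hiso hX m0 hm0 hm1 ς Z hZ p kap hp hkap => ?_⟩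
  · have z0 : 1 ≤ Z := by linarith
    rw [Nat.cast_max]
    refine max_le ((hK1 _ (zu z1 z1) (hc3 Z z1 z3 z4) (ze z1 z2) (zu z1 z5) (zu z1 z7)
      (zu z1 z8)).trans ?_) ((hK2 _ (zu z1 z1) (hc3 Z z1 z3 z4) (ze z1 z2) (zu z1 z5) (zu z1 z6)
      (zu z1 z7) ?_).trans_eq (by ring))
    · rw [← pow_mul]
      exact pow_le_pow_right₀ z0 (by norm_num)
    · push_cast
      calc (4 * L1 * J : ℝ) ≤ Z ^ 3 * Z * Z := by gcongr; exact x_c z1 (by norm_num)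
        _ = _ := by ring
  replace h1 := h1 V E T X s t β Λ own F hgeo
    ⟨fun Y hY => hiso.1 Y (hY.trans (le_max_left _ _)), hiso.2⟩ hX m0 hm0 hm1
  replace h2 := h2 V E T X s t β Λ own F hgeo
    ⟨fun Y hY => hiso.1 Y (hY.trans (le_max_right _ _)), hiso.2⟩ hX m0 hm0 hm1
  obtain ⟨x0⟩ : Nonempty X := by
    by_contra hne
    rw [not_nonempty_iff] at hne
    simp at hm1
  choose I hI hIc using fun τ => gt_exists_I M (p τ)
  have hmove := gt3_move (s := s) (t := t) (β := β) (m0 := m0) (ε := ε) (ς := ς) (p := p)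
    (kap := kap) hM hη hη1 hc.le hc1 hc2 x0 I
    fun τ Q i hi j => hkap τ Q j ((hI τ Q i).1 hi).1 ((hI τ Q i).1 hi).2
  have stA : ∀ (n : ℕ) (cl : T → T) (rd : Finset T), (univ.image cl).card + rdᶜ.card < n →
      (∀ τ, τ ∉ rd → ∀ τ', cl τ' = cl τ → τ' = τ) → ∃ (cl' : T → T) (rd' : Finset T),
      (∀ τ, τ ∉ rd' → ∀ τ', cl' τ' = cl' τ → τ' = τ) ∧ ¬Move s t β m0 ε 1000 c cl' rd' ∧
      ∀ z0, gt2_Wn (gt3_Inv s t β m0 ε ς p kap η cl' rd' I) z0 →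
        gt2_Wn (gt3_Inv s t β m0 ε ς p kap η cl rd I) z0 := by
    intro n
    induction n with
    | zero => intro cl rd h; omega
    | succ n ih =>
      intro cl rd hn hcl
      by_cases hm : Move s t β m0 ε 1000 c cl rd
      · obtain ⟨cl1, rd1, k1, k2, -, -, k3⟩ := hmove cl rd hcl hm
        obtain ⟨cl2, rd2, k4, k5, k6⟩ := ih cl1 rd1 (by omega) k2
        exact ⟨cl2, rd2, k4, k5, fun z0 h => k3 z0 (k6 z0 h)⟩
      · exact ⟨cl, rd, hcl, hm, fun _ h => h⟩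
  obtain ⟨cl, rd, hcl, hnm, hA⟩ := stA _ id ∅ (Nat.lt_succ_self _) fun _ _ _ h => h
  obtain ⟨B, hB⟩ : ∃ B : Finset T, ∀ τ,
      τ ∈ B ↔ J ≤ (univ.filter fun τ' => cl τ' = cl τ).card :=
    ⟨univ.filter fun τ => J ≤ (univ.filter fun τ' => cl τ' = cl τ).card, fun τ => by
      rw [mem_filter, and_iff_right (mem_univ _)]⟩
  have hBc : ∀ τ ∈ B, ∀ τ', cl τ' = cl τ → τ' ∈ B := fun τ hτ τ' h => by
    rw [hB, h]
    exact (hB τ).1 hτ
  have hBr : B ⊆ rd := by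
    intro τ hτ
    by_contra h
    have k1 : (univ.filter fun τ' => cl τ' = cl τ).card ≤ 1 :=
      card_le_one.2 fun a ha b hb =>
        (hcl τ h a (mem_filter.1 ha).2).trans (hcl τ h b (mem_filter.1 hb).2).symm
    have k2 := (hB τ).1 hτ
    omega
  have hsp := (h1 cl rd B fun τ hτ => (not_le.1 fun h => hτ ((hB τ).2 h)).le).resolve_left hnm
  obtain ⟨p', hp0, hp1, hp2⟩ : ∃ p' : T → ℤ, Even (∑ τ, p' τ) ∧ (∀ τ, τ ∉ B → p' τ = p τ) ∧
      ∑ τ ∈ B, ((p τ : ℝ) - p' τ) = ∑ v, ς v := by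
    obtain ⟨n, hn⟩ := hp
    rcases B.eq_empty_or_nonempty with rfl | ⟨t0, ht0⟩
    · have k1 := hsp univ (by simp)
      have k2 : cut s t univ = 0 := by simp [cut]
      rw [k2, mul_zero, Nat.le_zero, card_eq_zero] at k1
      rw [k1, sum_empty, sub_zero] at hn
      refine ⟨p, ⟨n, ?_⟩, fun _ _ => rfl, by rw [k1]; simp⟩
      have : ((∑ τ, p τ : ℤ) : ℝ) = (n + n : ℤ) := by
        push_cast
        linarith
      exact_mod_cast this
    · refine ⟨fun τ => p τ - if τ = t0 then ∑ τ, p τ - 2 * n else 0, ⟨n, ?_⟩, fun τ hτ => ?_, ?_⟩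
      · simp only [sum_sub_distrib, sum_ite_eq', mem_univ, if_true]
        ring
      · beta_reduce
        rw [if_neg fun h : τ = t0 => hτ (h ▸ ht0), sub_zero]
      · push_cast
        simp only [sub_sub_cancel, sum_ite_eq', ht0, if_true]
        linarith
  have hmoveC := gt2_move (s := s) (t := t) (β := β) (m0 := m0) (ε := ε) (p := p')
    (kap := kap) hM hη hη1 hc.le hc1 hc2 x0 I
    fun τ Q i hi j => hkap τ Q j ((hI τ Q i).1 hi).1 ((hI τ Q i).1 hi).2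
  have stC : ∀ (n : ℕ) (cl : T → T) (rd : Finset T), (univ.image cl).card + rdᶜ.card < n →
      (∀ τ, τ ∉ rd → ∀ τ', cl τ' = cl τ → τ' = τ) → B ⊆ rd → (∀ τ ∈ B, ∀ τ' ∈ B, cl τ = cl τ') →
      gt2_Wn (gt2_Inv s t β m0 ε p' kap η cl rd I) 0 := by
    intro n
    induction n with
    | zero => intro cl rd h; omega
    | succ n ih =>
      intro cl rd hn hcl k1 k2
      by_cases hb : 2 ≤ (univ.image cl).card ∨ ∃ τ, τ ∉ rd
      · obtain ⟨cl1, rd1, k3, k4, k5, k6, k7⟩ := hmoveC cl rd hcl (h2 cl rd B hcl k1 k2 hsp hb)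
        exact k7 _ (ih cl1 rd1 (by omega) k4 (k1.trans k5)
          fun τ hτ τ' hτ' => k6 _ _ (k2 τ hτ τ' hτ'))
      · exact gt2_wn_base (gt2_base cl rd I hp0 hb)
  obtain ⟨cl0, c1, c2⟩ : ∃ cl0 : T → T, (∀ τ ∈ B, ∀ τ', cl0 τ' = cl0 τ ↔ τ' ∈ B) ∧
      ∀ τ, τ ∉ B → cl0 τ = cl τ := by
    rcases B.eq_empty_or_nonempty with rfl | ⟨t0, ht0⟩
    · exact ⟨cl, by simp, fun _ _ => rfl⟩
    refine ⟨fun τ => if τ ∈ B then cl t0 else cl τ, fun τ hτ τ' => ?_, fun τ hτ => if_neg hτ⟩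
    by_cases h : τ' ∈ B
    · simp [h, hτ]
    · simp only [h, hτ, if_true, if_false, iff_false]
      exact fun h' => h (hBc t0 ht0 τ' h')
  obtain ⟨z1, hz1, hb1⟩ := gt2_wn_out hK (stC _ cl0 rd (Nat.lt_succ_self _)
    (fun τ hτ τ' h => by
      have k1 : τ ∉ B := fun h => hτ (hBr h)
      have k2 : τ' ∉ B := fun h' => k1 ((c1 τ' h' τ).1 h.symm)
      rw [c2 τ k1, c2 τ' k2] at h
      exact hcl τ hτ τ' h)
    hBr fun τ hτ τ' hτ' => (c1 τ' hτ' τ).2 hτ)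
  rw [zero_add] at hz1
  obtain ⟨z0, hz0, y, hy, hz2⟩ := gt3_repair hε hZ cl cl0 rd B I hBr hBc
    (fun τ hτ => (hB τ).1 hτ) hsp c1 c2 hp1 hp2 z1 hz1
  obtain ⟨z3, ⟨κ, k1, -, k3⟩, hb3⟩ := gt2_wn_out hK (hA _ (gt2_wn_base hz2))
  have h4 : ∀ τ, |1000 * (z1 + Sum.elim (fun e => z0 e / ε) (fun τ => y τ / 1000) + z3)
      (.inr τ)| ≤ 6480 := by
    intro τ
    have k4 := abs_le.1 (hb1 (.inr τ))
    have k5 := abs_le.1 (hb3 (.inr τ))
    have k6 := abs_le.1 (hy τ)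
    simp only [Pi.add_apply, Sum.elim_inr]
    rw [abs_le]
    constructor <;> linarith
  choose Q i ρ h5 h6 using fun τ => gt_P_full m0 (p τ) (kap τ) η _ ε2 hη.le hη2 _ (I τ) (hI τ)
    (hIc τ) (k3 τ (notMem_empty τ)) (h4 τ)
  refine ⟨z0, hz0, fun e => ε * (z1 (.inl e) + z3 (.inl e)), Q, i, ρ, fun e => ?_, h5,
    fun v => ?_⟩
  · have k4 := abs_le.1 (hb1 (.inl e))
    have k5 := abs_le.1 (hb3 (.inl e))
    rw [abs_le]
    constructor <;> nlinarith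
  · have h7 := gt_bd_add s t 0 (fun e => (z1 + Sum.elim (fun e => z0 e / ε)
      (fun τ => y τ / 1000) + z3) (.inl e)) ε v
    have h8 : (fun e => (0 : E → ℝ) e + ε * (z1 + Sum.elim (fun e => z0 e / ε)
        (fun τ => y τ / 1000) + z3) (.inl e)) =
        z0 + fun e => ε * (z1 (.inl e) + z3 (.inl e)) := by
      funext e
      simp only [Pi.add_apply, Pi.zero_apply, Sum.elim_inl]
      field_simp
      ring
    rw [h8, k1.1 v] at h7
    rw [h7]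
    simp [bd, h6]


end Pool.Agent.Lib.MP_c8786f_co.W5
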