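import Pool.Agent.Lib.MP_c8786f_co.W5.X1
import Pool.Agent.Lib.MP_c8786f_co.W5.Route
import Pool.Agent.Lib.MP_c8786f_co.W5.Fix3
import Pool.Agent.Lib.MP_c8786f_co.W5.Blob
import Pool.Agent.Lib.MP_c8786f_co.W5.Phases3

/-!
Explicit constants: routing, parity repair, blobs and phases.
-/

namespace Pool.Agent.Lib.MP_c8786f_co.W5

open Finset

set_option linter.unusedSectionVars false

theorem routeX : RouteX := by
  intro L1 A' Φ η ξ hη hξ
  refine ⟨A' * (⌈Φ / ξ⌉₊ + 4 * (L1 * (2 * ⌈Φ / ξ⌉₊ + ⌈Φ / η⌉₊))) +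
    L1 * (2 * ⌈Φ / ξ⌉₊ + ⌈Φ / η⌉₊), fun Z z1 z2 z3 z4 z5 z6 => ?_, ?_⟩
  · have z0 : 1 ≤ Z := by linarith
    have k : ∀ x : ℝ, 0 < x → 1 ≤ x * Z → (⌈Φ / x⌉₊ : ℝ) ≤ Z * (Φ + 1) := fun x h1 h2 => by
      have h3 := x_inv h1 h2
      have h4 := Nat.ceil_lt_add_one (show 0 ≤ Φ / x by positivity)
      have h5 : Φ / x ≤ Φ * Z := by rw [div_eq_mul_inv]; gcongr
      linarith
    have k1 := k ξ hξ z4
    have k2 := k η hη z3
    have k3 : Z * (Φ + 1) ≤ Z * (Z * (Φ + 1)) := le_mul_of_one_le_left (by positivity) z0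
    have k4 : Z * (2 * (Z * (Φ + 1)) + Z * (Φ + 1)) ≤ Z * (Z * (2 * (Z * (Φ + 1)) + Z * (Φ + 1))) :=
      le_mul_of_one_le_left (by positivity) z0
    push_cast
    calc _ ≤ Z * (Z * (Z * (Φ + 1)) + 4 * (Z * (2 * (Z * (Φ + 1)) + Z * (Φ + 1)))) +
          Z * (Z * (2 * (Z * (Φ + 1)) + Z * (Φ + 1))) := by
          refine add_le_add ?_ (le_trans ?_ k4)
          · gcongr
            exact k1.trans k3
          · gcongr
      _ = 16 * (Z ^ 3 * (Φ + 1)) := by ring
      _ ≤ Z * (Z ^ 3 * (Φ + 1)) := by gcongr; linarith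
      _ = _ := by ring
  intro V E T X _ _ _ _ _ _ _ s t β Λ own F α l0 l1 G iso m0 hm0 hm1 B hB σ hσ hΦ
  classical
  obtain ⟨c, ψ, hc, hψ1, hψ2⟩ := rt_ports G m0 hm0 hm1
  have key : ∀ Y : Finset V, ∑ v ∈ Y, |σ v| ≤
      ξ * cut s t Y + η * (B.filter fun τ => c τ ∈ Y).card := by
    intro Y
    have p1 : 0 ≤ ξ * cut s t Y := by positivity
    have p2 : 0 ≤ η * (B.filter fun τ => c τ ∈ Y).card := by positivity
    have p3 : ∑ v ∈ Y, |σ v| ≤ Φ :=
      (sum_le_sum_of_subset_of_nonneg (subset_univ Y) fun _ _ _ => abs_nonneg _).trans hΦ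
    by_cases h1 : ⌈Φ / ξ⌉₊ ≤ cut s t Y
    · have := Nat.ceil_le.mp h1
      rw [div_le_iff₀ hξ] at this
      linarith
    by_cases h2 : ⌈Φ / η⌉₊ ≤ (B.filter fun τ => c τ ∈ Y).card
    · have := Nat.ceil_le.mp h2
      rw [div_le_iff₀ hη] at this
      linarith
    set Y2 := Y.filter fun v => own v ∈ B with hY2
    set Y1 := Y.filter fun v => own v ∉ B with hY1
    set C : Finset E := univ.filter fun e => ¬(s e ∈ Y ↔ t e ∈ Y) with hC
    set T2 : Finset T := C.biUnion fun e => univ.filter fun τ => e ∈ F τ with hT2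
    have h3 : T2.card ≤ cut s t Y * 2 :=
      card_biUnion_le_card_mul C (fun e => univ.filter fun τ => e ∈ F τ) 2 fun e _ => G.twice e
    have h4 : Y2 ⊆ (T2 ∪ B.filter fun τ => c τ ∈ Y).biUnion
        fun τ => univ.filter fun v => own v = τ := by
      intro v hv
      obtain ⟨hv1, hv2⟩ := mem_filter.mp hv
      simp only [mem_biUnion, mem_filter, mem_univ, true_and, exists_eq_right', mem_union]
      by_cases h : own v ∈ T2
      · exact Or.inl h
      · refine Or.inr ⟨hv2, sp_inside G Y hv1 (fun e he => ?_) (hc _)⟩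
        by_contra hn
        exact h (mem_biUnion.2 ⟨e, by simp only [hC, mem_filter, mem_univ, true_and]; exact hn,
          by simpa using he⟩)
    have h5 : Y2.card ≤ L1 * (2 * ⌈Φ / ξ⌉₊ + ⌈Φ / η⌉₊) := by
      refine (card_le_card h4).trans ((card_biUnion_le_card_mul _ _ _ fun τ _ => G.cell τ).trans ?_)
      rw [mul_comm]
      exact Nat.mul_le_mul_left _ ((card_union_le _ _).trans (by omega))
    have h6 : cut s t Y1 ≤ cut s t Y + Y2.card * 4 := by
      have : (univ.filter fun e => ¬(s e ∈ Y1 ↔ t e ∈ Y1)) ⊆ C ∪ Y2.biUnion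
          fun v => (univ.filter fun e => s e = v) ∪ univ.filter fun e => t e = v := by
        intro e he
        simp only [hY1, hY2, hC, mem_filter, mem_univ, true_and, mem_union, mem_biUnion] at he ⊢
        by_cases a1 : s e ∈ Y ∧ own (s e) ∈ B
        · exact Or.inr ⟨_, a1, Or.inl rfl⟩
        by_cases a2 : t e ∈ Y ∧ own (t e) ∈ B
        · exact Or.inr ⟨_, a2, Or.inr rfl⟩
        exact Or.inl (by tauto)
      exact (card_le_card this).trans ((card_union_le _ _).trans (Nat.add_le_add_left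
        (card_biUnion_le_card_mul _ _ _ fun v _ => (card_union_le _ _).trans (G.deg v)) _))
    have h7 := hB Y1 fun v hv => (mem_filter.mp hv).2
    have h8 : Y2.card + Y1.card = Y.card := card_filter_add_card_filter_not _
    have h9 : A' * cut s t Y1 ≤ A' * (⌈Φ / ξ⌉₊ + 4 * (L1 * (2 * ⌈Φ / ξ⌉₊ + ⌈Φ / η⌉₊))) :=
      Nat.mul_le_mul_left _ (by omega)
    have h10 : (Y.card : ℝ) ≤ 2 * cut s t Y := by exact_mod_cast iso Y (by omega)
    have h11 : ∑ v ∈ Y, |σ v| ≤ Y.card • (ξ / 2) :=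
      sum_le_card_nsmul _ _ _ fun v _ => by linarith [hσ v]
    rw [nsmul_eq_mul] at h11
    nlinarith
  have hcut : ∀ Y : Finset V, (∑ e, if (s e ∈ Y ↔ t e ∈ Y) then 0 else ξ) = ξ * cut s t Y := by
    intro Y
    rw [cut, card_filter]
    push_cast
    rw [mul_sum]
    exact sum_congr rfl fun e _ => by split_ifs <;> simp
  obtain ⟨x, hx1, hx2⟩ := rt_gale (V := Option V) (E := E ⊕ T)
    (Sum.elim (fun e => some (s e)) fun _ => none) (Sum.elim (fun e => some (t e)) fun τ => some (c τ))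
    (Sum.elim (fun _ => ξ) fun τ => if τ ∈ B then η else 0)
    (fun e => by
      rcases e with e | τ
      · exact hξ.le
      · simp only [Sum.elim_inr]; split_ifs <;> linarith)
    (fun v => v.elim (∑ v, σ v) fun v => -σ v) (by simp [Fintype.sum_option]) (fun Y => by
      set Y0 : Finset V := univ.filter fun v => some v ∈ Y with hY0
      have e1 : ∑ v ∈ Y, (v.elim (∑ v, σ v) fun v => -σ v) =
          (if none ∈ Y then ∑ v, σ v else 0) - ∑ v ∈ Y0, σ v := by
        rw [← univ_inter Y, ← filter_mem_eq_inter, sum_filter, Fintype.sum_option, hY0, sum_filter,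
          sub_eq_add_neg, ← sum_neg_distrib]
        simp only [filter_mem_eq_inter, univ_inter, Option.elim_none, Option.elim_some]
        congr 1
        exact sum_congr rfl fun v _ => by split_ifs <;> simp
      have e2 := hcut Y0
      simp only [hY0, mem_filter, mem_univ, true_and] at e2
      rw [e1, Fintype.sum_sum_type]
      simp only [Sum.elim_inl, Sum.elim_inr]
      rw [e2]
      by_cases h : none ∈ Y
      · have k := key Y0ᶜ
        rw [cut_compl] at k
        have k1 : ∑ v ∈ Y0ᶜ, σ v ≤ ∑ v ∈ Y0ᶜ, |σ v| := sum_le_sum fun v _ => le_abs_self _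
        have k2 := sum_compl_add_sum Y0 σ
        have k3 : (∑ τ, if (none ∈ Y ↔ some (c τ) ∈ Y) then 0 else if τ ∈ B then η else 0) =
            η * (B.filter fun τ => c τ ∈ Y0ᶜ).card := by
          rw [card_filter, ← sum_subset (subset_univ B) fun τ _ hτ => by simp [hτ]]
          push_cast
          rw [mul_sum]
          exact sum_congr rfl fun τ hτ => by by_cases a : some (c τ) ∈ Y <;> simp [hY0, h, hτ, a]
        rw [k3, if_pos h]
        linarith
      · have k := key Y0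
        have k1 : -∑ v ∈ Y0, σ v ≤ ∑ v ∈ Y0, |σ v| := by
          rw [← sum_neg_distrib]; exact sum_le_sum fun v _ => neg_le_abs _
        have k3 : (∑ τ, if (none ∈ Y ↔ some (c τ) ∈ Y) then 0 else if τ ∈ B then η else 0) =
            η * (B.filter fun τ => c τ ∈ Y0).card := by
          rw [card_filter, ← sum_subset (subset_univ B) fun τ _ hτ => by simp [hτ]]
          push_cast
          rw [mul_sum]
          exact sum_congr rfl fun τ hτ => by by_cases a : some (c τ) ∈ Y <;> simp [hY0, h, hτ, a]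
        rw [k3, if_neg h]
        linarith)
  have hy : ∀ τ, |x (.inr τ)| ≤ η := fun τ => (hx1 _).trans (by
    simp only [Sum.elim_inr]; split_ifs <;> linarith)
  refine ⟨fun e => x (.inl e) - ∑ τ, x (.inr τ) * ψ τ e, fun τ => x (.inr τ), fun e => ?_, hy,
    fun τ h => by simpa [h] using hx1 (.inr τ), fun v => ?_⟩
  · refine (abs_sub _ _).trans (add_le_add (hx1 (.inl e)) ((abs_sum_le_sum_abs _ _).trans ?_))
    have h1 : ∑ τ, |x (.inr τ) * ψ τ e| ≤ ∑ τ, if e ∈ F τ then η else 0 :=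
      sum_le_sum fun τ _ => by
        rw [abs_mul]
        refine (mul_le_mul (hy τ) (hψ1 τ e) (abs_nonneg _) hη.le).trans ?_
        split_ifs <;> simp
    rw [← sum_filter, sum_const, nsmul_eq_mul] at h1
    have h2 : ((univ.filter fun τ => e ∈ F τ).card : ℝ) ≤ 2 := by exact_mod_cast G.twice e
    exact h1.trans (mul_le_mul_of_nonneg_right h2 hη.le)
  · have h1 := hx2 (some v)
    rw [fix_bd, Fintype.sum_sum_type] at h1
    simp only [Sum.elim_inl, Sum.elim_inr, Option.some.injEq, reduceCtorEq, if_false, zero_sub,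
      Option.elim_some, sum_neg_distrib] at h1
    rw [← fix_bd s t fun e => x (.inl e)] at h1
    have h3 : bd s t (fun e => x (.inl e) - ∑ τ, x (.inr τ) * ψ τ e) v =
        bd s t (fun e => x (.inl e)) v - ∑ τ, x (.inr τ) * bd s t (ψ τ) v := by
      simp only [bd, mul_sub, mul_sum, sum_sub_distrib]
      rw [sum_comm (s := univ.filter fun e => s e = v), sum_comm (s := univ.filter fun e => t e = v)]
      ring
    rw [h3]
    simp only [hψ2, mul_sub, sum_sub_distrib, mul_ite, mul_one, mul_zero]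
    linarith

theorem fix3X : Fix3X := by
  have hF := fix
  have hR := routeX
  intro L1 A' k n K0 Φ ξ hk hn hξ
  have k0 : (1 : ℝ) ≤ k := by exact_mod_cast hk
  have n0 : (1 : ℝ) ≤ n := by exact_mod_cast hn
  obtain ⟨K, hKb, hK⟩ := hR L1 A' Φ (1 / (2 * (n * k))) ξ (by positivity) hξ
  refine ⟨max K (K0 + 1), fun Z z1 z2 z3 z4 z5 z6 z7 => ?_, ?_⟩
  · have zu : Z ≤ Z ^ 3 := x_up z1 (by norm_num)
    have h := hKb (Z ^ 3) (z1.trans zu) z2 (by
      rw [div_mul_eq_mul_div, le_div_iff₀ (by positivity)]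
      calc (1 * (2 * (n * k)) : ℝ) ≤ 1 * (Z * (Z * Z)) := by gcongr; linarith
        _ = _ := by ring) (z3.trans (mul_le_mul_of_nonneg_left zu hξ.le)) (z4.trans zu) (z5.trans zu)
    rw [show (Z ^ 3) ^ 4 = Z ^ 12 by ring] at h
    have h0 : 0 ≤ Z ^ 12 * (Φ + 1) := by positivity
    have h1 : (0 : ℝ) ≤ K0 := Nat.cast_nonneg _
    push_cast
    exact max_le (by linarith) (by linarith)
  intro V E T X _ _ _ _ _ _ _ s t β Λ own F α l0 l1 wt hG h1 h2 m0 hm0 hm1 σ hσ hΦ cl B hJ hB r hr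
  obtain ⟨z1, y1, hz1, hy1, hy1B, hbd1⟩ := hK V E T X s t β Λ own F α l0 l1 hG
    (fun Y hY => (h1 Y (hY.trans (le_max_left _ _))).1) m0 hm0 hm1 B hB σ hσ hΦ
  have hfix := hF V E T X s t β Λ own F α l0 l1 L1 (K0 + 1) (2 * k) n (fun e => 2 * wt e) hG
    (by omega) hn
    (fun Y hY => by
      rw [f3_wcut]; exact Nat.mul_le_mul_left _ (h1 Y (hY.trans (le_max_right _ _))).2)
    (fun Y hY hY' => by rw [f3_wcut]; exact Nat.mul_le_mul_left _ (h2 Y hY hY')) m0 hm0 hm1
  have hmu : ∀ τ, ∑ v, mu β m0 τ v = 1 := fun τ => by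
    simp only [mu]
    rw [sum_comm]
    simp only [← mul_sum, hG.total, mul_one, hm1]
  have hs : ∑ τ ∈ B, y1 τ = ∑ v, σ v := by
    have h3 := f3_sum_bd s t z1
    simp only [hbd1, sum_sub_distrib] at h3
    rw [sum_comm] at h3
    simp only [← mul_sum, hmu, mul_one] at h3
    rw [sum_subset (subset_univ B) fun τ _ hτ => hy1B τ hτ]
    linarith
  obtain ⟨j, hj⟩ := hr
  obtain ⟨z0, hz0, y0, hy0, hy0B, hbd0, hpar⟩ := hfix cl B
    (fun τ hτ => le_trans (le_of_eq (by ring)) (hJ τ hτ))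
    (fun A => r A - ∑ τ ∈ B with cl τ = A, y1 τ)
    ⟨j, by rw [sum_sub_distrib, sum_fiberwise_of_maps_to fun τ hτ => mem_image_of_mem cl hτ, hs, hj]⟩
  refine ⟨z0 + z1, fun e => ?_, y0 + y1, fun τ => ?_, fun τ hτ => ?_, fun v => ?_, fun A hA => ?_⟩
  · have h3 := hz0 e
    have h4 := hz1 e
    have e1 : ((2 * wt e : ℕ) : ℝ) / (2 * k : ℕ) + 2 / (n * (2 * k : ℕ)) + (ξ + 2 * (1 / (2 * (n * k))))
        = wt e / k + 2 / (n * k) + ξ := by
      push_cast; field_simp; ring
    exact (abs_add_le _ _).trans ((add_le_add h3 h4).trans e1.le)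
  · have h3 : 1 / (2 * ((n : ℝ) * k)) ≤ 1 := by
      rw [div_le_one (by positivity)]; nlinarith
    exact (abs_add_le _ _).trans (by linarith [hy0 τ, hy1 τ])
  · simp [hy0B τ hτ, hy1B τ hτ]
  · rw [f3_bd_add, hbd0, hbd1]
    simp only [Pi.add_apply, add_mul, sum_add_distrib]
    ring
  · obtain ⟨i, hi⟩ := hpar A hA
    refine ⟨i, ?_⟩
    simp only [Pi.add_apply, sum_add_distrib]
    linarith

theorem blobX : BlobX := by
  intro k D N
  set W := D + 1 with hW
  set Φ := (W + 1) * ((W + 2) * k + N) with hΦ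
  refine ⟨Φ, W * Φ + W + Φ, rfl, rfl, ?_⟩
  intro K hK V _ _ n m B0 hm hN hB0 hfor
  have hW0 : 0 < W := by omega
  have hX0 : ∀ X ⊆ B0, X.card ≤ K → X.card ≤ hcut n m X := fun X h1 h2 => by
    rcases X.eq_empty_or_nonempty with rfl | h
    · simp
    · have := hfor X h1 h h2
      omega
  have hbig : ∀ Z ⊆ B0, Φ < Z.card → hcut n m Z ≤ Φ → K < Z.card := fun Z h1 h2 h3 => by
    by_contra h
    have := hX0 Z h1 (by omega)
    omega
  have hex : ∃ c, ∃ B X : Finset V, B.card = c ∧ B ⊆ B0 ∧ X ⊆ B0 ∧ Disjoint B X ∧ K < B.card ∧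
      X.card ≤ K ∧ blobPsi n m W B X ≤ 2 * W * Φ := by
    refine ⟨_, B0, ∅, rfl, subset_rfl, empty_subset _, disjoint_empty_right _, hB0, by simp, ?_⟩
    have k2 : (hcut n m B0 : ℤ) ≤ (W + 2) * k + N := by
      have : hcut n m B0 ≤ (W + 2) * k + N := by omega
      exact_mod_cast this
    have k3 := mul_le_mul_of_nonneg_left k2 (show (0 : ℤ) ≤ 2 * W * (W + 1) by positivity)
    simp only [blobPsi, hcut, blobE, notMem_empty, false_and, and_false, filter_false, card_empty,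
      hΦ] at k3 ⊢
    push_cast
    nlinarith
  classical
  obtain ⟨B, X, hc, h1, h2, h3, h4, h5, h6⟩ := Nat.find_spec hex
  have hmin : ∀ B' X' : Finset V, B' ⊆ B0 → X' ⊆ B0 → Disjoint B' X' → Φ < B'.card →
      X'.card ≤ K → blobPsi n m W B' X' ≤ 2 * W * Φ → B.card ≤ B'.card :=
    fun B' X' a1 a2 a3 a4 a5 a6 => hc ▸ Nat.find_min' hex ⟨B', X', rfl, a1, a2, a3,
      hbig B' a1 a4 (blob_bound hW0 a3 (hX0 X' a2 a5) a6).1, a5, a6⟩
  obtain ⟨b1, b2⟩ := blob_bound hW0 h3 (hX0 X h2 h5) h6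
  refine ⟨B, h1, fun a l a' l' w c1 c2 c3 c4 c5 => ?_, b1, h4,
    fun Y hY => hfor Y (hY.trans h1), fun Y hY c1 c2 => ?_⟩
  · by_contra hne
    obtain ⟨P, p1, p2, p3, p4, p5⟩ := blob_walk hm B a w c3
    rw [c5] at p3
    have e : B \ P ∪ P = B := sdiff_union_of_subset p1
    have hi : 2 ≤ blobE n m P (B \ P ∪ P)ᶜ := by
      rw [e]
      exact one_lt_card.2 ⟨(a, l), by simp [p2, c1], (a', l'), by simp [p3, c2],
        fun h => hne (Prod.ext_iff.1 h)⟩
    have d := blob_drop (W := W) hm sdiff_disjoint (e.symm ▸ h3) (by omega) p5 hi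
    rw [e] at d
    have q1 := card_sdiff_add_card_eq_card p1
    have q2 := card_pos.2 ⟨a, p2⟩
    have q3 := card_union_le X P
    have := hmin (B \ P) (X ∪ P) (sdiff_subset.trans h1) (union_subset h2 (p1.trans h1))
      (disjoint_union_right.2 ⟨h3.mono_left sdiff_subset, sdiff_disjoint⟩) (by omega) (by omega)
      (d.trans h6)
    omega
  · by_contra hlt
    rw [blob_icut, not_le] at hlt
    have key : ∀ Z Z' : Finset V, Disjoint Z Z' → Z ∪ Z' = B → Φ < Z.card → Φ < Z'.card →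
        blobE n m Z Z' < k → ¬blobE n m Z Bᶜ ≤ blobE n m Z' Bᶜ := by
      rintro Z Z' z1 rfl z2 z3 z4 z5
      have q1 := card_union_of_disjoint z1
      have q2 : Z ⊆ B0 := subset_union_left.trans h1
      rcases blob_side z1 h3 z4 z5 h6 with z6 | z6
      · have := hmin Z X q2 h2 (h3.mono_left subset_union_left) z2 h5 z6
        omega
      · have := hmin Z ∅ q2 (empty_subset _) (disjoint_empty_right _) z2 (by simp) z6
        omega
    rcases le_total (blobE n m Y Bᶜ) (blobE n m (B \ Y) Bᶜ) with h | h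
    · exact key Y (B \ Y) disjoint_sdiff (union_sdiff_of_subset hY) c1 c2 hlt h
    · exact key (B \ Y) Y sdiff_disjoint (sdiff_union_of_subset hY) c2 c1
        (blobE_comm hm Y _ ▸ hlt) h

lemma x_gamma (N n : ℕ) (hN : 0 < N) (hn : N ≤ n) : ∃ γ : ℝ, 0 < γ ∧ γ < 1 ∧
    0 < (1 - (1 / 2) ^ N) / γ ^ N ∧ (1 - (1 / 2) ^ N) / γ ^ N < 1 ∧
    (1 - (1 / 2) ^ N) / γ ^ N ≤ 1 - (1 / 2) ^ (n + 1) ∧
    (1 / 2) ^ (2 * n + 4) ≤ (1 - (1 / 2) ^ N) / γ ^ N * (1 - γ) / 4 := by
  have hN' : (1 : ℝ) ≤ N := by exact_mod_cast hN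
  have ha0 : (0 : ℝ) < (1 / 2) ^ N := by positivity
  have ha1 : ((1 : ℝ) / 2) ^ N ≤ 1 / 2 := pow_le_of_le_one (by norm_num) (by norm_num) hN.ne'
  have hb0 : (0 : ℝ) < (1 / 2) ^ n := by positivity
  have hb1 : ((1 : ℝ) / 2) ^ n ≤ (1 / 2) ^ N := pow_le_pow_of_le_one (by norm_num) (by norm_num) hn
  have hc : (N : ℝ) * (1 / 2) ^ N ≤ 1 := by
    have : (N : ℝ) ≤ 2 ^ N := by exact_mod_cast Nat.lt_two_pow_self.le
    rw [one_div, inv_pow, ← div_eq_mul_inv, div_le_one (by positivity)]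
    exact this
  have e : ((1 : ℝ) / 2) ^ (2 * n + 4) = (1 / 2) ^ n * (1 / 2) ^ n / 16 := by ring
  rw [e, pow_succ]
  set a : ℝ := (1 / 2) ^ N
  set b : ℝ := (1 / 2) ^ n
  have h1 : 0 < a / (2 * N) := by positivity
  have h2 : a / (2 * N) ≤ 1 / 2 := by
    rw [div_le_iff₀ (by positivity)]
    linarith
  have h3 := one_add_mul_le_pow (a := -(a / (2 * N))) (by linarith) N
  have h4 : (N : ℝ) * -(a / (2 * N)) = -(a / 2) := by field_simp
  rw [h4, ← sub_eq_add_neg, ← sub_eq_add_neg] at h3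
  have h5 : 0 < (1 - a / (2 * N)) ^ N := by linarith
  have h6 : (1 - a / (2 * N)) ^ N ≤ 1 := pow_le_one₀ (by linarith) (by linarith)
  have h7 : (1 - a) / (1 - a / (2 * N)) ^ N ≤ 1 - a / 2 := by
    rw [div_le_iff₀ h5]
    nlinarith
  have h8 : 1 / 2 ≤ (1 - a) / (1 - a / (2 * N)) ^ N := by
    rw [le_div_iff₀ h5]
    linarith
  have h9 : b * b / 2 ≤ a / (2 * N) := by
    rw [le_div_iff₀ (by positivity)]
    have : b * b ≤ a * a := by gcongr
    nlinarith
  refine ⟨1 - a / (2 * N), by linarith, by linarith, by linarith, by linarith, by linarith, ?_⟩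
  rw [sub_sub_cancel]
  nlinarith

lemma x_card (j0 : ℕ) [Fintype {w // phPat j0 w}] :
    Fintype.card (Fin 2 × {w // phPat j0 w}) ≤ 2 * 4 ^ (2 * j0) := by
  have h := Fintype.card_le_of_injective
    (fun (w : {w // phPat j0 w}) (i : Fin (2 * j0)) => w.1[i.1]?) fun w w' e => by
      refine Subtype.ext (List.ext_getElem? fun i => ?_)
      by_cases hi : i < 2 * j0
      · exact congrFun e ⟨i, hi⟩
      · rw [List.getElem?_eq_none (by have := w.2.2.2.2; omega),
          List.getElem?_eq_none (by have := w'.2.2.2.2; omega)]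
  simp only [Fintype.card_pi, Fintype.card_option, Fintype.card_fin, prod_const, card_univ] at h
  rw [Fintype.card_prod, Fintype.card_fin]
  exact Nat.mul_le_mul_left 2 h

theorem phases3X : Phases3X := by
  classical
  intro j0 hj0
  have hfin : {w : List (Fin 3) | phPat j0 w}.Finite :=
    (List.finite_length_lt (Fin 3) (2 * j0)).subset fun w hw => hw.2.2.2
  have : Fintype {w // phPat j0 w} := hfin.fintype
  have : Nonempty {w // phPat j0 w} :=
    ⟨⟨[2], List.isChain_singleton _, rfl, rfl, by simp only [List.length_singleton]; omega⟩⟩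
  obtain ⟨γ, hγ0, hγ1, hρ0, hρ1, hρ2, hρ3⟩ := x_gamma (Fintype.card (Fin 2 × {w // phPat j0 w}))
    _ Fintype.card_pos (x_card j0)
  set ρ : ℝ := (1 - (1 / 2) ^ Fintype.card (Fin 2 × {w // phPat j0 w})) /
    γ ^ Fintype.card (Fin 2 × {w // phPat j0 w}) with hρ
  have hγ2 : 0 < 1 - γ := by linarith
  refine ⟨ρ, ρ * (1 - γ) / 4, hρ0, hρ2, by rwa [← mul_assoc] at hρ3, ?_⟩
  intro T D R L hR hL V _ _ n m hm hI' S own back hS U yU cU hyU hcU hU hF
  have hI : Inj n m (L + 2 * D + 4 * j0 + 1) := hI'.mono (by omega)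
  by_cases hT2 : T < 2
  · have hL0 : L = 0 := by
      have h1 : ρ ≤ ρ ^ T := by
        have h2 : ρ ^ 1 ≤ ρ ^ T := pow_le_pow_of_le_one hρ0.le hρ1.le (by omega)
        rwa [pow_one] at h2
      have h2 : (L : ℝ) * ρ ≤ L * ρ ^ T := mul_le_mul_of_nonneg_left h1 (Nat.cast_nonneg L)
      have h3 : (L : ℝ) * ρ < 1 * ρ := by nlinarith
      have h4 : (L : ℝ) < 1 := lt_of_mul_lt_mul_right h3 hρ0.le
      exact_mod_cast Nat.lt_one_iff.1 (by exact_mod_cast h4)
    have hV : ∀ v : V, False := fun v => by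
      have := hS.lt v
      omega
    exact ⟨fun _ => 1, fun v => (hV v).elim, fun v => (hV v).elim, fun v => (hV v).elim,
      fun v => (hV v).elim⟩
  obtain ⟨T', rfl⟩ : ∃ T', T = T' + 1 := ⟨T - 1, by omega⟩
  have hT : 0 < T' := by omega
  let S0 : V → Prop := fun o => ∃ p : V × List (Fin 3), p.1 ∈ U ∧ ph3_pat j0 p.2 ∧
    o = own (act n m p.2 p.1)
  let t0 : V × List (Fin 3) → Bool := fun p =>
    decide ((if p.2 = [] then cU p.1 else -yU p.1) * (-1) ^ back (act n m p.2 p.1) = 1)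
  let ev : Finset (V × ℕ × Bool × ℕ) :=
    S ×ˢ ((range D).filter fun σ => (σ + 1) * (2 * (T' + 1) + 2) ≤ D) ×ˢ univ ×ˢ range 2
  have hev : ∀ i : V × ℕ × Bool × ℕ, i ∈ ev →
      i.1 ∈ S ∧ (i.2.1 + 1) * (2 * (T' + 1) + 2) ≤ D ∧ i.2.2.2 < 2 := by
    intro i hi
    simp only [ev, mem_product, mem_filter, mem_range] at hi
    exact ⟨hi.1, hi.2.1.2, hi.2.2.2⟩
  let xx : V × ℕ × Bool × ℕ → Fin (T' + 1) × Fin 2 × {w // phPat j0 w} → ℕ := fun i q =>
    i.2.1 * (2 * (T' + 1) + 2) + i.2.2.2 + 2 * q.1.1 + q.2.1.1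
  let vt : V × ℕ × Bool × ℕ → Fin (T' + 1) × Fin 2 × {w // phPat j0 w} → V := fun i q =>
    act n m q.2.2.1 ((n ^ xx i q) i.1)
  have hxx : ∀ i ∈ ev, ∀ q, i.2.1 * (2 * (T' + 1) + 2) ≤ xx i q ∧
      xx i q < (i.2.1 + 1) * (2 * (T' + 1) + 2) ∧ xx i q ≤ D := by
    intro i hi q
    obtain ⟨-, h2, h3⟩ := hev i hi
    have h4 := q.1.2
    have h5 := q.2.1.2
    rw [add_mul, one_mul] at h2 ⊢
    simp only [xx]
    omega
  have hp : ∀ i : V × ℕ × Bool × ℕ, ∃ p : Fin (T' + 1), i ∈ ev → ∀ k, k ≠ p →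
      ∀ q, ¬ S0 (own (vt i (k, q))) := by
    intro i
    by_cases h : ∃ k q, S0 (own (vt i (k, q)))
    · obtain ⟨k, q, p, hp1, hp2, hp3⟩ := h
      refine ⟨k, fun hi k' hk' q' h' => ?_⟩
      obtain ⟨p', hp1', hp2', hp3'⟩ := h'
      have h4 := q.1.2
      have h5 := q'.1.2
      have h6 : k'.1 ≠ k.1 := fun h => hk' (Fin.ext h)
      have h7 : xx i (k, q) ≠ xx i (k', q') := by
        simp only [xx]
        omega
      rcases lt_or_gt_of_ne h7 with h8 | h8
      · exact ph3_spoil hm hI' hS hU (hF _ (hev i hi).1) h8 (hxx i hi _).2.2 hp1 hp1' q.2.2 q'.2.2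
          hp2 hp2' hp3 hp3'
      · exact ph3_spoil hm hI' hS hU (hF _ (hev i hi).1) h8 (hxx i hi _).2.2 hp1' hp1 q'.2.2 q.2.2
          hp2' hp2 hp3' hp3
    · exact ⟨0, fun _ k _ q h' => h ⟨k, q, h'⟩⟩
  choose pp hpp using hp
  let κ : V × ℕ × Bool × ℕ → Fin T' × Fin 2 × {w // phPat j0 w} →
      Fin (T' + 1) × Fin 2 × {w // phPat j0 w} := fun i q => ((pp i).succAbove q.1, q.2)
  obtain ⟨φ, hφ⟩ := ph_lll T' hT ev (fun i q => own (vt i (κ i q)))
    (by
      intro i hi q q' h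
      obtain ⟨h1, h2⟩ := ph_own hI hS (κ i q).2.2.2 (κ i q').2.2.2 (hxx i hi (κ i q)).2.2
        (hxx i hi (κ i q')).2.2 h
      have h4 := q.2.1.2
      have h5 := q'.2.1.2
      simp only [xx, κ] at h1 h2
      have h6 : (pp i).succAbove q.1 = (pp i).succAbove q'.1 := Fin.ext (by omega)
      exact Prod.ext (Fin.succAbove_right_injective h6)
        (Prod.ext (Fin.ext (by omega)) (Subtype.ext h2)))
    (fun i q => if Even (back (vt i (κ i q))) then !i.2.2.1 else i.2.2.1) γ hγ0 hγ1.le (L * 4)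
    (by
      intro o
      have h1 : (ev.filter fun i => o ∈ univ.image fun q => own (vt i (κ i q))) ⊆
          (univ.filter fun u => own u = o).biUnion fun u => ev.filter fun i => ∃ q, vt i q = u := by
        intro i hi
        obtain ⟨hi1, hi2⟩ := mem_filter.1 hi
        obtain ⟨q, -, hq⟩ := mem_image.1 hi2
        exact mem_biUnion.2 ⟨vt i (κ i q), mem_filter.2 ⟨mem_univ _, hq⟩,
          mem_filter.2 ⟨hi1, κ i q, rfl⟩⟩
      refine (card_le_card h1).trans ((card_biUnion_le_card_mul _ _ 4 ?_).trans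
        (Nat.mul_le_mul_right 4 (ph_cell hS o)))
      intro u _
      have h2 : ((univ : Finset Bool) ×ˢ range 2).card = 4 := by simp
      rw [← h2]
      refine card_le_card_of_injOn (fun i => i.2.2) ?_ ?_
      · intro i hi
        have := (hev i (mem_filter.1 hi).1).2.2
        simpa using this
      · intro i hi i' hi' h
        obtain ⟨hi1, q, hq⟩ := mem_filter.1 hi
        obtain ⟨hi1', q', hq'⟩ := mem_filter.1 hi'
        have h3 : vt i q = vt i' q' := hq.trans hq'.symm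
        have h4 : i.1 = i'.1 := hS.sep _ (hev i hi1).1 _ (hev i' hi1').1 _ (hxx i hi1 q).2.2 _
          (hxx i' hi1' q').2.2 _ _ (by have := q.2.2.2.2.2.2; omega)
          (by have := q'.2.2.2.2.2.2; omega) h3
        simp only [vt, ← h4] at h3
        have h5 := (ph_shift hI q.2.2.2 q'.2.2.2 (hxx i hi1 q).2.2 (hxx i' hi1' q').2.2
          (Nat.zero_le L) (by simpa using h3)).1
        have h6 : i.2.1 = i'.2.1 := by
          rw [← Nat.div_eq_of_lt_le (hxx i hi1 q).1 (hxx i hi1 q).2.1,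
            ← Nat.div_eq_of_lt_le (hxx i' hi1' q').1 (hxx i' hi1' q').2.1, h5]
        exact Prod.ext h4 (Prod.ext h6 h))
    (by
      rw [← hρ]
      have h1 : ρ * (L * ρ ^ T') ≤ ρ * ((1 - γ) / 4) := by
        rw [pow_succ] at hL
        linarith
      have h2 := le_of_mul_le_mul_left h1 hρ0
      push_cast
      linarith)
  let φ' : V → Bool := fun o => if h : S0 o then t0 h.choose else φ o
  have hφ0 : ∀ u ∈ U, ∀ v, ph3_pat j0 v → φ' (own (act n m v u)) = t0 (u, v) := by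
    intro u hu v hv
    have h : S0 (own (act n m v u)) := ⟨(u, v), hu, hv, rfl⟩
    obtain ⟨h1, h2, h3⟩ := h.choose_spec
    obtain ⟨h4, h5⟩ := ph3_injU hm hI' hS hU hu h1 hv h2 h3
    have h6 : h.choose = (u, v) := Prod.ext h4.symm h5.symm
    simp only [φ', dif_pos h, h6]
  have hφ1 : ∀ o, ¬ S0 o → φ' o = φ o := fun o h => by simp only [φ', dif_neg h]
  refine ⟨fun v => (if φ' (own v) then 1 else -1) * (-1) ^ back v, ?_, ?_, ?_, ?_⟩
  · intro v
    rcases neg_one_pow_eq_or ℝ (back v) with h | h <;> cases h' : φ' (own v) <;> simp [h, h']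
  · intro v hv
    obtain ⟨h1, h2⟩ := hS.succ v hv
    simp only [h1, h2, pow_succ]
    ring
  · intro s hs σ hσ y hy π hπ
    obtain ⟨yb, rfl⟩ : ∃ yb : Bool, y = if yb then 1 else -1 := by
      rcases hy with rfl | rfl
      · exact ⟨true, by simp⟩
      · exact ⟨false, by simp⟩
    have hσD : σ < D := by nlinarith
    have hi : (s, σ, yb, π) ∈ ev := by
      simp only [ev, mem_product, mem_filter, mem_range, mem_univ, true_and]
      exact ⟨hs, ⟨hσD, hσ⟩, hπ⟩
    obtain ⟨k0, hk⟩ := hφ (s, σ, yb, π) hi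
    set k := (pp (s, σ, yb, π)).succAbove k0 with hk0
    have hk2 := k.2
    have hG : ∀ i : Fin 2, Good n m (fun v => (if φ' (own v) then 1 else -1) * (-1) ^ back v) j0
        ((n ^ (σ * (2 * (T' + 1) + 2) + π + 2 * k.1 + i.1)) s) (if yb then 1 else -1) := by
      intro i w h1 h2 h3 h4
      have h5 := hk (i, ⟨w, h1, h2, h3, h4⟩)
      have h6 := hφ1 _ (hpp _ hi k (Fin.succAbove_ne _ _) (i, ⟨w, h1, h2, h3, h4⟩))
      simp only [vt, xx, κ, ← hk0] at h5 h6
      simp only [h6, h5]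
      rcases Nat.even_or_odd
        (back (act n m w ((n ^ (σ * (2 * (T' + 1) + 2) + π + 2 * k.1 + i.1)) s))) with h | h
      · rw [if_pos h, h.neg_one_pow]
        cases yb <;> simp
      · rw [if_neg (Nat.not_even_iff_odd.2 h), h.neg_one_pow]
        ring
    refine ⟨σ * (2 * (T' + 1) + 2) + π + 2 * k.1, by omega, by omega, ?_, hG 0, hG 1⟩
    have : σ * (2 * (T' + 1) + 2) = 2 * (σ * (T' + 2)) := by ring
    omega
  · intro u hu
    refine ⟨?_, ?_⟩
    · have h1 := hφ0 u hu [] (Or.inl rfl)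
      rw [act_nil] at h1
      refine ph3_sign _ (hcU u) _ _ ?_
      rw [h1]
      simp [t0]
    · intro w h1 h2 h3 h4
      have h5 := hφ0 u hu w (Or.inr ⟨h1, h2, h3, h4⟩)
      have hne : w ≠ [] := by
        rintro rfl
        simp at h2
      refine ph3_sign _ (by rcases hyU u with h | h <;> simp [h]) _ _ ?_
      rw [h5]
      simp only [t0, if_neg hne, decide_eq_true_eq]

end Pool.Agent.Lib.MP_c8786f_co.W5
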