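import Pool.Agent.Lib.MP_c8786f_co.W5.X1

/-!
Explicit constants: the choice of the scales.
-/

namespace Pool.Agent.Lib.MP_c8786f_co.W5

open Finset

set_option linter.unusedSectionVars false

lemma x_lin : ∀ u : ℕ, 10 ≤ u → 100 * u ≤ 2 ^ u := by
  intro u hu
  induction u, hu using Nat.le_induction with
  | base => norm_num
  | succ u hu ih => rw [pow_succ]; omega

lemma x_D {Y N R : ℕ} (hY : 1024 ≤ Y) (hN : N ≤ Y) (hR : R ≤ Y) :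
    2 * (N * (2 * (6 * Y * R) + 2) + R) + 1 ≤ Y ^ 4 := by
  have h1 : 1 ≤ Y ^ 2 := Nat.one_le_pow _ _ (by omega)
  have h2 : Y ≤ Y ^ 3 := Nat.le_self_pow (by norm_num) _
  calc _ ≤ 2 * (Y * (2 * (6 * Y * Y) + 2 * Y ^ 2) + Y ^ 3) + Y ^ 3 := by
        gcongr
        · omega
        · omega
        · omega
    _ = 31 * Y ^ 3 := by ring
    _ ≤ Y * Y ^ 3 := by gcongr; omega
    _ = _ := by ring

lemma x_mo {A ρ c : ℝ} {u N : ℕ} (hu : 10 ≤ u) (hA0 : 0 < A) (hA : A ≤ 2 ^ u) (h0 : 0 < ρ)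
    (h1 : ρ ≤ 1 - (1 / 2) ^ u) (hc : (1 / 2) ^ u ≤ c) (hN : N ≤ 2 ^ u) :
    (3 / 4 : ℝ) ^ (100 * u - 1) * A *
      (2 * (((N * (2 * (6 * 2 ^ u * (100 * u)) + 2) : ℕ) : ℝ) + (100 * u : ℕ)) + 1) ^ 7 ≤ 1 ∧
    ((48 * (N * (2 * (6 * 2 ^ u * (100 * u)) + 2) + 1) ^ 2 * 16 ^ (100 * u) : ℕ) : ℝ) *
      ρ ^ (6 * 2 ^ u * (100 * u)) ≤ c := by
  have hY : 1024 ≤ 2 ^ u := (Nat.pow_le_pow_right two_pos hu :)
  have hD := x_D hY hN (x_lin u hu)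
  generalize N * (2 * (6 * 2 ^ u * (100 * u)) + 2) = D at hD ⊢
  have hD1 : 2 * ((D : ℝ) + (100 * u : ℕ)) + 1 ≤ (2 ^ u) ^ 4 := by exact_mod_cast hD
  have hD2 : (D : ℝ) + 1 ≤ (2 ^ u) ^ 4 := by exact_mod_cast (by omega : D + 1 ≤ (2 ^ u) ^ 4)
  have e1 : ((1 : ℝ) / 2) ^ u = (2 ^ u)⁻¹ := by rw [one_div, inv_pow]
  have e2 : (3 / 4 : ℝ) ^ (100 * u - 1) ≤ 2 * ((2 ^ u)⁻¹) ^ 40 := by
    have h2 : (3 / 4 : ℝ) ^ (100 * u) = (3 / 4) ^ (100 * u - 1) * (3 / 4) := by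
      rw [← pow_succ]; congr 1; omega
    have h3 : (3 / 4 : ℝ) ^ (100 * u) ≤ ((2 ^ u)⁻¹) ^ 40 := by
      rw [← e1, ← pow_mul, mul_comm u, pow_mul, pow_mul]
      gcongr
      norm_num
    have h4 : (0 : ℝ) ≤ (3 / 4) ^ (100 * u - 1) := by positivity
    linarith
  have e3 : (16 : ℝ) ^ (100 * u) = (2 ^ u) ^ 400 := by
    rw [← pow_mul, show (16 : ℝ) = 2 ^ 4 by norm_num, ← pow_mul]; congr 1; ring
  have e4 : ρ ^ (6 * 2 ^ u * (100 * u)) ≤ ((2 ^ u)⁻¹) ^ 600 := by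
    have hx : (0 : ℝ) < (1 / 2) ^ u := by positivity
    have h2 := one_add_mul_le_pow (a := (1 / 2 : ℝ) ^ u) (by linarith) (2 ^ u)
    have h3 : ((2 ^ u : ℕ) : ℝ) * (1 / 2) ^ u = 1 := by rw [e1]; push_cast; field_simp
    have h4 : ρ ^ 2 ^ u * (1 + (1 / 2) ^ u) ^ 2 ^ u ≤ 1 := by
      rw [← mul_pow]
      exact pow_le_one₀ (by positivity) (by nlinarith)
    have h5 : ρ ^ 2 ^ u ≤ 1 / 2 := by
      have : 0 < ρ ^ 2 ^ u := by positivity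
      nlinarith
    rw [show 6 * 2 ^ u * (100 * u) = 2 ^ u * (u * 600) by ring, pow_mul, ← e1, ← pow_mul (1 / 2 : ℝ)]
    gcongr
  rw [e1] at hc
  push_cast at hD1 ⊢
  rw [e3]
  have hy : (1024 : ℝ) ≤ 2 ^ u := by exact_mod_cast hY
  generalize (2 : ℝ) ^ u = y at *
  have hy1 : 1 ≤ y := by linarith
  constructor
  · calc _ ≤ 2 * y⁻¹ ^ 40 * y * (y ^ 4) ^ 7 := by gcongr
      _ = 2 / y ^ 11 := by field_simp
      _ ≤ 1 := by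
        rw [div_le_one (by positivity)]
        linarith [le_self_pow₀ hy1 (show 11 ≠ 0 by norm_num)]
  · calc _ ≤ y * (y ^ 4) ^ 2 * y ^ 400 * y⁻¹ ^ 600 := by gcongr; linarith
      _ = y⁻¹ * (y ^ 190)⁻¹ := by field_simp
      _ ≤ y⁻¹ := mul_le_of_le_one_right (by positivity) (inv_le_one_of_one_le₀ (one_le_pow₀ hy1))
      _ ≤ c := hc

lemma x_j0 (b : ℕ) {δ : ℝ} (h : 1 ≤ δ * 2 ^ b) :
    ∃ j0 : ℕ, 1 ≤ j0 ∧ 4 * j0 ≤ 5 * b + 28 ∧ (3 / 4 : ℝ) ^ (2 * j0) ≤ δ / 16 := by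
  refine ⟨b + b / 4 + 7, by omega, by omega, ?_⟩
  calc (3 / 4 : ℝ) ^ (2 * (b + b / 4 + 7)) ≤ (3 / 4) ^ (5 * ((b + 5) / 2)) :=
        pow_le_pow_of_le_one (by norm_num) (by norm_num) (by omega)
    _ ≤ (1 / 2) ^ (2 * ((b + 5) / 2)) := by
        rw [pow_mul, pow_mul]
        gcongr
        norm_num
    _ ≤ (1 / 2) ^ (b + 4) := pow_le_pow_of_le_one (by norm_num) (by norm_num) (by omega)
    _ = 1 / 2 ^ b / 16 := by rw [pow_add, one_div_pow]; ring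
    _ ≤ _ := by
        gcongr
        rwa [div_le_iff₀ (by positivity)]

lemma x_u (b : ℕ) : 210 * (b + 20) + 1 ≤ 2 ^ (5 * b + 31) := by
  have h1 : b < 2 ^ b := Nat.lt_two_pow_self
  have h2 : 2 ^ b ≤ 2 ^ (5 * b) := Nat.pow_le_pow_right two_pos (by omega)
  rw [pow_add]
  omega

lemma x_L {Y D R L J : ℕ} (hY : 1024 ≤ Y) (hD : 2 * (D + R) + 1 ≤ Y ^ 4) (hJ : J ≤ Y)
    (hL : L = 96 * (D + 1) ^ 2 * Y ^ 400) :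
    2 * L + 2 * (D + R) + 1 ≤ Y ^ 412 ∧ 4 * (2 * L) * J ≤ Y ^ 412 ∧ Y ≤ Y ^ 412 := by
  have h1 : L ≤ Y ^ 409 :=
    calc L ≤ Y * (Y ^ 4) ^ 2 * Y ^ 400 := by rw [hL]; gcongr <;> omega
      _ = _ := by ring
  have h2 : Y ^ 4 ≤ Y ^ 409 := Nat.pow_le_pow_right (by omega) (by norm_num)
  have h3 : 3 * Y ^ 409 ≤ Y ^ 3 * Y ^ 409 :=
    Nat.mul_le_mul_right _ (le_trans (by omega) (Nat.le_self_pow (by norm_num) Y))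
  have h4 : 8 ≤ Y ^ 2 := le_trans (by omega) (Nat.le_self_pow (by norm_num) Y)
  rw [show Y ^ 3 * Y ^ 409 = Y ^ 412 by ring] at h3
  refine ⟨by omega, ?_, Nat.le_self_pow (by norm_num) Y⟩
  calc 4 * (2 * L) * J = 8 * L * J := by ring
    _ ≤ Y ^ 2 * Y ^ 409 * Y := by gcongr
    _ = _ := by ring

lemma x_top {Y a : ℕ} (hY : 1024 ≤ Y) (ha : a < 2 ^ 19) : 4 * Y ^ a ≤ Y ^ 2 ^ 19 :=
  calc 4 * Y ^ a ≤ Y * Y ^ a := by gcongr; omega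
    _ = Y ^ (a + 1) := by ring
    _ ≤ _ := Nat.pow_le_pow_right (by omega) ha

lemma x_a (k b : ℕ) {δ : ℝ} (hk : 1 ≤ k) (hδb : 1 ≤ δ * 2 ^ b) : 0 < δ ∧ ∃ M N : ℕ,
    M = 2 ^ (b + 20) ∧ N = 2 ^ (b + 5) ∧ 2 * 6480 / (M : ℝ) ≤ δ / 2 / 20 ∧
    2 / ((N : ℝ) * k) ≤ δ / 10 ∧ 20 / δ ≤ N ∧ (2 : ℝ) ^ 20 ≤ M ∧
    ∀ Z : ℝ, M ≤ Z → 1 ≤ min (δ / 60) 1 * Z ∧ 1 ≤ δ / 2 / 20 * Z := by
  have hb1 : (1 : ℝ) ≤ 2 ^ b := one_le_pow₀ one_le_two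
  have hδ : 0 < δ := by
    by_contra h
    nlinarith
  have hk0 : (1 : ℝ) ≤ k := by exact_mod_cast hk
  refine ⟨hδ, _, _, rfl, rfl, ?_⟩
  push_cast
  rw [pow_add, pow_add]
  generalize (2 : ℝ) ^ b = x at *
  refine ⟨?_, ?_, ?_, by linarith, fun Z hZ => ?_⟩
  · rw [div_le_iff₀ (by positivity)]
    linarith
  · rw [div_le_iff₀ (by positivity)]
    have : δ * x * 1 ≤ δ * x * k := by gcongr
    linarith
  · rw [div_le_iff₀ hδ]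
    linarith
  · rw [min_mul_of_nonneg _ _ (by linarith)]
    have : δ * (x * 2 ^ 20) ≤ δ * Z := by gcongr
    exact ⟨le_min (by linarith) (by linarith), by linarith⟩

lemma x_b {k b j0 M N : ℕ} {A a ρ c : ℝ} (hj1 : 4 * j0 ≤ 5 * b + 28) (hMb : M = 2 ^ (b + 20))
    (hNb : N = 2 ^ (b + 5)) (hkb : k ≤ 2 ^ b) (hA : 0 < A + a) (h1 : A ≤ (M : ℝ) ^ 210)
    (hN : a ≤ N) (hρ0 : 0 < ρ) (hρ1 : ρ ≤ 1 - (1 / 2) ^ (2 * 4 ^ (2 * j0) + 1))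
    (hc : (1 / 2) ^ (4 * 4 ^ (2 * j0) + 4) ≤ c) : ∃ T R Y : ℕ, 1 ≤ R ∧ 2 * j0 ≤ R ∧
    (3 / 4 : ℝ) ^ (R - 1) * (A + a) * (2 * (((M * 6480 * (2 * T + 2) : ℕ) : ℝ) + R) + 1) ^ 7 ≤ 1 ∧
    ((48 * (M * 6480 * (2 * T + 2) + 1) ^ 2 * 16 ^ R : ℕ) : ℝ) * ρ ^ T ≤ c / 2 ∧
    (1024 ≤ Y ∧ M * 6480 ≤ Y ∧ (4 * N + 2) * k ≤ Y ∧ 2 * (M * 6480 * (2 * T + 2) + R) + 1 ≤ Y ^ 4 ∧
      16 ^ R = Y ^ 400 ∧ 1 ≤ (3 / 4 : ℝ) ^ (R - 1) * (Y : ℝ) ^ 412 ∧ R ≤ Y) ∧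
    Y ^ 2 ^ 19 = 2 ^ 2 ^ (5 * b + 50) := by
  obtain ⟨u, hu⟩ : ∃ u : ℕ, u = 2 ^ (5 * b + 31) := ⟨_, rfl⟩
  have hu1 := x_u b
  rw [← hu] at hu1
  have hu2 : 4 * 4 ^ (2 * j0) + 5 ≤ u := by
    have h1 : 4 ^ (2 * j0) ≤ 2 ^ (5 * b + 28) := by
      rw [show (4 : ℕ) = 2 ^ 2 by norm_num, ← pow_mul]
      exact Nat.pow_le_pow_right two_pos (by omega)
    have h2 : 2 ^ 28 ≤ 2 ^ (5 * b + 28) := Nat.pow_le_pow_right two_pos (by omega)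
    rw [hu, show 5 * b + 31 = 5 * b + 28 + 3 from rfl, pow_add _ _ 3]
    omega
  have hu3 : 2 * j0 < 4 ^ (2 * j0) := Nat.lt_pow_self (by norm_num)
  have hY : 1024 ≤ 2 ^ u := (Nat.pow_le_pow_right two_pos (by omega : 10 ≤ u) :)
  have hMY : M * 6480 ≤ 2 ^ u := by
    refine le_trans ?_ (Nat.pow_le_pow_right two_pos (by omega : b + 20 + 13 ≤ u))
    rw [pow_add _ _ 13, hMb]
    omega
  have hJY : (4 * N + 2) * k ≤ 2 ^ u := by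
    refine le_trans ?_ (Nat.pow_le_pow_right two_pos (by omega : b + 5 + 3 + b ≤ u))
    have : 0 < N := by rw [hNb]; positivity
    rw [pow_add _ _ b, pow_add _ _ 3, ← hNb]
    exact Nat.mul_le_mul (by omega) hkb
  obtain ⟨hR3, hR4⟩ := x_mo (A := A + a) (ρ := ρ) (c := c / 2) (u := u) (by omega) hA (by
      have h2 : (N : ℝ) ≤ M ^ 210 := by
        rw [hNb, hMb, Nat.cast_pow, Nat.cast_pow, ← pow_mul]
        exact pow_le_pow_right₀ (by norm_num) (by nlinarith only [Nat.zero_le b])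
      have h3 : 2 * (M : ℝ) ^ 210 ≤ 2 ^ u := by
        rw [hMb, Nat.cast_pow, ← pow_mul, Nat.cast_ofNat, ← pow_succ']
        exact pow_le_pow_right₀ (by norm_num) (by rwa [mul_comm])
      exact (add_le_add h1 (hN.trans h2)).trans ((two_mul _).symm.trans_le h3)) hρ0
    (hρ1.trans (sub_le_sub_left (pow_le_pow_of_le_one (by norm_num) (by norm_num) (by omega)) _))
    (by
      have h1 : (1 / 2 : ℝ) ^ u ≤ (1 / 2) ^ (4 * 4 ^ (2 * j0) + 4 + 1) :=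
        pow_le_pow_of_le_one (by norm_num) (by norm_num) hu2
      rw [pow_succ] at h1
      refine h1.trans ?_
      rw [mul_one_div]
      gcongr) hMY
  refine ⟨6 * 2 ^ u * (100 * u), 100 * u, 2 ^ u, by omega, by omega, hR3, hR4,
    ⟨hY, hMY, hJY, x_D hY hMY (x_lin u (by omega)), ?_, ?_, x_lin u (by omega)⟩, ?_⟩
  · rw [← pow_mul, show (16 : ℕ) = 2 ^ 4 by norm_num, ← pow_mul]; congr 1; ring
  · have h1 : (1 / 2 : ℝ) ^ (u * 412) ≤ (3 / 4) ^ (100 * u - 1) :=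
      (pow_le_pow_of_le_one (by norm_num) (by norm_num) (by omega)).trans
        (pow_le_pow_left₀ (by norm_num) (by norm_num) _)
    push_cast
    rw [← pow_mul, ← div_le_iff₀ (by positivity), ← one_div_pow]
    exact h1
  · rw [← pow_mul, hu, ← pow_add]

lemma x_cd {k j0 M N T R Y D L : ℕ} {ε ε2 α : ℝ} (hk : 1 ≤ k) (hM : (2 : ℝ) ^ 20 ≤ M)
    (hε : ∀ Z : ℝ, M ≤ Z → 1 ≤ ε * Z ∧ 1 ≤ ε2 * Z) (hR2 : 2 * j0 ≤ R)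
    (hD : D = M * 6480 * (2 * T + 2)) (hL : L = 96 * (D + 1) ^ 2 * 16 ^ R)
    (hα : α = (3 / 4) ^ (R - 1))
    (h : 1024 ≤ Y ∧ M * 6480 ≤ Y ∧ (4 * N + 2) * k ≤ Y ∧
      2 * (M * 6480 * (2 * T + 2) + R) + 1 ≤ Y ^ 4 ∧
      16 ^ R = Y ^ 400 ∧ 1 ≤ (3 / 4 : ℝ) ^ (R - 1) * (Y : ℝ) ^ 412 ∧ R ≤ Y) :
    (∀ K1 : ℕ, (∀ Z : ℝ, 2 ^ 20 ≤ Z → 1 ≤ ε * Z → 1 ≤ ε2 * Z → M ≤ Z → 2 * (D + R) + 1 ≤ Z →
      L + D + R ≤ Z → (2 * L : ℕ) ≤ Z → ((4 * N + 2) * k : ℕ) ≤ Z → (K1 : ℝ) ≤ Z ^ 720) →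
      K1 + 2 * L + 2 * (D + R) + 8 * j0 + 2 ≤ Y ^ 2 ^ 19) ∧
    ∀ K2 Φ : ℕ, (∀ Z : ℝ, 2 ^ 20 ≤ Z → (0 : ℝ) ≤ Φ → 1 ≤ 2 * α * Z → (2 * L : ℕ) ≤ Z →
      (4 * (2 * L) * ((4 * N + 2) * k) : ℕ) ≤ Z → k ≤ Z → N ≤ Z →
      (K2 : ℝ) ≤ Z ^ 12 * (Φ + 1) + Φ + 1) → K2 + Φ ≤ Y ^ 2 ^ 19 * (Φ + 1) := by
  obtain ⟨hY, hMY, hJY, hDY, h16, hαY, hRY⟩ := h
  rw [← hD] at hDY
  rw [← hα] at hαY
  obtain ⟨y1, y2, y3⟩ := x_L hY hDY hJY (h16 ▸ hL)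
  clear hD hL hα h16
  have yc : ∀ {a : ℕ}, a ≤ Y ^ 412 → (a : ℝ) ≤ (Y : ℝ) ^ 412 := fun h => by exact_mod_cast h
  have yM : (M : ℝ) ≤ (Y : ℝ) ^ 412 := yc (by omega)
  refine ⟨fun K1 hK1 => ?_, fun K2 Φ hK2 => ?_⟩
  · have h1 := hK1 _ (hM.trans yM) (hε _ yM).1 (hε _ yM).2 yM
      (by exact_mod_cast yc (a := 2 * (D + R) + 1) (by omega))
      (by exact_mod_cast yc (a := L + D + R) (by omega)) (yc (by omega)) (yc (by omega))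
    rw [← pow_mul] at h1
    have h2 : K1 ≤ Y ^ (412 * 720) := by exact_mod_cast h1
    have h3 : Y ^ 412 ≤ Y ^ (412 * 720) := Nat.pow_le_pow_right (by omega) (by norm_num)
    have h4 := x_top hY (show 412 * 720 < 2 ^ 19 by norm_num)
    have h5 : Y * 1024 ≤ Y ^ 412 := by
      rw [show 412 = 411 + 1 from rfl, pow_succ']
      exact Nat.mul_le_mul_left _ (hY.trans (Nat.le_self_pow (by norm_num) Y))
    generalize Y ^ (412 * 720) = a at *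
    generalize Y ^ 2 ^ 19 = a' at *
    omega
  · have h0 : k ≤ (4 * N + 2) * k := Nat.le_mul_of_pos_left _ (by omega)
    have h0' : 4 * N + 2 ≤ (4 * N + 2) * k := Nat.le_mul_of_pos_right _ hk
    have h1 := hK2 _ (hM.trans yM) (Nat.cast_nonneg _)
      (by rw [mul_assoc]; exact hαY.trans (le_mul_of_one_le_left (zero_le_one.trans hαY) one_le_two))
      (yc (by omega)) (yc y2) (yc (by omega)) (yc (by omega))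
    rw [← pow_mul] at h1
    have h2 : K2 ≤ Y ^ (412 * 12) * (Φ + 1) + Φ + 1 := by exact_mod_cast h1
    have h3 := Nat.mul_le_mul_right (Φ + 1) (x_top hY (show 412 * 12 < 2 ^ 19 by norm_num))
    have h4 : 1 * (Φ + 1) ≤ Y ^ (412 * 12) * (Φ + 1) :=
      Nat.mul_le_mul_right _ (Nat.one_le_pow _ _ (by omega))
    rw [mul_assoc] at h3
    generalize Y ^ (412 * 12) * (Φ + 1) = a at *
    generalize Y ^ 2 ^ 19 * (Φ + 1) = a' at *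
    omega


end Pool.Agent.Lib.MP_c8786f_co.W5
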