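import Pool.Agent.Lib.MP_c8786f_co.W5.Defs3

/-!
Explicit constants: the interface statements.
-/

namespace Pool.Agent.Lib.MP_c8786f_co.W5

open Finset
open scoped RealInnerProductSpace

set_option linter.unusedSectionVars false

/-- GL2 with bounds. -/
def GL2X : Prop :=
  ∀ c CE : ℝ, 0 < c → c ≤ 1 → 1 ≤ CE → ∃ A : ℝ, 0 < A ∧
    (∀ Z : ℝ, 2 ^ 20 ≤ Z → 1 ≤ c * Z → CE ≤ Z → A ≤ Z ^ 14) ∧ ∀ P α M2 : ℝ, 1 ≤ P → 0 ≤ M2 →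
    α * A * P ^ 7 ≤ 1 → ∃ K : ℕ,
    (∀ Z : ℝ, 2 ^ 20 ≤ Z → 1 ≤ c * Z → CE ≤ Z → P ≤ Z → M2 ≤ Z → (K : ℝ) ≤ Z ^ 12) ∧
    ∀ (V E T X H : Type) [Fintype V] [DecidableEq V] [Fintype E] [DecidableEq E] [Fintype T]
      [DecidableEq T] [Fintype X] [NormedAddCommGroup H] [InnerProductSpace ℝ H]
      [FiniteDimensional ℝ H]
      (s t : E → V) (β : T → X → V → ℝ) (Λ : T → Finset V) (own : V → T) (F : T → Finset E)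
      (l1 : ℝ) (L1 : ℕ), Geo s t β Λ own F α P l1 L1 0 →
      (∀ Y : Finset V, Y.card ≤ K → Y.card ≤ cut s t Y) → (Fintype.card X : ℝ) + 1 ≤ P →
      ∀ (Y : Finset V) (R : Finset T), R.Nonempty → (∀ τ ∈ R, Λ τ ⊆ Y) → cut s t Y ≤ R.card →
      ∀ f : V → H, (∀ b : H, ∑ e, ⟪b, f (t e) - f (s e)⟫ ^ 2 ≤ CE * ‖b‖ ^ 2) →
      ∑ e, ‖f (t e) - f (s e)‖ ^ 2 ≤ CE * (P * R.card) →
      ((Y.filter fun v => c / 16 < ‖f v‖).card : ℝ) ≤ M2 * R.card →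
      (∃ τ ∈ R, ∀ x, ‖∑ v, β τ x v • f v‖ ≤ c) ∨
      (∃ τ ∈ R, ∃ τ' ∈ R, τ ≠ τ' ∧ ∃ y : H, ∀ x,
        ‖∑ v, β τ x v • f v - y‖ ≤ c ∧ ‖∑ v, β τ' x v • f v - y‖ ≤ c)

/-- Sparse with bounds. -/
def SparseX : Prop :=
  ∀ ε w c : ℝ, 0 < ε → ε ≤ 1 → 1 ≤ w → 0 < c → c ≤ 1 → ∃ A : ℝ, 0 < A ∧
    (∀ Z : ℝ, 2 ^ 20 ≤ Z → 1 ≤ c * Z → 1 ≤ ε * Z → A ≤ Z ^ 42) ∧
    ∀ (P α l1 : ℝ) (L1 J : ℕ), 1 ≤ P → 1 ≤ J → α * A * P ^ 7 ≤ 1 → ∃ K : ℕ,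
    (∀ Z : ℝ, 2 ^ 20 ≤ Z → 1 ≤ c * Z → 1 ≤ ε * Z → P ≤ Z → L1 ≤ Z → J ≤ Z → (K : ℝ) ≤ Z ^ 36) ∧
    ∀ (V E T X : Type) [Fintype V] [DecidableEq V] [Fintype E] [DecidableEq E] [Fintype T]
      [DecidableEq T] [Fintype X]
      (s t : E → V) (β : T → X → V → ℝ) (Λ : T → Finset V) (own : V → T) (F : T → Finset E),
      Geo s t β Λ own F α P l1 L1 0 → Iso s t K → (Fintype.card X : ℝ) + 1 ≤ P →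
      ∀ m0 : X → ℝ, (∀ x, 0 ≤ m0 x) → ∑ x, m0 x = 1 →
      ∀ (cl : T → T) (rd B : Finset T),
      (∀ τ, τ ∉ B → (univ.filter fun τ' => cl τ' = cl τ).card ≤ J) →
      Move s t β m0 ε w c cl rd ∨
        ∀ Y : Finset V, (∀ v ∈ Y, own v ∉ B) → Y.card ≤ 4 * L1 * J * cut s t Y

/-- StageC with bounds. -/
def StageCX : Prop :=
  ∀ ε w c : ℝ, 0 < ε → ε ≤ 1 → 1 ≤ w → 0 < c → c ≤ 1 → ∃ A : ℝ, 0 < A ∧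
    (∀ Z : ℝ, 2 ^ 20 ≤ Z → 1 ≤ c * Z → 1 ≤ ε * Z → A ≤ Z ^ 42) ∧
    ∀ (P α l1 : ℝ) (L1 A' : ℕ), 1 ≤ P → 0 ≤ l1 → α * A * P ^ 7 ≤ 1 → ∃ K : ℕ,
    (∀ Z : ℝ, 2 ^ 20 ≤ Z → 1 ≤ c * Z → 1 ≤ ε * Z → P ≤ Z → l1 ≤ Z → L1 ≤ Z → A' ≤ Z →
      (K : ℝ) ≤ Z ^ 144) ∧
    ∀ (V E T X : Type) [Fintype V] [DecidableEq V] [Fintype E] [DecidableEq E] [Fintype T]
      [DecidableEq T] [Fintype X]
      (s t : E → V) (β : T → X → V → ℝ) (Λ : T → Finset V) (own : V → T) (F : T → Finset E),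
      Geo s t β Λ own F α P l1 L1 0 → Iso s t K → (Fintype.card X : ℝ) + 1 ≤ P →
      ∀ m0 : X → ℝ, (∀ x, 0 ≤ m0 x) → ∑ x, m0 x = 1 →
      ∀ (cl : T → T) (rd B : Finset T), (∀ τ, τ ∉ rd → ∀ τ', cl τ' = cl τ → τ' = τ) →
      B ⊆ rd → (∀ τ ∈ B, ∀ τ' ∈ B, cl τ = cl τ') →
      (∀ Y : Finset V, (∀ v ∈ Y, own v ∉ B) → Y.card ≤ A' * cut s t Y) →
      (2 ≤ (univ.image cl).card ∨ ∃ τ, τ ∉ rd) → Move s t β m0 ε w c cl rd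

/-- AB3 with bounds. -/
def AB3X : Prop :=
  ∀ (ε ε2 : ℝ) (M : ℕ), 0 < ε → ε ≤ 1 → 0 < ε2 → 0 < M → ∃ A : ℝ, 0 < A ∧
    (∀ Z : ℝ, 2 ^ 20 ≤ Z → 1 ≤ ε * Z → 1 ≤ ε2 * Z → M ≤ Z → A ≤ Z ^ 210) ∧
    ∀ (P α l1 : ℝ) (L1 J : ℕ), 1 ≤ P → 0 ≤ l1 → 2 ≤ J → α * A * P ^ 7 ≤ 1 → ∃ K : ℕ,
    (∀ Z : ℝ, 2 ^ 20 ≤ Z → 1 ≤ ε * Z → 1 ≤ ε2 * Z → M ≤ Z → P ≤ Z → l1 ≤ Z → L1 ≤ Z → J ≤ Z →
      (K : ℝ) ≤ Z ^ 720) ∧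
    ∀ (V E T X : Type) [Fintype V] [DecidableEq V] [Fintype E] [DecidableEq E] [Fintype T]
      [DecidableEq T] [Fintype X]
      (s t : E → V) (β : T → X → V → ℝ) (Λ : T → Finset V) (own : V → T) (F : T → Finset E),
      Geo s t β Λ own F α P l1 L1 0 → Iso s t K → (Fintype.card X : ℝ) + 1 ≤ P →
      ∀ m0 : X → ℝ, (∀ x, 0 ≤ m0 x) → ∑ x, m0 x = 1 →
      ∀ (σ : V → ℝ) (Z : Set (E → ℝ)), Fix3 s t β m0 own σ Z J (4 * L1 * J) →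
      ∀ (p : T → ℤ) (kap : T → ℤ → Fin M → X → ℝ),
      (∃ n : ℤ, ∑ τ, (p τ : ℝ) - ∑ v, σ v = 2 * n) →
      (∀ τ Q i, |Q| ≤ 6480 → Even (Q - p τ) →
        ∑ x, kap τ Q i x = Q ∧ ∑ x, |kap τ Q i x| ≤ 6480) →
      ∃ z0 ∈ Z, ∃ (z : E → ℝ) (Q : T → ℤ) (i : T → Fin M) (ρ : T → X → ℝ),
        (∀ e, |z e| ≤ 6 * ε) ∧
        (∀ τ, |Q τ| ≤ 6480 ∧ Even (Q τ - p τ) ∧ ∑ x, ρ τ x = 0 ∧ ∑ x, |ρ τ x| ≤ ε2) ∧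
        ∀ v, bd s t (z0 + z) v = ∑ τ, ∑ x, (Q τ * m0 x - (∑ j, kap τ (Q τ) j x) / M +
          kap τ (Q τ) (i τ) x + ρ τ x) * β τ x v - σ v

/-- Route with bounds. -/
def RouteX : Prop :=
  ∀ (L1 A' : ℕ) (Φ η ξ : ℝ), 0 < η → 0 < ξ → ∃ K : ℕ,
    (∀ Z : ℝ, 2 ^ 20 ≤ Z → 0 ≤ Φ → 1 ≤ η * Z → 1 ≤ ξ * Z → L1 ≤ Z → A' ≤ Z →
      (K : ℝ) ≤ Z ^ 4 * (Φ + 1)) ∧
    ∀ (V E T X : Type) [Fintype V] [DecidableEq V] [Fintype E] [DecidableEq E] [Fintype T]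
      [DecidableEq T] [Fintype X]
      (s t : E → V) (β : T → X → V → ℝ) (Λ : T → Finset V) (own : V → T) (F : T → Finset E)
      (α l0 l1 : ℝ), Geo s t β Λ own F α l0 l1 L1 0 →
      (∀ Y : Finset V, Y.card ≤ K → Y.card ≤ 2 * cut s t Y) →
      ∀ m0 : X → ℝ, (∀ x, 0 ≤ m0 x) → ∑ x, m0 x = 1 → ∀ B : Finset T,
      (∀ Y : Finset V, (∀ v ∈ Y, own v ∉ B) → Y.card ≤ A' * cut s t Y) →
      ∀ σ : V → ℝ, (∀ v, 2 * |σ v| ≤ ξ) → ∑ v, |σ v| ≤ Φ →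
      ∃ (z : E → ℝ) (y : T → ℝ), (∀ e, |z e| ≤ ξ + 2 * η) ∧ (∀ τ, |y τ| ≤ η) ∧
        (∀ τ, τ ∉ B → y τ = 0) ∧ ∀ v, bd s t z v = ∑ τ, y τ * mu β m0 τ v - σ v

/-- Fix3 with bounds. -/
def Fix3X : Prop :=
  ∀ (L1 A' k n K0 : ℕ) (Φ ξ : ℝ), 1 ≤ k → 1 ≤ n → 0 < ξ → ∃ K : ℕ,
    (∀ Z : ℝ, 2 ^ 20 ≤ Z → 0 ≤ Φ → 1 ≤ ξ * Z → L1 ≤ Z → A' ≤ Z → k ≤ Z → n ≤ Z →
      (K : ℝ) ≤ Z ^ 12 * (Φ + 1) + K0 + 1) ∧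
    ∀ (V E T X : Type) [Fintype V] [DecidableEq V] [Fintype E] [DecidableEq E] [Fintype T]
      [DecidableEq T] [Fintype X]
      (s t : E → V) (β : T → X → V → ℝ) (Λ : T → Finset V) (own : V → T) (F : T → Finset E)
      (α l0 l1 : ℝ) (wt : E → ℕ), Geo s t β Λ own F α l0 l1 L1 0 →
      (∀ Y : Finset V, Y.card ≤ K → Y.card ≤ 2 * cut s t Y ∧ Y.card ≤ wcut s t wt Y) →
      (∀ Y : Finset V, K0 < Y.card → K0 < Yᶜ.card → 2 * k ≤ wcut s t wt Y) →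
      ∀ m0 : X → ℝ, (∀ x, 0 ≤ m0 x) → ∑ x, m0 x = 1 →
      ∀ σ : V → ℝ, (∀ v, 2 * |σ v| ≤ ξ) → ∑ v, |σ v| ≤ Φ →
      Fix3 s t β m0 own σ {z | ∀ e, |z e| ≤ wt e / k + 2 / (n * k) + ξ} ((4 * n + 2) * k) A'

/-- Phases3 with bounds. -/
def Phases3X : Prop :=
  ∀ j0 : ℕ, 1 ≤ j0 → ∃ ρ c : ℝ, 0 < ρ ∧ ρ ≤ 1 - (1 / 2) ^ (2 * 4 ^ (2 * j0) + 1) ∧
    (1 / 2) ^ (4 * 4 ^ (2 * j0) + 4) ≤ c ∧ ∀ T D R L : ℕ, 2 * j0 ≤ R →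
    L * ρ ^ T ≤ c →
    ∀ (V : Type) [Fintype V] [DecidableEq V] (n : Equiv.Perm V) (m : V → V),
    (∀ v, m (m v) = v) → Inj n m (2 * L + 2 * D + 8 * j0 + 1) →
    ∀ S own back, Seg n m S own back D R L → ∀ (U : Finset V) (yU cU : V → ℝ),
    (∀ u, yU u = 1 ∨ yU u = -1) → (∀ u, cU u = 1 ∨ cU u = -1) →
    (∀ u ∈ U, ∀ u' ∈ U, ∀ w : List (Fin 3), w.length ≤ 2 * L + D + 8 * j0 →
      act n m w u = u' → u = u') →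
    (∀ s ∈ S, ∀ j ≤ D, ∀ w : List (Fin 3), w.length ≤ 4 * j0 → act n m w ((n ^ j) s) ∉ U) →
    ∃ χ : V → ℝ, (∀ v, χ v = 1 ∨ χ v = -1) ∧ (∀ v, n v ∉ S → χ (n v) = -χ v) ∧
      (∀ s ∈ S, ∀ σ : ℕ, (σ + 1) * (2 * T + 2) ≤ D → ∀ y : ℝ, y = 1 ∨ y = -1 → ∀ π < 2,
        ∃ j, σ * (2 * T + 2) ≤ j ∧ j + 2 ≤ σ * (2 * T + 2) + 2 * T + 1 ∧ j % 2 = π ∧
          Good n m χ j0 ((n ^ j) s) y ∧ Good n m χ j0 ((n ^ (j + 1)) s) y) ∧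
      ∀ u ∈ U, χ u = cU u ∧ Good n m χ j0 u (yU u)

/-- ModelY with bounds. -/
def ModelYX : Prop :=
  ∀ (k b : ℕ) (δ : ℝ), 1 ≤ k → k ≤ 2 ^ b → 1 ≤ δ * 2 ^ b → ∃ D : ℕ, D ≤ 2 ^ 2 ^ (5 * b + 50) ∧
    ∀ Φ : ℕ, ∃ K : ℕ, K ≤ 2 ^ 2 ^ (5 * b + 50) * (Φ + 1) ∧
    ∀ (V : Type) [Fintype V] [DecidableEq V] (n : Equiv.Perm V) (m : V → V) (B : Finset V),
    (∀ v, m (m v) = v) → Amb n m B k D Φ K → Ext n m B (1 / 2 + 2 / k + δ)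

/-- ModelX with bounds. -/
def ModelXX : Prop :=
  ∀ (k b : ℕ) (δ : ℝ), 1 ≤ k → k ≤ 2 ^ b → 1 ≤ δ * 2 ^ b →
    ∃ D : ℕ, D ≤ 2 ^ 2 ^ (5 * b + 50) + 2 ∧ ∀ Φ : ℕ, ∃ K0 : ℕ,
    K0 ≤ 4 * 2 ^ 2 ^ (5 * b + 50) * (Φ + 1) ∧ ∀ K, K0 ≤ K →
    ∀ (V : Type) [Fintype V] [DecidableEq V] (n : Equiv.Perm V) (m : V → V) (B : Finset V),
    (∀ v, m (m v) = v) → Blob n m B k D Φ K → Ext n m B (1 / 2 + 2 / k + δ)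

/-- Blob with bounds. -/
def BlobX : Prop :=
  ∀ k D N : ℕ, ∃ Φ K0 : ℕ, Φ = (D + 2) * ((D + 3) * k + N) ∧ K0 = (D + 1) * Φ + (D + 1) + Φ ∧
    ∀ K, K0 ≤ K →
    ∀ (V : Type) [Fintype V] [DecidableEq V] (n : Equiv.Perm V) (m : V → V) (B0 : Finset V),
    (∀ v, m (m v) = v) → hcut n m B0 ≤ N → K < B0.card →
    (∀ Y ⊆ B0, Y.Nonempty → Y.card ≤ K → Y.card + 2 ≤ hcut n m Y) →
    ∃ B ⊆ B0, Blob n m B k D Φ K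

/-- A reducible set, with an explicit girth. -/
def FinalXE : Prop :=
  ∀ p q N : ℕ, 4 * q < p →
    ∀ (V E : Type) [Fintype V] [Fintype E] [DecidableEq V] (s t : E → V) (cyc : Finset V → Prop),
    (∀ v, (univ.filter fun e => s e = v).card + (univ.filter fun e => t e = v).card = 3) →
    (∀ Y, cyc Y ↔ ∃ C : Finset E, C.Nonempty ∧ (∀ e ∈ C, s e ∈ Y ∧ t e ∈ Y) ∧
      ∀ v, Even ((C.filter fun e => s e = v).card + (C.filter fun e => t e = v).card)) →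
    (∀ Y : Finset V, (univ.filter fun e => ¬(s e ∈ Y ↔ t e ∈ Y)).card ≠ 1) →
    ∀ S : Finset V, S.card ≤ N → cyc Sᶜ → (∀ Y, cyc Y → Disjoint Y S → 2 ^ (2 ^ 76 * p ^ 10) * (N + 1) ≤ Y.card) →
    ∃ B : Finset V, cyc B ∧ Disjoint B S ∧
      (univ.filter fun e => ¬(s e ∈ B ↔ t e ∈ B)).card < 2 ^ (2 ^ 76 * p ^ 10) * (N + 1) ∧
      ∀ f : E → ℤ,
      (∀ e, ¬(s e ∈ B ∧ t e ∈ B) → (q : ℤ) ≤ |f e| ∧ |f e| ≤ p - q) →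
      (∀ v, v ∉ B → (p : ℤ) ∣
        ∑ e ∈ univ.filter (fun e => s e = v), f e - ∑ e ∈ univ.filter (fun e => t e = v), f e) →
      ∃ f' : E → ℤ, (∀ e, (q : ℤ) ≤ |f' e| ∧ |f' e| ≤ p - q) ∧
        (∀ e, ¬(s e ∈ B ∧ t e ∈ B) → (p : ℤ) ∣ f' e - f e) ∧
        ∀ v, ∑ e ∈ univ.filter (fun e => s e = v), f' e =
          ∑ e ∈ univ.filter (fun e => t e = v), f' e

/-- Smallest counterexamples, with an explicit girth. -/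
def MinE : Prop :=
  ∀ p q N : ℕ, 4 * q < p →
    ∀ (V E : Type) [Fintype V] [Fintype E] [DecidableEq V] (s t : E → V) (cyc : Finset V → Prop),
    (∀ v, (univ.filter fun e => s e = v).card + (univ.filter fun e => t e = v).card = 3) →
    (∀ Y, cyc Y ↔ ∃ C : Finset E, C.Nonempty ∧ (∀ e ∈ C, s e ∈ Y ∧ t e ∈ Y) ∧
      ∀ v, Even ((C.filter fun e => s e = v).card + (C.filter fun e => t e = v).card)) →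
    (∀ Y : Finset V, (univ.filter fun e => ¬(s e ∈ Y ↔ t e ∈ Y)).card ≠ 1) →
    ∀ S : Finset V, S.card ≤ N → cyc Sᶜ → (∀ Y, cyc Y → Disjoint Y S → 2 ^ (2 ^ 76 * p ^ 10) * (N + 1) ≤ Y.card) →
    (∀ (V' E' : Type) [Fintype V'] [Fintype E'] [DecidableEq V'] (s' t' : E' → V'),
      Fintype.card E' < Fintype.card E →
      (∀ Y : Finset V', (univ.filter fun e => ¬(s' e ∈ Y ↔ t' e ∈ Y)).card ≠ 1) →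
      ∃ f : E' → ℤ, (∀ e, (q : ℤ) ≤ |f e| ∧ |f e| ≤ p - q) ∧
        ∀ v, ∑ e ∈ univ.filter (fun e => s' e = v), f e =
          ∑ e ∈ univ.filter (fun e => t' e = v), f e) →
    ∃ f : E → ℤ, (∀ e, (q : ℤ) ≤ |f e| ∧ |f e| ≤ p - q) ∧
      ∀ v, ∑ e ∈ univ.filter (fun e => s e = v), f e = ∑ e ∈ univ.filter (fun e => t e = v), f e

/-- Fixed cyclic connectivity, with an explicit girth. -/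
def Final2E : Prop :=
  ∀ k p q : ℕ, 4 * k * q + 4 * p < p * k →
    ∀ (V E : Type) [Fintype V] [Fintype E] [DecidableEq V] (s t : E → V) (cyc : Finset V → Prop),
    (∀ v, (univ.filter fun e => s e = v).card + (univ.filter fun e => t e = v).card = 3) →
    (∀ Y, cyc Y ↔ ∃ C : Finset E, C.Nonempty ∧ (∀ e ∈ C, s e ∈ Y ∧ t e ∈ Y) ∧
      ∀ v, Even ((C.filter fun e => s e = v).card + (C.filter fun e => t e = v).card)) →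
    (∀ Y, cyc Y → 2 ^ (2 ^ 64 * (p * k) ^ 5) ≤ Y.card) →
    (∀ Y, cyc Y → cyc Yᶜ → k ≤ (univ.filter fun e => ¬(s e ∈ Y ↔ t e ∈ Y)).card) →
    ∃ f : E → ℤ, (∀ e, (q : ℤ) ≤ |f e| ∧ |f e| ≤ p - q) ∧
      ∀ v, ∑ e ∈ univ.filter (fun e => s e = v), f e = ∑ e ∈ univ.filter (fun e => t e = v), f e

end Pool.Agent.Lib.MP_c8786f_co.W5
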